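import Pool.Agent.Lib.EQD.DkB

/-!
# Module AAB: algebra and trivial bounds of the multilinear average

PROOFS. Products over `Fin n` with one changed factor: `Finset.mul_prod_erase`, `Function.update`. `n2_AR_le`: Jensen (`tvr_sq_le`), `avr_shift`.
`AA_mul_cast`: `t ↦ pz M P t` has period `M` (`Int.emod_emod_of_dvd`, `Polynomial` values modulo `M`), split `range (M k)` into `k` blocks of length `M`.
`AA_young`: `∏ a l ≤ δ^(-n) a_i ^ n + δ ∑_(l ≠ i) a_l ^ n` for `a ≥ 0`, `0 < δ ≤ 1` (weighted AM-GM: `∏ a_l = (δ^(-(n-1)/n) a_i) ∏_(l≠i) (δ^(1/n) a_l)`, or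
`Real.inner_le_nnorm_mul_nnorm`-free proof: if some `a_l`, `l ≠ i`, satisfies `δ a_l ^ n ≥ ∏`, done; otherwise all `a_l < (∏/δ)^(1/n)` so `∏ ≤ a_i (∏/δ)^((n-1)/n)`,
i.e. `∏ ≤ a_i ^ n δ^(-(n-1))`), applied at each `t`, and translation invariance.
-/

set_option autoImplicit false

open Finset Polynomial

namespace Pool.Agent.EQD

open Pool.Agent.HLT Pool.Agent.NLT Pool.Agent.NLG

variable {M : ℕ} [NeZero M] {n : ℕ}

namespace AABAux

theorem prod_upd (g : Fin n → ZMod M → ℂ) (i : Fin n) (u : ZMod M → ℂ) (X : Fin n → ZMod M) :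
    ∏ l, Function.update g i u l (X l) = u (X i) * ∏ l ∈ univ.erase i, g l (X l) := by
  rw [← Finset.mul_prod_erase univ _ (mem_univ i), Function.update_self]
  congr 1
  refine Finset.prod_congr rfl (fun l hl => ?_)
  rw [Function.update_of_ne (Finset.ne_of_mem_erase hl)]

theorem AA_upd (N : ℕ) (P : Fin n → ℤ[X]) (g : Fin n → ZMod M → ℂ) (i : Fin n) (u : ZMod M → ℂ) (x : ZMod M) :
    AA N P (Function.update g i u) x =
      tv N (fun t => u (x + pz M (P i) t) * ∏ l ∈ univ.erase i, g l (x + pz M (P l) t)) := by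
  unfold AA
  congr 1
  funext t
  exact prod_upd g i u (fun l => x + pz M (P l) t)

theorem avr_tvr_le (N : ℕ) (F : ℕ → ZMod M → ℝ) (c : ℝ) (hc : 0 ≤ c) (h : ∀ t, avr (F t) ≤ c) :
    avr (fun x => tvr N (fun t => F t x)) ≤ c := by
  rw [← tvr_avr_comm]
  exact tvr_le N hc (fun t _ => h t)

theorem pz_add (P : ℤ[X]) (k t : ℕ) : pz M P (M * k + t) = pz M P t := by
  unfold pz
  have h1 : ((P.eval ((M * k + t : ℕ) : ℤ) - P.eval (t : ℤ) : ℤ) : ZMod M) = 0 := by
    rw [ZMod.intCast_zmod_eq_zero_iff_dvd]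
    have h2 := Polynomial.sub_dvd_eval_sub ((M * k + t : ℕ) : ℤ) (t : ℤ) P
    refine dvd_trans ?_ h2
    refine ⟨(k : ℤ), ?_⟩
    push_cast
    ring
  rw [Int.cast_sub] at h1
  exact sub_eq_zero.mp h1

theorem young_pt (a : Fin n → ℝ) (ha : ∀ l, 0 ≤ a l) (i : Fin n) (δ : ℝ) (h0 : 0 < δ) (h1 : δ ≤ 1) :
    ∏ l, a l ≤ (1 / δ) ^ n * a i ^ n + δ * ∑ l ∈ univ.erase i, a l ^ n := by
  have hS : 0 ≤ ∑ l ∈ univ.erase i, a l ^ n := Finset.sum_nonneg (fun l _ => pow_nonneg (ha l) n)
  have hi : 0 ≤ (1 / δ) ^ n * a i ^ n := mul_nonneg (by positivity) (pow_nonneg (ha i) n)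
  have hp : 0 ≤ ∏ l, a l := Finset.prod_nonneg (fun l _ => ha l)
  by_cases hc : ∃ l ∈ univ.erase i, ∏ m, a m ≤ δ * a l ^ n
  · obtain ⟨l, hl, hl2⟩ := hc
    have h3 : a l ^ n ≤ ∑ l ∈ univ.erase i, a l ^ n :=
      Finset.single_le_sum (f := fun l => a l ^ n) (fun l _ => pow_nonneg (ha l) n) hl
    have h4 : δ * a l ^ n ≤ δ * ∑ l ∈ univ.erase i, a l ^ n := mul_le_mul_of_nonneg_left h3 h0.le
    linarith
  · push Not at hc
    rcases hp.eq_or_lt with hz | hpos
    · rw [← hz]
      have := mul_nonneg h0.le hS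
      linarith
    · set p := ∏ l, a l with hpdef
      have h3 : ∀ l ∈ univ.erase i, a l ^ n ≤ p / δ := by
        intro l hl
        rw [le_div_iff₀ h0]
        have := hc l hl
        linarith
      have h4 : p ^ n = a i ^ n * ∏ l ∈ univ.erase i, a l ^ n := by
        rw [hpdef, ← Finset.prod_pow, ← Finset.mul_prod_erase univ _ (mem_univ i)]
      have h5 : ∏ l ∈ univ.erase i, a l ^ n ≤ (p / δ) ^ (n - 1) := by
        calc ∏ l ∈ univ.erase i, a l ^ n ≤ ∏ l ∈ univ.erase i, p / δ :=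
              Finset.prod_le_prod (fun l _ => pow_nonneg (ha l) n) h3
          _ = (p / δ) ^ (n - 1) := by
              rw [Finset.prod_const, Finset.card_erase_of_mem (mem_univ i), Finset.card_univ, Fintype.card_fin]
      have hn : 1 ≤ n := by
        have := i.isLt
        omega
      have h6 : p ^ n ≤ a i ^ n * (p / δ) ^ (n - 1) := by
        rw [h4]
        exact mul_le_mul_of_nonneg_left h5 (pow_nonneg (ha i) n)
      have h7 : p ^ n = p * p ^ (n - 1) := by
        rw [← pow_succ']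
        congr 1
        omega
      have h8 : 0 < p ^ (n - 1) := pow_pos hpos _
      have h9 : p ≤ a i ^ n * (1 / δ) ^ (n - 1) := by
        have h10 : p * p ^ (n - 1) ≤ (a i ^ n * (1 / δ) ^ (n - 1)) * p ^ (n - 1) := by
          rw [← h7]
          refine h6.trans (le_of_eq ?_)
          rw [div_pow, div_pow, one_pow]
          ring
        exact le_of_mul_le_mul_right h10 h8
      have h11 : (1 / δ) ^ (n - 1) ≤ (1 / δ) ^ n := by
        refine pow_le_pow_right₀ ?_ (Nat.sub_le n 1)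
        rw [le_div_iff₀ h0]
        linarith
      have h12 : a i ^ n * (1 / δ) ^ (n - 1) ≤ (1 / δ) ^ n * a i ^ n := by
        rw [mul_comm]
        exact mul_le_mul_of_nonneg_right h11 (pow_nonneg (ha i) n)
      have := mul_nonneg h0.le hS
      linarith

/-- The mean of the pointwise bound. -/
theorem young_avr (P : Fin n → ℤ[X]) (g : Fin n → ZMod M → ℝ) (hg : ∀ l x, 0 ≤ g l x) (i : Fin n) (δ : ℝ) (h0 : 0 < δ)
    (h1 : δ ≤ 1) (t : ℕ) :
    avr (fun x => ∏ l, g l (x + pz M (P l) t)) ≤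
      (1 / δ) ^ n * avr (fun x => g i x ^ n) + δ * ∑ l ∈ univ.erase i, avr (fun x => g l x ^ n) := by
  have h2 : avr (fun x => ∏ l, g l (x + pz M (P l) t)) ≤
      avr (fun x => (1 / δ) ^ n * g i (x + pz M (P i) t) ^ n +
        δ * ∑ l ∈ univ.erase i, g l (x + pz M (P l) t) ^ n) :=
    avr_mono (fun x => young_pt (fun l => g l (x + pz M (P l) t)) (fun l => hg l _) i δ h0 h1)
  refine h2.trans (le_of_eq ?_)
  rw [avr_add, avr_mul_left, avr_mul_left, avr_sum]
  congr 1
  · congr 1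
    exact avr_shift (fun y => g i y ^ n) (pz M (P i) t)
  · congr 1
    refine Finset.sum_congr rfl (fun l _ => ?_)
    exact avr_shift (fun y => g l y ^ n) (pz M (P l) t)

end AABAux

open AABAux

theorem AA_update_add (N : ℕ) (P : Fin n → ℤ[X]) (g : Fin n → ZMod M → ℂ) (i : Fin n) (u v : ZMod M → ℂ) (x : ZMod M) :
    AA N P (Function.update g i (fun y => u y + v y)) x = AA N P (Function.update g i u) x + AA N P (Function.update g i v) x := by
  rw [AA_upd, AA_upd, AA_upd]
  unfold tv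
  rw [← add_div, ← Finset.sum_add_distrib]
  congr 1
  refine Finset.sum_congr rfl (fun t _ => ?_)
  ring

theorem AA_update_sub (N : ℕ) (P : Fin n → ℤ[X]) (g : Fin n → ZMod M → ℂ) (i : Fin n) (u v : ZMod M → ℂ) (x : ZMod M) :
    AA N P (Function.update g i (fun y => u y - v y)) x = AA N P (Function.update g i u) x - AA N P (Function.update g i v) x := by
  rw [AA_upd, AA_upd, AA_upd]
  unfold tv
  rw [← sub_div, ← Finset.sum_sub_distrib]
  congr 1
  refine Finset.sum_congr rfl (fun t _ => ?_)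
  ring

theorem AA_update_mul (N : ℕ) (P : Fin n → ℤ[X]) (g : Fin n → ZMod M → ℂ) (i : Fin n) (c : ℂ) (u : ZMod M → ℂ) (x : ZMod M) :
    AA N P (Function.update g i (fun y => c * u y)) x = c * AA N P (Function.update g i u) x := by
  rw [AA_upd, AA_upd, ← tv_mul_left]
  congr 1
  funext t
  ring

theorem AA_update_sum (N : ℕ) (P : Fin n → ℤ[X]) (g : Fin n → ZMod M → ℂ) (i : Fin n) {ι : Type} (s : Finset ι)
    (u : ι → ZMod M → ℂ) (x : ZMod M) :
    AA N P (Function.update g i (fun y => ∑ k ∈ s, u k y)) x = ∑ k ∈ s, AA N P (Function.update g i (u k)) x := by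
  rw [AA_upd]
  simp only [AA_upd]
  unfold tv
  rw [← Finset.sum_div, Finset.sum_comm]
  congr 1
  refine Finset.sum_congr rfl (fun t _ => ?_)
  simp only [Finset.sum_mul]

/-- Telescoping over the slots: the functions are replaced one after the other. -/
theorem AA_telescope (N : ℕ) (P : Fin n → ℤ[X]) (f g : Fin n → ZMod M → ℂ) (x : ZMod M) :
    AA N P f x - AA N P g x =
      ∑ i : Fin n, AA N P (Function.update (fun l => if l < i then g l else f l) i (fun y => f i y - g i y)) x := by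
  simp only [AA_upd]
  have h1 : AA N P f x - AA N P g x =
      tv N (fun t => (∏ l, f l (x + pz M (P l) t)) - ∏ l, g l (x + pz M (P l) t)) := by
    rw [tv_sub]
    rfl
  rw [h1]
  unfold tv
  rw [← Finset.sum_div, Finset.sum_comm]
  congr 1
  refine Finset.sum_congr rfl (fun t _ => ?_)
  have h2 := Finset.prod_sub_ordered (univ : Finset (Fin n)) (fun l => f l (x + pz M (P l) t))
    (fun l => f l (x + pz M (P l) t) - g l (x + pz M (P l) t))
  simp only [sub_sub_cancel] at h2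
  beta_reduce
  rw [h2, sub_sub_cancel]
  refine Finset.sum_congr rfl (fun i _ => ?_)
  rw [mul_assoc]
  congr 1
  have h3 : (univ.erase i : Finset (Fin n)) = univ.filter (fun j => j < i) ∪ univ.filter (fun j => i < j) := by
    ext j
    simp only [mem_erase, mem_univ, and_true, mem_union, mem_filter, true_and]
    exact ne_iff_lt_or_gt
  have h4 : Disjoint (univ.filter (fun j => j < i)) (univ.filter (fun j : Fin n => i < j)) := by
    rw [Finset.disjoint_left]
    intro j h5 h6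
    rw [mem_filter] at h5 h6
    exact absurd h5.2 (not_lt.mpr h6.2.le)
  rw [h3, Finset.prod_union h4]
  congr 1
  · refine Finset.prod_congr rfl (fun j hj => ?_)
    rw [mem_filter] at hj
    rw [if_pos hj.2]
  · refine Finset.prod_congr rfl (fun j hj => ?_)
    rw [mem_filter] at hj
    rw [if_neg (not_lt.mpr hj.2.le)]

theorem AA_Bd (N : ℕ) (P : Fin n → ℤ[X]) (g : Fin n → ZMod M → ℂ) (hg : ∀ l, Bd (g l)) : Bd (AA N P g) := by
  intro x
  unfold AA
  refine norm_tv_le_one N _ (fun t => ?_)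
  rw [norm_prod]
  exact Finset.prod_le_one (fun l _ => norm_nonneg _) (fun l _ => hg l _)

theorem AR_nonneg (N : ℕ) (p : ℤ[X]) (u : ZMod M → ℝ) (hu : ∀ x, 0 ≤ u x) (x : ZMod M) : 0 ≤ AR N p u x := by
  unfold AR
  exact tvr_nonneg N (fun t => hu _)

theorem AR_mono (N : ℕ) (p : ℤ[X]) (u v : ZMod M → ℝ) (h : ∀ x, u x ≤ v x) (x : ZMod M) : AR N p u x ≤ AR N p v x := by
  unfold AR
  exact tvr_mono N (fun t _ => h _)

theorem norm_AA_le_AR (N : ℕ) (P : Fin n → ℤ[X]) (g : Fin n → ZMod M → ℂ) (i : Fin n) (c : ℝ) (hc : 0 ≤ c)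
    (hg : ∀ l, l ≠ i → ∀ x, ‖g l x‖ ≤ c) (x : ZMod M) :
    ‖AA N P g x‖ ≤ c ^ (n - 1) * AR N (P i) (fun y => ‖g i y‖) x := by
  have h1 : c ^ (n - 1) * AR N (P i) (fun y => ‖g i y‖) x =
      tvr N (fun t => c ^ (n - 1) * ‖g i (x + pz M (P i) t)‖) := by
    unfold AR tvr
    rw [← Finset.mul_sum, mul_div_assoc]
  rw [h1]
  unfold AA
  refine (norm_tv_le N _).trans (tvr_mono N (fun t _ => ?_))
  rw [norm_prod, ← Finset.mul_prod_erase univ _ (mem_univ i), mul_comm]
  refine mul_le_mul_of_nonneg_right ?_ (norm_nonneg _)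
  calc ∏ l ∈ univ.erase i, ‖g l (x + pz M (P l) t)‖ ≤ ∏ l ∈ univ.erase i, c :=
        Finset.prod_le_prod (fun l _ => norm_nonneg _) (fun l hl => hg l (Finset.ne_of_mem_erase hl) _)
    _ = c ^ (n - 1) := by
        rw [Finset.prod_const, Finset.card_erase_of_mem (mem_univ i), Finset.card_univ, Fintype.card_fin]

theorem n2_AR_le (N : ℕ) (p : ℤ[X]) (u : ZMod M → ℝ) : avr (fun x => AR N p u x ^ 2) ≤ avr (fun x => u x ^ 2) := by
  have h1 : avr (fun x => AR N p u x ^ 2) ≤ avr (fun x => tvr N (fun t => u (x + pz M p t) ^ 2)) :=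
    avr_mono (fun x => tvr_sq_le N _)
  refine h1.trans (avr_tvr_le N (fun t x => u (x + pz M p t) ^ 2) _ (avr_nonneg (fun x => sq_nonneg _)) (fun t => ?_))
  exact le_of_eq (avr_shift (fun y => u y ^ 2) (pz M p t))

theorem n2_AA_le (N : ℕ) (P : Fin n → ℤ[X]) (g : Fin n → ZMod M → ℂ) (i : Fin n) (hg : ∀ l, l ≠ i → Bd (g l)) :
    n2 (AA N P g) ≤ n2 (g i) := by
  refine le_trans (avr_mono (fun x => ?_)) (n2_AR_le N (P i) (fun y => ‖g i y‖))
  have h1 := norm_AA_le_AR N P g i 1 zero_le_one (fun l hl y => hg l hl y) x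
  rw [one_pow, one_mul] at h1
  exact pow_le_pow_left₀ (norm_nonneg _) h1 2

/-- Periodicity: averages over a multiple of `M`. -/
theorem AA_mul_cast (k : ℕ) (hk : 1 ≤ k) (P : Fin n → ℤ[X]) (g : Fin n → ZMod M → ℂ) : AA (M * k) P g = AA M P g := by
  funext x
  unfold AA
  set F : ℕ → ℂ := fun t => ∏ i, g i (x + pz M (P i) t) with hF
  have hper : ∀ m t : ℕ, F (M * m + t) = F t := by
    intro m t
    simp only [hF]
    refine Finset.prod_congr rfl (fun l _ => ?_)
    rw [pz_add]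
  have hsum : ∀ m : ℕ, ∑ t ∈ range (M * m), F t = m * ∑ t ∈ range M, F t := by
    intro m
    induction m with
    | zero => simp
    | succ m ih =>
      rw [Nat.mul_succ, Finset.sum_range_add, ih]
      have h1 : ∑ t ∈ range M, F (M * m + t) = ∑ t ∈ range M, F t :=
        Finset.sum_congr rfl (fun t _ => hper m t)
      rw [h1]
      push_cast
      ring
  unfold tv
  rw [hsum k]
  have hk0 : (k : ℂ) ≠ 0 := by
    have : k ≠ 0 := by omega
    exact_mod_cast this
  have hM0 : (M : ℂ) ≠ 0 := Nat.cast_ne_zero.mpr (NeZero.ne M)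
  push_cast
  field_simp

/-- Weighted Hölder inequality without roots. -/
theorem AA_young (N : ℕ) (P : Fin n → ℤ[X]) (g : Fin n → ZMod M → ℂ) (i : Fin n) (δ : ℝ) (h0 : 0 < δ) (h1 : δ ≤ 1) :
    avr (fun x => ‖AA N P g x‖) ≤ (1 / δ) ^ n * nq n (g i) + δ * ∑ l ∈ univ.erase i, nq n (g l) := by
  have h2 : avr (fun x => ‖AA N P g x‖) ≤ avr (fun x => tvr N (fun t => ∏ l, ‖g l (x + pz M (P l) t)‖)) := by
    refine avr_mono (fun x => ?_)
    unfold AA
    refine (norm_tv_le N _).trans (le_of_eq ?_)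
    congr 1
    funext t
    rw [norm_prod]
  refine h2.trans (avr_tvr_le N (fun t x => ∏ l, ‖g l (x + pz M (P l) t)‖) _ ?_ (fun t => ?_))
  · refine add_nonneg (mul_nonneg (by positivity) (avr_nonneg (fun x => by positivity)))
      (mul_nonneg h0.le (Finset.sum_nonneg (fun l _ => avr_nonneg (fun x => by positivity))))
  · exact young_avr P (fun l x => ‖g l x‖) (fun l x => norm_nonneg _) i δ h0 h1 t

/-- The same for mean squares. -/
theorem AA_young2 (N : ℕ) (P : Fin n → ℤ[X]) (g : Fin n → ZMod M → ℂ) (i : Fin n) (δ : ℝ) (h0 : 0 < δ) (h1 : δ ≤ 1) :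
    n2 (AA N P g) ≤ (1 / δ) ^ n * nq (2 * n) (g i) + δ * ∑ l ∈ univ.erase i, nq (2 * n) (g l) := by
  have h2 : n2 (AA N P g) ≤ avr (fun x => tvr N (fun t => ∏ l, ‖g l (x + pz M (P l) t)‖ ^ 2)) := by
    refine avr_mono (fun x => ?_)
    unfold AA
    refine (norm_tv_sq_le N _).trans (le_of_eq ?_)
    congr 1
    funext t
    rw [norm_prod, Finset.prod_pow]
  have e1 : ∀ l : Fin n, nq (2 * n) (g l) = avr (fun x => (‖g l x‖ ^ 2) ^ n) := by
    intro l
    unfold nq
    congr 1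
    funext x
    rw [pow_mul]
  simp only [e1]
  refine h2.trans (avr_tvr_le N (fun t x => ∏ l, ‖g l (x + pz M (P l) t)‖ ^ 2) _ ?_ (fun t => ?_))
  · refine add_nonneg (mul_nonneg (by positivity) (avr_nonneg (fun x => by positivity)))
      (mul_nonneg h0.le (Finset.sum_nonneg (fun l _ => avr_nonneg (fun x => by positivity))))
  · exact young_avr P (fun l x => ‖g l x‖ ^ 2) (fun l x => by positivity) i δ h0 h1 t

end Pool.Agent.EQD
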