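import Pool.Agent.Lib.EQD.DefsC

/-!
# Averages over the subgroups of `ZMod M` of order `∏_{p ∈ U} p ^ v_p(M)`

`AV U g y` = average of `g` over `y + H_U`, `H_U` = subgroup of order `nP M U`.
-/

set_option autoImplicit false

open Finset Polynomial

namespace Pool.Agent.EQD

open Pool.Agent.HLT Pool.Agent.NLT Pool.Agent.NLG

/-- Order of the subgroup attached to a set of primes. -/
def nP (M : ℕ) (U : Finset ℕ) : ℕ := ∏ p ∈ U, p ^ M.factorization p

theorem nP_pos (M : ℕ) {U : Finset ℕ} (h : ∀ p ∈ U, p.Prime) : 0 < nP M U :=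
  Finset.prod_pos fun p hp => pow_pos (h p hp).pos _

theorem nP_empty (M : ℕ) : nP M ∅ = 1 := by simp [nP]

theorem nP_insert (M : ℕ) {U : Finset ℕ} {p : ℕ} (hp : p ∉ U) :
    nP M (insert p U) = p ^ M.factorization p * nP M U := by
  simp [nP, Finset.prod_insert hp]

theorem nP_single (M p : ℕ) : nP M {p} = p ^ M.factorization p := by simp [nP]

theorem nP_cop (M : ℕ) {U : Finset ℕ} {p : ℕ} (hp : p ∉ U) (hpp : p.Prime) (h : ∀ q ∈ U, q.Prime) :
    Nat.Coprime (p ^ M.factorization p) (nP M U) := by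
  unfold nP
  apply Nat.Coprime.prod_right
  intro q hq
  apply Nat.Coprime.pow
  rw [Nat.coprime_primes hpp (h q hq)]
  rintro rfl
  exact hp hq

theorem nP_dvd (M : ℕ) (U : Finset ℕ) (h : ∀ p ∈ U, p.Prime) : nP M U ∣ M := by
  classical
  induction U using Finset.induction_on with
  | empty => simp [nP]
  | insert p U hp ih =>
    rw [nP_insert M hp]
    exact Nat.Coprime.mul_dvd_of_dvd_of_dvd
      (nP_cop M hp (h p (mem_insert_self _ _)) fun q hq => h q (mem_insert_of_mem hq))
      (Nat.ordProj_dvd M p) (ih fun q hq => h q (mem_insert_of_mem hq))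

section crt

variable {F : Type} [AddCommGroup F]

/-- Chinese remainder theorem for sums of periodic functions. -/
theorem sum_crt (n m : ℕ) (hn : 0 < n) (hm : 0 < m) (hc : Nat.Coprime n m) (Φ : ℕ → F)
    (hp : ∀ l, Φ (l + n * m) = Φ l) :
    ∑ i ∈ range n, ∑ j ∈ range m, Φ (m * i + n * j) = ∑ l ∈ range (n * m), Φ l := by
  have hmod : ∀ l, Φ (l % (n * m)) = Φ l := by
    intro l
    have hk : ∀ k r, Φ (r + (n * m) * k) = Φ r := by
      intro k
      induction k with
      | zero => intro r; simp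
      | succ k ih => intro r; rw [Nat.mul_succ, ← add_assoc, hp, ih]
    conv_rhs => rw [← Nat.mod_add_div l (n * m)]
    rw [hk]
  rw [← Finset.sum_product']
  have himg : (range (n * m)) = (range n ×ˢ range m).image (fun x => (m * x.1 + n * x.2) % (n * m)) := by
    symm
    apply Finset.eq_of_subset_of_card_le
    · intro l hl
      rw [mem_image] at hl
      obtain ⟨x, -, rfl⟩ := hl
      rw [mem_range]
      exact Nat.mod_lt _ (Nat.mul_pos hn hm)
    · rw [Finset.card_image_of_injOn]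
      · simp
      · intro x hx y hy hxy
        simp only [coe_product, Set.mem_prod, coe_range, Set.mem_Iio] at hx hy
        have h0 : (m * x.1 + n * x.2) ≡ (m * y.1 + n * y.2) [MOD (n * m)] := hxy
        have h1 : m * x.1 ≡ m * y.1 [MOD n] := by
          have := h0.of_mul_right m
          have e1 : m * x.1 + n * x.2 ≡ m * x.1 [MOD n] := by simp [Nat.ModEq]
          have e2 : m * y.1 + n * y.2 ≡ m * y.1 [MOD n] := by simp [Nat.ModEq]
          exact e1.symm.trans (this.trans e2)
        have h2 : n * x.2 ≡ n * y.2 [MOD m] := by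
          have := h0.of_mul_left n
          have e1 : m * x.1 + n * x.2 ≡ n * x.2 [MOD m] := by simp [Nat.ModEq]
          have e2 : m * y.1 + n * y.2 ≡ n * y.2 [MOD m] := by simp [Nat.ModEq]
          exact e1.symm.trans (this.trans e2)
        have h3 : x.1 ≡ y.1 [MOD n] := Nat.ModEq.cancel_left_of_coprime hc h1
        have h4 : x.2 ≡ y.2 [MOD m] := Nat.ModEq.cancel_left_of_coprime hc.symm h2
        ext
        · exact Nat.ModEq.eq_of_lt_of_lt h3 hx.1 hy.1
        · exact Nat.ModEq.eq_of_lt_of_lt h4 hx.2 hy.2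
  rw [himg, Finset.sum_image]
  · apply Finset.sum_congr rfl
    intro x _
    rw [hmod]
  · intro x hx y hy hxy
    have hcard : ((range n ×ˢ range m).image (fun x => (m * x.1 + n * x.2) % (n * m))).card =
        (range n ×ˢ range m).card := by
      rw [← himg]; simp
    exact Finset.injOn_of_card_image_eq hcard hx hy hxy

end crt

section group

variable {M : ℕ} [NeZero M] {F : Type} [AddCommGroup F] [Module ℝ F]

/-- Average over the subgroup of order `∏_{p ∈ U} p ^ v_p(M)`. -/
noncomputable def AV (U : Finset ℕ) (g : ZMod M → F) (y : ZMod M) : F :=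
  ((nP M U : ℕ) : ℝ)⁻¹ • ∑ i ∈ range (nP M U), g (y + ((M / nP M U * i : ℕ) : ZMod M))

theorem AV_empty (g : ZMod M → F) : AV ∅ g = g := by
  funext y
  simp [AV, nP_empty]

theorem AV_add (U : Finset ℕ) (g h : ZMod M → F) (y : ZMod M) :
    AV U (fun y => g y + h y) y = AV U g y + AV U h y := by
  simp only [AV, sum_add_distrib, smul_add]

theorem AV_sub (U : Finset ℕ) (g h : ZMod M → F) (y : ZMod M) :
    AV U (fun y => g y - h y) y = AV U g y - AV U h y := by
  simp only [AV, sum_sub_distrib, smul_sub]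

theorem AV_smul (U : Finset ℕ) (c : ℝ) (g : ZMod M → F) (y : ZMod M) :
    AV U (fun y => c • g y) y = c • AV U g y := by
  simp only [AV, ← smul_sum]
  rw [smul_comm]

theorem AV_zero (U : Finset ℕ) (y : ZMod M) : AV U (fun _ : ZMod M => (0 : F)) y = 0 := by
  simp [AV]

theorem AV_sum {ι : Type} (U : Finset ℕ) (s : Finset ι) (g : ι → ZMod M → F) (y : ZMod M) :
    AV U (fun y => ∑ i ∈ s, g i y) y = ∑ i ∈ s, AV U (g i) y := by
  classical
  induction s using Finset.induction_on with
  | empty => simp [AV_zero]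
  | insert i s hi ih => simp only [sum_insert hi]; rw [AV_add, ih]

theorem AV_map {F' : Type} [AddCommGroup F'] [Module ℝ F'] (φ : F →ₗ[ℝ] F') (U : Finset ℕ) (g : ZMod M → F)
    (y : ZMod M) : φ (AV U g y) = AV U (fun y => φ (g y)) y := by
  simp only [AV, map_smul, map_sum]

theorem AV_shift (U : Finset ℕ) (g : ZMod M → F) (c y : ZMod M) : AV U (fun y => g (y + c)) y = AV U g (y + c) := by
  simp only [AV]
  congr 1
  apply sum_congr rfl
  intro i _
  rw [add_right_comm]

theorem AV_congr (U : Finset ℕ) {g h : ZMod M → F} (y : ZMod M) (e : ∀ y, g y = h y) : AV U g y = AV U h y := by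
  have : g = h := funext e
  rw [this]

/-- The average is invariant. -/
theorem AV_step (U : Finset ℕ) (hU : ∀ p ∈ U, p.Prime) (g : ZMod M → F) (y : ZMod M) :
    AV U g (y + ((M / nP M U : ℕ) : ZMod M)) = AV U g y := by
  have hpos := nP_pos M hU
  have hd := nP_dvd M U hU
  simp only [AV]
  congr 1
  have h1 : ∀ i : ℕ, g (y + ((M / nP M U : ℕ) : ZMod M) + ((M / nP M U * i : ℕ) : ZMod M)) =
      (fun i : ℕ => g (y + ((M / nP M U * i : ℕ) : ZMod M))) (i + 1) := by
    intro i
    congr 1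
    push_cast
    ring
  rw [sum_congr rfl fun i _ => h1 i]
  obtain ⟨n, hn⟩ : ∃ n, nP M U = n + 1 := ⟨nP M U - 1, by omega⟩
  set G : ℕ → F := fun i : ℕ => g (y + ((M / nP M U * i : ℕ) : ZMod M)) with hG
  have h2 : G (nP M U) = G 0 := by
    simp only [hG]
    rw [Nat.div_mul_cancel hd]
    simp
  rw [hn, Finset.sum_range_succ, Finset.sum_range_succ', ← hn, h2]

theorem AV_inv (U : Finset ℕ) (hU : ∀ p ∈ U, p.Prime) (g : ZMod M → F) (y : ZMod M) (i : ℕ) :
    AV U g (y + ((M / nP M U * i : ℕ) : ZMod M)) = AV U g y := by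
  induction i with
  | zero => simp
  | succ i ih =>
    rw [Nat.mul_succ, Nat.cast_add, ← add_assoc, AV_step U hU, ih]

/-- Pull out an invariant factor. -/
theorem AV_const_of_inv (U : Finset ℕ) (hU : ∀ p ∈ U, p.Prime) (c : ZMod M → F)
    (hc : ∀ (y : ZMod M) (i : ℕ), c (y + ((M / nP M U * i : ℕ) : ZMod M)) = c y) (y : ZMod M) : AV U c y = c y := by
  have hpos := nP_pos M hU
  simp only [AV, hc, sum_const, card_range]
  rw [← Nat.cast_smul_eq_nsmul ℝ, smul_smul, inv_mul_cancel₀, one_smul]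
  exact_mod_cast hpos.ne'

theorem AV_idem (U : Finset ℕ) (hU : ∀ p ∈ U, p.Prime) (g : ZMod M → F) (y : ZMod M) :
    AV U (AV U g) y = AV U g y :=
  AV_const_of_inv U hU _ (AV_inv U hU g) y

/-- Composition of averages. -/
theorem AV_insert (U : Finset ℕ) (p : ℕ) (hp : p ∉ U) (hU : ∀ q ∈ insert p U, q.Prime) (g : ZMod M → F) (y : ZMod M) :
    AV (insert p U) g y = AV U (AV {p} g) y := by
  have hpp : p.Prime := hU p (mem_insert_self _ _)
  have hU' : ∀ q ∈ U, q.Prime := fun q hq => hU q (mem_insert_of_mem hq)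
  have hn := nP_pos M hU'
  have hm : 0 < p ^ M.factorization p := pow_pos hpp.pos _
  have hc := nP_cop M hp hpp hU'
  have hd := nP_dvd M _ hU
  have hM : 0 < M := Nat.pos_of_ne_zero (NeZero.ne M)
  simp only [AV, nP_single]
  rw [nP_insert M hp] at hd ⊢
  set n := nP M U
  set m := p ^ M.factorization p
  obtain ⟨K, hK⟩ := hd
  have e0 : M / (m * n) = K := by rw [hK, Nat.mul_div_cancel_left _ (Nat.mul_pos hm hn)]
  have e1 : M / n = K * m := by
    rw [hK, show m * n * K = n * (K * m) by ring, Nat.mul_div_cancel_left _ hn]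
  have e2 : M / m = K * n := by
    rw [hK, show m * n * K = m * (K * n) by ring, Nat.mul_div_cancel_left _ hm]
  rw [e0, e1, e2]
  have hper : ∀ l : ℕ, (fun l : ℕ => g (y + ((K * l : ℕ) : ZMod M))) (l + n * m) =
      (fun l : ℕ => g (y + ((K * l : ℕ) : ZMod M))) l := by
    intro l
    have h0 : ((K * (l + n * m) : ℕ) : ZMod M) = ((K * l : ℕ) : ZMod M) := by
      rw [Nat.mul_add, show K * (n * m) = M by rw [hK]; ring, Nat.cast_add, ZMod.natCast_self, add_zero]
    simp only [h0]
  have hs := sum_crt n m hn hm hc.symm (fun l : ℕ => g (y + ((K * l : ℕ) : ZMod M))) hper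
  rw [mul_comm m n, ← hs, Nat.cast_mul, mul_inv, ← smul_smul]
  congr 1
  rw [smul_sum]
  apply sum_congr rfl
  intro i _
  congr 1
  apply sum_congr rfl
  intro j _
  congr 1
  push_cast
  ring

theorem AV_insert' (U : Finset ℕ) (p : ℕ) (hp : p ∉ U) (hU : ∀ q ∈ insert p U, q.Prime) (g : ZMod M → F) (y : ZMod M) :
    AV (insert p U) g y = AV {p} (AV U g) y := by
  rw [AV_insert U p hp hU]
  simp only [AV, smul_sum]
  rw [sum_comm]
  apply sum_congr rfl
  intro i _
  apply sum_congr rfl
  intro j _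
  rw [smul_comm, add_right_comm]

/-- Scalars which are invariant can be pulled out. -/
theorem AV_pull (U : Finset ℕ) (c : ZMod M → ℂ)
    (hc : ∀ (y : ZMod M) (i : ℕ), c (y + ((M / nP M U * i : ℕ) : ZMod M)) = c y) (g : ZMod M → ℂ) (y : ZMod M) :
    AV U (fun y => c y * g y) y = c y * AV U g y := by
  simp only [AV, hc, ← mul_sum]
  rw [mul_smul_comm]

theorem AV_pull_real (U : Finset ℕ) (c : ZMod M → ℝ)
    (hc : ∀ (y : ZMod M) (i : ℕ), c (y + ((M / nP M U * i : ℕ) : ZMod M)) = c y) (g : ZMod M → ℝ) (y : ZMod M) :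
    AV U (fun y => c y * g y) y = c y * AV U g y := by
  simp only [AV, hc, ← mul_sum]
  rw [mul_smul_comm]

/-- A function which is its own average is invariant. -/
theorem inv_of_AV (U : Finset ℕ) (hU : ∀ p ∈ U, p.Prime) (g : ZMod M → F) (h : ∀ y, AV U g y = g y) (y : ZMod M) (i : ℕ) :
    g (y + ((M / nP M U * i : ℕ) : ZMod M)) = g y := by
  rw [← h, AV_inv U hU, h]

/-- Monotonicity. -/
theorem AV_mono (U : Finset ℕ) (g h : ZMod M → ℝ) (H : ∀ y, g y ≤ h y) (y : ZMod M) : AV U g y ≤ AV U h y := by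
  simp only [AV, smul_eq_mul]
  exact mul_le_mul_of_nonneg_left (sum_le_sum fun i _ => H _) (by positivity)

theorem AV_nonneg (U : Finset ℕ) (g : ZMod M → ℝ) (H : ∀ y, 0 ≤ g y) (y : ZMod M) : 0 ≤ AV U g y := by
  simp only [AV, smul_eq_mul]
  exact mul_nonneg (by positivity) (sum_nonneg fun i _ => H _)

theorem AV_norm_le (U : Finset ℕ) (g : ZMod M → ℂ) (y : ZMod M) : ‖AV U g y‖ ≤ AV U (fun y => ‖g y‖) y := by
  simp only [AV, norm_smul, smul_eq_mul, norm_inv, Real.norm_natCast]
  exact mul_le_mul_of_nonneg_left (norm_sum_le _ _) (by positivity)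

theorem AV_const (U : Finset ℕ) (hU : ∀ p ∈ U, p.Prime) (c : F) (y : ZMod M) : AV U (fun _ : ZMod M => c) y = c :=
  AV_const_of_inv U hU (fun _ => c) (fun _ _ => rfl) y

/-- Cauchy-Schwarz for averages. -/
theorem AV_cs (U : Finset ℕ) (f g : ZMod M → ℝ) (y : ZMod M) :
    (AV U (fun y => f y * g y) y) ^ 2 ≤ AV U (fun y => f y ^ 2) y * AV U (fun y => g y ^ 2) y := by
  simp only [AV, smul_eq_mul]
  rw [mul_pow, mul_mul_mul_comm, ← sq]
  exact mul_le_mul_of_nonneg_left (Finset.sum_mul_sq_le_sq_mul_sq _ _ _) (by positivity)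

theorem avr_shift' (g : ZMod M → ℝ) (c : ZMod M) : avr (fun y => g (y + c)) = avr g := by
  unfold avr
  congr 1
  exact Fintype.sum_equiv (Equiv.addRight c) _ _ fun y => rfl

theorem avr_AV (U : Finset ℕ) (hU : ∀ p ∈ U, p.Prime) (g : ZMod M → ℝ) : avr (AV U g) = avr g := by
  have hpos := nP_pos M hU
  unfold avr
  simp only [AV, smul_eq_mul]
  rw [← mul_sum, sum_comm]
  have : ∀ i ∈ range (nP M U), ∑ y : ZMod M, g (y + ((M / nP M U * i : ℕ) : ZMod M)) = ∑ y, g y := fun i _ =>
    Fintype.sum_equiv (Equiv.addRight _) _ _ fun y => rfl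
  rw [sum_congr rfl this, sum_const, card_range, nsmul_eq_mul, ← mul_assoc, inv_mul_cancel₀, one_mul]
  exact_mod_cast hpos.ne'

/-- The average of the problem. -/
theorem Ep_eq_AV (p : ℕ) (g : ZMod M → ℂ) (y : ZMod M) : Ep p g y = AV {p} g y := by
  simp only [Ep, Eb, tv, AV, nP_single]
  rw [Complex.real_smul, div_eq_inv_mul]
  push_cast
  rfl

end group

end Pool.Agent.EQD
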