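import Pool.Agent.Lib.EQD.SlC

/-!
# Module BlkA: the shifts `R_l m` are frozen on the blocks

PROOF. `P l = P i₀ + R l`, `R l = P l - P i₀` of degree `≤ e l`. For `m = m₀ + m'` in the block `b` (of `S`) of `[0, N)`, `m₀ = b N / S`, `u = x + pz M (P l) m = z + pz M (R l) m`, `z = x + pz M (P i₀) m`:
`vT .. 0 (f l) u u = vT .. (ρ l) (f l) z u` shifted: by `vK_move` it is `vK .. 0 (f l) (z + pz M (R l) m) u` versus `vK .. 0 (f l) (z + ρ l) u`, `ρ l = pz M (R l) m₀`, and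
`|R l m - R l m₀| ≤ C N ^ (e l - 1) (N / S + 1) ≤ 2 C N ^ (e l) / S`; by `vS_shift` (in either direction) each component changes by at most `2 ^ (k + 1) (2 C N ^ (e l) / S + qm) / L l`, and there are at most
`(#Ps + 2) ^ (k + 1)` components (twice for type 2). Product of `n` functions bounded by `Γ = 2 (4 (#Ps + 2)) ^ (k + 1)`: the difference is at most `n Γ ^ (n - 1)` times the maximal change. Average over `m'`.
-/

set_option autoImplicit false

open Finset Polynomial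

namespace Pool.Agent.EQD

open Pool.Agent.HLT Pool.Agent.NLT Pool.Agent.NLG

namespace BlkAAux

section group

variable {M : ℕ} [NeZero M]

/-- The sum over the components of a constant bound. -/
theorem sum_comp_le (k : ℕ) (Ps : Finset ℕ) (c : ℝ) (hc : 0 ≤ c) (F : Finset ℕ → ℂ)
    (hF : ∀ S, S ⊆ Ps → S.card ≤ k → ‖F S‖ ≤ c) :
    ‖∑ i ∈ range (k + 1), ∑ S ∈ Ps.powersetCard i, F S‖ ≤ ((Ps.card : ℝ) + 2) ^ (k + 1) * c := by
  have h1 : ‖∑ i ∈ range (k + 1), ∑ S ∈ Ps.powersetCard i, F S‖ ≤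
      ∑ i ∈ range (k + 1), ((Ps.powersetCard i).card : ℝ) * c := by
    refine norm_sum_le_of_le _ (fun i hi => ?_)
    have h2 : ‖∑ S ∈ Ps.powersetCard i, F S‖ ≤ ∑ S ∈ Ps.powersetCard i, c := by
      refine norm_sum_le_of_le _ (fun S hS => ?_)
      rw [mem_powersetCard] at hS
      rw [mem_range] at hi
      exact hF S hS.1 (by omega)
    rwa [Finset.sum_const, nsmul_eq_mul] at h2
  refine h1.trans ?_
  rw [← Finset.sum_mul]
  refine mul_le_mul_of_nonneg_right ?_ hc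
  exact_mod_cast card_comp k Ps

theorem norm_vK_le {Q a k L qm : ℕ} {Ps : Finset ℕ} (h : WS M Q a Ps)
    (hqm : ∀ U, U ⊆ Ps → U.card ≤ k → qU Q a U ≤ qm) (hL : qm ≤ L)
    (s : ZMod M) (f : ZMod M → ℂ) (hf : Bd f) (z y : ZMod M) :
    ‖vK Q a k L Ps s f z y‖ ≤ (2 * ((Ps.card : ℝ) + 2)) ^ (k + 1) := by
  unfold vK
  refine (sum_comp_le k Ps (2 ^ (k + 1)) (by positivity) (fun S => vS Q a L s f S z y) (fun S hS hk => ?_)).trans
    (le_of_eq ?_)
  · refine (norm_vS_le h hS L ((hqm S hS hk).trans hL) s f hf z y).trans ?_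
    exact pow_le_pow_right₀ (by norm_num) (by omega)
  · rw [mul_pow, mul_comm]

/-- Change of a component. -/
theorem vS_shift_int {Q a : ℕ} {S Ps : Finset ℕ} (h : WS M Q a Ps) (hS : S ⊆ Ps) (L : ℕ) (hL : 1 ≤ L) (s : ZMod M)
    (f : ZMod M → ℂ) (hf : Bd f) (z y : ZMod M) (u : ℤ) :
    ‖vS Q a L s f S (z + (u : ZMod M)) y - vS Q a L s f S z y‖ ≤ 2 ^ (S.card + 1) * (|(u : ℝ)| + qU Q a S) / L := by
  rcases Int.eq_nat_or_neg u with ⟨m, rfl | rfl⟩
  · have h1 := vS_shift h hS L hL s f hf z y m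
    have e1 : |(((m : ℤ)) : ℝ)| = (m : ℝ) := by
      rw [Int.cast_natCast, Nat.abs_cast]
    rw [e1, Int.cast_natCast]
    exact h1
  · have h1 := vS_shift h hS L hL s f hf (z + ((-(m : ℤ) : ℤ) : ZMod M)) y m
    have e1 : |(((-(m : ℤ) : ℤ)) : ℝ)| = (m : ℝ) := by
      rw [Int.cast_neg, Int.cast_natCast, abs_neg, Nat.abs_cast]
    have e2 : z + ((-(m : ℤ) : ℤ) : ZMod M) + (m : ZMod M) = z := by
      push_cast
      ring
    rw [e2] at h1
    rw [e1, norm_sub_rev]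
    exact h1

theorem vK_shift {Q a k L qm : ℕ} {Ps : Finset ℕ} (h : WS M Q a Ps)
    (hqm : ∀ U, U ⊆ Ps → U.card ≤ k → qU Q a U ≤ qm) (hL : qm ≤ L) (h1 : 1 ≤ qm)
    (s : ZMod M) (f : ZMod M → ℂ) (hf : Bd f) (z y : ZMod M) (u : ℤ) :
    ‖vK Q a k L Ps s f (z + (u : ZMod M)) y - vK Q a k L Ps s f z y‖ ≤
      (2 * ((Ps.card : ℝ) + 2)) ^ (k + 1) * ((|(u : ℝ)| + qm) / L) := by
  have hL0 : (0 : ℝ) < L := by exact_mod_cast (by omega : 0 < L)
  unfold vK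
  rw [← Finset.sum_sub_distrib]
  simp only [← Finset.sum_sub_distrib]
  refine (sum_comp_le k Ps (2 ^ (k + 1) * ((|(u : ℝ)| + qm) / L)) (by positivity)
    (fun S => vS Q a L s f S (z + (u : ZMod M)) y - vS Q a L s f S z y) (fun S hS hk => ?_)).trans
    (le_of_eq ?_)
  · refine (vS_shift_int h hS L (by omega) s f hf z y u).trans ?_
    have h2 : ((qU Q a S : ℕ) : ℝ) ≤ qm := by exact_mod_cast hqm S hS hk
    rw [mul_div_assoc]
    have h3 : (2 : ℝ) ^ (S.card + 1) ≤ 2 ^ (k + 1) := pow_le_pow_right₀ (by norm_num) (by omega)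
    gcongr
  · rw [mul_pow]
    ring

theorem W_mono (k : ℕ) (c : ℝ) (hc : 0 ≤ c) : (2 * (c + 2)) ^ (0 + 1) ≤ (2 * (c + 2)) ^ (k + 1) :=
  pow_le_pow_right₀ (by linarith) (by omega)

theorem W_le (k : ℕ) (c : ℝ) (hc : 0 ≤ c) : (2 * (c + 2)) ^ (k + 1) ≤ (4 * (c + 2)) ^ (k + 1) :=
  pow_le_pow_left₀ (by linarith) (by linarith) _

theorem norm_vT_le {Q a k L qm : ℕ} {Ps : Finset ℕ} (h : WS M Q a Ps)
    (hqm : ∀ U, U ⊆ Ps → U.card ≤ k → qU Q a U ≤ qm) (hL : qm ≤ L) (ty : ℕ)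
    (s : ZMod M) (f : ZMod M → ℂ) (hf : Bd f) (z y : ZMod M) :
    ‖vT Q a k L Ps ty s f z y‖ ≤ 2 * (4 * ((Ps.card : ℝ) + 2)) ^ (k + 1) := by
  have hc : (0 : ℝ) ≤ Ps.card := Nat.cast_nonneg _
  have h1 := norm_vK_le h hqm hL s f hf z y
  have h2 := norm_vK_le h (k := 0) (fun U hU hk => hqm U hU (by omega)) hL s f hf z y
  have h3 := W_mono k (Ps.card : ℝ) hc
  have h4 := W_le k (Ps.card : ℝ) hc
  have h5 : 0 ≤ (2 * ((Ps.card : ℝ) + 2)) ^ (k + 1) := by positivity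
  unfold vT
  split_ifs
  · linarith
  · linarith
  · refine (norm_sub_le _ _).trans ?_
    linarith

theorem vT_shift {Q a k L qm : ℕ} {Ps : Finset ℕ} (h : WS M Q a Ps)
    (hqm : ∀ U, U ⊆ Ps → U.card ≤ k → qU Q a U ≤ qm) (hL : qm ≤ L) (h1 : 1 ≤ qm) (ty : ℕ)
    (s : ZMod M) (f : ZMod M → ℂ) (hf : Bd f) (z y : ZMod M) (u : ℤ) :
    ‖vT Q a k L Ps ty s f (z + (u : ZMod M)) y - vT Q a k L Ps ty s f z y‖ ≤
      2 * (4 * ((Ps.card : ℝ) + 2)) ^ (k + 1) * ((|(u : ℝ)| + qm) / L) := by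
  have hc : (0 : ℝ) ≤ Ps.card := Nat.cast_nonneg _
  have h2 := vK_shift h hqm hL h1 s f hf z y u
  have h3 := vK_shift h (k := 0) (fun U hU hk => hqm U hU (by omega)) hL h1 s f hf z y u
  have h4 := W_mono k (Ps.card : ℝ) hc
  have h5 := W_le k (Ps.card : ℝ) hc
  have hr : 0 ≤ (|(u : ℝ)| + qm) / L := by positivity
  set r : ℝ := (|(u : ℝ)| + qm) / L with hrd
  have h6 : (2 * ((Ps.card : ℝ) + 2)) ^ (0 + 1) * r ≤ (4 * ((Ps.card : ℝ) + 2)) ^ (k + 1) * r :=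
    mul_le_mul_of_nonneg_right (h4.trans h5) hr
  have h7 : (2 * ((Ps.card : ℝ) + 2)) ^ (k + 1) * r ≤ (4 * ((Ps.card : ℝ) + 2)) ^ (k + 1) * r :=
    mul_le_mul_of_nonneg_right h5 hr
  have h8 : 0 ≤ (4 * ((Ps.card : ℝ) + 2)) ^ (k + 1) * r := by positivity
  unfold vT
  split_ifs
  · linarith
  · linarith
  · rw [sub_sub_sub_comm]
    refine (norm_sub_le _ _).trans ?_
    linarith

theorem vT_move (Q a k L : ℕ) (Ps : Finset ℕ) (ty : ℕ) (s : ZMod M) (f : ZMod M → ℂ) (z y : ZMod M) :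
    vT Q a k L Ps ty s f z y = vT Q a k L Ps ty 0 f (z + s) y := by
  unfold vT
  rw [vK_move Q a 0 L Ps s f z y, vK_move Q a k L Ps s f z y]

end group

theorem prod_diff {ι : Type} [DecidableEq ι] (s : Finset ι) (A B : ι → ℂ) (G ε : ℝ) (hG : 0 ≤ G) (hε : 0 ≤ ε)
    (hA : ∀ i ∈ s, ‖A i‖ ≤ G) (hB : ∀ i ∈ s, ‖B i‖ ≤ G) (hAB : ∀ i ∈ s, ‖A i - B i‖ ≤ G * ε) :
    ‖∏ i ∈ s, A i - ∏ i ∈ s, B i‖ ≤ s.card * G ^ s.card * ε := by
  induction s using Finset.induction_on with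
  | empty => simp
  | insert i s hi ih =>
    rw [Finset.prod_insert hi, Finset.prod_insert hi, Finset.card_insert_of_notMem hi]
    have h1 := ih (fun j hj => hA j (mem_insert_of_mem hj)) (fun j hj => hB j (mem_insert_of_mem hj))
      (fun j hj => hAB j (mem_insert_of_mem hj))
    have h2 : ‖∏ j ∈ s, A j‖ ≤ G ^ s.card := by
      rw [norm_prod, ← Finset.prod_const]
      exact Finset.prod_le_prod (fun j _ => norm_nonneg _) (fun j hj => hA j (mem_insert_of_mem hj))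
    have h3 := hB i (mem_insert_self i s)
    have h4 := hAB i (mem_insert_self i s)
    have e : A i * ∏ j ∈ s, A j - B i * ∏ j ∈ s, B j =
        (A i - B i) * ∏ j ∈ s, A j + B i * (∏ j ∈ s, A j - ∏ j ∈ s, B j) := by ring
    rw [e]
    refine (norm_add_le _ _).trans ?_
    rw [norm_mul, norm_mul]
    calc ‖A i - B i‖ * ‖∏ j ∈ s, A j‖ + ‖B i‖ * ‖∏ j ∈ s, A j - ∏ j ∈ s, B j‖
        ≤ (G * ε) * G ^ s.card + G * (s.card * G ^ s.card * ε) := by
          gcongr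
      _ = ((s.card + 1 : ℕ) : ℝ) * G ^ (s.card + 1) * ε := by
          push_cast
          ring

/-- Variation of an integer polynomial. -/
theorem eval_diff (R : ℤ[X]) (e N m₀ m : ℕ) (he : 1 ≤ e) (hR : R.natDegree ≤ e) (hN : m₀ + m ≤ N) (hN1 : 1 ≤ N) :
    |R.eval (((m₀ + m : ℕ)) : ℤ) - R.eval ((m₀ : ℕ) : ℤ)| ≤
      (e : ℤ) * (∑ j ∈ range (e + 1), |R.coeff j|) * (N : ℤ) ^ (e - 1) * m := by
  rw [Polynomial.eval_eq_sum_range' (Nat.lt_succ_of_le hR), Polynomial.eval_eq_sum_range' (Nat.lt_succ_of_le hR),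
    ← Finset.sum_sub_distrib]
  refine (Finset.abs_sum_le_sum_abs _ _).trans ?_
  have h1 : (e : ℤ) * (∑ j ∈ range (e + 1), |R.coeff j|) * (N : ℤ) ^ (e - 1) * m =
      ∑ j ∈ range (e + 1), |R.coeff j| * ((m : ℤ) * e * (N : ℤ) ^ (e - 1)) := by
    rw [← Finset.sum_mul]
    ring
  rw [h1]
  refine Finset.sum_le_sum (fun j hj => ?_)
  rw [← mul_sub, abs_mul]
  refine mul_le_mul_of_nonneg_left ?_ (abs_nonneg _)
  rw [mem_range] at hj
  rcases Nat.eq_zero_or_pos j with rfl | hj0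
  · rw [pow_zero, pow_zero, sub_self, abs_zero]
    positivity
  · refine (abs_pow_sub_pow_le _ _ j).trans ?_
    have e1 : |(((m₀ + m : ℕ)) : ℤ) - ((m₀ : ℕ) : ℤ)| = (m : ℤ) := by
      push_cast
      rw [add_sub_cancel_left, Nat.abs_cast]
    have e2 : max |(((m₀ + m : ℕ)) : ℤ)| |((m₀ : ℕ) : ℤ)| ≤ (N : ℤ) := by
      rw [Nat.abs_cast, Nat.abs_cast]
      exact max_le (by exact_mod_cast hN) (by exact_mod_cast (by omega : m₀ ≤ N))
    rw [e1]
    have h3 : (j : ℤ) ≤ e := by exact_mod_cast (by omega : j ≤ e)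
    have h4 : max |(((m₀ + m : ℕ)) : ℤ)| |((m₀ : ℕ) : ℤ)| ^ (j - 1) ≤ (N : ℤ) ^ (e - 1) := by
      refine (pow_le_pow_left₀ (le_max_of_le_left (abs_nonneg _)) e2 _).trans ?_
      exact pow_le_pow_right₀ (by exact_mod_cast hN1) (by omega)
    have h5 : 0 ≤ max |(((m₀ + m : ℕ)) : ℤ)| |((m₀ : ℕ) : ℤ)| ^ (j - 1) :=
      pow_nonneg (le_max_of_le_left (abs_nonneg _)) _
    exact mul_le_mul (mul_le_mul_of_nonneg_left h3 (by positivity)) h4 h5 (by positivity)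

theorem block_len (N S b : ℕ) (hS : 1 ≤ S) (m : ℕ) (hm : m < (b + 1) * N / S - b * N / S) : m ≤ N / S := by
  have h1 : (b + 1) * N / S ≤ b * N / S + N / S + 1 := by
    rw [Nat.add_mul, one_mul, Nat.add_div (by omega)]
    split_ifs <;> omega
  omega

theorem block_end (N S b : ℕ) (hS : 1 ≤ S) (hb : b < S) (m : ℕ) (hm : m < (b + 1) * N / S - b * N / S) :
    b * N / S + m ≤ N := by
  have h1 : (b + 1) * N / S ≤ N := by
    refine Nat.div_le_of_le_mul ?_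
    exact Nat.mul_le_mul_right N (by omega)
  omega

end BlkAAux

open BlkAAux

theorem blkA {n D : ℕ} {P : Fin n → ℤ[X]} {e : Fin n → ℕ} {i₀ : Fin n} (h : EqDeg D P e i₀) : ∃ C : ℕ, 1 ≤ C ∧
    ∀ (M : ℕ) [NeZero M] (Q a k qm N S b : ℕ) (Ps : Finset ℕ) (L : Fin n → ℕ) (ty : Fin n → ℕ) (η : ℝ), WS M Q a Ps →
      (∀ U, U ⊆ Ps → U.card ≤ k → qU Q a U ≤ qm) → 1 ≤ qm → (∀ l, qm ≤ L l) → 1 ≤ S → S ≤ N → b < S →
      (∀ l, ((N : ℝ) ^ e l / S + qm) / L l ≤ η) → ∀ f : Fin n → ZMod M → ℂ, (∀ l, Bd (f l)) → ∀ x : ZMod M,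
      ‖tv ((b + 1) * N / S - b * N / S) (fun m =>
          ∏ l, vT Q a k (L l) Ps (ty l) 0 (f l) (x + pz M (P l) (b * N / S + m)) (x + pz M (P l) (b * N / S + m)) -
          ∏ l, vT Q a k (L l) Ps (ty l) (pz M (P l - P i₀) (b * N / S)) (f l) (x + pz M (P i₀) (b * N / S + m))
            (x + pz M (P l) (b * N / S + m)))‖ ≤ C * (2 * (4 * ((Ps.card : ℝ) + 2)) ^ (k + 1)) ^ n * η := by
  classical
  have hn : 1 ≤ n := Nat.succ_le_of_lt (Nat.lt_of_le_of_lt (Nat.zero_le _) i₀.isLt)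
  set C₁ : ℕ := 1 + ∑ l : Fin n, e l * ∑ j ∈ range (e l + 1), ((P l - P i₀).coeff j).natAbs with hC₁
  refine ⟨n * C₁, Nat.mul_pos hn (by omega), ?_⟩
  intro M _ Q a k qm N S b Ps L ty η hWS hqm hqm1 hL hS hSN hb hη f hf x
  have hN1 : 1 ≤ N := hS.trans hSN
  have hS0 : (0 : ℝ) < S := by exact_mod_cast hS
  have hη0 : 0 ≤ η := le_trans (by positivity) (hη i₀)
  set G : ℝ := 2 * (4 * ((Ps.card : ℝ) + 2)) ^ (k + 1) with hG
  have hG0 : 0 ≤ G := by positivity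
  refine (norm_tv_le _ _).trans (tvr_le _ (by positivity) (fun m hm => ?_))
  have hkey := prod_diff (univ : Finset (Fin n))
    (fun l => vT Q a k (L l) Ps (ty l) 0 (f l) (x + pz M (P l) (b * N / S + m)) (x + pz M (P l) (b * N / S + m)))
    (fun l => vT Q a k (L l) Ps (ty l) (pz M (P l - P i₀) (b * N / S)) (f l) (x + pz M (P i₀) (b * N / S + m))
            (x + pz M (P l) (b * N / S + m))) G (C₁ * η) hG0 (by positivity)
    (fun l _ => norm_vT_le hWS hqm (hL l) (ty l) _ (f l) (hf l) _ _)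
    (fun l _ => norm_vT_le hWS hqm (hL l) (ty l) _ (f l) (hf l) _ _) (fun l _ => ?_)
  · rw [Finset.card_univ, Fintype.card_fin] at hkey
    refine hkey.trans (le_of_eq ?_)
    push_cast
    ring
  · have hLl : (0 : ℝ) < L l := by exact_mod_cast (by have := hL l; omega : 0 < L l)
    rw [vT_move Q a k (L l) Ps (ty l) (pz M (P l - P i₀) (b * N / S))]
    set m₀ : ℕ := b * N / S with hm₀
    set δ : ℤ := (P l - P i₀).eval (((m₀ + m : ℕ)) : ℤ) - (P l - P i₀).eval ((m₀ : ℕ) : ℤ) with hδ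
    have e1 : x + pz M (P l) (m₀ + m) = (x + pz M (P i₀) (m₀ + m) + pz M (P l - P i₀) m₀) + (δ : ZMod M) := by
      rw [hδ]
      unfold pz
      rw [Polynomial.eval_sub, Polynomial.eval_sub]
      push_cast
      ring
    have h2 := vT_shift hWS hqm (hL l) hqm1 (ty l) 0 (f l) (hf l)
      (x + pz M (P i₀) (m₀ + m) + pz M (P l - P i₀) m₀) (x + pz M (P l) (m₀ + m)) δ
    rw [← e1] at h2
    refine h2.trans (mul_le_mul_of_nonneg_left ?_ hG0)
    have h3 := eval_diff (P l - P i₀) (e l) N m₀ m (h.pos l) (h.base l) (block_end N S b hS hb m hm) hN1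
    rw [← hδ] at h3
    have h4 : (e l : ℤ) * (∑ j ∈ range (e l + 1), |(P l - P i₀).coeff j|) ≤ C₁ := by
      have h5 : e l * ∑ j ∈ range (e l + 1), ((P l - P i₀).coeff j).natAbs ≤ C₁ := by
        have h6 := Finset.single_le_sum (f := fun l : Fin n => e l * ∑ j ∈ range (e l + 1), ((P l - P i₀).coeff j).natAbs)
          (fun l _ => Nat.zero_le _) (mem_univ l)
        exact h6.trans (Nat.le_add_left _ _)
      have h6 : (e l : ℤ) * (∑ j ∈ range (e l + 1), |(P l - P i₀).coeff j|) =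
          ((e l * ∑ j ∈ range (e l + 1), ((P l - P i₀).coeff j).natAbs : ℕ) : ℤ) := by
        push_cast
        rfl
      rw [h6]
      exact_mod_cast h5
    have h5 : |δ| ≤ (C₁ : ℤ) * (N : ℤ) ^ (e l - 1) * m :=
      h3.trans (mul_le_mul_of_nonneg_right (mul_le_mul_of_nonneg_right h4 (by positivity)) (by positivity))
    have h6 : |(δ : ℝ)| ≤ (C₁ : ℝ) * (N : ℝ) ^ (e l - 1) * m := by
      have : ((|δ| : ℤ) : ℝ) ≤ (((C₁ : ℤ) * (N : ℤ) ^ (e l - 1) * m : ℤ) : ℝ) := by exact_mod_cast h5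
      rw [Int.cast_abs] at this
      refine this.trans (le_of_eq ?_)
      push_cast
      ring
    have h7 : (m : ℝ) ≤ N / S := by
      have h8 : m ≤ N / S := block_len N S b hS m hm
      calc (m : ℝ) ≤ ((N / S : ℕ) : ℝ) := by exact_mod_cast h8
        _ ≤ N / S := Nat.cast_div_le
    have h8 : |(δ : ℝ)| ≤ C₁ * ((N : ℝ) ^ e l / S) := by
      refine h6.trans ?_
      calc (C₁ : ℝ) * (N : ℝ) ^ (e l - 1) * m ≤ (C₁ : ℝ) * (N : ℝ) ^ (e l - 1) * (N / S) := by gcongr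
        _ = C₁ * ((N : ℝ) ^ (e l - 1) * N / S) := by ring
        _ = C₁ * ((N : ℝ) ^ e l / S) := by
          rw [← pow_succ, Nat.sub_add_cancel (h.pos l)]
    have hC1 : (1 : ℝ) ≤ C₁ := by exact_mod_cast (by omega : 1 ≤ C₁)
    calc (|(δ : ℝ)| + qm) / L l ≤ (C₁ * ((N : ℝ) ^ e l / S) + C₁ * qm) / L l := by
          have h9 : (qm : ℝ) ≤ C₁ * qm := le_mul_of_one_le_left (Nat.cast_nonneg _) hC1
          gcongr
      _ = C₁ * (((N : ℝ) ^ e l / S + qm) / L l) := by ring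
      _ ≤ C₁ * η := mul_le_mul_of_nonneg_left (hη l) (by positivity)

end Pool.Agent.EQD
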