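import Pool.Agent.Lib.EQD.DefsC

/-!
# Pointwise convergence for polynomials of equal degree: the structured functions

`vT ... ty`: the function on `(z, y)` in a slot of type `ty`: `0`: only the modulus `Q` (the average of `f` over the progression), `1`: the full
projection, `2`: the full projection minus the part of modulus `Q`.
`Zf`: the fibre average of the functions `vT` (slot `l`: window of length `L l` with the shift `s l`).
`Lf Q C₄ t N e`: length used at the scale `N` in a slot of exponent `e`: the multiple of `Q` just below `N ^ e / 2 ^ (C₄ t)`.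
-/

set_option autoImplicit false

open Finset Polynomial

namespace Pool.Agent.EQD

open Pool.Agent.HLT Pool.Agent.NLT Pool.Agent.NLG

/-- Length of the windows. -/
def Lf (Q C₄ t N e : ℕ) : ℕ := N ^ e / 2 ^ (C₄ * t) / Q * Q

section group

variable {M : ℕ} [NeZero M]

/-- Structured function of type `ty`. -/
noncomputable def vT (Q a k L : ℕ) (Ps : Finset ℕ) (ty : ℕ) (s : ZMod M) (f : ZMod M → ℂ) (z y : ZMod M) : ℂ :=
  if ty = 0 then vK Q a 0 L Ps s f z y
  else if ty = 1 then vK Q a k L Ps s f z y
  else vK Q a k L Ps s f z y - vK Q a 0 L Ps s f z y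

/-- Fibre average. -/
noncomputable def Zf {n : ℕ} (P : Fin n → ℤ[X]) (Q a k : ℕ) (Ps : Finset ℕ) (ty : Fin n → ℕ) (L : Fin n → ℕ) (s : Fin n → ZMod M)
    (f : Fin n → ZMod M → ℂ) (z y : ZMod M) : ℂ :=
  AA M P (fun l => vT Q a k (L l) Ps (ty l) (s l) (f l) z) y

end group

end Pool.Agent.EQD
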