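import Pool.Agent.Lib.EQD.MuA
import Pool.Agent.Lib.EQD.AAB
import Pool.Agent.Lib.EQD.DefsD

/-!
# Module SlC: the class `Sl` and the diagonal lemma

PROOFS. Closure properties: products of index types, periods: least common multiples (they divide `M`, and are at most the product). `sl_fib`: index type `∀ l, ι l`
(`Finset.prod_univ_sum`), `φ_a z y = tv M (fun t => ∏ l, φ_(l, a l) z (y + pz M (P l) t))`.
`diag`: for one function `φ` of period `d ∣ M`: `av (φ x x) = av_x tv d (fun u => φ (x + u) (x + u))` (`av_shift`), `‖φ (x + u) (x + u) - φ x (x + u)‖ ≤ u κ ≤ d κ`, and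
`av_x tv d (fun u => φ x (x + u)) = av_x av_y φ x y` because `tv d (fun u => φ x (x + u)) = av_y φ x y` (`d ∣ M`, periodicity). Sum over at most `K` functions.
`diag_n2`, `diag_nq`: `diag` for `sl_normsq`, `sl_normpow`. `sl_vK`: index = sets `S ⊆ Ps` with at most `k` elements (`card_comp`, `norm_vS_le`, `vS_per`, `mU_lip`).
-/

set_option autoImplicit false

open Finset Polynomial

namespace Pool.Agent.EQD

open Pool.Agent.HLT Pool.Agent.NLT Pool.Agent.NLG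

namespace SlCAux

variable {M : ℕ} [NeZero M]

omit [NeZero M] in
theorem per_mul {g : ZMod M → ℂ} {d : ℕ} (h : ∀ y, g (y + (d : ZMod M)) = g y) (e : ℕ) (y : ZMod M) :
    g (y + ((d * e : ℕ) : ZMod M)) = g y := by
  induction e generalizing y with
  | zero => simp
  | succ e ih =>
    have e1 : y + ((d * (e + 1) : ℕ) : ZMod M) = (y + ((d * e : ℕ) : ZMod M)) + (d : ZMod M) := by
      push_cast
      ring
    rw [e1, h, ih]

omit [NeZero M] in
theorem per_dvd {g : ZMod M → ℂ} {d D : ℕ} (h : ∀ y, g (y + (d : ZMod M)) = g y) (hD : d ∣ D) (y : ZMod M) :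
    g (y + (D : ZMod M)) = g y := by
  obtain ⟨e, rfl⟩ := hD
  exact per_mul h e y

theorem sum_range_M (g : ZMod M → ℂ) (x : ZMod M) : ∑ i ∈ range M, g (x + (i : ZMod M)) = ∑ y, g y := by
  refine Finset.sum_bij (fun i _ => x + (i : ZMod M)) (fun _ _ => mem_univ _) ?_ ?_ (fun _ _ => rfl)
  · intro i hi j hj hij
    have h1 : (i : ZMod M) = (j : ZMod M) := add_left_cancel hij
    have h2 := congrArg ZMod.val h1
    rwa [ZMod.val_natCast_of_lt (mem_range.1 hi), ZMod.val_natCast_of_lt (mem_range.1 hj)] at h2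
  · intro y _
    refine ⟨(y - x).val, mem_range.2 (ZMod.val_lt _), ?_⟩
    rw [ZMod.natCast_zmod_val]
    ring

omit [NeZero M] in
theorem sum_mul_per {g : ZMod M → ℂ} {d : ℕ} (h : ∀ y, g (y + (d : ZMod M)) = g y) (x : ZMod M) (e : ℕ) :
    ∑ i ∈ range (d * e), g (x + (i : ZMod M)) = e * ∑ i ∈ range d, g (x + (i : ZMod M)) := by
  induction e with
  | zero => simp
  | succ e ih =>
    rw [Nat.mul_succ, Finset.sum_range_add, ih]
    have h1 : ∑ i ∈ range d, g (x + ((d * e + i : ℕ) : ZMod M)) = ∑ i ∈ range d, g (x + (i : ZMod M)) := by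
      refine Finset.sum_congr rfl (fun i _ => ?_)
      have e1 : x + ((d * e + i : ℕ) : ZMod M) = (x + (i : ZMod M)) + ((d * e : ℕ) : ZMod M) := by
        push_cast
        ring
      rw [e1, per_mul h]
    rw [h1]
    push_cast
    ring

theorem tv_per {g : ZMod M → ℂ} {d : ℕ} (h : ∀ y, g (y + (d : ZMod M)) = g y) (hd : 1 ≤ d) (hM : d ∣ M) (x : ZMod M) :
    tv d (fun u => g (x + (u : ZMod M))) = av g := by
  obtain ⟨e, he⟩ := hM
  have hd0 : (d : ℂ) ≠ 0 := by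
    have : d ≠ 0 := by omega
    exact_mod_cast this
  have hM0 : M ≠ 0 := NeZero.ne M
  have he0 : (e : ℂ) ≠ 0 := by
    have : e ≠ 0 := by
      rintro rfl
      apply hM0
      rw [he, mul_zero]
    exact_mod_cast this
  have h1 := sum_range_M g x
  have h2 := sum_mul_per h x e
  rw [← he] at h2
  unfold tv av
  rw [← h1, h2]
  have h3 : (M : ℂ) = d * e := by
    have : ((M : ℕ) : ℂ) = ((d * e : ℕ) : ℂ) := congrArg _ he
    rw [this]
    push_cast
    ring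
  rw [h3]
  field_simp

omit [NeZero M] in
theorem lipn {φ : ZMod M → ZMod M → ℂ} {κ : ℝ} (lip : ∀ z y, ‖φ (z + 1) y - φ z y‖ ≤ κ) (z y : ZMod M) (u : ℕ) :
    ‖φ (z + (u : ZMod M)) y - φ z y‖ ≤ u * κ := by
  induction u with
  | zero => simp
  | succ u ih =>
    have e1 : z + ((u + 1 : ℕ) : ZMod M) = z + (u : ZMod M) + 1 := by
      push_cast
      ring
    rw [e1]
    have h1 := lip (z + (u : ZMod M)) y
    have h2 := norm_add_le (φ (z + (u : ZMod M) + 1) y - φ (z + (u : ZMod M)) y) (φ (z + (u : ZMod M)) y - φ z y)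
    have e2 : φ (z + (u : ZMod M) + 1) y - φ (z + (u : ZMod M)) y + (φ (z + (u : ZMod M)) y - φ z y) =
        φ (z + (u : ZMod M) + 1) y - φ z y := by ring
    rw [e2] at h2
    push_cast
    linarith

theorem diag1 {φ : ZMod M → ZMod M → ℂ} {d : ℕ} (hd : 1 ≤ d) (hM : d ∣ M) {κ : ℝ} (hκ : 0 ≤ κ)
    (per : ∀ z y, φ z (y + (d : ZMod M)) = φ z y) (lip : ∀ z y, ‖φ (z + 1) y - φ z y‖ ≤ κ) :
    ‖av (fun x => φ x x) - av (fun z => av (fun y => φ z y))‖ ≤ d * κ := by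
  have h1 : av (fun x => φ x x) = tv d (fun u => av (fun x => φ (x + (u : ZMod M)) (x + (u : ZMod M)))) := by
    have : (fun u : ℕ => av (fun x => φ (x + (u : ZMod M)) (x + (u : ZMod M)))) = fun _ => av (fun x => φ x x) := by
      funext u
      exact av_shift (fun x => φ x x) (u : ZMod M)
    rw [this, tv_const d hd]
  have h2 : av (fun z => av (fun y => φ z y)) = tv d (fun u => av (fun x => φ x (x + (u : ZMod M)))) := by
    rw [tv_av_comm]
    congr 1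
    funext z
    exact (tv_per (g := fun y => φ z y) (per z) hd hM z).symm
  rw [h1, h2, ← tv_sub]
  refine (norm_tv_le _ _).trans (tvr_le d (by positivity) (fun u hu => ?_))
  rw [← av_sub]
  refine (norm_av_le _).trans (avr_le (fun x => ?_))
  refine (lipn (φ := fun z y => φ z y) lip x (x + (u : ZMod M)) u).trans ?_
  have : (u : ℝ) ≤ d := by exact_mod_cast hu.le
  exact mul_le_mul_of_nonneg_right this hκ

theorem sl_neg {K q : ℕ} {κ : ℝ} {Φ : ZMod M → ZMod M → ℂ} (h : Sl K q κ Φ) : Sl K q κ (fun z y => -Φ z y) := by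
  obtain ⟨ι, iι, φ, d, h1, h2, h3, h4, h5, h6⟩ := h
  refine ⟨ι, iι, fun a z y => -φ a z y, d, h1, h2, ?_, ?_, ?_, ?_⟩
  · intro a z y
    dsimp only
    rw [h3]
  · intro a z y
    dsimp only
    rw [norm_neg]
    exact h4 a z y
  · intro a z y
    dsimp only
    have e : -φ a (z + 1) y - -φ a z y = -(φ a (z + 1) y - φ a z y) := by ring
    rw [e, norm_neg]
    exact h5 a z y
  · intro z y
    dsimp only
    rw [h6, Finset.sum_neg_distrib]

theorem tv_sum {ι : Type} (s : Finset ι) (H : ℕ) (F : ι → ℕ → ℂ) :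
    tv H (fun t => ∑ i ∈ s, F i t) = ∑ i ∈ s, tv H (F i) := by
  unfold tv
  rw [Finset.sum_comm, Finset.sum_div]

/-- Difference of two products. -/
theorem prod_diff {ι : Type} (s : Finset ι) (x y : ι → ℂ) (K κ : ℝ) (hK : 1 ≤ K) (hκ : 0 ≤ κ)
    (hx : ∀ i, ‖x i‖ ≤ K) (hy : ∀ i, ‖y i‖ ≤ K) (hxy : ∀ i, ‖x i - y i‖ ≤ κ) :
    ‖∏ i ∈ s, x i - ∏ i ∈ s, y i‖ ≤ s.card * K ^ s.card * κ := by
  classical
  have hprod : ∀ t : Finset ι, ‖∏ i ∈ t, y i‖ ≤ K ^ t.card := by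
    intro t
    rw [norm_prod]
    exact (Finset.prod_le_prod (fun i _ => norm_nonneg _) (fun i _ => hy i)).trans (by rw [prod_const])
  induction s using Finset.induction_on with
  | empty => simp
  | insert a s ha ih =>
    rw [prod_insert ha, prod_insert ha, card_insert_of_notMem ha]
    have e : x a * ∏ i ∈ s, x i - y a * ∏ i ∈ s, y i =
        x a * (∏ i ∈ s, x i - ∏ i ∈ s, y i) + (x a - y a) * ∏ i ∈ s, y i := by ring
    rw [e]
    have hK0 : 0 ≤ K := by linarith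
    have h1 : ‖x a * (∏ i ∈ s, x i - ∏ i ∈ s, y i)‖ ≤ K * (s.card * K ^ s.card * κ) := by
      rw [norm_mul]
      exact mul_le_mul (hx a) ih (norm_nonneg _) hK0
    have h2 : ‖(x a - y a) * ∏ i ∈ s, y i‖ ≤ κ * K ^ s.card := by
      rw [norm_mul]
      exact mul_le_mul (hxy a) (hprod s) (norm_nonneg _) hκ
    have h3 := norm_add_le (x a * (∏ i ∈ s, x i - ∏ i ∈ s, y i)) ((x a - y a) * ∏ i ∈ s, y i)
    have h4 : κ * K ^ s.card ≤ K ^ (s.card + 1) * κ := by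
      rw [mul_comm κ]
      apply mul_le_mul_of_nonneg_right _ hκ
      exact pow_le_pow_right₀ hK (Nat.le_succ _)
    have h5 : K * ((s.card : ℝ) * K ^ s.card * κ) + K ^ (s.card + 1) * κ = ((s.card + 1 : ℕ) : ℝ) * K ^ (s.card + 1) * κ := by
      push_cast
      ring
    linarith

end SlCAux

variable {M : ℕ} [NeZero M]

open SlCAux

theorem sl_mono {K K' q q' : ℕ} {κ κ' : ℝ} {Φ : ZMod M → ZMod M → ℂ} (h : Sl K q κ Φ) (hK : K ≤ K') (hq : q ≤ q') (hκ : κ ≤ κ') :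
    Sl K' q' κ' Φ := by
  obtain ⟨ι, iι, φ, d, h1, h2, h3, h4, h5, h6⟩ := h
  refine ⟨ι, iι, φ, d, h1.trans hK, fun a => ⟨(h2 a).1, (h2 a).2.1.trans hq, (h2 a).2.2⟩, h3, fun a z y => (h4 a z y).trans ?_,
    fun a z y => (h5 a z y).trans hκ, h6⟩
  exact_mod_cast hK

theorem sl_add {K K' q : ℕ} {κ : ℝ} {Φ Φ' : ZMod M → ZMod M → ℂ} (h : Sl K q κ Φ) (h' : Sl K' q κ Φ') :
    Sl (K + K') q κ (fun z y => Φ z y + Φ' z y) := by
  obtain ⟨ι, iι, φ, d, h1, h2, h3, h4, h5, h6⟩ := h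
  obtain ⟨ι', iι', φ', d', h1', h2', h3', h4', h5', h6'⟩ := h'
  refine ⟨ι ⊕ ι', inferInstance, Sum.elim φ φ', Sum.elim d d', ?_, ?_, ?_, ?_, ?_, ?_⟩
  · rw [Fintype.card_sum]
    exact add_le_add h1 h1'
  · rintro (a | a)
    · exact h2 a
    · exact h2' a
  · rintro (a | a) z y
    · exact h3 a z y
    · exact h3' a z y
  · rintro (a | a) z y
    · refine (h4 a z y).trans ?_
      push_cast
      have : (0 : ℝ) ≤ K' := Nat.cast_nonneg _
      linarith
    · refine (h4' a z y).trans ?_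
      push_cast
      have : (0 : ℝ) ≤ K := Nat.cast_nonneg _
      linarith
  · rintro (a | a) z y
    · exact h5 a z y
    · exact h5' a z y
  · intro z y
    rw [Fintype.sum_sum_type]
    dsimp only
    rw [h6, h6']
    rfl

theorem sl_sub {K K' q : ℕ} {κ : ℝ} {Φ Φ' : ZMod M → ZMod M → ℂ} (h : Sl K q κ Φ) (h' : Sl K' q κ Φ') :
    Sl (K + K') q κ (fun z y => Φ z y - Φ' z y) := by
  have h1 := sl_add h (sl_neg h')
  have e : (fun z y => Φ z y - Φ' z y) = fun z y => Φ z y + -Φ' z y := by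
    funext z y
    ring
  rw [e]
  exact h1

theorem sl_mul {K K' q q' : ℕ} {κ κ' : ℝ} {Φ Φ' : ZMod M → ZMod M → ℂ} (h : Sl K q κ Φ) (h' : Sl K' q' κ' Φ') :
    Sl (K * K') (q * q') (K * κ' + K' * κ) (fun z y => Φ z y * Φ' z y) := by
  obtain ⟨ι, iι, φ, d, h1, h2, h3, h4, h5, h6⟩ := h
  obtain ⟨ι', iι', φ', d', h1', h2', h3', h4', h5', h6'⟩ := h'
  refine ⟨ι × ι', inferInstance, fun a z y => φ a.1 z y * φ' a.2 z y, fun a => Nat.lcm (d a.1) (d' a.2), ?_, ?_, ?_, ?_, ?_, ?_⟩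
  · rw [Fintype.card_prod]
    exact Nat.mul_le_mul h1 h1'
  · rintro ⟨a, b⟩
    refine ⟨Nat.lcm_pos (h2 a).1 (h2' b).1, ?_, Nat.lcm_dvd (h2 a).2.2 (h2' b).2.2⟩
    refine (Nat.le_of_dvd (Nat.mul_pos (h2 a).1 (h2' b).1) (Nat.lcm_dvd_mul _ _)).trans ?_
    exact Nat.mul_le_mul (h2 a).2.1 (h2' b).2.1
  · rintro ⟨a, b⟩ z y
    dsimp only
    rw [per_dvd (g := fun y => φ a z y) (h3 a z) (Nat.dvd_lcm_left _ _) y,
      per_dvd (g := fun y => φ' b z y) (h3' b z) (Nat.dvd_lcm_right _ _) y]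
  · rintro ⟨a, b⟩ z y
    dsimp only
    rw [norm_mul]
    push_cast
    exact mul_le_mul (h4 a z y) (h4' b z y) (norm_nonneg _) (Nat.cast_nonneg _)
  · rintro ⟨a, b⟩ z y
    dsimp only
    have e : φ a (z + 1) y * φ' b (z + 1) y - φ a z y * φ' b z y =
        φ a z y * (φ' b (z + 1) y - φ' b z y) + φ' b (z + 1) y * (φ a (z + 1) y - φ a z y) := by ring
    rw [e]
    refine (norm_add_le _ _).trans ?_
    rw [norm_mul, norm_mul]
    exact add_le_add (mul_le_mul (h4 a z y) (h5' b z y) (norm_nonneg _) (Nat.cast_nonneg _))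
      (mul_le_mul (h4' b (z + 1) y) (h5 a z y) (norm_nonneg _) (Nat.cast_nonneg _))
  · intro z y
    dsimp only
    rw [h6, h6', Fintype.sum_prod_type, Finset.sum_mul_sum]

theorem sl_conj {K q : ℕ} {κ : ℝ} {Φ : ZMod M → ZMod M → ℂ} (h : Sl K q κ Φ) :
    Sl K q κ (fun z y => (starRingEnd ℂ) (Φ z y)) := by
  obtain ⟨ι, iι, φ, d, h1, h2, h3, h4, h5, h6⟩ := h
  refine ⟨ι, iι, fun a z y => (starRingEnd ℂ) (φ a z y), d, h1, h2, ?_, ?_, ?_, ?_⟩
  · intro a z y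
    dsimp only
    rw [h3]
  · intro a z y
    dsimp only
    rw [RCLike.norm_conj]
    exact h4 a z y
  · intro a z y
    dsimp only
    rw [← map_sub, RCLike.norm_conj]
    exact h5 a z y
  · intro z y
    dsimp only
    rw [h6, map_sum]

theorem sl_shift {K q : ℕ} {κ : ℝ} {Φ : ZMod M → ZMod M → ℂ} (h : Sl K q κ Φ) (s : ZMod M) : Sl K q κ (fun z y => Φ (z + s) y) := by
  obtain ⟨ι, iι, φ, d, h1, h2, h3, h4, h5, h6⟩ := h
  refine ⟨ι, iι, fun a z y => φ a (z + s) y, d, h1, h2, fun a z y => h3 a (z + s) y, fun a z y => h4 a (z + s) y, ?_,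
    fun z y => h6 (z + s) y⟩
  intro a z y
  dsimp only
  have e : z + 1 + s = z + s + 1 := by ring
  rw [e]
  exact h5 a (z + s) y

theorem sl_tv {K q : ℕ} {κ : ℝ} (hκ : 0 ≤ κ) {Φ : ZMod M → ZMod M → ℂ} (h : Sl K q κ Φ) (H : ℕ) (c : ℕ → ZMod M) :
    Sl K q κ (fun z y => tv H (fun m => Φ (z + c m) y)) := by
  obtain ⟨ι, iι, φ, d, h1, h2, h3, h4, h5, h6⟩ := h
  refine ⟨ι, iι, fun a z y => tv H (fun m => φ a (z + c m) y), d, h1, h2, ?_, ?_, ?_, ?_⟩
  · intro a z y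
    dsimp only
    congr 1
    funext m
    exact h3 a (z + c m) y
  · intro a z y
    dsimp only
    exact (norm_tv_le _ _).trans (tvr_le H (Nat.cast_nonneg _) (fun m _ => h4 a (z + c m) y))
  · intro a z y
    dsimp only
    rw [← tv_sub]
    refine (norm_tv_le _ _).trans (tvr_le H hκ (fun m _ => ?_))
    have e : z + 1 + c m = z + c m + 1 := by ring
    rw [e]
    exact h5 a (z + c m) y
  · intro z y
    dsimp only
    rw [← tv_sum]
    congr 1
    funext m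
    exact h6 (z + c m) y

theorem sl_normsq {K q : ℕ} {κ : ℝ} {Φ : ZMod M → ZMod M → ℂ} (h : Sl K q κ Φ) :
    Sl (K ^ 2) (q ^ 2) (2 * K * κ) (fun z y => ((‖Φ z y‖ ^ 2 : ℝ) : ℂ)) := by
  have h1 := sl_mul h (sl_conj h)
  have e1 : (fun z y => ((‖Φ z y‖ ^ 2 : ℝ) : ℂ)) = fun z y => Φ z y * (starRingEnd ℂ) (Φ z y) := by
    funext z y
    rw [Complex.mul_conj, Complex.normSq_eq_norm_sq]
  have e2 : 2 * (K : ℝ) * κ = K * κ + K * κ := by ring
  rw [e1, e2, pow_two, pow_two]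
  exact h1

theorem sl_normpow {K q : ℕ} {κ : ℝ} (hκ : 0 ≤ κ) (hK : 1 ≤ K) (hq : 1 ≤ q) {Φ : ZMod M → ZMod M → ℂ} (h : Sl K q κ Φ) (r : ℕ) (hr : 1 ≤ r) :
    Sl (K ^ (2 * r)) (q ^ (2 * r)) (2 * r * K ^ (2 * r) * κ) (fun z y => ((‖Φ z y‖ ^ (2 * r) : ℝ) : ℂ)) := by
  have hK1 : (1 : ℝ) ≤ K := by exact_mod_cast hK
  induction r, hr using Nat.le_induction with
  | base =>
    have h1 := sl_normsq h
    rw [mul_one]
    refine sl_mono h1 le_rfl le_rfl ?_
    apply mul_le_mul_of_nonneg_right _ hκ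
    have : (K : ℝ) ≤ K ^ 2 := by nlinarith
    push_cast
    linarith
  | succ r hr ih =>
    have h1 := sl_mul ih (sl_normsq h)
    have e1 : (fun z y => ((‖Φ z y‖ ^ (2 * (r + 1)) : ℝ) : ℂ)) =
        fun z y => ((‖Φ z y‖ ^ (2 * r) : ℝ) : ℂ) * ((‖Φ z y‖ ^ 2 : ℝ) : ℂ) := by
      funext z y
      rw [← Complex.ofReal_mul, ← pow_add]
      congr 2
    have e2 : K ^ (2 * (r + 1)) = K ^ (2 * r) * K ^ 2 := by rw [← pow_add]; congr 1
    have e3 : q ^ (2 * (r + 1)) = q ^ (2 * r) * q ^ 2 := by rw [← pow_add]; congr 1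
    rw [e1, e2, e3]
    refine sl_mono h1 le_rfl le_rfl ?_
    push_cast
    have h2 : (K : ℝ) ^ (2 * (r + 1)) = K ^ (2 * r) * K ^ 2 := by rw [← pow_add]; congr 1
    rw [h2]
    have h3 : (K : ℝ) ≤ K ^ 2 := by nlinarith
    have h4 : (K : ℝ) ^ (2 * r) * (2 * K * κ) ≤ (K : ℝ) ^ (2 * r) * (2 * K ^ 2 * κ) := by
      apply mul_le_mul_of_nonneg_left _ (by positivity)
      apply mul_le_mul_of_nonneg_right _ hκ
      linarith
    have h5 : 2 * ((r : ℝ) + 1) * (K ^ (2 * r) * K ^ 2) * κ =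
        (K : ℝ) ^ (2 * r) * (2 * K ^ 2 * κ) + K ^ 2 * (2 * r * K ^ (2 * r) * κ) := by ring
    linarith

theorem sl_fib {n : ℕ} {K q : ℕ} {κ : ℝ} (hκ : 0 ≤ κ) (hK : 1 ≤ K) (hq : 1 ≤ q) (P : Fin n → ℤ[X]) (V : Fin n → ZMod M → ZMod M → ℂ)
    (h : ∀ l, Sl K q κ (V l)) : Sl (K ^ n) (q ^ n) (n * K ^ n * κ) (fun z y => AA M P (fun l => V l z) y) := by
  classical
  have hK1 : (1 : ℝ) ≤ K := by exact_mod_cast hK
  choose ι iι φ d h1 h2 h3 h4 h5 h6 using h
  refine ⟨∀ l, ι l, inferInstance, fun a z y => tv M (fun t => ∏ l, φ l (a l) z (y + pz M (P l) t)),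
    fun a => Finset.univ.lcm (fun l => d l (a l)), ?_, ?_, ?_, ?_, ?_, ?_⟩
  · rw [Fintype.card_pi]
    calc ∏ l, Fintype.card (ι l) ≤ ∏ _l : Fin n, K := Finset.prod_le_prod' (fun l _ => h1 l)
      _ = K ^ n := by rw [prod_const, card_univ, Fintype.card_fin]
  · intro a
    have hdvd : Finset.univ.lcm (fun l => d l (a l)) ∣ ∏ l, d l (a l) :=
      Finset.lcm_dvd (fun l hl => Finset.dvd_prod_of_mem _ hl)
    have hpos : 0 < ∏ l, d l (a l) := Finset.prod_pos (fun l _ => (h2 l (a l)).1)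
    refine ⟨Nat.pos_of_dvd_of_pos hdvd hpos, ?_, Finset.lcm_dvd (fun l _ => (h2 l (a l)).2.2)⟩
    refine (Nat.le_of_dvd hpos hdvd).trans ?_
    calc ∏ l, d l (a l) ≤ ∏ _l : Fin n, q := Finset.prod_le_prod' (fun l _ => (h2 l (a l)).2.1)
      _ = q ^ n := by rw [prod_const, card_univ, Fintype.card_fin]
  · intro a z y
    dsimp only
    congr 1
    funext t
    refine Finset.prod_congr rfl (fun l _ => ?_)
    have e : y + ((Finset.univ.lcm (fun l => d l (a l)) : ℕ) : ZMod M) + pz M (P l) t =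
        y + pz M (P l) t + ((Finset.univ.lcm (fun l => d l (a l)) : ℕ) : ZMod M) := by ring
    rw [e]
    exact per_dvd (g := fun y => φ l (a l) z y) (h3 l (a l) z) (Finset.dvd_lcm (f := fun l => d l (a l)) (mem_univ l)) _
  · intro a z y
    dsimp only
    refine (norm_tv_le _ _).trans (tvr_le M (Nat.cast_nonneg _) (fun t _ => ?_))
    rw [norm_prod]
    push_cast
    calc ∏ l, ‖φ l (a l) z (y + pz M (P l) t)‖ ≤ ∏ _l : Fin n, (K : ℝ) :=
          Finset.prod_le_prod (fun l _ => norm_nonneg _) (fun l _ => h4 l (a l) z _)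
      _ = (K : ℝ) ^ n := by rw [prod_const, card_univ, Fintype.card_fin]
  · intro a z y
    dsimp only
    rw [← tv_sub]
    refine (norm_tv_le _ _).trans (tvr_le M (by positivity) (fun t _ => ?_))
    have h7 := prod_diff (univ : Finset (Fin n)) (fun l => φ l (a l) (z + 1) (y + pz M (P l) t))
      (fun l => φ l (a l) z (y + pz M (P l) t)) K κ hK1 hκ (fun l => h4 l (a l) _ _) (fun l => h4 l (a l) _ _)
      (fun l => h5 l (a l) _ _)
    rw [card_univ, Fintype.card_fin] at h7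
    exact h7
  · intro z y
    dsimp only
    rw [← tv_sum]
    unfold AA
    congr 1
    funext t
    have h7 : ∀ l, V l z (y + pz M (P l) t) = ∑ b : ι l, φ l b z (y + pz M (P l) t) := fun l => h6 l z _
    rw [Finset.prod_congr rfl (fun l _ => h7 l), Finset.prod_univ_sum, Fintype.piFinset_univ]

theorem diag {K q : ℕ} {κ : ℝ} (hκ : 0 ≤ κ) {Φ : ZMod M → ZMod M → ℂ} (h : Sl K q κ Φ) :
    ‖av (fun x => Φ x x) - av (fun z => av (fun y => Φ z y))‖ ≤ K * q * κ := by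
  obtain ⟨ι, iι, φ, d, h1, h2, h3, h4, h5, h6⟩ := h
  have e1 : av (fun x => Φ x x) = ∑ a, av (fun x => φ a x x) := by
    rw [← av_sum]
    congr 1
    funext x
    exact h6 x x
  have e2 : av (fun z => av (fun y => Φ z y)) = ∑ a, av (fun z => av (fun y => φ a z y)) := by
    rw [← av_sum]
    congr 1
    funext z
    rw [← av_sum]
    congr 1
    funext y
    exact h6 z y
  rw [e1, e2, ← Finset.sum_sub_distrib]
  calc ‖∑ a, (av (fun x => φ a x x) - av (fun z => av (fun y => φ a z y)))‖ ≤ ∑ _a : ι, (q : ℝ) * κ := by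
        refine norm_sum_le_of_le _ (fun a _ => ?_)
        refine (diag1 (h2 a).1 (h2 a).2.2 hκ (h3 a) (h5 a)).trans ?_
        apply mul_le_mul_of_nonneg_right _ hκ
        exact_mod_cast (h2 a).2.1
    _ = (Fintype.card ι : ℝ) * ((q : ℝ) * κ) := by rw [Finset.sum_const, card_univ, nsmul_eq_mul]
    _ ≤ K * ((q : ℝ) * κ) := by
        apply mul_le_mul_of_nonneg_right _ (by positivity)
        exact_mod_cast h1
    _ = K * q * κ := by ring

theorem diag_n2 {K q : ℕ} {κ : ℝ} (hκ : 0 ≤ κ) {Φ : ZMod M → ZMod M → ℂ} (h : Sl K q κ Φ) :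
    |n2 (fun x => Φ x x) - avr (fun z => n2 (Φ z))| ≤ 2 * (K : ℝ) ^ 3 * q ^ 2 * κ := by
  have h1 := diag (by positivity) (sl_normsq h)
  have e1 : av (fun x => ((‖Φ x x‖ ^ 2 : ℝ) : ℂ)) = ((n2 (fun x => Φ x x) : ℝ) : ℂ) := by
    rw [av_ofReal]
    rfl
  have e2 : av (fun z => av (fun y => ((‖Φ z y‖ ^ 2 : ℝ) : ℂ))) = ((avr (fun z => n2 (Φ z)) : ℝ) : ℂ) := by
    rw [← av_ofReal]
    congr 1
    funext z
    rw [av_ofReal]
    rfl
  rw [e1, e2, ← Complex.ofReal_sub, Complex.norm_real, Real.norm_eq_abs] at h1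
  refine h1.trans (le_of_eq ?_)
  push_cast
  ring

theorem diag_nq {K q : ℕ} {κ : ℝ} (hκ : 0 ≤ κ) (hK : 1 ≤ K) (hq : 1 ≤ q) {Φ : ZMod M → ZMod M → ℂ} (h : Sl K q κ Φ) (r : ℕ) (hr : 1 ≤ r) :
    |nq (2 * r) (fun x => Φ x x) - avr (fun z => nq (2 * r) (Φ z))| ≤ 2 * r * (K : ℝ) ^ (4 * r) * q ^ (2 * r) * κ := by
  have h1 := diag (by positivity) (sl_normpow hκ hK hq h r hr)
  have e1 : av (fun x => ((‖Φ x x‖ ^ (2 * r) : ℝ) : ℂ)) = ((nq (2 * r) (fun x => Φ x x) : ℝ) : ℂ) := by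
    rw [av_ofReal]
    rfl
  have e2 : av (fun z => av (fun y => ((‖Φ z y‖ ^ (2 * r) : ℝ) : ℂ))) = ((avr (fun z => nq (2 * r) (Φ z)) : ℝ) : ℂ) := by
    rw [← av_ofReal]
    congr 1
    funext z
    rw [av_ofReal]
    rfl
  rw [e1, e2, ← Complex.ofReal_sub, Complex.norm_real, Real.norm_eq_abs] at h1
  refine h1.trans (le_of_eq ?_)
  push_cast
  have e3 : (K : ℝ) ^ (4 * r) = K ^ (2 * r) * K ^ (2 * r) := by
    rw [← pow_add]
    congr 1
    ring
  rw [e3]
  ring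

theorem sl_vK {Q a k L qm : ℕ} {Ps : Finset ℕ} (h : WS M Q a Ps) (hqm : ∀ U, U ⊆ Ps → U.card ≤ k → qU Q a U ≤ qm) (hL : qm ≤ L)
    (h1 : 1 ≤ qm) (s : ZMod M) (f : ZMod M → ℂ) (hf : Bd f) :
    Sl ((4 * (Ps.card + 2)) ^ (k + 1)) qm ((4 * (Ps.card + 2)) ^ (k + 1) * qm / L) (vK Q a k L Ps s f) := by
  classical
  have hL1 : 1 ≤ L := h1.trans hL
  have hL0 : (0 : ℝ) < L := by exact_mod_cast hL1
  set I : Finset (Σ _ : ℕ, Finset ℕ) := (range (k + 1)).sigma (fun i => Ps.powersetCard i) with hI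
  have hmem : ∀ x : I, x.1.2 ⊆ Ps ∧ x.1.2.card ≤ k := by
    rintro ⟨⟨i, S⟩, hx⟩
    rw [hI, mem_sigma, mem_range, mem_powersetCard] at hx
    refine ⟨hx.2.1, ?_⟩
    have := hx.1
    have := hx.2.2
    dsimp only at *
    omega
  have hN : (2 : ℝ) ^ (k + 2) ≤ (4 * ((Ps.card : ℝ) + 2)) ^ (k + 1) := by
    calc (2 : ℝ) ^ (k + 2) = 2 ^ (k + 1) * 2 := by rw [← pow_succ]
      _ ≤ 2 ^ (k + 1) * 2 ^ (k + 1) := by
          apply mul_le_mul_of_nonneg_left _ (by positivity)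
          calc (2 : ℝ) = 2 ^ 1 := (pow_one _).symm
            _ ≤ 2 ^ (k + 1) := pow_le_pow_right₀ one_le_two (by omega)
      _ = 4 ^ (k + 1) := by rw [← mul_pow]; norm_num
      _ ≤ (4 * ((Ps.card : ℝ) + 2)) ^ (k + 1) := by
          apply pow_le_pow_left₀ (by norm_num)
          have : (0 : ℝ) ≤ Ps.card := Nat.cast_nonneg _
          linarith
  refine ⟨I, inferInstance, fun x z y => vS Q a L s f x.1.2 z y, fun x => qU Q a x.1.2, ?_, ?_, ?_, ?_, ?_, ?_⟩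
  · rw [Fintype.card_coe, hI, card_sigma]
    refine (card_comp k Ps).trans (Nat.pow_le_pow_left (by omega) _)
  · intro x
    exact ⟨qU_pos h (hmem x).1, hqm _ (hmem x).1 (hmem x).2, qU_dvd_M h (hmem x).1⟩
  · intro x z y
    exact vS_per h (hmem x).1 L s f z y
  · intro x z y
    refine (norm_vS_le h (hmem x).1 L ((hqm _ (hmem x).1 (hmem x).2).trans hL) s f hf z y).trans ?_
    push_cast
    refine le_trans ?_ hN
    exact pow_le_pow_right₀ one_le_two (by have := (hmem x).2; omega)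
  · intro x z y
    have h2 := vS_shift h (hmem x).1 L hL1 s f hf z y 1
    rw [Nat.cast_one, Nat.cast_one] at h2
    refine h2.trans ?_
    apply div_le_div_of_nonneg_right _ hL0.le
    have h3 : ((qU Q a x.1.2 : ℕ) : ℝ) ≤ qm := by exact_mod_cast hqm _ (hmem x).1 (hmem x).2
    have h4 : (1 : ℝ) ≤ qm := by exact_mod_cast h1
    have h5 : (2 : ℝ) ^ (x.1.2.card + 1) ≤ 2 ^ (k + 1) := pow_le_pow_right₀ one_le_two (by have := (hmem x).2; omega)
    calc (2 : ℝ) ^ (x.1.2.card + 1) * (1 + (qU Q a x.1.2 : ℕ)) ≤ 2 ^ (k + 1) * (qm + qm) :=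
          mul_le_mul h5 (by linarith) (by positivity) (by positivity)
      _ = 2 ^ (k + 2) * qm := by ring
      _ ≤ (4 * ((Ps.card : ℝ) + 2)) ^ (k + 1) * qm := mul_le_mul_of_nonneg_right hN (by linarith)
      _ = _ := by ring
  · intro z y
    unfold vK
    rw [Finset.sum_coe_sort I (fun x => vS Q a L s f x.2 z y), hI, Finset.sum_sigma]

theorem sl_vT {Q a k L qm : ℕ} {Ps : Finset ℕ} (h : WS M Q a Ps) (hqm : ∀ U, U ⊆ Ps → U.card ≤ k → qU Q a U ≤ qm) (hL : qm ≤ L)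
    (h1 : 1 ≤ qm) (ty : ℕ) (s : ZMod M) (f : ZMod M → ℂ) (hf : Bd f) :
    Sl (2 * (4 * (Ps.card + 2)) ^ (k + 1)) qm ((4 * (Ps.card + 2)) ^ (k + 1) * qm / L) (vT Q a k L Ps ty s f) := by
  have hL0 : (0 : ℝ) < L := by exact_mod_cast h1.trans hL
  have hk := sl_vK h hqm hL h1 s f hf
  have h0 := sl_vK (k := 0) h (fun U hU hc => hqm U hU (hc.trans (Nat.zero_le _))) hL h1 s f hf
  have hpow : (4 * (Ps.card + 2)) ^ (0 + 1) ≤ (4 * (Ps.card + 2)) ^ (k + 1) := Nat.pow_le_pow_right (by omega) (by omega)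
  have h0' : Sl ((4 * (Ps.card + 2)) ^ (k + 1)) qm ((4 * (Ps.card + 2)) ^ (k + 1) * qm / L) (vK Q a 0 L Ps s f) := by
    refine sl_mono h0 hpow le_rfl ?_
    apply div_le_div_of_nonneg_right _ hL0.le
    apply mul_le_mul_of_nonneg_right _ (Nat.cast_nonneg _)
    exact_mod_cast hpow
  have e2 : 2 * (4 * (Ps.card + 2)) ^ (k + 1) = (4 * (Ps.card + 2)) ^ (k + 1) + (4 * (Ps.card + 2)) ^ (k + 1) := by ring
  have hle : (4 * (Ps.card + 2)) ^ (k + 1) ≤ 2 * (4 * (Ps.card + 2)) ^ (k + 1) := by omega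
  by_cases t0 : ty = 0
  · have e : vT Q a k L Ps ty s f = vK Q a 0 L Ps s f := by
      funext z y
      unfold vT
      rw [if_pos t0]
    rw [e]
    exact sl_mono h0' hle le_rfl le_rfl
  · by_cases t1 : ty = 1
    · have e : vT Q a k L Ps ty s f = vK Q a k L Ps s f := by
        funext z y
        unfold vT
        rw [if_neg t0, if_pos t1]
      rw [e]
      exact sl_mono hk hle le_rfl le_rfl
    · have e : vT Q a k L Ps ty s f = fun z y => vK Q a k L Ps s f z y - vK Q a 0 L Ps s f z y := by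
        funext z y
        unfold vT
        rw [if_neg t0, if_neg t1]
      rw [e, e2]
      exact sl_sub hk h0'

end Pool.Agent.EQD
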