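import Pool.Agent.Lib.EQD.Equ
import Pool.Agent.Lib.EQD.SlC

/-!
# Module BlkB: equidistribution for products of structured functions

PROOF. Decompose each `V l = ∑_(a : ι l) φ_(l, a)` (`Sl`). For a tuple `a` (at most `K ^ n`) let `d` = least common multiple of the periods (`≤ q ^ n`, divides `M`) and
`Ψ z y r = K ^ (- n) ∏ l, φ_(l, a l) z (y + pz M (P l) r.val)`: bounded by one, period `d` in `y` and in `r` (`P l` maps residues modulo `d` to residues modulo `d`), Lipschitz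
`n κ`-ish: `≤ n κ` (product of `n` functions bounded by `K`, divided by `K ^ n`: `≤ n K ^ (n-1) κ / K ^ n ≤ n κ`). `equi` with `q := d`. At `r = (m₀ + m : ℕ)`: `pz M (P l) ((m₀ + m : ZMod M)).val = pz M (P l) (m₀ + m)`
(the value of an integer polynomial modulo `M` depends on the residue modulo `M`). `av (fun r => ∏ l, V l z (y + pz M (P l) r.val)) = AA M P (fun l => V l z) y`. Sum over the tuples:
`n2 ≤ K ^ n K ^ n K ^ (2 n) max`.
-/

set_option autoImplicit false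

open Finset Polynomial

namespace Pool.Agent.EQD

open Pool.Agent.HLT Pool.Agent.NLT Pool.Agent.NLG

namespace BlkBAux

section group

variable {M : ℕ} [NeZero M]

theorem tv_eq_av (F : ℕ → ℂ) : tv M F = av (fun r : ZMod M => F r.val) := by
  obtain ⟨m, rfl⟩ := Nat.exists_eq_succ_of_ne_zero (NeZero.ne M)
  unfold tv av
  congr 1
  exact (Fin.sum_univ_eq_sum_range F (m + 1)).symm

theorem pz_cast (P : ℤ[X]) (t : ℕ) : pz M P ((t : ZMod M)).val = pz M P t := by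
  rw [ZMod.val_natCast]
  have h := AABAux.pz_add (M := M) P (t / M) (t % M)
  rw [Nat.div_add_mod] at h
  exact h.symm

theorem per_int (φ : ZMod M → ℂ) (d : ZMod M) (hp : ∀ y, φ (y + d) = φ y) (c : ℤ) :
    ∀ y, φ (y + (c : ZMod M) * d) = φ y := by
  induction c using Int.induction_on with
  | zero => intro y; simp
  | succ k ih =>
    intro y
    have h1 : y + (((k : ℤ) + 1 : ℤ) : ZMod M) * d = (y + ((k : ℤ) : ZMod M) * d) + d := by
      push_cast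
      ring
    rw [h1, hp, ih]
  | pred k ih =>
    intro y
    have h1 : y + ((-(k : ℤ) : ℤ) : ZMod M) * d = (y + ((-(k : ℤ) - 1 : ℤ) : ZMod M) * d) + d := by
      push_cast
      ring
    rw [← ih y, h1, hp]

theorem pz_per (P : ℤ[X]) (d : ℕ) (r : ZMod M) :
    ∃ c : ℤ, pz M P (r + (d : ZMod M)).val = pz M P r.val + (c : ZMod M) * (d : ZMod M) := by
  have h1 : r + (d : ZMod M) = ((r.val + d : ℕ) : ZMod M) := by
    push_cast
    rw [ZMod.natCast_zmod_val]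
  rw [h1, pz_cast]
  have h2 := Polynomial.sub_dvd_eval_sub ((r.val + d : ℕ) : ℤ) (r.val : ℤ) P
  obtain ⟨c, hc⟩ := h2
  refine ⟨c, ?_⟩
  have h3 : P.eval ((r.val + d : ℕ) : ℤ) = P.eval (r.val : ℤ) + c * (d : ℤ) := by
    have h4 : (((r.val + d : ℕ) : ℤ) - (r.val : ℤ)) = (d : ℤ) := by
      push_cast
      ring
    rw [h4] at hc
    linarith [hc]
  unfold pz
  rw [h3]
  push_cast
  ring

/-- The normalised product. -/
noncomputable def Psi {n : ℕ} (K : ℕ) (P : Fin n → ℤ[X]) (φ : Fin n → ZMod M → ZMod M → ℂ) (z y r : ZMod M) : ℂ :=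
  (1 / (K : ℂ) ^ n) * ∏ l, φ l z (y + pz M (P l) r.val)

theorem Psi_norm {n K : ℕ} (hK : 1 ≤ K) (P : Fin n → ℤ[X]) (φ : Fin n → ZMod M → ZMod M → ℂ)
    (hb : ∀ l z y, ‖φ l z y‖ ≤ K) (z y r : ZMod M) : ‖Psi K P φ z y r‖ ≤ 1 := by
  have hK0 : (0 : ℝ) < K := by exact_mod_cast hK
  unfold Psi
  rw [norm_mul, norm_div, norm_one, norm_pow, Complex.norm_natCast, norm_prod]
  have h1 : ∏ l, ‖φ l z (y + pz M (P l) r.val)‖ ≤ (K : ℝ) ^ n := by
    calc ∏ l, ‖φ l z (y + pz M (P l) r.val)‖ ≤ ∏ _l : Fin n, (K : ℝ) :=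
          Finset.prod_le_prod (fun l _ => norm_nonneg _) (fun l _ => hb l _ _)
      _ = (K : ℝ) ^ n := by rw [Finset.prod_const, Finset.card_univ, Fintype.card_fin]
  rw [one_div, inv_mul_le_iff₀ (by positivity), mul_one]
  exact h1

theorem Psi_y {n K : ℕ} (P : Fin n → ℤ[X]) (φ : Fin n → ZMod M → ZMod M → ℂ) (d : ℕ) (dl : Fin n → ℕ)
    (hd : ∀ l, dl l ∣ d) (hp : ∀ l z y, φ l z (y + (dl l : ZMod M)) = φ l z y) (z y r : ZMod M) :
    Psi K P φ z (y + (d : ZMod M)) r = Psi K P φ z y r := by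
  unfold Psi
  congr 1
  refine Finset.prod_congr rfl (fun l _ => ?_)
  obtain ⟨c, hc⟩ := hd l
  have h1 := per_int (φ l z) (dl l : ZMod M) (hp l z) (c : ℤ) (y + pz M (P l) r.val)
  rw [← h1]
  congr 1
  rw [hc]
  push_cast
  ring

theorem Psi_r {n K : ℕ} (P : Fin n → ℤ[X]) (φ : Fin n → ZMod M → ZMod M → ℂ) (d : ℕ) (dl : Fin n → ℕ)
    (hd : ∀ l, dl l ∣ d) (hp : ∀ l z y, φ l z (y + (dl l : ZMod M)) = φ l z y) (z y r : ZMod M) :
    Psi K P φ z y (r + (d : ZMod M)) = Psi K P φ z y r := by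
  unfold Psi
  congr 1
  refine Finset.prod_congr rfl (fun l _ => ?_)
  obtain ⟨c, hc⟩ := hd l
  obtain ⟨b, hb⟩ := pz_per (P l) d r
  rw [hb]
  have h1 := per_int (φ l z) (dl l : ZMod M) (hp l z) (b * c) (y + pz M (P l) r.val)
  rw [← h1]
  congr 1
  rw [hc]
  push_cast
  ring

theorem prod_lip {n : ℕ} (s : Finset (Fin n)) (a b : Fin n → ℂ) (K κ : ℝ) (hK : 1 ≤ K) (hκ : 0 ≤ κ) (ha : ∀ l, ‖a l‖ ≤ K)
    (hb : ∀ l, ‖b l‖ ≤ K) (hab : ∀ l, ‖a l - b l‖ ≤ κ) :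
    ‖∏ l ∈ s, a l - ∏ l ∈ s, b l‖ ≤ s.card * K ^ s.card * κ := by
  induction s using Finset.induction_on with
  | empty => simp
  | insert i s hi ih =>
    rw [Finset.prod_insert hi, Finset.prod_insert hi, Finset.card_insert_of_notMem hi]
    have h1 : a i * ∏ l ∈ s, a l - b i * ∏ l ∈ s, b l =
        (a i - b i) * ∏ l ∈ s, a l + b i * (∏ l ∈ s, a l - ∏ l ∈ s, b l) := by ring
    have h2 : ‖∏ l ∈ s, a l‖ ≤ K ^ s.card := by
      rw [norm_prod]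
      calc ∏ l ∈ s, ‖a l‖ ≤ ∏ _l ∈ s, K := Finset.prod_le_prod (fun l _ => norm_nonneg _) (fun l _ => ha l)
        _ = K ^ s.card := by rw [Finset.prod_const]
    have h3 : ‖(a i - b i) * ∏ l ∈ s, a l‖ ≤ κ * K ^ s.card := by
      rw [norm_mul]
      exact mul_le_mul (hab i) h2 (norm_nonneg _) hκ
    have h4 : ‖b i * (∏ l ∈ s, a l - ∏ l ∈ s, b l)‖ ≤ K * (s.card * K ^ s.card * κ) := by
      rw [norm_mul]
      exact mul_le_mul (hb i) ih (norm_nonneg _) (by linarith)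
    rw [h1]
    refine (norm_add_le _ _).trans ((add_le_add h3 h4).trans ?_)
    have h5 : κ * K ^ s.card ≤ κ * K ^ (s.card + 1) :=
      mul_le_mul_of_nonneg_left (pow_le_pow_right₀ hK (Nat.le_succ _)) hκ
    have h6 : K * (s.card * K ^ s.card * κ) = s.card * K ^ (s.card + 1) * κ := by ring
    rw [h6]
    push_cast
    nlinarith [h5]

theorem Psi_lip {n K : ℕ} (hK : 1 ≤ K) (P : Fin n → ℤ[X]) (φ : Fin n → ZMod M → ZMod M → ℂ) (κ : ℝ) (hκ : 0 ≤ κ)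
    (hb : ∀ l z y, ‖φ l z y‖ ≤ K) (hl : ∀ l z y, ‖φ l (z + 1) y - φ l z y‖ ≤ κ) (z y r : ZMod M) :
    ‖Psi K P φ (z + 1) y r - Psi K P φ z y r‖ ≤ n * κ := by
  have hK1 : (1 : ℝ) ≤ K := by exact_mod_cast hK
  have hK0 : (0 : ℝ) < K := by linarith
  unfold Psi
  rw [← mul_sub, norm_mul, norm_div, norm_one, norm_pow, Complex.norm_natCast]
  have h1 := prod_lip (univ : Finset (Fin n)) (fun l => φ l (z + 1) (y + pz M (P l) r.val))
    (fun l => φ l z (y + pz M (P l) r.val)) K κ hK1 hκ (fun l => hb l _ _) (fun l => hb l _ _) (fun l => hl l _ _)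
  rw [Finset.card_univ, Fintype.card_fin] at h1
  rw [one_div, inv_mul_le_iff₀ (by positivity)]
  refine h1.trans (le_of_eq ?_)
  ring

theorem n2_sum_le {ι : Type} [Fintype ι] (u : ι → ZMod M → ℂ) :
    n2 (fun x => ∑ a, u a x) ≤ Fintype.card ι * ∑ a, n2 (u a) := by
  unfold n2
  rw [← avr_sum, ← avr_mul_left]
  refine avr_mono (fun x => ?_)
  have h1 : ‖∑ a, u a x‖ ^ 2 ≤ (∑ a, ‖u a x‖) ^ 2 := pow_le_pow_left₀ (norm_nonneg _) (norm_sum_le _ _) 2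
  refine h1.trans ?_
  have h2 := sq_sum_le_card_mul_sum_sq (s := (univ : Finset ι)) (f := fun a => ‖u a x‖)
  rw [Finset.card_univ] at h2
  exact h2

theorem n2_cmul (c : ℂ) (g : ZMod M → ℂ) : n2 (fun x => c * g x) = ‖c‖ ^ 2 * n2 g := by
  unfold n2
  rw [← avr_mul_left]
  congr 1
  funext x
  rw [norm_mul, mul_pow]

theorem n2_nn (g : ZMod M → ℂ) : 0 ≤ n2 g := avr_nonneg (fun x => by positivity)

/-- Value of the product at the integer `t`. -/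
theorem Psi_at {n K : ℕ} (hK : 1 ≤ K) (P : Fin n → ℤ[X]) (φ : Fin n → ZMod M → ZMod M → ℂ) (z y : ZMod M) (t : ℕ) :
    (K : ℂ) ^ n * Psi K P φ z y (t : ZMod M) = ∏ l, φ l z (y + pz M (P l) t) := by
  have hK0 : (K : ℂ) ≠ 0 := by
    have : K ≠ 0 := by omega
    exact_mod_cast this
  unfold Psi
  simp only [pz_cast]
  rw [← mul_assoc, mul_one_div_cancel (pow_ne_zero n hK0), one_mul]

theorem Psi_av {n K : ℕ} (hK : 1 ≤ K) (P : Fin n → ℤ[X]) (φ : Fin n → ZMod M → ZMod M → ℂ) (z y : ZMod M) :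
    (K : ℂ) ^ n * av (fun r => Psi K P φ z y r) = tv M (fun t => ∏ l, φ l z (y + pz M (P l) t)) := by
  have hK0 : (K : ℂ) ≠ 0 := by
    have : K ≠ 0 := by omega
    exact_mod_cast this
  rw [tv_eq_av, ← av_mul_left]
  congr 1
  funext r
  unfold Psi
  rw [← mul_assoc, mul_one_div_cancel (pow_ne_zero n hK0), one_mul]

end group

theorem exps (N H c c' : ℕ) (hN : 1 ≤ N) (hc : c ≤ c') (h : N ^ c' ≤ H ^ (c' + 1)) : N ^ c ≤ H ^ (c + 1) := by
  have h1 : (N ^ c) ^ (c' + 1) ≤ (H ^ (c + 1)) ^ (c' + 1) := by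
    calc (N ^ c) ^ (c' + 1) = N ^ (c * (c' + 1)) := by rw [← pow_mul]
      _ ≤ N ^ (c' * (c + 1)) := Nat.pow_le_pow_right hN (by nlinarith)
      _ = (N ^ c') ^ (c + 1) := by rw [← pow_mul]
      _ ≤ (H ^ (c' + 1)) ^ (c + 1) := Nat.pow_le_pow_left h _
      _ = (H ^ (c + 1)) ^ (c' + 1) := by rw [← pow_mul, ← pow_mul, mul_comm]
  exact (Nat.pow_le_pow_iff_left (Nat.succ_ne_zero c')).mp h1

theorem fin_bound (N K n C₁ : ℕ) (hN : 1 ≤ N) (μ G : ℝ) (hμ : 0 ≤ μ) (hG : 0 ≤ G) (h1 : G ≤ (K : ℝ) ^ (4 * n) * μ)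
    (h2 : μ ^ C₁ * N ≤ 1) (h3 : (K : ℝ) ^ (C₁ * (4 * n + 1)) ≤ N) : G ^ (C₁ * (4 * n + 1)) * N ≤ 1 := by
  have hN0 : (0 : ℝ) < N := by exact_mod_cast hN
  have e1 : G ^ (C₁ * (4 * n + 1)) ≤ ((K : ℝ) ^ (4 * n) * μ) ^ (C₁ * (4 * n + 1)) := pow_le_pow_left₀ hG h1 _
  have e2 : ((K : ℝ) ^ (4 * n) * μ) ^ (C₁ * (4 * n + 1)) =
      ((K : ℝ) ^ (C₁ * (4 * n + 1))) ^ (4 * n) * (μ ^ C₁) ^ (4 * n + 1) := by
    rw [mul_pow, ← pow_mul, ← pow_mul, ← pow_mul, mul_comm (4 * n) (C₁ * (4 * n + 1))]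
  have e3 : ((K : ℝ) ^ (C₁ * (4 * n + 1))) ^ (4 * n) ≤ (N : ℝ) ^ (4 * n) := pow_le_pow_left₀ (by positivity) h3 _
  have e4 : (μ ^ C₁) ^ (4 * n + 1) * (N : ℝ) ^ (4 * n + 1) ≤ 1 := by
    rw [← mul_pow]
    exact pow_le_one₀ (by positivity) h2
  have e5 : 0 ≤ (μ ^ C₁) ^ (4 * n + 1) := by positivity
  calc G ^ (C₁ * (4 * n + 1)) * N ≤
        (((K : ℝ) ^ (C₁ * (4 * n + 1))) ^ (4 * n) * (μ ^ C₁) ^ (4 * n + 1)) * N := by
        rw [← e2]
        exact mul_le_mul_of_nonneg_right e1 hN0.le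
    _ ≤ ((N : ℝ) ^ (4 * n) * (μ ^ C₁) ^ (4 * n + 1)) * N :=
        mul_le_mul_of_nonneg_right (mul_le_mul_of_nonneg_right e3 e5) hN0.le
    _ = (μ ^ C₁) ^ (4 * n + 1) * (N : ℝ) ^ (4 * n + 1) := by
        rw [pow_succ (N : ℝ) (4 * n)]
        ring
    _ ≤ 1 := e4

end BlkBAux

open BlkBAux

theorem blkB {n D : ℕ} {P : Fin n → ℤ[X]} {e : Fin n → ℕ} {i₀ : Fin n} (h : EqDeg D P e i₀) : ∃ C N₀ : ℕ, 1 ≤ C ∧
    ∀ (M : ℕ) [NeZero M] (N K q H m₀ : ℕ) (κ : ℝ), N₀ ≤ N → 1 ≤ K → 1 ≤ q → (K * q) ^ C ≤ N → m₀ + H ≤ N → N ^ (C - 1) ≤ H ^ C →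
      0 ≤ κ → (n * κ) ^ 4 * (N : ℝ) ^ 3 ≤ 1 → ∀ V : Fin n → ZMod M → ZMod M → ℂ, (∀ l, Sl K q κ (V l)) →
      n2 (fun x => tv H (fun m => ∏ l, V l (x + pz M (P i₀) (m₀ + m)) (x + pz M (P l) (m₀ + m)) -
        AA M P (fun l => V l (x + pz M (P i₀) (m₀ + m))) x)) ^ C * N ≤ 1 := by
  obtain ⟨C₁, N₁, hC₁, hequi⟩ := equi D h.two (P i₀) (h.deg i₀)
  refine ⟨C₁ * (4 * n + 1), max N₁ 1, ?_, ?_⟩
  · exact Nat.succ_le_of_lt (Nat.mul_pos hC₁ (Nat.succ_pos _))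
  intro M _ N K q H m₀ κ hN hK hq hKq hmH hNH hκ hκN V hV
  have hN1 : N₁ ≤ N := (le_max_left _ _).trans hN
  have hNpos : 1 ≤ N := (le_max_right _ _).trans hN
  have hNr : (0 : ℝ) < N := by exact_mod_cast hNpos
  choose ι hι φ d hcard hd hper hbd hlip hsum using hV
  letI : ∀ l, Fintype (ι l) := hι
  -- exponents
  have hE1 : N ^ (C₁ - 1) ≤ H ^ C₁ := by
    obtain ⟨c, rfl⟩ : ∃ c, C₁ = c + 1 := ⟨C₁ - 1, by omega⟩
    obtain ⟨c', hc'⟩ : ∃ c', (c + 1) * (4 * n + 1) = c' + 1 :=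
      ⟨(c + 1) * (4 * n + 1) - 1, (Nat.sub_add_cancel (Nat.mul_pos (Nat.succ_pos c) (Nat.succ_pos (4 * n)))).symm⟩
    rw [hc'] at hNH
    rw [Nat.add_sub_cancel] at hNH ⊢
    refine exps N H c c' hNpos ?_ hNH
    nlinarith
  have hq1 : ∀ d' : ℕ, d' ≤ q ^ n → d' ^ C₁ ≤ N := by
    intro d' hd'
    have hKq1 : 1 ≤ K * q := Nat.mul_pos hK hq
    calc d' ^ C₁ ≤ (q ^ n) ^ C₁ := Nat.pow_le_pow_left hd' _
      _ ≤ ((K * q) ^ n) ^ C₁ := Nat.pow_le_pow_left (Nat.pow_le_pow_left (Nat.le_mul_of_pos_left q hK) _) _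
      _ = (K * q) ^ (n * C₁) := by rw [← pow_mul]
      _ ≤ (K * q) ^ (C₁ * (4 * n + 1)) := Nat.pow_le_pow_right hKq1 (by nlinarith)
      _ ≤ N := hKq
  have hKN : (K : ℝ) ^ (C₁ * (4 * n + 1)) ≤ N := by
    have h1 : K ^ (C₁ * (4 * n + 1)) ≤ N :=
      (Nat.pow_le_pow_left (Nat.le_mul_of_pos_right K hq) _).trans hKq
    exact_mod_cast h1
  -- one tuple
  set g : (∀ l, ι l) → ZMod M → ℂ := fun a x => tv H (fun m =>
    Psi K P (fun l => φ l (a l)) (x + pz M (P i₀) (m₀ + m)) x ((m₀ + m : ℕ) : ZMod M) -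
      av (fun r => Psi K P (fun l => φ l (a l)) (x + pz M (P i₀) (m₀ + m)) x r)) with hg
  have hga : ∀ a, n2 (g a) ^ C₁ * N ≤ 1 := by
    intro a
    set d' : ℕ := univ.lcm (fun l => d l (a l)) with hd'
    have hdv : ∀ l, d l (a l) ∣ d' := fun l => Finset.dvd_lcm (mem_univ l)
    have hdM : d' ∣ M := Finset.lcm_dvd (fun l _ => (hd l (a l)).2.2)
    have hd1 : 1 ≤ d' := Nat.pos_of_ne_zero (fun h0 => NeZero.ne M (Nat.eq_zero_of_zero_dvd (h0 ▸ hdM)))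
    have hdq : d' ≤ q ^ n := by
      have h1 : d' ∣ ∏ l, d l (a l) := Finset.lcm_dvd_prod _ _
      have h2 : 0 < ∏ l, d l (a l) := Finset.prod_pos (fun l _ => (hd l (a l)).1)
      refine (Nat.le_of_dvd h2 h1).trans ?_
      calc ∏ l, d l (a l) ≤ ∏ _l : Fin n, q := Finset.prod_le_prod' (fun l _ => (hd l (a l)).2.1)
        _ = q ^ n := by rw [Finset.prod_const, Finset.card_univ, Fintype.card_fin]
    refine hequi M N d' H m₀ (n * κ) hN1 hd1 hdM (hq1 d' hdq) hmH hE1 (by positivity) hκN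
      (Psi K P (fun l => φ l (a l))) ?_ ?_ ?_ ?_
    · exact Psi_norm hK P _ (fun l z y => hbd l (a l) z y)
    · exact Psi_y P _ d' (fun l => d l (a l)) hdv (fun l z y => hper l (a l) z y)
    · exact Psi_r P _ d' (fun l => d l (a l)) hdv (fun l z y => hper l (a l) z y)
    · exact Psi_lip hK P _ κ hκ (fun l z y => hbd l (a l) z y) (fun l z y => hlip l (a l) z y)
  -- the sum over the tuples
  have hexp : ∀ (z y : ZMod M) (t : ℕ), ∏ l, V l z (y + pz M (P l) t) =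
      ∑ a : (∀ l, ι l), ∏ l, φ l (a l) z (y + pz M (P l) t) := by
    intro z y t
    have h1 : ∀ l, V l z (y + pz M (P l) t) = ∑ b, φ l b z (y + pz M (P l) t) := fun l => hsum l z _
    simp only [h1]
    rw [Finset.prod_univ_sum, Fintype.piFinset_univ]
  have hG : (fun x => tv H (fun m => ∏ l, V l (x + pz M (P i₀) (m₀ + m)) (x + pz M (P l) (m₀ + m)) -
        AA M P (fun l => V l (x + pz M (P i₀) (m₀ + m))) x)) = fun x => ∑ a, (K : ℂ) ^ n * g a x := by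
    funext x
    have h2 : ∀ m : ℕ, ∏ l, V l (x + pz M (P i₀) (m₀ + m)) (x + pz M (P l) (m₀ + m)) -
        AA M P (fun l => V l (x + pz M (P i₀) (m₀ + m))) x =
        ∑ a : (∀ l, ι l), (K : ℂ) ^ n * (Psi K P (fun l => φ l (a l)) (x + pz M (P i₀) (m₀ + m)) x ((m₀ + m : ℕ) : ZMod M) -
          av (fun r => Psi K P (fun l => φ l (a l)) (x + pz M (P i₀) (m₀ + m)) x r)) := by
      intro m
      simp only [mul_sub]
      rw [Finset.sum_sub_distrib]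
      congr 1
      · rw [hexp]
        exact Finset.sum_congr rfl (fun a _ => (Psi_at hK P (fun l => φ l (a l)) _ _ _).symm)
      · have h3 : AA M P (fun l => V l (x + pz M (P i₀) (m₀ + m))) x =
            tv M (fun t => ∑ a : (∀ l, ι l), ∏ l, φ l (a l) (x + pz M (P i₀) (m₀ + m)) (x + pz M (P l) t)) := by
          unfold AA
          congr 1
          funext t
          exact hexp _ _ _
        rw [h3]
        have h4 : ∀ a : (∀ l, ι l), (K : ℂ) ^ n * av (fun r => Psi K P (fun l => φ l (a l)) (x + pz M (P i₀) (m₀ + m)) x r) =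
            tv M (fun t => ∏ l, φ l (a l) (x + pz M (P i₀) (m₀ + m)) (x + pz M (P l) t)) :=
          fun a => Psi_av hK P (fun l => φ l (a l)) _ _
        simp only [h4]
        unfold tv
        rw [← Finset.sum_div, Finset.sum_comm]
    simp only [h2, hg]
    unfold tv
    simp only [mul_div_assoc']
    rw [← Finset.sum_div, Finset.sum_comm]
    congr 1
    refine Finset.sum_congr rfl (fun a _ => ?_)
    rw [Finset.mul_sum]
  rw [hG]
  have hcd : (Fintype.card (∀ l, ι l) : ℝ) ≤ (K : ℝ) ^ n := by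
    rw [Fintype.card_pi]
    have h5 : ∏ l, Fintype.card (ι l) ≤ K ^ n := by
      calc ∏ l, Fintype.card (ι l) ≤ ∏ _l : Fin n, K := Finset.prod_le_prod' (fun l _ => hcard l)
        _ = K ^ n := by rw [Finset.prod_const, Finset.card_univ, Fintype.card_fin]
    exact_mod_cast h5
  have hbig := n2_sum_le (fun (a : (∀ l, ι l)) x => (K : ℂ) ^ n * g a x)
  simp only [n2_cmul] at hbig
  rcases isEmpty_or_nonempty (∀ l, ι l) with hemp | hne
  · have h6 : n2 (fun x => ∑ a, (K : ℂ) ^ n * g a x) ≤ 0 := by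
      refine hbig.trans (le_of_eq ?_)
      rw [Fintype.card_eq_zero]
      simp
    have h7 : n2 (fun x => ∑ a, (K : ℂ) ^ n * g a x) = 0 := le_antisymm h6 (n2_nn _)
    rw [h7, zero_pow (by positivity), zero_mul]
    exact zero_le_one
  · obtain ⟨a₀, -, ha₀⟩ := Finset.exists_max_image (univ : Finset (∀ l, ι l)) (fun a => n2 (g a)) Finset.univ_nonempty
    refine fin_bound N K n C₁ hNpos (n2 (g a₀)) _ (n2_nn _) (n2_nn _) ?_ (hga a₀) hKN
    refine hbig.trans ?_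
    have h8 : ∑ a, ‖(K : ℂ) ^ n‖ ^ 2 * n2 (g a) ≤ Fintype.card (∀ l, ι l) * (((K : ℝ) ^ n) ^ 2 * n2 (g a₀)) := by
      calc ∑ a, ‖(K : ℂ) ^ n‖ ^ 2 * n2 (g a) ≤ ∑ _a : (∀ l, ι l), ((K : ℝ) ^ n) ^ 2 * n2 (g a₀) := by
            refine Finset.sum_le_sum (fun a ha => ?_)
            rw [norm_pow, Complex.norm_natCast]
            exact mul_le_mul_of_nonneg_left (ha₀ a ha) (by positivity)
        _ = Fintype.card (∀ l, ι l) * (((K : ℝ) ^ n) ^ 2 * n2 (g a₀)) := by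
            rw [Finset.sum_const, Finset.card_univ, nsmul_eq_mul]
    have h9 : 0 ≤ ((K : ℝ) ^ n) ^ 2 * n2 (g a₀) := mul_nonneg (by positivity) (n2_nn _)
    have hc0 : (0 : ℝ) ≤ Fintype.card (∀ l, ι l) := Nat.cast_nonneg _
    calc (Fintype.card (∀ l, ι l) : ℝ) * ∑ a, ‖(K : ℂ) ^ n‖ ^ 2 * n2 (g a) ≤
          (K : ℝ) ^ n * ((K : ℝ) ^ n * (((K : ℝ) ^ n) ^ 2 * n2 (g a₀))) := by
          refine mul_le_mul hcd (h8.trans (mul_le_mul_of_nonneg_right hcd h9)) ?_ (by positivity)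
          exact Finset.sum_nonneg (fun a _ => mul_nonneg (by positivity) (n2_nn _))
      _ = (K : ℝ) ^ (4 * n) * n2 (g a₀) := by
          rw [show 4 * n = n + (n + (n + n)) by ring, pow_add, pow_add, pow_add]
          ring

end Pool.Agent.EQD
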