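import Pool.Agent.Lib.EQD.Defs

/-!
# Pointwise convergence for polynomials of equal degree: scales, moduli, interface statements

* `QB B t = ((2 ^ t)!) ^ (B t)` is the modulus of level `t`, `tj j = log₂ j / 2` the top level used at the scale `N j ∼ 2 ^ j`;
* `Ew B t T lam f` = average of `f` over the progression of difference `QB B t` and length
  `(lam / QB B T) QB B T` (the same length for all `t ≤ T`);
* `Sc N`: `2 ^ j ≤ N j < 2 ^ (j + 1)`; `Ch J0 J1 c`: `c` chooses a scale in `[J0, J1]` at every point (suprema over the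
  scales are always stated for all choice functions);
* `MidB`, `LowB`: the two halves of the approximation of the averages.
-/

set_option autoImplicit false

open Finset Polynomial

namespace Pool.Agent.EQD

open Pool.Agent.HLT Pool.Agent.NLT Pool.Agent.NLG

/-- The modulus of level `t`. -/
def QB (B t : ℕ) : ℕ := (2 ^ t).factorial ^ (B * t)

/-- The top level at the scale `2 ^ j`. -/
def tj (j : ℕ) : ℕ := Nat.log 2 j / 2

/-- Average over a progression of difference `QB B t` and length `(lam / QB B T) * QB B T`. -/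
noncomputable def Ew {M : ℕ} [NeZero M] (B t T lam : ℕ) (f : ZMod M → ℂ) : ZMod M → ℂ :=
  Eb (QB B t) (lam / QB B T * (QB B T / QB B t)) f

/-- A sequence of scales with one element in each dyadic block. -/
def Sc (N : ℕ → ℕ) : Prop := ∀ j, 2 ^ j ≤ N j ∧ N j < 2 ^ (j + 1)

/-- Choice of a scale in `[J0, J1]` at every point. -/
def Ch {M : ℕ} (J0 J1 : ℕ) (c : ZMod M → ℕ) : Prop := ∀ x, J0 ≤ c x ∧ c x ≤ J1

/-- The averages may be replaced by the averages of the functions `E[Q_(t(j)), 2 ^ (-κ) N ^ e]`. -/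
def MidB {n : ℕ} (P : Fin n → ℤ[X]) (e : Fin n → ℕ) : Prop :=
  ∃ B₀ : ℕ, 1 ≤ B₀ ∧ ∀ B : ℕ, B₀ ≤ B → ∀ ε : ℝ, 0 < ε → ∃ κ₀ : ℕ, ∀ κ : ℕ, κ₀ ≤ κ → ∃ J₀ : ℕ, ∀ J₁ : ℕ,
    ∃ M₀ : ℕ, 1 ≤ M₀ ∧ ∀ (M : ℕ) [NeZero M], M₀ ∣ M → ∀ N : ℕ → ℕ, Sc N → ∀ f : Fin n → ZMod M → ℂ,
    (∀ l, Bd (f l)) → ∀ c : ZMod M → ℕ, Ch J₀ J₁ c →
    avr (fun x => ‖AA (N (c x)) P f x -
      AA (N (c x)) P (fun l => Ew B (tj (c x)) (tj (c x)) (N (c x) ^ e l / 2 ^ κ) (f l)) x‖) ≤ ε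

/-- The modulus `Q_(t(j))` may be replaced by a bounded modulus `Q_(t₀)`. -/
def LowB {n : ℕ} (P : Fin n → ℤ[X]) (e : Fin n → ℕ) : Prop :=
  ∀ B : ℕ, 1 ≤ B → ∀ (κ : ℕ) (ε : ℝ), 0 < ε → ∃ t₀ : ℕ, ∃ J₀ : ℕ, (∀ j, J₀ ≤ j → t₀ ≤ tj j) ∧ ∀ J₁ : ℕ,
    ∃ M₀ : ℕ, 1 ≤ M₀ ∧ ∀ (M : ℕ) [NeZero M], M₀ ∣ M → ∀ N : ℕ → ℕ, Sc N → ∀ f : Fin n → ZMod M → ℂ,
    (∀ l, Bd (f l)) → ∀ c : ZMod M → ℕ, Ch J₀ J₁ c →
    avr (fun x => ‖AA (N (c x)) P (fun l => Ew B (tj (c x)) (tj (c x)) (N (c x) ^ e l / 2 ^ κ) (f l)) x -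
      AA (N (c x)) P (fun l => Ew B t₀ (tj (c x)) (N (c x) ^ e l / 2 ^ κ) (f l)) x‖) ≤ ε

end Pool.Agent.EQD
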