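import Pool.Agent.Lib.Pf720mp.Final
import Pool.Agent.Lib.EQD.DefsB

/-!
# EQD.One: one function, one map (corollaries of the multi-parameter library), and averages on a dynamical system

`AX T N P f x` = average over `t < N` of `∏_i f i (T ^ (P i t) x)`; `EX T q K f x` = average over `h < K` of `f (T ^ (q h) x)`;
`EwX` = the analogue of `Ew`.

PROOFS.
* `conv1`: `Pool.Agent.Lib.Pf720mp.conv_mp` with `d = k = 1`, `T 0 = T`, the polynomial `P (X 0 - 1)` in `MvPolynomial (Fin 1) ℤ`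
  (`Polynomial.aeval (MvPolynomial.X 0 - 1) P`, evaluation at `m` is `P (m - 1)`); `pw T e = T 0 ^ e 0` (`Pool.Agent.Lib.Pf720ae.pw`, unfold);
  the average over `m ∈ Icc 1 N` of `f (T ^ P (m-1) x)` is the average over `t < N`. Compose the convergence (along `Fin 1 → ℕ`) with `N ↦ (fun _ => N)`.
* `max1`: `Pool.Agent.Lib.Pf720mp.max_mp 1 D` in the same way, with `f = u` (complex valued); `totalDegree ≤ D`; for fixed `N` the norm of the average of
  a nonnegative function is the average; `⨆` over `Fin 1 → ℕ` versus `⨆` over `ℕ`.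
-/

set_option autoImplicit false

open Finset Polynomial MeasureTheory Filter Topology
open scoped ENNReal NNReal

namespace Pool.Agent.EQD.Lo

open Pool.Agent.HLT Pool.Agent.NLT Pool.Agent.NLG

/-- Invertible measure-preserving map. -/
def IMP {X : Type} [MeasurableSpace X] (μ : Measure X) (T : Equiv.Perm X) : Prop :=
  Measurable T ∧ Measurable T.symm ∧ MeasurePreserving T μ μ

/-- Multilinear average on a dynamical system. -/
noncomputable def AX {X : Type} (T : Equiv.Perm X) {n : ℕ} (N : ℕ) (P : Fin n → ℤ[X]) (f : Fin n → X → ℂ) (x : X) : ℂ :=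
  tv N (fun t => ∏ i, f i ((T ^ ((P i).eval (t : ℤ))) x))

/-- Box average on a dynamical system. -/
noncomputable def EX {X : Type} (T : Equiv.Perm X) (q K : ℕ) (f : X → ℂ) (x : X) : ℂ :=
  tv K (fun h => f ((T ^ (((q * h : ℕ) : ℤ))) x))

/-- The analogue of `Ew`. -/
noncomputable def EwX {X : Type} (T : Equiv.Perm X) (B t T' lam : ℕ) (f : X → ℂ) : X → ℂ :=
  EX T (QB B t) (lam / QB B T' * (QB B T' / QB B t)) f

namespace OneAux

/-- `P (X 0 - 1)` as a polynomial in one of one variables. -/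
private noncomputable def mvp (P : ℤ[X]) : MvPolynomial (Fin 1) ℤ :=
  Polynomial.aeval (MvPolynomial.X 0 - 1) P

private theorem eval_mvp (P : ℤ[X]) (m : Fin 1 → ℕ) :
    MvPolynomial.eval (fun l => (m l : ℤ)) (mvp P) = P.eval ((m 0 : ℤ) - 1) := by
  unfold mvp
  rw [Polynomial.aeval_def, Polynomial.hom_eval₂]
  have h : (MvPolynomial.eval (fun l => (m l : ℤ))).comp
      (algebraMap ℤ (MvPolynomial (Fin 1) ℤ)) = RingHom.id ℤ := Subsingleton.elim _ _
  rw [h, Polynomial.eval₂_id, map_sub, map_one, MvPolynomial.eval_X]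

private theorem deg_mvp {P : ℤ[X]} {D : ℕ} (h : P.natDegree ≤ D) : (mvp P).totalDegree ≤ D := by
  unfold mvp
  rw [Polynomial.aeval_eq_sum_range]
  refine (MvPolynomial.totalDegree_finsetSum_le ?_)
  intro i hi
  have hi' : i ≤ D := by
    have := Finset.mem_range.mp hi
    omega
  have h1 : (MvPolynomial.X (0 : Fin 1) - 1 : MvPolynomial (Fin 1) ℤ).totalDegree ≤ 1 := by
    refine (MvPolynomial.totalDegree_sub _ _).trans ?_
    rw [MvPolynomial.totalDegree_X, MvPolynomial.totalDegree_one]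
    simp
  calc (P.coeff i • (MvPolynomial.X (0 : Fin 1) - 1 : MvPolynomial (Fin 1) ℤ) ^ i).totalDegree ≤
      ((MvPolynomial.X (0 : Fin 1) - 1 : MvPolynomial (Fin 1) ℤ) ^ i).totalDegree :=
        MvPolynomial.totalDegree_smul_le _ _
    _ ≤ i * (MvPolynomial.X (0 : Fin 1) - 1 : MvPolynomial (Fin 1) ℤ).totalDegree :=
        MvPolynomial.totalDegree_pow _ _
    _ ≤ i * 1 := Nat.mul_le_mul_left i h1
    _ ≤ D := by omega

private theorem pw_one {X : Type} (T : Equiv.Perm X) (e : Fin 1 → ℤ) :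
    Pool.Agent.Lib.Pf720ae.pw (fun _ : Fin 1 => T) e = T ^ e 0 := by
  unfold Pool.Agent.Lib.Pf720ae.pw
  simp

private theorem sum_one {A : Type} [AddCommMonoid A] (M : Fin 1 → ℕ) (g : (Fin 1 → ℕ) → A) :
    ∑ m ∈ Fintype.piFinset (fun l => Finset.Icc 1 (M l)), g m =
      ∑ t ∈ Finset.range (M 0), g (fun _ => t + 1) := by
  refine Finset.sum_nbij' (fun m => m 0 - 1) (fun t => fun _ => t + 1) ?_ ?_ ?_ ?_ ?_
  · intro m hm
    have h := Finset.mem_Icc.mp (Fintype.mem_piFinset.mp hm 0)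
    exact Finset.mem_range.mpr (by omega)
  · intro t ht
    have h := Finset.mem_range.mp ht
    refine Fintype.mem_piFinset.mpr fun l => ?_
    rw [Subsingleton.elim l 0]
    exact Finset.mem_Icc.mpr ⟨by omega, by omega⟩
  · intro m hm
    have h := Finset.mem_Icc.mp (Fintype.mem_piFinset.mp hm 0)
    funext l
    rw [Subsingleton.elim l 0]
    show m 0 - 1 + 1 = m 0
    omega
  · intro t _
    show t + 1 - 1 = t
    omega
  · intro m hm
    have h := Finset.mem_Icc.mp (Fintype.mem_piFinset.mp hm 0)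
    congr 1
    funext l
    rw [Subsingleton.elim l 0]
    show m 0 = m 0 - 1 + 1
    omega

private theorem avg_one {X : Type} (T : Equiv.Perm X) (P : ℤ[X]) (f : X → ℂ) (x : X)
    (M : Fin 1 → ℕ) :
    (∏ l, (M l : ℂ))⁻¹ * ∑ m ∈ Fintype.piFinset (fun l => Finset.Icc 1 (M l)),
      f (Pool.Agent.Lib.Pf720ae.pw (fun _ : Fin 1 => T)
        (fun i => MvPolynomial.eval (fun l => (m l : ℤ)) ((fun _ : Fin 1 => mvp P) i)) x) =
      ((M 0 : ℕ) : ℂ)⁻¹ * ∑ t ∈ Finset.range (M 0), f ((T ^ (P.eval (t : ℤ))) x) := by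
  rw [sum_one M, Fin.prod_univ_one]
  congr 1
  refine Finset.sum_congr rfl fun t _ => ?_
  rw [pw_one]
  congr 3
  show MvPolynomial.eval (fun l => (((fun _ => t + 1 : Fin 1 → ℕ) l : ℕ) : ℤ)) (mvp P) = _
  rw [eval_mvp]
  congr 1
  push_cast
  ring

private theorem enorm_avg (N : ℕ) (v : ℕ → ℝ≥0) :
    ‖((N : ℕ) : ℂ)⁻¹ * ∑ t ∈ Finset.range N, (((v t : ℝ≥0) : ℝ) : ℂ)‖ₑ =
      (∑ t ∈ Finset.range N, (v t : ℝ≥0∞)) / (N : ℝ≥0∞) := by
  have h1 : ((N : ℕ) : ℂ)⁻¹ * ∑ t ∈ Finset.range N, (((v t : ℝ≥0) : ℝ) : ℂ) =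
      ((((N : ℝ≥0)⁻¹ * ∑ t ∈ Finset.range N, v t : ℝ≥0) : ℝ) : ℂ) := by
    push_cast
    rfl
  rw [h1, enorm_eq_nnnorm, Complex.nnnorm_real, NNReal.nnnorm_eq]
  rcases Nat.eq_zero_or_pos N with h | h
  · subst h
    simp
  · have h2 : (N : ℝ≥0) ≠ 0 := by exact_mod_cast h.ne'
    rw [ENNReal.coe_mul, ENNReal.coe_inv h2, ENNReal.coe_natCast, ENNReal.ofNNReal_finsetSum,
      div_eq_mul_inv, mul_comm]

end OneAux

open OneAux

theorem conv1 {X : Type} [MeasurableSpace X] {μ : Measure X} [IsProbabilityMeasure μ] (T : Equiv.Perm X) (hT : IMP μ T)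
    (P : ℤ[X]) {f : X → ℂ} (hf : MemLp f 2 μ) :
    ∀ᵐ x ∂μ, ∃ L : ℂ, Tendsto (fun N : ℕ => tv N (fun t => f ((T ^ (P.eval (t : ℤ))) x))) atTop (𝓝 L) := by
  have h := Pool.Agent.Lib.Pf720mp.conv_mp (d := 1) (k := 1) (fun _ => T)
    (fun _ => hT) (fun _ _ => rfl) (fun _ => mvp P) hf
  filter_upwards [h] with x hx
  obtain ⟨L, hL⟩ := hx
  refine ⟨L, ?_⟩
  have h1 : Tendsto (fun N : ℕ => (fun _ : Fin 1 => N)) atTop atTop := by
    refine tendsto_atTop.mpr fun b => (eventually_ge_atTop (b 0)).mono fun N hN i => ?_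
    rw [Subsingleton.elim i 0]
    exact hN
  refine (hL.comp h1).congr fun N => ?_
  show (∏ l, ((fun _ : Fin 1 => N) l : ℂ))⁻¹ * _ = _
  rw [avg_one T P f x (fun _ => N)]
  unfold tv
  rw [div_eq_mul_inv, mul_comm]

theorem max1 (D : ℕ) : ∃ C : ℝ≥0, ∀ (X : Type) [MeasurableSpace X] (μ : Measure X) [IsProbabilityMeasure μ]
    (T : Equiv.Perm X), IMP μ T → ∀ P : ℤ[X], P.natDegree ≤ D → ∀ u : X → ℝ≥0, Measurable u →
    ∫⁻ x, (⨆ N : ℕ, (∑ t ∈ range N, (u ((T ^ (P.eval (t : ℤ))) x) : ℝ≥0∞)) / (N : ℝ≥0∞)) ^ 2 ∂μ ≤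
      C * ∫⁻ x, (u x : ℝ≥0∞) ^ 2 ∂μ := by
  obtain ⟨C, hC⟩ := Pool.Agent.Lib.Pf720mp.max_mp 1 D
  refine ⟨C, ?_⟩
  intro X _ μ _ T hT P hP u hu
  have hf : AEStronglyMeasurable (fun x => (((u x : ℝ≥0) : ℝ) : ℂ)) μ :=
    (Complex.measurable_ofReal.comp (measurable_coe_nnreal_real.comp hu)).aestronglyMeasurable
  have h := hC X μ 1 (fun _ => T) (fun _ => hT) (fun _ _ => rfl) (fun _ => mvp P)
    (fun _ => deg_mvp hP) (fun x => (((u x : ℝ≥0) : ℝ) : ℂ)) hf
  have h2 : ∀ x, ‖(((u x : ℝ≥0) : ℝ) : ℂ)‖ₑ = (u x : ℝ≥0∞) := fun x => by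
    rw [enorm_eq_nnnorm, Complex.nnnorm_real, NNReal.nnnorm_eq]
  simp only [h2] at h
  refine le_trans (lintegral_mono fun x => ?_) h
  refine pow_le_pow_left' (iSup_le fun N => ?_) 2
  refine le_iSup_of_le (fun _ => N) (le_of_eq ?_)
  have h3 := avg_one T P (fun x => (((u x : ℝ≥0) : ℝ) : ℂ)) x (fun _ => N)
  have h4 := enorm_avg N (fun t => u ((T ^ (P.eval (t : ℤ))) x))
  rw [← h4]
  exact (congrArg (fun z : ℂ => ‖z‖ₑ) h3).symm

end Pool.Agent.EQD.Lo
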