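import Pool.Agent.Lib.EQD.Max
import Pool.Agent.Lib.EQD.One

/-!
# EQD.MaxP: Bourgain's maximal inequality on `ZMod M`

PROOF of `maxP`: apply `max1` (`D` the degree of `P`) to `X = ZMod M` with the uniform probability measure `(M : ℝ≥0∞)⁻¹ • Measure.count`, all sets measurable
(`letI : MeasurableSpace (ZMod M) := ⊤`), `T = Equiv.addRight 1` (`T ^ m x = x + m` for `m : ℤ`), `u` as an `ℝ≥0`-valued function. The integral is the average `avr`
(`lintegral_smul_measure`, `lintegral_count`, `tsum_fintype`); the supremum over all `N` dominates `N = σ x`, where the average over `t < N` is `AR N P u x`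
(`tvr`; for `N = 0` it is `0`). All quantities are finite; take `ENNReal.toReal` (or compare `ENNReal.ofReal` of both sides).
-/

set_option autoImplicit false

open Finset Polynomial MeasureTheory
open scoped ENNReal NNReal

namespace Pool.Agent.EQD.Lo

open Pool.Agent.HLT Pool.Agent.NLT Pool.Agent.NLG

namespace MaxPAux

/-- Powers of the rotation. -/
lemma rot_pow {M : ℕ} (m : ℤ) (x : ZMod M) :
    ((Equiv.addRight (1 : ZMod M)) ^ m) x = x + (m : ZMod M) := by
  have h1 : ∀ (n : ℕ) (x : ZMod M), ((Equiv.addRight (1 : ZMod M)) ^ n) x = x + (n : ZMod M) := by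
    intro n
    induction n with
    | zero => intro x; simp
    | succ k ih =>
      intro x
      rw [pow_succ, Equiv.Perm.mul_apply, ih, Equiv.coe_addRight]
      push_cast
      ring
  cases m with
  | ofNat n =>
    rw [Int.ofNat_eq_natCast, zpow_natCast, h1]
    push_cast
    ring
  | negSucc n =>
    rw [zpow_negSucc, Equiv.Perm.inv_eq_iff_eq, h1]
    push_cast
    ring

/-- The average over `ZMod M` as an integral. -/
lemma lint_avr {M : ℕ} [NeZero M] [MeasurableSpace (ZMod M)] [MeasurableSingletonClass (ZMod M)]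
    (f : ZMod M → ℝ) (hf : ∀ x, 0 ≤ f x) :
    ∫⁻ x, ENNReal.ofReal (f x) ∂((M : ℝ≥0∞)⁻¹ • (Measure.count : Measure (ZMod M))) =
      ENNReal.ofReal (avr f) := by
  have hM : (0 : ℝ) < (M : ℝ) := by exact_mod_cast Nat.pos_of_ne_zero (NeZero.ne M)
  rw [lintegral_smul_measure, lintegral_count, tsum_fintype]
  unfold avr
  rw [ENNReal.ofReal_div_of_pos hM, ENNReal.ofReal_sum_of_nonneg (fun x _ => hf x),
    ENNReal.ofReal_natCast, ENNReal.div_eq_inv_mul]
  rfl

end MaxPAux

/-- Bourgain's maximal inequality on `ZMod M` (all lengths at once). -/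
theorem maxP (P : ℤ[X]) : ∃ C : ℝ, 0 ≤ C ∧ ∀ (M : ℕ) [NeZero M] (u : ZMod M → ℝ), (∀ x, 0 ≤ u x) →
    ∀ σ : ZMod M → ℕ, avr (fun x => (AR (σ x) P u x) ^ 2) ≤ C * avr (fun x => u x ^ 2) := by
  obtain ⟨C, hC⟩ := max1 P.natDegree
  refine ⟨C, C.2, ?_⟩
  intro M _ u hu σ
  let _ : MeasurableSpace (ZMod M) := ⊤
  have _ : DiscreteMeasurableSpace (ZMod M) := ⟨fun _ => trivial⟩
  have hM : (0 : ℝ) < (M : ℝ) := by exact_mod_cast Nat.pos_of_ne_zero (NeZero.ne M)
  have hMN : (M : ℝ≥0∞) ≠ 0 := by exact_mod_cast NeZero.ne M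
  have hMT : (M : ℝ≥0∞) ≠ ⊤ := ENNReal.natCast_ne_top M
  set μ : Measure (ZMod M) := (M : ℝ≥0∞)⁻¹ • (Measure.count : Measure (ZMod M)) with hμ
  have hprob : IsProbabilityMeasure μ := by
    constructor
    rw [hμ, Measure.smul_apply, ← Finset.coe_univ, Measure.count_apply_finset, Finset.card_univ,
      ZMod.card, smul_eq_mul]
    exact ENNReal.inv_mul_cancel hMN hMT
  have hmp : MeasurePreserving (Equiv.addRight (1 : ZMod M)) μ μ := by
    refine ⟨Measurable.of_discrete, ?_⟩
    refine Measure.ext_of_singleton ?_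
    intro a
    rw [Measure.map_apply Measurable.of_discrete (measurableSet_singleton a)]
    have hpre : (Equiv.addRight (1 : ZMod M)) ⁻¹' {a} = {a - 1} := by
      ext y
      simp only [Set.mem_preimage, Set.mem_singleton_iff, Equiv.coe_addRight]
      constructor
      · intro h
        rw [← h]
        ring
      · intro h
        rw [h]
        ring
    rw [hpre, hμ, Measure.smul_apply, Measure.smul_apply, Measure.count_singleton,
      Measure.count_singleton]
  have hIMP : IMP μ (Equiv.addRight (1 : ZMod M)) :=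
    ⟨Measurable.of_discrete, Measurable.of_discrete, hmp⟩
  have hmain := hC (ZMod M) μ (Equiv.addRight (1 : ZMod M)) hIMP P le_rfl
    (fun x => (u x).toNNReal) Measurable.of_discrete
  have hAR0 : ∀ x, 0 ≤ AR (σ x) P u x := by
    intro x
    unfold AR tvr
    exact div_nonneg (Finset.sum_nonneg (fun t _ => hu _)) (Nat.cast_nonneg _)
  have hpt : ∀ x, ENNReal.ofReal (AR (σ x) P u x) ≤
      ⨆ N : ℕ, (∑ t ∈ range N, ((((u (((Equiv.addRight (1 : ZMod M)) ^ (P.eval (t : ℤ))) x)).toNNReal :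
        ℝ≥0)) : ℝ≥0∞)) / (N : ℝ≥0∞) := by
    intro x
    rcases Nat.eq_zero_or_pos (σ x) with h0 | h0
    · rw [h0]
      unfold AR tvr
      simp
    · refine le_trans (le_of_eq ?_) (le_iSup _ (σ x))
      have hσ : (0 : ℝ) < (σ x : ℝ) := by exact_mod_cast h0
      unfold AR tvr
      rw [ENNReal.ofReal_div_of_pos hσ, ENNReal.ofReal_sum_of_nonneg (fun t _ => hu _),
        ENNReal.ofReal_natCast]
      congr 1
      refine Finset.sum_congr rfl (fun t _ => ?_)
      rw [MaxPAux.rot_pow]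
      rfl
  have hleft : ENNReal.ofReal (avr (fun x => (AR (σ x) P u x) ^ 2)) ≤
      ∫⁻ x, (⨆ N : ℕ, (∑ t ∈ range N, ((((u (((Equiv.addRight (1 : ZMod M)) ^ (P.eval (t : ℤ))) x)).toNNReal :
        ℝ≥0)) : ℝ≥0∞)) / (N : ℝ≥0∞)) ^ 2 ∂μ := by
    rw [← MaxPAux.lint_avr (fun x => (AR (σ x) P u x) ^ 2) (fun x => sq_nonneg _)]
    refine lintegral_mono (fun x => ?_)
    show ENNReal.ofReal ((AR (σ x) P u x) ^ 2) ≤ _
    rw [ENNReal.ofReal_pow (hAR0 x)]
    exact pow_le_pow_left' (hpt x) 2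
  have hright : ∫⁻ x, (((u x).toNNReal : ℝ≥0) : ℝ≥0∞) ^ 2 ∂μ =
      ENNReal.ofReal (avr (fun x => u x ^ 2)) := by
    rw [← MaxPAux.lint_avr (fun x => u x ^ 2) (fun x => sq_nonneg _)]
    refine lintegral_congr (fun x => ?_)
    show ENNReal.ofReal (u x) ^ 2 = ENNReal.ofReal (u x ^ 2)
    rw [ENNReal.ofReal_pow (hu x)]
  have hav0 : 0 ≤ avr (fun x => u x ^ 2) := by
    unfold avr
    exact div_nonneg (Finset.sum_nonneg (fun t _ => sq_nonneg _)) hM.le
  have hfin : ENNReal.ofReal (avr (fun x => (AR (σ x) P u x) ^ 2)) ≤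
      ENNReal.ofReal ((C : ℝ) * avr (fun x => u x ^ 2)) := by
    refine le_trans hleft (le_trans hmain ?_)
    rw [hright, ENNReal.ofReal_mul (NNReal.coe_nonneg C)]
    exact le_of_eq (by rw [ENNReal.ofReal_coe_nnreal])
  exact (ENNReal.ofReal_le_ofReal_iff (mul_nonneg C.2 hav0)).mp hfin

end Pool.Agent.EQD.Lo
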