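import Pool.Agent.Lib.EQD.Prof
import Pool.Agent.Lib.EQD.MaxP

/-!
# EQD.Dec: decoupling of the residue `x mod Q`, and the maximal inequality for functions of `(y, ρ)`

PROOFS.
* `decouple`. `avr F = avr_x (1/Q) ∑_{v < Q} F (x + v)` (`avr_shift`), `F x = U (red x) x ^ 2`. For `v < Q`:
  `U (red (x + v)) (x + v) ≤ U (red x + v) x + η`, so its square is `≤ 2 U (red x + v) x ^ 2 + 2 η ^ 2`; `v ↦ red x + v` is a bijection of
  `{0, ..., Q - 1}` onto `ZMod Q`, so `(1/Q) ∑_v U (red x + v) x ^ 2 = avr_ρ U ρ x ^ 2`. (`U ≥ 0`.)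
* `maxZ`. Let `Zs ρ y = fmax s (fun j => ‖Z j y ρ‖)`, `U ρ x = fmax s (fun j => AR (Nj j) P (Zs ρ) x)`. Then
  `‖tv (Nj j) (Z j (x + P m) (red x))‖ ≤ U (red x) x`. By hypothesis and `abs_fmax_sub_le`: `|Zs ρ (y + v) - Zs ρ y| ≤ η` for `v < Q`, hence
  `|U ρ (x + v) - U ρ x| ≤ η`. `decouple`; for each `ρ`: `avr_x (U ρ x)^2 ≤ C avr_y (Zs ρ y)^2` by `maxP` with
  `σ x` = `Nj j` for a `j ∈ s` attaining the maximum (`exists_fmax`; if `s = ∅` everything is `0`). Exchange the two averages at the end.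
-/

set_option autoImplicit false

open Finset Polynomial

namespace Pool.Agent.EQD.Lo

open Pool.Agent.HLT Pool.Agent.NLT Pool.Agent.NLG

section group

variable {M Q : ℕ} [NeZero M] [NeZero Q]

namespace DecAux

lemma avr_swap (f : ZMod M → ZMod Q → ℝ) :
    avr (fun x : ZMod M => avr (fun ρ : ZMod Q => f x ρ)) = avr (fun ρ : ZMod Q => avr (fun x : ZMod M => f x ρ)) := by
  unfold avr
  rw [← Finset.sum_div, ← Finset.sum_div, Finset.sum_comm]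
  rw [div_div, div_div, mul_comm]

lemma sum_range_cast (g : ZMod Q → ℝ) : ∑ v ∈ range Q, g ((v : ℕ) : ZMod Q) = ∑ ρ, g ρ := by
  refine Finset.sum_bij' (fun v _ => ((v : ℕ) : ZMod Q)) (fun ρ _ => ρ.val) (fun v _ => Finset.mem_univ _)
    (fun ρ _ => Finset.mem_range.2 (ZMod.val_lt ρ)) ?_ ?_ ?_
  · intro v hv
    exact ZMod.val_natCast_of_lt (Finset.mem_range.1 hv)
  · intro ρ _
    exact ZMod.natCast_zmod_val ρ
  · intro v _
    rfl

lemma sum_range_shift (g : ZMod Q → ℝ) (ρ0 : ZMod Q) : ∑ v ∈ range Q, g (ρ0 + ((v : ℕ) : ZMod Q)) = ∑ ρ, g ρ := by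
  rw [sum_range_cast (fun ρ => g (ρ0 + ρ))]
  exact Equiv.sum_comp (Equiv.addLeft ρ0) g

lemma avr_avg (F : ZMod M → ℝ) : avr (fun x : ZMod M => (∑ v ∈ range Q, F (x + ((v : ℕ) : ZMod M))) / Q) = avr F := by
  have hQ : (Q : ℝ) ≠ 0 := Nat.cast_ne_zero.2 (NeZero.ne Q)
  have h1 : avr (fun x : ZMod M => (∑ v ∈ range Q, F (x + ((v : ℕ) : ZMod M))) / Q) =
      (∑ v ∈ range Q, avr (fun x : ZMod M => F (x + ((v : ℕ) : ZMod M)))) / Q := by
    unfold avr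
    rw [← Finset.sum_div, ← Finset.sum_div, Finset.sum_comm]
    rw [div_div, div_div, mul_comm]
  rw [h1]
  rw [Finset.sum_congr rfl (fun v _ => avr_shift F ((v : ℕ) : ZMod M))]
  rw [Finset.sum_const, Finset.card_range, nsmul_eq_mul]
  field_simp

lemma tvr_le' {N : ℕ} {F : ℕ → ℝ} {η : ℝ} (hη : 0 ≤ η) (h : ∀ t, F t ≤ η) : tvr N F ≤ η := by
  unfold tvr
  rcases Nat.eq_zero_or_pos N with h0 | h0
  · subst h0
    simpa using hη
  · rw [div_le_iff₀ (by exact_mod_cast h0)]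
    calc ∑ t ∈ range N, F t ≤ ∑ _t ∈ range N, η := Finset.sum_le_sum (fun t _ => h t)
      _ = η * N := by rw [Finset.sum_const, Finset.card_range, nsmul_eq_mul, mul_comm]

lemma tvr_nonneg' {N : ℕ} {F : ℕ → ℝ} (h : ∀ t, 0 ≤ F t) : 0 ≤ tvr N F := by
  unfold tvr
  exact div_nonneg (Finset.sum_nonneg (fun t _ => h t)) (Nat.cast_nonneg _)

lemma tvr_mono' {N : ℕ} {F G : ℕ → ℝ} (h : ∀ t, F t ≤ G t) : tvr N F ≤ tvr N G := by
  unfold tvr
  exact div_le_div_of_nonneg_right (Finset.sum_le_sum (fun t _ => h t)) (Nat.cast_nonneg _)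

lemma norm_tv_le' (N : ℕ) (F : ℕ → ℂ) : ‖tv N F‖ ≤ tvr N (fun t => ‖F t‖) := by
  unfold tv tvr
  rw [norm_div, Complex.norm_natCast]
  exact div_le_div_of_nonneg_right (norm_sum_le _ _) (Nat.cast_nonneg _)

omit [NeZero M] in
lemma abs_AR_sub_le (N : ℕ) (P : ℤ[X]) (u : ZMod M → ℝ) {η : ℝ} (hη : 0 ≤ η) (c : ZMod M)
    (h : ∀ y, |u (y + c) - u y| ≤ η) (x : ZMod M) : |AR N P u (x + c) - AR N P u x| ≤ η := by
  have h1 : AR N P u (x + c) - AR N P u x = tvr N (fun t => u (x + pz M P t + c) - u (x + pz M P t)) := by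
    unfold AR tvr
    rw [← sub_div, ← Finset.sum_sub_distrib]
    congr 1
    refine Finset.sum_congr rfl (fun t _ => ?_)
    rw [add_right_comm]
  rw [h1, abs_le]
  constructor
  · have h2 : tvr N (fun t => -(u (x + pz M P t + c) - u (x + pz M P t))) ≤ η :=
      tvr_le' hη (fun t => by have := (abs_le.1 (h (x + pz M P t))).1; linarith)
    have h3 : tvr N (fun t => -(u (x + pz M P t + c) - u (x + pz M P t))) =
        -tvr N (fun t => u (x + pz M P t + c) - u (x + pz M P t)) := by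
      unfold tvr
      rw [Finset.sum_neg_distrib, neg_div]
    rw [h3] at h2
    linarith
  · exact tvr_le' hη (fun t => (abs_le.1 (h (x + pz M P t))).2)

end DecAux

open DecAux

theorem decouple (hQ : Q ∣ M) (U : ZMod Q → ZMod M → ℝ) (hU : ∀ ρ x, 0 ≤ U ρ x) (η : ℝ) (hη : 0 ≤ η)
    (h : ∀ ρ x, ∀ v < Q, |U ρ (x + ((v : ℕ) : ZMod M)) - U ρ x| ≤ η) :
    avr (fun x => U (red hQ x) x ^ 2) ≤ 2 * avr (fun ρ : ZMod Q => avr (fun x : ZMod M => U ρ x ^ 2)) + 2 * η ^ 2 := by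
  have hQ0 : (0 : ℝ) < Q := by exact_mod_cast Nat.pos_of_ne_zero (NeZero.ne Q)
  rw [← avr_avg (Q := Q) (fun x : ZMod M => U (red hQ x) x ^ 2)]
  have h1 : ∀ x : ZMod M, (∑ v ∈ range Q, U (red hQ (x + ((v : ℕ) : ZMod M))) (x + ((v : ℕ) : ZMod M)) ^ 2) / Q ≤
      2 * avr (fun ρ : ZMod Q => U ρ x ^ 2) + 2 * η ^ 2 := by
    intro x
    have h2 : ∀ v ∈ range Q, U (red hQ (x + ((v : ℕ) : ZMod M))) (x + ((v : ℕ) : ZMod M)) ^ 2 ≤
        2 * U (red hQ x + ((v : ℕ) : ZMod Q)) x ^ 2 + 2 * η ^ 2 := by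
      intro v hv
      have h3 : red hQ (x + ((v : ℕ) : ZMod M)) = red hQ x + ((v : ℕ) : ZMod Q) := by
        rw [map_add, map_natCast]
      rw [h3]
      have h4 := h (red hQ x + ((v : ℕ) : ZMod Q)) x v (Finset.mem_range.1 hv)
      have h5 := hU (red hQ x + ((v : ℕ) : ZMod Q)) x
      have h6 := hU (red hQ x + ((v : ℕ) : ZMod Q)) (x + ((v : ℕ) : ZMod M))
      have h7 : U (red hQ x + ((v : ℕ) : ZMod Q)) (x + ((v : ℕ) : ZMod M)) ≤ U (red hQ x + ((v : ℕ) : ZMod Q)) x + η := by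
        have := (abs_le.1 h4).2
        linarith
      nlinarith [sq_nonneg (U (red hQ x + ((v : ℕ) : ZMod Q)) x - η), mul_self_le_mul_self h6 h7]
    have h8 := Finset.sum_le_sum h2
    rw [Finset.sum_add_distrib, ← Finset.mul_sum, sum_range_shift (fun ρ => U ρ x ^ 2) (red hQ x), Finset.sum_const,
      Finset.card_range, nsmul_eq_mul] at h8
    rw [div_le_iff₀ hQ0]
    have h9 : (2 * avr (fun ρ : ZMod Q => U ρ x ^ 2) + 2 * η ^ 2) * Q = 2 * ∑ ρ, U ρ x ^ 2 + Q * (2 * η ^ 2) := by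
      unfold avr
      field_simp
    rw [h9]
    exact h8
  refine (avr_mono h1).trans ?_
  rw [avr_add, avr_mul_left, avr_const, avr_swap (fun x ρ => U ρ x ^ 2)]

end group

theorem maxZ (P : ℤ[X]) : ∃ C : ℝ, 0 ≤ C ∧ ∀ (M Q : ℕ) [NeZero M] [NeZero Q] (hQ : Q ∣ M) (s : Finset ℕ)
    (Nj : ℕ → ℕ) (Z : ℕ → ZMod M → ZMod Q → ℂ) (η : ℝ), 0 ≤ η →
    (∀ j ∈ s, ∀ y ρ, ∀ v < Q, ‖Z j (y + ((v : ℕ) : ZMod M)) ρ - Z j y ρ‖ ≤ η) →
    avr (fun x : ZMod M => (fmax s (fun j => ‖tv (Nj j) (fun m => Z j (x + pz M P m) (red hQ x))‖)) ^ 2) ≤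
      C * (avr (fun y : ZMod M => avr (fun ρ : ZMod Q => (fmax s (fun j => ‖Z j y ρ‖)) ^ 2)) + η ^ 2) := by
  obtain ⟨C, hC, hmax⟩ := maxP P
  refine ⟨2 * C + 2, by linarith, ?_⟩
  intro M Q _ _ hQ s Nj Z η hη hZ
  have hA : 0 ≤ avr (fun y : ZMod M => avr (fun ρ : ZMod Q => (fmax s (fun j => ‖Z j y ρ‖)) ^ 2)) :=
    avr_nonneg (fun y => avr_nonneg (fun ρ => sq_nonneg _))
  rcases s.eq_empty_or_nonempty with hs | hs
  · have h0 : avr (fun x : ZMod M => (fmax s (fun j => ‖tv (Nj j) (fun m => Z j (x + pz M P m) (red hQ x))‖)) ^ 2) ≤ 0 := by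
      refine avr_le (fun x => ?_)
      have : fmax s (fun j => ‖tv (Nj j) (fun m => Z j (x + pz M P m) (red hQ x))‖) = 0 := by
        subst hs
        simp [fmax]
      rw [this]
      norm_num
    refine h0.trans ?_
    have : 0 ≤ η ^ 2 := sq_nonneg _
    exact mul_nonneg (by linarith) (by linarith)
  · set Zs : ZMod Q → ZMod M → ℝ := fun ρ y => fmax s (fun j => ‖Z j y ρ‖) with hZs
    set U : ZMod Q → ZMod M → ℝ := fun ρ x => fmax s (fun j => AR (Nj j) P (Zs ρ) x) with hUdef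
    have hZs0 : ∀ ρ y, 0 ≤ Zs ρ y := fun ρ y => fmax_nonneg (fun j _ => norm_nonneg _)
    have hU0 : ∀ ρ x, 0 ≤ U ρ x := fun ρ x => fmax_nonneg (fun j _ => DecAux.tvr_nonneg' (fun t => hZs0 ρ _))
    have hZd : ∀ ρ y, ∀ v < Q, |Zs ρ (y + ((v : ℕ) : ZMod M)) - Zs ρ y| ≤ η := by
      intro ρ y v hv
      refine abs_fmax_sub_le hη (fun j hj => ?_)
      exact (abs_norm_sub_norm_le _ _).trans (hZ j hj y ρ v hv)
    have hUd : ∀ ρ x, ∀ v < Q, |U ρ (x + ((v : ℕ) : ZMod M)) - U ρ x| ≤ η := by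
      intro ρ x v hv
      refine abs_fmax_sub_le hη (fun j _ => ?_)
      exact DecAux.abs_AR_sub_le (Nj j) P (Zs ρ) hη ((v : ℕ) : ZMod M) (fun y => hZd ρ y v hv) x
    have h1 : ∀ x : ZMod M, (fmax s (fun j => ‖tv (Nj j) (fun m => Z j (x + pz M P m) (red hQ x))‖)) ^ 2 ≤
        U (red hQ x) x ^ 2 := by
      intro x
      refine pow_le_pow_left₀ (fmax_nonneg (fun j _ => norm_nonneg _)) ?_ 2
      refine fmax_le (hU0 _ _) (fun j hj => ?_)
      refine (DecAux.norm_tv_le' _ _).trans ?_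
      refine le_trans ?_ (le_fmax (fun j => AR (Nj j) P (Zs (red hQ x)) x) hj)
      refine DecAux.tvr_mono' (fun t => ?_)
      exact le_fmax (fun j => ‖Z j (x + pz M P t) (red hQ x)‖) hj
    have h2 := decouple hQ U hU0 η hη hUd
    have h3 : ∀ ρ : ZMod Q, avr (fun x : ZMod M => U ρ x ^ 2) ≤ C * avr (fun y : ZMod M => Zs ρ y ^ 2) := by
      intro ρ
      have h4 : ∀ x : ZMod M, ∃ j ∈ s, U ρ x = AR (Nj j) P (Zs ρ) x := fun x =>
        exists_fmax hs (fun j => AR (Nj j) P (Zs ρ) x)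
      choose σ hσ hσ' using h4
      have h5 := hmax M (Zs ρ) (hZs0 ρ) (fun x => Nj (σ x))
      have h6 : (fun x : ZMod M => U ρ x ^ 2) = fun x => (AR (Nj (σ x)) P (Zs ρ) x) ^ 2 := by
        funext x
        rw [hσ' x]
      rw [h6]
      exact h5
    have h7 : avr (fun ρ : ZMod Q => avr (fun x : ZMod M => U ρ x ^ 2)) ≤
        C * avr (fun y : ZMod M => avr (fun ρ : ZMod Q => Zs ρ y ^ 2)) := by
      rw [DecAux.avr_swap (fun y ρ => Zs ρ y ^ 2), ← avr_mul_left]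
      exact avr_mono h3
    have h8 := avr_mono h1
    have h9 : 0 ≤ η ^ 2 := sq_nonneg _
    have h10 : 0 ≤ C * η ^ 2 := mul_nonneg hC h9
    have hA' : 0 ≤ avr (fun y : ZMod M => avr (fun ρ : ZMod Q => Zs ρ y ^ 2)) := hA
    calc avr (fun x : ZMod M => (fmax s (fun j => ‖tv (Nj j) (fun m => Z j (x + pz M P m) (red hQ x))‖)) ^ 2)
        ≤ avr (fun x : ZMod M => U (red hQ x) x ^ 2) := h8
      _ ≤ 2 * (C * avr (fun y : ZMod M => avr (fun ρ : ZMod Q => Zs ρ y ^ 2))) + 2 * η ^ 2 := by linarith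
      _ ≤ (2 * C + 2) * (avr (fun y : ZMod M => avr (fun ρ : ZMod Q => Zs ρ y ^ 2)) + η ^ 2) := by nlinarith

end Pool.Agent.EQD.Lo
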