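import Pool.Agent.Lib.NLG.IndG
import Pool.Agent.Lib.NLG.WeylG

/-!
# Pointwise convergence for polynomials of equal degree: definitions

Everything lives on `ZMod M` with the uniform probability measure (`av`, `avr` of `NLT`), `tv N F` is the average of
`F 0, ..., F (N - 1)`.

* `pz M P t` = value of the integer polynomial `P` at `t` in `ZMod M`;
* `AA N P g x` = average over `t < N` of `∏_i g i (x + P i t)` (the multilinear average);
* `AR N P u x` = average over `t < N` of `u (x + P t)` (linear average of a real function);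
* `n2 f` = mean square of `f`; `nq s f` = mean of `‖f‖ ^ s`;
* `cv β f x = ∑_v β v * f (x + v)` for a finitely supported kernel `β` on `ℤ`, `mul β θ = ∑_v β v e(θ v)` its multiplier,
  `mass β` the sum of the absolute values;
* `dk K α` = average over `i < K` of `e(α i)`; `bk q K` = box kernel (law of `q i`, `i < K`), with multiplier `dk K (q θ)`;
  `Eb q K f x` = average over `i < K` of `f (x + q i)`;
* `Qm t = (2 ^ t)!`: the modulus of level `t`;
* `InvP P e`: the inverse theorem (structure of the `i`-th function at the scale `H ^ e i`);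
* `NS C R L β`: the kernel `β` removes the structure of height `R ^ C` at the scale `L / R ^ C`;
* `EqDeg D P e`: the class of families of polynomials.
-/

set_option autoImplicit false

open Finset Polynomial

namespace Pool.Agent.EQD

open Pool.Agent.HLT Pool.Agent.NLT Pool.Agent.NLG

/-- Value of an integer polynomial in `ZMod M`. -/
noncomputable def pz (M : ℕ) (P : ℤ[X]) (t : ℕ) : ZMod M := ((P.eval (t : ℤ) : ℤ) : ZMod M)

section group

variable {M : ℕ} [NeZero M]

/-- Multilinear average. -/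
noncomputable def AA {n : ℕ} (N : ℕ) (P : Fin n → ℤ[X]) (g : Fin n → ZMod M → ℂ) (x : ZMod M) : ℂ :=
  tv N (fun t => ∏ i, g i (x + pz M (P i) t))

/-- Linear average of a real function. -/
noncomputable def AR (N : ℕ) (P : ℤ[X]) (u : ZMod M → ℝ) (x : ZMod M) : ℝ := tvr N (fun t => u (x + pz M P t))

/-- Mean square. -/
noncomputable def n2 (f : ZMod M → ℂ) : ℝ := avr (fun x => ‖f x‖ ^ 2)

/-- Mean of `‖f‖ ^ s`. -/
noncomputable def nq (s : ℕ) (f : ZMod M → ℂ) : ℝ := avr (fun x => ‖f x‖ ^ s)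

/-- Convolution with a finitely supported kernel on `ℤ`. -/
noncomputable def cv (β : ℤ →₀ ℂ) (f : ZMod M → ℂ) (x : ZMod M) : ℂ :=
  β.sum (fun v b => b * f (x + (v : ZMod M)))

end group

/-- Multiplier of a kernel. -/
noncomputable def mul (β : ℤ →₀ ℂ) (θ : ℝ) : ℂ := β.sum (fun v b => b * ex (θ * (v : ℝ)))

/-- Mass of a kernel. -/
noncomputable def mass (β : ℤ →₀ ℂ) : ℝ := β.sum (fun _ b => ‖b‖)

/-- Dirichlet average. -/
noncomputable def dk (K : ℕ) (α : ℝ) : ℂ := tv K (fun i => ex (α * (i : ℝ)))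

/-- Box kernel of difference `q` and length `K`. -/
noncomputable def bk (q K : ℕ) : ℤ →₀ ℂ :=
  ∑ i ∈ range K, Finsupp.single ((q * i : ℕ) : ℤ) (1 / (K : ℂ))

/-- Box average of difference `q` and length `K`. -/
noncomputable def Eb {M : ℕ} [NeZero M] (q K : ℕ) (f : ZMod M → ℂ) (x : ZMod M) : ℂ :=
  tv K (fun i => f (x + ((q * i : ℕ) : ZMod M)))

/-- The modulus of level `t`. -/
def Qm (t : ℕ) : ℕ := (2 ^ t).factorial

/-- The unit kernel. -/
noncomputable def dlt : ℤ →₀ ℂ := Finsupp.single 0 1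

/-- The kernel is supported in `[-L, L]`. -/
def Supp (L : ℕ) (β : ℤ →₀ ℂ) : Prop := ∀ v : ℤ, β v ≠ 0 → v.natAbs ≤ L

/-- The inverse theorem for the family `P`: if the average of `f0 * AA H P f` is at least `1 / R`, then every `f i` has large
averages along progressions of a bounded difference and of every length up to `H ^ e i / R ^ C`. -/
def InvP {n : ℕ} (P : Fin n → ℤ[X]) (e : Fin n → ℕ) : Prop :=
  ∃ C : ℕ, ∀ (M : ℕ) [NeZero M] (H R : ℕ), 2 ≤ R → R ^ C ≤ H →
    ∀ f0 : ZMod M → ℂ, Bd f0 → ∀ f : Fin n → ZMod M → ℂ, (∀ i, Bd (f i)) →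
    1 / (R : ℝ) ≤ ‖av (fun x => f0 x * AA H P f x)‖ → ∀ i, Star C R H (e i) (f i)

/-- The kernel `β` removes the structure of height `R ^ C` at the scale `L / R ^ C`. -/
def NS (C R L : ℕ) (β : ℤ →₀ ℂ) : Prop :=
  ∀ r : ℕ, 1 ≤ r → r ≤ R ^ C → ∀ θ : ℝ, ‖mul β θ‖ * ‖dk (L / R ^ C) ((r : ℝ) * θ)‖ ≤ 1 / (2 * (R : ℝ) ^ C)

/-- The class of families: all polynomials have degree `D ≥ 2`; there is a base `i₀` such that `P i - P i₀` has degree at most
`e i`; `1 ≤ e i < D`; the inverse theorem holds with the exponents `e i`. -/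
structure EqDeg {n : ℕ} (D : ℕ) (P : Fin n → ℤ[X]) (e : Fin n → ℕ) (i₀ : Fin n) : Prop where
  two : 2 ≤ D
  deg : ∀ i, (P i).natDegree = D
  pos : ∀ i, 1 ≤ e i
  lt : ∀ i, e i < D
  base : ∀ i, (P i - P i₀).natDegree ≤ e i
  inv : InvP P e

end Pool.Agent.EQD
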