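import Pool.Agent.Lib.EQD.DefsB

/-!
# Pointwise convergence for polynomials of equal degree: the model of large heights

`Q` = modulus of the smooth part, `Ps` = finite set of large primes, `q_U = Q ∏_{p ∈ U} p ^ a` (`qU Q a U`). For a window
`z + s + [0, L)`:
* `mU q L s f z y` = `(q / L)` times the sum of `f` over the elements of the window which are `≡ y` modulo `q`;
* `vS Q a L s f S z y = ∑_{U ⊆ S} (-1) ^ |S \ U| m_U`: the part of `f` of the frequencies whose large primes are exactly `S`;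
* `vK Q a k L Ps s f z y`: the sum of the `vS` over all `S ⊆ Ps` with at most `k` elements; `z` = position of the window, `y` = position in
  the fibre (also an element of `ZMod M`, but only its residues matter); `Pf ... f x = vK ... 0 f x x` is the projection of `f`;
* `Ep p g` = average of `g` over the cosets of the `p`-primary subgroup of `ZMod M`;
* `WS`: arithmetic assumptions, `Tny`: all relevant moduli are tiny compared with `L`;
* `wb p S b N g x` = average of `g (x + p m)` over the block number `b` (of `S`) of `[0, N)`; `wm` its multiplier;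
* `Sl K q κ Φ`: `Φ z y` is a sum of at most `K` functions bounded by `K`, periodic in `y` with a period `≤ q`, `κ`-Lipschitz in `z`.
-/

set_option autoImplicit false

open Finset Polynomial

namespace Pool.Agent.EQD

open Pool.Agent.HLT Pool.Agent.NLT Pool.Agent.NLG

/-- The large primes of level `t` up to `X`. -/
def PP (t X : ℕ) : Finset ℕ := (Finset.range (X + 1)).filter (fun p => p.Prime ∧ 2 ^ t < p)

/-- The modulus of a set of large primes. -/
def qU (Q a : ℕ) (U : Finset ℕ) : ℕ := Q * ∏ p ∈ U, p ^ a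

/-- Arithmetic assumptions. -/
structure WS (M Q a : ℕ) (Ps : Finset ℕ) : Prop where
  prime : ∀ p ∈ Ps, p.Prime
  cop : ∀ p ∈ Ps, ¬ p ∣ Q
  dvd : qU Q a Ps ∣ M
  pos : 1 ≤ Q
  apos : 1 ≤ a

/-- All moduli with at most `k` large primes, the number of components and their powers of exponent `16 r` are tiny compared
with `L`. -/
def Tny (Q a k r L : ℕ) (Ps : Finset ℕ) : Prop :=
  ∀ U, U ⊆ Ps → U.card ≤ k → (qU Q a U * (4 * (Ps.card + 2)) ^ (k + 1)) ^ (16 * r) ≤ L

section group

variable {M : ℕ} [NeZero M]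

/-- Normalised sum over a residue class in a window. -/
noncomputable def mU (q L : ℕ) (s : ZMod M) (f : ZMod M → ℂ) (z y : ZMod M) : ℂ :=
  (q : ℂ) / L * ∑ h ∈ range L, if q ∣ (z + s + (h : ZMod M) - y).val then f (z + s + (h : ZMod M)) else 0

/-- Efron-Stein component. -/
noncomputable def vS (Q a L : ℕ) (s : ZMod M) (f : ZMod M → ℂ) (S : Finset ℕ) (z y : ZMod M) : ℂ :=
  ∑ U ∈ S.powerset, (-1) ^ (S \ U).card * mU (qU Q a U) L s f z y

/-- The part of degree at most `k` in the large primes. -/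
noncomputable def vK (Q a k L : ℕ) (Ps : Finset ℕ) (s : ZMod M) (f : ZMod M → ℂ) (z y : ZMod M) : ℂ :=
  ∑ i ∈ range (k + 1), ∑ S ∈ Ps.powersetCard i, vS Q a L s f S z y

/-- The projection of `f`. -/
noncomputable def Pf (Q a k L : ℕ) (Ps : Finset ℕ) (f : ZMod M → ℂ) (x : ZMod M) : ℂ := vK Q a k L Ps 0 f x x

/-- Average over the `p`-primary subgroup. -/
noncomputable def Ep (p : ℕ) (g : ZMod M → ℂ) : ZMod M → ℂ :=
  Eb (M / p ^ M.factorization p) (p ^ M.factorization p) g

/-- Average of a real function over the subgroup of order `∏_{p ∈ U} p ^ v_p(M)`. -/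
noncomputable def EU (U : Finset ℕ) (g : ZMod M → ℝ) (y : ZMod M) : ℝ :=
  tvr (∏ p ∈ U, p ^ M.factorization p)
    (fun i => g (y + (((M / ∏ p ∈ U, p ^ M.factorization p) * i : ℕ) : ZMod M)))

/-- Average over the block `b` of `S` of `[0, N)`. -/
noncomputable def wb (p : ℤ[X]) (S b N : ℕ) (g : ZMod M → ℂ) (x : ZMod M) : ℂ :=
  tv ((b + 1) * N / S - b * N / S) (fun m => g (x + pz M p (b * N / S + m)))

/-- Sums of few slowly varying functions of small period. -/
def Sl (K q : ℕ) (κ : ℝ) (Φ : ZMod M → ZMod M → ℂ) : Prop :=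
  ∃ (ι : Type) (_ : Fintype ι) (φ : ι → ZMod M → ZMod M → ℂ) (d : ι → ℕ), Fintype.card ι ≤ K ∧
    (∀ a, 1 ≤ d a ∧ d a ≤ q ∧ d a ∣ M) ∧ (∀ a z y, φ a z (y + ((d a : ℕ) : ZMod M)) = φ a z y) ∧
    (∀ a z y, ‖φ a z y‖ ≤ K) ∧ (∀ a z y, ‖φ a (z + 1) y - φ a z y‖ ≤ κ) ∧ ∀ z y, Φ z y = ∑ a, φ a z y

end group

/-- Multiplier of `wb`. -/
noncomputable def wm (p : ℤ[X]) (S b N : ℕ) (θ : ℝ) : ℂ :=
  tv ((b + 1) * N / S - b * N / S) (fun m => ex (θ * ((p.eval ((b * N / S + m : ℕ) : ℤ) : ℤ) : ℝ)))

end Pool.Agent.EQD
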