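import Pool.Agent.Lib.EQD.DefsD

/-!
# Pointwise convergence for polynomials of equal degree: the functions in the slots

`Vd`: diagonal of the structured function of a block of scales (`Q = QB B (K / 2)`, large primes up to `2 ^ (K A)`, `k = a = 2 A + 2`, length `Lf Q C₄ (K / 2) N e`).
`Gd`: the functions before the reduction to structured functions: type `0`: average over the progression, `1`: the function itself, `2`: the difference of the two.
-/

set_option autoImplicit false

open Finset Polynomial

namespace Pool.Agent.EQD

open Pool.Agent.HLT Pool.Agent.NLT Pool.Agent.NLG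

variable {M : ℕ} [NeZero M]

/-- Diagonal of a structured function. -/
noncomputable def Vd (A B C₄ K e N ty : ℕ) (f : ZMod M → ℂ) (x : ZMod M) : ℂ :=
  vT (QB B (K / 2)) (2 * A + 2) (2 * A + 2) (Lf (QB B (K / 2)) C₄ (K / 2) N e) (PP (K / 2) (2 ^ (K * A))) ty 0 f x x

/-- The functions before the reduction. -/
noncomputable def Gd (B C₄ t e N ty : ℕ) (f : ZMod M → ℂ) (x : ZMod M) : ℂ :=
  if ty = 0 then Ew B t t (N ^ e / 2 ^ (C₄ * t)) f x
  else if ty = 1 then f x
  else f x - Ew B t t (N ^ e / 2 ^ (C₄ * t)) f x

end Pool.Agent.EQD
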