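import Pool.Agent.Lib.EQD.DefsB
import Pool.Agent.Lib.NLT.Geo
import Pool.Agent.Lib.NLT.BasicA
import Pool.Agent.Lib.NLT.BasicB
import Pool.Agent.Lib.NLT.BasicT

/-!
# Module DkB: kernels, multipliers, Parseval

PROOFS. `dk K α = tv K (fun i => ex (α * i))`: geometric sum, `NLT.geo_Ico`; periodicity by `ex_add_int`; `‖1 - dk K α‖ ≤ π K nrm α`: reduce `α` to
`α - round α` (periodicity), then `‖1 - ex (β i)‖ ≤ 2 π |β| i` and the average of `i` over `i < K` is `≤ K / 2`. `mul` and `cv` are linear in the kernel (`Finsupp.sum_add_index'`).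
`ft (cv β f) ξ = mul β (ξ.val / M) * ft f ξ` (`ft_shift`, `chi_int`), Parseval (`NLT.parseval`).
-/

set_option autoImplicit false

open Finset Polynomial

namespace Pool.Agent.EQD

open Pool.Agent.HLT Pool.Agent.NLT Pool.Agent.NLG

theorem norm_dk_le_one (K : ℕ) (α : ℝ) : ‖dk K α‖ ≤ 1 :=
  norm_tv_le_one K _ fun _ => (norm_ex _).le

theorem dk_add_int (K : ℕ) (α : ℝ) (m : ℤ) : dk K (α + m) = dk K α := by
  unfold dk
  congr 1
  funext i
  have h : (α + m) * (i : ℝ) = α * i + ((m * (i : ℤ) : ℤ) : ℝ) := by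
    push_cast
    ring
  rw [h, ex_add_int]

theorem dk_mul_nrm (K : ℕ) (α : ℝ) : ‖dk K α‖ * (2 * K * nrm α) ≤ 1 := by
  rcases Nat.eq_zero_or_pos K with hK | hK
  · subst hK
    simp
  have hK0 : (0 : ℝ) < K := by exact_mod_cast hK
  have h := geo_Ico 0 K α 0
  have e : ∑ t ∈ Ico 0 K, ex ((t : ℝ) * α + 0) = ∑ t ∈ range K, ex (α * (t : ℝ)) := by
    rw [Finset.range_eq_Ico]
    refine sum_congr rfl fun t _ => ?_
    rw [add_zero, mul_comm]
  rw [e] at h
  unfold dk tv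
  rw [norm_div, Complex.norm_natCast]
  calc ‖∑ t ∈ range K, ex (α * (t : ℝ))‖ / (K : ℝ) * (2 * K * nrm α) =
      2 * nrm α * ‖∑ t ∈ range K, ex (α * (t : ℝ))‖ := by
        field_simp
    _ ≤ 1 := h

theorem norm_one_sub_dk (K : ℕ) (hK : 1 ≤ K) (α : ℝ) : ‖1 - dk K α‖ ≤ Real.pi * K * nrm α := by
  have hK0 : (0 : ℝ) < K := by exact_mod_cast hK
  have h0 : dk K α = dk K (α - round α) := by
    have h := dk_add_int K (α - round α) (round α)
    rw [sub_add_cancel] at h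
    exact h
  set β : ℝ := α - round α with hβ
  have hn : nrm α = |β| := rfl
  rw [h0, hn]
  have h1 : 1 - dk K β = tv K (fun i => 1 - ex (β * (i : ℝ))) := by
    rw [tv_sub, tv_const K hK]
    rfl
  have h2 : ∀ i : ℕ, ‖1 - ex (β * (i : ℝ))‖ ≤ 2 * Real.pi * |β| * i := by
    intro i
    rw [norm_sub_rev, norm_ex_sub_one]
    have h3 : |Real.sin (Real.pi * (β * (i : ℝ)))| ≤ |Real.pi * (β * (i : ℝ))| :=
      Real.abs_sin_le_abs
    rw [abs_mul, abs_of_pos Real.pi_pos, abs_mul, Nat.abs_cast] at h3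
    linarith
  rw [h1]
  refine (norm_tv_le K _).trans ?_
  refine (tvr_mono K (fun i _ => h2 i)).trans ?_
  unfold tvr
  rw [div_le_iff₀ hK0, ← mul_sum]
  have h4 : (∑ i ∈ range K, (i : ℝ)) * 2 ≤ K * K := by
    have h5 := Finset.sum_range_id_mul_two K
    have h6 : (∑ i ∈ range K, (i : ℝ)) * 2 = ((K * (K - 1) : ℕ) : ℝ) := by
      rw [← h5]
      push_cast
      rfl
    rw [h6]
    exact_mod_cast Nat.mul_le_mul_left K (Nat.sub_le K 1)
  have h7 : 0 ≤ Real.pi * |β| := mul_nonneg Real.pi_pos.le (abs_nonneg _)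
  calc 2 * Real.pi * |β| * ∑ i ∈ range K, (i : ℝ) =
      Real.pi * |β| * ((∑ i ∈ range K, (i : ℝ)) * 2) := by ring
    _ ≤ Real.pi * |β| * (K * K) := mul_le_mul_of_nonneg_left h4 h7
    _ = Real.pi * K * |β| * K := by ring

/-- A box of length `g K` is a box of length `g` followed by a box of difference `g` and length `K`. -/
theorem dk_mul (g K : ℕ) (α : ℝ) : dk (g * K) α = dk g α * dk K (g * α) := by
  have h : ∀ K : ℕ, ∑ t ∈ range (g * K), ex (α * (t : ℝ)) =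
      (∑ t ∈ range g, ex (α * (t : ℝ))) * ∑ t ∈ range K, ex (g * α * (t : ℝ)) := by
    intro K
    induction K with
    | zero => simp
    | succ K ih =>
      rw [Nat.mul_succ, sum_range_add, ih, sum_range_succ, mul_add]
      congr 1
      rw [sum_mul]
      refine sum_congr rfl fun t _ => ?_
      rw [← ex_add]
      congr 1
      push_cast
      ring
  unfold dk tv
  rw [h K, div_mul_div_comm, Nat.cast_mul]

namespace DkBAux

theorem mul_sum {ι : Type} (s : Finset ι) (g : ι → ℤ →₀ ℂ) (θ : ℝ) :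
    mul (∑ i ∈ s, g i) θ = ∑ i ∈ s, mul (g i) θ := by
  unfold mul
  exact (Finsupp.sum_finsetSum_index (h := fun (v : ℤ) (b : ℂ) => b * ex (θ * (v : ℝ)))
    (fun _ => zero_mul _) (fun _ _ _ => add_mul _ _ _)).symm

theorem mul_single (v : ℤ) (c : ℂ) (θ : ℝ) : mul (Finsupp.single v c) θ = c * ex (θ * (v : ℝ)) :=
  Finsupp.sum_single_index (zero_mul _)

theorem mass_eq (β : ℤ →₀ ℂ) (S : Finset ℤ) (h : β.support ⊆ S) : mass β = ∑ v ∈ S, ‖β v‖ := by
  unfold mass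
  exact Finsupp.sum_of_support_subset β h _ (fun _ _ => norm_zero)

theorem mass_single (v : ℤ) (c : ℂ) : mass (Finsupp.single v c) = ‖c‖ :=
  Finsupp.sum_single_index norm_zero

end DkBAux

open DkBAux

theorem mul_bk (q K : ℕ) (θ : ℝ) : mul (bk q K) θ = dk K (q * θ) := by
  unfold bk
  rw [DkBAux.mul_sum]
  unfold dk tv
  rw [Finset.sum_div]
  refine sum_congr rfl fun i _ => ?_
  rw [mul_single, one_div_mul_eq_div]
  congr 2
  push_cast
  ring

theorem mul_dlt (θ : ℝ) : mul dlt θ = 1 := by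
  unfold dlt
  rw [mul_single, Int.cast_zero, mul_zero, ex_zero, one_mul]

theorem mul_add' (β γ : ℤ →₀ ℂ) (θ : ℝ) : mul (β + γ) θ = mul β θ + mul γ θ := by
  unfold mul
  exact Finsupp.sum_add_index' (fun _ => zero_mul _) (fun _ _ _ => add_mul _ _ _)

theorem mul_sub' (β γ : ℤ →₀ ℂ) (θ : ℝ) : mul (β - γ) θ = mul β θ - mul γ θ := by
  unfold mul
  exact Finsupp.sum_sub_index (fun _ _ _ => sub_mul _ _ _)

theorem mass_nonneg (β : ℤ →₀ ℂ) : 0 ≤ mass β := by
  rw [mass_eq β β.support (subset_refl _)]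
  exact sum_nonneg fun _ _ => norm_nonneg _

theorem mass_add_le (β γ : ℤ →₀ ℂ) : mass (β + γ) ≤ mass β + mass γ := by
  rw [mass_eq (β + γ) (β.support ∪ γ.support) Finsupp.support_add,
    mass_eq β _ subset_union_left, mass_eq γ _ subset_union_right, ← sum_add_distrib]
  exact sum_le_sum fun v _ => norm_add_le _ _

theorem mass_sub_le (β γ : ℤ →₀ ℂ) : mass (β - γ) ≤ mass β + mass γ := by
  rw [mass_eq (β - γ) (β.support ∪ γ.support) Finsupp.support_sub,
    mass_eq β _ subset_union_left, mass_eq γ _ subset_union_right, ← sum_add_distrib]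
  exact sum_le_sum fun v _ => norm_sub_le _ _

theorem mass_dlt : mass dlt = 1 := by
  unfold dlt
  rw [mass_single, norm_one]

namespace DkBAux

theorem mass_sum_le {ι : Type} (s : Finset ι) (g : ι → ℤ →₀ ℂ) :
    mass (∑ i ∈ s, g i) ≤ ∑ i ∈ s, mass (g i) := by
  classical
  induction s using Finset.induction_on with
  | empty => simp [mass]
  | insert a s ha ih =>
    rw [sum_insert ha, sum_insert ha]
    exact (mass_add_le _ _).trans (add_le_add le_rfl ih)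

end DkBAux

theorem mass_bk_le (q K : ℕ) : mass (bk q K) ≤ 1 := by
  unfold bk
  refine (mass_sum_le _ _).trans ?_
  simp only [mass_single, sum_const, card_range, nsmul_eq_mul]
  rw [norm_div, norm_one, Complex.norm_natCast]
  rcases Nat.eq_zero_or_pos K with hK | hK
  · subst hK
    simp
  · have hK0 : (K : ℝ) ≠ 0 := by exact_mod_cast hK.ne'
    rw [mul_one_div_cancel hK0]

theorem supp_dlt (L : ℕ) : Supp L dlt := by
  intro v hv
  unfold dlt at hv
  rw [Finsupp.single_apply] at hv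
  split_ifs at hv with h
  · rw [← h]
    simp
  · exact absurd rfl hv

theorem supp_bk (q K L : ℕ) (h : q * K ≤ L) : Supp L (bk q K) := by
  intro v hv
  unfold bk at hv
  rw [Finsupp.finsetSum_apply] at hv
  obtain ⟨i, hi, h1⟩ := exists_ne_zero_of_sum_ne_zero hv
  rw [Finsupp.single_apply] at h1
  split_ifs at h1 with h2
  · rw [← h2, Int.natAbs_natCast]
    rw [mem_range] at hi
    exact (Nat.mul_le_mul_left q hi.le).trans h
  · exact absurd rfl h1

theorem supp_sub (L : ℕ) (β γ : ℤ →₀ ℂ) (h : Supp L β) (h' : Supp L γ) : Supp L (β - γ) := by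
  intro v hv
  by_cases h1 : β v = 0
  · refine h' v fun h2 => hv ?_
    rw [Finsupp.sub_apply, h1, h2, sub_zero]
  · exact h v h1

section group

variable {M : ℕ} [NeZero M]

namespace DkBAux

theorem cv_sum {ι : Type} (s : Finset ι) (g : ι → ℤ →₀ ℂ) (f : ZMod M → ℂ) (x : ZMod M) :
    cv (∑ i ∈ s, g i) f x = ∑ i ∈ s, cv (g i) f x := by
  unfold cv
  exact (Finsupp.sum_finsetSum_index (h := fun (v : ℤ) (b : ℂ) => b * f (x + (v : ZMod M)))
    (fun _ => zero_mul _) (fun _ _ _ => add_mul _ _ _)).symm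

theorem cv_single (v : ℤ) (c : ℂ) (f : ZMod M → ℂ) (x : ZMod M) :
    cv (Finsupp.single v c) f x = c * f (x + (v : ZMod M)) :=
  Finsupp.sum_single_index (zero_mul _)

end DkBAux

theorem cv_bk (q K : ℕ) (f : ZMod M → ℂ) : cv (bk q K) f = Eb q K f := by
  funext x
  unfold bk
  rw [cv_sum]
  unfold Eb tv
  rw [Finset.sum_div]
  refine sum_congr rfl fun i _ => ?_
  rw [cv_single, one_div_mul_eq_div, Int.cast_natCast]

theorem cv_dlt (f : ZMod M → ℂ) : cv dlt f = f := by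
  funext x
  unfold dlt
  rw [cv_single, Int.cast_zero, add_zero, one_mul]

theorem cv_add (β γ : ℤ →₀ ℂ) (f : ZMod M → ℂ) (x : ZMod M) : cv (β + γ) f x = cv β f x + cv γ f x := by
  unfold cv
  exact Finsupp.sum_add_index' (fun _ => zero_mul _) (fun _ _ _ => add_mul _ _ _)

theorem cv_sub (β γ : ℤ →₀ ℂ) (f : ZMod M → ℂ) (x : ZMod M) : cv (β - γ) f x = cv β f x - cv γ f x := by
  unfold cv
  exact Finsupp.sum_sub_index (fun _ _ _ => sub_mul _ _ _)

theorem cv_fun_add (β : ℤ →₀ ℂ) (f g : ZMod M → ℂ) (x : ZMod M) :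
    cv β (fun y => f y + g y) x = cv β f x + cv β g x := by
  unfold cv Finsupp.sum
  rw [← sum_add_distrib]
  exact sum_congr rfl fun v _ => mul_add _ _ _

theorem cv_fun_mul (β : ℤ →₀ ℂ) (c : ℂ) (f : ZMod M → ℂ) (x : ZMod M) : cv β (fun y => c * f y) x = c * cv β f x := by
  unfold cv Finsupp.sum
  rw [Finset.mul_sum]
  exact sum_congr rfl fun v _ => by ring

theorem norm_cv_le (β : ℤ →₀ ℂ) (f : ZMod M → ℂ) (c : ℝ) (hf : ∀ x, ‖f x‖ ≤ c) (x : ZMod M) : ‖cv β f x‖ ≤ mass β * c := by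
  unfold cv mass Finsupp.sum
  rw [Finset.sum_mul]
  refine norm_sum_le_of_le _ fun v _ => ?_
  rw [norm_mul]
  exact mul_le_mul_of_nonneg_left (hf _) (norm_nonneg _)

theorem ft_cv (β : ℤ →₀ ℂ) (f : ZMod M → ℂ) (ξ : ZMod M) : ft (cv β f) ξ = mul β ((ξ.val : ℝ) / M) * ft f ξ := by
  have h1 : (fun x => cv β f x * chi (-ξ) x) =
      fun x => ∑ v ∈ β.support, β v * (f (x + (v : ZMod M)) * chi (-ξ) x) := by
    funext x
    unfold cv Finsupp.sum
    rw [Finset.sum_mul]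
    exact sum_congr rfl fun v _ => mul_assoc _ _ _
  have h2 : ft (cv β f) ξ = ∑ v ∈ β.support, β v * ft (fun x => f (x + (v : ZMod M))) ξ := by
    unfold ft
    rw [h1, av_sum]
    exact sum_congr rfl fun v _ => av_mul_left _ _
  rw [h2]
  unfold mul Finsupp.sum
  rw [Finset.sum_mul]
  refine sum_congr rfl fun v _ => ?_
  rw [ft_shift, chi_int, mul_comm ((v : ℤ) : ℝ)]
  ring

theorem n2_eq_ft (f : ZMod M → ℂ) : n2 f = ∑ ξ, ‖ft f ξ‖ ^ 2 := (parseval f).symm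

theorem n2_cv (β : ℤ →₀ ℂ) (f : ZMod M → ℂ) : n2 (cv β f) = ∑ ξ : ZMod M, ‖mul β ((ξ.val : ℝ) / M)‖ ^ 2 * ‖ft f ξ‖ ^ 2 := by
  rw [n2_eq_ft]
  refine sum_congr rfl fun ξ _ => ?_
  rw [ft_cv, norm_mul, mul_pow]

theorem n2_cv_le (β : ℤ →₀ ℂ) (f : ZMod M → ℂ) (G : ℝ) (hG : ∀ θ, ‖mul β θ‖ ≤ G) (h0 : 0 ≤ G) : n2 (cv β f) ≤ G ^ 2 * n2 f := by
  rw [n2_cv, n2_eq_ft, Finset.mul_sum]
  refine sum_le_sum fun ξ _ => ?_
  exact mul_le_mul_of_nonneg_right (pow_le_pow_left₀ (norm_nonneg _) (hG _) 2) (sq_nonneg _)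

theorem sum_n2_cv_le (s : Finset ℕ) (β : ℕ → ℤ →₀ ℂ) (G : ℝ) (hG : ∀ θ, ∑ j ∈ s, ‖mul (β j) θ‖ ^ 2 ≤ G)
    (f : ZMod M → ℂ) : ∑ j ∈ s, n2 (cv (β j) f) ≤ G * n2 f := by
  simp only [n2_cv]
  rw [sum_comm, n2_eq_ft, Finset.mul_sum]
  refine sum_le_sum fun ξ _ => ?_
  rw [← Finset.sum_mul]
  exact mul_le_mul_of_nonneg_right (hG _) (sq_nonneg _)

theorem ft_Eb (q K : ℕ) (f : ZMod M → ℂ) (ξ : ZMod M) : ft (Eb q K f) ξ = dk K (q * ((ξ.val : ℝ) / M)) * ft f ξ := by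
  rw [← cv_bk, ft_cv, mul_bk]

theorem n2_nonneg (f : ZMod M → ℂ) : 0 ≤ n2 f := avr_nonneg fun _ => sq_nonneg _

theorem n2_le_of_Bd (f : ZMod M → ℂ) (hf : Bd f) : n2 f ≤ 1 :=
  avr_le fun x => pow_le_one₀ (norm_nonneg _) (hf x)

/-- Minkowski in the form used here. -/
theorem n2_add_le (f g : ZMod M → ℂ) : n2 (fun x => f x + g x) ≤ 2 * n2 f + 2 * n2 g := by
  unfold n2
  rw [← avr_mul_left, ← avr_mul_left, ← avr_add]
  refine avr_mono fun x => ?_
  have h := norm_add_le (f x) (g x)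
  have h1 := norm_nonneg (f x + g x)
  have h2 : ‖f x + g x‖ ^ 2 ≤ (‖f x‖ + ‖g x‖) ^ 2 := pow_le_pow_left₀ h1 h 2
  nlinarith [sq_nonneg (‖f x‖ - ‖g x‖)]

theorem sqrt_n2_add_le (f g : ZMod M → ℂ) : Real.sqrt (n2 (fun x => f x + g x)) ≤ Real.sqrt (n2 f) + Real.sqrt (n2 g) := by
  have hM : (0 : ℝ) < (M : ℝ) := by
    have := NeZero.pos M
    exact_mod_cast this
  have h1 : n2 (fun x => f x + g x) ≤ n2 f + n2 g + 2 * avr (fun x => ‖f x‖ * ‖g x‖) := by
    unfold n2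
    rw [← avr_mul_left, ← avr_add, ← avr_add]
    refine avr_mono fun x => ?_
    have h := norm_add_le (f x) (g x)
    have h2 : ‖f x + g x‖ ^ 2 ≤ (‖f x‖ + ‖g x‖) ^ 2 := pow_le_pow_left₀ (norm_nonneg _) h 2
    nlinarith
  have h2 : avr (fun x => ‖f x‖ * ‖g x‖) ≤ Real.sqrt (n2 f) * Real.sqrt (n2 g) := by
    rw [← Real.sqrt_mul (n2_nonneg f)]
    refine Real.le_sqrt_of_sq_le ?_
    have h3 := Finset.sum_mul_sq_le_sq_mul_sq (univ : Finset (ZMod M)) (fun x => ‖f x‖)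
      (fun x => ‖g x‖)
    unfold n2 avr
    rw [div_pow, div_mul_div_comm, ← sq]
    exact div_le_div_of_nonneg_right h3 (by positivity)
  have hf := Real.sq_sqrt (n2_nonneg f)
  have hg := Real.sq_sqrt (n2_nonneg g)
  refine Real.sqrt_le_iff.2 ⟨by positivity, ?_⟩
  calc n2 (fun x => f x + g x) ≤ n2 f + n2 g + 2 * avr (fun x => ‖f x‖ * ‖g x‖) := h1
    _ ≤ n2 f + n2 g + 2 * (Real.sqrt (n2 f) * Real.sqrt (n2 g)) := by linarith
    _ = (Real.sqrt (n2 f) + Real.sqrt (n2 g)) ^ 2 := by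
      rw [add_sq, hf, hg]
      ring

theorem sqrt_n2_sum_le {ι : Type} (s : Finset ι) (f : ι → ZMod M → ℂ) :
    Real.sqrt (n2 (fun x => ∑ i ∈ s, f i x)) ≤ ∑ i ∈ s, Real.sqrt (n2 (f i)) := by
  classical
  induction s using Finset.induction_on with
  | empty =>
    simp only [sum_empty]
    have h : n2 (fun _ : ZMod M => (0 : ℂ)) = 0 := by
      unfold n2
      simp only [norm_zero, ne_eq, OfNat.ofNat_ne_zero, not_false_eq_true, zero_pow]
      exact avr_const 0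
    rw [h, Real.sqrt_zero]
  | insert a s ha ih =>
    rw [sum_insert ha]
    have e : (fun x => ∑ i ∈ insert a s, f i x) = fun x => f a x + ∑ i ∈ s, f i x := by
      funext x
      rw [sum_insert ha]
    rw [e]
    exact (sqrt_n2_add_le _ _).trans (add_le_add le_rfl ih)

theorem n2_shift (f : ZMod M → ℂ) (h : ZMod M) : n2 (fun x => f (x + h)) = n2 f :=
  avr_shift (fun x => ‖f x‖ ^ 2) h

theorem avr_norm_le_sqrt_n2 (f : ZMod M → ℂ) : avr (fun x => ‖f x‖) ≤ Real.sqrt (n2 f) :=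
  Real.le_sqrt_of_sq_le (avr_sq_le _)

/-- The form in which square sums control a supremum over the scales. -/
theorem avr_choice_le (s : Finset ℕ) (D : ℕ → ZMod M → ℂ) (G : ℝ) (hG : ∑ j ∈ s, n2 (D j) ≤ G) (c : ZMod M → ℕ)
    (hc : ∀ x, c x ∈ s) : avr (fun x => ‖D (c x) x‖) ≤ Real.sqrt G := by
  refine Real.le_sqrt_of_sq_le ((avr_sq_le _).trans (le_trans ?_ hG))
  unfold n2
  rw [← avr_sum s (fun j x => ‖D j x‖ ^ 2)]
  refine avr_mono fun x => ?_
  exact single_le_sum (f := fun j => ‖D j x‖ ^ 2) (fun j _ => sq_nonneg _) (hc x)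

end group

end Pool.Agent.EQD
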