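import Pool.Agent.Lib.EQD.Kern
import Pool.Agent.Lib.NLT.Geo
import Pool.Agent.Lib.HLT.Geom

/-!
# EQD.DkE: estimates for the Dirichlet averages; the kernel `dlt - bk q g` removes the low structure

PROOFS.
* `norm_dk_le_one`: average of numbers of modulus one (`K = 0`: `0`).
* `norm_one_sub_dk_le`: `1 - dk K α = tv K (1 - ex (α i))` (`K ≥ 1`); `ex (α i)` depends only on `α` mod 1 so `α` may be replaced by
  `α - round α`, `‖1 - ex β‖ ≤ 2 π |β|` (`Complex.norm_exp_I_mul_ofReal_sub_one_le` or `norm_exp_sub_one`), `i < K`, hence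
  `≤ 2 π K nrm α ≤ 8 K nrm α`.
* `norm_dk_le`: geometric series: `|∑_{i<K} ex (α i)| ≤ 2 / |1 - ex α|` and `|1 - ex α| ≥ 4 nrm α`; or `HLT.geom` (`mn`): the bound
  `mn K α ≤ 1 / (2 nrm α)`. (Sum over `range K` versus `Icc 1 K`: multiply by `ex α`.)
* `dk_mul_le`: let `q = r q'`, `u = nrm (r θ)`; `nrm (q θ) ≤ q' u` (`nrm_int_mul_le`), so the first factor is `≤ 8 K q' u`; if `u = 0`
  the product is `0`; else the second factor is `≤ 1 / (2 J u)`. Product `≤ 4 K q' / J = 4 K q / (r J)`.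
* `NS_diff`: `r ≤ R ^ C` divides `q`. `mul (dlt - bk q g) θ = 1 - dk g (q θ)` (`mul_sub`, `mul_dlt`, `mul_bk`); `dk_mul_le` with
  `J = L / R ^ C` (natural number division, `≥ 1`) gives `≤ 4 g q / (r J) ≤ 4 q g / J`; `J ≥ L / (2 R ^ C)` (as `L ≥ R ^ C`), so the product is
  `≤ 8 q g R ^ C / L ≤ 1 / (2 R ^ C)` because `16 R^(2C) q g ≤ L`. (If `q = 0` or so the hypothesis `hq` still makes sense; `q g = 0` is harmless.)
* `dk_diff_le`, `dk_diff_le'`: `‖dk K α - dk K' α‖ ≤ ‖1 - dk K α‖ + ‖1 - dk K' α‖` and `≤ ‖dk K α‖ + ‖dk K' α‖`.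
-/

set_option autoImplicit false

open Finset Polynomial

namespace Pool.Agent.EQD.Lo

open Pool.Agent.HLT Pool.Agent.NLT Pool.Agent.NLG

lemma norm_dk_le_one (K : ℕ) (α : ℝ) : ‖dk K α‖ ≤ 1 :=
  norm_tv_le_one K _ (fun _ => (norm_ex _).le)

lemma norm_one_sub_dk_le (K : ℕ) (hK : 1 ≤ K) (α : ℝ) : ‖1 - dk K α‖ ≤ 8 * K * nrm α := by
  have h0 := nrm_nonneg α
  have h1 : 1 - dk K α = tv K (fun i => 1 - ex (α * (i : ℝ))) := by
    rw [tv_sub, tv_const K hK]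
    rfl
  rw [h1]
  refine (norm_tv_le K _).trans (tvr_le K (by positivity) (fun t ht => ?_))
  rw [norm_sub_rev]
  refine (norm_ex_sub_one_le _).trans ?_
  have h2 : nrm (α * (t : ℝ)) ≤ (t : ℝ) * nrm α := by
    have h3 := nrm_int_mul_le (t : ℤ) α
    push_cast at h3
    rw [abs_of_nonneg (Nat.cast_nonneg t)] at h3
    rwa [mul_comm α]
  have h4 : (t : ℝ) ≤ K := by exact_mod_cast ht.le
  have h5 : (t : ℝ) * nrm α ≤ K * nrm α := mul_le_mul_of_nonneg_right h4 h0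
  have h6 : 0 ≤ (K : ℝ) * nrm α := by positivity
  linarith

lemma norm_dk_le (K : ℕ) (hK : 1 ≤ K) (α : ℝ) (hα : 0 < nrm α) : ‖dk K α‖ ≤ 1 / (2 * K * nrm α) := by
  have hK0 : (0 : ℝ) < K := by exact_mod_cast hK
  have h := geo_Ico 0 K α 0
  rw [← range_eq_Ico] at h
  have h1 : ∑ t ∈ range K, ex ((t : ℝ) * α + 0) = ∑ t ∈ range K, ex (α * (t : ℝ)) := by
    refine sum_congr rfl (fun t _ => ?_)
    rw [add_zero, mul_comm]
  rw [h1] at h
  have h2 : ‖dk K α‖ = ‖∑ t ∈ range K, ex (α * (t : ℝ))‖ / K := by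
    unfold dk tv
    rw [norm_div, Complex.norm_natCast]
  rw [h2, div_le_div_iff₀ hK0 (by positivity)]
  have h3 : ‖∑ t ∈ range K, ex (α * (t : ℝ))‖ * (2 * K * nrm α) =
      (2 * nrm α * ‖∑ t ∈ range K, ex (α * (t : ℝ))‖) * K := by ring
  rw [h3]
  exact mul_le_mul_of_nonneg_right h hK0.le

lemma dk_mul_le (q r K J : ℕ) (hr : 1 ≤ r) (hrq : r ∣ q) (hK : 1 ≤ K) (hJ : 1 ≤ J) (θ : ℝ) :
    ‖1 - dk K ((q : ℝ) * θ)‖ * ‖dk J ((r : ℝ) * θ)‖ ≤ 4 * K * q / (r * J) := by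
  obtain ⟨q', rfl⟩ := hrq
  have hr0 : (0 : ℝ) < r := by exact_mod_cast hr
  have hK0 : (0 : ℝ) < K := by exact_mod_cast hK
  have hJ0 : (0 : ℝ) < J := by exact_mod_cast hJ
  have hq0 : (0 : ℝ) ≤ q' := Nat.cast_nonneg q'
  have h1 := norm_one_sub_dk_le K hK (((r * q' : ℕ) : ℝ) * θ)
  have h2 : nrm (((r * q' : ℕ) : ℝ) * θ) ≤ (q' : ℝ) * nrm ((r : ℝ) * θ) := by
    have h3 := nrm_int_mul_le (q' : ℤ) ((r : ℝ) * θ)
    push_cast at h3 ⊢
    rw [abs_of_nonneg hq0] at h3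
    rwa [show (r : ℝ) * (q' : ℝ) * θ = (q' : ℝ) * ((r : ℝ) * θ) by ring]
  have h3 : ‖1 - dk K (((r * q' : ℕ) : ℝ) * θ)‖ ≤ 8 * K * ((q' : ℝ) * nrm ((r : ℝ) * θ)) :=
    h1.trans (mul_le_mul_of_nonneg_left h2 (by positivity))
  have e1 : 4 * (K : ℝ) * ((r * q' : ℕ) : ℝ) / (r * J) = 4 * K * q' / J := by
    push_cast
    field_simp
  rw [e1]
  rcases (nrm_nonneg ((r : ℝ) * θ)).lt_or_eq with hu | hu
  · have h4 := norm_dk_le J hJ ((r : ℝ) * θ) hu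
    calc ‖1 - dk K (((r * q' : ℕ) : ℝ) * θ)‖ * ‖dk J ((r : ℝ) * θ)‖
        ≤ (8 * K * ((q' : ℝ) * nrm ((r : ℝ) * θ))) * (1 / (2 * J * nrm ((r : ℝ) * θ))) :=
          mul_le_mul h3 h4 (norm_nonneg _) (by positivity)
      _ = 4 * K * q' / J := by
          field_simp
          ring
  · rw [← hu, mul_zero, mul_zero] at h3
    have h4 : ‖1 - dk K (((r * q' : ℕ) : ℝ) * θ)‖ = 0 := le_antisymm h3 (norm_nonneg _)
    rw [h4, zero_mul]
    positivity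

lemma dk_diff_le (K K' : ℕ) (hK : 1 ≤ K) (h : K ≤ K') (α : ℝ) : ‖dk K α - dk K' α‖ ≤ 16 * K' * nrm α := by
  have h0 := nrm_nonneg α
  have h1 := norm_one_sub_dk_le K hK α
  have h2 := norm_one_sub_dk_le K' (hK.trans h) α
  have h3 : dk K α - dk K' α = (1 - dk K' α) - (1 - dk K α) := by ring
  rw [h3]
  refine (norm_sub_le _ _).trans ?_
  have h4 : (K : ℝ) ≤ K' := by exact_mod_cast h
  have h5 : (K : ℝ) * nrm α ≤ K' * nrm α := mul_le_mul_of_nonneg_right h4 h0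
  linarith

lemma dk_diff_le' (K K' : ℕ) (hK : 1 ≤ K) (h : K ≤ K') (α : ℝ) (hα : 0 < nrm α) :
    ‖dk K α - dk K' α‖ ≤ 1 / (K * nrm α) := by
  have hK0 : (0 : ℝ) < K := by exact_mod_cast hK
  have h4 : (K : ℝ) ≤ K' := by exact_mod_cast h
  have h1 := norm_dk_le K hK α hα
  have h2 := norm_dk_le K' (hK.trans h) α hα
  have h3 : 1 / (2 * (K' : ℝ) * nrm α) ≤ 1 / (2 * K * nrm α) :=
    one_div_le_one_div_of_le (by positivity) (by gcongr)
  refine (norm_sub_le _ _).trans ?_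
  have h5 : 1 / ((K : ℝ) * nrm α) = 1 / (2 * K * nrm α) + 1 / (2 * K * nrm α) := by
    field_simp
    ring
  rw [h5]
  linarith

/-- The kernel `dlt - bk q g` removes the structure of height `R ^ C`, if `q` is divisible by all `r ≤ R ^ C`. -/
theorem NS_diff (C R L q g : ℕ) (hR : 1 ≤ R) (hg : 1 ≤ g) (hq : ∀ r, 1 ≤ r → r ≤ R ^ C → r ∣ q)
    (hL : 16 * R ^ (2 * C) * (q * g) ≤ L) : NS C R L (dlt - bk q g) := by
  intro r hr1 hrR θ
  have hRC : 0 < R ^ C := pow_pos hR C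
  have hRC' : (0 : ℝ) < (R : ℝ) ^ C := by exact_mod_cast hRC
  have hm : mul (dlt - bk q g) θ = 1 - dk g ((q : ℝ) * θ) := by
    rw [mul_sub, mul_dlt, mul_bk]
  rw [hm]
  rcases Nat.eq_zero_or_pos q with hq0 | hq0
  · have h1 := norm_one_sub_dk_le g hg ((q : ℝ) * θ)
    rw [hq0, Nat.cast_zero, zero_mul, nrm_zero, mul_zero] at h1
    rw [hq0, Nat.cast_zero, zero_mul, le_antisymm h1 (norm_nonneg _), zero_mul]
    positivity
  · have hJ : 16 * R ^ C * (q * g) ≤ L / R ^ C := by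
      rw [Nat.le_div_iff_mul_le hRC]
      refine le_trans (le_of_eq ?_) hL
      rw [two_mul, pow_add]
      ring
    have hqg : 1 ≤ q * g := Nat.mul_pos hq0 hg
    have hJ1 : 1 ≤ L / R ^ C := by
      refine le_trans ?_ hJ
      have h2 : 1 ≤ 16 * R ^ C := by omega
      exact Nat.mul_le_mul h2 hqg
    have h3 := dk_mul_le q r g (L / R ^ C) hr1 (hq r hr1 hrR) hg hJ1 θ
    refine h3.trans ?_
    have hr0 : (1 : ℝ) ≤ r := by exact_mod_cast hr1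
    obtain ⟨J, hJd⟩ : ∃ J, J = L / R ^ C := ⟨_, rfl⟩
    rw [← hJd] at hJ hJ1 ⊢
    have hJ0 : (0 : ℝ) < J := by exact_mod_cast hJ1
    have hJr : 16 * (R : ℝ) ^ C * (q * g) ≤ J := by exact_mod_cast hJ
    rw [div_le_div_iff₀ (by positivity) (by positivity)]
    have h5 : (J : ℝ) ≤ r * J := by nlinarith
    have h6 : (0 : ℝ) ≤ (R : ℝ) ^ C * (q * g) := by positivity
    nlinarith

end Pool.Agent.EQD.Lo
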