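import Pool.Agent.Lib.EQD.Kern

/-!
# EQD.Dyad: dyadic averages on `ZMod M`, `2 ^ L ∣ M`, and the comparison with box averages

`dy k f x` = average of `f` over the dyadic block of length `2 ^ k` which contains `x` (blocks of `{0, ..., M-1}`).

PROOFS. Throughout `k ≤ L`, `2 ^ L ∣ M`, so the blocks of length `2 ^ k` partition `{0, ..., M-1}` and are nested.
* `dy_zero`, `dy_const`, `dy_dy`, `dy_dy'`: direct (a block of length `2^l` is the disjoint union of `2^(l-k)` blocks of length `2^k`).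
* `av_dy_mul`: sum over each block first.
* `n2_pyth`: `dy k f - dy l f` is orthogonal to `dy l f` (`av_dy_mul` for `l`: `av (dy l f * conj (dy k f - dy l f)) = av (dy l f * conj (dy l (dy k f - dy l f))) = 0`).
* `n2_sum`: telescoping of `n2_pyth` (`k`, `k+1`).
* `cmpA` (`d = dy i d`, `k ≤ i ≤ L`, `K < 2^(k+1)`): by Cauchy-Schwarz `‖Eb 1 K d z - d z‖² ≤ (1/K) ∑_{a<K} ‖d (z + a) - d z‖²`. For
  `a ≤ 2^i` the difference vanishes unless `z` is one of the last `a` points of its block of level `i`; as `d` is constant on the blocks,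
  `avr (1_{last a} ‖d‖²) = (a / 2^i) n2 d`, and the same for `‖d (z + a)‖²` (`z + a` runs through the first `a` points); so
  `avr ‖d (z + a) - d z‖² ≤ 4 (a / 2^i) n2 d`; for `a > 2^i` it is `≤ 4 n2 d ≤ 4 (a / 2^i) n2 d`. As `a < K ≤ 2^(k+1)`: `≤ 8 * 2^k / 2^i * n2 d`.
* `cmpB` (`dy (i+1) d = 0`, `i < k`, `2^k ≤ K`): in `∑_{a<K} d (z + a)` all complete blocks of level `i + 1` contribute `0`; what remains are
  the first `< 2^(i+1)` and the last `< 2^(i+1)` terms. So `‖Eb 1 K d z‖² ≤ (2 / K²) 2^(i+1) (∑_{a < 2^(i+1)} ‖d (z+a)‖² + ∑_{K-2^(i+1) ≤ a < K} ‖d (z+a)‖²)`;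
  average over `z`: `≤ 16 * 4^i / K² * n2 d ≤ 16 * 4^i / 4^k * n2 d`.
* `cmp_sum`: let `k_j = Nat.log 2 (K j)`, `d_i = dy i f - dy (i+1) f` (`i < L`), `d_L = dy L f`, `δ_i = n2 d_i`; `f = ∑_{i ≤ L} d_i`
  (`dy_zero`), `∑ δ_i = n2 f` (`n2_sum`). `T_j = Eb 1 (K j) - dy k_j`. For `i ≥ k_j`: `dy k_j d_i = d_i`, `n2 (T_j d_i) ≤ 8 * 2^(k_j - i) δ_i` (`cmpA`);
  for `i < k_j`: `dy k_j d_i = 0`, `n2 (T_j d_i) ≤ 16 * 4^(i-k_j) δ_i ≤ 16 * 2^(i - k_j) δ_i` (`cmpB`). So with `ω = 2^(-|i-k_j|/2)`: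
  `√n2 (T_j f) ≤ ∑_i 4 ω(i,j) √δ_i`, hence `n2 (T_j f) ≤ 16 (∑_i ω(i,j)) (∑_i ω(i,j) δ_i)`; `∑_{m ∈ ℤ} 2^(-|m|/2) ≤ 6`; sum over `j`: each value `k_j` is
  taken at most 4 times: `∑_j ω(i,j) ≤ 24`. Total `16 * 6 * 24 * n2 f = 2304 n2 f`. (To avoid square roots of 2 use
  `‖∑_i a_i‖² ≤ (∑_i c_i) (∑_i ‖a_i‖² / c_i)` pointwise with `c_i = (3/4)^|i-k_j|`: `∑ c_i ≤ 7`, `2^(-m) / (3/4)^m = (2/3)^m`, `∑ (2/3)^|m| ≤ 5`: total
  `7 * 16 * 4 * 5 = 2240`.)
-/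

set_option autoImplicit false
set_option linter.unusedSectionVars false

open Finset Polynomial

namespace Pool.Agent.EQD.Lo

open Pool.Agent.HLT Pool.Agent.NLT Pool.Agent.NLG

variable {M : ℕ} [NeZero M]

/-- Average over the dyadic block of length `2 ^ k` containing `x`. -/
noncomputable def dy (k : ℕ) (f : ZMod M → ℂ) (x : ZMod M) : ℂ :=
  tv (2 ^ k) (fun i => f (((x.val / 2 ^ k) * 2 ^ k + i : ℕ) : ZMod M))

namespace DyadAux

theorem tv_congr {H : ℕ} {F G : ℕ → ℂ} (h : ∀ t < H, F t = G t) : tv H F = tv H G := by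
  unfold tv
  rw [Finset.sum_congr rfl fun t ht => h t (mem_range.mp ht)]

/-- Sum over `ZMod M` as a sum over `range M`. -/
theorem sum_zmod {β : Type*} [AddCommMonoid β] (G : ZMod M → β) :
    ∑ x, G x = ∑ n ∈ range M, G (n : ZMod M) := by
  refine Finset.sum_nbij' (fun x => x.val) (fun n => (n : ZMod M)) ?_ ?_ ?_ ?_ ?_
  · intro x _
    exact mem_range.mpr (ZMod.val_lt x)
  · intro n _
    exact mem_univ _
  · intro x _
    exact ZMod.natCast_zmod_val x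
  · intro n hn
    exact ZMod.val_natCast_of_lt (mem_range.mp hn)
  · intro x _
    rw [ZMod.natCast_zmod_val]

theorem sum_rng_mul {β : Type*} [AddCommMonoid β] (m n : ℕ) (F : ℕ → β) :
    ∑ i ∈ range (m * n), F i = ∑ a ∈ range m, ∑ c ∈ range n, F (a * n + c) := by
  induction m with
  | zero => simp
  | succ m ih => rw [add_mul, one_mul, Finset.sum_range_add, ih, Finset.sum_range_succ]

theorem sum_blk {β : Type*} [AddCommMonoid β] {k : ℕ} (h : 2 ^ k ∣ M) (G : ZMod M → β) :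
    ∑ x, G x = ∑ q ∈ range (M / 2 ^ k), ∑ c ∈ range (2 ^ k), G ((q * 2 ^ k + c : ℕ) : ZMod M) := by
  rw [sum_zmod, ← sum_rng_mul (M / 2 ^ k) (2 ^ k) (fun i => G (i : ZMod M)), Nat.div_mul_cancel h]

theorem div_at {B : ℕ} (q : ℕ) {c : ℕ} (hc : c < B) : (q * B + c) / B = q := by
  rw [mul_comm, Nat.mul_add_div (by omega), Nat.div_eq_of_lt hc, add_zero]

theorem dy_nat {k : ℕ} (h : 2 ^ k ∣ M) (f : ZMod M → ℂ) (n : ℕ) :
    dy k f (n : ZMod M) = tv (2 ^ k) (fun i => f ((n / 2 ^ k * 2 ^ k + i : ℕ) : ZMod M)) := by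
  unfold dy
  refine tv_congr fun i _ => ?_
  congr 1
  rw [ZMod.val_natCast]
  obtain ⟨m, hm⟩ := h
  have h1 : n = n % M + 2 ^ k * (m * (n / M)) := by
    calc n = n % M + M * (n / M) := (Nat.mod_add_div n M).symm
      _ = n % M + 2 ^ k * (m * (n / M)) := by
          rw [← mul_assoc, ← hm]
  have h2 : n / 2 ^ k = n % M / 2 ^ k + m * (n / M) := by
    conv_lhs => rw [h1]
    rw [Nat.add_mul_div_left _ _ (by positivity)]
  have h3 : n / 2 ^ k * 2 ^ k + i = (n % M / 2 ^ k * 2 ^ k + i) + M * (n / M) := by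
    rw [h2, add_mul, mul_right_comm, mul_comm m, ← hm]
    ring
  rw [h3, Nat.cast_add (n % M / 2 ^ k * 2 ^ k + i), Nat.cast_mul, ZMod.natCast_self, zero_mul,
    add_zero]

theorem dy_at {k : ℕ} (h : 2 ^ k ∣ M) (f : ZMod M → ℂ) (q : ℕ) {c : ℕ} (hc : c < 2 ^ k) :
    dy k f ((q * 2 ^ k + c : ℕ) : ZMod M) =
      tv (2 ^ k) (fun i => f ((q * 2 ^ k + i : ℕ) : ZMod M)) := by
  rw [dy_nat h, div_at q hc]

theorem val_at {k : ℕ} (h : 2 ^ k ∣ M) (x : ZMod M) {c : ℕ} (hc : c < 2 ^ k) :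
    ((x.val / 2 ^ k * 2 ^ k + c : ℕ) : ZMod M).val = x.val / 2 ^ k * 2 ^ k + c := by
  apply ZMod.val_natCast_of_lt
  obtain ⟨m, hm⟩ := h
  have h1 : x.val / 2 ^ k < m := by
    rw [Nat.div_lt_iff_lt_mul (by positivity), mul_comm, ← hm]
    exact ZMod.val_lt x
  calc x.val / 2 ^ k * 2 ^ k + c < x.val / 2 ^ k * 2 ^ k + 2 ^ k := by omega
    _ = (x.val / 2 ^ k + 1) * 2 ^ k := by ring
    _ ≤ m * 2 ^ k := Nat.mul_le_mul_right _ h1
    _ = M := by rw [mul_comm, ← hm]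

end DyadAux

open DyadAux

lemma dy_zero (f : ZMod M → ℂ) (x : ZMod M) : dy 0 f x = f x := by
  simp [dy, tv]

lemma dy_const (k : ℕ) (f : ZMod M → ℂ) (x y : ZMod M) (h : x.val / 2 ^ k = y.val / 2 ^ k) : dy k f x = dy k f y := by
  unfold dy
  rw [h]

lemma dy_dy {L k l : ℕ} (hL : 2 ^ L ∣ M) (hkl : k ≤ l) (hl : l ≤ L) (f : ZMod M → ℂ) (x : ZMod M) :
    dy l (dy k f) x = dy l f x := by
  have hk : 2 ^ k ∣ M := (pow_dvd_pow 2 (hkl.trans hl)).trans hL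
  have e : 2 ^ l = 2 ^ (l - k) * 2 ^ k := by rw [← pow_add, Nat.sub_add_cancel hkl]
  unfold dy tv
  congr 1
  set B := x.val / 2 ^ l with hB
  have e1 : ∀ F : ℕ → ℂ, ∑ i ∈ range (2 ^ l), F i =
      ∑ a ∈ range (2 ^ (l - k)), ∑ c ∈ range (2 ^ k), F (a * 2 ^ k + c) := by
    intro F
    rw [e, sum_rng_mul]
  rw [e1, e1]
  refine Finset.sum_congr rfl fun a _ => ?_
  have e2 : ∀ c, B * 2 ^ l + (a * 2 ^ k + c) = (B * 2 ^ (l - k) + a) * 2 ^ k + c := by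
    intro c
    rw [e]
    ring
  have e3 : ∀ c ∈ range (2 ^ k), (∑ t ∈ range (2 ^ k),
      f (((((B * 2 ^ l + (a * 2 ^ k + c) : ℕ) : ZMod M).val / 2 ^ k * 2 ^ k + t : ℕ) : ZMod M))) /
        ((2 ^ k : ℕ) : ℂ) = (∑ t ∈ range (2 ^ k),
          f (((B * 2 ^ (l - k) + a) * 2 ^ k + t : ℕ) : ZMod M)) / ((2 ^ k : ℕ) : ℂ) := by
    intro c hc
    have := dy_at hk f (B * 2 ^ (l - k) + a) (mem_range.mp hc)
    rw [← e2] at this
    exact this
  rw [Finset.sum_congr rfl e3, Finset.sum_const, card_range, nsmul_eq_mul,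
    mul_div_cancel₀]
  · refine Finset.sum_congr rfl fun c _ => ?_
    rw [e2]
  · exact_mod_cast (pow_pos (by norm_num) k).ne'

lemma dy_dy' {L k l : ℕ} (hL : 2 ^ L ∣ M) (hkl : k ≤ l) (hl : l ≤ L) (f : ZMod M → ℂ) (x : ZMod M) :
    dy k (dy l f) x = dy l f x := by
  have hk : 2 ^ k ∣ M := (pow_dvd_pow 2 (hkl.trans hl)).trans hL
  have h1 : dy k (dy l f) x = tv (2 ^ k) (fun _ => dy l f x) := by
    refine tv_congr fun i hi => ?_
    refine dy_const l f _ _ ?_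
    rw [val_at hk x hi]
    have e : 2 ^ l = 2 ^ k * 2 ^ (l - k) := by rw [← pow_add, Nat.add_sub_cancel' hkl]
    rw [e, ← Nat.div_div_eq_div_mul, ← Nat.div_div_eq_div_mul, div_at _ hi]
  rw [h1, tv_const _ Nat.one_le_two_pow]

lemma av_dy_mul {L k : ℕ} (hL : 2 ^ L ∣ M) (hk : k ≤ L) (f g : ZMod M → ℂ) :
    av (fun x => dy k f x * g x) = av (fun x => dy k f x * dy k g x) := by
  have hkM : 2 ^ k ∣ M := (pow_dvd_pow 2 hk).trans hL
  unfold av
  congr 1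
  rw [sum_blk hkM, sum_blk hkM]
  refine Finset.sum_congr rfl fun q _ => ?_
  have e1 : ∀ c ∈ range (2 ^ k), dy k f ((q * 2 ^ k + c : ℕ) : ZMod M) *
      g ((q * 2 ^ k + c : ℕ) : ZMod M) =
      tv (2 ^ k) (fun i => f ((q * 2 ^ k + i : ℕ) : ZMod M)) *
        g ((q * 2 ^ k + c : ℕ) : ZMod M) := by
    intro c hc
    rw [dy_at hkM f q (mem_range.mp hc)]
  have e2 : ∀ c ∈ range (2 ^ k), dy k f ((q * 2 ^ k + c : ℕ) : ZMod M) *
      dy k g ((q * 2 ^ k + c : ℕ) : ZMod M) =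
      tv (2 ^ k) (fun i => f ((q * 2 ^ k + i : ℕ) : ZMod M)) *
        tv (2 ^ k) (fun i => g ((q * 2 ^ k + i : ℕ) : ZMod M)) := by
    intro c hc
    rw [dy_at hkM f q (mem_range.mp hc), dy_at hkM g q (mem_range.mp hc)]
  rw [Finset.sum_congr rfl e1, Finset.sum_congr rfl e2, ← Finset.mul_sum, Finset.sum_const,
    card_range, nsmul_eq_mul]
  have h0 : ((2 ^ k : ℕ) : ℂ) ≠ 0 := by exact_mod_cast (pow_pos (by norm_num) k).ne'
  have e3 : ∑ c ∈ range (2 ^ k), g ((q * 2 ^ k + c : ℕ) : ZMod M) =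
      ((2 ^ k : ℕ) : ℂ) * tv (2 ^ k) (fun i => g ((q * 2 ^ k + i : ℕ) : ZMod M)) := by
    unfold tv
    rw [mul_div_cancel₀ _ h0]
  rw [e3]
  ring

namespace DyadAux

theorem dy_sub (k : ℕ) (f g : ZMod M → ℂ) (x : ZMod M) :
    dy k (fun y => f y - g y) x = dy k f x - dy k g x := by
  unfold dy
  rw [← tv_sub]

theorem dy_conj (k : ℕ) (f : ZMod M → ℂ) (x : ZMod M) :
    dy k (fun y => (starRingEnd ℂ) (f y)) x = (starRingEnd ℂ) (dy k f x) := by
  unfold dy tv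
  rw [map_div₀, map_sum, map_natCast]

theorem av_re (F : ZMod M → ℂ) : (av F).re = avr (fun x => (F x).re) := by
  unfold av avr
  rw [Complex.div_natCast_re, Complex.re_sum]

end DyadAux

lemma n2_pyth {L k l : ℕ} (hL : 2 ^ L ∣ M) (hkl : k ≤ l) (hl : l ≤ L) (f : ZMod M → ℂ) :
    n2 (dy k f) = n2 (dy l f) + n2 (fun x => dy k f x - dy l f x) := by
  have h0 : av (fun x => dy l f x * (starRingEnd ℂ) (dy k f x - dy l f x)) = 0 := by
    rw [av_dy_mul hL hl f (fun x => (starRingEnd ℂ) (dy k f x - dy l f x))]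
    have h1 : ∀ x, dy l (fun x => (starRingEnd ℂ) (dy k f x - dy l f x)) x = 0 := by
      intro x
      rw [dy_conj l (fun x => dy k f x - dy l f x), dy_sub, dy_dy hL hkl hl, dy_dy hL le_rfl hl,
        sub_self, map_zero]
    simp only [h1, mul_zero]
    exact av_const 0
  have h2 : avr (fun x => (dy l f x * (starRingEnd ℂ) (dy k f x - dy l f x)).re) = 0 := by
    rw [← av_re, h0, Complex.zero_re]
  have h3 : n2 (dy k f) = avr (fun x => (‖dy l f x‖ ^ 2 + ‖dy k f x - dy l f x‖ ^ 2) +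
      2 * (dy l f x * (starRingEnd ℂ) (dy k f x - dy l f x)).re) := by
    unfold n2
    congr 1
    funext x
    have e : dy k f x = dy l f x + (dy k f x - dy l f x) := by ring
    conv_lhs => rw [e]
    rw [← Complex.normSq_eq_norm_sq, Complex.normSq_add, Complex.normSq_eq_norm_sq,
      Complex.normSq_eq_norm_sq]
  rw [h3, avr_add, avr_add, avr_mul_left, h2, mul_zero, add_zero]
  rfl

lemma n2_sum {L : ℕ} (hL : 2 ^ L ∣ M) (f : ZMod M → ℂ) :
    n2 f = n2 (dy L f) + ∑ i ∈ range L, n2 (fun x => dy i f x - dy (i + 1) f x) := by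
  have h : ∀ m, m ≤ L → n2 f = n2 (dy m f) +
      ∑ i ∈ range m, n2 (fun x => dy i f x - dy (i + 1) f x) := by
    intro m
    induction m with
    | zero =>
      intro _
      have : dy 0 f = f := funext fun x => dy_zero f x
      rw [this, Finset.sum_range_zero, add_zero]
    | succ m ih =>
      intro hm
      rw [ih (by omega), Finset.sum_range_succ, n2_pyth hL (Nat.le_succ m) hm f]
      ring
  exact h L le_rfl

namespace DyadAux

theorem val_mod {i : ℕ} (h : 2 ^ i ∣ M) (n : ℕ) : (n : ZMod M).val % 2 ^ i = n % 2 ^ i := by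
  rw [ZMod.val_natCast, Nat.mod_mod_of_dvd _ h]

theorem mod_at {B : ℕ} (q : ℕ) {c : ℕ} (hc : c < B) : (q * B + c) % B = c := by
  rw [mul_comm, Nat.mul_add_mod, Nat.mod_eq_of_lt hc]

/-- Average of a block constant function over a part of the blocks. -/
theorem avr_frac {i : ℕ} (h : 2 ^ i ∣ M) (G : ZMod M → ℝ)
    (hG : ∀ q c : ℕ, c < 2 ^ i → G ((q * 2 ^ i + c : ℕ) : ZMod M) = G ((q * 2 ^ i : ℕ) : ZMod M))
    (u : ℕ → ℝ) :
    avr (fun x => u (x.val % 2 ^ i) * G x) = (∑ c ∈ range (2 ^ i), u c) / 2 ^ i * avr G := by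
  unfold avr
  rw [sum_blk h, sum_blk h, ← mul_div_assoc]
  congr 1
  rw [Finset.mul_sum]
  refine Finset.sum_congr rfl fun q _ => ?_
  have e1 : ∀ c ∈ range (2 ^ i), u ((((q * 2 ^ i + c : ℕ) : ZMod M)).val % 2 ^ i) *
      G ((q * 2 ^ i + c : ℕ) : ZMod M) = u c * G ((q * 2 ^ i : ℕ) : ZMod M) := by
    intro c hc
    rw [val_mod h, mod_at q (mem_range.mp hc), hG q c (mem_range.mp hc)]
  have e2 : ∀ c ∈ range (2 ^ i), G ((q * 2 ^ i + c : ℕ) : ZMod M) =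
      G ((q * 2 ^ i : ℕ) : ZMod M) := fun c hc => hG q c (mem_range.mp hc)
  rw [Finset.sum_congr rfl e1, Finset.sum_congr rfl e2, ← Finset.sum_mul, Finset.sum_const,
    card_range, nsmul_eq_mul]
  push_cast
  have : (2 : ℝ) ^ i ≠ 0 := by positivity
  field_simp

theorem two_sq (a b : ℂ) : ‖a - b‖ ^ 2 ≤ 2 * ‖b‖ ^ 2 + 2 * ‖a‖ ^ 2 := by
  have h1 : ‖a - b‖ ≤ ‖a‖ + ‖b‖ := norm_sub_le a b
  have h2 : 0 ≤ ‖a - b‖ := norm_nonneg _
  nlinarith [sq_nonneg (‖a‖ - ‖b‖), norm_nonneg a, norm_nonneg b]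

theorem d_at {i : ℕ} (h : 2 ^ i ∣ M) (d : ZMod M → ℂ) (hd : ∀ x, dy i d x = d x) (q : ℕ) {c : ℕ}
    (hc : c < 2 ^ i) : d ((q * 2 ^ i + c : ℕ) : ZMod M) = d ((q * 2 ^ i : ℕ) : ZMod M) := by
  rw [← hd ((q * 2 ^ i + c : ℕ) : ZMod M), dy_at h d q hc, ← hd ((q * 2 ^ i : ℕ) : ZMod M)]
  exact (dy_at h d q (c := 0) (by positivity)).symm

theorem n2_shift (d : ZMod M → ℂ) (a : ZMod M) : avr (fun x => ‖d (x + a)‖ ^ 2) = n2 d :=
  avr_shift (fun x => ‖d x‖ ^ 2) a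

theorem shift_small {i : ℕ} (h : 2 ^ i ∣ M) (d : ZMod M → ℂ) (hd : ∀ x, dy i d x = d x) (a : ℕ)
    (ha : a < 2 ^ i) :
    avr (fun x => ‖d (x + (a : ZMod M)) - d x‖ ^ 2) ≤ 4 * (a / 2 ^ i) * n2 d := by
  set B := 2 ^ i with hB
  have hB0 : 0 < B := by positivity
  let u1 : ℕ → ℝ := fun c => if B - a ≤ c then 1 else 0
  let u2 : ℕ → ℝ := fun c => if c < a then 1 else 0
  have hp : ∀ x : ZMod M, ‖d (x + (a : ZMod M)) - d x‖ ^ 2 ≤
      2 * (u1 (x.val % B) * ‖d x‖ ^ 2) +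
        2 * (u2 ((x + (a : ZMod M)).val % B) * ‖d (x + (a : ZMod M))‖ ^ 2) := by
    intro x
    have hu1 : ∀ c, 0 ≤ u1 c := fun c => by
      show (0 : ℝ) ≤ if B - a ≤ c then 1 else 0
      split_ifs <;> norm_num
    have hu2 : ∀ c, 0 ≤ u2 c := fun c => by
      show (0 : ℝ) ≤ if c < a then 1 else 0
      split_ifs <;> norm_num
    obtain ⟨n, hn⟩ : ∃ n : ℕ, x = (n : ZMod M) := ⟨x.val, (ZMod.natCast_zmod_val x).symm⟩
    have hxa : x + (a : ZMod M) = ((n + a : ℕ) : ZMod M) := by rw [hn]; push_cast; rfl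
    have hnm : n = n / B * B + n % B := by
      rw [mul_comm]; exact (Nat.div_add_mod n B).symm
    have hmB : n % B < B := Nat.mod_lt _ hB0
    rcases Nat.lt_or_ge (n % B + a) B with hlt | hge
    · have e1 : d x = d ((n / B * B : ℕ) : ZMod M) := by
        rw [hn]
        conv_lhs => rw [hnm]
        exact d_at h d hd (n / B) hmB
      have e2 : d (x + (a : ZMod M)) = d ((n / B * B : ℕ) : ZMod M) := by
        have h3 : n + a = n / B * B + (n % B + a) := by omega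
        rw [hxa, h3]
        exact d_at h d hd (n / B) hlt
      rw [e1, e2, sub_self, norm_zero, zero_pow two_ne_zero]
      have := hu1 (x.val % B)
      have := hu2 ((x + (a : ZMod M)).val % B)
      positivity
    · have h1 : u1 (x.val % B) = 1 := by
        show (if B - a ≤ x.val % B then (1 : ℝ) else 0) = 1
        rw [if_pos]
        rw [hn, val_mod h]
        show B - a ≤ n % B
        omega
      have h2 : u2 ((x + (a : ZMod M)).val % B) = 1 := by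
        show (if (x + (a : ZMod M)).val % B < a then (1 : ℝ) else 0) = 1
        rw [if_pos]
        rw [hxa, val_mod h]
        show (n + a) % B < a
        have h3 : n + a = (n / B + 1) * B + (n % B + a - B) := by
          rw [add_mul, one_mul]; omega
        rw [h3, mod_at _ (by omega)]
        omega
      rw [h1, h2, one_mul, one_mul]
      exact two_sq _ _
  refine (avr_mono hp).trans ?_
  have hG : ∀ q c : ℕ, c < 2 ^ i → ‖d ((q * 2 ^ i + c : ℕ) : ZMod M)‖ ^ 2 =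
      ‖d ((q * 2 ^ i : ℕ) : ZMod M)‖ ^ 2 := fun q c hc => by rw [d_at h d hd q hc]
  rw [avr_add, avr_mul_left, avr_mul_left,
    avr_shift (fun y : ZMod M => u2 (y.val % B) * ‖d y‖ ^ 2) (a : ZMod M),
    avr_frac h (fun x => ‖d x‖ ^ 2) hG u1, avr_frac h (fun x => ‖d x‖ ^ 2) hG u2]
  have s1 : ∑ c ∈ range (2 ^ i), u1 c = a := by
    show ∑ c ∈ range B, (if B - a ≤ c then (1 : ℝ) else 0) = a
    rw [Finset.sum_boole]
    have : (range B).filter (fun c => B - a ≤ c) = Ico (B - a) B := by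
      ext c
      simp only [mem_filter, mem_range, mem_Ico]
      tauto
    rw [this, Nat.card_Ico]
    congr 1
    omega
  have s2 : ∑ c ∈ range (2 ^ i), u2 c = a := by
    show ∑ c ∈ range B, (if c < a then (1 : ℝ) else 0) = a
    rw [Finset.sum_boole]
    have : (range B).filter (fun c => c < a) = range a := by
      ext c
      simp only [mem_filter, mem_range]
      omega
    rw [this, card_range]
  rw [s1, s2]
  have hBr : (B : ℝ) = 2 ^ i := by rw [hB]; push_cast; rfl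
  have hn2 : avr (fun x => ‖d x‖ ^ 2) = n2 d := rfl
  rw [hn2]
  linarith

theorem shift_all {i : ℕ} (h : 2 ^ i ∣ M) (d : ZMod M → ℂ) (hd : ∀ x, dy i d x = d x) (a : ℕ) :
    avr (fun x => ‖d (x + (a : ZMod M)) - d x‖ ^ 2) ≤ 4 * (a / 2 ^ i) * n2 d := by
  rcases Nat.lt_or_ge a (2 ^ i) with hlt | hge
  · exact shift_small h d hd a hlt
  · have h1 : avr (fun x => ‖d (x + (a : ZMod M)) - d x‖ ^ 2) ≤
        avr (fun x => 2 * ‖d x‖ ^ 2 + 2 * ‖d (x + (a : ZMod M))‖ ^ 2) :=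
      avr_mono fun x => two_sq _ _
    rw [avr_add, avr_mul_left, avr_mul_left, n2_shift] at h1
    have h2 : avr (fun x => ‖d x‖ ^ 2) = n2 d := rfl
    rw [h2] at h1
    have h3 : (1 : ℝ) ≤ a / 2 ^ i := by
      rw [one_le_div (by positivity)]
      exact_mod_cast hge
    have h4 : 0 ≤ n2 d := n2_nonneg d
    nlinarith

end DyadAux

lemma cmpA {L i k K : ℕ} (hL : 2 ^ L ∣ M) (hki : k ≤ i) (hi : i ≤ L) (hK1 : 1 ≤ K) (hK : K < 2 ^ (k + 1))
    (d : ZMod M → ℂ) (hd : ∀ x, dy i d x = d x) :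
    n2 (fun x => Eb 1 K d x - d x) ≤ 8 * 2 ^ k / 2 ^ i * n2 d := by
  have hiM : 2 ^ i ∣ M := (pow_dvd_pow 2 hi).trans hL
  have h1 : ∀ x, ‖Eb 1 K d x - d x‖ ^ 2 ≤ tvr K (fun a => ‖d (x + (a : ZMod M)) - d x‖ ^ 2) := by
    intro x
    have e : Eb 1 K d x - d x = tv K (fun a => d (x + (a : ZMod M)) - d x) := by
      rw [tv_sub, tv_const K hK1]
      unfold Eb
      simp only [one_mul]
    rw [e]
    exact norm_tv_sq_le _ _
  have h2 : n2 (fun x => Eb 1 K d x - d x) ≤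
      avr (fun x => tvr K (fun a => ‖d (x + (a : ZMod M)) - d x‖ ^ 2)) := avr_mono h1
  rw [← tvr_avr_comm] at h2
  refine h2.trans (tvr_le K ?_ ?_)
  · have := n2_nonneg d
    positivity
  · intro a ha
    refine (shift_all hiM d hd a).trans ?_
    refine mul_le_mul_of_nonneg_right ?_ (n2_nonneg d)
    have h3 : (a : ℝ) ≤ 2 * 2 ^ k := by
      have : a ≤ 2 ^ (k + 1) := by omega
      calc (a : ℝ) ≤ ((2 ^ (k + 1) : ℕ) : ℝ) := by exact_mod_cast this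
        _ = 2 * 2 ^ k := by push_cast; ring
    rw [← mul_div_assoc]
    refine div_le_div_of_nonneg_right ?_ (by positivity)
    linarith

namespace DyadAux

theorem cs (m : ℕ) (z : ℕ → ℂ) : ‖∑ c ∈ range m, z c‖ ^ 2 ≤ m * ∑ c ∈ range m, ‖z c‖ ^ 2 := by
  calc ‖∑ c ∈ range m, z c‖ ^ 2 ≤ (∑ c ∈ range m, ‖z c‖) ^ 2 :=
        pow_le_pow_left₀ (norm_nonneg _) (norm_sum_le _ _) 2
    _ ≤ ((range m).card : ℝ) * ∑ c ∈ range m, ‖z c‖ ^ 2 := sq_sum_le_card_mul_sum_sq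
    _ = m * ∑ c ∈ range m, ‖z c‖ ^ 2 := by rw [card_range]

/-- The real block average. -/
noncomputable def rd (k : ℕ) (d : ZMod M → ℂ) (x : ZMod M) : ℝ :=
  (dy k (fun y => ((‖d y‖ ^ 2 : ℝ) : ℂ)) x).re

theorem rd_nat {k : ℕ} (h : 2 ^ k ∣ M) (d : ZMod M → ℂ) (n : ℕ) :
    (2 ^ k : ℝ) * rd k d (n : ZMod M) =
      ∑ c ∈ range (2 ^ k), ‖d ((n / 2 ^ k * 2 ^ k + c : ℕ) : ZMod M)‖ ^ 2 := by
  unfold rd
  rw [dy_nat h]
  unfold tv
  rw [← Complex.ofReal_sum, Complex.div_natCast_re, Complex.ofReal_re]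
  push_cast
  have : (2 : ℝ) ^ k ≠ 0 := by positivity
  field_simp

theorem avr_rd {L k : ℕ} (hL : 2 ^ L ∣ M) (hk : k ≤ L) (d : ZMod M → ℂ) :
    avr (rd k d) = n2 d := by
  have h1 := av_dy_mul hL hk (fun _ => (1 : ℂ)) (fun y => ((‖d y‖ ^ 2 : ℝ) : ℂ))
  have h2 : ∀ x : ZMod M, dy k (fun _ => (1 : ℂ)) x = 1 := by
    intro x
    unfold dy
    exact tv_const _ Nat.one_le_two_pow 1
  simp only [h2, one_mul] at h1
  have h3 := congrArg Complex.re h1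
  rw [av_re, av_re] at h3
  simp only [Complex.ofReal_re] at h3
  exact h3.symm

theorem pre_le {k : ℕ} (h : 2 ^ k ∣ M) (d : ZMod M → ℂ) (hd : ∀ x, dy k d x = 0) (n : ℕ) :
    ‖∑ m ∈ range n, d (m : ZMod M)‖ ^ 2 ≤ (2 ^ k : ℝ) ^ 2 * rd k d (n : ZMod M) := by
  have hB0 : 0 < 2 ^ k := by positivity
  have h0 : ∀ q : ℕ, ∑ m ∈ range (q * 2 ^ k), d (m : ZMod M) = 0 := by
    intro q
    rw [sum_rng_mul q (2 ^ k) (fun m => d (m : ZMod M))]
    refine Finset.sum_eq_zero fun a _ => ?_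
    have h1 := dy_at h d a (c := 0) hB0
    rw [hd] at h1
    unfold tv at h1
    have h2 : ((2 ^ k : ℕ) : ℂ) ≠ 0 := by exact_mod_cast hB0.ne'
    have h3 := (div_eq_zero_iff.mp h1.symm).resolve_right h2
    exact h3
  have hnm : n = n / 2 ^ k * 2 ^ k + n % 2 ^ k := by
    rw [mul_comm]; exact (Nat.div_add_mod n (2 ^ k)).symm
  have e : ∑ m ∈ range n, d (m : ZMod M) =
      ∑ c ∈ range (n % 2 ^ k), d ((n / 2 ^ k * 2 ^ k + c : ℕ) : ZMod M) := by
    conv_lhs => rw [hnm]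
    rw [Finset.sum_range_add, h0, zero_add]
  rw [e]
  refine (cs _ _).trans ?_
  have h1 : ∑ c ∈ range (n % 2 ^ k), ‖d ((n / 2 ^ k * 2 ^ k + c : ℕ) : ZMod M)‖ ^ 2 ≤
      (2 ^ k : ℝ) * rd k d (n : ZMod M) := by
    rw [rd_nat h]
    refine Finset.sum_le_sum_of_subset_of_nonneg ?_ fun _ _ _ => by positivity
    exact Finset.range_subset_range.mpr (Nat.mod_lt _ hB0).le
  have h2 : ((n % 2 ^ k : ℕ) : ℝ) ≤ 2 ^ k := by exact_mod_cast (Nat.mod_lt n hB0).le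
  have h3 : 0 ≤ ∑ c ∈ range (n % 2 ^ k), ‖d ((n / 2 ^ k * 2 ^ k + c : ℕ) : ZMod M)‖ ^ 2 :=
    Finset.sum_nonneg fun _ _ => by positivity
  calc ((n % 2 ^ k : ℕ) : ℝ) * ∑ c ∈ range (n % 2 ^ k), ‖d ((n / 2 ^ k * 2 ^ k + c : ℕ) : ZMod M)‖ ^ 2
      ≤ 2 ^ k * ((2 ^ k : ℝ) * rd k d (n : ZMod M)) := mul_le_mul h2 h1 h3 (by positivity)
    _ = (2 ^ k : ℝ) ^ 2 * rd k d (n : ZMod M) := by ring

end DyadAux

lemma cmpB {L i k K : ℕ} (hL : 2 ^ L ∣ M) (hik : i < k) (hk : k ≤ L) (hK : 2 ^ k ≤ K)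
    (d : ZMod M → ℂ) (hd : ∀ x, dy (i + 1) d x = 0) :
    n2 (Eb 1 K d) ≤ 16 * 4 ^ i / 4 ^ k * n2 d := by
  have hiL : i + 1 ≤ L := by omega
  have hiM : 2 ^ (i + 1) ∣ M := (pow_dvd_pow 2 hiL).trans hL
  have hK0 : 0 < K := lt_of_lt_of_le (by positivity) hK
  have hKr : (0 : ℝ) < K := by exact_mod_cast hK0
  have hp : ∀ x : ZMod M, ‖Eb 1 K d x‖ ^ 2 ≤ 2 * (2 ^ (i + 1) : ℝ) ^ 2 / (K : ℝ) ^ 2 *
      (rd (i + 1) d x + rd (i + 1) d (x + (K : ZMod M))) := by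
    intro x
    obtain ⟨n, hn⟩ : ∃ n : ℕ, x = (n : ZMod M) := ⟨x.val, (ZMod.natCast_zmod_val x).symm⟩
    have e : Eb 1 K d x = (∑ m ∈ range (n + K), d (m : ZMod M) - ∑ m ∈ range n, d (m : ZMod M)) / K := by
      rw [Finset.sum_range_add, add_sub_cancel_left]
      unfold Eb tv
      congr 1
      refine Finset.sum_congr rfl fun a _ => ?_
      show d (x + ((1 * a : ℕ) : ZMod M)) = _
      rw [hn, one_mul, Nat.cast_add]
    have hK2 : x + (K : ZMod M) = ((n + K : ℕ) : ZMod M) := by rw [hn, Nat.cast_add]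
    rw [e, norm_div, Complex.norm_natCast, div_pow, div_mul_eq_mul_div]
    refine div_le_div_of_nonneg_right ?_ (by positivity)
    refine (two_sq _ _).trans ?_
    have h1 := pre_le hiM d hd n
    have h2 := pre_le hiM d hd (n + K)
    rw [← hK2] at h2
    rw [← hn] at h1
    have h3 : 2 * (2 ^ (i + 1) : ℝ) ^ 2 * (rd (i + 1) d x + rd (i + 1) d (x + (K : ZMod M))) =
        2 * ((2 ^ (i + 1) : ℝ) ^ 2 * rd (i + 1) d x) +
          2 * ((2 ^ (i + 1) : ℝ) ^ 2 * rd (i + 1) d (x + (K : ZMod M))) := by ring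
    rw [h3]
    linarith
  have h1 : n2 (Eb 1 K d) ≤ avr (fun x => 2 * (2 ^ (i + 1) : ℝ) ^ 2 / (K : ℝ) ^ 2 *
      (rd (i + 1) d x + rd (i + 1) d (x + (K : ZMod M)))) := avr_mono hp
  rw [avr_mul_left, avr_add, avr_shift (rd (i + 1) d)] at h1
  have h2 : avr (fun x => rd (i + 1) d x) = n2 d := avr_rd hL hiL d
  have h2' : avr (rd (i + 1) d) = n2 d := avr_rd hL hiL d
  rw [h2] at h1
  refine h1.trans ?_
  have h3 : 2 * (2 ^ (i + 1) : ℝ) ^ 2 / (K : ℝ) ^ 2 * (n2 d + n2 d) =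
      16 * 4 ^ i / (K : ℝ) ^ 2 * n2 d := by
    have : (2 ^ (i + 1) : ℝ) ^ 2 = 4 * 4 ^ i := by
      rw [← pow_mul, mul_comm (i + 1) 2, pow_mul]
      norm_num
      ring
    rw [this]
    ring
  rw [h3]
  refine mul_le_mul_of_nonneg_right ?_ (n2_nonneg d)
  refine div_le_div_of_nonneg_left (by positivity) (by positivity) ?_
  have h4 : (4 : ℝ) ^ k = (2 ^ k) ^ 2 := by
    rw [← pow_mul, mul_comm k 2, pow_mul]; norm_num
  rw [h4]
  have h5 : (2 : ℝ) ^ k ≤ K := by exact_mod_cast hK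
  exact pow_le_pow_left₀ (by positivity) h5 2

namespace DyadAux

/-- The distance of two indices. -/
def ad (i k : ℕ) : ℕ := (i - k) + (k - i)

theorem geo (r : ℝ) (h0 : 0 ≤ r) (h1 : r < 1) (N : ℕ) : ∑ m ∈ range N, r ^ m ≤ 1 / (1 - r) := by
  have h2 : 0 < 1 - r := by linarith
  rw [le_div_iff₀ h2, mul_comm, mul_neg_geom_sum]
  have : 0 ≤ r ^ N := pow_nonneg h0 N
  linarith

theorem sum_ad (r : ℝ) (h0 : 0 ≤ r) (h1 : r < 1) (N k : ℕ) :
    ∑ i ∈ range N, r ^ ad i k ≤ (1 + r) / (1 - r) := by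
  have h2 : 0 < 1 - r := by linarith
  have a1 : ∑ i ∈ range N, r ^ ad i k ≤ ∑ i ∈ range (k + N), r ^ ad i k :=
    Finset.sum_le_sum_of_subset_of_nonneg (Finset.range_subset_range.mpr (by omega))
      fun _ _ _ => pow_nonneg h0 _
  rw [Finset.sum_range_add] at a1
  have a2 : ∑ i ∈ range k, r ^ ad i k = ∑ m ∈ range k, r ^ (m + 1) := by
    rw [← Finset.sum_range_reflect]
    refine Finset.sum_congr rfl fun m hm => ?_
    rw [mem_range] at hm
    congr 1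
    unfold ad
    omega
  have a3 : ∑ m ∈ range N, r ^ ad (k + m) k = ∑ m ∈ range N, r ^ m := by
    refine Finset.sum_congr rfl fun m _ => ?_
    congr 1
    unfold ad
    omega
  have a4 : ∑ m ∈ range k, r ^ (m + 1) = r * ∑ m ∈ range k, r ^ m := by
    rw [Finset.mul_sum]
    refine Finset.sum_congr rfl fun m _ => ?_
    rw [pow_succ, mul_comm]
  rw [a2, a3, a4] at a1
  have g1 := geo r h0 h1 k
  have g2 := geo r h0 h1 N
  refine a1.trans ?_
  calc r * ∑ m ∈ range k, r ^ m + ∑ m ∈ range N, r ^ m ≤ r * (1 / (1 - r)) + 1 / (1 - r) :=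
        add_le_add (mul_le_mul_of_nonneg_left g1 h0) g2
    _ = (1 + r) / (1 - r) := by ring

theorem ad_comm (i k : ℕ) : ad i k = ad k i := by unfold ad; omega

/-- Weighted Cauchy-Schwarz. -/
theorem wcs {ι : Type*} (s : Finset ι) (z : ι → ℂ) (c : ι → ℝ) (hc : ∀ i ∈ s, 0 < c i) (B : ℝ)
    (hB : ∑ i ∈ s, c i ≤ B) : ‖∑ i ∈ s, z i‖ ^ 2 ≤ B * ∑ i ∈ s, ‖z i‖ ^ 2 / c i := by
  have h1 : (∑ i ∈ s, ‖z i‖) ^ 2 ≤ (∑ i ∈ s, c i) * ∑ i ∈ s, ‖z i‖ ^ 2 / c i := by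
    refine Finset.sum_sq_le_sum_mul_sum_of_sq_le_mul s (fun i hi => (hc i hi).le)
      (fun i hi => div_nonneg (by positivity) (hc i hi).le) fun i hi => ?_
    have := (hc i hi).ne'
    rw [mul_div_cancel₀ _ this]
  have h2 : 0 ≤ ∑ i ∈ s, ‖z i‖ ^ 2 / c i :=
    Finset.sum_nonneg fun i hi => div_nonneg (by positivity) (hc i hi).le
  calc ‖∑ i ∈ s, z i‖ ^ 2 ≤ (∑ i ∈ s, ‖z i‖) ^ 2 :=
        pow_le_pow_left₀ (norm_nonneg _) (norm_sum_le _ _) 2
    _ ≤ (∑ i ∈ s, c i) * ∑ i ∈ s, ‖z i‖ ^ 2 / c i := h1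
    _ ≤ B * ∑ i ∈ s, ‖z i‖ ^ 2 / c i := mul_le_mul_of_nonneg_right hB h2

theorem tv_sum {ι : Type*} (s : Finset ι) (H : ℕ) (F : ι → ℕ → ℂ) :
    tv H (fun t => ∑ i ∈ s, F i t) = ∑ i ∈ s, tv H (F i) := by
  unfold tv
  rw [Finset.sum_comm, Finset.sum_div]

/-- The pieces of the dyadic decomposition. -/
noncomputable def dd (L : ℕ) (f : ZMod M → ℂ) (i : ℕ) (x : ZMod M) : ℂ :=
  if i < L then dy i f x - dy (i + 1) f x else dy L f x

theorem dd_sum (L : ℕ) (f : ZMod M → ℂ) (x : ZMod M) : f x = ∑ i ∈ range (L + 1), dd L f i x := by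
  rw [Finset.sum_range_succ]
  have h1 : ∑ i ∈ range L, dd L f i x = ∑ i ∈ range L, (dy i f x - dy (i + 1) f x) := by
    refine Finset.sum_congr rfl fun i hi => ?_
    unfold dd
    rw [if_pos (mem_range.mp hi)]
  have h2 : dd L f L x = dy L f x := by
    unfold dd
    rw [if_neg (lt_irrefl L)]
  rw [h1, h2, Finset.sum_range_sub' (fun i => dy i f x), dy_zero]
  ring

theorem dd_n2 {L : ℕ} (hL : 2 ^ L ∣ M) (f : ZMod M → ℂ) :
    ∑ i ∈ range (L + 1), n2 (dd L f i) = n2 f := by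
  rw [Finset.sum_range_succ, n2_sum hL f, add_comm]
  have h2 : dd L f L = dy L f := by
    funext x
    unfold dd
    rw [if_neg (lt_irrefl L)]
  rw [h2]
  congr 1
  refine Finset.sum_congr rfl fun i hi => ?_
  congr 1
  funext x
  unfold dd
  rw [if_pos (mem_range.mp hi)]

theorem dd_lt {L i : ℕ} (hi : i < L) (f : ZMod M → ℂ) :
    dd L f i = fun x => dy i f x - dy (i + 1) f x := by
  funext x
  unfold dd
  rw [if_pos hi]

/-- Coarser block averages of a piece. -/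
theorem dy_dd_of_lt {L : ℕ} (hL : 2 ^ L ∣ M) (f : ZMod M → ℂ) {i k : ℕ} (hik : i < k) (hk : k ≤ L)
    (x : ZMod M) : dy k (dd L f i) x = 0 := by
  rw [dd_lt (by omega), dy_sub, dy_dy hL hik.le hk, dy_dy hL hik hk, sub_self]

/-- Finer block averages of a piece. -/
theorem dy_dd_of_le {L : ℕ} (hL : 2 ^ L ∣ M) (f : ZMod M → ℂ) {i k : ℕ} (hki : k ≤ i) (hi : i ≤ L)
    (x : ZMod M) : dy k (dd L f i) x = dd L f i x := by
  rcases Nat.lt_or_ge i L with h | h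
  · rw [dd_lt h, dy_sub, dy_dy' hL hki hi, dy_dy' hL (by omega) h]
  · have h2 : dd L f i = dy L f := by
      funext x
      unfold dd
      rw [if_neg (by omega)]
    rw [h2, dy_dy' hL (by omega) le_rfl]

/-- The difference of the two averages. -/
noncomputable def TT' (K k : ℕ) (g : ZMod M → ℂ) (x : ZMod M) : ℂ := Eb 1 K g x - dy k g x

theorem TT_sum (K k : ℕ) (s : Finset ℕ) (f : ZMod M → ℂ) (F : ℕ → ZMod M → ℂ)
    (h : ∀ x, f x = ∑ i ∈ s, F i x) (x : ZMod M) : TT' K k f x = ∑ i ∈ s, TT' K k (F i) x := by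
  unfold TT' Eb dy
  rw [Finset.sum_sub_distrib, ← tv_sum, ← tv_sum]
  congr 1
  · refine tv_congr fun t _ => h _
  · refine tv_congr fun t _ => h _

theorem TT_n2 {L : ℕ} (hL : 2 ^ L ∣ M) (f : ZMod M → ℂ) {K k i : ℕ} (hK1 : 2 ^ k ≤ K)
    (hK2 : K < 2 ^ (k + 1)) (hk : k < L) (hi : i ≤ L) :
    n2 (TT' K k (dd L f i)) ≤ 16 * (1 / 2) ^ ad i k * n2 (dd L f i) := by
  have h0 := n2_nonneg (dd L f i)
  rcases Nat.lt_or_ge i k with h | h
  · have e : TT' K k (dd L f i) = Eb 1 K (dd L f i) := by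
      funext x
      unfold TT'
      rw [dy_dd_of_lt hL f h hk.le, sub_zero]
    rw [e]
    refine (cmpB hL h hk.le hK1 (dd L f i) fun x =>
      dy_dd_of_lt hL f (Nat.lt_succ_self i) (by omega) x).trans ?_
    refine mul_le_mul_of_nonneg_right ?_ h0
    have e1 : ad i k = k - i := by unfold ad; omega
    rw [e1]
    have e2 : (4 : ℝ) ^ k = 4 ^ i * 4 ^ (k - i) := by rw [← pow_add]; congr 1; omega
    rw [e2, one_div, inv_pow]
    have e3 : 16 * (4 : ℝ) ^ i / (4 ^ i * 4 ^ (k - i)) = 16 * (4 ^ (k - i))⁻¹ := by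
      field_simp
    rw [e3]
    have e4 : ((4 : ℝ) ^ (k - i))⁻¹ ≤ (2 ^ (k - i))⁻¹ := by
      apply inv_anti₀ (by positivity)
      exact pow_le_pow_left₀ (by norm_num) (by norm_num) _
    linarith
  · have e : TT' K k (dd L f i) = fun x => Eb 1 K (dd L f i) x - dd L f i x := by
      funext x
      unfold TT'
      rw [dy_dd_of_le hL f h hi]
    rw [e]
    refine (cmpA hL h hi (le_trans Nat.one_le_two_pow hK1) hK2 (dd L f i) fun x =>
      dy_dd_of_le hL f le_rfl hi x).trans ?_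
    refine mul_le_mul_of_nonneg_right ?_ h0
    have e1 : ad i k = i - k := by unfold ad; omega
    rw [e1]
    have e2 : (2 : ℝ) ^ i = 2 ^ k * 2 ^ (i - k) := by rw [← pow_add]; congr 1; omega
    rw [e2, one_div, inv_pow]
    have e3 : 8 * (2 : ℝ) ^ k / (2 ^ k * 2 ^ (i - k)) = 8 * (2 ^ (i - k))⁻¹ := by
      field_simp
    rw [e3]
    have e4 : (0 : ℝ) ≤ (2 ^ (i - k))⁻¹ := by positivity
    linarith

theorem avr_div (f : ZMod M → ℝ) (c : ℝ) : avr (fun x => f x / c) = avr f / c := by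
  unfold avr
  rw [← Finset.sum_div]
  ring

theorem TT_one {L : ℕ} (hL : 2 ^ L ∣ M) (f : ZMod M → ℂ) {K k : ℕ} (hK1 : 2 ^ k ≤ K)
    (hK2 : K < 2 ^ (k + 1)) (hk : k < L) :
    n2 (TT' K k f) ≤ 112 * ∑ i ∈ range (L + 1), (2 / 3 : ℝ) ^ ad i k * n2 (dd L f i) := by
  have hB : ∑ i ∈ range (L + 1), (3 / 4 : ℝ) ^ ad i k ≤ 7 := by
    refine (sum_ad (3 / 4) (by norm_num) (by norm_num) _ _).trans ?_
    norm_num
  have h1 : ∀ x, ‖TT' K k f x‖ ^ 2 ≤
      7 * ∑ i ∈ range (L + 1), ‖TT' K k (dd L f i) x‖ ^ 2 / (3 / 4 : ℝ) ^ ad i k := by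
    intro x
    rw [TT_sum K k (range (L + 1)) f (dd L f) (dd_sum L f) x]
    exact wcs _ _ _ (fun i _ => by positivity) 7 hB
  have h2 : n2 (TT' K k f) ≤ avr (fun x =>
      7 * ∑ i ∈ range (L + 1), ‖TT' K k (dd L f i) x‖ ^ 2 / (3 / 4 : ℝ) ^ ad i k) := avr_mono h1
  refine h2.trans ?_
  rw [avr_mul_left, avr_sum (range (L + 1))
    (fun i x => ‖TT' K k (dd L f i) x‖ ^ 2 / (3 / 4 : ℝ) ^ ad i k)]
  have h3 : ∀ i ∈ range (L + 1), avr (fun x => ‖TT' K k (dd L f i) x‖ ^ 2 / (3 / 4 : ℝ) ^ ad i k) ≤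
      16 * ((2 / 3 : ℝ) ^ ad i k * n2 (dd L f i)) := by
    intro i hi
    rw [mem_range] at hi
    rw [avr_div]
    have h4 : avr (fun x => ‖TT' K k (dd L f i) x‖ ^ 2) ≤
        16 * (1 / 2) ^ ad i k * n2 (dd L f i) := TT_n2 hL f hK1 hK2 hk (by omega)
    refine (div_le_div_of_nonneg_right h4 (by positivity)).trans (le_of_eq ?_)
    have h5 : (1 / 2 : ℝ) ^ ad i k = (2 / 3) ^ ad i k * (3 / 4) ^ ad i k := by
      rw [← mul_pow]; norm_num
    rw [h5]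
    have h6 : (3 / 4 : ℝ) ^ ad i k ≠ 0 := by positivity
    field_simp
  have h7 := Finset.sum_le_sum h3
  rw [← Finset.mul_sum] at h7
  linarith

end DyadAux

theorem cmp_sum {L : ℕ} (hL : 2 ^ L ∣ M) (s : Finset ℕ) (K : ℕ → ℕ) (hK1 : ∀ j ∈ s, 1 ≤ K j) (hKL : ∀ j ∈ s, K j < 2 ^ L)
    (hc : ∀ k, (s.filter (fun j => Nat.log 2 (K j) = k)).card ≤ 4) (f : ZMod M → ℂ) :
    ∑ j ∈ s, n2 (fun x => Eb 1 (K j) f x - dy (Nat.log 2 (K j)) f x) ≤ 2400 * n2 f := by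
  have hkL : ∀ j ∈ s, Nat.log 2 (K j) < L := by
    intro j hj
    exact Nat.log_lt_of_lt_pow (by have := hK1 j hj; omega) (hKL j hj)
  have h1 : ∀ j ∈ s, n2 (fun x => Eb 1 (K j) f x - dy (Nat.log 2 (K j)) f x) ≤
      112 * ∑ i ∈ range (L + 1), (2 / 3 : ℝ) ^ ad i (Nat.log 2 (K j)) * n2 (dd L f i) := by
    intro j hj
    have h0 : K j ≠ 0 := by have := hK1 j hj; omega
    exact TT_one hL f (Nat.pow_log_le_self 2 h0) (Nat.lt_pow_succ_log_self (by norm_num) _)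
      (hkL j hj)
  refine (Finset.sum_le_sum h1).trans ?_
  rw [← Finset.mul_sum, Finset.sum_comm]
  have h2 : ∀ i ∈ range (L + 1), ∑ j ∈ s, (2 / 3 : ℝ) ^ ad i (Nat.log 2 (K j)) * n2 (dd L f i) ≤
      20 * n2 (dd L f i) := by
    intro i _
    rw [← Finset.sum_mul]
    refine mul_le_mul_of_nonneg_right ?_ (n2_nonneg _)
    rw [← Finset.sum_fiberwise_of_maps_to (t := range L) (g := fun j => Nat.log 2 (K j))
      (fun j hj => mem_range.mpr (hkL j hj))]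
    have h3 : ∀ k ∈ range L, ∑ j ∈ s with Nat.log 2 (K j) = k,
        (2 / 3 : ℝ) ^ ad i (Nat.log 2 (K j)) ≤ 4 * (2 / 3 : ℝ) ^ ad k i := by
      intro k _
      have h4 : ∀ j ∈ s.filter (fun j => Nat.log 2 (K j) = k),
          (2 / 3 : ℝ) ^ ad i (Nat.log 2 (K j)) = (2 / 3 : ℝ) ^ ad k i := by
        intro j hj
        rw [(mem_filter.mp hj).2, ad_comm]
      rw [Finset.sum_congr rfl h4, Finset.sum_const, nsmul_eq_mul]
      refine mul_le_mul_of_nonneg_right ?_ (by positivity)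
      exact_mod_cast hc k
    refine (Finset.sum_le_sum h3).trans ?_
    rw [← Finset.mul_sum]
    have h5 := sum_ad (2 / 3) (by norm_num) (by norm_num) L i
    have h6 : (1 + 2 / 3 : ℝ) / (1 - 2 / 3) = 5 := by norm_num
    rw [h6] at h5
    linarith
  have h3 := Finset.sum_le_sum h2
  rw [← Finset.mul_sum, dd_n2 hL f] at h3
  have h4 := n2_nonneg f
  linarith

end Pool.Agent.EQD.Lo
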