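import Pool.Agent.Lib.EQD.DkB

/-!
# Module En1: square sums of multipliers of boxes over the scales

PROOFS. `geo_min`: with `x_j = u 2 ^ (e j)`, the terms with `x_j ≤ 1` sum to at most `2`, those with `x_j > 1` too (distinct `j`, ratio `≥ 2`).
`en_dk`: `ν = nrm α`; `‖dk K' α - dk K α‖ ≤ min (π (K + K') ν, 1 / (2 K ν) + 1 / (2 K' ν))` and `≤ 2`, so its square is
`≤ 2 * that ≤ C A ^ 2 min (w 2 ^ (e j) ν, 1 / (w 2 ^ (e j) ν))`; if `ν = 0` all terms vanish.
`en_dk2`: `‖dk L α‖ ≤ min (1, 1 / (2 L ν)) ≤ (L ν) ^ (- 1 / 2)`, so the product is `≤ (K / L) ^ (1 / 2) * C A ^ 2 min (..) ^ (1 / 2)`, `x = w 2 ^ (e j) ν`: for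
`x ≤ 1`: `C A x * (L ν) ^ (- 1 / 2) ≤ C A (θ) ^ (1 / 2) x ^ (1 / 2)` because `K ≤ θ L`, i.e. `L ν ≥ K ν / θ ≥ x / θ`; for `x ≥ 1`: `C / x * (θ / x) ^ (1 / 2)`. The square is
`≤ C A ^ 4 θ min (x, 1 / x)`.
-/

set_option autoImplicit false

open Finset Polynomial

namespace Pool.Agent.EQD

open Pool.Agent.HLT Pool.Agent.NLT Pool.Agent.NLG

namespace En1Aux

theorem geo_inj (s : Finset ℕ) (g : ℕ → ℕ) (hg : ∀ i ∈ s, ∀ j ∈ s, g i = g j → i = j) :
    ∑ j ∈ s, (1 / 2 : ℝ) ^ (g j) ≤ 2 := by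
  classical
  have h1 : ∑ j ∈ s, (1 / 2 : ℝ) ^ (g j) = ∑ i ∈ s.image g, (1 / 2 : ℝ) ^ i := by
    rw [Finset.sum_image (fun i hi j hj h => hg i hi j hj h)]
  rw [h1]
  exact (summable_geometric_two.sum_le_tsum _ (fun i _ => by positivity)).trans
    tsum_geometric_two.le

theorem pow_split {e i j : ℕ} (he : 1 ≤ e) (h : i ≤ j) :
    (2 : ℝ) ^ (e * i) ≤ (1 / 2 : ℝ) ^ (j - i) * 2 ^ (e * j) := by
  obtain ⟨d, rfl⟩ := Nat.exists_eq_add_of_le h
  have h1 : e * (i + d) = e * i + e * d := by ring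
  rw [Nat.add_sub_cancel_left, h1, pow_add]
  have h2 : (2 : ℝ) ^ d ≤ 2 ^ (e * d) :=
    pow_le_pow_right₀ (by norm_num) (Nat.le_mul_of_pos_left d he)
  have h3 : (1 : ℝ) ≤ (1 / 2 : ℝ) ^ d * 2 ^ (e * d) := by
    calc (1 : ℝ) = (1 / 2 : ℝ) ^ d * 2 ^ d := by
          rw [← mul_pow]
          norm_num
      _ ≤ (1 / 2 : ℝ) ^ d * 2 ^ (e * d) := mul_le_mul_of_nonneg_left h2 (by positivity)
  calc (2 : ℝ) ^ (e * i) = 2 ^ (e * i) * 1 := (mul_one _).symm
    _ ≤ 2 ^ (e * i) * ((1 / 2 : ℝ) ^ d * 2 ^ (e * d)) :=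
        mul_le_mul_of_nonneg_left h3 (by positivity)
    _ = (1 / 2 : ℝ) ^ d * (2 ^ (e * i) * 2 ^ (e * d)) := by ring

theorem nrm_nonneg' (α : ℝ) : 0 ≤ nrm α := by
  unfold nrm
  exact abs_nonneg _

/-- the basic estimates for one scale; `x = w 2 ^ (e j) ν` -/
theorem one_scale {A y ν : ℝ} {K K' : ℕ} {α : ℝ} (hν : ν = nrm α) (hy : 0 < y)
    (h1 : y ≤ K) (h2 : (K : ℝ) ≤ A * y) (h3 : y ≤ K') (h4 : (K' : ℝ) ≤ A * y) :
    ‖dk K' α - dk K α‖ ≤ 2 * Real.pi * A * (y * ν) ∧ ‖dk K' α - dk K α‖ * (y * ν) ≤ 1 ∧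
      ‖dk K' α - dk K α‖ ≤ 2 := by
  have hν0 : 0 ≤ ν := by
    rw [hν]
    exact nrm_nonneg' α
  have hK : 1 ≤ K := by
    have : (0 : ℝ) < K := lt_of_lt_of_le hy h1
    exact_mod_cast this
  have hK' : 1 ≤ K' := by
    have : (0 : ℝ) < K' := lt_of_lt_of_le hy h3
    exact_mod_cast this
  have hpi := Real.pi_pos
  refine ⟨?_, ?_, ?_⟩
  · have e1 := norm_one_sub_dk K hK α
    have e2 := norm_one_sub_dk K' hK' α
    rw [← hν] at e1 e2
    have e3 : dk K' α - dk K α = (1 - dk K α) - (1 - dk K' α) := by ring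
    have e4 : Real.pi * K * ν ≤ Real.pi * (A * y) * ν :=
      mul_le_mul_of_nonneg_right (mul_le_mul_of_nonneg_left h2 hpi.le) hν0
    have e5 : Real.pi * K' * ν ≤ Real.pi * (A * y) * ν :=
      mul_le_mul_of_nonneg_right (mul_le_mul_of_nonneg_left h4 hpi.le) hν0
    calc ‖dk K' α - dk K α‖ ≤ ‖1 - dk K α‖ + ‖1 - dk K' α‖ := by
          rw [e3]
          exact norm_sub_le _ _
      _ ≤ Real.pi * (A * y) * ν + Real.pi * (A * y) * ν :=
          add_le_add (e1.trans e4) (e2.trans e5)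
      _ = 2 * Real.pi * A * (y * ν) := by ring
  · have e1 := dk_mul_nrm K α
    have e2 := dk_mul_nrm K' α
    rw [← hν] at e1 e2
    have e4 : ‖dk K α‖ * (2 * y * ν) ≤ ‖dk K α‖ * (2 * K * ν) :=
      mul_le_mul_of_nonneg_left
        (mul_le_mul_of_nonneg_right (mul_le_mul_of_nonneg_left h1 (by norm_num)) hν0)
        (norm_nonneg _)
    have e5 : ‖dk K' α‖ * (2 * y * ν) ≤ ‖dk K' α‖ * (2 * K' * ν) :=
      mul_le_mul_of_nonneg_left
        (mul_le_mul_of_nonneg_right (mul_le_mul_of_nonneg_left h3 (by norm_num)) hν0)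
        (norm_nonneg _)
    have e6 : ‖dk K' α - dk K α‖ ≤ ‖dk K' α‖ + ‖dk K α‖ := norm_sub_le _ _
    have e7 : ‖dk K' α - dk K α‖ * (y * ν) ≤ (‖dk K' α‖ + ‖dk K α‖) * (y * ν) :=
      mul_le_mul_of_nonneg_right e6 (mul_nonneg hy.le hν0)
    linarith
  · have e1 := norm_dk_le_one K α
    have e2 := norm_dk_le_one K' α
    have e6 : ‖dk K' α - dk K α‖ ≤ ‖dk K' α‖ + ‖dk K α‖ := norm_sub_le _ _
    linarith

end En1Aux

open En1Aux

theorem geo_min (e : ℕ) (he : 1 ≤ e) (u : ℝ) (hu : 0 < u) (s : Finset ℕ) :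
    ∑ j ∈ s, min (u * 2 ^ (e * j)) (1 / (u * 2 ^ (e * j))) ≤ 4 := by
  classical
  rw [← Finset.sum_filter_add_sum_filter_not s (fun j => u * 2 ^ (e * j) ≤ 1)]
  have hA : ∑ j ∈ s with u * 2 ^ (e * j) ≤ 1, min (u * 2 ^ (e * j)) (1 / (u * 2 ^ (e * j))) ≤
      2 := by
    rcases (s.filter (fun j => u * 2 ^ (e * j) ≤ 1)).eq_empty_or_nonempty with h | h
    · rw [h, Finset.sum_empty]
      norm_num
    · obtain ⟨J, hJ, hmax⟩ := (s.filter (fun j => u * 2 ^ (e * j) ≤ 1)).exists_max_image id h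
      have hJ1 : u * 2 ^ (e * J) ≤ 1 := (mem_filter.1 hJ).2
      refine le_trans (Finset.sum_le_sum fun j hj => ?_)
        (geo_inj (s.filter (fun j => u * 2 ^ (e * j) ≤ 1)) (fun j => J - j) ?_)
      · have hjJ : j ≤ J := hmax j hj
        refine (min_le_left _ _).trans ?_
        have h1 := pow_split he hjJ
        calc u * 2 ^ (e * j) ≤ u * ((1 / 2 : ℝ) ^ (J - j) * 2 ^ (e * J)) :=
              mul_le_mul_of_nonneg_left h1 hu.le
          _ = (1 / 2 : ℝ) ^ (J - j) * (u * 2 ^ (e * J)) := by ring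
          _ ≤ (1 / 2 : ℝ) ^ (J - j) * 1 := mul_le_mul_of_nonneg_left hJ1 (by positivity)
          _ = (1 / 2 : ℝ) ^ (J - j) := mul_one _
      · intro i hi j hj hij
        have h1 : i ≤ J := hmax i hi
        have h2 : j ≤ J := hmax j hj
        omega
  have hB : ∑ j ∈ s with ¬ u * 2 ^ (e * j) ≤ 1, min (u * 2 ^ (e * j)) (1 / (u * 2 ^ (e * j))) ≤
      2 := by
    rcases (s.filter (fun j => ¬ u * 2 ^ (e * j) ≤ 1)).eq_empty_or_nonempty with h | h
    · rw [h, Finset.sum_empty]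
      norm_num
    · obtain ⟨J, hJ, hmin⟩ := (s.filter (fun j => ¬ u * 2 ^ (e * j) ≤ 1)).exists_min_image id h
      have hJ1 : 1 ≤ u * 2 ^ (e * J) := (not_le.1 (mem_filter.1 hJ).2).le
      refine le_trans (Finset.sum_le_sum fun j hj => ?_)
        (geo_inj (s.filter (fun j => ¬ u * 2 ^ (e * j) ≤ 1)) (fun j => j - J) ?_)
      · have hjJ : J ≤ j := hmin j hj
        refine (min_le_right _ _).trans ?_
        have h1 := pow_split he hjJ
        have h2 : (0 : ℝ) < u * 2 ^ (e * j) := by positivity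
        rw [div_le_iff₀ h2]
        calc (1 : ℝ) ≤ u * 2 ^ (e * J) := hJ1
          _ ≤ u * ((1 / 2 : ℝ) ^ (j - J) * 2 ^ (e * j)) := mul_le_mul_of_nonneg_left h1 hu.le
          _ = (1 / 2 : ℝ) ^ (j - J) * (u * 2 ^ (e * j)) := by ring
      · intro i hi j hj hij
        have h1 : J ≤ i := hmin i hi
        have h2 : J ≤ j := hmin j hj
        omega
  linarith

/-- Square sum of the differences of two boxes of comparable lengths `≈ w 2 ^ (e j)`. -/
theorem en_dk (A : ℝ) (hA : 1 ≤ A) : ∃ G : ℝ, 0 ≤ G ∧ ∀ (e : ℕ), 1 ≤ e → ∀ (s : Finset ℕ) (K K' : ℕ → ℕ) (w : ℝ), 0 < w →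
    (∀ j ∈ s, w * 2 ^ (e * j) ≤ K j ∧ (K j : ℝ) ≤ A * (w * 2 ^ (e * j)) ∧ w * 2 ^ (e * j) ≤ K' j ∧ (K' j : ℝ) ≤ A * (w * 2 ^ (e * j))) →
    ∀ α : ℝ, ∑ j ∈ s, ‖dk (K' j) α - dk (K j) α‖ ^ 2 ≤ G := by
  have hpi := Real.pi_gt_three
  refine ⟨16 * Real.pi * A, by positivity, ?_⟩
  intro e he s K K' w hw hK α
  obtain ⟨ν, hν⟩ : ∃ ν, ν = nrm α := ⟨_, rfl⟩
  have hν0 : 0 ≤ ν := by
    rw [hν]
    exact nrm_nonneg' α
  have hπA : 1 ≤ Real.pi * A := by nlinarith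
  rcases hν0.eq_or_lt with h0 | hpos
  · have h1 : ∑ j ∈ s, ‖dk (K' j) α - dk (K j) α‖ ^ 2 = 0 := by
      refine Finset.sum_eq_zero fun j hj => ?_
      obtain ⟨a1, a2, a3, a4⟩ := hK j hj
      obtain ⟨b1, -, -⟩ := one_scale hν (by positivity) a1 a2 a3 a4
      rw [← h0, mul_zero, mul_zero] at b1
      have h2 := le_antisymm b1 (norm_nonneg _)
      rw [h2]
      norm_num
    rw [h1]
    positivity
  · have hu : 0 < w * ν := by positivity
    calc ∑ j ∈ s, ‖dk (K' j) α - dk (K j) α‖ ^ 2 ≤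
          ∑ j ∈ s, 4 * Real.pi * A *
            min ((w * ν) * 2 ^ (e * j)) (1 / ((w * ν) * 2 ^ (e * j))) := by
          refine Finset.sum_le_sum fun j hj => ?_
          obtain ⟨a1, a2, a3, a4⟩ := hK j hj
          obtain ⟨b1, b2, b3⟩ := one_scale hν (by positivity) a1 a2 a3 a4
          have hx : w * 2 ^ (e * j) * ν = (w * ν) * 2 ^ (e * j) := by ring
          rw [hx] at b1 b2
          have hxpos : 0 < (w * ν) * 2 ^ (e * j) := by positivity
          have hD0 := norm_nonneg (dk (K' j) α - dk (K j) α)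
          have hsq : ‖dk (K' j) α - dk (K j) α‖ ^ 2 ≤ 2 * ‖dk (K' j) α - dk (K j) α‖ := by
            nlinarith
          rw [mul_min_of_nonneg _ _ (by positivity)]
          refine le_min ?_ ?_
          · refine hsq.trans ?_
            calc 2 * ‖dk (K' j) α - dk (K j) α‖ ≤ 2 * (2 * Real.pi * A * ((w * ν) * 2 ^ (e * j))) :=
                  mul_le_mul_of_nonneg_left b1 (by norm_num)
              _ = _ := by ring
          · refine hsq.trans ?_
            rw [mul_one_div, le_div_iff₀ hxpos]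
            nlinarith
      _ = 4 * Real.pi * A *
            ∑ j ∈ s, min ((w * ν) * 2 ^ (e * j)) (1 / ((w * ν) * 2 ^ (e * j))) := by
          rw [Finset.mul_sum]
      _ ≤ 4 * Real.pi * A * 4 :=
          mul_le_mul_of_nonneg_left (geo_min e he (w * ν) hu s) (by positivity)
      _ = 16 * Real.pi * A := by ring

/-- The same after an average of length `L j ≥ K j / θ`. -/
theorem en_dk2 (A : ℝ) (hA : 1 ≤ A) : ∃ G : ℝ, 0 ≤ G ∧ ∀ (e : ℕ), 1 ≤ e → ∀ (s : Finset ℕ) (K K' L : ℕ → ℕ) (w θ : ℝ), 0 < w → 0 < θ →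
    (∀ j ∈ s, w * 2 ^ (e * j) ≤ K j ∧ (K j : ℝ) ≤ A * (w * 2 ^ (e * j)) ∧ w * 2 ^ (e * j) ≤ K' j ∧
      (K' j : ℝ) ≤ A * (w * 2 ^ (e * j)) ∧ (K j : ℝ) ≤ θ * L j) →
    ∀ α : ℝ, ∑ j ∈ s, (‖dk (L j) α‖ * ‖dk (K' j) α - dk (K j) α‖) ^ 2 ≤ G * θ := by
  have hpi := Real.pi_gt_three
  refine ⟨8 * Real.pi ^ 2 * A ^ 2, by positivity, ?_⟩
  intro e he s K K' L w θ hw hθ hK α
  obtain ⟨ν, hν⟩ : ∃ ν, ν = nrm α := ⟨_, rfl⟩
  have hν0 : 0 ≤ ν := by
    rw [hν]
    exact nrm_nonneg' α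
  have hπA : 1 ≤ Real.pi * A := by nlinarith
  have hπA2 : 1 ≤ (Real.pi * A) ^ 2 := one_le_pow₀ hπA
  rcases hν0.eq_or_lt with h0 | hpos
  · have h1 : ∑ j ∈ s, (‖dk (L j) α‖ * ‖dk (K' j) α - dk (K j) α‖) ^ 2 = 0 := by
      refine Finset.sum_eq_zero fun j hj => ?_
      obtain ⟨a1, a2, a3, a4, -⟩ := hK j hj
      obtain ⟨b1, -, -⟩ := one_scale hν (by positivity) a1 a2 a3 a4
      rw [← h0, mul_zero, mul_zero] at b1
      have h2 := le_antisymm b1 (norm_nonneg _)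
      rw [h2, mul_zero]
      norm_num
    rw [h1]
    positivity
  · have hu : 0 < w * ν := by positivity
    calc ∑ j ∈ s, (‖dk (L j) α‖ * ‖dk (K' j) α - dk (K j) α‖) ^ 2 ≤
          ∑ j ∈ s, 2 * (Real.pi * A) ^ 2 * θ *
            min ((w * ν) * 2 ^ (e * j)) (1 / ((w * ν) * 2 ^ (e * j))) := by
          refine Finset.sum_le_sum fun j hj => ?_
          obtain ⟨a1, a2, a3, a4, a5⟩ := hK j hj
          obtain ⟨b1, b2, b3⟩ := one_scale hν (by positivity) a1 a2 a3 a4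
          obtain ⟨x, hxd⟩ : ∃ x, x = (w * ν) * 2 ^ (e * j) := ⟨_, rfl⟩
          have hx : w * 2 ^ (e * j) * ν = x := by
            rw [hxd]
            ring
          rw [hx] at b1 b2
          rw [← hxd]
          have hxpos : 0 < x := by
            rw [hxd]
            positivity
          obtain ⟨D, hD⟩ : ∃ D, D = ‖dk (K' j) α - dk (K j) α‖ := ⟨_, rfl⟩
          obtain ⟨b, hb⟩ : ∃ b, b = ‖dk (L j) α‖ := ⟨_, rfl⟩
          have hD0 : 0 ≤ D := by
            rw [hD]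
            exact norm_nonneg _
          have hb0 : 0 ≤ b := by
            rw [hb]
            exact norm_nonneg _
          have hb1 : b ≤ 1 := by
            rw [hb]
            exact norm_dk_le_one _ _
          have hb2 : b * (2 * L j * ν) ≤ 1 := by
            rw [hb, hν]
            exact dk_mul_nrm _ _
          rw [← hD] at b1 b2 b3
          rw [← hD, ← hb]
          -- `b ^ 2 * (2 x) ≤ θ`
          have hbx : b ^ 2 * (2 * x) ≤ θ := by
            have c1 : b ^ 2 ≤ b := by nlinarith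
            have c2 : x ≤ θ * L j * ν := by
              rw [← hx]
              exact mul_le_mul_of_nonneg_right (a1.trans a5) hpos.le
            calc b ^ 2 * (2 * x) ≤ b * (2 * x) := mul_le_mul_of_nonneg_right c1 (by positivity)
              _ ≤ b * (2 * (θ * L j * ν)) :=
                  mul_le_mul_of_nonneg_left (mul_le_mul_of_nonneg_left c2 (by norm_num)) hb0
              _ = θ * (b * (2 * L j * ν)) := by ring
              _ ≤ θ * 1 := mul_le_mul_of_nonneg_left hb2 hθ.le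
              _ = θ := mul_one _
          rw [mul_min_of_nonneg _ _ (by positivity)]
          refine le_min ?_ ?_
          · have c1 : D ^ 2 ≤ (2 * Real.pi * A * x) ^ 2 := pow_le_pow_left₀ hD0 b1 2
            calc (b * D) ^ 2 = b ^ 2 * D ^ 2 := mul_pow _ _ _
              _ ≤ b ^ 2 * (2 * Real.pi * A * x) ^ 2 := mul_le_mul_of_nonneg_left c1 (by positivity)
              _ = (b ^ 2 * (2 * x)) * (2 * (Real.pi * A) ^ 2 * x) := by ring
              _ ≤ θ * (2 * (Real.pi * A) ^ 2 * x) := mul_le_mul_of_nonneg_right hbx (by positivity)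
              _ = 2 * (Real.pi * A) ^ 2 * θ * x := by ring
          · rw [mul_one_div, le_div_iff₀ hxpos]
            have c1 : D ^ 2 ≤ 2 ^ 2 := pow_le_pow_left₀ hD0 b3 2
            calc (b * D) ^ 2 * x = b ^ 2 * x * D ^ 2 := by ring
              _ ≤ b ^ 2 * x * 2 ^ 2 := mul_le_mul_of_nonneg_left c1 (by positivity)
              _ = 2 * (b ^ 2 * (2 * x)) := by ring
              _ ≤ 2 * θ := mul_le_mul_of_nonneg_left hbx (by norm_num)
              _ = 2 * 1 * θ := by ring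
              _ ≤ 2 * (Real.pi * A) ^ 2 * θ :=
                  mul_le_mul_of_nonneg_right (mul_le_mul_of_nonneg_left hπA2 (by norm_num)) hθ.le
      _ = 2 * (Real.pi * A) ^ 2 * θ *
            ∑ j ∈ s, min ((w * ν) * 2 ^ (e * j)) (1 / ((w * ν) * 2 ^ (e * j))) := by
          rw [Finset.mul_sum]
      _ ≤ 2 * (Real.pi * A) ^ 2 * θ * 4 :=
          mul_le_mul_of_nonneg_left (geo_min e he (w * ν) hu s) (by positivity)
      _ = 8 * Real.pi ^ 2 * A ^ 2 * θ := by ring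

end Pool.Agent.EQD
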