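import Pool.Agent.Lib.EQD.WeyB

/-!
# Module EnA: square sums of multipliers over dyadic intervals of scales

PROOF of `en_abs`. `x_j = u 2 ^ (e j)`. The pairs `(c_p, d_p) = (J1 - (2 p + 1) 2 ^ k, J1 - 2 p 2 ^ k)`, `J1 = 2 ^ (K + 1) - 1`, are disjoint intervals in `[2 ^ K, 2 ^ (K + 1))` (`c_p < d_p`). Pairs with
`x_(d_p) ≤ 1`: `‖a (c_p) - a (d_p)‖ ≤ 2 C x_(d_p)`, and the `d_p` are distinct: `∑ x_(d_p) ^ 2 ≤ ∑_{x_j ≤ 1} x_j ≤ 2`. Pairs with `x_(c_p) ≥ 2 ^ (K A)`: each at most `2 / 2 ^ K`, at most `2 ^ K` pairs. The other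
pairs: `x_(c_p) < 2 ^ (K A)` and `x_(d_p) > 1`: at most one of them contains ... every such interval either has an endpoint `j` with `1 < x_j < 2 ^ (K A)` (at most `K A + 1` values of `j`, because `e ≥ 1`) or
it is the only interval with `x_(c_p) ≤ 1` and `x_(d_p) ≥ 2 ^ (K A)`: at most `K A + 3` pairs, each contributes at most `4`.
`en_wm`: `en_abs` with `u = |β| * const`, `e = D`, from `wm_near` and `weyl_dec` (`lam = 2 ^ K`, `2 ^ (D j) ≤ N ^ D ≤ 2 ^ (D (j + 1))`).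
`en_wb`: Fourier transform in the variable of `g`: `ft (wb p S b N g) ξ = wm p S b N (ξ / M) * ft g ξ`, where `ξ / M` may be replaced by `β ∈ [- 1 / 2, 1 / 2]` (integer values of `p`). The `ξ` with
`|β| ≤ 2 ^ (- 2 ^ K / 2)`: `en_wm`. The others: multipliers `≤ 1`, and `∑ ‖ft g ξ‖ ^ 2 ≤ (2 ^ (2 ^ K / 2)) ^ 2 / 16 * n2 (g (· + 1) - g) ≤ (2 ^ (2 ^ K / 2) κ) ^ 2`.
-/

set_option autoImplicit false

open Finset Polynomial

namespace Pool.Agent.EQD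

open Pool.Agent.HLT Pool.Agent.NLT Pool.Agent.NLG

namespace EnAAux

theorem geo_inj (s : Finset ℕ) (g : ℕ → ℕ) (hg : ∀ i ∈ s, ∀ j ∈ s, g i = g j → i = j) :
    ∑ j ∈ s, (1 / 2 : ℝ) ^ (g j) ≤ 2 := by
  classical
  have h1 : ∑ j ∈ s, (1 / 2 : ℝ) ^ (g j) = ∑ i ∈ s.image g, (1 / 2 : ℝ) ^ i := by
    rw [Finset.sum_image (fun i hi j hj h => hg i hi j hj h)]
  rw [h1]
  exact (summable_geometric_two.sum_le_tsum _ (fun i _ => by positivity)).trans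
    tsum_geometric_two.le

theorem pow_split {e i j : ℕ} (he : 1 ≤ e) (h : i ≤ j) :
    (2 : ℝ) ^ (e * i) * 2 ^ (j - i) ≤ 2 ^ (e * j) := by
  obtain ⟨d, rfl⟩ := Nat.exists_eq_add_of_le h
  have h1 : e * (i + d) = e * i + e * d := by ring
  rw [Nat.add_sub_cancel_left, h1, pow_add]
  have h2 : (2 : ℝ) ^ d ≤ 2 ^ (e * d) :=
    pow_le_pow_right₀ (by norm_num) (Nat.le_mul_of_pos_left d he)
  exact mul_le_mul_of_nonneg_left h2 (by positivity)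

/-- The sum of the small ones. -/
theorem sum_small (e : ℕ) (he : 1 ≤ e) (u : ℝ) (hu : 0 ≤ u) (s : Finset ℕ) (g : ℕ → ℕ)
    (hg : ∀ i ∈ s, ∀ j ∈ s, g i = g j → i = j) (h1 : ∀ i ∈ s, u * 2 ^ (e * g i) ≤ 1) :
    ∑ i ∈ s, u * 2 ^ (e * g i) ≤ 2 := by
  classical
  rcases s.eq_empty_or_nonempty with h | h
  · rw [h, sum_empty]
    norm_num
  · obtain ⟨J, hJ, hmax⟩ := s.exists_max_image g h
    refine le_trans (sum_le_sum fun i hi => ?_) (geo_inj s (fun i => g J - g i) ?_)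
    · have h2 := pow_split he (hmax i hi)
      have h3 := h1 J hJ
      have h4 : u * 2 ^ (e * g i) * 2 ^ (g J - g i) ≤ 1 := by
        calc u * 2 ^ (e * g i) * 2 ^ (g J - g i) = u * (2 ^ (e * g i) * 2 ^ (g J - g i)) := by ring
          _ ≤ u * 2 ^ (e * g J) := mul_le_mul_of_nonneg_left h2 hu
          _ ≤ 1 := h3
      rw [one_div, inv_pow, ← one_div, le_div_iff₀ (by positivity)]
      exact h4
    · intro i hi j hj hij
      have a1 := hmax i hi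
      have a2 := hmax j hj
      exact hg i hi j hj (by omega)

theorem two_pow_K {K k : ℕ} (hk : k < K) : 2 ^ K = 2 * (2 ^ (K - k - 1) * 2 ^ k) := by
  rw [← pow_add, ← pow_succ']
  congr 1
  omega

theorem idx {K k p : ℕ} (hk : k < K) (hp : p < 2 ^ (K - k - 1)) :
    2 ^ K ≤ 2 ^ (K + 1) - 1 - (2 * p + 1) * 2 ^ k ∧
      2 ^ (K + 1) - 1 - (2 * p + 1) * 2 ^ k ≤ 2 ^ (K + 1) - 1 - 2 * p * 2 ^ k ∧
      2 ^ (K + 1) - 1 - 2 * p * 2 ^ k < 2 ^ (K + 1) := by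
  have h1 := two_pow_K hk
  have h2 : (p + 1) * 2 ^ k ≤ 2 ^ (K - k - 1) * 2 ^ k := Nat.mul_le_mul_right _ hp
  have h3 : (2 * p + 1) * 2 ^ k = 2 * (p * 2 ^ k) + 2 ^ k := by ring
  have h4 : 2 * p * 2 ^ k = 2 * (p * 2 ^ k) := by ring
  have h5 : (p + 1) * 2 ^ k = p * 2 ^ k + 2 ^ k := by ring
  have h6 : 1 ≤ 2 ^ k := Nat.one_le_two_pow
  have h7 : 2 ^ (K + 1) = 2 * 2 ^ K := pow_succ' 2 K
  rw [h3, h4, h7]
  rw [h5] at h2
  omega

theorem idx2 {K k p p' : ℕ} (hk : k < K) (hp' : p' < 2 ^ (K - k - 1)) (h : p < p') :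
    2 ^ (K + 1) - 1 - 2 * p' * 2 ^ k + (p' - p) ≤ 2 ^ (K + 1) - 1 - (2 * p + 1) * 2 ^ k := by
  have h1 := two_pow_K hk
  have h2 : (p' + 1) * 2 ^ k ≤ 2 ^ (K - k - 1) * 2 ^ k := Nat.mul_le_mul_right _ hp'
  obtain ⟨d, rfl⟩ := Nat.exists_eq_add_of_lt h
  have h3 : (2 * p + 1) * 2 ^ k = 2 * (p * 2 ^ k) + 2 ^ k := by ring
  have h4 : 2 * (p + d + 1) * 2 ^ k = 2 * (p * 2 ^ k) + 2 * (d * 2 ^ k) + 2 * 2 ^ k := by ring
  have h5 : (p + d + 1 + 1) * 2 ^ k = p * 2 ^ k + d * 2 ^ k + 2 * 2 ^ k := by ring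
  have h6 : 1 ≤ 2 ^ k := Nat.one_le_two_pow
  have h7 : 2 ^ (K + 1) = 2 * 2 ^ K := pow_succ' 2 K
  have h8 : d * 1 ≤ d * 2 ^ k := Nat.mul_le_mul_left d h6
  rw [h3, h4, h7]
  rw [h5] at h2
  omega

theorem card_gap (s : Finset ℕ) (m : ℕ) (h : ∀ i ∈ s, ∀ j ∈ s, i < j → j - i ≤ m) :
    s.card ≤ m + 1 := by
  classical
  rcases s.eq_empty_or_nonempty with h0 | h0
  · rw [h0, card_empty]
    omega
  · have h1 : s ⊆ Icc (s.min' h0) (s.min' h0 + m) := by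
      intro j hj
      rw [mem_Icc]
      have h2 := s.min'_le j hj
      refine ⟨h2, ?_⟩
      rcases h2.lt_or_eq with h3 | h3
      · have := h _ (s.min'_mem h0) j hj h3
        omega
      · omega
    refine (card_le_card h1).trans ?_
    rw [Nat.card_Icc]
    omega

end EnAAux

open EnAAux

theorem en_abs (A C : ℕ) : ∃ G : ℝ, 0 ≤ G ∧ ∀ (K e : ℕ) (u : ℝ) (a : ℕ → ℂ), 1 ≤ K → 1 ≤ e → 0 ≤ u →
    (∀ j, 2 ^ K ≤ j → j < 2 ^ (K + 1) → ‖a j‖ ≤ 1 ∧ ‖1 - a j‖ ≤ C * (u * 2 ^ (e * j)) ∧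
      ((2 : ℝ) ^ (K * A) ≤ u * 2 ^ (e * j) → ‖a j‖ ≤ 1 / 2 ^ K)) →
    ∀ k < K, ∑ p ∈ range (2 ^ (K - k - 1)),
      ‖a (2 ^ (K + 1) - 1 - (2 * p + 1) * 2 ^ k) - a (2 ^ (K + 1) - 1 - 2 * p * 2 ^ k)‖ ^ 2 ≤ G * K := by
  classical
  refine ⟨8 * (C : ℝ) ^ 2 + 8 + 4 * A, by positivity, ?_⟩
  intro K e u a hK he hu ha k hk
  set cc : ℕ → ℕ := fun p => 2 ^ (K + 1) - 1 - (2 * p + 1) * 2 ^ k with hcc
  set dd : ℕ → ℕ := fun p => 2 ^ (K + 1) - 1 - 2 * p * 2 ^ k with hdd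
  set s := range (2 ^ (K - k - 1)) with hs
  have hidx : ∀ p ∈ s, 2 ^ K ≤ cc p ∧ cc p ≤ dd p ∧ dd p < 2 ^ (K + 1) := fun p hp =>
    idx hk (mem_range.1 hp)
  have hidx2 : ∀ p ∈ s, ∀ p' ∈ s, p < p' → dd p' + (p' - p) ≤ cc p := fun p _ p' hp' h =>
    idx2 hk (mem_range.1 hp') h
  have hx0 : ∀ j, 0 ≤ u * (2 : ℝ) ^ (e * j) := fun j => mul_nonneg hu (by positivity)
  have hmono : ∀ i j, i ≤ j → u * (2 : ℝ) ^ (e * i) ≤ u * 2 ^ (e * j) := fun i j hij =>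
    mul_le_mul_of_nonneg_left (pow_le_pow_right₀ (by norm_num) (Nat.mul_le_mul_left e hij)) hu
  have hK1 : (1 : ℝ) ≤ K := by exact_mod_cast hK
  -- the three classes
  rw [← sum_filter_add_sum_filter_not s (fun p => u * (2 : ℝ) ^ (e * dd p) ≤ 1)]
  rw [← sum_filter_add_sum_filter_not (s.filter fun p => ¬ u * (2 : ℝ) ^ (e * dd p) ≤ 1)
    (fun p => (2 : ℝ) ^ (K * A) ≤ u * 2 ^ (e * cc p))]
  have hA : ∑ p ∈ s with u * (2 : ℝ) ^ (e * dd p) ≤ 1, ‖a (cc p) - a (dd p)‖ ^ 2 ≤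
      4 * (C : ℝ) ^ 2 * 2 := by
    have h1 : ∑ p ∈ s with u * (2 : ℝ) ^ (e * dd p) ≤ 1, u * (2 : ℝ) ^ (e * dd p) ≤ 2 := by
      refine sum_small e he u hu _ dd ?_ (fun i hi => (mem_filter.1 hi).2)
      intro i hi j hj hij
      by_contra hne
      rcases lt_or_gt_of_ne hne with h | h
      · have h2 := hidx2 i (mem_filter.1 hi).1 j (mem_filter.1 hj).1 h
        have h3 := (hidx i (mem_filter.1 hi).1).2.1
        omega
      · have h2 := hidx2 j (mem_filter.1 hj).1 i (mem_filter.1 hi).1 h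
        have h3 := (hidx j (mem_filter.1 hj).1).2.1
        omega
    refine le_trans ?_ (mul_le_mul_of_nonneg_left h1 (by positivity))
    rw [mul_sum]
    refine sum_le_sum fun p hp => ?_
    have hp1 := (mem_filter.1 hp).1
    have hp2 := (mem_filter.1 hp).2
    obtain ⟨i1, i2, i3⟩ := hidx p hp1
    have e1 := (ha (cc p) i1 (by omega)).2.1
    have e2 := (ha (dd p) (by omega) i3).2.1
    have e3 := hmono (cc p) (dd p) i2
    have e4 : a (cc p) - a (dd p) = (1 - a (dd p)) - (1 - a (cc p)) := by ring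
    have e5 : ‖a (cc p) - a (dd p)‖ ≤ 2 * C * (u * 2 ^ (e * dd p)) := by
      rw [e4]
      refine (norm_sub_le _ _).trans ?_
      have e6 : (C : ℝ) * (u * 2 ^ (e * cc p)) ≤ C * (u * 2 ^ (e * dd p)) :=
        mul_le_mul_of_nonneg_left e3 (Nat.cast_nonneg C)
      linarith
    calc ‖a (cc p) - a (dd p)‖ ^ 2 ≤ (2 * C * (u * 2 ^ (e * dd p))) ^ 2 :=
          pow_le_pow_left₀ (norm_nonneg _) e5 2
      _ = 4 * (C : ℝ) ^ 2 * ((u * 2 ^ (e * dd p)) * (u * 2 ^ (e * dd p))) := by ring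
      _ ≤ 4 * (C : ℝ) ^ 2 * ((u * 2 ^ (e * dd p)) * 1) :=
          mul_le_mul_of_nonneg_left (mul_le_mul_of_nonneg_left hp2 (hx0 _)) (by positivity)
      _ = 4 * (C : ℝ) ^ 2 * (u * 2 ^ (e * dd p)) := by rw [mul_one]
  have hB : ∑ p ∈ (s.filter fun p => ¬ u * (2 : ℝ) ^ (e * dd p) ≤ 1) with
      (2 : ℝ) ^ (K * A) ≤ u * 2 ^ (e * cc p), ‖a (cc p) - a (dd p)‖ ^ 2 ≤ 4 := by
    have h1 : ∀ p ∈ (s.filter fun p => ¬ u * (2 : ℝ) ^ (e * dd p) ≤ 1).filter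
        (fun p => (2 : ℝ) ^ (K * A) ≤ u * 2 ^ (e * cc p)), ‖a (cc p) - a (dd p)‖ ^ 2 ≤ 4 / 2 ^ K := by
      intro p hp
      have hp1 := (mem_filter.1 (mem_filter.1 hp).1).1
      have hp2 := (mem_filter.1 hp).2
      obtain ⟨i1, i2, i3⟩ := hidx p hp1
      have e1 := (ha (cc p) i1 (by omega)).2.2 hp2
      have e2 := (ha (dd p) (by omega) i3).2.2 (hp2.trans (hmono _ _ i2))
      have e3 : ‖a (cc p) - a (dd p)‖ ≤ 2 * (1 / 2 ^ K) := by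
        refine (norm_sub_le _ _).trans ?_
        linarith
      have e4 : (1 : ℝ) / 2 ^ K ≤ 1 := by
        rw [div_le_one (by positivity)]
        exact one_le_pow₀ (by norm_num)
      calc ‖a (cc p) - a (dd p)‖ ^ 2 ≤ (2 * (1 / 2 ^ K)) ^ 2 :=
            pow_le_pow_left₀ (norm_nonneg _) e3 2
        _ = 4 * ((1 / 2 ^ K) * (1 / 2 ^ K)) := by ring
        _ ≤ 4 * ((1 / 2 ^ K) * 1) :=
            mul_le_mul_of_nonneg_left (mul_le_mul_of_nonneg_left e4 (by positivity)) (by norm_num)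
        _ = 4 / 2 ^ K := by ring
    refine (sum_le_card_nsmul _ _ _ h1).trans ?_
    rw [nsmul_eq_mul]
    have h2 : (((s.filter fun p => ¬ u * (2 : ℝ) ^ (e * dd p) ≤ 1).filter
        (fun p => (2 : ℝ) ^ (K * A) ≤ u * 2 ^ (e * cc p))).card : ℝ) ≤ 2 ^ K := by
      have h3 : ((s.filter fun p => ¬ u * (2 : ℝ) ^ (e * dd p) ≤ 1).filter
        (fun p => (2 : ℝ) ^ (K * A) ≤ u * 2 ^ (e * cc p))).card ≤ 2 ^ K := by
        refine (card_le_card ((filter_subset _ _).trans (filter_subset _ _))).trans ?_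
        rw [hs, card_range]
        exact Nat.pow_le_pow_right (by norm_num) (by omega)
      exact_mod_cast h3
    calc _ ≤ (2 : ℝ) ^ K * (4 / 2 ^ K) := mul_le_mul_of_nonneg_right h2 (by positivity)
      _ = 4 := by field_simp
  have hC : ∑ p ∈ (s.filter fun p => ¬ u * (2 : ℝ) ^ (e * dd p) ≤ 1) with
      ¬ (2 : ℝ) ^ (K * A) ≤ u * 2 ^ (e * cc p), ‖a (cc p) - a (dd p)‖ ^ 2 ≤ 4 * (K * A + 1) := by
    have h1 : ∀ p ∈ (s.filter fun p => ¬ u * (2 : ℝ) ^ (e * dd p) ≤ 1).filter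
        (fun p => ¬ (2 : ℝ) ^ (K * A) ≤ u * 2 ^ (e * cc p)), ‖a (cc p) - a (dd p)‖ ^ 2 ≤ 4 := by
      intro p hp
      have hp1 := (mem_filter.1 (mem_filter.1 hp).1).1
      obtain ⟨i1, i2, i3⟩ := hidx p hp1
      have e1 := (ha (cc p) i1 (by omega)).1
      have e2 := (ha (dd p) (by omega) i3).1
      have e3 : ‖a (cc p) - a (dd p)‖ ≤ 2 := (norm_sub_le _ _).trans (by linarith)
      calc ‖a (cc p) - a (dd p)‖ ^ 2 ≤ 2 ^ 2 := pow_le_pow_left₀ (norm_nonneg _) e3 2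
        _ = 4 := by norm_num
    refine (sum_le_card_nsmul _ _ _ h1).trans ?_
    rw [nsmul_eq_mul]
    have h2 : ((s.filter fun p => ¬ u * (2 : ℝ) ^ (e * dd p) ≤ 1).filter
        (fun p => ¬ (2 : ℝ) ^ (K * A) ≤ u * 2 ^ (e * cc p))).card ≤ K * A + 1 := by
      refine card_gap _ _ (fun i hi j hj hij => ?_)
      have hi1 := (mem_filter.1 (mem_filter.1 hi).1).1
      have hj1 := (mem_filter.1 (mem_filter.1 hj).1).1
      have hi2 := not_le.1 (mem_filter.1 hi).2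
      have hj2 := not_le.1 (mem_filter.1 (mem_filter.1 hj).1).2
      have h3 := hidx2 i hi1 j hj1 hij
      have h4 := pow_split he (show dd j ≤ cc i by omega)
      have h5 : (2 : ℝ) ^ (j - i) ≤ 2 ^ (cc i - dd j) := pow_le_pow_right₀ (by norm_num) (by omega)
      have h6 : (2 : ℝ) ^ (j - i) < 2 ^ (K * A) := by
        calc (2 : ℝ) ^ (j - i) ≤ 2 ^ (cc i - dd j) := h5
          _ = 1 * 2 ^ (cc i - dd j) := (one_mul _).symm
          _ ≤ (u * 2 ^ (e * dd j)) * 2 ^ (cc i - dd j) :=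
              mul_le_mul_of_nonneg_right hj2.le (by positivity)
          _ = u * (2 ^ (e * dd j) * 2 ^ (cc i - dd j)) := by ring
          _ ≤ u * 2 ^ (e * cc i) := mul_le_mul_of_nonneg_left h4 hu
          _ < 2 ^ (K * A) := hi2
      exact ((pow_lt_pow_iff_right₀ (by norm_num : (1 : ℝ) < 2)).1 h6).le
    have h3 : (((s.filter fun p => ¬ u * (2 : ℝ) ^ (e * dd p) ≤ 1).filter
        (fun p => ¬ (2 : ℝ) ^ (K * A) ≤ u * 2 ^ (e * cc p))).card : ℝ) ≤ K * A + 1 := by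
      exact_mod_cast h2
    linarith
  have hA' : 0 ≤ (A : ℝ) := Nat.cast_nonneg A
  have h9 : 8 * (C : ℝ) ^ 2 + 8 ≤ (8 * (C : ℝ) ^ 2 + 8) * K :=
    le_mul_of_one_le_right (by positivity) hK1
  calc _ ≤ 4 * (C : ℝ) ^ 2 * 2 + (4 + 4 * (K * A + 1)) := add_le_add hA (add_le_add hB hC)
    _ = (8 * (C : ℝ) ^ 2 + 8) + 4 * A * K := by ring
    _ ≤ (8 * (C : ℝ) ^ 2 + 8) * K + 4 * A * K := add_le_add h9 le_rfl
    _ = (8 * (C : ℝ) ^ 2 + 8 + 4 * A) * K := by ring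

namespace EnAAux

theorem sq_le_two_pow (K : ℕ) (hK : 4 ≤ K) : K * K ≤ 2 ^ K := by
  induction K, hK using Nat.le_induction with
  | base => norm_num
  | succ n hn ih =>
    rw [pow_succ]
    nlinarith

theorem mul_le_half (K A : ℕ) (hK : 2 * A + 4 ≤ K) : K * A ≤ 2 ^ K / 2 := by
  have h1 := sq_le_two_pow K (by omega)
  rw [Nat.le_div_iff_mul_le (by norm_num)]
  calc K * A * 2 = K * (2 * A) := by ring
    _ ≤ K * K := Nat.mul_le_mul_left K (by omega)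
    _ ≤ 2 ^ K := h1

theorem norm_wm_le_one (p : ℤ[X]) (S b N : ℕ) (θ : ℝ) : ‖wm p S b N θ‖ ≤ 1 :=
  norm_tv_le_one _ _ fun _ => (norm_ex _).le

theorem wm_sub_int (p : ℤ[X]) (S b N : ℕ) (θ : ℝ) (n : ℤ) : wm p S b N (θ - n) = wm p S b N θ := by
  unfold wm
  congr 1
  funext m
  have h : (θ - n) * (((p.eval ((b * N / S + m : ℕ) : ℤ) : ℤ)) : ℝ) =
      θ * (((p.eval ((b * N / S + m : ℕ) : ℤ) : ℤ)) : ℝ) +
        ((-n * (p.eval ((b * N / S + m : ℕ) : ℤ)) : ℤ) : ℝ) := by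
    push_cast
    ring
  rw [h, ex_add_int]

end EnAAux

theorem en_wm (D : ℕ) (hD : 2 ≤ D) (p : ℤ[X]) (hp : p.natDegree = D) (A₄ : ℕ) (hA : 1 ≤ A₄) : ∃ (G : ℝ) (K₀ : ℕ), 0 ≤ G ∧
    ∀ (K b : ℕ) (N : ℕ → ℕ) (β : ℝ), K₀ ≤ K → Sc N → b < 2 ^ (K * A₄) → |β| * 2 ^ (2 ^ K / 2) ≤ 1 →
    ∀ k < K, ∑ q ∈ range (2 ^ (K - k - 1)),
      ‖wm p (2 ^ (K * A₄)) b (N (2 ^ (K + 1) - 1 - (2 * q + 1) * 2 ^ k)) β -
        wm p (2 ^ (K * A₄)) b (N (2 ^ (K + 1) - 1 - 2 * q * 2 ^ k)) β‖ ^ 2 ≤ G * K := by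
  obtain ⟨Aw, hAw, hdec⟩ := weyl_dec D hD p hp A₄
  obtain ⟨C₁, hC₁, hnear⟩ := wm_near D p hp
  obtain ⟨G, hG, hen⟩ := en_abs (Aw + D) C₁
  refine ⟨G, 2 * (Aw + A₄) + 4, hG, ?_⟩
  intro K b N β hK hN hb hβ k hk
  have hK4 : 4 ≤ K := by omega
  have hhalf := mul_le_half K (Aw + A₄) hK
  have hhalf2 : 2 ^ K / 2 ≤ 2 ^ K := Nat.div_le_self _ _
  have hKA4 : K * A₄ ≤ 2 ^ K / 2 := le_trans (Nat.mul_le_mul_left K (by omega)) hhalf
  have hKAw : K * Aw ≤ 2 ^ K / 2 := le_trans (Nat.mul_le_mul_left K (by omega)) hhalf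
  refine hen K D (|β| * 2 ^ D) (fun j => wm p (2 ^ (K * A₄)) b (N j) β) (by omega) (by omega)
    (by positivity) ?_ k hk
  intro j hj1 hj2
  obtain ⟨hN1, hN2⟩ := hN j
  have hS1 : 1 ≤ 2 ^ (K * A₄) := Nat.one_le_two_pow
  have hSN : 2 ^ (K * A₄) ≤ N j :=
    (Nat.pow_le_pow_right (by norm_num) (by omega)).trans hN1
  have hnr := hnear (N j) (2 ^ (K * A₄)) b β hS1 hSN hb
  refine ⟨norm_wm_le_one _ _ _ _ _, hnr.1.trans ?_, fun hbig => ?_⟩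
  · refine mul_le_mul_of_nonneg_left ?_ (Nat.cast_nonneg _)
    have h1 : (N j : ℝ) ≤ 2 ^ (j + 1) := by exact_mod_cast hN2.le
    have h2 : (N j : ℝ) ^ D ≤ (2 ^ (j + 1)) ^ D := pow_le_pow_left₀ (Nat.cast_nonneg _) h1 D
    calc |β| * (N j : ℝ) ^ D ≤ |β| * (2 ^ (j + 1)) ^ D :=
          mul_le_mul_of_nonneg_left h2 (abs_nonneg _)
      _ = |β| * 2 ^ D * 2 ^ (D * j) := by
          rw [← pow_mul, mul_assoc, ← pow_add]
          congr 2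
          ring
  · have hlam : ((2 ^ K : ℕ) : ℝ) = 2 ^ K := by push_cast; rfl
    have h2lam : 2 ≤ 2 ^ K := by
      calc 2 = 2 ^ 1 := rfl
        _ ≤ 2 ^ K := Nat.pow_le_pow_right (by norm_num) (by omega)
    have hS : (2 ^ K) ^ A₄ = 2 ^ (K * A₄) := (pow_mul 2 K A₄).symm
    have hd := hdec (N j) (2 ^ K) b β h2lam ?_ ?_ ?_ ?_
    · rw [hS, hlam] at hd
      exact hd
    · rw [← pow_mul]
      exact (Nat.pow_le_pow_right (by norm_num) (by omega)).trans hN1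
    · rw [hS]
      exact hb
    · rw [hlam, ← pow_mul]
      refine le_trans (mul_le_mul_of_nonneg_left ?_ (abs_nonneg _)) hβ
      exact pow_le_pow_right₀ (by norm_num) hKAw
    · rw [hlam, ← pow_mul]
      have h1 : ((2 : ℝ) ^ j) ^ D ≤ (N j : ℝ) ^ D := by
        refine pow_le_pow_left₀ (by positivity) ?_ D
        exact_mod_cast hN1
      have h2 : (2 : ℝ) ^ (K * Aw) * 2 ^ D ≤ |β| * 2 ^ D * 2 ^ (D * j) := by
        refine le_trans ?_ hbig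
        rw [← pow_add]
        refine pow_le_pow_right₀ (by norm_num) ?_
        have : D ≤ K * D := Nat.le_mul_of_pos_left D (by omega)
        rw [mul_add]
        omega
      have h3 : (2 : ℝ) ^ (K * Aw) ≤ |β| * 2 ^ (D * j) := by
        have h4 : (0 : ℝ) < 2 ^ D := by positivity
        refine le_of_mul_le_mul_right ?_ h4
        calc (2 : ℝ) ^ (K * Aw) * 2 ^ D ≤ |β| * 2 ^ D * 2 ^ (D * j) := h2
          _ = |β| * 2 ^ (D * j) * 2 ^ D := by ring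
      refine h3.trans (mul_le_mul_of_nonneg_left ?_ (abs_nonneg _))
      rw [mul_comm D j, pow_mul]
      exact h1

namespace EnAAux

section group

variable {M : ℕ} [NeZero M]

theorem ft_wb (p : ℤ[X]) (S b N : ℕ) (g : ZMod M → ℂ) (ξ : ZMod M) :
    ft (wb p S b N g) ξ = wm p S b N ((ξ.val : ℝ) / M) * ft g ξ := by
  have h1 : ft (wb p S b N g) ξ =
      tv ((b + 1) * N / S - b * N / S)
        (fun m => ft (fun x => g (x + pz M p (b * N / S + m))) ξ) := by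
    unfold ft wb
    rw [tv_av_comm]
    congr 1
    funext x
    rw [mul_comm, ← tv_mul_left]
    congr 1
    funext s
    ring
  rw [h1]
  unfold wm
  rw [mul_comm (tv _ _), ← tv_mul_left]
  congr 1
  funext m
  rw [ft_shift]
  unfold pz
  rw [chi_int, mul_comm, mul_comm ((ξ.val : ℝ) / (M : ℝ))]

theorem ft_sub (f g : ZMod M → ℂ) (ξ : ZMod M) : ft (fun x => f x - g x) ξ = ft f ξ - ft g ξ := by
  unfold ft
  rw [← av_sub]
  congr 1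
  funext x
  ring

theorem ft_diff (g : ZMod M → ℂ) (ξ : ZMod M) :
    ft (fun x => g (x + 1) - g x) ξ = (ex ((ξ.val : ℝ) / M) - 1) * ft g ξ := by
  rw [ft_sub (fun x => g (x + 1)) g, ft_shift]
  have h := chi_int ξ 1
  rw [Int.cast_one, Int.cast_one, one_mul] at h
  rw [h]
  ring

end group

end EnAAux

theorem en_wb (D : ℕ) (hD : 2 ≤ D) (p : ℤ[X]) (hp : p.natDegree = D) (A₄ : ℕ) (hA : 1 ≤ A₄) : ∃ (G : ℝ) (K₀ : ℕ), 0 ≤ G ∧
    ∀ (M : ℕ) [NeZero M] (K b : ℕ) (N : ℕ → ℕ) (g : ZMod M → ℂ) (κ : ℝ), K₀ ≤ K → Sc N → b < 2 ^ (K * A₄) →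
    (∀ x, ‖g (x + 1) - g x‖ ≤ κ) → ∀ k < K, ∑ q ∈ range (2 ^ (K - k - 1)),
      n2 (fun x => wb p (2 ^ (K * A₄)) b (N (2 ^ (K + 1) - 1 - (2 * q + 1) * 2 ^ k)) g x -
        wb p (2 ^ (K * A₄)) b (N (2 ^ (K + 1) - 1 - 2 * q * 2 ^ k)) g x) ≤ G * K * n2 g + 2 ^ K * 4 * (2 ^ (2 ^ K / 2) * κ) ^ 2 := by
  obtain ⟨G, K₀, hG, hwm⟩ := en_wm D hD p hp A₄ hA
  refine ⟨G, K₀, hG, ?_⟩
  intro M _ K b N g κ hK hN hb hg k hk
  set S := 2 ^ (K * A₄) with hS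
  set T : ℝ := 2 ^ (2 ^ K / 2) with hT
  have hT0 : 0 < T := by positivity
  have hκ : 0 ≤ κ := (norm_nonneg _).trans (hg 0)
  -- the square sum of the multipliers
  set W : ZMod M → ℝ := fun ξ => ∑ q ∈ range (2 ^ (K - k - 1)),
      ‖wm p S b (N (2 ^ (K + 1) - 1 - (2 * q + 1) * 2 ^ k)) ((ξ.val : ℝ) / M) -
        wm p S b (N (2 ^ (K + 1) - 1 - 2 * q * 2 ^ k)) ((ξ.val : ℝ) / M)‖ ^ 2 with hW
  have h1 : ∑ q ∈ range (2 ^ (K - k - 1)),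
      n2 (fun x => wb p S b (N (2 ^ (K + 1) - 1 - (2 * q + 1) * 2 ^ k)) g x -
        wb p S b (N (2 ^ (K + 1) - 1 - 2 * q * 2 ^ k)) g x) = ∑ ξ, W ξ * ‖ft g ξ‖ ^ 2 := by
    have h2 : ∀ q : ℕ, n2 (fun x => wb p S b (N (2 ^ (K + 1) - 1 - (2 * q + 1) * 2 ^ k)) g x -
        wb p S b (N (2 ^ (K + 1) - 1 - 2 * q * 2 ^ k)) g x) =
        ∑ ξ : ZMod M, ‖wm p S b (N (2 ^ (K + 1) - 1 - (2 * q + 1) * 2 ^ k)) ((ξ.val : ℝ) / M) -
        wm p S b (N (2 ^ (K + 1) - 1 - 2 * q * 2 ^ k)) ((ξ.val : ℝ) / M)‖ ^ 2 * ‖ft g ξ‖ ^ 2 := by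
      intro q
      rw [n2_eq_ft]
      refine sum_congr rfl fun ξ _ => ?_
      rw [ft_sub (wb p S b (N (2 ^ (K + 1) - 1 - (2 * q + 1) * 2 ^ k)) g)
        (wb p S b (N (2 ^ (K + 1) - 1 - 2 * q * 2 ^ k)) g), ft_wb, ft_wb, ← sub_mul, norm_mul,
        mul_pow]
    rw [sum_congr rfl (fun q _ => h2 q), sum_comm]
    refine sum_congr rfl fun ξ _ => ?_
    rw [hW, sum_mul]
  have h3 : ∀ ξ : ZMod M, W ξ * ‖ft g ξ‖ ^ 2 ≤ G * K * ‖ft g ξ‖ ^ 2 +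
      2 ^ K * 4 * T ^ 2 * ‖ft (fun x => g (x + 1) - g x) ξ‖ ^ 2 := by
    intro ξ
    have hf0 : 0 ≤ ‖ft g ξ‖ ^ 2 := sq_nonneg _
    rcases le_or_gt (nrm ((ξ.val : ℝ) / M) * T) 1 with h | h
    · have h4 : W ξ ≤ G * K := by
        have h5 := hwm K b N ((ξ.val : ℝ) / M - round ((ξ.val : ℝ) / M)) hK hN hb h k hk
        simp only [wm_sub_int] at h5
        exact h5
      have h6 : W ξ * ‖ft g ξ‖ ^ 2 ≤ G * K * ‖ft g ξ‖ ^ 2 := mul_le_mul_of_nonneg_right h4 hf0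
      have h7 : 0 ≤ 2 ^ K * 4 * T ^ 2 * ‖ft (fun x => g (x + 1) - g x) ξ‖ ^ 2 := by positivity
      linarith
    · have h4 : W ξ ≤ 2 ^ K * 4 := by
        have h5 : W ξ ≤ (range (2 ^ (K - k - 1))).card • (4 : ℝ) := by
          refine sum_le_card_nsmul _ _ _ fun q _ => ?_
          have h6 := norm_wm_le_one p S b (N (2 ^ (K + 1) - 1 - (2 * q + 1) * 2 ^ k))
            ((ξ.val : ℝ) / M)
          have h7 := norm_wm_le_one p S b (N (2 ^ (K + 1) - 1 - 2 * q * 2 ^ k)) ((ξ.val : ℝ) / M)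
          have h8 := (norm_sub_le (wm p S b (N (2 ^ (K + 1) - 1 - (2 * q + 1) * 2 ^ k))
            ((ξ.val : ℝ) / M)) (wm p S b (N (2 ^ (K + 1) - 1 - 2 * q * 2 ^ k))
            ((ξ.val : ℝ) / M))).trans (add_le_add h6 h7)
          calc _ ≤ ((1 : ℝ) + 1) ^ 2 := pow_le_pow_left₀ (norm_nonneg _) h8 2
            _ = 4 := by norm_num
        rw [card_range, nsmul_eq_mul] at h5
        refine h5.trans (mul_le_mul_of_nonneg_right ?_ (by norm_num))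
        have h6 : 2 ^ (K - k - 1) ≤ 2 ^ K := Nat.pow_le_pow_right (by norm_num) (by omega)
        exact_mod_cast h6
      have h5 : 1 ≤ T * ‖ex ((ξ.val : ℝ) / M) - 1‖ := by
        have h6 := four_nrm_le ((ξ.val : ℝ) / M)
        have h7 := nrm_nonneg ((ξ.val : ℝ) / M)
        nlinarith
      have h6 : ‖ft g ξ‖ ≤ T * ‖ft (fun x => g (x + 1) - g x) ξ‖ := by
        rw [ft_diff, norm_mul, ← mul_assoc]
        exact le_mul_of_one_le_left (norm_nonneg _) h5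
      have h7 : ‖ft g ξ‖ ^ 2 ≤ T ^ 2 * ‖ft (fun x => g (x + 1) - g x) ξ‖ ^ 2 := by
        rw [← mul_pow]
        exact pow_le_pow_left₀ (norm_nonneg _) h6 2
      calc W ξ * ‖ft g ξ‖ ^ 2 ≤ 2 ^ K * 4 * ‖ft g ξ‖ ^ 2 := mul_le_mul_of_nonneg_right h4 hf0
        _ ≤ 2 ^ K * 4 * (T ^ 2 * ‖ft (fun x => g (x + 1) - g x) ξ‖ ^ 2) :=
            mul_le_mul_of_nonneg_left h7 (by positivity)
        _ = 0 + 2 ^ K * 4 * T ^ 2 * ‖ft (fun x => g (x + 1) - g x) ξ‖ ^ 2 := by ring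
        _ ≤ _ := add_le_add (by positivity) le_rfl
  rw [h1]
  refine (sum_le_sum fun ξ _ => h3 ξ).trans ?_
  rw [sum_add_distrib, ← mul_sum, ← mul_sum, ← n2_eq_ft, ← n2_eq_ft]
  refine add_le_add le_rfl ?_
  have h8 : n2 (fun x => g (x + 1) - g x) ≤ κ ^ 2 :=
    avr_le fun x => pow_le_pow_left₀ (norm_nonneg _) (hg x) 2
  calc 2 ^ K * 4 * T ^ 2 * n2 (fun x => g (x + 1) - g x) ≤ 2 ^ K * 4 * T ^ 2 * κ ^ 2 :=
        mul_le_mul_of_nonneg_left h8 (by positivity)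
    _ = 2 ^ K * 4 * (T * κ) ^ 2 := by ring

end Pool.Agent.EQD
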