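import Pool.Agent.Lib.EQD.GlB

/-!
# Module Wfib: Bessel inequality and moments of the projection on the fibre

(target statements of the W part; see /team-store/EqD_paper.md, section 3, W)
-/

set_option autoImplicit false

open Finset Polynomial

namespace Pool.Agent.EQD

open Pool.Agent.HLT Pool.Agent.NLT Pool.Agent.NLG

theorem qU_union_le {Q a : ℕ} {Ps U V : Finset ℕ} {M : ℕ} (h : WS M Q a Ps) (hU : U ⊆ Ps) (hV : V ⊆ Ps) :
    qU Q a (U ∪ V) ≤ qU Q a U * qU Q a V := by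
  classical
  have h1 : (∏ p ∈ U ∪ V, p ^ a) ≤ (∏ p ∈ U, p ^ a) * ∏ p ∈ V, p ^ a := by
    rw [← union_sdiff_self_eq_union, prod_union disjoint_sdiff]
    apply Nat.mul_le_mul_left
    apply Finset.prod_le_prod_of_subset_of_one_le' sdiff_subset
    intro p hp _
    exact Nat.one_le_pow _ _ (h.prime p (hV hp)).pos
  unfold qU
  have hQ := h.pos
  have h2 : 1 ≤ ∏ p ∈ V, p ^ a := Finset.prod_pos fun p hp => pow_pos (h.prime p (hV hp)).pos _
  calc Q * ∏ p ∈ U ∪ V, p ^ a ≤ Q * ((∏ p ∈ U, p ^ a) * ∏ p ∈ V, p ^ a) := Nat.mul_le_mul_left _ h1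
    _ = (Q * ∏ p ∈ U, p ^ a) * (1 * ∏ p ∈ V, p ^ a) := by ring
    _ ≤ (Q * ∏ p ∈ U, p ^ a) * (Q * ∏ p ∈ V, p ^ a) := by gcongr

/-- The numerical consequence of the smallness of the moduli. -/
theorem tny_num {Q a k L : ℕ} {Ps : Finset ℕ} {M : ℕ} (h : WS M Q a Ps) (ht : Tny Q a k 1 L Ps) :
    ∃ X : ℕ, (∀ U ⊆ Ps, ∀ V ⊆ Ps, U.card ≤ k → V.card ≤ k → qU Q a (U ∪ V) ≤ X) ∧
      2 * ((Ps.card + 2) ^ (k + 1) * 2 ^ (k + 1)) ^ 2 * X ≤ L := by
  classical
  -- largest modulus
  have hne : (Ps.powerset.filter (fun U => U.card ≤ k)).Nonempty := ⟨∅, by simp⟩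
  obtain ⟨U0, hU0, hmax⟩ := Finset.exists_max_image (Ps.powerset.filter (fun U => U.card ≤ k)) (fun U => qU Q a U) hne
  rw [mem_filter, mem_powerset] at hU0
  refine ⟨qU Q a U0 * qU Q a U0, fun U hU V hV hUk hVk => ?_, ?_⟩
  · refine (qU_union_le h hU hV).trans (Nat.mul_le_mul ?_ ?_)
    · exact hmax U (by rw [mem_filter, mem_powerset]; exact ⟨hU, hUk⟩)
    · exact hmax V (by rw [mem_filter, mem_powerset]; exact ⟨hV, hVk⟩)
  · have h1 := ht U0 hU0.1 hU0.2
    set m := qU Q a U0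
    have hm : 1 ≤ m := Nat.mul_pos h.pos (Finset.prod_pos fun p hp => pow_pos (h.prime p (hU0.1 hp)).pos _)
    set c := (4 * (Ps.card + 2)) ^ (k + 1) with hc
    have hc' : (Ps.card + 2) ^ (k + 1) * 2 ^ (k + 1) ≤ c := by
      rw [hc, ← mul_pow]
      exact Nat.pow_le_pow_left (by omega) _
    have hc2 : 2 ≤ c := by
      calc 2 ≤ (4 * (Ps.card + 2)) ^ 1 := by rw [pow_one]; omega
        _ ≤ c := Nat.pow_le_pow_right (by omega) (by omega)
    have hmc : 2 ≤ m * c := by nlinarith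
    calc 2 * ((Ps.card + 2) ^ (k + 1) * 2 ^ (k + 1)) ^ 2 * (m * m) ≤ 2 * c ^ 2 * (m * m) := by gcongr
      _ = 2 * (m * c) ^ 2 := by ring
      _ ≤ (m * c) * (m * c) ^ 2 := by gcongr
      _ = (m * c) ^ 3 := by ring
      _ ≤ (m * c) ^ (16 * 1) := Nat.pow_le_pow_right (by omega) (by omega)
      _ ≤ L := h1

/-- Bessel inequality. -/
theorem bessel_fib (M : ℕ) [NeZero M] (Q a k L : ℕ) (Ps : Finset ℕ) (h : WS M Q a Ps) (ht : Tny Q a k 1 L Ps) (s : ZMod M)
    (f : ZMod M → ℂ) (hf : Bd f) (z : ZMod M) : n2 (vK Q a k L Ps s f z) ≤ 2 := by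
  classical
  obtain ⟨X, hX, hL⟩ := tny_num h ht
  have hpr : ∀ p ∈ Ps, p.Prime := fun p hp => h.prime p hp
  set F : Finset (Finset ℕ) := (range (k + 1)).biUnion (fun i => Ps.powersetCard i) with hF
  have hmem : ∀ T ∈ F, T ⊆ Ps ∧ T.card ≤ k := by
    intro T hT
    rw [hF, mem_biUnion] at hT
    obtain ⟨i, hi, hT⟩ := hT
    rw [mem_powersetCard] at hT
    rw [mem_range] at hi
    exact ⟨hT.1, by omega⟩
  have hsum : ∀ y, vK Q a k L Ps s f z y = ∑ T ∈ F, vS Q a L s f T z y := by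
    intro y
    unfold vK
    rw [hF, sum_biUnion]
    intro i _ j _ hij
    rw [Function.onFun, disjoint_left]
    intro T h1 h2
    exact hij ((mem_powersetCard.mp h1).2.symm.trans (mem_powersetCard.mp h2).2)
  have hcard : F.card ≤ (Ps.card + 2) ^ (k + 1) := (card_biUnion_le).trans (card_comp k Ps)
  have hQX : Q ≤ X := by
    have := hX ∅ (empty_subset _) ∅ (empty_subset _) (by simp) (by simp)
    rwa [empty_union, qU_empty] at this
  have hg := fun y => gl0 h L s f hf z k X ((Ps.card + 2) ^ (k + 1)) F (fun T hT => (hmem T hT).1) (fun T hT => (hmem T hT).2)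
    hcard (Nat.one_le_pow _ _ (by omega)) (fun T hT T' hT' => hX T (hmem T hT).1 T' (hmem T' hT').1 (hmem T hT).2 (hmem T' hT').2)
    hQX hL y
  unfold n2
  rw [← avr_AV Ps hpr]
  simp only [hsum]
  refine (avr_mono' _ (fun _ => 2) hg).trans (le_of_eq ?_)
  have hM : (M : ℝ) ≠ 0 := by exact_mod_cast NeZero.ne M
  simp only [avr, sum_const, card_univ, ZMod.card, nsmul_eq_mul]
  field_simp

/-- All moments are bounded. -/
theorem w_fib (k r : ℕ) (hr : 1 ≤ r) : ∃ C : ℕ, 1 ≤ C ∧ ∀ (M : ℕ) [NeZero M] (Q a L : ℕ) (Ps : Finset ℕ), WS M Q a Ps →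
    Tny Q a k 1 L Ps → ∀ (s : ZMod M) (f : ZMod M → ℂ), Bd f → ∀ z : ZMod M, nq (2 * r) (vK Q a k L Ps s f z) ≤ C := by
  classical
  refine ⟨(k + 1) ^ (2 * r - 1) * ((k + 1) * (64 ^ (r * (r * k)) * ((2 * 4 ^ k) ^ (r - 1) * (2 ^ k * 2)))), ?_, ?_⟩
  · exact Nat.mul_pos (by positivity) (Nat.mul_pos (by omega) (by positivity))
  intro M _ Q a L Ps h ht s f hf z
  obtain ⟨X, hX, hL⟩ := tny_num h ht
  have hpr : ∀ p ∈ Ps, p.Prime := fun p hp => h.prime p hp
  have hadp := adp_vS h L s f z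
  have hN1 : 1 ≤ (Ps.card + 2) ^ (k + 1) := Nat.one_le_pow _ _ (by omega)
  have hQX : Q ≤ X := by
    have := hX ∅ (empty_subset _) ∅ (empty_subset _) (by simp) (by simp)
    rwa [empty_union, qU_empty] at this
  -- sizes of the families
  have hcardi : ∀ i ≤ k, (Ps.powersetCard i).card ≤ (Ps.card + 2) ^ (k + 1) := by
    intro i hi
    refine le_trans ?_ (card_comp k Ps)
    exact Finset.single_le_sum (f := fun i => (Ps.powersetCard i).card) (fun _ _ => Nat.zero_le _) (by rw [mem_range]; omega)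
  -- each degree
  have hdeg : ∀ i ≤ k, nq (2 * r) (fun y => ∑ T ∈ Ps.powersetCard i, vS Q a L s f T z y) ≤
      64 ^ (r * (r * k)) * ((2 * 4 ^ k) ^ (r - 1) * (2 ^ k * 2)) := by
    intro i hi
    have hmem : ∀ T ∈ Ps.powersetCard i, T ⊆ Ps ∧ T.card ≤ k := fun T hT =>
      ⟨(mem_powersetCard.mp hT).1, by rw [(mem_powersetCard.mp hT).2]; exact hi⟩
    have hB : n2 (fun y => ∑ T ∈ Ps.powersetCard i, vS Q a L s f T z y) ≤ 2 := by
      have hg := fun y => gl0 h L s f hf z k X ((Ps.card + 2) ^ (k + 1)) (Ps.powersetCard i) (fun T hT => (hmem T hT).1)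
        (fun T hT => (hmem T hT).2) (hcardi i hi) hN1
        (fun T hT T' hT' => hX T (hmem T hT).1 T' (hmem T' hT').1 (hmem T hT).2 (hmem T' hT').2) hQX hL y
      unfold n2
      rw [← avr_AV Ps hpr]
      refine (avr_mono' _ (fun _ => 2) hg).trans (le_of_eq ?_)
      have hM : (M : ℝ) ≠ 0 := by exact_mod_cast NeZero.ne M
      simp only [avr, sum_const, card_univ, ZMod.card, nsmul_eq_mul]
      field_simp
    have hinf : ∀ S ⊆ Ps, S.card ≤ i → ∀ y, AV (Ps \ S)
        (fun y => ‖∑ T ∈ (Ps.powersetCard i).filter (fun T => S ⊆ T), vS Q a L s f T z y‖ ^ 2) y ≤ 2 * 4 ^ k := by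
      intro S hS hSi y
      set F := (Ps \ S).powersetCard (i - S.card) with hF
      have hre : ∀ y, (∑ T ∈ (Ps.powersetCard i).filter (fun T => S ⊆ T), vS Q a L s f T z y) =
          ∑ T ∈ F, vS Q a L s f (S ∪ T) z y := by
        intro y
        symm
        apply Finset.sum_nbij' (fun T => S ∪ T) (fun T => T \ S)
        · intro T hT
          obtain ⟨h1, h2⟩ := mem_powersetCard.mp hT
          rw [mem_filter, mem_powersetCard]
          have hdis : Disjoint S T := by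
            rw [disjoint_left]; intro q hq hq'
            exact (mem_sdiff.mp (h1 hq')).2 hq
          refine ⟨⟨union_subset hS (h1.trans sdiff_subset), ?_⟩, subset_union_left⟩
          rw [card_union_of_disjoint hdis, h2]; omega
        · intro T hT
          rw [mem_filter, mem_powersetCard] at hT
          rw [hF, mem_powersetCard]
          exact ⟨sdiff_subset_sdiff hT.1.1 (Subset.refl _), by rw [card_sdiff_of_subset hT.2, hT.1.2]⟩
        · intro T hT
          obtain ⟨h1, h2⟩ := mem_powersetCard.mp hT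
          have hdis : Disjoint T S := by
            rw [disjoint_left]; intro q hq hq'
            exact (mem_sdiff.mp (h1 hq)).2 hq'
          rw [union_sdiff_left, sdiff_eq_self_of_disjoint hdis]
        · intro T hT
          rw [mem_filter] at hT
          exact union_sdiff_of_subset hT.2
        · intro T _; rfl
      simp only [hre]
      have hdisj : Disjoint S (Ps \ S) := disjoint_sdiff
      have hun : S ∪ (Ps \ S) = Ps := union_sdiff_of_subset hS
      have hFm : ∀ T ∈ F, T ⊆ Ps \ S ∧ T.card = i - S.card := fun T hT => mem_powersetCard.mp hT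
      have hdT : ∀ T ∈ F, Disjoint S T := fun T hT => hdisj.mono_right (hFm T hT).1
      have hST : ∀ T ∈ F, S ∪ T ⊆ Ps ∧ (S ∪ T).card ≤ k := fun T hT =>
        ⟨union_subset hS ((hFm T hT).1.trans sdiff_subset), by
          rw [card_union_of_disjoint (hdT T hT), (hFm T hT).2]; omega⟩
      have hFc : F.card ≤ (Ps.card + 2) ^ (k + 1) := by
        refine le_trans ?_ (hcardi (i - S.card) (by omega))
        exact card_le_card (powersetCard_mono sdiff_subset)
      refine (glob L s f hf z k X ((Ps.card + 2) ^ (k + 1)) hN1 hL (Ps \ S) S Q hdisj (by rw [hun]; exact h) F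
        (fun T hT => (hFm T hT).1) (fun T hT => by rw [(hFm T hT).2]; omega) hFc ?_ ?_ y).trans ?_
      · intro T hT T' hT'
        have e : S ∪ (T ∪ T') = (S ∪ T) ∪ (S ∪ T') := by
          ext q; simp only [mem_union]; tauto
        rw [e]
        exact hX _ (hST T hT).1 _ (hST T' hT').1 (hST T hT).2 (hST T' hT').2
      · have := hX S hS S hS (by omega) (by omega)
        rwa [union_self] at this
      · have : (4 : ℝ) ^ S.card ≤ 4 ^ k := pow_le_pow_right₀ (by norm_num) (by omega)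
        linarith
    refine (hyp_w r hr i (2 * 4 ^ k) (by positivity) Ps hpr (fun T => vS Q a L s f T z) hadp hinf).trans ?_
    have hik : r * (r * i) ≤ r * (r * k) := Nat.mul_le_mul_left _ (Nat.mul_le_mul_left _ hi)
    have h64 : (64 : ℝ) ^ (r * (r * i)) ≤ 64 ^ (r * (r * k)) := pow_le_pow_right₀ (by norm_num) hik
    have h2i : (2 : ℝ) ^ i ≤ 2 ^ k := pow_le_pow_right₀ (by norm_num) hi
    have hn0 : 0 ≤ n2 (fun y => ∑ T ∈ Ps.powersetCard i, vS Q a L s f T z y) := avr_nonneg' _ fun y => by positivity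
    gcongr
  -- sum over the degrees
  have hpt : ∀ y, ‖vK Q a k L Ps s f z y‖ ^ (2 * r) ≤ ((k : ℝ) + 1) ^ (2 * r - 1) *
      ∑ i ∈ range (k + 1), ‖∑ T ∈ Ps.powersetCard i, vS Q a L s f T z y‖ ^ (2 * r) := by
    intro y
    obtain ⟨n, hn⟩ : ∃ n, 2 * r = n + 1 := ⟨2 * r - 1, by omega⟩
    have h1 : ‖vK Q a k L Ps s f z y‖ ≤ ∑ i ∈ range (k + 1), ‖∑ T ∈ Ps.powersetCard i, vS Q a L s f T z y‖ := norm_sum_le _ _
    have h2 := pow_sum_div_card_le_sum_pow (s := range (k + 1))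
      (f := fun i => ‖∑ T ∈ Ps.powersetCard i, vS Q a L s f T z y‖) (fun i _ => norm_nonneg _) n
    rw [card_range] at h2
    rw [hn, Nat.add_sub_cancel]
    have hpos : (0 : ℝ) < ((k + 1 : ℕ) : ℝ) ^ n := by positivity
    rw [div_le_iff₀ hpos] at h2
    calc ‖vK Q a k L Ps s f z y‖ ^ (n + 1) ≤
        (∑ i ∈ range (k + 1), ‖∑ T ∈ Ps.powersetCard i, vS Q a L s f T z y‖) ^ (n + 1) :=
          pow_le_pow_left₀ (norm_nonneg _) h1 _
      _ ≤ _ := h2
      _ = _ := by push_cast; ring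
  have hfin : nq (2 * r) (vK Q a k L Ps s f z) ≤ ((k : ℝ) + 1) ^ (2 * r - 1) *
      ∑ i ∈ range (k + 1), nq (2 * r) (fun y => ∑ T ∈ Ps.powersetCard i, vS Q a L s f T z y) := by
    unfold nq
    refine (avr_mono' _ _ hpt).trans (le_of_eq ?_)
    rw [avr_mul_left', avr_sum']
  refine hfin.trans ?_
  have hs : ∑ i ∈ range (k + 1), nq (2 * r) (fun y => ∑ T ∈ Ps.powersetCard i, vS Q a L s f T z y) ≤
      ((k : ℝ) + 1) * (64 ^ (r * (r * k)) * ((2 * 4 ^ k) ^ (r - 1) * (2 ^ k * 2))) := by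
    refine (sum_le_sum fun i hi => hdeg i (by rw [mem_range] at hi; omega)).trans (le_of_eq ?_)
    rw [sum_const, card_range, nsmul_eq_mul]
    push_cast
    ring
  push_cast
  exact mul_le_mul_of_nonneg_left hs (by positivity)

end Pool.Agent.EQD
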