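import Pool.Agent.Lib.EQD.SlC
import Pool.Agent.Lib.EQD.Wfib

/-!
# Module Wlin: moments of the structured functions

PROOF. `w_vT_fib`: from `w_fib` for `k` and for `k = 0` (`Tny` for `0` follows from `Tny` for `k`: `U = ∅`-type sets and smaller exponent), `|a - b| ^ (2 r) ≤ 2 ^ (2 r) (|a| ^ (2 r) + |b| ^ (2 r))`.
`w_vT_lin`: average over `z` of `w_vT_fib` and `diag_nq` with `K = 2 (4 (#Ps + 2)) ^ (k + 1)`, `q = qm` = the largest `qU Q a U`, `|U| ≤ k`, `κ = K qm / L`: the error is at most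
`2 r K ^ (4 r + 1) qm ^ (2 r + 1) / L ≤ 2 r 2 ^ (4 r + 1)` by `Tny Q a k r`. `bessel_vT`: from `bessel_fib`. `vT_two_avg`: the components with `S ≠ ∅` have average `0` over the cosets of
`Q ZMod M`, which contains the `p`-primary subgroup for `p ∈ S` (`vS_Ep_mem`).
-/

set_option autoImplicit false

open Finset Polynomial

namespace Pool.Agent.EQD

open Pool.Agent.HLT Pool.Agent.NLT Pool.Agent.NLG

namespace WlinAux

theorem tny_mono {M : ℕ} {Q a k k' r r' L : ℕ} {Ps : Finset ℕ} (hW : WS M Q a Ps) (h : Tny Q a k r L Ps) (hk : k' ≤ k)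
    (hr : r' ≤ r) : Tny Q a k' r' L Ps := by
  intro U hU hc
  have hq : 1 ≤ qU Q a U := by
    unfold qU
    exact Nat.mul_pos hW.pos (Finset.prod_pos fun p hp => pow_pos (hW.prime p (hU hp)).pos a)
  refine le_trans ?_ (h U hU (hc.trans hk))
  have h1 : qU Q a U * (4 * (Ps.card + 2)) ^ (k' + 1) ≤ qU Q a U * (4 * (Ps.card + 2)) ^ (k + 1) :=
    Nat.mul_le_mul_left _ (Nat.pow_le_pow_right (by omega) (by omega))
  have h2 : 1 ≤ qU Q a U * (4 * (Ps.card + 2)) ^ (k + 1) :=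
    Nat.mul_pos hq (pow_pos (by omega) _)
  exact (Nat.pow_le_pow_left h1 _).trans (Nat.pow_le_pow_right h2 (by omega))

section group

variable {M : ℕ} [NeZero M]

theorem vT_cases (Q a k L : ℕ) (Ps : Finset ℕ) (ty : ℕ) (s : ZMod M) (f : ZMod M → ℂ) (z : ZMod M) :
    vT Q a k L Ps ty s f z = vK Q a 0 L Ps s f z ∨ vT Q a k L Ps ty s f z = vK Q a k L Ps s f z ∨
      vT Q a k L Ps ty s f z = fun y => vK Q a k L Ps s f z y + (-1) * vK Q a 0 L Ps s f z y := by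
  by_cases h0 : ty = 0
  · left
    funext y
    unfold vT
    rw [if_pos h0]
  · by_cases h1 : ty = 1
    · right; left
      funext y
      unfold vT
      rw [if_neg h0, if_pos h1]
    · right; right
      funext y
      unfold vT
      rw [if_neg h0, if_neg h1]
      ring

theorem n2_neg (f : ZMod M → ℂ) : n2 (fun y => (-1) * f y) = n2 f := by
  unfold n2
  congr 1
  funext x
  rw [norm_mul, norm_neg, norm_one, one_mul]

theorem nq_nonneg (r : ℕ) (f : ZMod M → ℂ) : 0 ≤ nq r f := avr_nonneg fun _ => pow_nonneg (norm_nonneg _) _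

theorem pow_add_le (r : ℕ) (u v : ℝ) (hu : 0 ≤ u) (hv : 0 ≤ v) : (u + v) ^ r ≤ 2 ^ r * (u ^ r + v ^ r) := by
  have hm : (u + v) ≤ 2 * max u v := by
    have := le_max_left u v
    have := le_max_right u v
    linarith
  calc (u + v) ^ r ≤ (2 * max u v) ^ r := pow_le_pow_left₀ (add_nonneg hu hv) hm r
    _ = 2 ^ r * (max u v) ^ r := mul_pow _ _ _
    _ ≤ 2 ^ r * (u ^ r + v ^ r) := by
      refine mul_le_mul_of_nonneg_left ?_ (by positivity)
      rcases le_total u v with h | h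
      · rw [max_eq_right h]
        have := pow_nonneg hu r
        linarith
      · rw [max_eq_left h]
        have := pow_nonneg hv r
        linarith

theorem nq_add_le (r : ℕ) (f g : ZMod M → ℂ) : nq r (fun y => f y + (-1) * g y) ≤ 2 ^ r * (nq r f + nq r g) := by
  unfold nq
  rw [← avr_add, ← avr_mul_left]
  refine avr_mono fun x => ?_
  have h1 : ‖f x + (-1) * g x‖ ≤ ‖f x‖ + ‖g x‖ := by
    refine (norm_add_le _ _).trans ?_
    rw [norm_mul, norm_neg, norm_one, one_mul]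
  exact (pow_le_pow_left₀ (norm_nonneg _) h1 r).trans (pow_add_le r _ _ (norm_nonneg _) (norm_nonneg _))

theorem sum_range_zmod (G : ZMod M → ℂ) : ∑ i ∈ range M, G (i : ZMod M) = ∑ t, G t := by
  refine Finset.sum_bij' (fun i _ => (i : ZMod M)) (fun t _ => t.val) ?_ ?_ ?_ ?_ ?_
  · intro i _
    exact mem_univ _
  · intro t _
    exact mem_range.2 (ZMod.val_lt t)
  · intro i hi
    exact ZMod.val_cast_of_lt (mem_range.1 hi)
  · intro t _
    exact ZMod.natCast_zmod_val t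
  · intro i _
    rfl

theorem sum_vS_zero {Q a : ℕ} {S Ps : Finset ℕ} (h : WS M Q a Ps) (hS : S ⊆ Ps) {p : ℕ} (hp : p ∈ S) (L : ℕ) (s : ZMod M)
    (f : ZMod M → ℂ) (z y : ZMod M) : ∑ i ∈ range M, vS Q a L s f S z (y + ((Q * i : ℕ) : ZMod M)) = 0 := by
  have hpp := h.prime p (hS hp)
  set v := M.factorization p with hv
  have hpv0 : p ^ v ≠ 0 := pow_ne_zero _ hpp.ne_zero
  have hQM : Q ∣ M := (Dvd.intro _ rfl : Q ∣ qU Q a Ps).trans h.dvd
  have hcop : Nat.Coprime Q p := ((Nat.Prime.coprime_iff_not_dvd hpp).2 (h.cop p (hS hp))).symm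
  have hd : Q ∣ M / p ^ v := MuAAux.dvd_div hv hcop hQM
  obtain ⟨c, hc⟩ := hd
  set F : ZMod M → ℂ := vS Q a L s f S z with hF
  have h1 : ∀ j : ℕ, ∑ t : ZMod M, F (y + (Q : ZMod M) * t + ((M / p ^ v * j : ℕ) : ZMod M)) =
      ∑ t : ZMod M, F (y + (Q : ZMod M) * t) := by
    intro j
    rw [← Equiv.sum_comp (Equiv.addRight ((c * j : ℕ) : ZMod M)) (fun t => F (y + (Q : ZMod M) * t))]
    refine Finset.sum_congr rfl fun t _ => ?_
    rw [Equiv.coe_addRight, hc]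
    congr 1
    push_cast
    ring
  have h2 : ∑ i ∈ range M, F (y + ((Q * i : ℕ) : ZMod M)) = ∑ t : ZMod M, F (y + (Q : ZMod M) * t) := by
    rw [← sum_range_zmod (fun t => F (y + (Q : ZMod M) * t))]
    refine Finset.sum_congr rfl fun i _ => ?_
    push_cast
    rfl
  rw [h2]
  have h3 : ∑ t : ZMod M, Ep p F (y + (Q : ZMod M) * t) = 0 :=
    Finset.sum_eq_zero fun t _ => vS_Ep_mem h hS p hp L s f z _
  have h4 : ∑ t : ZMod M, Ep p F (y + (Q : ZMod M) * t) = ∑ t : ZMod M, F (y + (Q : ZMod M) * t) := by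
    unfold Ep Eb tv
    rw [← Finset.sum_div, Finset.sum_comm]
    rw [← hv]
    rw [Finset.sum_congr rfl fun j _ => h1 j, Finset.sum_const, card_range, nsmul_eq_mul]
    have h5 : ((p ^ v : ℕ) : ℂ) ≠ 0 := by exact_mod_cast hpv0
    field_simp
  rw [← h4, h3]

theorem exists_qm {Q a k r L : ℕ} {Ps : Finset ℕ} (h : WS M Q a Ps) (ht : Tny Q a k r L Ps) :
    ∃ qm : ℕ, 1 ≤ qm ∧ (∀ U, U ⊆ Ps → U.card ≤ k → qU Q a U ≤ qm) ∧
      (qm * (4 * (Ps.card + 2)) ^ (k + 1)) ^ (16 * r) ≤ L := by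
  have hne : (Ps.powerset.filter (fun U => U.card ≤ k)).Nonempty :=
    ⟨∅, mem_filter.2 ⟨empty_mem_powerset _, by simp⟩⟩
  obtain ⟨V, hV, he⟩ := exists_max_image _ (fun U => qU Q a U) hne
  rw [mem_filter, mem_powerset] at hV
  refine ⟨qU Q a V, qU_pos h hV.1, fun U hU hc => he U (mem_filter.2 ⟨mem_powerset.2 hU, hc⟩), ?_⟩
  exact ht V hV.1 hV.2

end group

end WlinAux

open WlinAux

theorem bessel_vT (M : ℕ) [NeZero M] (Q a k L : ℕ) (Ps : Finset ℕ) (h : WS M Q a Ps) (ht : Tny Q a k 1 L Ps) (ty : ℕ) (s : ZMod M)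
    (f : ZMod M → ℂ) (hf : Bd f) (z : ZMod M) : n2 (vT Q a k L Ps ty s f z) ≤ 8 := by
  have h1 := bessel_fib M Q a k L Ps h ht s f hf z
  have h2 := bessel_fib M Q a 0 L Ps h (tny_mono h ht (Nat.zero_le _) le_rfl) s f hf z
  rcases vT_cases Q a k L Ps ty s f z with e | e | e
  · rw [e]
    linarith
  · rw [e]
    linarith
  · rw [e]
    have h3 := n2_add_le (vK Q a k L Ps s f z) (fun y => (-1) * vK Q a 0 L Ps s f z y)
    rw [n2_neg] at h3
    linarith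

theorem w_vT_fib (k r : ℕ) (hr : 1 ≤ r) : ∃ C : ℕ, 1 ≤ C ∧ ∀ (M : ℕ) [NeZero M] (Q a L : ℕ) (Ps : Finset ℕ), WS M Q a Ps →
    Tny Q a k 1 L Ps → ∀ (ty : ℕ) (s : ZMod M) (f : ZMod M → ℂ), Bd f → ∀ z : ZMod M, nq (2 * r) (vT Q a k L Ps ty s f z) ≤ C := by
  obtain ⟨C1, hC1, h1⟩ := w_fib k r hr
  obtain ⟨C2, hC2, h2⟩ := w_fib 0 r hr
  refine ⟨2 ^ (2 * r) * (C1 + C2), ?_, ?_⟩
  · exact Nat.mul_pos (by positivity) (by omega)
  intro M _ Q a L Ps h ht ty s f hf z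
  have h3 := h1 M Q a L Ps h ht s f hf z
  have h4 := h2 M Q a L Ps h (tny_mono h ht (Nat.zero_le _) le_rfl) s f hf z
  have hp : (1 : ℝ) ≤ 2 ^ (2 * r) := one_le_pow₀ (by norm_num)
  have hc1 : (0 : ℝ) ≤ C1 := Nat.cast_nonneg _
  have hc2 : (0 : ℝ) ≤ C2 := Nat.cast_nonneg _
  push_cast
  have h5 : (C1 : ℝ) + C2 ≤ 2 ^ (2 * r) * (C1 + C2) := by nlinarith
  rcases vT_cases Q a k L Ps ty s f z with e | e | e
  · rw [e]
    linarith
  · rw [e]
    linarith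
  · rw [e]
    refine (nq_add_le (2 * r) _ _).trans ?_
    exact mul_le_mul_of_nonneg_left (add_le_add h3 h4) (by positivity)

theorem w_vT_lin (k r : ℕ) (hr : 1 ≤ r) : ∃ C : ℕ, 1 ≤ C ∧ ∀ (M : ℕ) [NeZero M] (Q a L : ℕ) (Ps : Finset ℕ), WS M Q a Ps →
    Tny Q a k r L Ps → ∀ (ty : ℕ) (s : ZMod M) (f : ZMod M → ℂ), Bd f → nq (2 * r) (fun x => vT Q a k L Ps ty s f x x) ≤ C := by
  obtain ⟨C0, hC0, h0⟩ := w_vT_fib k r hr
  refine ⟨C0 + 2 * r * 2 ^ (4 * r), by omega, ?_⟩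
  intro M _ Q a L Ps h ht ty s f hf
  obtain ⟨qm, hqm1, hqm2, hqm3⟩ := exists_qm h ht
  set B : ℕ := (4 * (Ps.card + 2)) ^ (k + 1) with hB
  have hB1 : 1 ≤ B := Nat.one_le_pow _ _ (by omega)
  have hqB : 1 ≤ qm * B := Nat.mul_pos hqm1 hB1
  have hqL : qm ≤ L := by
    calc qm ≤ qm * B := Nat.le_mul_of_pos_right _ hB1
      _ = (qm * B) ^ 1 := (pow_one _).symm
      _ ≤ (qm * B) ^ (16 * r) := Nat.pow_le_pow_right hqB (by omega)
      _ ≤ L := hqm3
  have hL0 : (0 : ℝ) < L := by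
    have : 0 < L := lt_of_lt_of_le hqm1 hqL
    exact_mod_cast this
  have hκ : (0 : ℝ) ≤ (4 * ((Ps.card : ℝ) + 2)) ^ (k + 1) * qm / L := by positivity
  have hsl := sl_vT h hqm2 hqL hqm1 ty s f hf
  have hd := diag_nq hκ (by omega : 1 ≤ 2 * (4 * (Ps.card + 2)) ^ (k + 1)) hqm1 hsl r hr
  have havr : avr (fun z => nq (2 * r) (vT Q a k L Ps ty s f z)) ≤ C0 :=
    avr_le fun z => h0 M Q a L Ps h (tny_mono h ht le_rfl hr) ty s f hf z
  have herr : 2 * (r : ℝ) * ((2 * (4 * (Ps.card + 2)) ^ (k + 1) : ℕ) : ℝ) ^ (4 * r) * (qm : ℝ) ^ (2 * r) *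
      ((4 * ((Ps.card : ℝ) + 2)) ^ (k + 1) * qm / L) ≤ 2 * r * 2 ^ (4 * r) := by
    have e1 : ((2 * (4 * (Ps.card + 2)) ^ (k + 1) : ℕ) : ℝ) = 2 * (B : ℝ) := by
      rw [hB]
      push_cast
      ring
    have e2 : (4 * ((Ps.card : ℝ) + 2)) ^ (k + 1) = (B : ℝ) := by
      rw [hB]
      push_cast
      ring
    rw [e1, e2]
    have hB1' : (1 : ℝ) ≤ B := by exact_mod_cast hB1
    have hq1' : (1 : ℝ) ≤ qm := by exact_mod_cast hqm1
    have h3 : ((qm : ℝ) * B) ^ (16 * r) ≤ L := by exact_mod_cast hqm3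
    have h4 : (B : ℝ) ^ (4 * r + 1) * (qm : ℝ) ^ (2 * r + 1) ≤ L := by
      refine le_trans ?_ h3
      rw [mul_pow, mul_comm ((qm : ℝ) ^ (16 * r))]
      refine mul_le_mul (pow_le_pow_right₀ hB1' (by omega)) (pow_le_pow_right₀ hq1' (by omega))
        (by positivity) (by positivity)
    have h5 : (B : ℝ) ^ (4 * r + 1) * (qm : ℝ) ^ (2 * r + 1) / L ≤ 1 := (div_le_one hL0).2 h4
    calc 2 * (r : ℝ) * (2 * (B : ℝ)) ^ (4 * r) * (qm : ℝ) ^ (2 * r) * ((B : ℝ) * qm / L) =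
        2 * r * 2 ^ (4 * r) * ((B : ℝ) ^ (4 * r + 1) * (qm : ℝ) ^ (2 * r + 1) / L) := by
          rw [mul_pow, pow_succ, pow_succ]
          ring
      _ ≤ 2 * r * 2 ^ (4 * r) * 1 := mul_le_mul_of_nonneg_left h5 (by positivity)
      _ = 2 * r * 2 ^ (4 * r) := mul_one _
  have h6 := (abs_le.1 (hd.trans herr)).2
  push_cast
  linarith

/-- A function of type `2` has average zero over the cosets of `Q ZMod M`. -/
theorem vT_two_avg (M : ℕ) [NeZero M] (Q a k L : ℕ) (Ps : Finset ℕ) (h : WS M Q a Ps) (s : ZMod M) (f : ZMod M → ℂ) (z y : ZMod M) :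
    Eb Q M (vT Q a k L Ps 2 s f z) y = 0 := by
  have h1 : ∀ w : ZMod M, vT Q a k L Ps 2 s f z w =
      ∑ i ∈ range k, ∑ S ∈ Ps.powersetCard (i + 1), vS Q a L s f S z w := by
    intro w
    unfold vT
    rw [if_neg (by norm_num), if_neg (by norm_num)]
    unfold vK
    rw [Finset.sum_range_succ' _ k, zero_add, Finset.sum_range_one]
    ring
  unfold Eb tv
  have h2 : ∑ t ∈ range M, vT Q a k L Ps 2 s f z (y + ((Q * t : ℕ) : ZMod M)) = 0 := by
    rw [Finset.sum_congr rfl fun t _ => h1 (y + ((Q * t : ℕ) : ZMod M)), Finset.sum_comm]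
    refine Finset.sum_eq_zero fun i _ => ?_
    rw [Finset.sum_comm]
    refine Finset.sum_eq_zero fun S hS => ?_
    rw [mem_powersetCard] at hS
    have hne : S.Nonempty := by
      rw [← Finset.card_pos, hS.2]
      omega
    obtain ⟨p, hp⟩ := hne
    exact sum_vS_zero h hS.1 hp L s f z y
  rw [h2, zero_div]

end Pool.Agent.EQD
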