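import Pool.Agent.Lib.EQD.EnA
import Pool.Agent.Lib.EQD.Wlin

/-!
# Module EnV: square sums of the structured functions over dyadic intervals of scales

PROOF of `en_box`: the operator `V ↦ tv L (fun h => V (· + ρ + h))` has the multiplier `a_j = ex (β ρ_j) dk L_j β`, `β ∈ [- 1 / 2, 1 / 2]` the representative of `ξ / M`; `en_abs` with `u = |β|`:
`‖1 - a_j‖ ≤ 7 |β| |ρ_j| + π L_j |β| ≤ C' |β| N_j ^ e ≤ C'' |β| 2 ^ (e j)`, `‖a_j‖ ≤ 1 / (2 L_j |β|) ≤ 2 ^ (K A) / (2 N_j ^ e |β|) ≤ 2 ^ (- K)` if `|β| 2 ^ (e j) ≥ 2 ^ (K (A + 1))`. Parseval.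
PROOF of `cell_vK`: `mU q L s f z y = (q / L) ∑_{u < L} g u`, `tv L (fun h => mU q ℓ 0 f (z + s + h) y) = (q / L) ∑_u g u c(u) / ℓ`, `c(u) = #{(h, h') : h < L, h' < ℓ, h + h' = u}`, equal to `ℓ` for
`ℓ - 1 ≤ u < L` and at most `ℓ` otherwise (`u < L + ℓ - 1`): difference at most `2 q ℓ / L` (`q ≤ qm`). Sum over the components (`card_comp`).
PROOF of `en_vT`: for every `y` `en_box` with `V z = vT Q a k ℓ Ps ty 0 f z y`, mean over `y`: `avr_y n2 (V) = avr_z n2 (vT .. z) ≤ 8` (`bessel_vT`); the pointwise errors of `cell_vK` are at most `4 * 2 ^ (- K)`,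
so the difference of the two sums of squares is bounded (`‖a + b‖ ^ 2 ≤ 2 ‖a‖ ^ 2 + 2 ‖b‖ ^ 2`, at most `2 ^ K` terms).
-/

set_option autoImplicit false

open Finset Polynomial

namespace Pool.Agent.EQD

open Pool.Agent.HLT Pool.Agent.NLT Pool.Agent.NLG

namespace EnVAux

/-- The kernel of `V ↦ tv L (fun h => V (· + ρ + h))`. -/
noncomputable def kr (L : ℕ) (ρ : ℤ) : ℤ →₀ ℂ :=
  ∑ h ∈ range L, Finsupp.single (ρ + (h : ℤ)) (1 / (L : ℂ))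

theorem cv_kr {M : ℕ} [NeZero M] (L : ℕ) (ρ : ℤ) (V : ZMod M → ℂ) (z : ZMod M) :
    cv (kr L ρ) V z = tv L (fun h => V (z + ((ρ : ℤ) : ZMod M) + (h : ZMod M))) := by
  unfold kr
  rw [DkBAux.cv_sum]
  unfold tv
  rw [Finset.sum_div]
  refine sum_congr rfl fun h _ => ?_
  rw [DkBAux.cv_single, one_div_mul_eq_div]
  congr 2
  push_cast
  ring

theorem mul_kr (L : ℕ) (ρ : ℤ) (θ : ℝ) : mul (kr L ρ) θ = ex (θ * (ρ : ℝ)) * dk L θ := by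
  unfold kr
  rw [DkBAux.mul_sum]
  unfold dk tv
  rw [Finset.sum_div, Finset.mul_sum]
  refine sum_congr rfl fun h _ => ?_
  rw [DkBAux.mul_single]
  have e : θ * (((ρ + (h : ℤ) : ℤ)) : ℝ) = θ * (ρ : ℝ) + θ * (h : ℝ) := by
    push_cast
    ring
  rw [e, ex_add]
  ring

theorem norm_kr_eq (L : ℕ) (ρ : ℤ) (θ : ℝ) : ‖mul (kr L ρ) θ‖ = ‖dk L θ‖ := by
  rw [mul_kr, norm_mul, norm_ex, one_mul]

theorem norm_kr_le_one (L : ℕ) (ρ : ℤ) (θ : ℝ) : ‖mul (kr L ρ) θ‖ ≤ 1 := by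
  rw [norm_kr_eq]
  exact norm_tv_le_one L _ fun _ => (norm_ex _).le

theorem kr_near (L : ℕ) (hL : 1 ≤ L) (ρ : ℤ) (θ : ℝ) :
    ‖1 - mul (kr L ρ) θ‖ ≤ (7 * |(ρ : ℝ)| + 4 * L) * nrm θ := by
  rw [mul_kr]
  have h0 := nrm_nonneg θ
  have e : 1 - ex (θ * (ρ : ℝ)) * dk L θ =
      (1 - ex (θ * (ρ : ℝ))) + ex (θ * (ρ : ℝ)) * (1 - dk L θ) := by ring
  rw [e]
  have h1 : ‖1 - ex (θ * (ρ : ℝ))‖ ≤ 7 * |(ρ : ℝ)| * nrm θ := by
    rw [norm_sub_rev]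
    refine (norm_ex_sub_one_le _).trans ?_
    have h2 := nrm_int_mul_le ρ θ
    rw [mul_comm (ρ : ℝ) θ] at h2
    linarith
  have h2 : ‖ex (θ * (ρ : ℝ)) * (1 - dk L θ)‖ ≤ 4 * L * nrm θ := by
    rw [norm_mul, norm_ex, one_mul]
    refine (norm_one_sub_dk L hL θ).trans ?_
    have h3 : Real.pi ≤ 4 := Real.pi_le_four
    have h4 : (0 : ℝ) ≤ L := Nat.cast_nonneg _
    exact mul_le_mul_of_nonneg_right (mul_le_mul_of_nonneg_right h3 h4) h0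
  calc ‖(1 - ex (θ * (ρ : ℝ))) + ex (θ * (ρ : ℝ)) * (1 - dk L θ)‖
      ≤ ‖1 - ex (θ * (ρ : ℝ))‖ + ‖ex (θ * (ρ : ℝ)) * (1 - dk L θ)‖ := norm_add_le _ _
    _ ≤ 7 * |(ρ : ℝ)| * nrm θ + 4 * L * nrm θ := add_le_add h1 h2
    _ = _ := by ring

theorem Sc_mono {N : ℕ → ℕ} (hN : Sc N) {i j : ℕ} (h : i ≤ j) : N i ≤ N j := by
  rcases h.eq_or_lt with h | h
  · rw [h]
  · have h1 := (hN i).2
    have h2 := (hN j).1
    have h3 : 2 ^ (i + 1) ≤ 2 ^ j := Nat.pow_le_pow_right (by norm_num) h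
    omega

theorem Sc_pos {N : ℕ → ℕ} (hN : Sc N) (j : ℕ) : 1 ≤ N j :=
  (Nat.one_le_two_pow).trans (hN j).1

/-- Comparison with a geometric progression of ratio two. -/
theorem scale {N : ℕ → ℕ} (hN : Sc N) {e : ℕ} (he : 1 ≤ e) (ν : ℝ) (hν : 0 ≤ ν) (K A : ℕ)
    (hK : 1 ≤ K) :
    ∃ u : ℝ, 0 ≤ u ∧ ∀ j : ℕ, min 1 (ν * (N j : ℝ) ^ e) ≤ 4 * (u * 2 ^ j) ∧
      ((2 : ℝ) ^ (K * (A + 2)) ≤ u * 2 ^ j → (2 : ℝ) ^ (K * (A + 1)) ≤ ν * (N j : ℝ) ^ e) := by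
  classical
  rcases hν.eq_or_lt with h0 | hpos
  · refine ⟨0, le_rfl, fun j => ⟨?_, fun h => ?_⟩⟩
    · rw [← h0]
      simp
    · exfalso
      have : (0 : ℝ) < 2 ^ (K * (A + 2)) := by positivity
      rw [zero_mul] at h
      linarith
  have key : ∀ i j : ℕ, i ≤ j → (ν * (N i : ℝ) ^ e) * N j ≤ (ν * (N j : ℝ) ^ e) * N i := by
    intro i j hij
    obtain ⟨e', rfl⟩ : ∃ e', e = e' + 1 := ⟨e - 1, by omega⟩
    have h1 : (N i : ℝ) ≤ N j := by exact_mod_cast Sc_mono hN hij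
    have h2 : (N i : ℝ) ^ e' ≤ (N j : ℝ) ^ e' := pow_le_pow_left₀ (by positivity) h1 _
    calc (ν * (N i : ℝ) ^ (e' + 1)) * N j = (ν * (N i * N j)) * (N i : ℝ) ^ e' := by ring
      _ ≤ (ν * (N i * N j)) * (N j : ℝ) ^ e' := mul_le_mul_of_nonneg_left h2 (by positivity)
      _ = (ν * (N j : ℝ) ^ (e' + 1)) * N i := by ring
  have hex : ∃ j, 1 < ν * (N j : ℝ) ^ e := by
    obtain ⟨j, hj⟩ := pow_unbounded_of_one_lt (1 / ν) (by norm_num : (1 : ℝ) < 2)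
    refine ⟨j, ?_⟩
    have h1 : (2 : ℝ) ^ j ≤ (N j : ℝ) ^ e := by
      have h2 : (2 : ℕ) ^ j ≤ N j ^ e := (hN j).1.trans (Nat.le_self_pow (by omega) _)
      exact_mod_cast h2
    rw [div_lt_iff₀ hpos] at hj
    nlinarith
  set j0 := Nat.find hex with hj0
  have hj1 : 1 < ν * (N j0 : ℝ) ^ e := Nat.find_spec hex
  have hpow : ∀ j : ℕ, (1 / 2 ^ j0 : ℝ) * 2 ^ j = 2 ^ j / 2 ^ j0 := fun j => by ring
  have hNpos : ∀ j, (0 : ℝ) < N j := fun j => by exact_mod_cast Sc_pos hN j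
  have hNlow : ∀ j, (2 : ℝ) ^ j ≤ N j := fun j => by exact_mod_cast (hN j).1
  have hNup : ∀ j, (N j : ℝ) ≤ 2 ^ (j + 1) := fun j => by exact_mod_cast (hN j).2.le
  refine ⟨1 / 2 ^ j0, by positivity, fun j => ⟨?_, fun h => ?_⟩⟩
  · rw [hpow]
    by_cases hj : j < j0
    · refine (min_le_right _ _).trans ?_
      have h1 : ν * (N (j0 - 1) : ℝ) ^ e ≤ 1 := not_lt.mp (Nat.find_min hex (by omega))
      have h2 := key j (j0 - 1) (by omega)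
      have h3 : (ν * (N j : ℝ) ^ e) * N (j0 - 1) ≤ N j := by
        refine h2.trans ?_
        have := mul_le_mul_of_nonneg_right h1 (hNpos j).le
        linarith
      have h4 : (ν * (N j : ℝ) ^ e) * 2 ^ (j0 - 1) ≤ 2 ^ (j + 1) := by
        have h5 : (ν * (N j : ℝ) ^ e) * 2 ^ (j0 - 1) ≤ (ν * (N j : ℝ) ^ e) * N (j0 - 1) :=
          mul_le_mul_of_nonneg_left (hNlow _) (by positivity)
        exact h5.trans (h3.trans (hNup j))
      have h6 : (2 : ℝ) ^ j0 = 2 * 2 ^ (j0 - 1) := by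
        rw [← pow_succ']
        congr 1
        omega
      rw [← mul_div_assoc, le_div_iff₀ (by positivity), h6]
      have h7 : (2 : ℝ) ^ (j + 1) = 2 * 2 ^ j := by rw [pow_succ']
      rw [h7] at h4
      linarith
    · refine (min_le_left _ _).trans ?_
      have h1 : (2 : ℝ) ^ j0 ≤ 2 ^ j := pow_le_pow_right₀ (by norm_num) (by omega)
      have h2 : (1 : ℝ) ≤ 2 ^ j / 2 ^ j0 := by
        rw [le_div_iff₀ (by positivity)]
        linarith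
      linarith
  · rw [hpow] at h
    have h1 : (1 : ℝ) ≤ 2 ^ (K * (A + 2)) := one_le_pow₀ (by norm_num)
    have hj : j0 ≤ j := by
      by_contra hcon
      have h2 : (2 : ℝ) ^ j < 2 ^ j0 := pow_lt_pow_right₀ (by norm_num) (by omega)
      have h3 : (2 : ℝ) ^ j / 2 ^ j0 < 1 := by
        rw [div_lt_one (by positivity)]
        exact h2
      linarith
    have h2 := key j0 j hj
    have h3 : (N j : ℝ) ≤ (ν * (N j : ℝ) ^ e) * N j0 := by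
      refine le_trans ?_ h2
      have := mul_le_mul_of_nonneg_right hj1.le (hNpos j).le
      linarith
    have h4 : (2 : ℝ) ^ j ≤ (ν * (N j : ℝ) ^ e) * (2 * 2 ^ j0) := by
      have h5 : (ν * (N j : ℝ) ^ e) * N j0 ≤ (ν * (N j : ℝ) ^ e) * (2 * 2 ^ j0) := by
        refine mul_le_mul_of_nonneg_left ?_ (by positivity)
        rw [← pow_succ']
        exact hNup j0
      exact (hNlow j).trans (h3.trans h5)
    have h5 : (2 : ℝ) ^ j / 2 ^ j0 ≤ 2 * (ν * (N j : ℝ) ^ e) := by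
      rw [div_le_iff₀ (by positivity)]
      linarith
    have h6 : (2 : ℝ) ^ (K * (A + 2)) = 2 ^ (K * (A + 1)) * 2 ^ K := by
      rw [← pow_add]
      congr 1
    have h7 : (2 : ℝ) ≤ 2 ^ K := by
      calc (2 : ℝ) = 2 ^ 1 := by norm_num
        _ ≤ 2 ^ K := pow_le_pow_right₀ (by norm_num) hK
    have h8 : (0 : ℝ) < 2 ^ (K * (A + 1)) := by positivity
    have h9 := mul_le_mul_of_nonneg_left h7 h8.le
    linarith

theorem idx {K k q : ℕ} (hk : k < K) (hq : q ∈ range (2 ^ (K - k - 1))) :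
    2 ^ K ≤ 2 ^ (K + 1) - 1 - (2 * q + 1) * 2 ^ k ∧
      2 ^ (K + 1) - 1 - (2 * q + 1) * 2 ^ k < 2 ^ (K + 1) ∧
      2 ^ K ≤ 2 ^ (K + 1) - 1 - 2 * q * 2 ^ k ∧ 2 ^ (K + 1) - 1 - 2 * q * 2 ^ k < 2 ^ (K + 1) := by
  rw [mem_range] at hq
  have h1 : 2 ^ K = 2 ^ (K - k - 1) * 2 * 2 ^ k := by
    rw [← pow_succ, ← pow_add]
    congr 1
    omega
  have h2 : 2 ^ (K + 1) = 2 * 2 ^ K := by rw [pow_succ']
  have h3 : (2 * q + 1) * 2 ^ k + 2 ^ k ≤ 2 ^ K := by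
    rw [h1]
    have h4 : 2 * q + 1 + 1 ≤ 2 ^ (K - k - 1) * 2 := by omega
    calc (2 * q + 1) * 2 ^ k + 2 ^ k = (2 * q + 1 + 1) * 2 ^ k := by ring
      _ ≤ _ := Nat.mul_le_mul_right _ h4
  have h5 : 0 < 2 ^ k := Nat.two_pow_pos k
  have h6 : 2 * q * 2 ^ k + 2 ^ k = (2 * q + 1) * 2 ^ k := by ring
  omega

end EnVAux

open EnVAux

theorem en_box (A C : ℕ) : ∃ G : ℝ, 0 ≤ G ∧ ∀ (M : ℕ) [NeZero M] (K e : ℕ) (N L : ℕ → ℕ) (ρ : ℕ → ℤ) (V : ZMod M → ℂ), 1 ≤ K → 1 ≤ e → Sc N →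
    (∀ j, 2 ^ K ≤ j → j < 2 ^ (K + 1) → N j ^ e ≤ 2 ^ (K * A) * L j ∧ L j ≤ N j ^ e ∧ (ρ j).natAbs ≤ C * N j ^ e) →
    ∀ k < K, ∑ q ∈ range (2 ^ (K - k - 1)),
      n2 (fun z => tv (L (2 ^ (K + 1) - 1 - (2 * q + 1) * 2 ^ k))
            (fun h => V (z + ((ρ (2 ^ (K + 1) - 1 - (2 * q + 1) * 2 ^ k) : ℤ) : ZMod M) + (h : ZMod M))) -
          tv (L (2 ^ (K + 1) - 1 - 2 * q * 2 ^ k))
            (fun h => V (z + ((ρ (2 ^ (K + 1) - 1 - 2 * q * 2 ^ k) : ℤ) : ZMod M) + (h : ZMod M)))) ≤ G * K * n2 V := by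
  obtain ⟨G, hG0, hG⟩ := en_abs (A + 2) (4 * (7 * C + 8))
  refine ⟨G, hG0, ?_⟩
  intro M _ K e N L ρ V hK he hN hj k hk
  have h1 : ∀ q : ℕ, n2 (fun z => tv (L (2 ^ (K + 1) - 1 - (2 * q + 1) * 2 ^ k))
            (fun h => V (z + ((ρ (2 ^ (K + 1) - 1 - (2 * q + 1) * 2 ^ k) : ℤ) : ZMod M) + (h : ZMod M))) -
          tv (L (2 ^ (K + 1) - 1 - 2 * q * 2 ^ k))
            (fun h => V (z + ((ρ (2 ^ (K + 1) - 1 - 2 * q * 2 ^ k) : ℤ) : ZMod M) + (h : ZMod M)))) =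
      ∑ ξ : ZMod M, ‖mul (kr (L (2 ^ (K + 1) - 1 - (2 * q + 1) * 2 ^ k)) (ρ (2 ^ (K + 1) - 1 - (2 * q + 1) * 2 ^ k))) ((ξ.val : ℝ) / M) -
        mul (kr (L (2 ^ (K + 1) - 1 - 2 * q * 2 ^ k)) (ρ (2 ^ (K + 1) - 1 - 2 * q * 2 ^ k))) ((ξ.val : ℝ) / M)‖ ^ 2 * ‖ft V ξ‖ ^ 2 := by
    intro q
    rw [← funext fun z => (cv_sub _ _ V z).trans (congrArg₂ _ (cv_kr _ _ V z) (cv_kr _ _ V z)), n2_cv]
    refine sum_congr rfl fun ξ _ => ?_
    rw [mul_sub']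
  rw [sum_congr rfl fun q _ => h1 q, Finset.sum_comm, n2_eq_ft, Finset.mul_sum]
  refine sum_le_sum fun ξ _ => ?_
  rw [← Finset.sum_mul]
  refine mul_le_mul_of_nonneg_right ?_ (by positivity)
  set θ : ℝ := (ξ.val : ℝ) / M with hθ
  have hν := nrm_nonneg θ
  obtain ⟨u, hu, hu2⟩ := scale hN he (nrm θ) hν K A hK
  refine hG K 1 u (fun j => mul (kr (L j) (ρ j)) θ) hK le_rfl hu (fun j hj1 hj2 => ?_) k hk
  obtain ⟨hl1, hl2, hl3⟩ := hj j hj1 hj2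
  obtain ⟨hu3, hu4⟩ := hu2 j
  have hNe : 1 ≤ N j ^ e := Nat.one_le_pow _ _ (Sc_pos hN j)
  have hL1 : 1 ≤ L j := by
    rcases Nat.eq_zero_or_pos (L j) with h | h
    · rw [h] at hl1
      omega
    · exact h
  have hl1' : (N j : ℝ) ^ e ≤ 2 ^ (K * A) * L j := by exact_mod_cast hl1
  have hl2' : (L j : ℝ) ≤ (N j : ℝ) ^ e := by exact_mod_cast hl2
  have hl3' : |((ρ j : ℤ) : ℝ)| ≤ C * (N j : ℝ) ^ e := by
    have h2 : ((ρ j).natAbs : ℝ) ≤ C * (N j : ℝ) ^ e := by exact_mod_cast hl3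
    rwa [Nat.cast_natAbs, Int.cast_abs] at h2
  rw [one_mul]
  refine ⟨norm_kr_le_one _ _ _, ?_, fun h => ?_⟩
  · have h2 := kr_near (L j) hL1 (ρ j) θ
    have h3 : ‖1 - mul (kr (L j) (ρ j)) θ‖ ≤ 2 := by
      refine (norm_sub_le _ _).trans ?_
      have := norm_kr_le_one (L j) (ρ j) θ
      rw [norm_one]
      linarith
    have h4 : ‖1 - mul (kr (L j) (ρ j)) θ‖ ≤ (7 * C + 4) * (nrm θ * (N j : ℝ) ^ e) := by
      refine h2.trans ?_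
      have h5 : 7 * |((ρ j : ℤ) : ℝ)| + 4 * (L j : ℝ) ≤ (7 * C + 4) * (N j : ℝ) ^ e := by nlinarith
      calc (7 * |((ρ j : ℤ) : ℝ)| + 4 * (L j : ℝ)) * nrm θ ≤ ((7 * C + 4) * (N j : ℝ) ^ e) * nrm θ :=
            mul_le_mul_of_nonneg_right h5 hν
        _ = _ := by ring
    have hC0 : (0 : ℝ) ≤ C := Nat.cast_nonneg _
    have h6 : ‖1 - mul (kr (L j) (ρ j)) θ‖ ≤ (7 * C + 8) * min 1 (nrm θ * (N j : ℝ) ^ e) := by
      rcases le_total 1 (nrm θ * (N j : ℝ) ^ e) with h7 | h7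
      · rw [min_eq_left h7]
        linarith
      · rw [min_eq_right h7]
        have h8 : 0 ≤ nrm θ * (N j : ℝ) ^ e := by positivity
        nlinarith
    calc ‖1 - mul (kr (L j) (ρ j)) θ‖ ≤ (7 * C + 8) * min 1 (nrm θ * (N j : ℝ) ^ e) := h6
      _ ≤ (7 * C + 8) * (4 * (u * 2 ^ j)) := mul_le_mul_of_nonneg_left hu3 (by positivity)
      _ = ((4 * (7 * C + 8) : ℕ) : ℝ) * (u * 2 ^ j) := by
          push_cast
          ring
  · have h2 := hu4 h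
    rw [norm_kr_eq]
    have h3 := dk_mul_nrm (L j) θ
    have h4 : (2 : ℝ) ^ K ≤ nrm θ * L j := by
      have h5 : (2 : ℝ) ^ (K * (A + 1)) ≤ nrm θ * (2 ^ (K * A) * L j) :=
        h2.trans (mul_le_mul_of_nonneg_left hl1' hν)
      have h6 : (2 : ℝ) ^ (K * (A + 1)) = 2 ^ (K * A) * 2 ^ K := by
        rw [← pow_add]
        congr 1
      rw [h6] at h5
      have h7 : (0 : ℝ) < 2 ^ (K * A) := by positivity
      have h8 : (2 : ℝ) ^ (K * A) * 2 ^ K ≤ 2 ^ (K * A) * (nrm θ * L j) := by linarith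
      exact le_of_mul_le_mul_left h8 h7
    rw [le_div_iff₀ (by positivity)]
    have h5 : 0 ≤ ‖dk (L j) θ‖ := norm_nonneg _
    nlinarith [mul_le_mul_of_nonneg_left h4 h5]

namespace EnVAux

theorem shift_sum (g : ℕ → ℂ) (hg : ∀ h, ‖g h‖ ≤ 1) (L m : ℕ) :
    ‖∑ h ∈ range L, g h - ∑ h ∈ range L, g (h + m)‖ ≤ 2 * m := by
  induction m with
  | zero => simp
  | succ m ih =>
    have h1 : ∑ h ∈ range L, g (h + (m + 1)) - ∑ h ∈ range L, g (h + m) = g (L + m) - g (0 + m) := by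
      rw [← sum_sub_distrib, ← Finset.sum_range_sub (fun h => g (h + m)) L]
      refine sum_congr rfl fun h _ => ?_
      congr 2
      ring
    have h2 : ∑ h ∈ range L, g h - ∑ h ∈ range L, g (h + (m + 1)) =
        (∑ h ∈ range L, g h - ∑ h ∈ range L, g (h + m)) - (g (L + m) - g (0 + m)) := by
      rw [← h1]
      ring
    rw [h2]
    have h3 : ‖g (L + m) - g (0 + m)‖ ≤ 2 := by
      refine (norm_sub_le _ _).trans ?_
      linarith [hg (L + m), hg (0 + m)]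
    refine (norm_sub_le _ _).trans ?_
    push_cast
    linarith

theorem cell_mU {M : ℕ} [NeZero M] (q L ℓ : ℕ) (hℓ : 1 ≤ ℓ) (s : ZMod M) (f : ZMod M → ℂ)
    (hf : Bd f) (z y : ZMod M) :
    ‖mU q L s f z y - tv L (fun h => mU q ℓ 0 f (z + s + (h : ZMod M)) y)‖ ≤ 2 * q * ℓ / L := by
  rcases Nat.eq_zero_or_pos L with hL | hL
  · subst hL
    unfold tv mU
    simp
  have hL0 : (L : ℂ) ≠ 0 := by exact_mod_cast hL.ne'
  have hl0 : (ℓ : ℂ) ≠ 0 := by exact_mod_cast (show ℓ ≠ 0 by omega)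
  have hLr : (0 : ℝ) < L := by exact_mod_cast hL
  have hlr : (0 : ℝ) < ℓ := by exact_mod_cast hℓ
  obtain ⟨g, hg⟩ : ∃ g : ℕ → ℂ, g = fun h : ℕ => if q ∣ (z + s + (h : ZMod M) - y).val then
      f (z + s + (h : ZMod M)) else 0 := ⟨_, rfl⟩
  have hg1 : ∀ h, ‖g h‖ ≤ 1 := by
    intro h
    rw [hg]
    dsimp only
    split_ifs
    · exact hf _
    · simp
  have e1 : mU q L s f z y = (q : ℂ) / L * ∑ h ∈ range L, g h := by
    rw [hg]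
    rfl
  have e2 : ∀ h : ℕ, mU q ℓ 0 f (z + s + (h : ZMod M)) y =
      (q : ℂ) / ℓ * ∑ h' ∈ range ℓ, g (h + h') := by
    intro h
    rw [hg]
    unfold mU
    congr 1
    refine sum_congr rfl fun h' _ => ?_
    have e : z + s + (h : ZMod M) + 0 + (h' : ZMod M) = z + s + ((h + h' : ℕ) : ZMod M) := by
      push_cast
      ring
    rw [e]
  have e3 : mU q L s f z y - tv L (fun h => mU q ℓ 0 f (z + s + (h : ZMod M)) y) =
      (q : ℂ) / (L * ℓ) * ∑ h' ∈ range ℓ, (∑ h ∈ range L, g h - ∑ h ∈ range L, g (h + h')) := by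
    rw [e1]
    unfold tv
    rw [sum_congr rfl fun h _ => e2 h, ← Finset.mul_sum, Finset.sum_comm, sum_sub_distrib,
      sum_const, card_range, nsmul_eq_mul]
    field_simp
  rw [e3, norm_mul, norm_div, norm_mul, Complex.norm_natCast, Complex.norm_natCast,
    Complex.norm_natCast]
  have h1 : ‖∑ h' ∈ range ℓ, (∑ h ∈ range L, g h - ∑ h ∈ range L, g (h + h'))‖ ≤ ℓ * (2 * ℓ) := by
    refine (norm_sum_le _ _).trans ?_
    calc ∑ h' ∈ range ℓ, ‖∑ h ∈ range L, g h - ∑ h ∈ range L, g (h + h')‖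
        ≤ ∑ _h' ∈ range ℓ, (2 * (ℓ : ℝ)) := by
          refine sum_le_sum fun h' hh => (shift_sum g hg1 L h').trans ?_
          rw [mem_range] at hh
          have : (h' : ℝ) ≤ ℓ := by exact_mod_cast hh.le
          linarith
      _ = ℓ * (2 * ℓ) := by rw [sum_const, card_range, nsmul_eq_mul]
  calc (q : ℝ) / (L * ℓ) * ‖∑ h' ∈ range ℓ, (∑ h ∈ range L, g h - ∑ h ∈ range L, g (h + h'))‖
      ≤ (q : ℝ) / (L * ℓ) * (ℓ * (2 * ℓ)) := mul_le_mul_of_nonneg_left h1 (by positivity)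
    _ = 2 * q * ℓ / L := by field_simp

theorem cell_vS {M : ℕ} [NeZero M] {Q a k L ℓ qm : ℕ} {Ps : Finset ℕ}
    (hqm : ∀ U, U ⊆ Ps → U.card ≤ k → qU Q a U ≤ qm) (hℓ : 1 ≤ ℓ) (s : ZMod M) (f : ZMod M → ℂ)
    (hf : Bd f) (z y : ZMod M) {S : Finset ℕ} (hS : S ⊆ Ps) (hSk : S.card ≤ k) :
    ‖vS Q a L s f S z y - tv L (fun h => vS Q a ℓ 0 f S (z + s + (h : ZMod M)) y)‖ ≤
      2 ^ k * (2 * qm * ℓ / L) := by
  have e1 : tv L (fun h => vS Q a ℓ 0 f S (z + s + (h : ZMod M)) y) =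
      ∑ U ∈ S.powerset, (-1 : ℂ) ^ (S \ U).card *
        tv L (fun h => mU (qU Q a U) ℓ 0 f (z + s + (h : ZMod M)) y) := by
    unfold vS
    rw [BasicCAux.tv_finsum]
    refine sum_congr rfl fun U _ => ?_
    exact tv_mul_left _ _ _
  rw [e1]
  unfold vS
  rw [← sum_sub_distrib]
  refine (norm_sum_le _ _).trans ?_
  have h1 : ∀ U ∈ S.powerset, ‖(-1 : ℂ) ^ (S \ U).card * mU (qU Q a U) L s f z y -
      (-1 : ℂ) ^ (S \ U).card * tv L (fun h => mU (qU Q a U) ℓ 0 f (z + s + (h : ZMod M)) y)‖ ≤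
      2 * qm * ℓ / L := by
    intro U hU
    rw [mem_powerset] at hU
    rw [← mul_sub, norm_mul, norm_pow, norm_neg, norm_one, one_pow, one_mul]
    refine (cell_mU (qU Q a U) L ℓ hℓ s f hf z y).trans ?_
    have h2 : (qU Q a U : ℝ) ≤ qm := by
      exact_mod_cast hqm U (hU.trans hS) ((card_le_card hU).trans hSk)
    gcongr
  refine (sum_le_sum h1).trans ?_
  rw [sum_const, card_powerset, nsmul_eq_mul]
  refine mul_le_mul_of_nonneg_right ?_ (by positivity)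
  push_cast
  exact pow_le_pow_right₀ (by norm_num) hSk

end EnVAux

theorem cell_vK {M : ℕ} [NeZero M] {Q a k L ℓ qm : ℕ} {Ps : Finset ℕ} (hqm : ∀ U, U ⊆ Ps → U.card ≤ k → qU Q a U ≤ qm)
    (hℓ : 1 ≤ ℓ) (hL : ℓ ≤ L) (s : ZMod M) (f : ZMod M → ℂ) (hf : Bd f) (z y : ZMod M) :
    ‖vK Q a k L Ps s f z y - tv L (fun h => vK Q a k ℓ Ps 0 f (z + s + (h : ZMod M)) y)‖ ≤
      (4 * ((Ps.card : ℝ) + 2)) ^ (k + 1) * qm * ℓ / L := by
  have hLr : (0 : ℝ) < L := by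
    have : 0 < L := by omega
    exact_mod_cast this
  have e1 : tv L (fun h => vK Q a k ℓ Ps 0 f (z + s + (h : ZMod M)) y) =
      ∑ i ∈ range (k + 1), ∑ S ∈ Ps.powersetCard i,
        tv L (fun h => vS Q a ℓ 0 f S (z + s + (h : ZMod M)) y) := by
    unfold vK
    rw [BasicCAux.tv_finsum]
    refine sum_congr rfl fun i _ => ?_
    rw [BasicCAux.tv_finsum]
  rw [e1]
  unfold vK
  rw [← sum_sub_distrib]
  refine (norm_sum_le _ _).trans ?_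
  have h1 : ∀ i ∈ range (k + 1), ‖∑ S ∈ Ps.powersetCard i, vS Q a L s f S z y -
      ∑ S ∈ Ps.powersetCard i, tv L (fun h => vS Q a ℓ 0 f S (z + s + (h : ZMod M)) y)‖ ≤
      ((Ps.powersetCard i).card : ℝ) * (2 ^ k * (2 * qm * ℓ / L)) := by
    intro i hi
    rw [mem_range] at hi
    rw [← sum_sub_distrib]
    refine (norm_sum_le _ _).trans ?_
    rw [← nsmul_eq_mul, ← sum_const]
    refine sum_le_sum fun S hS => ?_
    rw [mem_powersetCard] at hS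
    exact cell_vS hqm hℓ s f hf z y hS.1 (by omega)
  refine (sum_le_sum h1).trans ?_
  rw [← Finset.sum_mul]
  have h2 : (∑ i ∈ range (k + 1), ((Ps.powersetCard i).card : ℝ)) ≤ ((Ps.card : ℝ) + 2) ^ (k + 1) := by
    have := card_comp k Ps
    exact_mod_cast this
  calc (∑ i ∈ range (k + 1), ((Ps.powersetCard i).card : ℝ)) * (2 ^ k * (2 * qm * ℓ / L))
      ≤ ((Ps.card : ℝ) + 2) ^ (k + 1) * (2 ^ k * (2 * qm * ℓ / L)) :=
        mul_le_mul_of_nonneg_right h2 (by positivity)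
    _ = (2 * ((Ps.card : ℝ) + 2)) ^ (k + 1) * (qm * ℓ / L) := by
        rw [mul_pow]
        ring
    _ ≤ (4 * ((Ps.card : ℝ) + 2)) ^ (k + 1) * (qm * ℓ / L) := by
        refine mul_le_mul_of_nonneg_right ?_ (by positivity)
        refine pow_le_pow_left₀ (by positivity) ?_ _
        have : (0 : ℝ) ≤ (Ps.card : ℝ) + 2 := by positivity
        linarith
    _ = _ := by ring

namespace EnVAux

theorem cell_vT {M : ℕ} [NeZero M] {Q a k L ℓ qm ty : ℕ} {Ps : Finset ℕ}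
    (hqm : ∀ U, U ⊆ Ps → U.card ≤ k → qU Q a U ≤ qm)
    (hℓ : 1 ≤ ℓ) (hL : ℓ ≤ L) (s : ZMod M) (f : ZMod M → ℂ) (hf : Bd f) (z y : ZMod M) :
    ‖vT Q a k L Ps ty s f z y - tv L (fun h => vT Q a k ℓ Ps ty 0 f (z + s + (h : ZMod M)) y)‖ ≤
      2 * ((4 * ((Ps.card : ℝ) + 2)) ^ (k + 1) * qm * ℓ / L) := by
  have hk := cell_vK hqm hℓ hL s f hf z y
  have h0 : ‖vK Q a 0 L Ps s f z y - tv L (fun h => vK Q a 0 ℓ Ps 0 f (z + s + (h : ZMod M)) y)‖ ≤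
      (4 * ((Ps.card : ℝ) + 2)) ^ (k + 1) * qm * ℓ / L := by
    refine (cell_vK (k := 0) (qm := qm) (fun U h1 h2 => hqm U h1 (by omega)) hℓ hL s f hf z y).trans ?_
    have h1 : (4 * ((Ps.card : ℝ) + 2)) ^ (0 + 1) ≤ (4 * ((Ps.card : ℝ) + 2)) ^ (k + 1) := by
      refine pow_le_pow_right₀ ?_ (by omega)
      have : (0 : ℝ) ≤ (Ps.card : ℝ) := Nat.cast_nonneg _
      linarith
    gcongr
  have hnn : 0 ≤ (4 * ((Ps.card : ℝ) + 2)) ^ (k + 1) * qm * ℓ / L := by positivity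
  unfold vT
  by_cases t0 : ty = 0
  · simp only [if_pos t0]
    linarith
  · by_cases t1 : ty = 1
    · simp only [if_neg t0, if_pos t1]
      linarith
    · simp only [if_neg t0, if_neg t1]
      rw [tv_sub]
      have e : ∀ a b c d : ℂ, (a - b) - (c - d) = (a - c) - (b - d) := fun a b c d => by ring
      rw [e]
      refine (norm_sub_le _ _).trans ?_
      linarith

theorem sq_four (a b c d : ℂ) {η : ℝ} (h1 : ‖a - c‖ ≤ η) (h2 : ‖b - d‖ ≤ η) :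
    ‖a - b‖ ^ 2 ≤ 2 * ‖c - d‖ ^ 2 + 8 * η ^ 2 := by
  have h3 : ‖a - b‖ ≤ ‖c - d‖ + 2 * η := by
    have e : a - b = (c - d) + ((a - c) - (b - d)) := by ring
    calc ‖a - b‖ ≤ ‖c - d‖ + ‖(a - c) - (b - d)‖ := by
          conv_lhs => rw [e]
          exact norm_add_le _ _
      _ ≤ ‖c - d‖ + (‖a - c‖ + ‖b - d‖) := by
          have := norm_sub_le (a - c) (b - d)
          linarith
      _ ≤ ‖c - d‖ + 2 * η := by linarith
  have h4 := norm_nonneg (a - b)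
  have h5 := pow_le_pow_left₀ h4 h3 2
  nlinarith [sq_nonneg (‖c - d‖ - 2 * η)]

end EnVAux

theorem en_vT (A C : ℕ) : ∃ G : ℝ, 0 ≤ G ∧ ∀ (M : ℕ) [NeZero M] (Q a k qm ℓ ty K e : ℕ) (Ps : Finset ℕ) (N L : ℕ → ℕ) (ρ : ℕ → ℤ)
    (f : ZMod M → ℂ), WS M Q a Ps → (∀ U, U ⊆ Ps → U.card ≤ k → qU Q a U ≤ qm) → 1 ≤ ℓ → Tny Q a k 1 ℓ Ps → 1 ≤ K → 1 ≤ e → Sc N → Bd f →
    (∀ j, 2 ^ K ≤ j → j < 2 ^ (K + 1) → N j ^ e ≤ 2 ^ (K * A) * L j ∧ L j ≤ N j ^ e ∧ (ρ j).natAbs ≤ C * N j ^ e ∧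
      (4 * (Ps.card + 2)) ^ (k + 1) * qm * ℓ * 2 ^ K ≤ L j) →
    ∀ k' < K, ∑ q ∈ range (2 ^ (K - k' - 1)), avr (fun z => n2 (fun y =>
      vT Q a k (L (2 ^ (K + 1) - 1 - (2 * q + 1) * 2 ^ k')) Ps ty ((ρ (2 ^ (K + 1) - 1 - (2 * q + 1) * 2 ^ k') : ℤ) : ZMod M) f z y -
      vT Q a k (L (2 ^ (K + 1) - 1 - 2 * q * 2 ^ k')) Ps ty ((ρ (2 ^ (K + 1) - 1 - 2 * q * 2 ^ k') : ℤ) : ZMod M) f z y)) ≤ G * K := by
  obtain ⟨G, hG0, hG⟩ := en_box A C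
  refine ⟨16 * G + 32, by positivity, ?_⟩
  intro M _ Q a k qm ℓ ty K e Ps N L ρ f hWS hqm hℓ hT hK he hN hf hj k' hk'
  have hK1 : (1 : ℝ) ≤ K := by exact_mod_cast hK
  have hqm1 : 1 ≤ qm := by
    have h1 : qU Q a ∅ ≤ qm := hqm ∅ (empty_subset _) (by simp)
    have h2 : 1 ≤ qU Q a ∅ := by
      unfold qU
      simpa using hWS.pos
    omega
  -- the cells
  have hcell : ∀ j, 2 ^ K ≤ j → j < 2 ^ (K + 1) → ∀ z y : ZMod M,
      ‖vT Q a k (L j) Ps ty ((ρ j : ℤ) : ZMod M) f z y -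
        tv (L j) (fun h => vT Q a k ℓ Ps ty 0 f (z + ((ρ j : ℤ) : ZMod M) + (h : ZMod M)) y)‖ ≤ 2 / 2 ^ K := by
    intro j hj1 hj2 z y
    obtain ⟨hl1, hl2, hl3, hl4⟩ := hj j hj1 hj2
    have hX : 1 ≤ (4 * (Ps.card + 2)) ^ (k + 1) := Nat.one_le_pow _ _ (by omega)
    have h2K : 1 ≤ 2 ^ K := Nat.one_le_two_pow
    have hLl : ℓ ≤ L j := by
      calc ℓ = 1 * 1 * ℓ * 1 := by ring
        _ ≤ (4 * (Ps.card + 2)) ^ (k + 1) * qm * ℓ * 2 ^ K :=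
            Nat.mul_le_mul (Nat.mul_le_mul (Nat.mul_le_mul hX hqm1) le_rfl) h2K
        _ ≤ L j := hl4
    have hLr : (0 : ℝ) < L j := by
      have : 0 < L j := by omega
      exact_mod_cast this
    refine (cell_vT hqm hℓ hLl _ f hf z y).trans ?_
    have h4 : (4 * ((Ps.card : ℝ) + 2)) ^ (k + 1) * qm * ℓ * 2 ^ K ≤ L j := by exact_mod_cast hl4
    have h5 : (4 * ((Ps.card : ℝ) + 2)) ^ (k + 1) * qm * ℓ / L j ≤ 1 / 2 ^ K := by
      rw [div_le_div_iff₀ hLr (by positivity)]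
      linarith
    calc 2 * ((4 * ((Ps.card : ℝ) + 2)) ^ (k + 1) * qm * ℓ / L j) ≤ 2 * (1 / 2 ^ K) :=
          mul_le_mul_of_nonneg_left h5 (by norm_num)
      _ = 2 / 2 ^ K := by ring
  -- one term
  have hterm : ∀ q ∈ range (2 ^ (K - k' - 1)), avr (fun z => n2 (fun y =>
      vT Q a k (L (2 ^ (K + 1) - 1 - (2 * q + 1) * 2 ^ k')) Ps ty ((ρ (2 ^ (K + 1) - 1 - (2 * q + 1) * 2 ^ k') : ℤ) : ZMod M) f z y -
      vT Q a k (L (2 ^ (K + 1) - 1 - 2 * q * 2 ^ k')) Ps ty ((ρ (2 ^ (K + 1) - 1 - 2 * q * 2 ^ k') : ℤ) : ZMod M) f z y)) ≤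
      2 * avr (fun y => n2 (fun z =>
        tv (L (2 ^ (K + 1) - 1 - (2 * q + 1) * 2 ^ k'))
            (fun h => vT Q a k ℓ Ps ty 0 f (z + ((ρ (2 ^ (K + 1) - 1 - (2 * q + 1) * 2 ^ k') : ℤ) : ZMod M) + (h : ZMod M)) y) -
          tv (L (2 ^ (K + 1) - 1 - 2 * q * 2 ^ k'))
            (fun h => vT Q a k ℓ Ps ty 0 f (z + ((ρ (2 ^ (K + 1) - 1 - 2 * q * 2 ^ k') : ℤ) : ZMod M) + (h : ZMod M)) y))) +
      8 * (2 / 2 ^ K) ^ 2 := by
    intro q hq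
    obtain ⟨i1, i2, i3, i4⟩ := idx hk' hq
    have h1 : avr (fun z => n2 (fun y =>
      vT Q a k (L (2 ^ (K + 1) - 1 - (2 * q + 1) * 2 ^ k')) Ps ty ((ρ (2 ^ (K + 1) - 1 - (2 * q + 1) * 2 ^ k') : ℤ) : ZMod M) f z y -
      vT Q a k (L (2 ^ (K + 1) - 1 - 2 * q * 2 ^ k')) Ps ty ((ρ (2 ^ (K + 1) - 1 - 2 * q * 2 ^ k') : ℤ) : ZMod M) f z y)) ≤
      avr (fun z => avr (fun y => 2 * ‖
        tv (L (2 ^ (K + 1) - 1 - (2 * q + 1) * 2 ^ k'))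
            (fun h => vT Q a k ℓ Ps ty 0 f (z + ((ρ (2 ^ (K + 1) - 1 - (2 * q + 1) * 2 ^ k') : ℤ) : ZMod M) + (h : ZMod M)) y) -
          tv (L (2 ^ (K + 1) - 1 - 2 * q * 2 ^ k'))
            (fun h => vT Q a k ℓ Ps ty 0 f (z + ((ρ (2 ^ (K + 1) - 1 - 2 * q * 2 ^ k') : ℤ) : ZMod M) + (h : ZMod M)) y)‖ ^ 2 +
        8 * (2 / 2 ^ K) ^ 2)) := by
      refine avr_mono fun z => avr_mono fun y => ?_
      exact sq_four _ _ _ _ (hcell _ i1 i2 z y) (hcell _ i3 i4 z y)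
    refine h1.trans (le_of_eq ?_)
    rw [avr_comm]
    unfold n2
    rw [← avr_mul_left, ← avr_const (M := M) (8 * (2 / 2 ^ K) ^ 2), ← avr_add]
    refine congrArg avr (funext fun y => ?_)
    rw [avr_add, avr_mul_left, avr_const, avr_const]
  refine (sum_le_sum hterm).trans ?_
  rw [sum_add_distrib, ← Finset.mul_sum, ← avr_sum, sum_const, card_range, nsmul_eq_mul]
  have h1 : avr (fun y => ∑ q ∈ range (2 ^ (K - k' - 1)), n2 (fun z =>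
        tv (L (2 ^ (K + 1) - 1 - (2 * q + 1) * 2 ^ k'))
            (fun h => vT Q a k ℓ Ps ty 0 f (z + ((ρ (2 ^ (K + 1) - 1 - (2 * q + 1) * 2 ^ k') : ℤ) : ZMod M) + (h : ZMod M)) y) -
          tv (L (2 ^ (K + 1) - 1 - 2 * q * 2 ^ k'))
            (fun h => vT Q a k ℓ Ps ty 0 f (z + ((ρ (2 ^ (K + 1) - 1 - 2 * q * 2 ^ k') : ℤ) : ZMod M) + (h : ZMod M)) y))) ≤
      G * K * 8 := by
    have h2 : avr (fun y => ∑ q ∈ range (2 ^ (K - k' - 1)), n2 (fun z =>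
        tv (L (2 ^ (K + 1) - 1 - (2 * q + 1) * 2 ^ k'))
            (fun h => vT Q a k ℓ Ps ty 0 f (z + ((ρ (2 ^ (K + 1) - 1 - (2 * q + 1) * 2 ^ k') : ℤ) : ZMod M) + (h : ZMod M)) y) -
          tv (L (2 ^ (K + 1) - 1 - 2 * q * 2 ^ k'))
            (fun h => vT Q a k ℓ Ps ty 0 f (z + ((ρ (2 ^ (K + 1) - 1 - 2 * q * 2 ^ k') : ℤ) : ZMod M) + (h : ZMod M)) y))) ≤
        avr (fun y => G * K * n2 (fun z => vT Q a k ℓ Ps ty 0 f z y)) :=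
      avr_mono fun y => hG M K e N L ρ (fun z => vT Q a k ℓ Ps ty 0 f z y) hK he hN
        (fun j hj1 hj2 => ⟨(hj j hj1 hj2).1, (hj j hj1 hj2).2.1, (hj j hj1 hj2).2.2.1⟩) k' hk'
    refine h2.trans ?_
    rw [avr_mul_left]
    refine mul_le_mul_of_nonneg_left ?_ (by positivity)
    have h3 : avr (fun y => n2 (fun z => vT Q a k ℓ Ps ty 0 f z y)) =
        avr (fun z => n2 (fun y => vT Q a k ℓ Ps ty 0 f z y)) := by
      unfold n2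
      exact avr_comm _
    rw [h3]
    exact avr_le fun z => bessel_vT M Q a k ℓ Ps hWS hT ty 0 f hf z
  have h2 : (((2 ^ (K - k' - 1) : ℕ)) : ℝ) * (8 * (2 / 2 ^ K) ^ 2) ≤ 32 * K := by
    have h3 : (((2 ^ (K - k' - 1) : ℕ)) : ℝ) ≤ 2 ^ K := by
      push_cast
      exact pow_le_pow_right₀ (by norm_num) (by omega)
    have h4 : (1 : ℝ) ≤ 2 ^ K := one_le_pow₀ (by norm_num)
    calc (((2 ^ (K - k' - 1) : ℕ)) : ℝ) * (8 * (2 / 2 ^ K) ^ 2) ≤ 2 ^ K * (8 * (2 / 2 ^ K) ^ 2) :=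
          mul_le_mul_of_nonneg_right h3 (by positivity)
      _ = 32 / 2 ^ K := by
          field_simp
          ring
      _ ≤ 32 := by
          rw [div_le_iff₀ (by positivity)]
          linarith
      _ ≤ 32 * K := by linarith
  calc 2 * _ + (((2 ^ (K - k' - 1) : ℕ)) : ℝ) * (8 * (2 / 2 ^ K) ^ 2)
      ≤ 2 * (G * K * 8) + 32 * K := add_le_add (mul_le_mul_of_nonneg_left h1 (by norm_num)) h2
    _ = (16 * G + 32) * K := by ring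

end Pool.Agent.EQD
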