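import Pool.Agent.Lib.EQD.DkE

/-!
# EQD.Energy: the energy of the differences of box averages of different lengths (fixed modulus)

PROOF of `energy`. By `n2_cv` (kernel `bk Q (Ks j) - bk Q (Kl j)`, `cv_sub`, `cv_bk`, `mul_sub`, `mul_bk`) the left side is
`∑_ξ ‖ft f ξ‖^2 ∑_{j ∈ s} m_j(ξ)^2`, `m_j = ‖dk (Ks j) α - dk (Kl j) α‖`, `α = Q ξ / M`; so it suffices to show
`∑_{j ∈ s} m_j^2 ≤ 300 (w + 2)` for every `α`. Let `u = nrm α`. If `u = 0` all `m_j = 0` (`dk_diff_le`). Let `y_j = A 2^(e j) u > 0`.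
Then `m_j ≤ 2`, `m_j ≤ 16 Kl j u ≤ 16 * 2^w y_j` (`dk_diff_le`), `m_j ≤ 1 / (Ks j u) ≤ 1 / y_j` (`dk_diff_le'`).
As `e ≥ 1`, `y_(j+1) ≥ 2 y_j`.
 (a) the `j` with `2^w y_j ≤ 1`: `m_j^2 ≤ 256 (2^w y_j)^2`, a geometric series (ratio `≤ 1/4` going down) with largest term `≤ 1`:
     sum `≤ 256 * 4/3 ≤ 342`;
 (b) the `j` with `y_j ≥ 1`: `∑ 1 / y_j^2 ≤ 4/3`;
 (c) the `j` with `2^(-w) < y_j < 1`: at most `w + 1` many (`y_(j+1) ≥ 2 y_j`), each `m_j^2 ≤ 4`.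
Total `≤ 342 + 2 + 4 (w + 1) ≤ 400 (w + 1)`.
(One way to organise it: `m_j^2 ≤ 400 min(1, (2^w y_j)^2, 1 / y_j^2)` and a lemma
`∑_{j ∈ s} min(1, (2^w y_j)^2, 1 / y_j^2) ≤ w + 4` for `y_j = c 2^(e j)`: let `j0` be the least natural number with `2^w y_{j0} ≥ 1`;
for `j < j0`: `(2^w y_j)^2 ≤ 4^(j - j0 + 1)`, hmm: `2^w y_{j0-1} < 1`, so `2^w y_j ≤ 2^(j - j0 + 1)`; for `j ≥ j0 + w`: `y_j ≥ 2^(j-j0-w)`.)
-/

set_option autoImplicit false

open Finset Polynomial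

namespace Pool.Agent.EQD.Lo

open Pool.Agent.HLT Pool.Agent.NLT Pool.Agent.NLG

variable {M : ℕ} [NeZero M]

namespace EnergyAux

lemma geo_inj (K : Finset ℕ) (φ : ℕ → ℕ) (hφ : Set.InjOn φ K) :
    ∑ k ∈ K, (1 / 4 : ℝ) ^ φ k ≤ 4 / 3 := by
  classical
  have h1 : ∑ k ∈ K, (1 / 4 : ℝ) ^ φ k = ∑ i ∈ K.image φ, (1 / 4 : ℝ) ^ i := by
    rw [sum_image hφ]
  rw [h1]
  have hs : Summable (fun i : ℕ => (1 / 4 : ℝ) ^ i) :=
    summable_geometric_of_lt_one (by norm_num) (by norm_num)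
  have h2 := hs.sum_le_tsum (K.image φ) (fun i _ => by positivity)
  rw [tsum_geometric_of_lt_one (by norm_num) (by norm_num)] at h2
  refine h2.trans (le_of_eq (by norm_num))

lemma sum_bound (s : Finset ℕ) (e w : ℕ) (he : 1 ≤ e) (c : ℝ) (hc : 0 < c) (F : ℕ → ℝ)
    (h1 : ∀ j ∈ s, F j ≤ 4) (h2 : ∀ j ∈ s, F j ≤ 256 * (c * 2 ^ (e * j)) ^ 2)
    (h3 : ∀ j ∈ s, F j ≤ ((2 : ℝ) ^ w) ^ 2 / (c * 2 ^ (e * j)) ^ 2) :
    ∑ j ∈ s, F j ≤ 400 * ((w : ℝ) + 1) := by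
  classical
  have hz : ∀ j, 0 < c * (2 : ℝ) ^ (e * j) := fun j => by positivity
  have hstep : ∀ j k, j ≤ k → c * (2 : ℝ) ^ (e * k) = c * (2 : ℝ) ^ (e * j) * 2 ^ (e * (k - j)) := by
    intro j k hjk
    rw [mul_assoc, ← pow_add, ← Nat.mul_add, Nat.add_sub_cancel' hjk]
  have hpw : ∀ i : ℕ, (2 : ℝ) ^ i ≤ 2 ^ (e * i) := fun i =>
    pow_le_pow_right₀ (by norm_num) (Nat.le_mul_of_pos_left i he)
  set sa := s.filter (fun j => c * (2 : ℝ) ^ (e * j) ≤ 1) with hsa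
  set sn := s.filter (fun j => ¬ c * (2 : ℝ) ^ (e * j) ≤ 1) with hsn
  set sb := sn.filter (fun j => (2 : ℝ) ^ w ≤ c * (2 : ℝ) ^ (e * j)) with hsb
  set sc := sn.filter (fun j => ¬ (2 : ℝ) ^ w ≤ c * (2 : ℝ) ^ (e * j)) with hsc
  have e1 : ∑ j ∈ s, F j = ∑ j ∈ sa, F j + ∑ j ∈ sn, F j :=
    (sum_filter_add_sum_filter_not s _ F).symm
  have e2 : ∑ j ∈ sn, F j = ∑ j ∈ sb, F j + ∑ j ∈ sc, F j :=
    (sum_filter_add_sum_filter_not sn _ F).symm
  -- part a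
  have ha : ∑ j ∈ sa, F j ≤ 256 * (4 / 3) := by
    rcases sa.eq_empty_or_nonempty with h0 | h0
    · rw [h0, sum_empty]; norm_num
    · set j1 := sa.max' h0 with hj1
      have hj1m : j1 ∈ sa := sa.max'_mem h0
      have hj1z : c * (2 : ℝ) ^ (e * j1) ≤ 1 := (mem_filter.mp hj1m).2
      have hle : ∀ j ∈ sa, j ≤ j1 := fun j hj => sa.le_max' j hj
      have hb : ∀ j ∈ sa, F j ≤ 256 * (1 / 4 : ℝ) ^ (j1 - j) := by
        intro j hj
        have hjs := (mem_filter.mp hj).1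
        refine (h2 j hjs).trans (mul_le_mul_of_nonneg_left ?_ (by norm_num))
        have h4 := hstep j j1 (hle j hj)
        have h5 := hpw (j1 - j)
        have h6 : c * (2 : ℝ) ^ (e * j) * 2 ^ (j1 - j) ≤ 1 := by
          calc c * (2 : ℝ) ^ (e * j) * 2 ^ (j1 - j) ≤ c * (2 : ℝ) ^ (e * j) * 2 ^ (e * (j1 - j)) :=
                mul_le_mul_of_nonneg_left h5 (hz j).le
            _ = c * (2 : ℝ) ^ (e * j1) := h4.symm
            _ ≤ 1 := hj1z
        have h7 : c * (2 : ℝ) ^ (e * j) ≤ (1 / 2 : ℝ) ^ (j1 - j) := by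
          rw [one_div, inv_pow, ← one_div, le_div_iff₀ (by positivity)]
          exact h6
        calc (c * (2 : ℝ) ^ (e * j)) ^ 2 ≤ ((1 / 2 : ℝ) ^ (j1 - j)) ^ 2 :=
              pow_le_pow_left₀ (hz j).le h7 2
          _ = (1 / 4 : ℝ) ^ (j1 - j) := by
              rw [← pow_mul, mul_comm, pow_mul]
              norm_num
      calc ∑ j ∈ sa, F j ≤ ∑ j ∈ sa, 256 * (1 / 4 : ℝ) ^ (j1 - j) := sum_le_sum hb
        _ = 256 * ∑ j ∈ sa, (1 / 4 : ℝ) ^ (j1 - j) := by rw [mul_sum]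
        _ ≤ 256 * (4 / 3) := by
            refine mul_le_mul_of_nonneg_left (geo_inj sa (fun j => j1 - j) ?_) (by norm_num)
            intro a ha' b hb' hab
            have := hle a ha'
            have := hle b hb'
            simp only at hab
            omega
  -- part b
  have hbb : ∑ j ∈ sb, F j ≤ 4 / 3 := by
    rcases sb.eq_empty_or_nonempty with h0 | h0
    · rw [h0, sum_empty]; norm_num
    · set j2 := sb.min' h0 with hj2
      have hj2m : j2 ∈ sb := sb.min'_mem h0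
      have hj2z : (2 : ℝ) ^ w ≤ c * (2 : ℝ) ^ (e * j2) := (mem_filter.mp hj2m).2
      have hle : ∀ j ∈ sb, j2 ≤ j := fun j hj => sb.min'_le j hj
      have hb : ∀ j ∈ sb, F j ≤ (1 / 4 : ℝ) ^ (j - j2) := by
        intro j hj
        have hjs := (mem_filter.mp (mem_filter.mp hj).1).1
        refine (h3 j hjs).trans ?_
        rw [← div_pow]
        have h4 := hstep j2 j (hle j hj)
        have h5 := hpw (j - j2)
        have h6 : (2 : ℝ) ^ w * 2 ^ (j - j2) ≤ c * (2 : ℝ) ^ (e * j) := by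
          rw [h4]
          exact mul_le_mul hj2z h5 (by positivity) (hz j2).le
        have h7 : (2 : ℝ) ^ w / (c * (2 : ℝ) ^ (e * j)) ≤ (1 / 2 : ℝ) ^ (j - j2) := by
          rw [one_div, inv_pow, ← one_div, div_le_div_iff₀ (hz j) (by positivity)]
          linarith
        calc ((2 : ℝ) ^ w / (c * (2 : ℝ) ^ (e * j))) ^ 2 ≤ ((1 / 2 : ℝ) ^ (j - j2)) ^ 2 :=
              pow_le_pow_left₀ (by have := hz j; positivity) h7 2
          _ = (1 / 4 : ℝ) ^ (j - j2) := by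
              rw [← pow_mul, mul_comm, pow_mul]
              norm_num
      refine (sum_le_sum hb).trans (geo_inj sb (fun j => j - j2) ?_)
      intro a ha' b hb' hab
      have := hle a ha'
      have := hle b hb'
      simp only at hab
      omega
  -- part c
  have hcc : ∑ j ∈ sc, F j ≤ 4 * w := by
    have hcard : sc.card ≤ w := by
      rcases sc.eq_empty_or_nonempty with h0 | h0
      · rw [h0, card_empty]; omega
      · set j3 := sc.min' h0 with hj3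
        have hj3m : j3 ∈ sc := sc.min'_mem h0
        have hj3z : 1 < c * (2 : ℝ) ^ (e * j3) :=
          not_le.mp (mem_filter.mp (mem_filter.mp hj3m).1).2
        have hsub : sc ⊆ Ico j3 (j3 + w) := by
          intro j hj
          have hjl := sc.min'_le j hj
          have hjz : c * (2 : ℝ) ^ (e * j) < 2 ^ w := not_le.mp (mem_filter.mp hj).2
          have h4 := hstep j3 j hjl
          have h5 := hpw (j - j3)
          have h6 : (2 : ℝ) ^ (j - j3) < 2 ^ w := by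
            calc (2 : ℝ) ^ (j - j3) ≤ 2 ^ (e * (j - j3)) := h5
              _ = 1 * 2 ^ (e * (j - j3)) := (one_mul _).symm
              _ ≤ c * (2 : ℝ) ^ (e * j3) * 2 ^ (e * (j - j3)) :=
                  mul_le_mul_of_nonneg_right hj3z.le (by positivity)
              _ = c * (2 : ℝ) ^ (e * j) := h4.symm
              _ < 2 ^ w := hjz
          have h7 : j - j3 < w := (pow_lt_pow_iff_right₀ (by norm_num : (1 : ℝ) < 2)).mp h6
          rw [mem_Ico]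
          exact ⟨hjl, by omega⟩
        have := card_le_card hsub
        rwa [Nat.card_Ico, Nat.add_sub_cancel_left] at this
    calc ∑ j ∈ sc, F j ≤ ∑ _j ∈ sc, (4 : ℝ) :=
          sum_le_sum fun j hj => h1 j (mem_filter.mp (mem_filter.mp hj).1).1
      _ = 4 * sc.card := by rw [sum_const, nsmul_eq_mul, mul_comm]
      _ ≤ 4 * w := by
          have : (sc.card : ℝ) ≤ w := by exact_mod_cast hcard
          linarith
  have hw : (0 : ℝ) ≤ w := Nat.cast_nonneg _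
  rw [e1, e2]
  linarith

lemma mult_bound (s : Finset ℕ) (Ks Kl : ℕ → ℕ) (e w : ℕ) (he : 1 ≤ e) (A : ℝ) (hA : 0 < A)
    (h1 : ∀ j ∈ s, 1 ≤ Ks j) (h2 : ∀ j ∈ s, A * 2 ^ (e * j) ≤ Ks j) (h3 : ∀ j ∈ s, Ks j ≤ Kl j)
    (h4 : ∀ j ∈ s, (Kl j : ℝ) ≤ A * 2 ^ (e * j + w)) (α : ℝ) :
    ∑ j ∈ s, ‖dk (Ks j) α - dk (Kl j) α‖ ^ 2 ≤ 400 * ((w : ℝ) + 1) := by
  rcases (nrm_nonneg α).lt_or_eq with hu | hu
  · refine sum_bound s e w he (A * nrm α * 2 ^ w) (by positivity) _ ?_ ?_ ?_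
    · intro j _
      have h5 : ‖dk (Ks j) α - dk (Kl j) α‖ ≤ 2 := by
        refine (norm_sub_le _ _).trans ?_
        have := norm_dk_le_one (Ks j) α
        have := norm_dk_le_one (Kl j) α
        linarith
      calc ‖dk (Ks j) α - dk (Kl j) α‖ ^ 2 ≤ 2 ^ 2 := pow_le_pow_left₀ (norm_nonneg _) h5 2
        _ = 4 := by norm_num
    · intro j hj
      have h5 := dk_diff_le (Ks j) (Kl j) (h1 j hj) (h3 j hj) α
      have h6 : 16 * (Kl j : ℝ) * nrm α ≤ 16 * (A * nrm α * 2 ^ w * 2 ^ (e * j)) := by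
        have h7 := mul_le_mul_of_nonneg_right (h4 j hj) hu.le
        rw [pow_add] at h7
        nlinarith
      calc ‖dk (Ks j) α - dk (Kl j) α‖ ^ 2 ≤ (16 * (A * nrm α * 2 ^ w * 2 ^ (e * j))) ^ 2 :=
            pow_le_pow_left₀ (norm_nonneg _) (h5.trans h6) 2
        _ = 256 * (A * nrm α * 2 ^ w * 2 ^ (e * j)) ^ 2 := by ring
    · intro j hj
      have h5 := dk_diff_le' (Ks j) (Kl j) (h1 j hj) (h3 j hj) α hu
      have hy : 0 < A * 2 ^ (e * j) * nrm α := by positivity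
      have h6 : 1 / ((Ks j : ℝ) * nrm α) ≤ 1 / (A * 2 ^ (e * j) * nrm α) :=
        one_div_le_one_div_of_le hy (mul_le_mul_of_nonneg_right (h2 j hj) hu.le)
      calc ‖dk (Ks j) α - dk (Kl j) α‖ ^ 2 ≤ (1 / (A * 2 ^ (e * j) * nrm α)) ^ 2 :=
            pow_le_pow_left₀ (norm_nonneg _) (h5.trans h6) 2
        _ = ((2 : ℝ) ^ w) ^ 2 / (A * nrm α * 2 ^ w * 2 ^ (e * j)) ^ 2 := by
            field_simp
  · have h0 : ∀ j ∈ s, ‖dk (Ks j) α - dk (Kl j) α‖ ^ 2 = 0 := by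
      intro j hj
      have h5 := dk_diff_le (Ks j) (Kl j) (h1 j hj) (h3 j hj) α
      rw [← hu, mul_zero] at h5
      have h6 := le_antisymm h5 (norm_nonneg _)
      rw [h6]
      norm_num
    rw [sum_eq_zero h0]
    positivity

end EnergyAux

open EnergyAux in
theorem energy (Q : ℕ) (s : Finset ℕ) (Ks Kl : ℕ → ℕ) (e w : ℕ) (he : 1 ≤ e) (A : ℝ) (hA : 0 < A)
    (h1 : ∀ j ∈ s, 1 ≤ Ks j) (h2 : ∀ j ∈ s, A * 2 ^ (e * j) ≤ Ks j) (h3 : ∀ j ∈ s, Ks j ≤ Kl j)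
    (h4 : ∀ j ∈ s, (Kl j : ℝ) ≤ A * 2 ^ (e * j + w)) (f : ZMod M → ℂ) :
    ∑ j ∈ s, n2 (fun x => Eb Q (Ks j) f x - Eb Q (Kl j) f x) ≤ 400 * ((w : ℝ) + 1) * n2 f := by
  have e1 : ∀ j, n2 (fun x => Eb Q (Ks j) f x - Eb Q (Kl j) f x) =
      ∑ ξ : ZMod M, ‖dk (Ks j) ((Q : ℝ) * ((ξ.val : ℝ) / M)) - dk (Kl j) ((Q : ℝ) * ((ξ.val : ℝ) / M))‖ ^ 2 *
        ‖ft f ξ‖ ^ 2 := by
    intro j
    have h5 : (fun x => Eb Q (Ks j) f x - Eb Q (Kl j) f x) = cv (bk Q (Ks j) - bk Q (Kl j)) f := by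
      funext x
      rw [cv_sub, cv_bk, cv_bk]
    rw [h5, n2_cv]
    refine sum_congr rfl fun ξ _ => ?_
    rw [mul_sub, mul_bk, mul_bk]
  simp only [e1]
  rw [sum_comm, n2_eq, mul_sum]
  refine sum_le_sum fun ξ _ => ?_
  rw [← sum_mul]
  exact mul_le_mul_of_nonneg_right (mult_bound s Ks Kl e w he A hA h1 h2 h3 h4 _) (by positivity)

end Pool.Agent.EQD.Lo
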