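import Pool.Agent.Lib.EQD.WeyB
import Pool.Agent.Lib.EQD.AAB

/-!
# Module Equ: equidistribution of the residues

PROOF. `q ∣ M`, `Ψ z y r` has period `q` in `y` and in `r`. For `y₀, r₀ < q` let `φ z = Ψ z y₀ r₀`. With `ψ_b m = ex (b m / q)`: `1[m ≡ r₀] - 1 / q = (1 / q) ∑_{b = 1}^{q - 1} ex (b (m - r₀) / q)`, and
`av (fun r => Ψ z y r) = (1 / q) ∑_{r₀ < q} Ψ z y r₀`. So the difference at `x` is `∑_{y₀} 1[x ≡ y₀] ∑_{r₀} (1 / q) ∑_{b} ex (- b r₀ / q) T_b φ (x)`,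
`T_b φ x = tv H (fun m => ex (b (m₀ + m) / q) φ (x + p (m₀ + m)))`, and its `n2` is at most `q ^ 4 max n2 (T_b φ)` (Cauchy-Schwarz over `y₀, r₀, b`; the indicators are disjoint).
`T_b` has the multiplier `t_b (ξ) = tv H (ex (b (m₀ + m) / q + β p (m₀ + m)))`, `β = ξ / M` reduced to `[- 1 / 2, 1 / 2]` (`p (..)` is an integer). `|β| ≤ N ^ (- 1 / 2)`: `weyl_block`. For the other `ξ`:
`|t_b| ≤ 1` and `∑_{|β| > N ^ (-1/2)} ‖ft φ ξ‖ ^ 2 ≤ N / 16 * ∑ ‖(ex β - 1) ft φ ξ‖ ^ 2 = N / 16 * n2 (φ (· + 1) - φ) ≤ N κ ^ 2 / 16 ≤ N ^ (- 1 / 2)` (`|ex β - 1| ≥ 4 |β|`).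
Choose the final `C` large compared with the constant of `weyl_block` (`q ^ C ≤ N`).
-/

set_option autoImplicit false

open Finset Polynomial

namespace Pool.Agent.EQD

open Pool.Agent.HLT Pool.Agent.NLT Pool.Agent.NLG

namespace EquAux

theorem per_nat {M q : ℕ} (f : ZMod M → ℂ) (hf : ∀ y, f (y + (q : ZMod M)) = f y) (y : ZMod M) (k : ℕ) :
    f (y + ((q * k : ℕ) : ZMod M)) = f y := by
  induction k with
  | zero => rw [Nat.mul_zero, Nat.cast_zero, add_zero]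
  | succ k ih =>
    have h : y + ((q * (k + 1) : ℕ) : ZMod M) = y + ((q * k : ℕ) : ZMod M) + (q : ZMod M) := by
      push_cast
      ring
    rw [h, hf, ih]

theorem per_mod {M q : ℕ} [NeZero q] (f : ZMod M → ℂ) (hf : ∀ y, f (y + (q : ZMod M)) = f y) (n : ℕ) :
    f (n : ZMod M) = f (((n : ZMod q).val : ℕ) : ZMod M) := by
  have h := per_nat f hf ((n % q : ℕ) : ZMod M) (n / q)
  rw [← Nat.cast_add, Nat.mod_add_div] at h
  rw [ZMod.val_natCast]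
  exact h

theorem sum_rng (M : ℕ) [NeZero M] (g : ZMod M → ℂ) : ∑ a, g a = ∑ j ∈ range M, g (j : ZMod M) := by
  symm
  refine Finset.sum_bij' (fun j _ => (j : ZMod M)) (fun a _ => a.val) ?_ ?_ ?_ ?_ ?_
  · intro a _
    exact mem_univ _
  · intro a _
    exact mem_range.mpr (ZMod.val_lt a)
  · intro a ha
    exact ZMod.val_cast_of_lt (mem_range.mp ha)
  · intro a _
    exact ZMod.natCast_zmod_val a
  · intro a _
    rfl

theorem sum_blocks (q : ℕ) [NeZero q] (g : ZMod q → ℂ) (k : ℕ) :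
    ∑ j ∈ range (q * k), g (j : ZMod q) = k * ∑ a, g a := by
  induction k with
  | zero => simp
  | succ k ih =>
    have h1 : ∑ x ∈ range q, g ((q * k + x : ℕ) : ZMod q) = ∑ x ∈ range q, g (x : ZMod q) := by
      refine Finset.sum_congr rfl (fun x _ => ?_)
      congr 1
      push_cast
      rw [ZMod.natCast_self, zero_mul, zero_add]
    rw [Nat.mul_succ, Finset.sum_range_add, ih, h1, ← sum_rng q g]
    push_cast
    ring

theorem av_per {M q : ℕ} [NeZero M] [NeZero q] (h : q ∣ M) (f : ZMod M → ℂ) (hf : ∀ y, f (y + (q : ZMod M)) = f y) :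
    av f = av (fun s : ZMod q => f ((s.val : ℕ) : ZMod M)) := by
  obtain ⟨k, hk⟩ := h
  have hr : range M = range (q * k) := congrArg range hk
  have h1 : ∑ r : ZMod M, f r = k * ∑ s : ZMod q, f ((s.val : ℕ) : ZMod M) := by
    rw [sum_rng M f, ← sum_blocks q (fun s => f ((s.val : ℕ) : ZMod M)) k, hr]
    exact Finset.sum_congr rfl (fun j _ => per_mod f hf j)
  have hM : (M : ℂ) = q * k := by
    rw [← Nat.cast_mul, ← hk]
  have hM0 : (M : ℂ) ≠ 0 := Nat.cast_ne_zero.mpr (NeZero.ne M)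
  have hk0 : (k : ℂ) ≠ 0 := by
    intro h0
    rw [h0, mul_zero] at hM
    exact hM0 hM
  unfold av
  rw [h1, hM, mul_comm (q : ℂ) k, mul_div_mul_left _ _ hk0]

theorem ft_at_zero {q : ℕ} [NeZero q] (g : ZMod q → ℂ) : ft g 0 = av g := by
  unfold ft
  congr 1
  funext x
  rw [neg_zero, chi_zero_left, mul_one]

theorem expand {q : ℕ} [NeZero q] (g : ZMod q → ℂ) (x : ZMod q) :
    g x - av g = ∑ ξ ∈ univ.erase (0 : ZMod q), ft g ξ * chi ξ x := by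
  have h := inversion g x
  rw [← Finset.add_sum_erase univ _ (mem_univ (0 : ZMod q)), ft_at_zero, chi_zero_left, mul_one] at h
  rw [sub_eq_iff_eq_add']
  exact h

/-- Weighted average along a sequence. -/
noncomputable def Tw {M : ℕ} [NeZero M] (H : ℕ) (w : ℕ → ℂ) (Q : ℕ → ZMod M) (φ : ZMod M → ℂ) (x : ZMod M) : ℂ :=
  tv H (fun m => w m * φ (x + Q m))

section group

variable {M : ℕ} [NeZero M]

theorem ft_Tw (H : ℕ) (w : ℕ → ℂ) (Q : ℕ → ZMod M) (φ : ZMod M → ℂ) (ξ : ZMod M) :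
    ft (Tw H w Q φ) ξ = tv H (fun m => w m * chi ξ (Q m)) * ft φ ξ := by
  have h1 : ft (Tw H w Q φ) ξ = av (fun x => tv H (fun m => w m * (φ (x + Q m) * chi (-ξ) x))) := by
    unfold ft Tw
    congr 1
    funext x
    rw [mul_comm, ← tv_mul_left]
    congr 1
    funext m
    ring
  have h2 : tv H (fun m => w m * chi ξ (Q m)) * ft φ ξ = tv H (fun m => av (fun x => w m * (φ (x + Q m) * chi (-ξ) x))) := by
    rw [mul_comm, ← tv_mul_left]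
    congr 1
    funext m
    rw [av_mul_left]
    have h3 : av (fun x => φ (x + Q m) * chi (-ξ) x) = chi ξ (Q m) * ft φ ξ := ft_shift φ (Q m) ξ
    rw [h3]
    ring
  rw [h1, h2, tv_av_comm]

theorem n2_Tw (H : ℕ) (w : ℕ → ℂ) (Q : ℕ → ZMod M) (φ : ZMod M → ℂ) :
    n2 (Tw H w Q φ) = ∑ ξ, ‖tv H (fun m => w m * chi ξ (Q m))‖ ^ 2 * ‖ft φ ξ‖ ^ 2 := by
  rw [n2_eq_ft]
  refine Finset.sum_congr rfl (fun ξ _ => ?_)
  rw [ft_Tw, norm_mul, mul_pow]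

theorem n2_dif (φ : ZMod M → ℂ) :
    n2 (fun z => φ (z + 1) - φ z) = ∑ ξ, ‖chi ξ 1 - 1‖ ^ 2 * ‖ft φ ξ‖ ^ 2 := by
  rw [n2_eq_ft]
  refine Finset.sum_congr rfl (fun ξ _ => ?_)
  have h1 : ft (fun z => φ (z + 1) - φ z) ξ = (chi ξ 1 - 1) * ft φ ξ := by
    have h2 : ft (fun z => φ (z + 1) - φ z) ξ = ft (fun z => φ (z + 1)) ξ - ft φ ξ := by
      unfold ft
      rw [← av_sub]
      congr 1
      funext x
      ring
    rw [h2, ft_shift]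
    ring
  rw [h1, norm_mul, mul_pow]

theorem n2_Tw_le (p : ℤ[X]) (N H m₀ : ℕ) (w : ℕ → ℂ) (hw : ∀ m, ‖w m‖ ≤ 1) (φ : ZMod M → ℂ) (hφ : Bd φ) (κ δ : ℝ)
    (hκ : ∀ z, ‖φ (z + 1) - φ z‖ ≤ κ)
    (hδ : ∀ β : ℝ, |β| ^ 2 * N ≤ 1 → ‖tv H (fun m => w m * ex (β * ((p.eval ((m₀ + m : ℕ) : ℤ) : ℤ) : ℝ)))‖ ≤ δ) :
    n2 (Tw H w (fun m => pz M p (m₀ + m)) φ) ≤ δ ^ 2 + N * κ ^ 2 / 16 := by
  have h1 : ∀ ξ : ZMod M, ‖tv H (fun m => w m * chi ξ (pz M p (m₀ + m)))‖ ^ 2 * ‖ft φ ξ‖ ^ 2 ≤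
      δ ^ 2 * ‖ft φ ξ‖ ^ 2 + (N : ℝ) / 16 * (‖chi ξ 1 - 1‖ ^ 2 * ‖ft φ ξ‖ ^ 2) := by
    intro ξ
    set θ : ℝ := (ξ.val : ℝ) / M with hθ
    set β : ℝ := θ - round θ with hβ
    have e1 : ∀ m, chi ξ (pz M p (m₀ + m)) = ex (β * ((p.eval ((m₀ + m : ℕ) : ℤ) : ℤ) : ℝ)) := by
      intro m
      unfold pz
      rw [chi_int, ← hθ]
      have h2 : ((p.eval ((m₀ + m : ℕ) : ℤ) : ℤ) : ℝ) * θ = β * ((p.eval ((m₀ + m : ℕ) : ℤ) : ℤ) : ℝ) +
          ((round θ * p.eval ((m₀ + m : ℕ) : ℤ) : ℤ) : ℝ) := by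
        rw [hβ]
        push_cast
        ring
      rw [h2, ex_add_int]
    have e2 : chi ξ 1 = ex θ := by
      have h2 := chi_int ξ 1
      rw [Int.cast_one, Int.cast_one, one_mul] at h2
      exact h2
    have hf : 0 ≤ ‖ft φ ξ‖ ^ 2 := sq_nonneg _
    have hN : (0 : ℝ) ≤ N := Nat.cast_nonneg N
    simp only [e1]
    rw [← mul_assoc, ← add_mul]
    refine mul_le_mul_of_nonneg_right ?_ hf
    by_cases hb : |β| ^ 2 * N ≤ 1
    · have h3 := pow_le_pow_left₀ (norm_nonneg _) (hδ β hb) 2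
      have h4 : 0 ≤ (N : ℝ) / 16 * ‖chi ξ 1 - 1‖ ^ 2 := by positivity
      linarith
    · push Not at hb
      have h3 : ‖tv H (fun m => w m * ex (β * ((p.eval ((m₀ + m : ℕ) : ℤ) : ℤ) : ℝ)))‖ ≤ 1 := by
        refine norm_tv_le_one H _ (fun m => ?_)
        rw [norm_mul, norm_ex, mul_one]
        exact hw m
      have h4 : ‖tv H (fun m => w m * ex (β * ((p.eval ((m₀ + m : ℕ) : ℤ) : ℤ) : ℝ)))‖ ^ 2 ≤ 1 :=
        pow_le_one₀ (norm_nonneg _) h3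
      have h5 : 4 * |β| ≤ ‖chi ξ 1 - 1‖ := by
        rw [e2]
        exact four_nrm_le θ
      have h6 : (4 * |β|) ^ 2 ≤ ‖chi ξ 1 - 1‖ ^ 2 := pow_le_pow_left₀ (by positivity) h5 2
      have h7 : (N : ℝ) / 16 * (4 * |β|) ^ 2 ≤ (N : ℝ) / 16 * ‖chi ξ 1 - 1‖ ^ 2 :=
        mul_le_mul_of_nonneg_left h6 (by positivity)
      have h8 : (N : ℝ) / 16 * (4 * |β|) ^ 2 = |β| ^ 2 * N := by ring
      have h9 : 0 ≤ δ ^ 2 := sq_nonneg _
      linarith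
  rw [n2_Tw]
  refine (Finset.sum_le_sum (fun ξ _ => h1 ξ)).trans ?_
  rw [Finset.sum_add_distrib, ← Finset.mul_sum, ← Finset.mul_sum, ← n2_eq_ft, ← n2_dif]
  have h2 : n2 φ ≤ 1 := n2_le_of_Bd φ hφ
  have h3 : n2 (fun z => φ (z + 1) - φ z) ≤ κ ^ 2 :=
    avr_le (fun z => pow_le_pow_left₀ (norm_nonneg _) (hκ z) 2)
  have h4 : δ ^ 2 * n2 φ ≤ δ ^ 2 * 1 := mul_le_mul_of_nonneg_left h2 (sq_nonneg _)
  have h5 : (N : ℝ) / 16 * n2 (fun z => φ (z + 1) - φ z) ≤ (N : ℝ) / 16 * κ ^ 2 :=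
    mul_le_mul_of_nonneg_left h3 (by positivity)
  linarith

/-- The expansion of the deviation into characters modulo `q`. -/
theorem dev_eq {q : ℕ} [NeZero q] (hq : q ∣ M) (H m₀ : ℕ) (Q : ℕ → ZMod M) (Ψ : ZMod M → ZMod M → ZMod M → ℂ)
    (hy : ∀ z y r, Ψ z (y + (q : ZMod M)) r = Ψ z y r) (hr : ∀ z y r, Ψ z y (r + (q : ZMod M)) = Ψ z y r) (x : ZMod M) :
    tv H (fun m => Ψ (x + Q m) x ((m₀ + m : ℕ) : ZMod M) - av (fun r => Ψ (x + Q m) x r)) =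
      ∑ ξ ∈ univ.erase (0 : ZMod q), av (fun s : ZMod q => chi (-ξ) s *
        Tw H (fun m => chi ξ ((m₀ + m : ℕ) : ZMod q)) Q
          (fun z => Ψ z ((((x.val : ZMod q)).val : ℕ) : ZMod M) ((s.val : ℕ) : ZMod M)) x) := by
  have hx : ∀ z r, Ψ z x r = Ψ z ((((x.val : ZMod q)).val : ℕ) : ZMod M) r := by
    intro z r
    have h1 := per_mod (fun y => Ψ z y r) (fun y => hy z y r) x.val
    beta_reduce at h1
    rw [ZMod.natCast_zmod_val] at h1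
    exact h1
  set y₀ : ZMod M := ((((x.val : ZMod q)).val : ℕ) : ZMod M) with hy₀
  have h2 : ∀ m, Ψ (x + Q m) x ((m₀ + m : ℕ) : ZMod M) - av (fun r => Ψ (x + Q m) x r) =
      ∑ ξ ∈ univ.erase (0 : ZMod q), av (fun s : ZMod q => chi (-ξ) s *
        (chi ξ ((m₀ + m : ℕ) : ZMod q) * Ψ (x + Q m) y₀ ((s.val : ℕ) : ZMod M))) := by
    intro m
    have e1 : av (fun r => Ψ (x + Q m) x r) = av (fun s : ZMod q => Ψ (x + Q m) y₀ ((s.val : ℕ) : ZMod M)) := by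
      have h3 : (fun r => Ψ (x + Q m) x r) = fun r => Ψ (x + Q m) y₀ r := by
        funext r
        exact hx _ _
      rw [h3]
      exact av_per hq (fun r => Ψ (x + Q m) y₀ r) (fun r => hr _ _ r)
    have e2 : Ψ (x + Q m) x ((m₀ + m : ℕ) : ZMod M) =
        (fun s : ZMod q => Ψ (x + Q m) y₀ ((s.val : ℕ) : ZMod M)) ((m₀ + m : ℕ) : ZMod q) := by
      rw [hx]
      exact per_mod (fun r => Ψ (x + Q m) y₀ r) (fun r => hr _ _ r) (m₀ + m)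
    rw [e1, e2]
    refine (expand (fun s : ZMod q => Ψ (x + Q m) y₀ ((s.val : ℕ) : ZMod M)) ((m₀ + m : ℕ) : ZMod q)).trans ?_
    refine Finset.sum_congr rfl (fun ξ _ => ?_)
    unfold ft
    rw [← av_mul_right]
    congr 1
    funext s
    ring
  have h3 : (fun m => Ψ (x + Q m) x ((m₀ + m : ℕ) : ZMod M) - av (fun r => Ψ (x + Q m) x r)) =
      fun m => ∑ ξ ∈ univ.erase (0 : ZMod q), av (fun s : ZMod q => chi (-ξ) s *
        (chi ξ ((m₀ + m : ℕ) : ZMod q) * Ψ (x + Q m) y₀ ((s.val : ℕ) : ZMod M))) := by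
    funext m
    exact h2 m
  rw [h3]
  have h4 : ∀ F : ZMod q → ℕ → ℂ, tv H (fun m => ∑ ξ ∈ univ.erase (0 : ZMod q), F ξ m) =
      ∑ ξ ∈ univ.erase (0 : ZMod q), tv H (fun m => F ξ m) := by
    intro F
    unfold tv
    rw [Finset.sum_comm, Finset.sum_div]
  rw [h4]
  refine Finset.sum_congr rfl (fun ξ _ => ?_)
  rw [tv_av_comm]
  congr 1
  funext s
  rw [tv_mul_left]
  rfl

/-- The mean square of the deviation. -/
theorem dev_le {q : ℕ} [NeZero q] (hq : q ∣ M) (H m₀ : ℕ) (Q : ℕ → ZMod M) (Ψ : ZMod M → ZMod M → ZMod M → ℂ)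
    (hy : ∀ z y r, Ψ z (y + (q : ZMod M)) r = Ψ z y r) (hr : ∀ z y r, Ψ z y (r + (q : ZMod M)) = Ψ z y r)
    (G : ℝ) (hG : 0 ≤ G)
    (hT : ∀ ξ : ZMod q, ξ ≠ 0 → ∀ s t : ZMod q, n2 (Tw H (fun m => chi ξ ((m₀ + m : ℕ) : ZMod q)) Q
      (fun z => Ψ z ((t.val : ℕ) : ZMod M) ((s.val : ℕ) : ZMod M))) ≤ G) :
    n2 (fun x => tv H (fun m => Ψ (x + Q m) x ((m₀ + m : ℕ) : ZMod M) - av (fun r => Ψ (x + Q m) x r))) ≤
      (q : ℝ) ^ 3 * G := by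
  have hq0 : (0 : ℝ) < q := by
    have := NeZero.pos q
    exact_mod_cast this
  have hcard : ((univ.erase (0 : ZMod q)).card : ℝ) ≤ q := by
    have h1 : (univ.erase (0 : ZMod q)).card ≤ (univ : Finset (ZMod q)).card := Finset.card_le_card (Finset.erase_subset _ _)
    rw [Finset.card_univ, ZMod.card] at h1
    exact_mod_cast h1
  set W : ZMod q → ZMod q → ZMod q → ZMod M → ℂ := fun ξ s t =>
    Tw H (fun m => chi ξ ((m₀ + m : ℕ) : ZMod q)) Q (fun z => Ψ z ((t.val : ℕ) : ZMod M) ((s.val : ℕ) : ZMod M)) with hW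
  have h1 : ∀ x : ZMod M, ‖tv H (fun m => Ψ (x + Q m) x ((m₀ + m : ℕ) : ZMod M) - av (fun r => Ψ (x + Q m) x r))‖ ^ 2 ≤
      (q : ℝ) * ∑ ξ ∈ univ.erase (0 : ZMod q), avr (fun s => ∑ t, ‖W ξ s t x‖ ^ 2) := by
    intro x
    rw [dev_eq hq H m₀ Q Ψ hy hr x]
    have h2 : ‖∑ ξ ∈ univ.erase (0 : ZMod q), av (fun s : ZMod q => chi (-ξ) s * W ξ s ((x.val : ZMod q)) x)‖ ^ 2 ≤
        (∑ ξ ∈ univ.erase (0 : ZMod q), ‖av (fun s : ZMod q => chi (-ξ) s * W ξ s ((x.val : ZMod q)) x)‖) ^ 2 :=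
      pow_le_pow_left₀ (norm_nonneg _) (norm_sum_le _ _) 2
    refine h2.trans ?_
    refine (sq_sum_le_card_mul_sum_sq).trans ?_
    refine mul_le_mul hcard ?_ (Finset.sum_nonneg (fun ξ _ => sq_nonneg _)) hq0.le
    refine Finset.sum_le_sum (fun ξ _ => ?_)
    refine (norm_av_sq_le _).trans (avr_mono (fun s => ?_))
    rw [norm_mul, norm_chi, one_mul]
    exact Finset.single_le_sum (f := fun t => ‖W ξ s t x‖ ^ 2) (fun t _ => sq_nonneg _) (mem_univ _)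
  have h2 : n2 (fun x => tv H (fun m => Ψ (x + Q m) x ((m₀ + m : ℕ) : ZMod M) - av (fun r => Ψ (x + Q m) x r))) ≤
      avr (fun x => (q : ℝ) * ∑ ξ ∈ univ.erase (0 : ZMod q), avr (fun s => ∑ t, ‖W ξ s t x‖ ^ 2)) := avr_mono h1
  refine h2.trans ?_
  rw [avr_mul_left, avr_sum]
  have h3 : ∀ ξ ∈ univ.erase (0 : ZMod q), avr (fun x => avr (fun s => ∑ t, ‖W ξ s t x‖ ^ 2)) ≤ (q : ℝ) * G := by
    intro ξ hξ
    have h4 : avr (fun x : ZMod M => avr (fun s : ZMod q => ∑ t, ‖W ξ s t x‖ ^ 2)) =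
        avr (fun s : ZMod q => ∑ t, n2 (W ξ s t)) := by
      have h5 : ∀ F : ZMod M → ZMod q → ℝ, avr (fun x => avr (fun s => F x s)) = avr (fun s => avr (fun x => F x s)) := by
        intro F
        unfold avr
        rw [← Finset.sum_div, ← Finset.sum_div, Finset.sum_comm, div_div, div_div, mul_comm (q : ℝ)]
      rw [h5]
      congr 1
      funext s
      rw [avr_sum]
      rfl
    rw [h4]
    refine avr_le (fun s => ?_)
    calc ∑ t, n2 (W ξ s t) ≤ ∑ _t : ZMod q, G := Finset.sum_le_sum (fun t _ => hT ξ (Finset.ne_of_mem_erase hξ) s t)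
      _ = (q : ℝ) * G := by
        rw [Finset.sum_const, Finset.card_univ, ZMod.card, nsmul_eq_mul]
  calc (q : ℝ) * ∑ ξ ∈ univ.erase (0 : ZMod q), avr (fun x => avr (fun s => ∑ t, ‖W ξ s t x‖ ^ 2))
      ≤ (q : ℝ) * ∑ ξ ∈ univ.erase (0 : ZMod q), (q : ℝ) * G :=
        mul_le_mul_of_nonneg_left (Finset.sum_le_sum h3) hq0.le
    _ = (q : ℝ) * (((univ.erase (0 : ZMod q)).card : ℝ) * ((q : ℝ) * G)) := by
        rw [Finset.sum_const, nsmul_eq_mul]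
    _ ≤ (q : ℝ) * ((q : ℝ) * ((q : ℝ) * G)) :=
        mul_le_mul_of_nonneg_left (mul_le_mul_of_nonneg_right hcard (by positivity)) hq0.le
    _ = (q : ℝ) ^ 3 * G := by ring

end group

/-- The numbers. -/
theorem nums (C₁ : ℕ) (hC₁ : 1 ≤ C₁) (N q : ℕ) (h2 : 2 ^ (20 * C₁) ≤ N) (hq : q ^ (20 * C₁) ≤ N) :
    ∃ u : ℝ, 2 ≤ u ∧ (q : ℝ) ≤ u ∧ u ^ (20 * C₁) = N := by
  have hC : 20 * C₁ ≠ 0 := by omega
  refine ⟨(N : ℝ) ^ (((20 * C₁ : ℕ) : ℝ)⁻¹), ?_, ?_, ?_⟩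
  · have h3 : ((2 : ℝ)) ^ (20 * C₁) ≤ ((N : ℝ) ^ (((20 * C₁ : ℕ) : ℝ)⁻¹)) ^ (20 * C₁) := by
      rw [Real.rpow_inv_natCast_pow (Nat.cast_nonneg N) hC]
      exact_mod_cast h2
    exact (pow_le_pow_iff_left₀ (by norm_num) (by positivity) hC).mp h3
  · have h3 : ((q : ℝ)) ^ (20 * C₁) ≤ ((N : ℝ) ^ (((20 * C₁ : ℕ) : ℝ)⁻¹)) ^ (20 * C₁) := by
      rw [Real.rpow_inv_natCast_pow (Nat.cast_nonneg N) hC]
      exact_mod_cast hq
    exact (pow_le_pow_iff_left₀ (by positivity) (by positivity) hC).mp h3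
  · exact Real.rpow_inv_natCast_pow (Nat.cast_nonneg N) hC

end EquAux

open EquAux

theorem equi (D : ℕ) (hD : 2 ≤ D) (p : ℤ[X]) (hp : p.natDegree = D) : ∃ C N₀ : ℕ, 1 ≤ C ∧ ∀ (M : ℕ) [NeZero M] (N q H m₀ : ℕ) (κ : ℝ),
    N₀ ≤ N → 1 ≤ q → q ∣ M → q ^ C ≤ N → m₀ + H ≤ N → N ^ (C - 1) ≤ H ^ C → 0 ≤ κ → κ ^ 4 * (N : ℝ) ^ 3 ≤ 1 →
    ∀ Ψ : ZMod M → ZMod M → ZMod M → ℂ, (∀ z y r, ‖Ψ z y r‖ ≤ 1) → (∀ z y r, Ψ z (y + (q : ZMod M)) r = Ψ z y r) →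
      (∀ z y r, Ψ z y (r + (q : ZMod M)) = Ψ z y r) → (∀ z y r, ‖Ψ (z + 1) y r - Ψ z y r‖ ≤ κ) →
      n2 (fun x => tv H (fun m => Ψ (x + pz M p (m₀ + m)) x ((m₀ + m : ℕ) : ZMod M) -
        av (fun r => Ψ (x + pz M p (m₀ + m)) x r))) ^ C * N ≤ 1 := by
  obtain ⟨C₁, N₁, hC₁, hw⟩ := weyl_block D hD p hp
  refine ⟨20 * C₁, max N₁ (2 ^ (20 * C₁)), by omega, ?_⟩
  intro M _ N q H m₀ κ hN hq hqM hqN hmH hH hκ0 hκ Ψ hΨ hy hr hz
  have hN1 : N₁ ≤ N := (le_max_left _ _).trans hN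
  have hN2 : 2 ^ (20 * C₁) ≤ N := (le_max_right _ _).trans hN
  have hNpos : 0 < N := lt_of_lt_of_le (by positivity) hN2
  have : NeZero q := ⟨by omega⟩
  obtain ⟨u, hu2, hqu, huN⟩ := nums C₁ hC₁ N q hN2 hqN
  have hu0 : 0 < u := by linarith
  have hu1 : 1 ≤ u := by linarith
  have hN0 : (0 : ℝ) < N := by exact_mod_cast hNpos
  have hqC : q ^ C₁ ≤ N := (Nat.pow_le_pow_right hq (by omega)).trans hqN
  have hHN : H ≤ N := by omega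
  have hHC : N ^ (C₁ - 1) ≤ H ^ C₁ := by
    have e1 : 20 * C₁ - 1 = (C₁ - 1) + 19 * C₁ := by omega
    have e2 : 20 * C₁ = C₁ + 19 * C₁ := by omega
    rw [e1, e2, pow_add, pow_add] at hH
    have h3 : H ^ C₁ * H ^ (19 * C₁) ≤ H ^ C₁ * N ^ (19 * C₁) := Nat.mul_le_mul_left _ (Nat.pow_le_pow_left hHN _)
    exact Nat.le_of_mul_le_mul_right (hH.trans h3) (by positivity)
  -- the multipliers
  have hδ : ∀ ξ : ZMod q, ξ ≠ 0 → ∀ β : ℝ, |β| ^ 2 * N ≤ 1 →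
      ‖tv H (fun m => chi ξ ((m₀ + m : ℕ) : ZMod q) * ex (β * ((p.eval ((m₀ + m : ℕ) : ℤ) : ℤ) : ℝ)))‖ ≤ 1 / u ^ 20 := by
    intro ξ hξ β hβ
    have hb : ¬ q ∣ ξ.val := by
      intro hd
      have h1 : ξ.val < q := ZMod.val_lt ξ
      have h2 : ξ.val = 0 := Nat.eq_zero_of_dvd_of_lt hd h1
      exact hξ ((ZMod.val_eq_zero ξ).mp h2)
    have h1 := hw N q H m₀ ξ.val β hN1 hq hqC hmH hHC hβ hb
    have e1 : (fun m : ℕ => ex ((ξ.val : ℝ) * ((m₀ + m : ℕ) : ℝ) / q + β * ((p.eval ((m₀ + m : ℕ) : ℤ) : ℤ) : ℝ))) =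
        fun m : ℕ => chi ξ ((m₀ + m : ℕ) : ZMod q) * ex (β * ((p.eval ((m₀ + m : ℕ) : ℤ) : ℤ) : ℝ)) := by
      funext m
      have h2 := chi_int ξ ((m₀ + m : ℕ) : ℤ)
      rw [Int.cast_natCast, Int.cast_natCast] at h2
      rw [h2, ← ex_add]
      congr 1
      ring
    rw [e1] at h1
    set T : ℝ := ‖tv H (fun m => chi ξ ((m₀ + m : ℕ) : ZMod q) * ex (β * ((p.eval ((m₀ + m : ℕ) : ℤ) : ℤ) : ℝ)))‖ with hT
    have h3 : (T * u ^ 20) ^ C₁ ≤ 1 := by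
      rw [mul_pow, ← pow_mul, huN]
      exact h1
    have hT0 : 0 ≤ T := norm_nonneg _
    have h4 : T * u ^ 20 ≤ 1 := by
      by_contra h5
      push Not at h5
      have h6 : 1 < (T * u ^ 20) ^ C₁ := one_lt_pow₀ h5 (by omega)
      linarith
    rw [le_div_iff₀ (by positivity)]
    exact h4
  have hκ2 : (N : ℝ) * κ ^ 2 * u ^ 10 ≤ 1 := by
    have h1 : u ^ 20 ≤ (N : ℝ) := by
      rw [← huN]
      exact pow_le_pow_right₀ hu1 (by omega)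
    have h2 : ((N : ℝ) * κ ^ 2 * u ^ 10) ^ 2 ≤ 1 := by
      calc ((N : ℝ) * κ ^ 2 * u ^ 10) ^ 2 = (κ ^ 4 * (N : ℝ) ^ 2) * u ^ 20 := by ring
        _ ≤ (κ ^ 4 * (N : ℝ) ^ 2) * N := mul_le_mul_of_nonneg_left h1 (by positivity)
        _ = κ ^ 4 * (N : ℝ) ^ 3 := by ring
        _ ≤ 1 := hκ
    have h3 : 0 ≤ (N : ℝ) * κ ^ 2 * u ^ 10 := by positivity
    nlinarith
  set G : ℝ := (1 / u ^ 20) ^ 2 + N * κ ^ 2 / 16 with hG
  have hG0 : 0 ≤ G := by positivity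
  have hmain := dev_le hqM H m₀ (fun m => pz M p (m₀ + m)) Ψ hy hr G hG0 (by
    intro ξ hξ s t
    exact n2_Tw_le p N H m₀ (fun m => chi ξ ((m₀ + m : ℕ) : ZMod q)) (fun m => (norm_chi _ _).le)
      (fun z => Ψ z ((t.val : ℕ) : ZMod M) ((s.val : ℕ) : ZMod M)) (fun z => hΨ _ _ _) κ (1 / u ^ 20)
      (fun z => hz _ _ _) (hδ ξ hξ))
  set E : ℝ := n2 (fun x => tv H (fun m => Ψ (x + pz M p (m₀ + m)) x ((m₀ + m : ℕ) : ZMod M) -
        av (fun r => Ψ (x + pz M p (m₀ + m)) x r))) with hE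
  have hE0 : 0 ≤ E := n2_nonneg _
  have hEu : E * u ≤ 1 := by
    have h1 : G * u ^ 10 ≤ 2 := by
      have h2 : (1 / u ^ 20) ^ 2 * u ^ 10 ≤ 1 := by
        have h3 : (1 / u ^ 20) ^ 2 * u ^ 10 = 1 / u ^ 30 := by
          field_simp
        rw [h3, div_le_one (by positivity)]
        exact one_le_pow₀ hu1
      rw [hG, add_mul]
      linarith
    have h2 : (q : ℝ) ^ 3 ≤ u ^ 3 := pow_le_pow_left₀ (Nat.cast_nonneg q) hqu 3
    have h3 : E ≤ u ^ 3 * G := hmain.trans (mul_le_mul_of_nonneg_right h2 hG0)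
    have h4 : E * u * u ^ 6 ≤ 2 := by
      calc E * u * u ^ 6 ≤ (u ^ 3 * G) * u * u ^ 6 := by
            refine mul_le_mul_of_nonneg_right (mul_le_mul_of_nonneg_right h3 hu0.le) (by positivity)
        _ = G * u ^ 10 := by ring
        _ ≤ 2 := h1
    have h5 : (2 : ℝ) ≤ u ^ 6 := by
      calc (2 : ℝ) ≤ 2 ^ 6 := by norm_num
        _ ≤ u ^ 6 := pow_le_pow_left₀ (by norm_num) hu2 6
    have h6 : 0 ≤ E * u := by positivity
    nlinarith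
  calc E ^ (20 * C₁) * N = (E * u) ^ (20 * C₁) := by rw [mul_pow, huN]
    _ ≤ 1 := pow_le_one₀ (by positivity) hEu

end Pool.Agent.EQD
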