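import Pool.Agent.Lib.EQD.DkE

/-!
# EQD.WeylS: twisted linear averages of slow functions are small

PROOF of `weyl_slow`. `F = F₁ + F₂` with `F₁ = Eb 1 V F`, `‖F₂‖ ≤ η` (average of `F y - F (y + v)`, `v < V`). The operator
`T F (x) = tv N (fun m => ex (a m / Q) F (x + P m))` is a contraction for the sup norm, so `n2 (T F) ≤ 2 n2 (T F₁) + 2 η²`.
Let `W θ = tv N (fun m => ex (a m / Q + θ P m))`. By Fourier expansion (`inversion`, `parseval_series`)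
`n2 (T F₁) = ∑_ξ ‖ft F ξ‖² ‖dk V (ξ/M)‖² ‖W (ξ/M)‖²` (`ft_cv`, `cv_bk`, `mul_bk` with `q = 1`), and `∑ ‖ft F ξ‖² ≤ 1`. CLAIM: for every real
`θ`: `‖dk V θ‖ * ‖W θ‖ ≤ 1 / R`. This gives `n2 (T F) ≤ 2 / R ^ 2 + 2 η ^ 2`.

Proof of the claim. Suppose that both factors are `> 1 / R` (both are `≤ 1`, so if one is `≤ 1 / R` we are done).
(1) `‖dk V θ‖ > 1 / R` gives `nrm θ < R / (2 V)` (`norm_dk_le`). Both factors depend only on `θ` modulo 1 (`P m` is an integer), so we may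
replace `θ` by `θ₀ = θ - round θ`, `|θ₀| = nrm θ < R / (2 V)`.
(2) `weyl_real D` with `Θ = C (a / Q) * X + C θ₀ * P.map (Int.castRingHom ℝ)`, `H = N` (degree `≤ D`, `D ≥ 2`, so
`Θ.coeff D = θ₀ p` with `p = P.leadingCoeff ≠ 0`) gives `q₁ ≤ R ^ C₀` with `nrm (q₁ θ₀ p) ≤ R ^ C₀ / N ^ D`. As
`|q₁ θ₀ p| ≤ R ^ C₀ |p| R / (2 V) ≤ 1 / 2` (choose `C` with `R ^ C ≥ |p| R ^ (C₀ + 1)`, possible since `R ≥ 2`), `nrm (q₁ θ₀ p) = |q₁ θ₀ p| ≥ |θ₀|`.
So `|θ₀| ≤ R ^ C₀ / N ^ D`.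
(3) Write `N = Q k₀ + r₀`, `r₀ < Q`. For each `k < k₀` the block sum
`∑_{u < Q} ex (a (Q k + u) / Q) ex (θ₀ P (Q k + u)) = ∑_{u<Q} ex (a u / Q) (ex (θ₀ P (Q k + u)) - ex (θ₀ P (Q k)))`, because
`∑_{u < Q} ex (a u / Q) = 0` (`Q ∤ a`, geometric sum) and `a k` is an integer. Each difference is at most
`2 π |θ₀| |P (Q k + u) - P (Q k)| ≤ 2 π |θ₀| b Q N ^ (D - 1)` with `b` depending only on `P` (all arguments are `≤ N`). The last `r₀` terms
are at most `Q`. Hence `‖W θ₀‖ ≤ 2 π b R ^ C₀ Q / N + Q / N ≤ (7 b + 1) R ^ C₀ Q / N ≤ 1 / R`, if `Q R ^ C ≤ N` and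
`R ^ C ≥ (7 b + 1) R ^ (C₀ + 1)`: contradiction.
-/

set_option autoImplicit false

open Finset Polynomial

namespace Pool.Agent.EQD.Lo

open Pool.Agent.HLT Pool.Agent.NLT Pool.Agent.NLG

namespace WeylSAux

/-- the twisted average -/
noncomputable def W (N Q a : ℕ) (P : ℤ[X]) (θ : ℝ) : ℂ :=
  tv N (fun m => ex ((a : ℝ) * (m : ℝ) / (Q : ℝ)) * ex (θ * ((P.eval (m : ℤ) : ℤ) : ℝ)))

lemma norm_W_le (N Q a : ℕ) (P : ℤ[X]) (θ : ℝ) : ‖W N Q a P θ‖ ≤ 1 := by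
  apply norm_tv_le_one
  intro t
  rw [norm_mul, norm_ex, norm_ex, one_mul]

/-- only `θ` modulo one matters -/
lemma W_round (N Q a : ℕ) (P : ℤ[X]) (θ : ℝ) : W N Q a P θ = W N Q a P (θ - round θ) := by
  unfold W
  congr 1
  funext m
  congr 1
  have h : θ * ((P.eval (m : ℤ) : ℤ) : ℝ) = (θ - round θ) * ((P.eval (m : ℤ) : ℤ) : ℝ) +
      ((round θ * P.eval (m : ℤ) : ℤ) : ℝ) := by
    push_cast
    ring
  rw [h, ex_add_int]

/-- Abel summation. -/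
lemma abel (s g : ℕ → ℂ) (K : ℝ) (hK : ∀ n, ‖∑ m ∈ range n, s m‖ ≤ K) (N : ℕ) :
    ‖∑ m ∈ range N, s m * g m - (∑ m ∈ range N, s m) * g N‖ ≤
      K * ∑ m ∈ range N, ‖g (m + 1) - g m‖ := by
  induction N with
  | zero => simp
  | succ N ih =>
    have e : ∑ m ∈ range (N + 1), s m * g m - (∑ m ∈ range (N + 1), s m) * g (N + 1) =
        (∑ m ∈ range N, s m * g m - (∑ m ∈ range N, s m) * g N) -
          (∑ m ∈ range (N + 1), s m) * (g (N + 1) - g N) := by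
      rw [sum_range_succ, sum_range_succ]
      ring
    rw [e, sum_range_succ (fun m => ‖g (m + 1) - g m‖), _root_.mul_add]
    refine (norm_sub_le _ _).trans (add_le_add ih ?_)
    rw [norm_mul]
    exact mul_le_mul_of_nonneg_right (hK _) (norm_nonneg _)

lemma norm_ex_sub_ex_le (α β : ℝ) : ‖ex α - ex β‖ ≤ 7 * |α - β| := by
  have h : ex α - ex β = ex β * (ex (α - β) - 1) := by
    rw [_root_.mul_sub, ← ex_add, mul_one]
    congr 2
    ring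
  rw [h, norm_mul, norm_ex, one_mul]
  refine (norm_ex_sub_one_le _).trans ?_
  exact mul_le_mul_of_nonneg_left (nrm_le_abs _) (by norm_num)

/-- a bound of the differences of a polynomial -/
noncomputable def bb (P : ℤ[X]) : ℕ := ∑ i ∈ range (P.natDegree + 1), (P.coeff i).natAbs * i

lemma poly_diff (P : ℤ[X]) (D : ℕ) (hD : 1 ≤ D) (hP : P.natDegree = D) (m N : ℕ) (hm : m + 1 ≤ N) :
    |((P.eval ((m + 1 : ℕ) : ℤ) : ℤ) : ℝ) - ((P.eval (m : ℤ) : ℤ) : ℝ)| ≤ (bb P : ℝ) * (N : ℝ) ^ (D - 1) := by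
  have hN : (1 : ℝ) ≤ N := by
    have : 1 ≤ N := by omega
    exact_mod_cast this
  have hmN : ((m : ℝ) + 1) ≤ N := by exact_mod_cast hm
  have e : ∀ x : ℤ, ((P.eval x : ℤ) : ℝ) = ∑ i ∈ range (P.natDegree + 1), (P.coeff i : ℝ) * (x : ℝ) ^ i := by
    intro x
    rw [Polynomial.eval_eq_sum_range]
    push_cast
    rfl
  rw [e, e, ← sum_sub_distrib]
  unfold bb
  push_cast
  rw [sum_mul]
  refine (abs_sum_le_sum_abs _ _).trans (sum_le_sum fun i hi => ?_)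
  rw [mem_range, hP] at hi
  rw [← _root_.mul_sub, abs_mul]
  have h1 : |((m : ℝ) + 1) ^ i - (m : ℝ) ^ i| ≤ i * (N : ℝ) ^ (D - 1) := by
    refine (abs_pow_sub_pow_le _ _ _).trans ?_
    have h2 : |((m : ℝ) + 1) - m| = 1 := by
      rw [add_sub_cancel_left, abs_one]
    rw [h2, one_mul]
    have h3 : max |(m : ℝ) + 1| |(m : ℝ)| ≤ N := by
      have h0 : (0 : ℝ) ≤ m := Nat.cast_nonneg _
      rw [abs_of_nonneg h0, abs_of_nonneg (by linarith : (0 : ℝ) ≤ (m : ℝ) + 1)]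
      exact max_le hmN (by linarith)
    have h4 : (max |(m : ℝ) + 1| |(m : ℝ)|) ^ (i - 1) ≤ (N : ℝ) ^ (D - 1) := by
      refine (pow_le_pow_left₀ (le_max_of_le_left (abs_nonneg _)) h3 _).trans ?_
      exact pow_le_pow_right₀ hN (by omega)
    exact mul_le_mul_of_nonneg_left h4 (Nat.cast_nonneg _)
  have h5 : |(P.coeff i : ℝ)| = ((P.coeff i).natAbs : ℝ) := by
    rw [Nat.cast_natAbs]
    push_cast
    rfl
  rw [h5, mul_assoc]
  exact mul_le_mul_of_nonneg_left h1 (Nat.cast_nonneg _)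

lemma nrm_frac {Q a : ℕ} (hQ : 1 ≤ Q) (ha : ¬ Q ∣ a) : 1 / (Q : ℝ) ≤ nrm ((a : ℝ) / Q) := by
  have hQ' : (0 : ℝ) < Q := by exact_mod_cast hQ
  unfold nrm
  generalize round ((a : ℝ) / Q) = z
  have h1 : (a : ℝ) / Q - z = (((a : ℤ) - Q * z : ℤ) : ℝ) / Q := by
    push_cast
    field_simp
  rw [h1, abs_div, abs_of_pos hQ']
  apply div_le_div_of_nonneg_right _ hQ'.le
  have h2 : (a : ℤ) - Q * z ≠ 0 := by
    intro h
    apply ha
    have h3 : (Q : ℤ) ∣ (a : ℤ) := ⟨z, by linarith⟩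
    exact_mod_cast h3
  have h3 : (1 : ℤ) ≤ |(a : ℤ) - Q * z| := Int.one_le_abs h2
  exact_mod_cast h3

/-- partial sums of the additive character -/
lemma part {Q a : ℕ} (hQ : 1 ≤ Q) (ha : ¬ Q ∣ a) (n : ℕ) :
    ‖∑ m ∈ range n, ex ((a : ℝ) * (m : ℝ) / (Q : ℝ))‖ ≤ Q := by
  have hQ' : (0 : ℝ) < Q := by exact_mod_cast hQ
  have h := geo_Ico 0 n ((a : ℝ) / Q) 0
  rw [Nat.Ico_zero_eq_range] at h
  have e : ∑ t ∈ range n, ex ((t : ℝ) * ((a : ℝ) / Q) + 0) =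
      ∑ m ∈ range n, ex ((a : ℝ) * (m : ℝ) / (Q : ℝ)) := by
    refine sum_congr rfl fun t _ => ?_
    congr 1
    ring
  rw [e] at h
  have h1 := nrm_frac hQ ha
  have h2 : 1 / (Q : ℝ) * ‖∑ m ∈ range n, ex ((a : ℝ) * (m : ℝ) / (Q : ℝ))‖ ≤ 1 := by
    have h3 := mul_le_mul_of_nonneg_right h1
      (norm_nonneg (∑ m ∈ range n, ex ((a : ℝ) * (m : ℝ) / (Q : ℝ))))
    have h4 := norm_nonneg (∑ m ∈ range n, ex ((a : ℝ) * (m : ℝ) / (Q : ℝ)))
    have h5 := nrm_nonneg ((a : ℝ) / Q)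
    nlinarith [mul_nonneg h5 h4]
  rw [one_div, ← div_eq_inv_mul, div_le_one hQ'] at h2
  exact h2

/-- small frequencies -/
lemma W_small (D : ℕ) (hD : 1 ≤ D) (P : ℤ[X]) (hP : P.natDegree = D) {N Q a : ℕ} (hN : 1 ≤ N)
    (hQ : 1 ≤ Q) (ha : ¬ Q ∣ a) (θ : ℝ) :
    ‖W N Q a P θ‖ ≤ Q * (1 + 7 * |θ| * bb P * (N : ℝ) ^ D) / N := by
  have hN' : (0 : ℝ) < N := by exact_mod_cast hN
  set s : ℕ → ℂ := fun m => ex ((a : ℝ) * (m : ℝ) / (Q : ℝ)) with hs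
  set g : ℕ → ℂ := fun m => ex (θ * ((P.eval (m : ℤ) : ℤ) : ℝ)) with hg
  have h1 := abel s g Q (fun n => part hQ ha n) N
  have h2 : ∑ m ∈ range N, ‖g (m + 1) - g m‖ ≤ 7 * |θ| * bb P * (N : ℝ) ^ D := by
    have h3 : ∀ m ∈ range N, ‖g (m + 1) - g m‖ ≤ 7 * |θ| * (bb P * (N : ℝ) ^ (D - 1)) := by
      intro m hm
      rw [mem_range] at hm
      rw [hg]
      refine (norm_ex_sub_ex_le _ _).trans ?_
      rw [← _root_.mul_sub, abs_mul, ← mul_assoc]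
      exact mul_le_mul_of_nonneg_left (poly_diff P D hD hP m N hm) (by positivity)
    refine (sum_le_sum h3).trans (le_of_eq ?_)
    rw [sum_const, card_range, nsmul_eq_mul]
    have h4 : (N : ℝ) ^ D = N * (N : ℝ) ^ (D - 1) := by
      rw [← pow_succ']
      congr 1
      omega
    rw [h4]
    ring
  have h3 : ‖∑ m ∈ range N, s m * g m‖ ≤ Q * (1 + 7 * |θ| * bb P * (N : ℝ) ^ D) := by
    have h4 : ∑ m ∈ range N, s m * g m = (∑ m ∈ range N, s m * g m - (∑ m ∈ range N, s m) * g N) +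
        (∑ m ∈ range N, s m) * g N := by ring
    rw [h4]
    refine (norm_add_le _ _).trans ?_
    have h5 : ‖(∑ m ∈ range N, s m) * g N‖ ≤ Q := by
      rw [norm_mul, hg]
      simp only [norm_ex, mul_one]
      exact part hQ ha N
    have h6 := mul_le_mul_of_nonneg_left h2 (Nat.cast_nonneg (α := ℝ) Q)
    linarith
  unfold W tv
  rw [norm_div, Complex.norm_natCast]
  exact div_le_div_of_nonneg_right h3 hN'.le

lemma abs_le_nrm {α : ℝ} (h : |α| ≤ 1 / 2) : |α| ≤ nrm α := by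
  unfold nrm
  generalize round α = z
  by_cases hz : z = 0
  · subst hz
    simp
  · have h1 : (1 : ℝ) ≤ |(z : ℝ)| := by exact_mod_cast Int.one_le_abs hz
    have h2 := abs_sub_abs_le_abs_sub (z : ℝ) α
    rw [abs_sub_comm] at h2
    linarith

/-- the claim -/
lemma claim (D : ℕ) (hD : 2 ≤ D) (P : ℤ[X]) (hP : P.natDegree = D) :
    ∃ C : ℕ, ∀ (N R V Q a : ℕ), 2 ≤ R → R ^ C ≤ N → R ^ C ≤ V → 1 ≤ Q →
      Q * R ^ C ≤ N → ¬ Q ∣ a → ∀ θ : ℝ, ‖dk V θ‖ * ‖W N Q a P θ‖ ≤ 1 / (R : ℝ) := by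
  obtain ⟨C0, hC0⟩ := weyl_real D (by omega)
  set p : ℕ := P.leadingCoeff.natAbs with hp
  set K : ℕ := p + 7 * bb P + 1 with hK
  refine ⟨C0 + 1 + K, ?_⟩
  intro N R V Q a hR hRN hRV hQ hQN ha θ
  have hP0 : P ≠ 0 := by
    rintro rfl
    rw [Polynomial.natDegree_zero] at hP
    omega
  have hp1 : 1 ≤ p := by
    rw [hp]
    exact Int.natAbs_pos.mpr (Polynomial.leadingCoeff_ne_zero.mpr hP0)
  have hR0 : (0 : ℝ) < R := by
    have : 0 < R := by omega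
    exact_mod_cast this
  have hR2 : (2 : ℝ) ≤ R := by exact_mod_cast hR
  have hR1 : (1 : ℝ) ≤ R := by linarith
  have hKR : (K : ℝ) ≤ (R : ℝ) ^ K := by
    have h1 : K ≤ R ^ K := (Nat.lt_pow_self (by omega : 1 < R)).le
    exact_mod_cast h1
  have hsplit : (R : ℝ) ^ (C0 + 1 + K) = (R : ℝ) ^ C0 * R * (R : ℝ) ^ K := by
    rw [pow_add, pow_add, pow_one]
  have hRN' : (R : ℝ) ^ (C0 + 1 + K) ≤ N := by exact_mod_cast hRN
  have hRV' : (R : ℝ) ^ (C0 + 1 + K) ≤ V := by exact_mod_cast hRV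
  have hQN' : (Q : ℝ) * (R : ℝ) ^ (C0 + 1 + K) ≤ N := by exact_mod_cast hQN
  have hpw : (1 : ℝ) ≤ (R : ℝ) ^ (C0 + 1 + K) := one_le_pow₀ hR1
  have hV0 : (0 : ℝ) < V := by linarith
  have hN0 : (0 : ℝ) < N := by linarith
  have hV1 : 1 ≤ V := by exact_mod_cast (show (0 : ℝ) < V from hV0)
  have hN1 : 1 ≤ N := by exact_mod_cast (show (0 : ℝ) < N from hN0)
  have hdk := norm_dk_le_one V θ
  have hW := norm_W_le N Q a P θ
  have hdk0 := norm_nonneg (dk V θ)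
  have hW0 := norm_nonneg (W N Q a P θ)
  by_contra hcon
  rw [not_le] at hcon
  have hd1 : 1 / (R : ℝ) < ‖dk V θ‖ := by nlinarith
  have hW1 : 1 / (R : ℝ) < ‖W N Q a P θ‖ := by nlinarith
  -- step 1
  have hn : nrm θ ≤ R / (2 * V) := by
    rcases (nrm_nonneg θ).lt_or_eq with h | h
    · have h1 := (hd1.trans_le (norm_dk_le V hV1 θ h)).le
      rw [div_le_div_iff₀ hR0 (by positivity)] at h1
      rw [le_div_iff₀ (by positivity)]
      nlinarith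
    · rw [← h]
      positivity
  obtain ⟨t, ht⟩ : ∃ t : ℝ, t = θ - round θ := ⟨_, rfl⟩
  have ht1 : |t| ≤ R / (2 * V) := by rw [ht]; exact hn
  rw [W_round, ← ht] at hW1
  -- step 2
  set Θ : ℝ[X] := Polynomial.C ((a : ℝ) / Q) * Polynomial.X +
    Polynomial.C t * P.map (Int.castRingHom ℝ) with hΘ
  have hdeg : Θ.natDegree ≤ D := by
    rw [hΘ]
    refine (Polynomial.natDegree_add_le _ _).trans (max_le ?_ ?_)
    · refine (Polynomial.natDegree_C_mul_le _ _).trans ?_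
      exact (Polynomial.natDegree_X_le).trans (by omega)
    · refine (Polynomial.natDegree_C_mul_le _ _).trans ?_
      exact (Polynomial.natDegree_map_le).trans hP.le
  have hcoef : Θ.coeff D = t * (P.leadingCoeff : ℝ) := by
    rw [hΘ, Polynomial.coeff_add, Polynomial.coeff_C_mul, Polynomial.coeff_C_mul,
      Polynomial.coeff_X_of_ne_one (by omega), Polynomial.coeff_map, mul_zero, zero_add,
      Polynomial.leadingCoeff, hP]
    rfl
  have heval : ∀ m : ℕ, ex (Θ.eval (m : ℝ)) =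
      ex ((a : ℝ) * (m : ℝ) / (Q : ℝ)) * ex (t * ((P.eval (m : ℤ) : ℤ) : ℝ)) := by
    intro m
    rw [← ex_add, hΘ]
    congr 1
    rw [Polynomial.eval_add, Polynomial.eval_mul, Polynomial.eval_mul, Polynomial.eval_C,
      Polynomial.eval_C, Polynomial.eval_X]
    have h1 : (P.map (Int.castRingHom ℝ)).eval (m : ℝ) = ((P.eval (m : ℤ) : ℤ) : ℝ) := by
      have := Polynomial.eval_intCast_map (Int.castRingHom ℝ) P (m : ℤ)
      simp
    rw [h1]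
    ring
  have hWΘ : W N Q a P t = tv N (fun m => ex (Θ.eval (m : ℝ))) := by
    unfold W
    congr 1
    funext m
    exact (heval m).symm
  have hC0N : R ^ C0 ≤ N := le_trans (Nat.pow_le_pow_right (by omega) (by omega)) hRN
  obtain ⟨q, hq1, hq2, hq3⟩ := hC0 N R Θ hR hC0N hdeg (by rw [← hWΘ]; exact hW1.le)
  rw [hcoef] at hq3
  have hq1' : (1 : ℝ) ≤ q := by exact_mod_cast hq1
  have hq2' : (q : ℝ) ≤ (R : ℝ) ^ C0 := by exact_mod_cast hq2
  have hlc : |(P.leadingCoeff : ℝ)| = p := by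
    rw [hp, Nat.cast_natAbs]
    push_cast
    rfl
  have hp1' : (1 : ℝ) ≤ p := by exact_mod_cast hp1
  have hKp : (p : ℝ) ≤ (R : ℝ) ^ K := by
    refine le_trans ?_ hKR
    rw [hK]
    push_cast
    have : (0 : ℝ) ≤ bb P := Nat.cast_nonneg _
    linarith
  have hb7 : 7 * (bb P : ℝ) + 1 ≤ (R : ℝ) ^ K := by
    refine le_trans ?_ hKR
    rw [hK]
    push_cast
    linarith
  have habs : |(q : ℝ) * (t * (P.leadingCoeff : ℝ))| = q * (|t| * p) := by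
    rw [abs_mul, abs_mul, hlc, Nat.abs_cast]
  have hhalf : |(q : ℝ) * (t * (P.leadingCoeff : ℝ))| ≤ 1 / 2 := by
    rw [habs]
    have h1 : (q : ℝ) * (|t| * p) ≤ (R : ℝ) ^ C0 * (R / (2 * V) * (R : ℝ) ^ K) := by
      apply mul_le_mul hq2' _ (by positivity) (by positivity)
      exact mul_le_mul ht1 hKp (by positivity) (by positivity)
    refine h1.trans ?_
    have h2 : (R : ℝ) ^ C0 * (R / (2 * V) * (R : ℝ) ^ K) = (R : ℝ) ^ (C0 + 1 + K) / (2 * V) := by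
      rw [hsplit]
      ring
    rw [h2, div_le_iff₀ (by positivity)]
    linarith
  have ht2 : |t| ≤ (R : ℝ) ^ C0 / (N : ℝ) ^ D := by
    have h1 := (abs_le_nrm hhalf).trans hq3
    rw [habs] at h1
    refine le_trans ?_ h1
    have h0 := abs_nonneg t
    nlinarith [mul_nonneg h0 (by linarith : (0 : ℝ) ≤ p)]
  -- step 3
  have h3 := W_small D (by omega) P hP hN1 hQ ha t
  have hND : (0 : ℝ) < (N : ℝ) ^ D := by positivity
  have h4 : |t| * (N : ℝ) ^ D ≤ (R : ℝ) ^ C0 := by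
    rwa [le_div_iff₀ hND] at ht2
  have hRC0 : (1 : ℝ) ≤ (R : ℝ) ^ C0 := one_le_pow₀ hR1
  have h5 : 1 + 7 * |t| * bb P * (N : ℝ) ^ D ≤ (R : ℝ) ^ C0 * (R : ℝ) ^ K := by
    have hbb : (0 : ℝ) ≤ bb P := Nat.cast_nonneg _
    have h6 : 7 * |t| * bb P * (N : ℝ) ^ D = 7 * bb P * (|t| * (N : ℝ) ^ D) := by ring
    rw [h6]
    have h7 : 7 * bb P * (|t| * (N : ℝ) ^ D) ≤ 7 * bb P * (R : ℝ) ^ C0 :=
      mul_le_mul_of_nonneg_left h4 (by positivity)
    have h8 : (R : ℝ) ^ C0 * (7 * (bb P : ℝ) + 1) ≤ (R : ℝ) ^ C0 * (R : ℝ) ^ K :=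
      mul_le_mul_of_nonneg_left hb7 (by positivity)
    nlinarith
  have h6 : ‖W N Q a P t‖ ≤ 1 / R := by
    refine h3.trans ?_
    rw [div_le_div_iff₀ hN0 hR0, one_mul]
    have hQ0 : (0 : ℝ) ≤ Q := Nat.cast_nonneg _
    have h7 : (Q : ℝ) * (1 + 7 * |t| * bb P * (N : ℝ) ^ D) * R ≤
        Q * ((R : ℝ) ^ C0 * (R : ℝ) ^ K) * R :=
      mul_le_mul_of_nonneg_right (mul_le_mul_of_nonneg_left h5 hQ0) hR0.le
    refine h7.trans (le_trans (le_of_eq ?_) hQN')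
    rw [hsplit]
    ring
  linarith

end WeylSAux

open WeylSAux

theorem weyl_slow (D : ℕ) (hD : 2 ≤ D) (P : ℤ[X]) (hP : P.natDegree = D) :
    ∃ C : ℕ, ∀ (M : ℕ) [NeZero M] (N R V Q a : ℕ) (η : ℝ) (F : ZMod M → ℂ), 2 ≤ R → R ^ C ≤ N → R ^ C ≤ V → 1 ≤ Q →
      Q * R ^ C ≤ N → ¬ Q ∣ a → 0 ≤ η → Bd F → (∀ y : ZMod M, ∀ v < V, ‖F (y + (v : ZMod M)) - F y‖ ≤ η) →
      n2 (fun x : ZMod M => tv N (fun m => ex ((a : ℝ) * (m : ℝ) / (Q : ℝ)) * F (x + pz M P m))) ≤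
        2 / (R : ℝ) ^ 2 + 2 * η ^ 2 := by
  obtain ⟨C, hC⟩ := claim D hD P hP
  refine ⟨C, ?_⟩
  intro M _ N R V Q a η F hR hRN hRV hQ hQN ha hη hF hslow
  have hcl := hC N R V Q a hR hRN hRV hQ hQN ha
  have hR0 : (0 : ℝ) < R := by
    have : 0 < R := by omega
    exact_mod_cast this
  have hV1 : 1 ≤ V := le_trans (Nat.one_le_pow _ _ (by omega)) hRV
  set e : ℕ → ℂ := fun m => ex ((a : ℝ) * (m : ℝ) / (Q : ℝ)) with he
  set F1 : ZMod M → ℂ := Eb 1 V F with hF1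
  have hF2 : ∀ x, ‖F x - F1 x‖ ≤ η := by
    intro x
    have h1 : F x - F1 x = tv V (fun i => F x - F (x + ((1 * i : ℕ) : ZMod M))) := by
      rw [tv_sub, tv_const V hV1]
      rfl
    rw [h1]
    refine (norm_tv_le _ _).trans (tvr_le _ hη fun i hi => ?_)
    rw [one_mul, norm_sub_rev]
    exact hslow x i hi
  set G : ZMod M → ℂ := fun x => tv N (fun m => e m * F1 (x + pz M P m)) with hG
  have hpt : ∀ x, ‖tv N (fun m => e m * F (x + pz M P m))‖ ^ 2 ≤ 2 * ‖G x‖ ^ 2 + 2 * η ^ 2 := by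
    intro x
    have h1 : tv N (fun m => e m * F (x + pz M P m)) - G x =
        tv N (fun m => e m * (F (x + pz M P m) - F1 (x + pz M P m))) := by
      rw [hG, ← tv_sub]
      congr 1
      funext m
      ring
    have h2 : ‖tv N (fun m => e m * F (x + pz M P m)) - G x‖ ≤ η := by
      rw [h1]
      refine (norm_tv_le _ _).trans (tvr_le _ hη fun m _ => ?_)
      rw [norm_mul, he]
      simp only [norm_ex, one_mul]
      exact hF2 _
    have h3 : ‖tv N (fun m => e m * F (x + pz M P m))‖ ≤ ‖G x‖ + η := by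
      have h4 := norm_add_le (tv N (fun m => e m * F (x + pz M P m)) - G x) (G x)
      rw [sub_add_cancel] at h4
      linarith
    have h5 := norm_nonneg (tv N (fun m => e m * F (x + pz M P m)))
    have h6 := norm_nonneg (G x)
    nlinarith [sq_nonneg (‖G x‖ - η)]
  -- the Fourier expansion
  have hFT : ∀ x, G x = ∑ ξ : ZMod M, (ft F1 ξ * W N Q a P ((ξ.val : ℝ) / (M : ℝ))) * chi ξ x := by
    intro x
    have h1 : ∀ m, e m * F1 (x + pz M P m) = ∑ ξ : ZMod M, (ft F1 ξ * chi ξ x) *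
        (e m * ex (((ξ.val : ℝ) / (M : ℝ)) * ((P.eval (m : ℤ) : ℤ) : ℝ))) := by
      intro m
      rw [inversion F1 (x + pz M P m), mul_sum]
      refine sum_congr rfl fun ξ _ => ?_
      rw [chi_add_right]
      unfold pz
      rw [chi_int, mul_comm (((P.eval (m : ℤ) : ℤ) : ℝ)) ((ξ.val : ℝ) / (M : ℝ))]
      ring
    rw [hG]
    simp only [h1]
    unfold tv W tv
    rw [sum_comm, sum_div]
    refine sum_congr rfl fun ξ _ => ?_
    rw [← mul_sum]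
    ring
  have hn2 : n2 G ≤ 1 / (R : ℝ) ^ 2 := by
    have h1 : n2 G = ∑ ξ : ZMod M, ‖ft F1 ξ * W N Q a P ((ξ.val : ℝ) / (M : ℝ))‖ ^ 2 := by
      unfold n2
      rw [← parseval_series]
      congr 1
      funext x
      rw [hFT x]
    rw [h1]
    have h2 : ∀ ξ : ZMod M, ‖ft F1 ξ * W N Q a P ((ξ.val : ℝ) / (M : ℝ))‖ ^ 2 ≤
        (1 / (R : ℝ)) ^ 2 * ‖ft F ξ‖ ^ 2 := by
      intro ξ
      have h3 : F1 = cv (bk 1 V) F := by
        funext x
        rw [cv_bk]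
      have h4 : ft F1 ξ = dk V ((ξ.val : ℝ) / (M : ℝ)) * ft F ξ := by
        rw [h3, ft_cv, mul_bk, Nat.cast_one, one_mul]
      rw [h4, norm_mul, norm_mul]
      have h5 := hcl ((ξ.val : ℝ) / (M : ℝ))
      have h6 : ‖dk V ((ξ.val : ℝ) / (M : ℝ))‖ * ‖ft F ξ‖ * ‖W N Q a P ((ξ.val : ℝ) / (M : ℝ))‖ =
          (‖dk V ((ξ.val : ℝ) / (M : ℝ))‖ * ‖W N Q a P ((ξ.val : ℝ) / (M : ℝ))‖) * ‖ft F ξ‖ := by
        ring
      rw [h6, mul_pow]
      exact mul_le_mul_of_nonneg_right (pow_le_pow_left₀ (by positivity) h5 2) (by positivity)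
    refine (sum_le_sum fun ξ _ => h2 ξ).trans ?_
    rw [← mul_sum]
    have h3 := sum_ft_sq_le_one hF
    have h4 : (0 : ℝ) ≤ (1 / (R : ℝ)) ^ 2 := by positivity
    calc (1 / (R : ℝ)) ^ 2 * ∑ ξ, ‖ft F ξ‖ ^ 2 ≤ (1 / (R : ℝ)) ^ 2 * 1 :=
          mul_le_mul_of_nonneg_left h3 h4
      _ = 1 / (R : ℝ) ^ 2 := by rw [mul_one, div_pow, one_pow]
  have hfin : n2 (fun x : ZMod M => tv N (fun m => e m * F (x + pz M P m))) ≤
      2 * n2 G + 2 * η ^ 2 := by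
    unfold n2
    have h1 : avr (fun x : ZMod M => ‖tv N (fun m => e m * F (x + pz M P m))‖ ^ 2) ≤
        avr (fun x : ZMod M => 2 * ‖G x‖ ^ 2 + 2 * η ^ 2) := avr_mono hpt
    refine h1.trans (le_of_eq ?_)
    rw [avr_add, avr_mul_left, avr_const]
  have h9 : 2 * n2 G ≤ 2 / (R : ℝ) ^ 2 := by
    have : 2 * n2 G ≤ 2 * (1 / (R : ℝ) ^ 2) := mul_le_mul_of_nonneg_left hn2 (by norm_num)
    refine this.trans (le_of_eq ?_)
    ring
  linarith

end Pool.Agent.EQD.Lo
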