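import Pool.Agent.Lib.EQD.Prof
import Pool.Agent.Lib.EQD.WeylS

/-!
# EQD.Equi: the residues of the variable are equidistributed jointly with the slow variable

PROOF of `equi`. Fix `ρ`. For `y : ZMod M` and `u : ℕ` let `K y u = ∏_l pf h (G l) y (ρ + pz Q (P l) u)`; it is `Q`-periodic in `u`
(`pz_periodic`), `‖K‖ ≤ 2 ^ n`. Finite Fourier expansion in `u` modulo `Q`: with `F_a y = tv Q (fun u => K y u * ex (-(a u / Q)))`,
`K y m = ∑_{a < Q} F_a y * ex (a m / Q)` for all `m : ℕ` (orthogonality of the `Q`-th roots of unity; only the residue of `m` matters) and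
`F_0 y = ZZ h P G y ρ`. So the difference in the statement is
`∑_{0 < a < Q} tv N (fun m => ex (a m / Q) * F_a (x + pz M (P i₀) m))`. Apply `weyl_slow` (for `P i₀`) to `F_a / 2 ^ n`: it is bounded by
`1` and for `v < V`: `‖F_a (y + v) - F_a y‖ ≤ 2 ^ n ∑_l κ l (v / Q + 1)` (each factor changes by at most
`κ l (v / Q + 1)`, `pf_shift`; the other factors are `≤ 2`), so `F_a / 2^n` changes by at most
`η' = ∑_l κ l (V / Q + 1) ≤ η`. Finally `n2 (∑_{a} T_a) ≤ Q ∑_a n2 (T_a) ≤ Q * Q * 4 ^ n (2 / R² + 2 η²)`.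
-/

set_option autoImplicit false

open Finset Polynomial

namespace Pool.Agent.EQD.Lo

open Pool.Agent.HLT Pool.Agent.NLT Pool.Agent.NLG

namespace EquiAux

lemma prod_diff {n : ℕ} (s : Finset (Fin n)) (a b : Fin n → ℂ) (ha : ∀ l, ‖a l‖ ≤ 1) (hb : ∀ l, ‖b l‖ ≤ 1) :
    ‖∏ l ∈ s, a l - ∏ l ∈ s, b l‖ ≤ ∑ l ∈ s, ‖a l - b l‖ := by
  classical
  induction s using Finset.induction_on with
  | empty => simp
  | @insert i s hi ih =>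
    rw [Finset.prod_insert hi, Finset.prod_insert hi, Finset.sum_insert hi]
    have h1 : a i * ∏ l ∈ s, a l - b i * ∏ l ∈ s, b l =
        (a i - b i) * ∏ l ∈ s, a l + b i * (∏ l ∈ s, a l - ∏ l ∈ s, b l) := by ring
    rw [h1]
    have h2 : ‖∏ l ∈ s, a l‖ ≤ 1 := by
      rw [norm_prod]
      exact Finset.prod_le_one (fun _ _ => norm_nonneg _) (fun l _ => ha l)
    calc ‖(a i - b i) * ∏ l ∈ s, a l + b i * (∏ l ∈ s, a l - ∏ l ∈ s, b l)‖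
        ≤ ‖a i - b i‖ * ‖∏ l ∈ s, a l‖ + ‖b i‖ * ‖∏ l ∈ s, a l - ∏ l ∈ s, b l‖ := by
          refine (norm_add_le _ _).trans ?_
          rw [norm_mul, norm_mul]
      _ ≤ ‖a i - b i‖ * 1 + 1 * ∑ l ∈ s, ‖a l - b l‖ := by
          refine add_le_add (mul_le_mul_of_nonneg_left h2 (norm_nonneg _)) ?_
          exact mul_le_mul (hb i) ih (norm_nonneg _) zero_le_one
      _ = ‖a i - b i‖ + ∑ l ∈ s, ‖a l - b l‖ := by ring

lemma sum_val {Q : ℕ} [NeZero Q] {β : Type} [AddCommMonoid β] (g : ℕ → β) :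
    ∑ r : ZMod Q, g r.val = ∑ u ∈ range Q, g u := by
  refine Finset.sum_nbij' (fun r : ZMod Q => r.val) (fun u : ℕ => (u : ZMod Q)) ?_ ?_ ?_ ?_ ?_
  · intro r _
    exact Finset.mem_range.mpr (ZMod.val_lt r)
  · intro u _
    exact Finset.mem_univ _
  · intro r _
    exact ZMod.natCast_zmod_val r
  · intro u hu
    exact ZMod.val_cast_of_lt (Finset.mem_range.mp hu)
  · intro r _
    rfl

section group

variable {M Q : ℕ} [NeZero M] [NeZero Q]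

/-- The product of the profiles, normalised. -/
noncomputable def KK (h : Q ∣ M) {n : ℕ} (P : Fin n → ℤ[X]) (G : Fin n → ZMod M → ℂ) (ρ : ZMod Q) (y : ZMod M)
    (u : ℕ) : ℂ :=
  ∏ l, (pf h (G l) y (ρ + pz Q (P l) u) / 2)

lemma KK_eq (h : Q ∣ M) {n : ℕ} (P : Fin n → ℤ[X]) (G : Fin n → ZMod M → ℂ) (ρ : ZMod Q) (y : ZMod M) (u : ℕ) :
    ∏ l, pf h (G l) y (ρ + pz Q (P l) u) = 2 ^ n * KK h P G ρ y u := by
  unfold KK
  rw [Finset.prod_div_distrib, Finset.prod_const, Finset.card_univ, Fintype.card_fin]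
  field_simp

lemma KK_per (h : Q ∣ M) {n : ℕ} (P : Fin n → ℤ[X]) (G : Fin n → ZMod M → ℂ) (ρ : ZMod Q) (y : ZMod M) (m : ℕ) :
    KK h P G ρ y m = KK h P G ρ y ((m : ZMod Q)).val := by
  unfold KK
  refine Finset.prod_congr rfl (fun l _ => ?_)
  rw [ZMod.val_natCast]
  have h1 := pz_periodic (Q := Q) (P l) (m % Q) (m / Q)
  rw [Nat.mod_add_div] at h1
  rw [h1]

lemma norm_half_le {h : Q ∣ M} {G : ZMod M → ℂ} (hG : ∀ x, ‖G x‖ ≤ 2) (y : ZMod M) (r : ZMod Q) :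
    ‖pf h G y r / 2‖ ≤ 1 := by
  rw [norm_div, Complex.norm_ofNat, div_le_one (by norm_num)]
  exact hG _

lemma norm_KK_le (h : Q ∣ M) {n : ℕ} (P : Fin n → ℤ[X]) (G : Fin n → ZMod M → ℂ) (hG : ∀ l x, ‖G l x‖ ≤ 2)
    (ρ : ZMod Q) (y : ZMod M) (u : ℕ) : ‖KK h P G ρ y u‖ ≤ 1 := by
  unfold KK
  rw [norm_prod]
  exact Finset.prod_le_one (fun _ _ => norm_nonneg _) (fun l _ => norm_half_le (hG l) y _)

lemma kappa_nonneg {κ : ℝ} {G : ZMod M → ℂ} (hG : Slow Q κ G) : 0 ≤ κ := (norm_nonneg _).trans (hG 0)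

lemma KK_slow (h : Q ∣ M) {n : ℕ} (P : Fin n → ℤ[X]) (G : Fin n → ZMod M → ℂ) (hG : ∀ l x, ‖G l x‖ ≤ 2)
    (κ : Fin n → ℝ) (hκ : ∀ l, Slow Q (κ l) (G l)) (ρ : ZMod Q) (y : ZMod M) (u v V : ℕ) (hv : v < V) :
    ‖KK h P G ρ (y + (v : ZMod M)) u - KK h P G ρ y u‖ ≤ ∑ l, κ l * ((V : ℝ) / Q + 1) := by
  unfold KK
  refine (prod_diff _ _ _ (fun l => norm_half_le (hG l) _ _) (fun l => norm_half_le (hG l) _ _)).trans ?_
  refine Finset.sum_le_sum (fun l _ => ?_)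
  have h0 := kappa_nonneg (hκ l)
  have h1 := pf_shift h (hκ l) y (ρ + pz Q (P l) u) (v : ℤ)
  rw [← sub_div, norm_div, Complex.norm_ofNat]
  have h2 : ‖pf h (G l) (y + (v : ZMod M)) (ρ + pz Q (P l) u) - pf h (G l) y (ρ + pz Q (P l) u)‖ ≤
      κ l * (|((v : ℤ) : ℝ)| / Q + 1) := by
    have := h1
    push_cast at this ⊢
    exact this
  have h3 : |((v : ℤ) : ℝ)| = (v : ℝ) := by
    push_cast
    exact abs_of_nonneg (Nat.cast_nonneg v)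
  rw [h3] at h2
  have h4 : (v : ℝ) / Q ≤ (V : ℝ) / Q :=
    div_le_div_of_nonneg_right (by exact_mod_cast hv.le) (Nat.cast_nonneg Q)
  have h5 : κ l * ((v : ℝ) / Q + 1) ≤ κ l * ((V : ℝ) / Q + 1) :=
    mul_le_mul_of_nonneg_left (by linarith) h0
  have h6 : 0 ≤ κ l * ((V : ℝ) / Q + 1) := mul_nonneg h0 (by positivity)
  have h7 : ‖pf h (G l) (y + (v : ZMod M)) (ρ + pz Q (P l) u) - pf h (G l) y (ρ + pz Q (P l) u)‖ / 2 ≤
      κ l * ((V : ℝ) / Q + 1) / 2 := by linarith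
  linarith

/-- Fourier coefficients in the residue. -/
noncomputable def FF (h : Q ∣ M) {n : ℕ} (P : Fin n → ℤ[X]) (G : Fin n → ZMod M → ℂ) (ρ : ZMod Q) (ξ : ZMod Q)
    (y : ZMod M) : ℂ :=
  ft (fun r : ZMod Q => KK h P G ρ y r.val) ξ

lemma KK_expand (h : Q ∣ M) {n : ℕ} (P : Fin n → ℤ[X]) (G : Fin n → ZMod M → ℂ) (ρ : ZMod Q) (y : ZMod M) (m : ℕ) :
    KK h P G ρ y m = ∑ ξ : ZMod Q, ex ((ξ.val : ℝ) * (m : ℝ) / (Q : ℝ)) * FF h P G ρ ξ y := by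
  rw [KK_per]
  have h1 := inversion (fun r : ZMod Q => KK h P G ρ y r.val) (m : ZMod Q)
  rw [h1]
  refine Finset.sum_congr rfl (fun ξ _ => ?_)
  have h2 := chi_int ξ (m : ℤ)
  rw [Int.cast_natCast, Int.cast_natCast] at h2
  rw [h2, mul_comm]
  unfold FF
  congr 2
  ring

lemma FF_zero (h : Q ∣ M) {n : ℕ} (P : Fin n → ℤ[X]) (G : Fin n → ZMod M → ℂ) (ρ : ZMod Q) (y : ZMod M) :
    ZZ h P G y ρ = 2 ^ n * FF h P G ρ 0 y := by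
  unfold ZZ FF ft av tv
  simp only [KK_eq, neg_zero, chi_zero_left, mul_one]
  rw [← Finset.mul_sum, sum_val (fun u => KK h P G ρ y u), mul_div_assoc]

lemma FF_bd (h : Q ∣ M) {n : ℕ} (P : Fin n → ℤ[X]) (G : Fin n → ZMod M → ℂ) (hG : ∀ l x, ‖G l x‖ ≤ 2)
    (ρ : ZMod Q) (ξ : ZMod Q) : Bd (FF h P G ρ ξ) := by
  intro y
  exact norm_ft_le_one (fun r => norm_KK_le h P G hG ρ y r.val) ξ

lemma FF_slow (h : Q ∣ M) {n : ℕ} (P : Fin n → ℤ[X]) (G : Fin n → ZMod M → ℂ) (hG : ∀ l x, ‖G l x‖ ≤ 2)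
    (κ : Fin n → ℝ) (hκ : ∀ l, Slow Q (κ l) (G l)) (ρ ξ : ZMod Q) (y : ZMod M) (v V : ℕ) (hv : v < V) :
    ‖FF h P G ρ ξ (y + (v : ZMod M)) - FF h P G ρ ξ y‖ ≤ ∑ l, κ l * ((V : ℝ) / Q + 1) := by
  unfold FF ft
  rw [← av_sub]
  refine (norm_av_le _).trans (avr_le (fun r => ?_))
  rw [← sub_mul, norm_mul, norm_chi, mul_one]
  exact KK_slow h P G hG κ hκ ρ y r.val v V hv

lemma n2_sum_le {ι : Type} (s : Finset ι) (T : ι → ZMod M → ℂ) :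
    n2 (fun x => ∑ i ∈ s, T i x) ≤ (s.card : ℝ) * ∑ i ∈ s, n2 (T i) := by
  unfold n2
  rw [← avr_sum, ← avr_mul_left]
  refine avr_mono (fun x => ?_)
  calc ‖∑ i ∈ s, T i x‖ ^ 2 ≤ (∑ i ∈ s, ‖T i x‖) ^ 2 :=
        pow_le_pow_left₀ (norm_nonneg _) (norm_sum_le _ _) 2
    _ ≤ (s.card : ℝ) * ∑ i ∈ s, ‖T i x‖ ^ 2 := sq_sum_le_card_mul_sum_sq

lemma tv_finsum (H : ℕ) {ι : Type} (s : Finset ι) (F : ι → ℕ → ℂ) :
    tv H (fun t => ∑ i ∈ s, F i t) = ∑ i ∈ s, tv H (fun t => F i t) := by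
  unfold tv
  rw [Finset.sum_comm, Finset.sum_div]

lemma tv_congr {N : ℕ} {F G : ℕ → ℂ} (h : ∀ t, F t = G t) : tv N F = tv N G := by
  have : F = G := funext h
  rw [this]

lemma diff_eq (h : Q ∣ M) {n : ℕ} (N : ℕ) (P : Fin n → ℤ[X]) (i₀ : Fin n) (G : Fin n → ZMod M → ℂ) (ρ : ZMod Q)
    (x : ZMod M) :
    PA h N P i₀ G x ρ - tv N (fun m => ZZ h P G (x + pz M (P i₀) m) ρ) =
      ∑ ξ ∈ (univ : Finset (ZMod Q)).erase 0, 2 ^ n * tv N (fun m => ex ((ξ.val : ℝ) * (m : ℝ) / (Q : ℝ)) *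
        FF h P G ρ ξ (x + pz M (P i₀) m)) := by
  unfold PA
  have h1 : ∀ m : ℕ, ∏ l, pf h (G l) (x + pz M (P i₀) m) (ρ + pz Q (P l) m) =
      ∑ ξ : ZMod Q, 2 ^ n * (ex ((ξ.val : ℝ) * (m : ℝ) / (Q : ℝ)) * FF h P G ρ ξ (x + pz M (P i₀) m)) := by
    intro m
    rw [KK_eq, KK_expand, Finset.mul_sum]
  rw [tv_congr h1, tv_finsum]
  rw [← Finset.add_sum_erase _ _ (Finset.mem_univ (0 : ZMod Q))]
  have h2 : tv N (fun m : ℕ => 2 ^ n * (ex (((0 : ZMod Q).val : ℝ) * (m : ℝ) / (Q : ℝ)) *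
      FF h P G ρ 0 (x + pz M (P i₀) m))) = tv N (fun m => ZZ h P G (x + pz M (P i₀) m) ρ) := by
    refine tv_congr (fun m => ?_)
    rw [FF_zero, ZMod.val_zero]
    have : ex (((0 : ℕ) : ℝ) * (m : ℝ) / (Q : ℝ)) = 1 := by
      unfold ex
      simp
    rw [this, one_mul]
  rw [h2, add_sub_cancel_left]
  refine Finset.sum_congr rfl (fun ξ _ => ?_)
  rw [tv_mul_left]

lemma n2_mul_left (c : ℂ) (f : ZMod M → ℂ) : n2 (fun x => c * f x) = ‖c‖ ^ 2 * n2 f := by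
  unfold n2
  rw [← avr_mul_left]
  refine congrArg avr (funext (fun x => ?_))
  rw [norm_mul, mul_pow]

end group

end EquiAux

open EquiAux

theorem equi {n D : ℕ} {P : Fin n → ℤ[X]} {e : Fin n → ℕ} {i₀ : Fin n} (h : EqDeg D P e i₀) :
    ∃ C : ℕ, ∀ (M Q : ℕ) [NeZero M] [NeZero Q] (hQ : Q ∣ M) (N R V : ℕ) (η : ℝ), 2 ≤ R → R ^ C ≤ N → R ^ C ≤ V →
      Q * R ^ C ≤ N → ∀ (G : Fin n → ZMod M → ℂ), (∀ l x, ‖G l x‖ ≤ 2) → ∀ κ : Fin n → ℝ,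
      (∀ l, Slow Q (κ l) (G l)) → ∑ l, κ l * ((V : ℝ) / Q + 1) ≤ η → ∀ ρ : ZMod Q,
      n2 (fun x : ZMod M => PA hQ N P i₀ G x ρ - tv N (fun m => ZZ hQ P G (x + pz M (P i₀) m) ρ)) ≤
        (Q : ℝ) ^ 2 * 4 ^ n * (2 / (R : ℝ) ^ 2 + 2 * η ^ 2) := by
  obtain ⟨C, hC⟩ := weyl_slow D h.two (P i₀) (h.deg i₀)
  refine ⟨C, ?_⟩
  intro M Q _ _ hQ N R V η hR hN hV hQN G hG κ hκ hη ρ
  have hQ1 : 1 ≤ Q := Nat.one_le_iff_ne_zero.mpr (NeZero.ne Q)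
  have hη0 : 0 ≤ η := by
    refine le_trans (Finset.sum_nonneg (fun l _ => ?_)) hη
    exact mul_nonneg (kappa_nonneg (hκ l)) (by positivity)
  have h1 : (fun x : ZMod M => PA hQ N P i₀ G x ρ - tv N (fun m => ZZ hQ P G (x + pz M (P i₀) m) ρ)) =
      fun x : ZMod M => ∑ ξ ∈ (univ : Finset (ZMod Q)).erase 0, 2 ^ n *
        tv N (fun m => ex ((ξ.val : ℝ) * (m : ℝ) / (Q : ℝ)) * FF hQ P G ρ ξ (x + pz M (P i₀) m)) :=
    funext (fun x => diff_eq hQ N P i₀ G ρ x)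
  rw [h1]
  refine (n2_sum_le _ _).trans ?_
  have hB : (0 : ℝ) ≤ 4 ^ n * (2 / (R : ℝ) ^ 2 + 2 * η ^ 2) := by positivity
  have h2 : ∀ ξ ∈ (univ : Finset (ZMod Q)).erase 0, n2 (fun x : ZMod M => (2 : ℂ) ^ n *
        tv N (fun m => ex ((ξ.val : ℝ) * (m : ℝ) / (Q : ℝ)) * FF hQ P G ρ ξ (x + pz M (P i₀) m))) ≤
        4 ^ n * (2 / (R : ℝ) ^ 2 + 2 * η ^ 2) := by
    intro ξ hξ
    have hξ0 : ξ ≠ 0 := (Finset.mem_erase.mp hξ).1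
    have hnd : ¬ Q ∣ ξ.val := by
      intro hd
      have h3 : ξ.val = 0 := Nat.eq_zero_of_dvd_of_lt hd (ZMod.val_lt ξ)
      exact hξ0 ((ZMod.val_eq_zero ξ).mp h3)
    rw [n2_mul_left]
    have h4 : ‖(2 : ℂ) ^ n‖ ^ 2 = 4 ^ n := by
      rw [norm_pow, Complex.norm_ofNat, ← pow_mul, mul_comm n 2, pow_mul]
      norm_num
    rw [h4]
    refine mul_le_mul_of_nonneg_left ?_ (by positivity)
    exact hC M N R V Q ξ.val η (FF hQ P G ρ ξ) hR hN hV hQ1 hQN hnd hη0 (FF_bd hQ P G hG ρ ξ)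
      (fun y v hv => (FF_slow hQ P G hG κ hκ ρ ξ y v V hv).trans hη)
  have hcard : (((univ : Finset (ZMod Q)).erase 0).card : ℝ) ≤ Q := by
    have : ((univ : Finset (ZMod Q)).erase 0).card ≤ Q := by
      refine (Finset.card_erase_le).trans ?_
      rw [Finset.card_univ, ZMod.card]
    exact_mod_cast this
  have h5 : ∑ ξ ∈ (univ : Finset (ZMod Q)).erase 0, n2 (fun x : ZMod M => (2 : ℂ) ^ n *
        tv N (fun m => ex ((ξ.val : ℝ) * (m : ℝ) / (Q : ℝ)) * FF hQ P G ρ ξ (x + pz M (P i₀) m))) ≤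
        (Q : ℝ) * (4 ^ n * (2 / (R : ℝ) ^ 2 + 2 * η ^ 2)) := by
    refine (Finset.sum_le_card_nsmul _ _ _ h2).trans ?_
    rw [nsmul_eq_mul]
    exact mul_le_mul_of_nonneg_right hcard hB
  have h6 : (0 : ℝ) ≤ ∑ ξ ∈ (univ : Finset (ZMod Q)).erase 0, n2 (fun x : ZMod M => (2 : ℂ) ^ n *
        tv N (fun m => ex ((ξ.val : ℝ) * (m : ℝ) / (Q : ℝ)) * FF hQ P G ρ ξ (x + pz M (P i₀) m))) :=
    Finset.sum_nonneg (fun ξ _ => n2_nonneg _)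
  calc (((univ : Finset (ZMod Q)).erase 0).card : ℝ) * _
      ≤ (Q : ℝ) * ((Q : ℝ) * (4 ^ n * (2 / (R : ℝ) ^ 2 + 2 * η ^ 2))) :=
        mul_le_mul hcard h5 h6 (Nat.cast_nonneg Q)
    _ = (Q : ℝ) ^ 2 * 4 ^ n * (2 / (R : ℝ) ^ 2 + 2 * η ^ 2) := by ring

/-- The same on the diagonal `ρ = red x`. -/
theorem equi_diag {n D : ℕ} {P : Fin n → ℤ[X]} {e : Fin n → ℕ} {i₀ : Fin n} (h : EqDeg D P e i₀) :
    ∃ C : ℕ, ∀ (M Q : ℕ) [NeZero M] [NeZero Q] (hQ : Q ∣ M) (N R V : ℕ) (η : ℝ), 2 ≤ R → R ^ C ≤ N → R ^ C ≤ V →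
      Q * R ^ C ≤ N → ∀ (G : Fin n → ZMod M → ℂ), (∀ l x, ‖G l x‖ ≤ 2) → ∀ κ : Fin n → ℝ,
      (∀ l, Slow Q (κ l) (G l)) → ∑ l, κ l * ((V : ℝ) / Q + 1) ≤ η →
      n2 (fun x : ZMod M => PA hQ N P i₀ G x (red hQ x) -
        tv N (fun m => ZZ hQ P G (x + pz M (P i₀) m) (red hQ x))) ≤
        (Q : ℝ) ^ 3 * 4 ^ n * (2 / (R : ℝ) ^ 2 + 2 * η ^ 2) := by
  obtain ⟨C, hC⟩ := equi h
  refine ⟨C, ?_⟩
  intro M Q _ _ hQ N R V η hR hN hV hQN G hG κ hκ hη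
  have h1 := hC M Q hQ N R V η hR hN hV hQN G hG κ hκ hη
  have h2 : n2 (fun x : ZMod M => PA hQ N P i₀ G x (red hQ x) -
        tv N (fun m => ZZ hQ P G (x + pz M (P i₀) m) (red hQ x))) ≤
      ∑ ρ : ZMod Q, n2 (fun x : ZMod M => PA hQ N P i₀ G x ρ - tv N (fun m => ZZ hQ P G (x + pz M (P i₀) m) ρ)) := by
    unfold n2
    rw [← avr_sum]
    refine avr_mono (fun x => ?_)
    exact Finset.single_le_sum (f := fun ρ : ZMod Q =>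
      ‖PA hQ N P i₀ G x ρ - tv N (fun m => ZZ hQ P G (x + pz M (P i₀) m) ρ)‖ ^ 2)
      (fun ρ _ => by positivity) (Finset.mem_univ (red hQ x))
  refine h2.trans ((Finset.sum_le_card_nsmul _ _ _ (fun ρ _ => h1 ρ)).trans ?_)
  rw [nsmul_eq_mul, Finset.card_univ, ZMod.card]
  exact le_of_eq (by ring)

end Pool.Agent.EQD.Lo
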