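import Pool.Agent.Lib.EQD.L2loc

/-!
# Module FGn: gain on the fibre for functions with bounded moments

PROOF. Let `C_f` be the constant of `l2fib`. Fix `l`. Truncate all functions except `v l` at the level `lam`: `v l' = u l' + τ l'`, `‖u l'‖ ≤ lam`, `τ l' = v l' 1[‖v l'‖ > lam]`,
`nq (2 n) (τ l') ≤ lam ^ (- (2 r - 2 n)) K`, `nq (2 n) (u l' or v l') ≤ 1 + K`. If `l ≠ i` write `v i = v i - Eb Q M (v i) = (u i - Eb Q M (u i)) + (τ i - Eb Q M (τ i))` (`nq (2 n)` of the second part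
`≤ 4 ^ n nq (2 n) (τ i)`, Jensen); if `l = i`: `v i = v i - Eb Q M (v i)` is kept. Main term: all slots `≠ l` divided by `lam`: `l2fib` (first form with `F = v i` if `l = i`, second form with `g i = u i / lam`,
`F = v l` otherwise): `n2 ≤ lam ^ (2 (n - 1)) C_f n2 (v l) / R`. The at most `n` remaining terms (telescoping, `AA_telescope`) have one factor `τ`: `AA_young2` with
`δ = lam ^ (- W - 2)`: `≤ lam ^ (n (W + 2)) 4 ^ n lam ^ (- (2 r - 2 n)) K + n lam ^ (- W - 2) 4 ^ n (1 + K) ≤ C lam ^ (- W)` for `r ≥ r₀ (n, W)` (`K ≤ lam`).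
-/

set_option autoImplicit false

open Finset Polynomial

namespace Pool.Agent.EQD

open Pool.Agent.HLT Pool.Agent.NLT Pool.Agent.NLG

namespace FGnAux

variable {M : ℕ} [NeZero M]

/-- The part of size at most `lam`. -/
noncomputable def lo (lam : ℝ) (f : ZMod M → ℂ) (x : ZMod M) : ℂ := if ‖f x‖ ≤ lam then f x else 0

/-- The part of size larger than `lam`. -/
noncomputable def hi (lam : ℝ) (f : ZMod M → ℂ) (x : ZMod M) : ℂ := if ‖f x‖ ≤ lam then 0 else f x

lemma sub_lo (lam : ℝ) (f : ZMod M → ℂ) (x : ZMod M) : f x - lo lam f x = hi lam f x := by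
  unfold lo hi
  split_ifs <;> ring

lemma norm_lo_le {lam : ℝ} (h0 : 0 ≤ lam) (f : ZMod M → ℂ) (x : ZMod M) : ‖lo lam f x‖ ≤ lam := by
  unfold lo
  split_ifs with h
  · exact h
  · rw [norm_zero]; exact h0

lemma norm_lo_le' (lam : ℝ) (f : ZMod M → ℂ) (x : ZMod M) : ‖lo lam f x‖ ≤ ‖f x‖ := by
  unfold lo
  split_ifs with h
  · exact le_rfl
  · rw [norm_zero]; exact norm_nonneg _

lemma nq_nonneg (s : ℕ) (f : ZMod M → ℂ) : 0 ≤ nq s f := avr_nonneg (fun x => by positivity)

lemma nq_lo_le (s : ℕ) (lam : ℝ) (f : ZMod M → ℂ) : nq s (lo lam f) ≤ nq s f :=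
  avr_mono (fun x => pow_le_pow_left₀ (norm_nonneg _) (norm_lo_le' lam f x) s)

lemma nq_hi_le {n r : ℕ} (hn : 1 ≤ n) (hnr : n ≤ r) {lam : ℝ} (hl : 1 ≤ lam) (f : ZMod M → ℂ) :
    nq (2 * n) (hi lam f) ≤ nq (2 * r) f / lam ^ (2 * r - 2 * n) := by
  have hl0 : 0 < lam ^ (2 * r - 2 * n) := by positivity
  rw [le_div_iff₀ hl0, mul_comm]
  unfold nq
  rw [← avr_mul_left]
  refine avr_mono (fun x => ?_)
  unfold hi
  split_ifs with h
  · rw [norm_zero, zero_pow (by omega), mul_zero]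
    positivity
  · have h1 : lam ≤ ‖f x‖ := (not_le.mp h).le
    calc lam ^ (2 * r - 2 * n) * ‖f x‖ ^ (2 * n)
        ≤ ‖f x‖ ^ (2 * r - 2 * n) * ‖f x‖ ^ (2 * n) :=
          mul_le_mul_of_nonneg_right (pow_le_pow_left₀ (by linarith) h1 _) (by positivity)
      _ = ‖f x‖ ^ (2 * r) := by
          rw [← pow_add]
          congr 1
          omega

lemma nq_le_one_add {n r : ℕ} (hnr : n ≤ r) (f : ZMod M → ℂ) : nq (2 * n) f ≤ 1 + nq (2 * r) f := by
  have h1 : (1 : ℝ) + nq (2 * r) f = avr (fun x => 1 + ‖f x‖ ^ (2 * r)) := by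
    rw [avr_add (fun _ => (1 : ℝ)), avr_const]
    rfl
  rw [h1]
  refine avr_mono (fun x => ?_)
  rcases le_total ‖f x‖ 1 with h | h
  · have h2 : ‖f x‖ ^ (2 * n) ≤ 1 := pow_le_one₀ (norm_nonneg _) h
    have h3 : 0 ≤ ‖f x‖ ^ (2 * r) := by positivity
    linarith
  · have h2 : ‖f x‖ ^ (2 * n) ≤ ‖f x‖ ^ (2 * r) := pow_le_pow_right₀ h (by omega)
    linarith

lemma tvr_pow_le (H s : ℕ) (hs : 1 ≤ s) (F : ℕ → ℝ) (hF : ∀ t, 0 ≤ F t) :
    tvr H F ^ s ≤ tvr H (fun t => F t ^ s) := by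
  obtain ⟨m, rfl⟩ : ∃ m, s = m + 1 := ⟨s - 1, by omega⟩
  unfold tvr
  rcases Nat.eq_zero_or_pos H with h0 | h0
  · subst h0
    simp
  · have hH : (0 : ℝ) < H := by exact_mod_cast h0
    have h := pow_sum_div_card_le_sum_pow (s := range H) (f := F) (fun t _ => hF t) m
    rw [card_range] at h
    rw [div_pow, pow_succ (H : ℝ) m, ← div_div]
    exact div_le_div_of_nonneg_right h hH.le

lemma nq_Eb_le (s : ℕ) (hs : 1 ≤ s) (Q K : ℕ) (f : ZMod M → ℂ) : nq s (Eb Q K f) ≤ nq s f := by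
  rcases Nat.eq_zero_or_pos K with hK | hK
  · subst hK
    have h1 : nq s (Eb Q 0 f) = 0 := by
      unfold nq Eb tv
      simp only [range_zero, sum_empty, Nat.cast_zero, div_zero, norm_zero]
      rw [zero_pow (by omega), avr_const]
    rw [h1]
    exact nq_nonneg s f
  · have h1 : nq s (Eb Q K f) ≤ avr (fun x => tvr K (fun i => ‖f (x + ((Q * i : ℕ) : ZMod M))‖ ^ s)) := by
      refine avr_mono (fun x => ?_)
      unfold Eb
      calc ‖tv K (fun i => f (x + ((Q * i : ℕ) : ZMod M)))‖ ^ s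
          ≤ tvr K (fun i => ‖f (x + ((Q * i : ℕ) : ZMod M))‖) ^ s :=
            pow_le_pow_left₀ (norm_nonneg _) (norm_tv_le _ _) s
        _ ≤ _ := tvr_pow_le K s hs _ (fun t => norm_nonneg _)
    refine h1.trans (le_of_eq ?_)
    rw [← tvr_avr_comm K (fun i x => ‖f (x + ((Q * i : ℕ) : ZMod M))‖ ^ s)]
    have h2 : ∀ i : ℕ, avr (fun x : ZMod M => ‖f (x + ((Q * i : ℕ) : ZMod M))‖ ^ s) = nq s f :=
      fun i => avr_shift (fun x => ‖f x‖ ^ s) _
    simp only [h2]
    exact tvr_const K hK _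

lemma nq_sub_le (n : ℕ) (hn : 1 ≤ n) (f g : ZMod M → ℂ) :
    nq (2 * n) (fun y => f y - g y) ≤ 2 ^ (2 * n - 1) * (nq (2 * n) f + nq (2 * n) g) := by
  unfold nq
  rw [← avr_add, ← avr_mul_left]
  refine avr_mono (fun x => ?_)
  calc ‖f x - g x‖ ^ (2 * n) ≤ (‖f x‖ + ‖g x‖) ^ (2 * n) :=
        pow_le_pow_left₀ (norm_nonneg _) (norm_sub_le _ _) _
    _ ≤ _ := add_pow_le (norm_nonneg _) (norm_nonneg _) _

lemma nq_fib_le (n : ℕ) (hn : 1 ≤ n) (Q K : ℕ) (f : ZMod M → ℂ) :
    nq (2 * n) (fun y => f y - Eb Q K f y) ≤ 4 ^ n * nq (2 * n) f := by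
  refine (nq_sub_le n hn f (Eb Q K f)).trans ?_
  have h1 := nq_Eb_le (2 * n) (by omega) Q K f
  have h2 : (2 : ℝ) ^ (2 * n - 1) * 2 = 4 ^ n := by
    rw [← pow_succ, show 2 * n - 1 + 1 = 2 * n by omega, pow_mul]
    norm_num
  rw [← h2]
  have h3 : (0 : ℝ) ≤ 2 ^ (2 * n - 1) := by positivity
  nlinarith

lemma AA_scale {n : ℕ} (N : ℕ) (P : Fin n → ℤ[X]) (c : Fin n → ℂ) (g : Fin n → ZMod M → ℂ) (x : ZMod M) :
    AA N P (fun k y => c k * g k y) x = (∏ k, c k) * AA N P g x := by
  unfold AA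
  rw [← tv_mul_left]
  congr 1
  funext t
  rw [prod_mul_distrib]

lemma n2_mul (c : ℂ) (f : ZMod M → ℂ) : n2 (fun x => c * f x) = ‖c‖ ^ 2 * n2 f := by
  unfold n2
  rw [← avr_mul_left]
  congr 1
  funext x
  rw [norm_mul, mul_pow]

lemma n2_sum_le {n : ℕ} (G : Fin n → ZMod M → ℂ) :
    n2 (fun x => ∑ j, G j x) ≤ n * ∑ j, n2 (G j) := by
  unfold n2
  rw [← avr_sum, ← avr_mul_left]
  refine avr_mono (fun x => ?_)
  calc ‖∑ j, G j x‖ ^ 2 ≤ (∑ j, ‖G j x‖) ^ 2 := pow_le_pow_left₀ (norm_nonneg _) (norm_sum_le _ _) 2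
    _ ≤ n * ∑ j, ‖G j x‖ ^ 2 := by
        have h := sq_sum_le_card_mul_sum_sq (s := (univ : Finset (Fin n))) (f := fun j => ‖G j x‖)
        rwa [card_univ, Fintype.card_fin] at h

lemma Eb_smul (Q K : ℕ) (c : ℂ) (f : ZMod M → ℂ) (y : ZMod M) :
    Eb Q K (fun z => c * f z) y = c * Eb Q K f y := by
  unfold Eb
  rw [tv_mul_left]

lemma Eb_lo (Q K : ℕ) (lam : ℝ) (f : ZMod M → ℂ) (y : ZMod M) (h : Eb Q K f y = 0) :
    Eb Q K (hi lam f) y = - Eb Q K (lo lam f) y := by
  have h1 : Eb Q K (hi lam f) y = Eb Q K f y - Eb Q K (lo lam f) y := by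
    unfold Eb
    rw [← tv_sub]
    congr 1
    funext i
    rw [sub_lo]
  rw [h1, h, zero_sub]

end FGnAux

open FGnAux in
theorem fibre_gain {n D : ℕ} {P : Fin n → ℤ[X]} {e : Fin n → ℕ} {i₀ : Fin n} (h : EqDeg D P e i₀) : ∃ C : ℕ, 1 ≤ C ∧ ∀ W : ℕ,
    ∃ r₀ C' : ℕ, 1 ≤ r₀ ∧ ∀ r, r₀ ≤ r → ∀ (M : ℕ) [NeZero M] (R Q lam : ℕ) (K : ℝ), 2 ≤ R → Q ∣ M →
      (∀ q, 1 ≤ q → q ≤ R ^ C → q ∣ Q) → 2 ≤ lam → 1 ≤ K → K ≤ lam → ∀ (i : Fin n) (v : Fin n → ZMod M → ℂ),
      (∀ l, nq (2 * r) (v l) ≤ K) → (∀ y, Eb Q M (v i) y = 0) → ∀ l,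
      n2 (AA M P v) ≤ C * (lam : ℝ) ^ (2 * n) / R * n2 (v l) + C' / (lam : ℝ) ^ W := by
  classical
  obtain ⟨Cf, hCf1, hCf⟩ := l2fib h
  refine ⟨2 * Cf, by omega, ?_⟩
  intro W
  refine ⟨(W + 1) * n + W + 1 + 2 * n + n, 2 * n ^ 2 * 4 ^ n * (1 + 2 * n), by omega, ?_⟩
  intro r hr M _ R Q lam K hR hQ hq hlam hK1 hKlam i v hv hEb l
  have hn : 1 ≤ n := i.pos
  have hnr : n ≤ r := by omega
  have hlamr : (2 : ℝ) ≤ lam := by exact_mod_cast hlam
  have hlam0 : (0 : ℝ) < lam := by linarith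
  have hlam1 : (1 : ℝ) ≤ lam := by linarith
  have hR0 : (0 : ℝ) < R := by exact_mod_cast (by omega : 0 < R)
  have hqf : ∀ q, 1 ≤ q → q ≤ R ^ Cf → q ∣ Q := fun q h1 h2 =>
    hq q h1 (h2.trans (Nat.pow_le_pow_right (by omega) (by omega)))
  -- the truncated functions
  set u : Fin n → ZMod M → ℂ := fun k => lo (lam : ℝ) (v k) with hu
  set w : Fin n → ZMod M → ℂ := fun k => if k = l then v l else
    if k = i then (fun y => u i y - Eb Q M (u i) y) else u k with hw
  set g : Fin n → ZMod M → ℂ := fun k y => (1 / (lam : ℂ)) * u k y with hg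
  have hlamc : (lam : ℂ) ≠ 0 := by exact_mod_cast (by omega : lam ≠ 0)
  have hgBd : ∀ k, Bd (g k) := by
    intro k x
    rw [hg]
    simp only
    rw [norm_mul, norm_div, norm_one, Complex.norm_natCast, one_div, inv_mul_le_iff₀ hlam0, mul_one]
    exact norm_lo_le hlam0.le (v k) x
  -- the main term
  have hmain : n2 (AA M P w) ≤ (lam : ℝ) ^ (2 * n) * (Cf * n2 (v l) / R) := by
    set c : Fin n → ℂ := fun k => if k = l then 1 else (lam : ℂ) with hc
    have hcn : ‖∏ k, c k‖ ≤ (lam : ℝ) ^ n := by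
      rw [norm_prod]
      calc ∏ k, ‖c k‖ ≤ ∏ _k : Fin n, (lam : ℝ) := by
            refine prod_le_prod (fun k _ => norm_nonneg _) (fun k _ => ?_)
            rw [hc]
            simp only
            split_ifs
            · rw [norm_one]; exact hlam1
            · rw [Complex.norm_natCast]
        _ = (lam : ℝ) ^ n := by rw [prod_const, card_univ, Fintype.card_fin]
    have hc2 : ‖∏ k, c k‖ ^ 2 ≤ (lam : ℝ) ^ (2 * n) := by
      calc ‖∏ k, c k‖ ^ 2 ≤ ((lam : ℝ) ^ n) ^ 2 := pow_le_pow_left₀ (norm_nonneg _) hcn 2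
        _ = (lam : ℝ) ^ (2 * n) := by rw [← pow_mul, mul_comm]
    have hlu : ∀ k y, (lam : ℂ) * g k y = u k y := by
      intro k y
      rw [hg]
      simp only
      field_simp
    by_cases hli : l = i
    · subst hli
      have hwg : w = fun k y => c k *
          (Function.update g l (fun y => v l y - Eb Q M (v l) y)) k y := by
        funext k y
        rw [hw, hc]
        simp only
        by_cases hk : k = l
        · subst hk
          rw [if_pos rfl, if_pos rfl, Function.update_self, hEb y, sub_zero, one_mul]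
        · rw [if_neg hk, if_neg hk, if_neg hk, Function.update_of_ne hk, hlu]
      have h1 : AA M P w = fun x => (∏ k, c k) *
          AA M P (Function.update g l (fun y => v l y - Eb Q M (v l) y)) x := by
        funext x
        rw [hwg]
        exact AA_scale M P c _ x
      rw [h1, n2_mul]
      exact mul_le_mul hc2 (hCf M R Q hR hQ hqf l g hgBd (v l)).1 (n2_nonneg _) (by positivity)
    · have hwg : w = fun k y => c k *
          (Function.update (Function.update g i (fun y => g i y - Eb Q M (g i) y)) l (v l)) k y := by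
        funext k y
        rw [hw, hc]
        simp only
        by_cases hk : k = l
        · subst hk
          rw [if_pos rfl, if_pos rfl, Function.update_self, one_mul]
        · rw [if_neg hk, if_neg hk, Function.update_of_ne hk]
          by_cases hki : k = i
          · subst hki
            rw [if_pos rfl, Function.update_self]
            have h2 : Eb Q M (u k) y = (lam : ℂ) * Eb Q M (g k) y := by
              rw [← Eb_smul]
              congr 1
              funext z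
              exact (hlu k z).symm
            rw [h2, ← hlu k y]
            ring
          · rw [if_neg hki, Function.update_of_ne hki, hlu]
      have h1 : AA M P w = fun x => (∏ k, c k) *
          AA M P (Function.update (Function.update g i (fun y => g i y - Eb Q M (g i) y)) l (v l)) x := by
        funext x
        rw [hwg]
        exact AA_scale M P c _ x
      rw [h1, n2_mul]
      exact mul_le_mul hc2 ((hCf M R Q hR hQ hqf i g hgBd (v l)).2 l hli) (n2_nonneg _) (by positivity)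
  -- moments
  have hv2 : ∀ k, nq (2 * n) (v k) ≤ 1 + K := fun k =>
    (nq_le_one_add hnr (v k)).trans (by linarith [hv k])
  have h4n : (1 : ℝ) ≤ 4 ^ n := one_le_pow₀ (by norm_num)
  have hB0 : (0 : ℝ) ≤ 1 + K := by linarith
  have hv4 : ∀ k, nq (2 * n) (v k) ≤ 4 ^ n * (1 + K) := fun k =>
    (hv2 k).trans (le_mul_of_one_le_left hB0 h4n)
  have hu2 : ∀ k, nq (2 * n) (u k) ≤ 1 + K := fun k => (nq_lo_le _ _ _).trans (hv2 k)
  have hw4 : ∀ k, nq (2 * n) (w k) ≤ 4 ^ n * (1 + K) := by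
    intro k
    rw [hw]
    simp only
    split_ifs with h1 h2
    · exact hv4 l
    · exact (nq_fib_le n hn Q M (u i)).trans (mul_le_mul_of_nonneg_left (hu2 i) (by positivity))
    · exact (hu2 k).trans (le_mul_of_one_le_left hB0 h4n)
  have hden : (0 : ℝ) < (lam : ℝ) ^ (2 * r - 2 * n) := by positivity
  have hhi : ∀ k, nq (2 * n) (hi (lam : ℝ) (v k)) ≤ K / (lam : ℝ) ^ (2 * r - 2 * n) := fun k =>
    (nq_hi_le hn hnr hlam1 (v k)).trans (div_le_div_of_nonneg_right (hv k) hden.le)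
  have hKd : 0 ≤ K / (lam : ℝ) ^ (2 * r - 2 * n) := by positivity
  have hd4 : ∀ k, nq (2 * n) (fun y => v k y - w k y) ≤ 4 ^ n * (K / (lam : ℝ) ^ (2 * r - 2 * n)) := by
    intro k
    rw [hw]
    simp only
    by_cases hk : k = l
    · subst hk
      have h1 : (fun y => v k y - (if k = k then v k else
          if k = i then (fun y => u i y - Eb Q M (u i) y) else u k) y) = fun _ => (0 : ℂ) := by
        funext y
        rw [if_pos rfl, sub_self]
      rw [h1]
      have h2 : nq (2 * n) (fun _ : ZMod M => (0 : ℂ)) = 0 := by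
        unfold nq
        simp only [norm_zero]
        rw [zero_pow (by omega), avr_const]
      rw [h2]
      positivity
    · by_cases hki : k = i
      · subst hki
        have h1 : (fun y => v k y - (if k = l then v l else
            if k = k then (fun y => u k y - Eb Q M (u k) y) else u k) y) =
            fun y => hi (lam : ℝ) (v k) y - Eb Q M (hi (lam : ℝ) (v k)) y := by
          funext y
          rw [if_neg hk, if_pos rfl, Eb_lo Q M (lam : ℝ) (v k) y (hEb y), ← sub_lo]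
          rw [hu]
          ring
        rw [h1]
        exact (nq_fib_le n hn Q M _).trans (mul_le_mul_of_nonneg_left (hhi k) (by positivity))
      · have h1 : (fun y => v k y - (if k = l then v l else
            if k = i then (fun y => u i y - Eb Q M (u i) y) else u k) y) =
            hi (lam : ℝ) (v k) := by
          funext y
          rw [if_neg hk, if_neg hki, ← sub_lo]
        rw [h1]
        exact (hhi k).trans (le_mul_of_one_le_left hKd h4n)
  -- the telescoping terms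
  set G : Fin n → ZMod M → ℂ := fun j => AA M P
    (Function.update (fun l' => if l' < j then w l' else v l') j (fun y => v j y - w j y)) with hG
  have hGj : ∀ j, n2 (G j) ≤ (4 ^ n * (1 + 2 * n) : ℝ) / (lam : ℝ) ^ W := by
    intro j
    have hδ0 : (0 : ℝ) < 1 / (lam : ℝ) ^ (W + 1) := by positivity
    have hδ1 : (1 : ℝ) / (lam : ℝ) ^ (W + 1) ≤ 1 := by
      rw [div_le_one (by positivity)]
      exact one_le_pow₀ hlam1
    have h1 := AA_young2 M P
      (Function.update (fun l' => if l' < j then w l' else v l') j (fun y => v j y - w j y)) j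
      (1 / (lam : ℝ) ^ (W + 1)) hδ0 hδ1
    rw [Function.update_self] at h1
    refine h1.trans ?_
    have h2 : ∑ k ∈ univ.erase j, nq (2 * n) (Function.update (fun l' => if l' < j then w l' else v l') j
        (fun y => v j y - w j y) k) ≤ n * (4 ^ n * (1 + K)) := by
      calc ∑ k ∈ univ.erase j, nq (2 * n) (Function.update (fun l' => if l' < j then w l' else v l') j
            (fun y => v j y - w j y) k) ≤ ∑ _k ∈ univ.erase j, (4 ^ n * (1 + K) : ℝ) := by
            refine sum_le_sum (fun k hk => ?_)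
            rw [Function.update_of_ne (ne_of_mem_erase hk)]
            split_ifs
            · exact hw4 k
            · exact hv4 k
        _ = ((univ.erase j).card : ℝ) * (4 ^ n * (1 + K)) := by rw [sum_const, nsmul_eq_mul]
        _ ≤ n * (4 ^ n * (1 + K)) := by
            refine mul_le_mul_of_nonneg_right ?_ (by positivity)
            have h3 := card_le_card (erase_subset j (univ : Finset (Fin n)))
            rw [card_univ, Fintype.card_fin] at h3
            exact_mod_cast h3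
    have h3 : (1 / (1 / (lam : ℝ) ^ (W + 1))) ^ n * nq (2 * n) (fun y => v j y - w j y) ≤
        4 ^ n / (lam : ℝ) ^ W := by
      rw [one_div_one_div, ← pow_mul]
      calc (lam : ℝ) ^ ((W + 1) * n) * nq (2 * n) (fun y => v j y - w j y)
          ≤ (lam : ℝ) ^ ((W + 1) * n) * (4 ^ n * (K / (lam : ℝ) ^ (2 * r - 2 * n))) :=
            mul_le_mul_of_nonneg_left (hd4 j) (by positivity)
        _ = 4 ^ n * ((lam : ℝ) ^ ((W + 1) * n) * K) / (lam : ℝ) ^ (2 * r - 2 * n) := by ring
        _ ≤ 4 ^ n * ((lam : ℝ) ^ ((W + 1) * n) * lam) / (lam : ℝ) ^ (2 * r - 2 * n) := by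
            refine div_le_div_of_nonneg_right ?_ hden.le
            refine mul_le_mul_of_nonneg_left ?_ (by positivity)
            exact mul_le_mul_of_nonneg_left hKlam (by positivity)
        _ ≤ 4 ^ n / (lam : ℝ) ^ W := by
            rw [div_le_div_iff₀ hden (by positivity), mul_assoc]
            refine mul_le_mul_of_nonneg_left ?_ (by positivity)
            rw [← pow_succ, ← pow_add]
            exact pow_le_pow_right₀ hlam1 (by omega)
    have h4 : (1 / (lam : ℝ) ^ (W + 1)) * (n * (4 ^ n * (1 + K))) ≤ 2 * n * 4 ^ n / (lam : ℝ) ^ W := by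
      have h5 : 1 + K ≤ 2 * lam := by linarith
      calc (1 / (lam : ℝ) ^ (W + 1)) * (n * (4 ^ n * (1 + K)))
          ≤ (1 / (lam : ℝ) ^ (W + 1)) * (n * (4 ^ n * (2 * lam))) := by
            refine mul_le_mul_of_nonneg_left ?_ hδ0.le
            refine mul_le_mul_of_nonneg_left ?_ (Nat.cast_nonneg _)
            exact mul_le_mul_of_nonneg_left h5 (by positivity)
        _ = 2 * n * 4 ^ n / (lam : ℝ) ^ W := by
            rw [pow_succ]
            field_simp
    have h5 := mul_le_mul_of_nonneg_left h2 hδ0.le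
    have h6 : (4 ^ n * (1 + 2 * n) : ℝ) / (lam : ℝ) ^ W =
        4 ^ n / (lam : ℝ) ^ W + 2 * n * 4 ^ n / (lam : ℝ) ^ W := by ring
    rw [h6]
    linarith
  have hdiff : n2 (fun x => AA M P v x - AA M P w x) ≤
      n * (n * ((4 ^ n * (1 + 2 * n) : ℝ) / (lam : ℝ) ^ W)) := by
    have h1 : (fun x => AA M P v x - AA M P w x) = fun x => ∑ j, G j x := by
      funext x
      rw [AA_telescope]
    rw [h1]
    refine (n2_sum_le G).trans (mul_le_mul_of_nonneg_left ?_ (Nat.cast_nonneg _))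
    calc ∑ j, n2 (G j) ≤ ∑ _j : Fin n, (4 ^ n * (1 + 2 * n) : ℝ) / (lam : ℝ) ^ W :=
          sum_le_sum (fun j _ => hGj j)
      _ = n * ((4 ^ n * (1 + 2 * n) : ℝ) / (lam : ℝ) ^ W) := by
          rw [sum_const, card_univ, Fintype.card_fin, nsmul_eq_mul]
  have hfin : n2 (AA M P v) ≤ 2 * n2 (AA M P w) + 2 * n2 (fun x => AA M P v x - AA M P w x) := by
    have h1 := n2_add_le (AA M P w) (fun x => AA M P v x - AA M P w x)
    have h2 : (fun x => AA M P w x + (AA M P v x - AA M P w x)) = AA M P v := by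
      funext x
      ring
    rwa [h2] at h1
  refine hfin.trans ?_
  have e1 : ((2 * Cf : ℕ) : ℝ) * (lam : ℝ) ^ (2 * n) / R * n2 (v l) =
      2 * ((lam : ℝ) ^ (2 * n) * (Cf * n2 (v l) / R)) := by
    push_cast
    ring
  have e2 : ((2 * n ^ 2 * 4 ^ n * (1 + 2 * n) : ℕ) : ℝ) / (lam : ℝ) ^ W =
      2 * (n * (n * ((4 ^ n * (1 + 2 * n) : ℝ) / (lam : ℝ) ^ W))) := by
    push_cast
    ring
  rw [e1, e2]
  linarith

end Pool.Agent.EQD
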