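import Pool.Agent.Lib.EQD.Kern

/-!
# EQD.Hyb: hybrid families

`hyb f f' i`: hybrid family (slots `l < i`: `f l`, slot `i`: `f i - f' i`, slots `l > i`: `f' l`).

PROOFS.
* `AA_sub_hyb`: telescoping `∏ a_l - ∏ b_l = ∑_i (∏_{l<i} a_l) (a_i - b_i) (∏_{l>i} b_l)` (Mathlib: `Finset.prod_sub_ordered` or induction on `n`),
  and linearity of `tv`.
* `AA_pow`: on `ZMod Q` the summand `t ↦ ∏ g_i (x + pz Q (P i) t)` is `Q`-periodic in `t`, so the average over `t < Q ^ k` (`k ≥ 1`) equals the average over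
  `t < Q`.
* `norm_AA_le`: product of `n` numbers of norm `≤ B`, average. (For `N = 0` the value is `0 ≤ B ^ n`.) `Bd_AA`: `B = 1`.
-/

set_option autoImplicit false

open Finset Polynomial

namespace Pool.Agent.EQD.Lo

open Pool.Agent.HLT Pool.Agent.NLT Pool.Agent.NLG

/-- Hybrid family. -/
def hyb {α : Type} {n : ℕ} (f f' : Fin n → α → ℂ) (i : Fin n) : Fin n → α → ℂ :=
  fun l x => if l < i then f l x else if l = i then f l x - f' l x else f' l x

namespace HybAux

theorem prod_hyb {n : ℕ} (a b : Fin n → ℂ) (i : Fin n) :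
    ∏ l, (if l < i then a l else if l = i then a l - b l else b l) =
      (a i - b i) * (∏ l ∈ univ.filter (fun l => l < i), a l) *
        ∏ l ∈ univ.filter (fun l => i < l), b l := by
  rw [Finset.prod_ite]
  have h1 : univ.filter (fun l : Fin n => ¬ l < i) = insert i (univ.filter (fun l => i < l)) := by
    ext l
    simp only [mem_filter, mem_univ, true_and, mem_insert, not_lt]
    constructor
    · intro h
      rcases eq_or_lt_of_le h with h | h
      · exact Or.inl h.symm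
      · exact Or.inr h
    · rintro (h | h)
      · exact h ▸ le_refl _
      · exact h.le
  have h2 : i ∉ univ.filter (fun l : Fin n => i < l) := by
    simp
  rw [h1, Finset.prod_insert h2, if_pos rfl]
  have h3 : ∏ l ∈ univ.filter (fun l : Fin n => i < l), (if l = i then a l - b l else b l) =
      ∏ l ∈ univ.filter (fun l : Fin n => i < l), b l := by
    refine Finset.prod_congr rfl fun l hl => ?_
    rw [if_neg (ne_of_gt (mem_filter.mp hl).2)]
  rw [h3]
  ring

theorem prod_sub {n : ℕ} (a b : Fin n → ℂ) :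
    ∏ l, a l - ∏ l, b l =
      ∑ i, ∏ l, (if l < i then a l else if l = i then a l - b l else b l) := by
  have h := Finset.prod_sub_ordered (univ : Finset (Fin n)) b (fun l => b l - a l)
  simp only [sub_sub_cancel] at h
  rw [h, sub_right_comm, sub_self, zero_sub, ← Finset.sum_neg_distrib]
  refine Finset.sum_congr rfl fun i _ => ?_
  rw [prod_hyb]
  ring

theorem norm_tv_le (N : ℕ) (F : ℕ → ℂ) (c : ℝ) (hc : 0 ≤ c) (h : ∀ t, ‖F t‖ ≤ c) :
    ‖tv N F‖ ≤ c := by
  unfold tv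
  rw [norm_div, Complex.norm_natCast]
  have h1 : ‖∑ t ∈ range N, F t‖ ≤ N * c := by
    refine (norm_sum_le _ _).trans ?_
    refine (Finset.sum_le_card_nsmul _ _ c fun t _ => h t).trans (le_of_eq ?_)
    rw [card_range, nsmul_eq_mul]
  rcases Nat.eq_zero_or_pos N with hN | hN
  · rw [hN, Nat.cast_zero, div_zero]
    exact hc
  · have hN' : (0 : ℝ) < N := Nat.cast_pos.mpr hN
    rw [div_le_iff₀ hN']
    linarith

theorem sum_periodic (Q m : ℕ) (F : ℕ → ℂ) (hF : ∀ r t, F (Q * r + t) = F t) :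
    ∑ t ∈ range (Q * m), F t = m * ∑ t ∈ range Q, F t := by
  induction m with
  | zero => simp
  | succ m ih =>
    rw [Nat.mul_succ, Finset.sum_range_add, ih]
    have h1 : ∑ x ∈ range Q, F (Q * m + x) = ∑ x ∈ range Q, F x :=
      Finset.sum_congr rfl fun x _ => hF m x
    rw [h1]
    push_cast
    ring

theorem pz_periodic {Q : ℕ} (P : ℤ[X]) (r t : ℕ) : pz Q P (Q * r + t) = pz Q P t := by
  unfold pz
  have h1 : ∀ k : ℤ, ((P.eval k : ℤ) : ZMod Q) = (P.map (Int.castRingHom (ZMod Q))).eval (k : ZMod Q) := by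
    intro k
    rw [Polynomial.eval_intCast_map]
    simp
  rw [h1, h1]
  congr 1
  push_cast
  rw [ZMod.natCast_self, zero_mul, zero_add]

end HybAux

open HybAux

section group

variable {M : ℕ} [NeZero M]

theorem AA_sub_hyb {n : ℕ} (N : ℕ) (P : Fin n → ℤ[X]) (f f' : Fin n → ZMod M → ℂ) (x : ZMod M) :
    AA N P f x - AA N P f' x = ∑ i, AA N P (hyb f f' i) x := by
  unfold AA tv
  rw [← sub_div, ← Finset.sum_sub_distrib, ← Finset.sum_div, Finset.sum_comm]
  congr 1
  refine Finset.sum_congr rfl fun t _ => ?_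
  rw [prod_sub]
  rfl

lemma norm_AA_le {n : ℕ} (N : ℕ) (P : Fin n → ℤ[X]) (g : Fin n → ZMod M → ℂ) (B : ℝ) (hB : 0 ≤ B)
    (hg : ∀ l x, ‖g l x‖ ≤ B) (x : ZMod M) : ‖AA N P g x‖ ≤ B ^ n := by
  refine norm_tv_le N _ (B ^ n) (pow_nonneg hB n) fun t => ?_
  rw [norm_prod]
  refine (Finset.prod_le_prod (fun i _ => norm_nonneg _) fun i _ => hg i _).trans (le_of_eq ?_)
  rw [Finset.prod_const, card_univ, Fintype.card_fin]

lemma Bd_AA {n : ℕ} (N : ℕ) (P : Fin n → ℤ[X]) (g : Fin n → ZMod M → ℂ) (hg : ∀ l, Bd (g l)) : Bd (AA N P g) := by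
  intro x
  have h := norm_AA_le N P g 1 zero_le_one (fun l y => hg l y) x
  rwa [one_pow] at h

end group

lemma AA_pow {Q : ℕ} [NeZero Q] {n : ℕ} (P : Fin n → ℤ[X]) (g : Fin n → ZMod Q → ℂ) (k : ℕ) (hk : 1 ≤ k) (x : ZMod Q) :
    AA (Q ^ k) P g x = AA Q P g x := by
  obtain ⟨m, rfl⟩ : ∃ m, k = m + 1 := ⟨k - 1, by omega⟩
  have hQ : (Q : ℂ) ≠ 0 := Nat.cast_ne_zero.mpr (NeZero.ne Q)
  unfold AA tv
  have h1 : Q ^ (m + 1) = Q * Q ^ m := by rw [pow_succ, mul_comm]
  rw [h1, sum_periodic Q (Q ^ m) (fun t => ∏ i, g i (x + pz Q (P i) t)) (fun r t => by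
    simp only [pz_periodic])]
  push_cast
  field_simp

end Pool.Agent.EQD.Lo
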