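import Pool.Agent.Lib.EQD.Gain
import Pool.Agent.Lib.EQD.DkE
import Pool.Agent.Lib.EQD.Hyb

/-!
# EQD.FibA: gain and improving estimate on the fibre `ZMod Q`

PROOFS.
* `fib_gain`: with `β = dlt - bk q (Q / q)`, `cv β (v i) = v i - Eb q (Q/q) (v i)`. `L2gain` with `M = Q`, `N = Q ^ 2`
  (`Q ≥ q ≥ R ^ C ≥ 2` because `q` is divisible by `R ^ C`, `q ≥ 1`), `F = v i`, `n2 F ≤ 1`; `NS` from `NS_diff` (`q (Q/q) = Q`, `16 R^(2C₀) Q ≤ Q^2`),
  `mass ≤ 2`, `Supp_dlt_sub_bk`. The other slots `v l` resp. `Eb q (Q/q) (v l)` are bounded by one.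
* `fib_improve`: `improve` with `M = Q`, `N = Q` (`B = 1`, `D ≥ 1`): `AR Q P u` on `ZMod Q`.
-/

set_option autoImplicit false

open Finset Polynomial

namespace Pool.Agent.EQD.Lo

open Pool.Agent.HLT Pool.Agent.NLT Pool.Agent.NLG

theorem fib_gain {n D : ℕ} {P : Fin n → ℤ[X]} {e : Fin n → ℕ} {i₀ : Fin n} (h : EqDeg D P e i₀) :
    ∃ C : ℕ, ∀ (Q q R : ℕ) [NeZero Q], 2 ≤ R → q ∣ Q → (∀ r, 1 ≤ r → r ≤ R ^ C → r ∣ q) →
      ∀ (i : Fin n) (v : Fin n → ZMod Q → ℂ), (∀ l, Bd (v l)) →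
      n2 (AA Q P (hyb v (fun l => Eb q (Q / q) (v l)) i)) ≤ (C : ℝ) / R := by
  obtain ⟨C₀, hC⟩ := L2gain h
  refine ⟨2 * C₀ + 4, ?_⟩
  intro Q q R _ hR hqQ hq i v hv
  have hR1 : 1 ≤ R := by omega
  have hQ0 : 0 < Q := NeZero.pos Q
  have hq0 : 0 < q := Nat.pos_of_dvd_of_pos hqQ hQ0
  have hqg : q * (Q / q) = Q := Nat.mul_div_cancel' hqQ
  have hg : 1 ≤ Q / q := Nat.div_pos (Nat.le_of_dvd hQ0 hqQ) hq0
  have hRC : R ^ (2 * C₀ + 4) ≤ Q := by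
    have h1 : R ^ (2 * C₀ + 4) ∣ q := hq _ (Nat.one_le_pow _ _ hR1) le_rfl
    exact (Nat.le_of_dvd hq0 h1).trans (Nat.le_of_dvd hQ0 hqQ)
  have hRC0 : R ^ C₀ ≤ R ^ (2 * C₀ + 4) := Nat.pow_le_pow_right hR1 (by omega)
  have hN : R ^ C₀ ≤ Q ^ 2 := by
    calc R ^ C₀ ≤ Q := hRC0.trans hRC
      _ = Q ^ 1 := (pow_one Q).symm
      _ ≤ Q ^ 2 := Nat.pow_le_pow_right hQ0 (by omega)
  set β : ℤ →₀ ℂ := dlt - bk q (Q / q) with hβ
  have hmass : mass β ≤ 4 := by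
    have h1 := mass_sub_le dlt (bk q (Q / q))
    have h2 := mass_bk_le q (Q / q)
    rw [mass_dlt] at h1
    linarith
  have hsupp : Supp ((Q ^ 2) ^ D) β := by
    refine Supp_dlt_sub_bk q (Q / q) _ ?_
    rw [hqg, ← pow_mul]
    calc Q = Q ^ 1 := (pow_one Q).symm
      _ ≤ Q ^ (2 * D) := Nat.pow_le_pow_right hQ0 (by have := h.two; omega)
  have hNS : NS C₀ R ((Q ^ 2) ^ e i) β := by
    refine NS_diff C₀ R _ q (Q / q) hR1 hg (fun r h1 h2 => hq r h1 (h2.trans hRC0)) ?_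
    rw [hqg]
    have h1 : 16 * R ^ (2 * C₀) ≤ Q := by
      calc 16 * R ^ (2 * C₀) = 2 ^ 4 * R ^ (2 * C₀) := by norm_num
        _ ≤ R ^ 4 * R ^ (2 * C₀) := Nat.mul_le_mul_right _ (Nat.pow_le_pow_left hR 4)
        _ = R ^ (2 * C₀ + 4) := by ring
        _ ≤ Q := hRC
    calc 16 * R ^ (2 * C₀) * Q ≤ Q * Q := Nat.mul_le_mul_right _ h1
      _ = Q ^ (2 * 1) := by ring
      _ ≤ Q ^ (2 * e i) := Nat.pow_le_pow_right hQ0 (Nat.mul_le_mul_left 2 (h.pos i))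
      _ = (Q ^ 2) ^ e i := by rw [pow_mul]
  have hBd : ∀ l, Bd (fun x => if l < i then v l x else Eb q (Q / q) (v l) x) := by
    intro l x
    dsimp only
    split_ifs
    · exact hv l x
    · exact Bd_Eb q (Q / q) (hv l) x
  have key := hC Q (Q ^ 2) R hR hN i β hmass hsupp hNS
    (fun l x => if l < i then v l x else Eb q (Q / q) (v l) x) hBd (v i)
  have hfam : hyb v (fun l => Eb q (Q / q) (v l)) i =
      Function.update (fun l x => if l < i then v l x else Eb q (Q / q) (v l) x) i (cv β (v i)) := by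
    funext l x
    unfold hyb
    by_cases hl : l = i
    · subst hl
      rw [Function.update_self, if_neg (lt_irrefl _), if_pos rfl, hβ, cv_dlt_sub_bk]
    · rw [Function.update_of_ne hl, if_neg hl]
  have hAA : AA Q P (hyb v (fun l => Eb q (Q / q) (v l)) i) = AA (Q ^ 2) P
      (Function.update (fun l x => if l < i then v l x else Eb q (Q / q) (v l) x) i
        (cv β (v i))) := by
    funext x
    rw [AA_pow P _ 2 (by omega) x, hfam]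
  rw [hAA]
  refine key.trans ?_
  have hR0 : (0 : ℝ) < R := by exact_mod_cast (by omega : 0 < R)
  refine div_le_div_of_nonneg_right ?_ hR0.le
  have h1 : n2 (v i) ≤ 1 := avr_le fun x => pow_le_one₀ (norm_nonneg _) (hv i x)
  have h2 : (0 : ℝ) ≤ (C₀ : ℝ) := Nat.cast_nonneg _
  calc (C₀ : ℝ) * n2 (v i) ≤ C₀ * 1 := mul_le_mul_of_nonneg_left h1 h2
    _ ≤ ((2 * C₀ + 4 : ℕ) : ℝ) := by
      push_cast
      linarith

theorem fib_improve {D : ℕ} (hD : 1 ≤ D) (P : ℤ[X]) (hP : P.natDegree = D) :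
    ∃ C : ℕ, ∀ (Q R : ℕ) [NeZero Q], 2 ≤ R → ∀ E : Finset (ZMod Q), E.card * R ^ C ≤ Q →
      avr (fun x => (AR Q P (fun y => if y ∈ E then 1 else 0) x) ^ 2) ≤ (C : ℝ) * ((E.card : ℝ) / Q) / R := by
  obtain ⟨C, hC⟩ := improve D hD P hP 1
  refine ⟨C, ?_⟩
  intro Q R _ hR E hE
  have hQ0 : 0 < Q := NeZero.pos Q
  refine hC Q Q R hR hQ0 ?_ E hE
  rw [one_mul]
  calc Q = Q ^ 1 := (pow_one Q).symm
    _ ≤ Q ^ D := Nat.pow_le_pow_right hQ0 hD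

end Pool.Agent.EQD.Lo
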