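import Pool.Agent.Lib.EQD.Kern

/-!
# EQD.Max: maxima over finite sets of scales

PROOFS.
* `fmax s F` = maximum of `F` over `s` (and `0` if `s` is empty). `le_fmax`, `fmax_le`, `fmax_nonneg`, `exists_fmax`: `Finset.le_sup'`,
  `Finset.sup'_le`, `Finset.exists_mem_eq_sup'`. `fmax_le_fmax`: from these. `abs_fmax_sub_le`: from these.
* `MaxLe s F B`: the mean square of the maximum of `‖F j x‖` over `j ∈ s` is at most `B`.
  `MaxLe.of_sum`: `(fmax)^2 ≤ ∑_{j ∈ s} ‖F j x‖^2`, `avr_sum`. `MaxLe.add`: `fmax (‖F + G‖) ≤ fmax ‖F‖ + fmax ‖G‖`, `(a+b)^2 ≤ 2a^2 + 2b^2`.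
  `MaxLe.sum`: `fmax ‖∑_i F_i‖ ≤ ∑_i fmax ‖F_i‖`, Cauchy-Schwarz. `MaxLe.mono`, `MaxLe.of_bound`: monotonicity.
-/

set_option autoImplicit false

open Finset Polynomial

namespace Pool.Agent.EQD.Lo

open Pool.Agent.HLT Pool.Agent.NLT Pool.Agent.NLG

/-- Maximum over a finite set (`0` if empty). -/
noncomputable def fmax (s : Finset ℕ) (F : ℕ → ℝ) : ℝ := if h : s.Nonempty then s.sup' h F else 0

lemma le_fmax {s : Finset ℕ} (F : ℕ → ℝ) {j : ℕ} (hj : j ∈ s) : F j ≤ fmax s F := by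
  have h : s.Nonempty := ⟨j, hj⟩
  unfold fmax
  rw [dif_pos h]
  exact Finset.le_sup' F hj

lemma fmax_le {s : Finset ℕ} {F : ℕ → ℝ} {B : ℝ} (hB : 0 ≤ B) (h : ∀ j ∈ s, F j ≤ B) : fmax s F ≤ B := by
  unfold fmax
  split_ifs with hs
  · exact Finset.sup'_le hs F h
  · exact hB

lemma fmax_nonneg {s : Finset ℕ} {F : ℕ → ℝ} (h : ∀ j ∈ s, 0 ≤ F j) : 0 ≤ fmax s F := by
  rcases s.eq_empty_or_nonempty with hs | ⟨j, hj⟩
  · subst hs
    unfold fmax
    rw [dif_neg Finset.not_nonempty_empty]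
  · exact (h j hj).trans (le_fmax F hj)

lemma exists_fmax {s : Finset ℕ} (hs : s.Nonempty) (F : ℕ → ℝ) : ∃ j ∈ s, fmax s F = F j := by
  unfold fmax
  rw [dif_pos hs]
  exact Finset.exists_mem_eq_sup' hs F

lemma fmax_le_fmax {s t : Finset ℕ} {F G : ℕ → ℝ} (hst : s ⊆ t) (hG : ∀ j ∈ t, 0 ≤ G j) (h : ∀ j ∈ s, F j ≤ G j) :
    fmax s F ≤ fmax t G := by
  refine fmax_le (fmax_nonneg hG) fun j hj => ?_
  exact (h j hj).trans (le_fmax G (hst hj))

lemma abs_fmax_sub_le {s : Finset ℕ} {F G : ℕ → ℝ} {η : ℝ} (hη : 0 ≤ η) (h : ∀ j ∈ s, |F j - G j| ≤ η) :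
    |fmax s F - fmax s G| ≤ η := by
  rcases s.eq_empty_or_nonempty with hs | hs
  · subst hs
    unfold fmax
    rw [dif_neg Finset.not_nonempty_empty, dif_neg Finset.not_nonempty_empty]
    simpa using hη
  · rw [abs_le]
    constructor
    · obtain ⟨j, hj, e⟩ := exists_fmax hs G
      have h1 := le_fmax F hj
      have h2 := (abs_le.mp (h j hj)).1
      rw [e]
      linarith
    · obtain ⟨j, hj, e⟩ := exists_fmax hs F
      have h1 := le_fmax G hj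
      have h2 := (abs_le.mp (h j hj)).2
      rw [e]
      linarith

section group

variable {M : ℕ} [NeZero M]

/-- The mean square of the maximum over the scales `j ∈ s` is at most `B`. -/
def MaxLe (s : Finset ℕ) (F : ℕ → ZMod M → ℂ) (B : ℝ) : Prop :=
  avr (fun x => (fmax s (fun j => ‖F j x‖)) ^ 2) ≤ B

lemma MaxLe.of_sum {s : Finset ℕ} {F : ℕ → ZMod M → ℂ} {B : ℝ} (h : ∑ j ∈ s, n2 (F j) ≤ B) : MaxLe s F B := by
  refine le_trans ?_ h
  unfold n2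
  rw [← avr_sum]
  refine avr_mono fun x => ?_
  rcases s.eq_empty_or_nonempty with hs | hs
  · subst hs
    unfold fmax
    rw [dif_neg Finset.not_nonempty_empty]
    simp
  · obtain ⟨j, hj, e⟩ := exists_fmax hs (fun j => ‖F j x‖)
    rw [e]
    exact Finset.single_le_sum (f := fun j => ‖F j x‖ ^ 2) (fun i _ => by positivity) hj

lemma MaxLe.add {s : Finset ℕ} {F G : ℕ → ZMod M → ℂ} {A B : ℝ} (hF : MaxLe s F A) (hG : MaxLe s G B) :
    MaxLe s (fun j x => F j x + G j x) (2 * A + 2 * B) := by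
  unfold MaxLe at *
  have h1 : avr (fun x => (fmax s (fun j => ‖F j x + G j x‖)) ^ 2) ≤
      avr (fun x => 2 * (fmax s (fun j => ‖F j x‖)) ^ 2 + 2 * (fmax s (fun j => ‖G j x‖)) ^ 2) := by
    refine avr_mono fun x => ?_
    have h0 : 0 ≤ fmax s (fun j => ‖F j x + G j x‖) := fmax_nonneg fun j _ => norm_nonneg _
    have hF0 : 0 ≤ fmax s (fun j => ‖F j x‖) := fmax_nonneg fun j _ => norm_nonneg _
    have hG0 : 0 ≤ fmax s (fun j => ‖G j x‖) := fmax_nonneg fun j _ => norm_nonneg _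
    have h2 : fmax s (fun j => ‖F j x + G j x‖) ≤
        fmax s (fun j => ‖F j x‖) + fmax s (fun j => ‖G j x‖) := by
      refine fmax_le (add_nonneg hF0 hG0) fun j hj => ?_
      exact (norm_add_le _ _).trans (add_le_add (le_fmax (fun j => ‖F j x‖) hj)
        (le_fmax (fun j => ‖G j x‖) hj))
    nlinarith [sq_nonneg (fmax s (fun j => ‖F j x‖) - fmax s (fun j => ‖G j x‖)),
      pow_le_pow_left₀ h0 h2 2]
  rw [avr_add, avr_mul_left, avr_mul_left] at h1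
  linarith

lemma MaxLe.sum {s : Finset ℕ} {ι : Type} (I : Finset ι) {F : ι → ℕ → ZMod M → ℂ} {B : ι → ℝ}
    (h : ∀ i ∈ I, MaxLe s (F i) (B i)) :
    MaxLe s (fun j x => ∑ i ∈ I, F i j x) ((I.card : ℝ) * ∑ i ∈ I, B i) := by
  unfold MaxLe at *
  have h1 : avr (fun x => (fmax s (fun j => ‖∑ i ∈ I, F i j x‖)) ^ 2) ≤
      avr (fun x => (I.card : ℝ) * ∑ i ∈ I, (fmax s (fun j => ‖F i j x‖)) ^ 2) := by
    refine avr_mono fun x => ?_
    have h0 : 0 ≤ fmax s (fun j => ‖∑ i ∈ I, F i j x‖) := fmax_nonneg fun j _ => norm_nonneg _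
    have hi : ∀ i ∈ I, 0 ≤ fmax s (fun j => ‖F i j x‖) := fun i _ =>
      fmax_nonneg fun j _ => norm_nonneg _
    have h2 : fmax s (fun j => ‖∑ i ∈ I, F i j x‖) ≤ ∑ i ∈ I, fmax s (fun j => ‖F i j x‖) := by
      refine fmax_le (Finset.sum_nonneg hi) fun j hj => ?_
      exact (norm_sum_le _ _).trans (Finset.sum_le_sum fun i _ => le_fmax (fun j => ‖F i j x‖) hj)
    exact (pow_le_pow_left₀ h0 h2 2).trans (sq_sum_le_card_mul_sum_sq)
  rw [avr_mul_left, avr_sum] at h1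
  exact h1.trans (mul_le_mul_of_nonneg_left (Finset.sum_le_sum h) (Nat.cast_nonneg _))

lemma MaxLe.mono {s t : Finset ℕ} {F G : ℕ → ZMod M → ℂ} {A B : ℝ} (hst : s ⊆ t) (hAB : A ≤ B)
    (hFG : ∀ j ∈ s, ∀ x, ‖F j x‖ ≤ ‖G j x‖) (h : MaxLe t G A) : MaxLe s F B := by
  unfold MaxLe at *
  refine (avr_mono fun x => ?_).trans (h.trans hAB)
  exact pow_le_pow_left₀ (fmax_nonneg fun j _ => norm_nonneg _)
    (fmax_le_fmax hst (fun j _ => norm_nonneg _) fun j hj => hFG j hj x) 2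

lemma MaxLe.of_bound {s : Finset ℕ} {F : ℕ → ZMod M → ℂ} {η B : ℝ} (hη : 0 ≤ η) (h : ∀ j ∈ s, ∀ x, ‖F j x‖ ≤ η)
    (hB : η ^ 2 ≤ B) : MaxLe s F B := by
  unfold MaxLe
  refine avr_le fun x => le_trans ?_ hB
  exact pow_le_pow_left₀ (fmax_nonneg fun j _ => norm_nonneg _) (fmax_le hη fun j hj => h j hj x) 2

end group

end Pool.Agent.EQD.Lo
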