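import Pool.Agent.Lib.EQD.FibA
import Pool.Agent.Lib.EQD.Max

/-!
# EQD.FibB: the maximum over the scales on one fibre `ZMod Q`

PROOF.
* `fibmax`. Let `C₁` be a constant for `improve` for all `P l` (take the sum of the constants), `C₂ = C₁ + 1`, and apply `fib_gain` with `R ^ C₂` in the place of `R`
  (choose `C ≥ C₂ *` its constant): `(∗) n2 (AA Q P (hyb (v j) ..)) ≤ C₃ / R ^ C₂` for every `j`. Put `ε = R ^ (-C₁)`,
  `w j = ∑_l card (ev l j) / Q`, `ν = ∑_{j ∈ Icc a b} w j`, `W j = ∑_{a ≤ k ≤ j} w k`, class of `j`: `c j = ⌊W j / ε⌋₊`; there are at most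
  `1 + ν / ε` classes, each class `I` is an interval with first element `j_I`, and `∑_{j ∈ I, j > j_I} w j ≤ ε`. Let
  `Y_{I,l} = ⋃_{j ∈ I, j > j_I} ev l j`, so `card Y_{I,l} ≤ ε Q` and for `ρ ∉ Y_{I,l}`, `j ∈ I`: `‖v j l ρ - v j_I l ρ‖ ≤ η`. Always `‖v j l ρ - v j_I l ρ‖ ≤ 2`.
  So with `u_l = η + 2 * 1_{Y_{I,l}}` : `‖v j l - v j_I l‖ ≤ u_l` pointwise, and for the functions `v' = hyb ..` in the slots:
  `‖v'_j l - v'_{j_I} l‖ ≤ u_l + Eb q (Q/q) u_l` (real box average), all of norm `≤ 2`. Hence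
  `‖AA Q P (v'_j) ρ‖ ≤ ‖AA Q P (v'_{j_I}) ρ‖ + 2 ^ n ∑_l AR Q (P l) (u_l + E u_l) ρ`. Square, maximum over `j` ≤ maximum over the classes ≤ sum over the classes
  for the parts without `η`: with `1_Y`, `avr (AR Q (P l) 1_Y)^2 ≤ C₁ ε / R` (`fib_improve`), and the same for `E 1_Y`, because `AR` commutes with
  translations and `E` is an average of translations (convexity). So the left side is
  `≤ C (∑_I C₃ / R ^ C₂ + η² + ∑_I ε / R) ≤ C' ((1 + ν R ^ C₁) R ^ (-C₁-1) + η² + (1 + ν / ε) ε / R) ≤ C'' ((1 + ν) / R + η²)`.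
-/

set_option autoImplicit false

open Finset Polynomial

namespace Pool.Agent.EQD.Lo

open Pool.Agent.HLT Pool.Agent.NLT Pool.Agent.NLG

namespace FibBAux

open Pool.Agent.EQD.Lo

lemma tvr_add (H : ℕ) (F G : ℕ → ℝ) : tvr H (fun t => F t + G t) = tvr H F + tvr H G := by
  unfold tvr
  rw [sum_add_distrib, add_div]

lemma tvr_mul_left (H : ℕ) (c : ℝ) (F : ℕ → ℝ) : tvr H (fun t => c * F t) = c * tvr H F := by
  unfold tvr
  rw [← mul_sum, mul_div_assoc]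

lemma tvr_sum {ι : Type} (s : Finset ι) (H : ℕ) (F : ι → ℕ → ℝ) :
    tvr H (fun t => ∑ i ∈ s, F i t) = ∑ i ∈ s, tvr H (F i) := by
  unfold tvr
  rw [sum_comm, sum_div]

lemma tvr_comm (H K : ℕ) (F : ℕ → ℕ → ℝ) :
    tvr H (fun t => tvr K (fun i => F t i)) = tvr K (fun i => tvr H (fun t => F t i)) := by
  unfold tvr
  rw [← sum_div, ← sum_div, sum_comm, div_right_comm]

lemma prod_diff {n : ℕ} (a b : Fin n → ℂ) (ha : ∀ l, ‖a l‖ ≤ 2) (hb : ∀ l, ‖b l‖ ≤ 2)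
    (s : Finset (Fin n)) :
    ‖∏ l ∈ s, a l - ∏ l ∈ s, b l‖ ≤ 2 ^ s.card * ∑ l ∈ s, ‖a l - b l‖ := by
  induction s using Finset.induction_on with
  | empty => simp
  | insert x s hx ih =>
    rw [prod_insert hx, prod_insert hx, sum_insert hx, card_insert_of_notMem hx]
    have e1 : a x * ∏ l ∈ s, a l - b x * ∏ l ∈ s, b l =
        a x * (∏ l ∈ s, a l - ∏ l ∈ s, b l) + (a x - b x) * ∏ l ∈ s, b l := by ring
    rw [e1]
    refine (norm_add_le _ _).trans ?_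
    rw [norm_mul, norm_mul]
    have h1 : ‖∏ l ∈ s, b l‖ ≤ 2 ^ s.card := by
      rw [norm_prod]
      refine (prod_le_prod (fun i _ => norm_nonneg _) (fun i _ => hb i)).trans (le_of_eq ?_)
      rw [prod_const]
    have h2 : ‖a x‖ * ‖∏ l ∈ s, a l - ∏ l ∈ s, b l‖ ≤ 2 * (2 ^ s.card * ∑ l ∈ s, ‖a l - b l‖) :=
      mul_le_mul (ha x) ih (norm_nonneg _) (by norm_num)
    have h3 : ‖a x - b x‖ * ‖∏ l ∈ s, b l‖ ≤ ‖a x - b x‖ * 2 ^ s.card :=
      mul_le_mul_of_nonneg_left h1 (norm_nonneg _)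
    have h4 : 0 ≤ ‖a x - b x‖ * (2 : ℝ) ^ s.card := by positivity
    rw [pow_succ]
    nlinarith

section group

set_option linter.unusedSectionVars false

variable {Q : ℕ} [NeZero Q]

/-- Real box average. -/
noncomputable def Er (q K : ℕ) (u : ZMod Q → ℝ) (x : ZMod Q) : ℝ :=
  tvr K (fun i => u (x + ((q * i : ℕ) : ZMod Q)))

lemma AA_diff {n : ℕ} (N : ℕ) (P : Fin n → ℤ[X]) (g g' : Fin n → ZMod Q → ℂ) (u : Fin n → ZMod Q → ℝ)
    (hg : ∀ l x, ‖g l x‖ ≤ 2) (hg' : ∀ l x, ‖g' l x‖ ≤ 2) (hu : ∀ l x, ‖g l x - g' l x‖ ≤ u l x)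
    (x : ZMod Q) :
    ‖AA N P g x‖ ≤ ‖AA N P g' x‖ + 2 ^ n * ∑ l, AR N (P l) (u l) x := by
  have h1 : AA N P g x - AA N P g' x =
      tv N (fun t => ∏ i, g i (x + pz Q (P i) t) - ∏ i, g' i (x + pz Q (P i) t)) := by
    rw [tv_sub]
    rfl
  have h2 : ‖AA N P g x - AA N P g' x‖ ≤ 2 ^ n * ∑ l, AR N (P l) (u l) x := by
    rw [h1]
    refine (norm_tv_le N _).trans ?_
    have h3 : 2 ^ n * ∑ l, AR N (P l) (u l) x =
        tvr N (fun t => 2 ^ n * ∑ l, u l (x + pz Q (P l) t)) := by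
      rw [tvr_mul_left, tvr_sum]
      rfl
    rw [h3]
    refine tvr_mono N (fun t _ => ?_)
    have h4 := prod_diff (fun i => g i (x + pz Q (P i) t)) (fun i => g' i (x + pz Q (P i) t))
      (fun l => hg l _) (fun l => hg' l _) univ
    rw [card_univ, Fintype.card_fin] at h4
    refine h4.trans (mul_le_mul_of_nonneg_left (sum_le_sum (fun l _ => hu l _)) (by positivity))
  have h5 : AA N P g x = AA N P g' x + (AA N P g x - AA N P g' x) := by ring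
  rw [h5]
  exact (norm_add_le _ _).trans (by linarith)

lemma AR_lin (N : ℕ) (hN : 1 ≤ N) (P : ℤ[X]) (η : ℝ) (f g : ZMod Q → ℝ) (x : ZMod Q) :
    AR N P (fun y => 2 * η + 2 * (f y + g y)) x = 2 * η + 2 * (AR N P f x + AR N P g x) := by
  unfold AR
  rw [tvr_add, tvr_const N hN, tvr_mul_left, tvr_add]

lemma AR_Er (N q K : ℕ) (P : ℤ[X]) (u : ZMod Q → ℝ) (x : ZMod Q) :
    AR N P (Er q K u) x = tvr K (fun i => AR N P u (x + ((q * i : ℕ) : ZMod Q))) := by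
  unfold AR Er
  rw [tvr_comm]
  congr 1
  funext i
  congr 1
  funext t
  congr 1
  ring

lemma avr_AR_Er (N q K : ℕ) (P : ℤ[X]) (u : ZMod Q → ℝ) :
    avr (fun x => (AR N P (Er q K u) x) ^ 2) ≤ avr (fun x => (AR N P u x) ^ 2) := by
  have h1 : avr (fun x => (AR N P (Er q K u) x) ^ 2) ≤
      avr (fun x => tvr K (fun i => (AR N P u (x + ((q * i : ℕ) : ZMod Q))) ^ 2)) := by
    refine avr_mono (fun x => ?_)
    rw [AR_Er]
    exact tvr_sq_le K _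
  refine h1.trans ?_
  rw [← tvr_avr_comm]
  refine tvr_le K (avr_nonneg (fun x => sq_nonneg _)) (fun i _ => ?_)
  exact le_of_eq (avr_shift (fun x => (AR N P u x) ^ 2) _)

lemma Eb_diff (q K : ℕ) (f g : ZMod Q → ℂ) (Y : Finset (ZMod Q)) (η : ℝ) (hη : 0 ≤ η)
    (h : ∀ x, ‖f x - g x‖ ≤ η + 2 * (if x ∈ Y then 1 else 0)) (x : ZMod Q) :
    ‖Eb q K f x - Eb q K g x‖ ≤ η + 2 * Er q K (fun y => if y ∈ Y then 1 else 0) x := by
  rw [← Eb_sub]
  unfold Eb Er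
  refine (norm_tv_le K _).trans ?_
  have h1 : tvr K (fun t => ‖f (x + ((q * t : ℕ) : ZMod Q)) - g (x + ((q * t : ℕ) : ZMod Q))‖) ≤
      tvr K (fun t => η + 2 * (if (x + ((q * t : ℕ) : ZMod Q)) ∈ Y then (1 : ℝ) else 0)) :=
    tvr_mono K (fun t _ => h _)
  refine h1.trans ?_
  rw [tvr_add, tvr_mul_left]
  have h2 : tvr K (fun _ => η) ≤ η := tvr_le K hη (fun _ _ => le_refl _)
  linarith

end group

lemma classes (a b : ℕ) (w : ℕ → ℝ) (hw : ∀ j, 0 ≤ w j) (T : ℕ) :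
    ∃ (m : ℕ) (cl lo hi : ℕ → ℕ), (m : ℝ) ≤ (∑ j ∈ Icc a b, w j) * T + 1 ∧
      (∀ j ∈ Icc a b, cl j < m ∧ lo (cl j) ≤ j ∧ j ≤ hi (cl j) ∧ a ≤ lo (cl j) ∧ hi (cl j) ≤ b) ∧
      ∀ c, (∑ k ∈ Ioc (lo c) (hi c), w k) * T ≤ 1 := by
  classical
  have hT : (0 : ℝ) ≤ T := Nat.cast_nonneg T
  set W : ℕ → ℝ := fun j => ∑ k ∈ Icc a j, w k with hW
  have hW0 : ∀ j, 0 ≤ W j := fun j => sum_nonneg (fun k _ => hw k)
  set S : ℕ → Finset ℕ := fun c => (Icc a b).filter (fun j => ⌊W j * T⌋₊ = c) with hS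
  refine ⟨⌊W b * T⌋₊ + 1, fun j => ⌊W j * T⌋₊,
    fun c => if h : (S c).Nonempty then (S c).min' h else a,
    fun c => if h : (S c).Nonempty then (S c).max' h else a, ?_, ?_, ?_⟩
  · push_cast
    have := Nat.floor_le (mul_nonneg (hW0 b) hT)
    linarith
  · intro j hj
    have hjS : j ∈ S ⌊W j * T⌋₊ := mem_filter.mpr ⟨hj, rfl⟩
    have hne : (S ⌊W j * T⌋₊).Nonempty := ⟨j, hjS⟩
    simp only [dif_pos hne]
    refine ⟨?_, min'_le _ _ hjS, le_max' _ _ hjS, ?_, ?_⟩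
    · refine Nat.lt_succ_of_le (Nat.floor_le_floor (mul_le_mul_of_nonneg_right ?_ hT))
      refine sum_le_sum_of_subset_of_nonneg ?_ (fun k _ _ => hw k)
      exact Icc_subset_Icc_right (mem_Icc.mp hj).2
    · exact (mem_Icc.mp (mem_filter.mp (min'_mem _ hne)).1).1
    · exact (mem_Icc.mp (mem_filter.mp (max'_mem _ hne)).1).2
  · intro c
    by_cases hne : (S c).Nonempty
    · simp only [dif_pos hne]
      have h1 := mem_filter.mp (min'_mem _ hne)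
      have h2 := mem_filter.mp (max'_mem _ hne)
      set x := (S c).min' hne
      set y := (S c).max' hne
      have hxy : x ≤ y := min'_le_max' _ hne
      have hax : a ≤ x := (mem_Icc.mp h1.1).1
      have h3 : W y = W x + ∑ k ∈ Ioc x y, w k := by
        simp only [hW]
        have e1 : Icc a y = (Icc a x) ∪ (Ioc x y) := by
          ext k
          simp only [mem_Icc, mem_union, mem_Ioc]
          omega
        rw [e1, sum_union]
        rw [disjoint_left]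
        intro k hk hk'
        rw [mem_Icc] at hk
        rw [mem_Ioc] at hk'
        omega
      have h4 : (c : ℝ) ≤ W x * T := by
        rw [← h1.2]
        exact Nat.floor_le (mul_nonneg (hW0 x) hT)
      have h5 : W y * T < c + 1 := by
        rw [← h2.2]
        exact Nat.lt_floor_add_one _
      have h6 : (∑ k ∈ Ioc x y, w k) * T = W y * T - W x * T := by
        rw [h3]
        ring
      rw [h6]
      linarith
    · simp only [dif_neg hne]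
      simp

lemma fin_ineq (c5 K3 K1 c6 e M : ℝ) (h5 : 0 ≤ c5) (h6 : 0 ≤ K3) (h7 : 0 ≤ K1) (h3 : 0 ≤ c6) (h4 : 0 ≤ e)
    (h1 : M ≤ K3 * c6) : K1 * e + M ≤ (c5 + K3 + K1) * (c6 + e) := by
  nlinarith [mul_nonneg h5 h3, mul_nonneg h5 h4, mul_nonneg h6 h4, mul_nonneg h7 h3]

lemma sq3 (A B C : ℝ) : (A + B + C) ^ 2 ≤ 3 * A ^ 2 + 3 * B ^ 2 + 3 * C ^ 2 := by
  nlinarith [sq_nonneg (A - B), sq_nonneg (A - C), sq_nonneg (B - C)]

lemma fmax_sq_le {s : Finset ℕ} {F : ℕ → ℝ} {B : ℝ} (hB : 0 ≤ B) (hF : ∀ j ∈ s, (F j) ^ 2 ≤ B) :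
    (fmax s F) ^ 2 ≤ B := by
  by_cases hs : s.Nonempty
  · obtain ⟨j, hj, e⟩ := exists_fmax hs F
    rw [e]
    exact hF j hj
  · unfold fmax
    rw [dif_neg hs]
    rw [zero_pow two_ne_zero]
    exact hB

end FibBAux

open FibBAux

theorem fibmax {n D : ℕ} {P : Fin n → ℤ[X]} {e : Fin n → ℕ} {i₀ : Fin n} (h : EqDeg D P e i₀) :
    ∃ C : ℕ, ∀ (Q q R : ℕ) [NeZero Q], 2 ≤ R → q ∣ Q → (∀ r, 1 ≤ r → r ≤ R ^ C → r ∣ q) →
      ∀ (i : Fin n) (a b : ℕ) (v : ℕ → Fin n → ZMod Q → ℂ), (∀ j l, Bd (v j l)) →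
      ∀ (ev : Fin n → ℕ → Finset (ZMod Q)) (η : ℝ), 0 ≤ η →
      (∀ (l : Fin n) (ρ : ZMod Q) (i' j' : ℕ), a ≤ i' → i' ≤ j' → j' ≤ b → (∀ k, i' < k → k ≤ j' → ρ ∉ ev l k) →
        ‖v j' l ρ - v i' l ρ‖ ≤ η) →
      avr (fun ρ : ZMod Q =>
        (fmax (Icc a b) (fun j => ‖AA Q P (hyb (v j) (fun l => Eb q (Q / q) (v j l)) i) ρ‖)) ^ 2) ≤
        (C : ℝ) * ((1 + ∑ l, ∑ j ∈ Icc a b, ((ev l j).card : ℝ) / Q) / R + η ^ 2) := by
  classical
  have hD : 1 ≤ D := le_trans (by norm_num) h.two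
  obtain ⟨C₃, hC₃⟩ := fib_gain h
  choose Cl hCl using fun l : Fin n => fib_improve hD (P l) (h.deg l)
  set C₁ : ℕ := ∑ l, Cl l with hC₁
  have hle : ∀ l, Cl l ≤ C₁ := fun l => single_le_sum (f := Cl) (fun _ _ => Nat.zero_le _) (mem_univ l)
  set K₃ : ℕ := 3 * C₃ + 12 * n ^ 2 * (2 ^ (n + 1)) ^ 2 * C₁ with hK₃
  set K₁ : ℕ := 3 * (2 ^ (n + 1) * n) ^ 2 with hK₁
  refine ⟨(C₁ + 1) * C₃ + K₃ + K₁, ?_⟩
  intro Q q R _ hR hqQ hr i a b v hv ev η hη hev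
  have hQ0 : 0 < Q := Nat.pos_of_ne_zero (NeZero.ne Q)
  have hQ1 : 1 ≤ Q := hQ0
  have hQr : (0 : ℝ) < Q := by exact_mod_cast hQ0
  have hR0 : (0 : ℝ) < R := by exact_mod_cast (by omega : 0 < R)
  have hR1 : (1 : ℝ) ≤ R := by exact_mod_cast (by omega : 1 ≤ R)
  set T : ℕ := R ^ C₁ with hT
  have hTpos : 0 < T := pow_pos (by omega) _
  have hTr : (0 : ℝ) < T := by exact_mod_cast hTpos
  have hT1 : (1 : ℝ) ≤ T := by exact_mod_cast hTpos
  set w : ℕ → ℝ := fun j => ∑ l, ((ev l j).card : ℝ) / Q with hw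
  have hw0 : ∀ j, 0 ≤ w j := fun j => sum_nonneg (fun l _ => by positivity)
  obtain ⟨m, cl, lo, hi, hm, hcl, hsum⟩ := classes a b w hw0 T
  set ν : ℝ := ∑ l, ∑ j ∈ Icc a b, ((ev l j).card : ℝ) / Q with hν
  have hνw : ∑ j ∈ Icc a b, w j = ν := by
    rw [hν, sum_comm]
  have hν0 : 0 ≤ ν := by
    rw [← hνw]
    exact sum_nonneg (fun j _ => hw0 j)
  rw [hνw] at hm
  -- exceptional sets
  set Y : ℕ → Fin n → Finset (ZMod Q) := fun c l => (Ioc (lo c) (hi c)).biUnion (ev l) with hY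
  have hYcard : ∀ c l, ((Y c l).card : ℝ) / Q ≤ 1 / T := by
    intro c l
    have h1 : ((Y c l).card : ℝ) ≤ ∑ k ∈ Ioc (lo c) (hi c), ((ev l k).card : ℝ) := by
      exact_mod_cast card_biUnion_le
    have h2 : ∑ k ∈ Ioc (lo c) (hi c), ((ev l k).card : ℝ) / Q ≤ ∑ k ∈ Ioc (lo c) (hi c), w k := by
      refine sum_le_sum (fun k _ => ?_)
      exact single_le_sum (f := fun l => ((ev l k).card : ℝ) / Q) (fun _ _ => by positivity) (mem_univ l)
    have h3 : (∑ k ∈ Ioc (lo c) (hi c), w k) ≤ 1 / T := by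
      rw [le_div_iff₀ hTr]
      exact hsum c
    rw [← sum_div] at h2
    exact ((div_le_div_of_nonneg_right h1 hQr.le).trans h2).trans h3
  have hYnat : ∀ c l, (Y c l).card * R ^ (Cl l) ≤ Q := by
    intro c l
    have h1 := hYcard c l
    rw [div_le_div_iff₀ hQr hTr, one_mul] at h1
    have h2 : (Y c l).card * T ≤ Q := by exact_mod_cast h1
    refine le_trans (Nat.mul_le_mul_left _ ?_) h2
    exact Nat.pow_le_pow_right (by omega) (hle l)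
  -- the hybrid functions
  set g : ℕ → Fin n → ZMod Q → ℂ := fun j => hyb (v j) (fun l => Eb q (Q / q) (v j l)) i with hg
  have hg2 : ∀ j l x, ‖g j l x‖ ≤ 2 := by
    intro j l x
    have h1 : ‖v j l x‖ ≤ 1 := hv j l x
    have h2 : ‖Eb q (Q / q) (v j l) x‖ ≤ 1 := Bd_Eb q (Q / q) (hv j l) x
    simp only [hg, hyb]
    split_ifs
    · linarith
    · exact (norm_sub_le _ _).trans (by linarith)
    · linarith
  set u1 : ℕ → Fin n → ZMod Q → ℝ := fun c l y => if y ∈ Y c l then 1 else 0 with hu1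
  have hu10 : ∀ c l y, 0 ≤ u1 c l y := by
    intro c l y
    simp only [hu1]
    split_ifs <;> norm_num
  have hEr0 : ∀ c l y, 0 ≤ Er q (Q / q) (u1 c l) y := fun c l y => tvr_nonneg _ (fun t => hu10 c l _)
  have hvd : ∀ j ∈ Icc a b, ∀ l x, ‖v j l x - v (lo (cl j)) l x‖ ≤ η + 2 * u1 (cl j) l x := by
    intro j hj l x
    obtain ⟨-, h1, h2, h3, h4⟩ := hcl j hj
    by_cases hx : x ∈ Y (cl j) l
    · simp only [hu1, if_pos hx]
      have h5 : ‖v j l x‖ ≤ 1 := hv j l x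
      have h6 : ‖v (lo (cl j)) l x‖ ≤ 1 := hv _ l x
      have h7 := norm_sub_le (v j l x) (v (lo (cl j)) l x)
      linarith
    · simp only [hu1, if_neg hx]
      rw [mul_zero, add_zero]
      refine hev l x (lo (cl j)) j h3 h1 (mem_Icc.mp hj).2 (fun k hk1 hk2 hk3 => hx ?_)
      rw [hY]
      exact mem_biUnion.mpr ⟨k, mem_Ioc.mpr ⟨hk1, hk2.trans h2⟩, hk3⟩
  have hgd : ∀ j ∈ Icc a b, ∀ l x, ‖g j l x - g (lo (cl j)) l x‖ ≤
      2 * η + 2 * (u1 (cl j) l x + Er q (Q / q) (u1 (cl j) l) x) := by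
    intro j hj l x
    have h1 := hvd j hj l x
    have h2 := Eb_diff q (Q / q) (v j l) (v (lo (cl j)) l) (Y (cl j) l) η hη (hvd j hj l) x
    have h3 := hu10 (cl j) l x
    have h4 := hEr0 (cl j) l x
    have h5 : Er q (Q / q) (fun y => if y ∈ Y (cl j) l then (1 : ℝ) else 0) x =
      Er q (Q / q) (u1 (cl j) l) x := rfl
    rw [h5] at h2
    simp only [hg, hyb]
    split_ifs
    · linarith
    · rename_i h6
      have e1 : v j l x - Eb q (Q / q) (v j l) x - (v (lo (cl j)) l x - Eb q (Q / q) (v (lo (cl j)) l) x) =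
        (v j l x - v (lo (cl j)) l x) - (Eb q (Q / q) (v j l) x - Eb q (Q / q) (v (lo (cl j)) l) x) := by ring
      rw [e1]
      exact (norm_sub_le _ _).trans (by linarith)
    · linarith
  -- pointwise bound
  set X : ℕ → Fin n → ZMod Q → ℝ := fun c l => AR Q (P l) (u1 c l) with hX
  set Z : ℕ → Fin n → ZMod Q → ℝ := fun c l => AR Q (P l) (Er q (Q / q) (u1 c l)) with hZ
  set G : ℕ → ZMod Q → ℝ := fun c ρ => 3 * ‖AA Q P (g (lo c)) ρ‖ ^ 2 +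
    (6 * n * (2 ^ (n + 1)) ^ 2) * ∑ l, (X c l ρ ^ 2 + Z c l ρ ^ 2) with hG
  have hG0 : ∀ c ρ, 0 ≤ G c ρ := fun c ρ => by
    simp only [hG]
    positivity
  have hpt : ∀ ρ : ZMod Q, (fmax (Icc a b) (fun j => ‖AA Q P (g j) ρ‖)) ^ 2 ≤
      (K₁ : ℝ) * η ^ 2 + ∑ c ∈ range m, G c ρ := by
    intro ρ
    refine fmax_sq_le (add_nonneg (by positivity) (sum_nonneg (fun c _ => hG0 c ρ))) (fun j hj => ?_)
    obtain ⟨h0, -⟩ := hcl j hj
    have h1 := AA_diff Q P (g j) (g (lo (cl j))) _ (hg2 j) (hg2 _) (hgd j hj) ρ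
    have h2 : ∀ l, AR Q (P l) (fun x => 2 * η + 2 * (u1 (cl j) l x + Er q (Q / q) (u1 (cl j) l) x)) ρ =
        2 * η + 2 * (X (cl j) l ρ + Z (cl j) l ρ) := fun l => AR_lin Q hQ1 (P l) η _ _ ρ
    rw [sum_congr rfl (fun l _ => h2 l), sum_add_distrib, ← mul_sum, ← mul_sum, sum_const, card_univ,
      Fintype.card_fin, nsmul_eq_mul] at h1
    set Sg : ℝ := ∑ l, (X (cl j) l ρ + Z (cl j) l ρ) with hSg
    have h3 : ‖AA Q P (g j) ρ‖ ≤ ‖AA Q P (g (lo (cl j))) ρ‖ + (2 ^ (n + 1) * n) * η + 2 ^ (n + 1) * Sg := by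
      refine h1.trans (le_of_eq ?_)
      rw [pow_succ]
      ring
    have h4 : ‖AA Q P (g j) ρ‖ ^ 2 ≤ (‖AA Q P (g (lo (cl j))) ρ‖ + (2 ^ (n + 1) * n) * η + 2 ^ (n + 1) * Sg) ^ 2 :=
      pow_le_pow_left₀ (norm_nonneg _) h3 2
    have h5 := h4.trans (sq3 _ _ _)
    have h6 : Sg ^ 2 ≤ n * ∑ l, (X (cl j) l ρ + Z (cl j) l ρ) ^ 2 := by
      have := sq_sum_le_card_mul_sum_sq (s := (univ : Finset (Fin n))) (f := fun l => X (cl j) l ρ + Z (cl j) l ρ)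
      rwa [card_univ, Fintype.card_fin] at this
    have h7 : ∑ l, (X (cl j) l ρ + Z (cl j) l ρ) ^ 2 ≤ 2 * ∑ l, (X (cl j) l ρ ^ 2 + Z (cl j) l ρ ^ 2) := by
      rw [mul_sum]
      refine sum_le_sum (fun l _ => ?_)
      nlinarith [sq_nonneg (X (cl j) l ρ - Z (cl j) l ρ)]
    have h8 : Sg ^ 2 ≤ n * (2 * ∑ l, (X (cl j) l ρ ^ 2 + Z (cl j) l ρ ^ 2)) :=
      h6.trans (mul_le_mul_of_nonneg_left h7 (Nat.cast_nonneg n))
    have h9 : 3 * (2 ^ (n + 1) * Sg) ^ 2 ≤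
        (6 * n * (2 ^ (n + 1)) ^ 2) * ∑ l, (X (cl j) l ρ ^ 2 + Z (cl j) l ρ ^ 2) := by
      have := mul_le_mul_of_nonneg_left h8 (by positivity : (0 : ℝ) ≤ 3 * (2 ^ (n + 1)) ^ 2)
      rw [mul_pow]
      calc 3 * ((2 ^ (n + 1)) ^ 2 * Sg ^ 2) = 3 * (2 ^ (n + 1)) ^ 2 * Sg ^ 2 := by ring
        _ ≤ _ := this
        _ = _ := by ring
    have h10 : ‖AA Q P (g j) ρ‖ ^ 2 ≤ (K₁ : ℝ) * η ^ 2 + G (cl j) ρ := by
      have e2 : (K₁ : ℝ) * η ^ 2 = 3 * (2 ^ (n + 1) * n * η) ^ 2 := by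
        rw [hK₁]
        push_cast
        ring
      rw [e2]
      simp only [hG]
      linarith
    refine h10.trans ?_
    have h11 : G (cl j) ρ ≤ ∑ c ∈ range m, G c ρ :=
      single_le_sum (f := fun c => G c ρ) (fun c _ => hG0 c ρ) (mem_range.mpr h0)
    linarith
  -- averages
  have hX2 : ∀ c l, avr (fun ρ => X c l ρ ^ 2) ≤ (C₁ : ℝ) / (T * R) := by
    intro c l
    have h1 := hCl l Q R hR (Y c l) (hYnat c l)
    refine h1.trans ?_
    have h2 : (Cl l : ℝ) * (((Y c l).card : ℝ) / Q) ≤ C₁ * (1 / T) :=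
      mul_le_mul (by exact_mod_cast hle l) (hYcard c l) (by positivity) (by positivity)
    calc (Cl l : ℝ) * (((Y c l).card : ℝ) / Q) / R ≤ C₁ * (1 / T) / R := div_le_div_of_nonneg_right h2 hR0.le
      _ = (C₁ : ℝ) / (T * R) := by
        field_simp
  have hZ2 : ∀ c l, avr (fun ρ => Z c l ρ ^ 2) ≤ (C₁ : ℝ) / (T * R) := fun c l =>
    (avr_AR_Er Q q (Q / q) (P l) (u1 c l)).trans (hX2 c l)
  have hA2 : ∀ c, avr (fun ρ => ‖AA Q P (g (lo c)) ρ‖ ^ 2) ≤ (C₃ : ℝ) / (T * R) := by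
    intro c
    have h1 : 2 ≤ R ^ (C₁ + 1) := by
      calc 2 ≤ R := hR
        _ = R ^ 1 := (pow_one R).symm
        _ ≤ R ^ (C₁ + 1) := Nat.pow_le_pow_right (by omega) (by omega)
    have h2 : ∀ r, 1 ≤ r → r ≤ (R ^ (C₁ + 1)) ^ C₃ → r ∣ q := by
      intro r hr1 hr2
      refine hr r hr1 (hr2.trans ?_)
      rw [← pow_mul]
      exact Nat.pow_le_pow_right (by omega) (by omega)
    have h3 := hC₃ Q q (R ^ (C₁ + 1)) h1 hqQ h2 i (v (lo c)) (hv (lo c))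
    refine h3.trans (le_of_eq ?_)
    rw [hT]
    push_cast
    rw [pow_succ]
  have hGav : ∀ c, avr (G c) ≤ (K₃ : ℝ) / (T * R) := by
    intro c
    have e3 : avr (G c) = 3 * avr (fun ρ => ‖AA Q P (g (lo c)) ρ‖ ^ 2) +
        (6 * n * (2 ^ (n + 1)) ^ 2) * ∑ l, (avr (fun ρ => X c l ρ ^ 2) + avr (fun ρ => Z c l ρ ^ 2)) := by
      simp only [hG]
      rw [avr_add, avr_mul_left, avr_mul_left, avr_sum]
      congr 2
      refine sum_congr rfl (fun l _ => ?_)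
      rw [avr_add]
    rw [e3]
    have h1 : ∑ l, (avr (fun ρ => X c l ρ ^ 2) + avr (fun ρ => Z c l ρ ^ 2)) ≤ n * (2 * ((C₁ : ℝ) / (T * R))) := by
      refine (sum_le_sum (fun l _ => add_le_add (hX2 c l) (hZ2 c l))).trans (le_of_eq ?_)
      rw [sum_const, card_univ, Fintype.card_fin, nsmul_eq_mul]
      ring
    have h2 := mul_le_mul_of_nonneg_left h1 (by positivity : (0 : ℝ) ≤ 6 * n * (2 ^ (n + 1)) ^ 2)
    have h3 := hA2 c
    have e4 : (K₃ : ℝ) / (T * R) = 3 * ((C₃ : ℝ) / (T * R)) +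
        6 * n * (2 ^ (n + 1)) ^ 2 * (n * (2 * ((C₁ : ℝ) / (T * R)))) := by
      rw [hK₃]
      push_cast
      ring
    rw [e4]
    linarith
  have hfin : avr (fun ρ : ZMod Q => (fmax (Icc a b) (fun j => ‖AA Q P (g j) ρ‖)) ^ 2) ≤
      (K₁ : ℝ) * η ^ 2 + m * ((K₃ : ℝ) / (T * R)) := by
    refine (avr_mono hpt).trans ?_
    rw [avr_add, avr_const, avr_sum]
    have h1 : ∑ c ∈ range m, avr (G c) ≤ m * ((K₃ : ℝ) / (T * R)) := by
      refine (sum_le_sum (fun c _ => hGav c)).trans (le_of_eq ?_)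
      rw [sum_const, card_range, nsmul_eq_mul]
    linarith
  have h1 : (m : ℝ) * ((K₃ : ℝ) / (T * R)) ≤ K₃ * ((1 + ν) / R) := by
    have h2 : (m : ℝ) ≤ (1 + ν) * T := by
      refine hm.trans ?_
      nlinarith
    calc (m : ℝ) * ((K₃ : ℝ) / (T * R)) ≤ ((1 + ν) * T) * ((K₃ : ℝ) / (T * R)) :=
          mul_le_mul_of_nonneg_right h2 (by positivity)
      _ = K₃ * ((1 + ν) / R) := by
        field_simp
  have h3 : 0 ≤ (1 + ν) / R := div_nonneg (by linarith) hR0.le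
  have h4 : 0 ≤ η ^ 2 := sq_nonneg η
  have h5 : (0 : ℝ) ≤ ((C₁ + 1) * C₃ : ℕ) := Nat.cast_nonneg _
  have h6 : (0 : ℝ) ≤ K₃ := Nat.cast_nonneg _
  have h7 : (0 : ℝ) ≤ K₁ := Nat.cast_nonneg _
  refine hfin.trans ((fin_ineq _ _ _ _ _ _ h5 h6 h7 h3 h4 h1).trans (le_of_eq ?_))
  rw [Nat.cast_add ((C₁ + 1) * C₃ + K₃) K₁, Nat.cast_add ((C₁ + 1) * C₃) K₃]

end Pool.Agent.EQD.Lo
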