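import Pool.Agent.Lib.EQD.One

/-!
# EQD.XAll: from scale sequences to all lengths

PROOF.
* `xall` (convergence along all `N`). For `r ≥ 1`, `a < r` let `N^{a,r} j = 2 ^ j + a 2 ^ j / r` (natural division), a scale sequence (`Sc`). For `a, a' < r` let also `N j = N^{a,r} j` for even `j` and
  `N^{a',r} j` for odd `j`. For a.e. `x` the averages converge along all these countably many scale sequences; so for fixed `x` all the limits agree with the limit `L` along `2 ^ j`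
  (`a = 0`; the mixed sequence has a limit, which equals both). Let `r ≥ 1`, and `N ∈ [2 ^ j, 2 ^ (j+1))`; choose `a < r` maximal with `N^{a,r} j ≤ N`; then `N - N^{a,r} j ≤ 2 ^ j / r + 1`, and
  `‖AX N f x - AX N' f x‖ ≤ 2 (N - N') / N` for `N' ≤ N` (functions bounded by one) gives `≤ 2 / r + 2 / 2 ^ j`. So `limsup_N ‖AX N f x - L‖ ≤ 2 / r` for every `r`.
-/

set_option autoImplicit false

open Finset Polynomial MeasureTheory Filter Topology
open scoped ENNReal NNReal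

namespace Pool.Agent.EQD.Lo

open Pool.Agent.HLT Pool.Agent.NLT Pool.Agent.NLG

namespace XAllAux

/-- Averages over nearby lengths. -/
theorem near (F : ℕ → ℂ) (hF : ∀ t, ‖F t‖ ≤ 1) (N' N : ℕ) (h1 : 1 ≤ N') (h : N' ≤ N) :
    ‖tv N F - tv N' F‖ ≤ 2 * ((N : ℝ) - N') / N := by
  obtain ⟨k, rfl⟩ := Nat.exists_eq_add_of_le h
  have hN' : (0 : ℝ) < N' := by exact_mod_cast h1
  have hN : (0 : ℝ) < ((N' + k : ℕ) : ℝ) := by
    have : 0 < N' + k := by omega
    exact_mod_cast this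
  have hc : ((N' + k : ℕ) : ℂ) ≠ 0 := by exact_mod_cast hN.ne'
  have hc' : (N' : ℂ) ≠ 0 := by exact_mod_cast hN'.ne'
  have e : tv (N' + k) F - tv N' F =
      (∑ t ∈ range k, F (N' + t)) / ((N' + k : ℕ) : ℂ) -
        (∑ t ∈ range N', F t) * ((k : ℂ) / (N' * ((N' + k : ℕ) : ℂ))) := by
    unfold tv
    rw [Finset.sum_range_add]
    push_cast at hc ⊢
    field_simp
    ring
  rw [e]
  have b1 : ‖∑ t ∈ range k, F (N' + t)‖ ≤ k := by
    refine (norm_sum_le _ _).trans ?_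
    refine (Finset.sum_le_sum fun t _ => hF _).trans ?_
    simp
  have b2 : ‖∑ t ∈ range N', F t‖ ≤ N' := by
    refine (norm_sum_le _ _).trans ?_
    refine (Finset.sum_le_sum fun t _ => hF _).trans ?_
    simp
  refine (norm_sub_le _ _).trans ?_
  rw [norm_div, norm_mul, norm_div, norm_mul, Complex.norm_natCast, Complex.norm_natCast,
    Complex.norm_natCast]
  have c1 : ‖∑ t ∈ range k, F (N' + t)‖ / ((N' + k : ℕ) : ℝ) ≤ k / ((N' + k : ℕ) : ℝ) := by
    gcongr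
  have c2 : ‖∑ t ∈ range N', F t‖ * ((k : ℝ) / (N' * ((N' + k : ℕ) : ℝ))) ≤
      k / ((N' + k : ℕ) : ℝ) := by
    refine (mul_le_mul_of_nonneg_right b2 (by positivity)).trans (le_of_eq ?_)
    field_simp
  have c3 : 2 * (((N' + k : ℕ) : ℝ) - N') / ((N' + k : ℕ) : ℝ) =
      k / ((N' + k : ℕ) : ℝ) + k / ((N' + k : ℕ) : ℝ) := by
    push_cast
    ring
  rw [c3]
  exact add_le_add c1 c2

/-- The scale sequences. -/
def sq (r a j : ℕ) : ℕ := 2 ^ j + a * 2 ^ j / r

theorem sq_zero (r j : ℕ) : sq r 0 j = 2 ^ j := by simp [sq]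

theorem sc_sq (r a : ℕ) (ha : a < r) : Sc (sq r a) := by
  intro j
  have h : a * 2 ^ j / r < 2 ^ j := by
    rw [Nat.div_lt_iff_lt_mul (by omega), mul_comm]
    exact Nat.mul_lt_mul_of_pos_left ha (by positivity)
  refine ⟨Nat.le_add_right _ _, ?_⟩
  rw [pow_succ]
  unfold sq
  omega

/-- The mixed scale sequences. -/
def mx (r a j : ℕ) : ℕ := if Even j then sq r a j else 2 ^ j

theorem sc_mx (r a : ℕ) (ha : a < r) : Sc (mx r a) := by
  intro j
  unfold mx
  split_ifs with h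
  · exact sc_sq r a ha j
  · exact ⟨le_rfl, Nat.pow_lt_pow_right (by norm_num) (Nat.lt_succ_self j)⟩

/-- The deterministic part. -/
theorem det (F : ℕ → ℂ) (hF : ∀ t, ‖F t‖ ≤ 1)
    (h1 : ∀ r a : ℕ, a < r → ∃ L : ℂ, Tendsto (fun j => tv (sq r a j) F) atTop (𝓝 L))
    (h2 : ∀ r a : ℕ, a < r → ∃ L : ℂ, Tendsto (fun j => tv (mx r a j) F) atTop (𝓝 L)) :
    ∃ L : ℂ, Tendsto (fun N : ℕ => tv N F) atTop (𝓝 L) := by
  obtain ⟨L, hL⟩ := h1 1 0 (by norm_num)
  have hL' : Tendsto (fun j => tv (2 ^ j) F) atTop (𝓝 L) := by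
    refine hL.congr fun j => ?_
    rw [sq_zero]
  have hodd : Tendsto (fun j : ℕ => 2 * j + 1) atTop atTop :=
    tendsto_atTop_mono (fun j => by simp only [id]; omega) tendsto_id
  have heven : Tendsto (fun j : ℕ => 2 * j) atTop atTop :=
    tendsto_atTop_mono (fun j => by simp only [id]; omega) tendsto_id
  have hall : ∀ r a : ℕ, a < r → Tendsto (fun j => tv (sq r a j) F) atTop (𝓝 L) := by
    intro r a ha
    obtain ⟨L1, hL1⟩ := h1 r a ha
    obtain ⟨L2, hL2⟩ := h2 r a ha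
    have e1 : L2 = L := by
      refine tendsto_nhds_unique (hL2.comp hodd) ((hL'.comp hodd).congr fun j => ?_)
      have : ¬ Even (2 * j + 1) := by
        rw [Nat.not_even_iff_odd]; exact odd_two_mul_add_one j
      simp only [Function.comp, mx, if_neg this]
    have e2 : L1 = L2 := by
      refine tendsto_nhds_unique (hL1.comp heven) ((hL2.comp heven).congr fun j => ?_)
      have : Even (2 * j) := even_two_mul j
      simp only [Function.comp, mx, if_pos this]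
    rw [e2, e1] at hL1
    exact hL1
  refine ⟨L, ?_⟩
  rw [Metric.tendsto_atTop]
  intro ε hε
  obtain ⟨r, hr⟩ := exists_nat_gt (8 / ε)
  have hr0 : (0 : ℝ) < r := lt_trans (by positivity) hr
  have hr1 : 0 < r := by exact_mod_cast hr0
  have h8 : 2 / (r : ℝ) < ε / 4 := by
    rw [div_lt_iff₀ hr0]
    rw [div_lt_iff₀ hε] at hr
    linarith
  -- a common threshold
  have hev : ∀ᶠ j in atTop, ∀ a ∈ range r, dist (tv (sq r a j) F) L < ε / 4 := by
    rw [Filter.eventually_all_finset]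
    intro a ha
    exact (Metric.tendsto_nhds.mp (hall r a (mem_range.mp ha))) (ε / 4) (by positivity)
  have hev2 : ∀ᶠ j : ℕ in atTop, (2 : ℝ) / 2 ^ j < ε / 4 := by
    have h3 : Tendsto (fun j : ℕ => (2 : ℝ) / 2 ^ j) atTop (𝓝 0) :=
      tendsto_const_nhds.div_atTop (tendsto_pow_atTop_atTop_of_one_lt (by norm_num))
    exact h3.eventually_lt_const (by positivity)
  obtain ⟨J, hJ⟩ := Filter.eventually_atTop.mp (hev.and hev2)
  refine ⟨2 ^ J, fun N hN => ?_⟩
  have hN0 : N ≠ 0 := by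
    have : 0 < 2 ^ J := by positivity
    omega
  set j := Nat.log 2 N with hj
  have hjJ : J ≤ j := (Nat.le_log_iff_pow_le (by norm_num) hN0).mpr hN
  have hjN : 2 ^ j ≤ N := Nat.pow_log_le_self 2 hN0
  have hNj : N < 2 ^ (j + 1) := Nat.lt_pow_succ_log_self (by norm_num) N
  obtain ⟨hJ1, hJ2⟩ := hJ j hjJ
  have h2j : 0 < 2 ^ j := by positivity
  set a := (N - 2 ^ j) * r / 2 ^ j with ha
  have har : a < r := by
    rw [ha, Nat.div_lt_iff_lt_mul h2j, mul_comm]
    refine Nat.mul_lt_mul_of_pos_left ?_ hr1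
    rw [pow_succ] at hNj
    omega
  have hle : sq r a j ≤ N := by
    have h3 : a * 2 ^ j / r ≤ N - 2 ^ j := by
      apply Nat.div_le_of_le_mul
      calc a * 2 ^ j ≤ (N - 2 ^ j) * r := Nat.div_mul_le_self _ _
        _ = r * (N - 2 ^ j) := mul_comm _ _
    unfold sq
    omega
  have hge : (N : ℝ) - sq r a j ≤ 2 ^ j / r + 1 := by
    have h3 : (N - 2 ^ j) * r < (a + 1) * 2 ^ j := by
      have := Nat.lt_div_mul_add (a := (N - 2 ^ j) * r) (b := 2 ^ j) h2j
      rw [← ha] at this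
      rw [add_mul, one_mul]
      exact this
    have h4 : a * 2 ^ j < (a * 2 ^ j / r + 1) * r := by
      have := Nat.lt_div_mul_add (a := a * 2 ^ j) (b := r) hr1
      rw [add_mul, one_mul]
      exact this
    have h3r : ((N : ℝ) - 2 ^ j) * r < (a + 1) * 2 ^ j := by
      have h5 : (((N - 2 ^ j) * r : ℕ) : ℝ) < (((a + 1) * 2 ^ j : ℕ) : ℝ) := by exact_mod_cast h3
      rw [Nat.cast_mul, Nat.cast_sub hjN] at h5
      push_cast at h5
      exact h5
    have h4r : (a : ℝ) * 2 ^ j < (((a * 2 ^ j / r : ℕ) : ℝ) + 1) * r := by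
      exact_mod_cast h4
    have h6 : (sq r a j : ℝ) = 2 ^ j + ((a * 2 ^ j / r : ℕ) : ℝ) := by
      unfold sq
      push_cast
      rfl
    rw [h6]
    have h7 : ((N : ℝ) - 2 ^ j - ((a * 2 ^ j / r : ℕ) : ℝ) - 1) * r ≤ 2 ^ j := by
      nlinarith
    have h8' : (N : ℝ) - 2 ^ j - ((a * 2 ^ j / r : ℕ) : ℝ) - 1 ≤ 2 ^ j / r := by
      rw [le_div_iff₀ hr0]
      exact h7
    linarith
  have hsq1 : 1 ≤ sq r a j := le_trans h2j (Nat.le_add_right _ _)
  have hn := near F hF (sq r a j) N hsq1 hle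
  have hNr : (2 : ℝ) ^ j ≤ N := by exact_mod_cast hjN
  have h2jr : (0 : ℝ) < 2 ^ j := by positivity
  have hn2 : 2 * ((N : ℝ) - sq r a j) / N ≤ 2 / r + 2 / 2 ^ j := by
    have hN0r : (0 : ℝ) < N := lt_of_lt_of_le h2jr hNr
    rw [div_le_iff₀ hN0r]
    have h9 : (2 / (r : ℝ) + 2 / 2 ^ j) * 2 ^ j ≤ (2 / (r : ℝ) + 2 / 2 ^ j) * N := by
      gcongr
    refine le_trans ?_ h9
    have h10 : (2 / (r : ℝ) + 2 / 2 ^ j) * 2 ^ j = 2 * (2 ^ j / r + 1) := by
      field_simp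
    rw [h10]
    linarith
  have hd := hJ1 a (mem_range.mpr har)
  calc dist (tv N F) L ≤ dist (tv N F) (tv (sq r a j) F) + dist (tv (sq r a j) F) L :=
        dist_triangle _ _ _
    _ < (ε / 4 + ε / 4) + ε / 4 := by
        refine add_lt_add_of_le_of_lt ?_ hd
        rw [dist_eq_norm]
        linarith
    _ ≤ ε := by linarith

end XAllAux

theorem xall {n : ℕ} (P : Fin n → ℤ[X]) (X : Type) [MeasurableSpace X] (μ : Measure X) [IsProbabilityMeasure μ]
    (T : Equiv.Perm X) (f : Fin n → X → ℂ) (hf : ∀ l x, ‖f l x‖ ≤ 1)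
    (H : ∀ N : ℕ → ℕ, Sc N → ∀ᵐ x ∂μ, ∃ L : ℂ, Tendsto (fun j : ℕ => AX T (N j) P f x) atTop (𝓝 L)) :
    ∀ᵐ x ∂μ, ∃ L : ℂ, Tendsto (fun N : ℕ => AX T N P f x) atTop (𝓝 L) := by
  have h1 : ∀ᵐ x ∂μ, ∀ r a : ℕ, a < r → ∃ L : ℂ,
      Tendsto (fun j : ℕ => AX T (XAllAux.sq r a j) P f x) atTop (𝓝 L) := by
    rw [ae_all_iff]
    intro r
    rw [ae_all_iff]
    intro a
    rw [ae_all_iff]
    intro ha
    exact H _ (XAllAux.sc_sq r a ha)
  have h2 : ∀ᵐ x ∂μ, ∀ r a : ℕ, a < r → ∃ L : ℂ,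
      Tendsto (fun j : ℕ => AX T (XAllAux.mx r a j) P f x) atTop (𝓝 L) := by
    rw [ae_all_iff]
    intro r
    rw [ae_all_iff]
    intro a
    rw [ae_all_iff]
    intro ha
    exact H _ (XAllAux.sc_mx r a ha)
  filter_upwards [h1, h2] with x hx1 hx2
  refine XAllAux.det (fun t => ∏ i, f i ((T ^ ((P i).eval (t : ℤ))) x)) (fun t => ?_) hx1 hx2
  rw [norm_prod]
  exact Finset.prod_le_one (fun i _ => norm_nonneg _) fun i _ => hf i _

end Pool.Agent.EQD.Lo
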