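import Pool.Agent.Lib.EQD.Gain
import Pool.Agent.Lib.EQD.Hyb
import Pool.Agent.Lib.EQD.Max
import Pool.Agent.Lib.EQD.Energy
import Pool.Agent.Lib.EQD.DefsB

/-!
# EQD.T1a: one level: all widths may be replaced by long ones

`Q = QB B (t+1)`, `q = QB B t`, `g = Q / q`; short lengths `K j l` (`Kshort`), long lengths `Klong`.

PROOFS.
* `QB_pos`, `QB_dvd` (`(2^t)! ∣ (2^(t+1))!` and `B t ≤ B (t+1)`), `QB_mul`, `dvd_QB` (`r ≤ 2^t` divides `(2^t)!`, exponent `B t ≥ 1`),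
  `QB_le`: `(2^t)! ≤ (2^t)^(2^t) = 2^(t 2^t)`.
* `QB_small`: for every `A` there is `t₁` with `QB B (t+1) ^ A ≤ 2 ^ j` for all `t ≥ t₁`, `j ≥ 4 ^ (t+1)`: the exponent on the left is
  `≤ A B (t+1)² 2^(t+1) ≤ 4^(t+1)` for large `t`.
* `QB_tj`: the same for `QB B (tj j)`: `2 ^ tj j ≤ sqrt j`, exponent `≤ A B (tj j)² 2^(tj j) ≤ j` for large `j`.
* `levelA`. Let `F l = Eb Q (Kshort ..) (f l)`, `F' l = Eb q g (F l)`, `V l = Eb Q (Klong ..) (f l)`, `V' l = Eb q g (V l)` (all bounded by one), at scale `j`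
  with `N = N j`. Let `C₀` be the maximum of the constants of `L2gain`, `L2gain'` (the statements are monotone in the constant: if not obvious, use each with its own
  constant), `R = 2 ^ (t / C₁)` with `C₁ ≥ C₀`, so `R ^ C₀ ≤ 2 ^ t`, `R ≥ 2` for `t ≥ C₁`. Let `β = dlt - bk q g`: `mass β ≤ 2`, `Supp (N ^ D) β` (`q g = Q ≤ N`),
  `NS C₀ R (N ^ e i) β` by `NS_diff` (`r ≤ R ^ C₀ ≤ 2 ^ t` divides `q`; `16 R^(2 C₀) Q ≤ 2^j ≤ N ≤ N ^ e i` by `QB_small`), `R ^ C₀ ≤ N`.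
  By `AA_sub_hyb` the difference is `∑_l AA N P (hyb (hyb F F' i) (hyb V V' i) l)`. The slot `l` contains: for `l = i`: `cv β (F i - V i)`
  (`cv_dlt_sub_bk`, `Eb_sub`); for `l < i`: `F l - V l`; for `l > i`: `Eb q g (F l - V l)`. For `l = i` all other slots are bounded by one: `L2gain` gives
  `n2 ≤ C₀ n2 (F i - V i) / R`. For `l ≠ i` the slot `i` contains `cv β (F i)` or `cv β (V i)`, the others are bounded by one: `L2gain'` with the function
  `F l - V l` or `Eb q g (F l - V l)` (`n2_Eb_le`) in the slot `l`. So the sum over `j ∈ Icc a b` of the `n2` of the `l`-th term is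
  `≤ C₀ / R ∑_j n2 (F l - V l) ≤ C₀ / R * 400 (w + 1)` by `energy` with `A = 1 / (2 ^ (κ+2) Q)`, `w = e l + t + κ + 4` (`n2 (f l) ≤ 1`):
  `Kshort ≥ N ^ e / (2 ^ (κ+2) Q)` because `lam = N ^ e / 2 ^ κ ≥ 2 QB B T` (so `(lam / QB B T) * (QB B T / Q) ≥ lam / (2 Q)`, `lam ≥ N ^ e / 2 ^ (κ+1)`), here `T = tj j` and
  `QB_tj`; `Kshort ≤ lam / Q ≤ Klong`; `Klong ≤ 2 * N ^ e 2 ^ t / Q ≤ 2^(e (j+1) + t + 1) / Q`. Then `MaxLe.of_sum`, `MaxLe.sum` over `l`:
  bound `n * n * C₀ * 400 (D + t + κ + 5) / 2 ^ (t / C₁)`, and `(t + c) / 2^(t / C₁) ≤ C / 2 ^ (t / C)` for `C` large.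
-/

set_option autoImplicit false

open Finset Polynomial

namespace Pool.Agent.EQD.Lo

open Pool.Agent.HLT Pool.Agent.NLT Pool.Agent.NLG

lemma QB_pos (B t : ℕ) : 1 ≤ QB B t := Nat.pos_of_ne_zero (pow_ne_zero _ (Nat.factorial_ne_zero _))

lemma QB_dvd (B : ℕ) {t t' : ℕ} (h : t ≤ t') : QB B t ∣ QB B t' := by
  unfold QB
  have h1 : (2 ^ t).factorial ∣ (2 ^ t').factorial :=
    Nat.factorial_dvd_factorial (Nat.pow_le_pow_right (by norm_num) h)
  exact (pow_dvd_pow_of_dvd h1 _).trans (pow_dvd_pow _ (Nat.mul_le_mul_left B h))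

lemma QB_mul (B t : ℕ) : QB B t * (QB B (t + 1) / QB B t) = QB B (t + 1) :=
  Nat.mul_div_cancel' (QB_dvd B (Nat.le_succ t))

lemma dvd_QB {B t r : ℕ} (hB : 1 ≤ B) (ht : 1 ≤ t) (hr : 1 ≤ r) (h : r ≤ 2 ^ t) : r ∣ QB B t := by
  unfold QB
  exact dvd_pow (Nat.dvd_factorial hr h) (Nat.mul_pos hB ht).ne'

lemma QB_le (B t : ℕ) : QB B t ≤ 2 ^ (B * t ^ 2 * 2 ^ t) := by
  unfold QB
  have h1 : (2 ^ t).factorial ≤ 2 ^ (t * 2 ^ t) := by
    refine (Nat.factorial_le_pow _).trans ?_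
    rw [← pow_mul]
  refine (Nat.pow_le_pow_left h1 _).trans ?_
  rw [← pow_mul]
  apply le_of_eq
  congr 1
  ring

namespace T1aAux

lemma cube_le (s : ℕ) (h : 10 ≤ s) : s ^ 3 ≤ 2 ^ s := by
  induction s, h using Nat.le_induction with
  | base => norm_num
  | succ s hs ih =>
    have h1 : (s + 1) ^ 3 ≤ 2 * s ^ 3 := by nlinarith [mul_self_nonneg (s : ℤ), Nat.mul_le_mul hs hs, Nat.mul_le_mul (Nat.mul_le_mul hs hs) hs, Nat.mul_le_mul (le_refl (s * s)) hs]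
    calc (s + 1) ^ 3 ≤ 2 * s ^ 3 := h1
      _ ≤ 2 * 2 ^ s := Nat.mul_le_mul_left 2 ih
      _ = 2 ^ (s + 1) := by ring

lemma quad_le (K s : ℕ) (h : K + 10 ≤ s) : K * s ^ 2 ≤ 2 ^ s := by
  calc K * s ^ 2 ≤ s * s ^ 2 := Nat.mul_le_mul_right _ (by omega)
    _ = s ^ 3 := by ring
    _ ≤ 2 ^ s := cube_le s (by omega)

lemma pow_QB (A B t : ℕ) : QB B t ^ A ≤ 2 ^ (A * B * t ^ 2 * 2 ^ t) := by
  refine (Nat.pow_le_pow_left (QB_le B t) A).trans ?_
  rw [← pow_mul]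
  apply le_of_eq
  congr 1
  ring

end T1aAux

lemma QB_small (A B : ℕ) : ∃ t₁ : ℕ, ∀ t, t₁ ≤ t → ∀ j, 4 ^ (t + 1) ≤ j → QB B (t + 1) ^ A ≤ 2 ^ j := by
  refine ⟨A * B + 10, fun t ht j hj => ?_⟩
  refine (T1aAux.pow_QB A B (t + 1)).trans (Nat.pow_le_pow_right (by norm_num) ?_)
  refine le_trans ?_ hj
  have h1 := T1aAux.quad_le (A * B) (t + 1) (by omega)
  calc A * B * (t + 1) ^ 2 * 2 ^ (t + 1) ≤ 2 ^ (t + 1) * 2 ^ (t + 1) := Nat.mul_le_mul_right _ h1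
    _ = 4 ^ (t + 1) := by
      rw [← mul_pow]
      norm_num

lemma QB_tj (A B : ℕ) : ∃ j₁ : ℕ, ∀ j, j₁ ≤ j → QB B (tj j) ^ A ≤ 2 ^ j := by
  obtain ⟨s₁, hs₁⟩ : ∃ s₁ : ℕ, ∀ s, s₁ ≤ s → A * B * s ^ 2 ≤ 2 ^ s :=
    ⟨A * B + 10, fun s hs => T1aAux.quad_le (A * B) s hs⟩
  refine ⟨A * B * s₁ ^ 2 * 2 ^ s₁ + 1, fun j hj => ?_⟩
  refine (T1aAux.pow_QB A B (tj j)).trans (Nat.pow_le_pow_right (by norm_num) ?_)
  have hj0 : j ≠ 0 := by omega
  have h2 : 2 ^ tj j * 2 ^ tj j ≤ j := by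
    rw [← pow_add]
    refine le_trans (Nat.pow_le_pow_right (by norm_num) ?_) (Nat.pow_log_le_self 2 hj0)
    unfold tj
    omega
  rcases Nat.lt_or_ge (tj j) s₁ with h | h
  · have h3 : A * B * tj j ^ 2 * 2 ^ tj j ≤ A * B * s₁ ^ 2 * 2 ^ s₁ :=
      Nat.mul_le_mul (Nat.mul_le_mul_left _ (Nat.pow_le_pow_left h.le 2))
        (Nat.pow_le_pow_right (by norm_num) h.le)
    omega
  · exact (Nat.mul_le_mul_right _ (hs₁ _ h)).trans h2

/-- Length (number of terms) of the short averages of modulus `QB B (t+1)` at the scale `j`. -/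
def Kshort (B κ t j : ℕ) (Nj e : ℕ) : ℕ := Nj ^ e / 2 ^ κ / QB B (tj j) * (QB B (tj j) / QB B (t + 1))

/-- Length of the long averages. -/
def Klong (B t : ℕ) (Nj e : ℕ) : ℕ := Nj ^ e * 2 ^ t / QB B (t + 1) + 1

/-- The short averages of the levels `t + 1` and `t` in terms of `Eb`. -/
lemma Ew_eq {M : ℕ} [NeZero M] (B κ t j Nj e : ℕ) (h : t + 1 ≤ tj j) (f : ZMod M → ℂ) :
    Ew B (t + 1) (tj j) (Nj ^ e / 2 ^ κ) f = Eb (QB B (t + 1)) (Kshort B κ t j Nj e) f ∧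
    ∀ x, Ew B t (tj j) (Nj ^ e / 2 ^ κ) f x =
      Eb (QB B t) (QB B (t + 1) / QB B t) (Eb (QB B (t + 1)) (Kshort B κ t j Nj e) f) x := by
  refine ⟨rfl, fun x => ?_⟩
  have h1 : QB B (t + 1) = QB B t * (QB B (t + 1) / QB B t) := (QB_mul B t).symm
  have h2 := Eb_comp (QB B t) (QB B (t + 1) / QB B t) (Kshort B κ t j Nj e) f x
  rw [← h1] at h2
  rw [h2]
  unfold Ew Kshort
  have h3 : QB B (t + 1) / QB B t * (QB B (tj j) / QB B (t + 1)) = QB B (tj j) / QB B t := by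
    obtain ⟨v, hv⟩ := QB_dvd B h
    obtain ⟨u, hu⟩ := QB_dvd B (Nat.le_succ t)
    have hu' : QB B (t + 1) = QB B t * u := hu
    have p1 := QB_pos B (t + 1)
    have p0 := QB_pos B t
    have e1 : QB B (tj j) / QB B (t + 1) = v := by
      rw [hv]; exact Nat.mul_div_cancel_left v p1
    have e2 : QB B (t + 1) / QB B t = u := by
      rw [hu']; exact Nat.mul_div_cancel_left u p0
    have e3 : QB B (tj j) / QB B t = u * v := by
      rw [hv, hu', mul_assoc]; exact Nat.mul_div_cancel_left (u * v) p0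
    rw [e1, e2, e3]
  congr 1
  rw [← h3]
  ring

namespace T1aAux

/-- The lengths: all the inequalities needed for `energy`. -/
lemma lens (B κ t j Nj e j₁ : ℕ) (he : 1 ≤ e) (hN : 2 ^ j ≤ Nj) (hN' : Nj < 2 ^ (j + 1)) (hj : 4 ^ (t + 1) ≤ j)
    (hj1 : ∀ j, j₁ ≤ j → QB B (tj j) ^ 2 ≤ 2 ^ j) (hjj : j₁ ≤ j) (hκ : 2 * κ + 2 ≤ j)
    (hQ : QB B (t + 1) ≤ 2 ^ j) :
    1 ≤ Kshort B κ t j Nj e ∧
    (1 / (2 ^ (κ + 2) * (QB B (t + 1) : ℝ))) * 2 ^ (e * j) ≤ Kshort B κ t j Nj e ∧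
    Kshort B κ t j Nj e ≤ Klong B t Nj e ∧
    (Klong B t Nj e : ℝ) ≤ (1 / (2 ^ (κ + 2) * (QB B (t + 1) : ℝ))) * 2 ^ (e * j + (e + t + κ + 3)) := by
  have hNpos : 1 ≤ Nj := le_trans Nat.one_le_two_pow hN
  have hNe : 2 ^ j ≤ Nj ^ e := by
    calc 2 ^ j ≤ Nj := hN
      _ = Nj ^ 1 := (pow_one _).symm
      _ ≤ Nj ^ e := Nat.pow_le_pow_right hNpos he
  have htj : t + 1 ≤ tj j := by
    unfold tj
    have h1 : 2 * (t + 1) ≤ Nat.log 2 j := by
      apply Nat.le_log_of_pow_le (by norm_num)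
      rw [pow_mul]
      exact hj
    omega
  obtain ⟨G, hG⟩ := QB_dvd B htj
  have hQ1 := QB_pos B (t + 1)
  have hT1 := QB_pos B (tj j)
  have hGdef : QB B (tj j) / QB B (t + 1) = G := by
    rw [hG]; exact Nat.mul_div_cancel_left G hQ1
  have hG1 : 1 ≤ G := by
    rcases Nat.eq_zero_or_pos G with h | h
    · rw [h, mul_zero] at hG; omega
    · exact h
  -- 2 QT 2^κ ≤ Nj^e
  have hbig : 2 * QB B (tj j) * 2 ^ κ ≤ Nj ^ e := by
    refine le_trans ?_ hNe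
    have h1 := hj1 j hjj
    have h2 : (2 ^ (κ + 1)) ^ 2 ≤ 2 ^ j := by
      rw [← pow_mul]
      exact Nat.pow_le_pow_right (by norm_num) (by omega)
    have h3 : (2 ^ (κ + 1) * QB B (tj j)) ^ 2 ≤ (2 ^ j) ^ 2 := by
      rw [mul_pow, sq (2 ^ j)]
      exact Nat.mul_le_mul h2 h1
    have h4 := (Nat.pow_le_pow_iff_left (by norm_num : (2 : ℕ) ≠ 0)).mp h3
    calc 2 * QB B (tj j) * 2 ^ κ = 2 ^ (κ + 1) * QB B (tj j) := by ring
      _ ≤ 2 ^ j := h4
  set lam := Nj ^ e / 2 ^ κ with hlam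
  have hlam2 : 2 * QB B (tj j) ≤ lam := (Nat.le_div_iff_mul_le (by positivity)).mpr hbig
  have hKs : Kshort B κ t j Nj e = lam / QB B (tj j) * G := by
    unfold Kshort; rw [hGdef]
  have hfl : 1 ≤ lam / QB B (tj j) := (Nat.le_div_iff_mul_le hT1).mpr (by omega)
  refine ⟨?_, ?_, ?_, ?_⟩
  · rw [hKs]; exact Nat.mul_pos hfl hG1
  · -- lower bound
    have hTr : (0 : ℝ) < QB B (tj j) := by exact_mod_cast hT1
    have hQr : (0 : ℝ) < QB B (t + 1) := by exact_mod_cast hQ1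
    have hGr : (0 : ℝ) < G := by exact_mod_cast hG1
    have c1 : (lam : ℝ) < ((lam / QB B (tj j) : ℕ) + 1 : ℝ) * QB B (tj j) := by
      have := Nat.lt_div_mul_add hT1 (a := lam)
      have h5 : lam < lam / QB B (tj j) * QB B (tj j) + QB B (tj j) := this
      have h6 : (lam : ℝ) < ((lam / QB B (tj j) : ℕ) : ℝ) * QB B (tj j) + QB B (tj j) := by exact_mod_cast h5
      linarith
    have c2 : (2 : ℝ) * QB B (tj j) ≤ lam := by exact_mod_cast hlam2
    have c3 : (lam : ℝ) ≤ 2 * (((lam / QB B (tj j) : ℕ) : ℝ) * QB B (tj j)) := by nlinarith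
    have c4 : ((Nj ^ e : ℕ) : ℝ) ≤ 2 * 2 ^ κ * lam := by
      have h5 : Nj ^ e < lam * 2 ^ κ + 2 ^ κ := Nat.lt_div_mul_add (by positivity)
      have h6 : 2 ^ κ ≤ lam * 2 ^ κ := Nat.le_mul_of_pos_left _ (by omega)
      have h7 : Nj ^ e ≤ 2 * 2 ^ κ * lam := by
        have : 2 * 2 ^ κ * lam = lam * 2 ^ κ + lam * 2 ^ κ := by ring
        omega
      exact_mod_cast h7
    have c5 : ((2 : ℝ)) ^ (e * j) ≤ ((Nj ^ e : ℕ) : ℝ) := by
      have h5 : 2 ^ (e * j) ≤ Nj ^ e := by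
        rw [mul_comm, pow_mul]
        exact Nat.pow_le_pow_left hN e
      exact_mod_cast h5
    rw [hKs]
    push_cast
    have hGe : (QB B (tj j) : ℝ) = QB B (t + 1) * G := by rw [hG]; push_cast; ring
    rw [one_div, inv_mul_le_iff₀ (by positivity)]
    calc (2 : ℝ) ^ (e * j) ≤ ((Nj ^ e : ℕ) : ℝ) := c5
      _ ≤ 2 * 2 ^ κ * lam := c4
      _ ≤ 2 * 2 ^ κ * (2 * (((lam / QB B (tj j) : ℕ) : ℝ) * QB B (tj j))) :=
          mul_le_mul_of_nonneg_left c3 (by positivity)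
      _ = 2 ^ (κ + 2) * (QB B (t + 1) : ℝ) * (((lam / QB B (tj j) : ℕ) : ℝ) * G) := by
          rw [hGe]; ring
  · -- Ks ≤ Kl
    rw [hKs]
    unfold Klong
    refine le_trans ?_ (Nat.le_succ _)
    rw [Nat.le_div_iff_mul_le hQ1]
    have h5 : lam / QB B (tj j) * QB B (tj j) ≤ lam := Nat.div_mul_le_self _ _
    calc lam / QB B (tj j) * G * QB B (t + 1) = lam / QB B (tj j) * QB B (tj j) := by
          rw [mul_assoc, mul_comm G, ← hG]
      _ ≤ lam := h5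
      _ ≤ Nj ^ e := Nat.div_le_self _ _
      _ ≤ Nj ^ e * 2 ^ t := Nat.le_mul_of_pos_right _ (by positivity)
  · -- Kl
    have hQr : (0 : ℝ) < QB B (t + 1) := by exact_mod_cast hQ1
    unfold Klong
    have h5 : ((Nj ^ e * 2 ^ t / QB B (t + 1) : ℕ) : ℝ) ≤ ((Nj ^ e * 2 ^ t : ℕ) : ℝ) / QB B (t + 1) :=
      Nat.cast_div_le
    have h6 : (1 : ℝ) ≤ ((Nj ^ e * 2 ^ t : ℕ) : ℝ) / QB B (t + 1) := by
      rw [le_div_iff₀ hQr, one_mul]
      have : QB B (t + 1) ≤ Nj ^ e * 2 ^ t :=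
        hQ.trans (hNe.trans (Nat.le_mul_of_pos_right _ (by positivity)))
      exact_mod_cast this
    have h7 : ((Nj ^ e : ℕ) : ℝ) ≤ 2 ^ (e * j + e) := by
      have : Nj ^ e ≤ 2 ^ (e * j + e) := by
        calc Nj ^ e ≤ (2 ^ (j + 1)) ^ e := Nat.pow_le_pow_left hN'.le e
          _ = 2 ^ (e * j + e) := by rw [← pow_mul]; congr 1; ring
      exact_mod_cast this
    push_cast at h5 h6 h7 ⊢
    have h8 : ((Nj : ℝ) ^ e * 2 ^ t) / QB B (t + 1) ≤ (2 ^ (e * j + e) * 2 ^ t) / QB B (t + 1) := by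
      apply div_le_div_of_nonneg_right _ hQr.le
      exact mul_le_mul_of_nonneg_right h7 (by positivity)
    calc ((Nj ^ e * 2 ^ t / QB B (t + 1) : ℕ) : ℝ) + 1
        ≤ ((Nj : ℝ) ^ e * 2 ^ t) / QB B (t + 1) + ((Nj : ℝ) ^ e * 2 ^ t) / QB B (t + 1) :=
          add_le_add h5 h6
      _ ≤ (2 ^ (e * j + e) * 2 ^ t) / QB B (t + 1) + (2 ^ (e * j + e) * 2 ^ t) / QB B (t + 1) :=
          add_le_add h8 h8
      _ = 1 / (2 ^ (κ + 2) * (QB B (t + 1) : ℝ)) * 2 ^ (e * j + (e + t + κ + 3)) := by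
          have hp : (2 : ℝ) ^ (e * j + (e + t + κ + 3)) = 2 ^ (e * j + e) * 2 ^ t * 2 * 2 ^ (κ + 2) := by
            rw [← pow_add, ← pow_succ, ← pow_add]
            congr 1
            ring
          rw [hp]
          field_simp
          ring

end T1aAux

namespace T1aAux

section group

variable {M : ℕ} [NeZero M]

lemma n2_le_one {f : ZMod M → ℂ} (hf : Bd f) : n2 f ≤ 1 := by
  unfold n2
  refine avr_le fun x => ?_
  have h := hf x
  have h0 := norm_nonneg (f x)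
  nlinarith

lemma slot_eq {n : ℕ} (q g : ℕ) (F V : Fin n → ZMod M → ℂ) (i : Fin n) :
    hyb (hyb F (fun l => Eb q g (F l)) i) (hyb V (fun l => Eb q g (V l)) i) i =
      Function.update (fun l => if l < i then F l else Eb q g (V l)) i
        (cv (dlt - bk q g) (fun x => F i x - V i x)) := by
  funext l x
  by_cases h : l = i
  · subst h
    simp only [hyb, Function.update_self, lt_irrefl, if_false, if_true]
    rw [cv_dlt_sub_bk, Eb_sub]
    ring
  · rw [Function.update_of_ne h]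
    rcases lt_or_gt_of_ne h with h1 | h1
    · simp [hyb, h1]
    · have h2 : ¬ l < i := not_lt.mpr h1.le
      simp [hyb, h, h2]

lemma slot_lt {n : ℕ} (q g : ℕ) (F V : Fin n → ZMod M → ℂ) (i l : Fin n) (hl : l < i) :
    hyb (hyb F (fun l => Eb q g (F l)) i) (hyb V (fun l => Eb q g (V l)) i) l =
      Function.update (Function.update
        (fun k => if k < l then F k else if k ≤ i then V k else Eb q g (V k)) i
        (cv (dlt - bk q g) ((fun k => if k < l then F k else if k ≤ i then V k else Eb q g (V k)) i)))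
        l (fun x => F l x - V l x) := by
  funext k x
  by_cases h : k = l
  · subst h
    simp [hyb, hl]
  · rw [Function.update_of_ne h]
    by_cases h2 : k = i
    · subst h2
      have h3 : ¬ k < l := not_lt.mpr hl.le
      simp only [Function.update_self, h3, if_false, le_refl, if_true]
      rw [cv_dlt_sub_bk]
      simp [hyb, h, h3]
    · rw [Function.update_of_ne h2]
      rcases lt_or_gt_of_ne h with h1 | h1
      · have h4 : k < i := h1.trans hl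
        simp [hyb, h1, h4]
      · have h3 : ¬ k < l := not_lt.mpr h1.le
        rcases lt_or_gt_of_ne h2 with h4 | h4
        · simp [hyb, h, h3, h4, h4.le]
        · have h5 : ¬ k < i := not_lt.mpr h4.le
          have h6 : ¬ k ≤ i := not_le.mpr h4
          simp [hyb, h, h2, h3, h5, h6]

lemma slot_gt {n : ℕ} (q g : ℕ) (F V : Fin n → ZMod M → ℂ) (i l : Fin n) (hl : i < l) :
    hyb (hyb F (fun l => Eb q g (F l)) i) (hyb V (fun l => Eb q g (V l)) i) l =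
      Function.update (Function.update
        (fun k => if k ≤ i then F k else if k < l then Eb q g (F k) else Eb q g (V k)) i
        (cv (dlt - bk q g) ((fun k => if k ≤ i then F k else if k < l then Eb q g (F k) else Eb q g (V k)) i)))
        l (Eb q g (fun x => F l x - V l x)) := by
  funext k x
  by_cases h : k = l
  · subst h
    have h3 : ¬ k < i := not_lt.mpr hl.le
    have h4 : k ≠ i := ne_of_gt hl
    simp only [hyb, Function.update_self, lt_irrefl, if_false, if_true, h3, h4]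
    rw [Eb_sub]
  · rw [Function.update_of_ne h]
    by_cases h2 : k = i
    · subst h2
      simp only [Function.update_self, le_refl, if_true]
      rw [cv_dlt_sub_bk]
      simp [hyb, hl]
    · rw [Function.update_of_ne h2]
      rcases lt_or_gt_of_ne h with h1 | h1
      · rcases lt_or_gt_of_ne h2 with h4 | h4
        · simp [hyb, h1, h4, h4.le]
        · have h5 : ¬ k < i := not_lt.mpr h4.le
          have h6 : ¬ k ≤ i := not_le.mpr h4
          simp [hyb, h1, h2, h5, h6]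
      · have h3 : ¬ k < l := not_lt.mpr h1.le
        have h4 : i < k := hl.trans h1
        have h5 : ¬ k < i := not_lt.mpr h4.le
        have h6 : ¬ k ≤ i := not_le.mpr h4
        simp [hyb, h, h2, h3, h5, h6]

/-- The bound for one term. -/
lemma term_le {n D : ℕ} {P : Fin n → ℤ[X]} {e : Fin n → ℕ} {Ca Cb : ℕ}
    (hCa : ∀ (M : ℕ) [NeZero M] (N R : ℕ), 2 ≤ R → R ^ Ca ≤ N → ∀ (i : Fin n) (β : ℤ →₀ ℂ), mass β ≤ 4 →
      Supp (N ^ D) β → NS Ca R (N ^ e i) β → ∀ g : Fin n → ZMod M → ℂ, (∀ l, Bd (g l)) → ∀ F : ZMod M → ℂ,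
      n2 (AA N P (Function.update g i (cv β F))) ≤ (Ca : ℝ) * n2 F / R)
    (hCb : ∀ (M : ℕ) [NeZero M] (N R : ℕ), 2 ≤ R → R ^ Cb ≤ N → ∀ (i : Fin n) (β : ℤ →₀ ℂ), mass β ≤ 4 →
      Supp (N ^ D) β → NS Cb R (N ^ e i) β → ∀ g : Fin n → ZMod M → ℂ, (∀ l, Bd (g l)) → ∀ l, l ≠ i → ∀ F : ZMod M → ℂ,
      n2 (AA N P (Function.update (Function.update g i (cv β (g i))) l F)) ≤ (Cb : ℝ) * n2 F / R)
    (N R q g : ℕ) (hR : 2 ≤ R) (hRa : R ^ Ca ≤ N) (hRb : R ^ Cb ≤ N) (i : Fin n)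
    (hS : Supp (N ^ D) (dlt - bk q g)) (hNa : NS Ca R (N ^ e i) (dlt - bk q g))
    (hNb : NS Cb R (N ^ e i) (dlt - bk q g)) (F V : Fin n → ZMod M → ℂ) (hF : ∀ l, Bd (F l)) (hV : ∀ l, Bd (V l))
    (l : Fin n) :
    n2 (AA N P (hyb (hyb F (fun l => Eb q g (F l)) i) (hyb V (fun l => Eb q g (V l)) i) l)) ≤
      ((Ca : ℝ) + Cb) / R * n2 (fun x => F l x - V l x) := by
  have hm : mass (dlt - bk q g) ≤ 4 := by
    have h1 := mass_sub_le dlt (bk q g)
    have h2 := mass_bk_le q g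
    rw [mass_dlt] at h1
    linarith
  have hRr : (0 : ℝ) < R := by
    have : 0 < R := by omega
    exact_mod_cast this
  have hn : 0 ≤ n2 (fun x => F l x - V l x) := n2_nonneg _
  have ha0 : (0 : ℝ) ≤ Ca := Nat.cast_nonneg _
  have hb0 : (0 : ℝ) ≤ Cb := Nat.cast_nonneg _
  rcases lt_trichotomy l i with h | h | h
  · rw [slot_lt q g F V i l h]
    refine (hCb M N R hR hRb i _ hm hS hNb _ ?_ l (ne_of_lt h) _).trans ?_
    · intro k
      split_ifs
      · exact hF k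
      · exact hV k
      · exact Bd_Eb _ _ (hV k)
    · rw [div_mul_eq_mul_div]
      apply div_le_div_of_nonneg_right _ hRr.le
      nlinarith
  · subst h
    rw [slot_eq]
    refine (hCa M N R hR hRa l _ hm hS hNa _ ?_ _).trans ?_
    · intro k
      split_ifs
      · exact hF k
      · exact Bd_Eb _ _ (hV k)
    · rw [div_mul_eq_mul_div]
      apply div_le_div_of_nonneg_right _ hRr.le
      nlinarith
  · rw [slot_gt q g F V i l h]
    refine (hCb M N R hR hRb i _ hm hS hNb _ ?_ l (ne_of_gt h) _).trans ?_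
    · intro k
      split_ifs
      · exact hF k
      · exact Bd_Eb _ _ (hF k)
      · exact Bd_Eb _ _ (hV k)
    · rw [div_mul_eq_mul_div]
      apply div_le_div_of_nonneg_right _ hRr.le
      have h1 := n2_Eb_le q g (fun x => F l x - V l x)
      have h2 : (0 : ℝ) ≤ Ca * n2 (fun x => F l x - V l x) := mul_nonneg ha0 hn
      have h3 : (Cb : ℝ) * n2 (Eb q g (fun x => F l x - V l x)) ≤ Cb * n2 (fun x => F l x - V l x) :=
        mul_le_mul_of_nonneg_left h1 hb0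
      linarith

end group

/-- `16 R^(2C) Q ≤ 2^j`. -/
lemma big (C C₁ t j Q L : ℕ) (hC : C ≤ C₁) (ht : 1 ≤ t) (hj : 4 ^ (t + 1) ≤ j)
    (hQ : Q ^ 2 ≤ 2 ^ j) (hL : 2 ^ j ≤ L) : 16 * (2 ^ (t / C₁)) ^ (2 * C) * Q ≤ L := by
  refine le_trans ?_ hL
  have h1 : t / C₁ * C ≤ t := (Nat.mul_le_mul_left _ hC).trans (Nat.div_mul_le_self t C₁)
  have h2 : 16 * (2 ^ (t / C₁)) ^ (2 * C) ≤ 2 ^ (2 * t + 4) := by
    rw [← pow_mul]
    have h3 : t / C₁ * (2 * C) ≤ 2 * t := by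
      calc t / C₁ * (2 * C) = 2 * (t / C₁ * C) := by ring
        _ ≤ 2 * t := Nat.mul_le_mul_left 2 h1
    calc 16 * 2 ^ (t / C₁ * (2 * C)) ≤ 16 * 2 ^ (2 * t) :=
          Nat.mul_le_mul_left 16 (Nat.pow_le_pow_right (by norm_num) h3)
      _ = 2 ^ (2 * t + 4) := by rw [pow_add]; ring
  have h4 : 4 * t + 8 ≤ j := by
    refine le_trans ?_ hj
    clear hj hQ hL h1 h2
    induction t, ht using Nat.le_induction with
    | base => norm_num
    | succ t ht ih =>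
      have : 4 ^ (t + 1 + 1) = 4 * 4 ^ (t + 1) := by ring
      omega
  have h5 : (2 ^ (2 * t + 4) * Q) ^ 2 ≤ (2 ^ j) ^ 2 := by
    rw [mul_pow, sq (2 ^ j)]
    refine Nat.mul_le_mul ?_ hQ
    rw [← pow_mul]
    exact Nat.pow_le_pow_right (by norm_num) (by omega)
  have h6 := (Nat.pow_le_pow_iff_left (by norm_num : (2 : ℕ) ≠ 0)).mp h5
  exact (Nat.mul_le_mul_right Q h2).trans h6

/-- The final comparison of constants. -/
lemma final (K D κ C₁ t : ℕ) (hC₁ : 1 ≤ C₁) :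
    (K : ℝ) * (D + t + κ + 4) / 2 ^ (t / C₁) ≤
      ((K * (D + κ + 4 + 2 * C₁) + 2 * C₁ : ℕ) : ℝ) / 2 ^ (t / (K * (D + κ + 4 + 2 * C₁) + 2 * C₁)) := by
  set C := K * (D + κ + 4 + 2 * C₁) + 2 * C₁ with hC
  set s := t / (2 * C₁) with hs
  have h1 : 2 * s ≤ t / C₁ := by
    rw [Nat.le_div_iff_mul_le (by omega)]
    have := Nat.div_mul_le_self t (2 * C₁)
    calc 2 * s * C₁ = s * (2 * C₁) := by ring
      _ ≤ t := this
  have h2 : t / C ≤ s := Nat.div_le_div_left (by omega) (by omega)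
  have h3 : t < (s + 1) * (2 * C₁) := by
    have := Nat.lt_div_mul_add (a := t) (b := 2 * C₁) (by omega)
    calc t < s * (2 * C₁) + 2 * C₁ := this
      _ = (s + 1) * (2 * C₁) := by ring
  have h4 : D + t + κ + 4 ≤ (D + κ + 4 + 2 * C₁) * (s + 1) := by
    have : (D + κ + 4 + 2 * C₁) * (s + 1) = (D + κ + 4) * s + (D + κ + 4) + (s + 1) * (2 * C₁) := by ring
    have h5 := Nat.zero_le ((D + κ + 4) * s)
    omega
  have h6 : s + 1 ≤ 2 ^ s := Nat.lt_two_pow_self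
  have h7 : K * (D + t + κ + 4) ≤ C * 2 ^ s := by
    calc K * (D + t + κ + 4) ≤ K * ((D + κ + 4 + 2 * C₁) * (s + 1)) := Nat.mul_le_mul_left K h4
      _ = K * (D + κ + 4 + 2 * C₁) * (s + 1) := by ring
      _ ≤ C * 2 ^ s := Nat.mul_le_mul (by omega) h6
  have h8 : K * (D + t + κ + 4) * 2 ^ (t / C) ≤ C * 2 ^ (t / C₁) := by
    calc K * (D + t + κ + 4) * 2 ^ (t / C) ≤ C * 2 ^ s * 2 ^ s :=
          Nat.mul_le_mul h7 (Nat.pow_le_pow_right (by norm_num) h2)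
      _ = C * 2 ^ (2 * s) := by rw [mul_assoc, ← pow_add]; congr 2; ring
      _ ≤ C * 2 ^ (t / C₁) := Nat.mul_le_mul_left C (Nat.pow_le_pow_right (by norm_num) h1)
  rw [div_le_div_iff₀ (by positivity) (by positivity)]
  exact_mod_cast h8

end T1aAux


theorem levelA {n D : ℕ} {P : Fin n → ℤ[X]} {e : Fin n → ℕ} {i₀ : Fin n} (h : EqDeg D P e i₀) (B κ : ℕ) (hB : 1 ≤ B) :
    ∃ C t₁ : ℕ, 1 ≤ C ∧ ∀ t, t₁ ≤ t → ∀ a b : ℕ, 4 ^ (t + 1) ≤ a → ∀ (M : ℕ) [NeZero M] (N : ℕ → ℕ), Sc N →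
      ∀ f : Fin n → ZMod M → ℂ, (∀ l, Bd (f l)) → ∀ i : Fin n,
      MaxLe (Icc a b) (fun j x =>
        AA (N j) P (hyb (fun l => Eb (QB B (t + 1)) (Kshort B κ t j (N j) (e l)) (f l))
          (fun l => Eb (QB B t) (QB B (t + 1) / QB B t) (Eb (QB B (t + 1)) (Kshort B κ t j (N j) (e l)) (f l))) i) x -
        AA (N j) P (hyb (fun l => Eb (QB B (t + 1)) (Klong B t (N j) (e l)) (f l))
          (fun l => Eb (QB B t) (QB B (t + 1) / QB B t) (Eb (QB B (t + 1)) (Klong B t (N j) (e l)) (f l))) i) x)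
        ((C : ℝ) / 2 ^ (t / C)) := by
  obtain ⟨Ca, hCa⟩ := L2gain h
  obtain ⟨Cb, hCb⟩ := L2gain' h
  obtain ⟨tq, htq⟩ := QB_small 2 B
  obtain ⟨j₁, hj₁⟩ := QB_tj 2 B
  set C₁ := Ca + Cb + 1 with hC₁
  set K := n * (n * ((Ca + Cb) * 400)) with hK
  refine ⟨K * (D + κ + 4 + 2 * C₁) + 2 * C₁, max (max tq C₁) (max j₁ (2 * κ + 2)), by omega, ?_⟩
  intro t ht a b ha M _ N hN f hf i
  have ht1 : tq ≤ t := le_trans (le_max_left _ _) (le_trans (le_max_left _ _) ht)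
  have ht2 : C₁ ≤ t := le_trans (le_max_right _ _) (le_trans (le_max_left _ _) ht)
  have ht3 : j₁ ≤ t := le_trans (le_max_left _ _) (le_trans (le_max_right _ _) ht)
  have ht4 : 2 * κ + 2 ≤ t := le_trans (le_max_right _ _) (le_trans (le_max_right _ _) ht)
  have hC₁p : 1 ≤ C₁ := by omega
  have ht5 : 1 ≤ t := by omega
  set R := 2 ^ (t / C₁) with hRdef
  have hR : 2 ≤ R := by
    have h1 : 1 ≤ t / C₁ := (Nat.one_le_div_iff hC₁p).mpr ht2
    calc 2 = 2 ^ 1 := rfl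
      _ ≤ 2 ^ (t / C₁) := Nat.pow_le_pow_right (by norm_num) h1
  have hRpow : ∀ C, C ≤ C₁ → R ^ C ≤ 2 ^ t := by
    intro C hC
    rw [hRdef, ← pow_mul]
    exact Nat.pow_le_pow_right (by norm_num) ((Nat.mul_le_mul_left _ hC).trans (Nat.div_mul_le_self t C₁))
  have hqg : QB B t * (QB B (t + 1) / QB B t) = QB B (t + 1) := QB_mul B t
  have hg : 1 ≤ QB B (t + 1) / QB B t := by
    rcases Nat.eq_zero_or_pos (QB B (t + 1) / QB B t) with h0 | h0
    · rw [h0, mul_zero] at hqg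
      have := QB_pos B (t + 1)
      omega
    · exact h0
  have hRr : (0 : ℝ) < R := by
    have : 0 < R := by omega
    exact_mod_cast this
  have hCab : (0 : ℝ) ≤ ((Ca : ℝ) + Cb) / R := by positivity
  have hj4 : ∀ j ∈ Icc a b, 4 ^ (t + 1) ≤ j := fun j hj => ha.trans (mem_Icc.mp hj).1
  have hjt : ∀ j ∈ Icc a b, t ≤ j := fun j hj => by
    have h1 : t < 4 ^ (t + 1) :=
      lt_of_lt_of_le (Nat.lt_pow_self (by norm_num : 1 < 4)) (Nat.pow_le_pow_right (by norm_num) (Nat.le_succ t))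
    exact (h1.le).trans (hj4 j hj)
  have hQ2 : ∀ j ∈ Icc a b, QB B (t + 1) ^ 2 ≤ 2 ^ j := fun j hj => htq t ht1 j (hj4 j hj)
  have hQ1 : ∀ j ∈ Icc a b, QB B (t + 1) ≤ 2 ^ j := fun j hj => by
    refine le_trans ?_ (hQ2 j hj)
    have := QB_pos B (t + 1)
    nlinarith
  -- one term
  have key : ∀ j ∈ Icc a b, ∀ l : Fin n,
      n2 (AA (N j) P (hyb (hyb (fun l => Eb (QB B (t + 1)) (Kshort B κ t j (N j) (e l)) (f l))
          (fun l => Eb (QB B t) (QB B (t + 1) / QB B t) (Eb (QB B (t + 1)) (Kshort B κ t j (N j) (e l)) (f l))) i)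
        (hyb (fun l => Eb (QB B (t + 1)) (Klong B t (N j) (e l)) (f l))
          (fun l => Eb (QB B t) (QB B (t + 1) / QB B t) (Eb (QB B (t + 1)) (Klong B t (N j) (e l)) (f l))) i) l)) ≤
      ((Ca : ℝ) + Cb) / R * n2 (fun x => Eb (QB B (t + 1)) (Kshort B κ t j (N j) (e l)) (f l) x -
        Eb (QB B (t + 1)) (Klong B t (N j) (e l)) (f l) x) := by
    intro j hj l
    have hNj := hN j
    have hN1 : 1 ≤ N j := le_trans Nat.one_le_two_pow hNj.1
    have h2t : 2 ^ t ≤ N j := (Nat.pow_le_pow_right (by norm_num) (hjt j hj)).trans hNj.1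
    have hpow : ∀ m, 1 ≤ m → 2 ^ j ≤ N j ^ m := fun m hm => by
      calc 2 ^ j ≤ N j := hNj.1
        _ = N j ^ 1 := (pow_one _).symm
        _ ≤ N j ^ m := Nat.pow_le_pow_right hN1 hm
    have hNS : ∀ C, C ≤ C₁ → NS C R (N j ^ e i) (dlt - bk (QB B t) (QB B (t + 1) / QB B t)) := by
      intro C hC
      refine NS_diff C R _ _ _ (by omega) hg ?_ ?_
      · intro r hr1 hr2
        exact dvd_QB hB ht5 hr1 (hr2.trans (hRpow C hC))
      · rw [hqg]
        exact T1aAux.big C C₁ t j _ _ hC ht5 (hj4 j hj) (hQ2 j hj) (hpow _ (h.pos i))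
    refine T1aAux.term_le hCa hCb (N j) R (QB B t) (QB B (t + 1) / QB B t) hR
      ((hRpow Ca (by omega)).trans h2t) ((hRpow Cb (by omega)).trans h2t) i ?_ (hNS Ca (by omega)) (hNS Cb (by omega))
      (fun l => Eb (QB B (t + 1)) (Kshort B κ t j (N j) (e l)) (f l))
      (fun l => Eb (QB B (t + 1)) (Klong B t (N j) (e l)) (f l))
      (fun l => Bd_Eb _ _ (hf l)) (fun l => Bd_Eb _ _ (hf l)) l
    apply Supp_dlt_sub_bk
    rw [hqg]
    have := h.two
    exact (hQ1 j hj).trans (hpow D (by omega))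
  -- sum over the scales
  have hsum : ∀ l : Fin n, ∑ j ∈ Icc a b,
      n2 (AA (N j) P (hyb (hyb (fun l => Eb (QB B (t + 1)) (Kshort B κ t j (N j) (e l)) (f l))
          (fun l => Eb (QB B t) (QB B (t + 1) / QB B t) (Eb (QB B (t + 1)) (Kshort B κ t j (N j) (e l)) (f l))) i)
        (hyb (fun l => Eb (QB B (t + 1)) (Klong B t (N j) (e l)) (f l))
          (fun l => Eb (QB B t) (QB B (t + 1) / QB B t) (Eb (QB B (t + 1)) (Klong B t (N j) (e l)) (f l))) i) l)) ≤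
      ((Ca : ℝ) + Cb) / R * (400 * ((D : ℝ) + t + κ + 4)) := by
    intro l
    refine (Finset.sum_le_sum fun j hj => key j hj l).trans ?_
    rw [← Finset.mul_sum]
    apply mul_le_mul_of_nonneg_left _ hCab
    have hlens := fun j (hj : j ∈ Icc a b) => T1aAux.lens B κ t j (N j) (e l) j₁ (h.pos l) (hN j).1 (hN j).2 (hj4 j hj)
      hj₁ (ht3.trans (hjt j hj)) (ht4.trans (hjt j hj)) (hQ1 j hj)
    have hA : (0 : ℝ) < 1 / (2 ^ (κ + 2) * (QB B (t + 1) : ℝ)) := by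
      have : (0 : ℝ) < QB B (t + 1) := by exact_mod_cast QB_pos B (t + 1)
      positivity
    have hen := energy (QB B (t + 1)) (Icc a b) (fun j => Kshort B κ t j (N j) (e l)) (fun j => Klong B t (N j) (e l))
      (e l) (e l + t + κ + 3) (h.pos l) _ hA (fun j hj => (hlens j hj).1) (fun j hj => (hlens j hj).2.1)
      (fun j hj => (hlens j hj).2.2.1) (fun j hj => (hlens j hj).2.2.2) (f l)
    refine hen.trans ?_
    have h1 := T1aAux.n2_le_one (hf l)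
    have h0 := n2_nonneg (f l)
    have h2 : (e l : ℝ) ≤ D := by exact_mod_cast (h.lt l).le
    have h3 : (400 : ℝ) * (((e l + t + κ + 3 : ℕ) : ℝ) + 1) * n2 (f l) ≤ 400 * (((e l + t + κ + 3 : ℕ) : ℝ) + 1) := by
      have : (0 : ℝ) ≤ 400 * (((e l + t + κ + 3 : ℕ) : ℝ) + 1) := by positivity
      nlinarith
    refine h3.trans ?_
    push_cast
    linarith
  have hmax := MaxLe.sum (s := Icc a b) (univ : Finset (Fin n))
    (F := fun l j => AA (N j) P (hyb (hyb (fun l => Eb (QB B (t + 1)) (Kshort B κ t j (N j) (e l)) (f l))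
          (fun l => Eb (QB B t) (QB B (t + 1) / QB B t) (Eb (QB B (t + 1)) (Kshort B κ t j (N j) (e l)) (f l))) i)
        (hyb (fun l => Eb (QB B (t + 1)) (Klong B t (N j) (e l)) (f l))
          (fun l => Eb (QB B t) (QB B (t + 1) / QB B t) (Eb (QB B (t + 1)) (Klong B t (N j) (e l)) (f l))) i) l))
    (B := fun _ => ((Ca : ℝ) + Cb) / R * (400 * ((D : ℝ) + t + κ + 4)))
    (fun l _ => MaxLe.of_sum (hsum l))
  refine MaxLe.mono (Finset.Subset.refl _) ?_ ?_ hmax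
  · refine le_trans (le_of_eq ?_) (T1aAux.final K D κ C₁ t hC₁p)
    rw [Finset.sum_const, Finset.card_univ, Fintype.card_fin, nsmul_eq_mul, hK, hRdef]
    push_cast
    ring
  · intro j _ x
    rw [AA_sub_hyb]

end Pool.Agent.EQD.Lo
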