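import Pool.Agent.Lib.EQD.One
import Pool.Agent.Lib.EQD.T1a

/-!
# EQD.XLim: convergence of the averages of the averaged functions (bounded modulus)

PROOF of `ex_lim`: `conv1` with the polynomial `C (Q : ℤ) * X` (evaluation `Q h`).

PROOF of `xlim`. Let `Q = QB B t₀`, `K j l = N j ^ e l / 2 ^ κ / QB B (tj j) * (QB B (tj j) / Q)` (the number of terms of `EwX`). `K j l → ∞`: for large `j` `t₀ ≤ tj j`, `Q ∣ QB B (tj j)`,
and `QB B (tj j) ^ 2 ≤ 2 ^ j` (`QB_tj`), so `N j ^ e l / 2 ^ κ ≥ 2 ^ j / 2 ^ κ` is at least `QB B (tj j) * 2 ^ (j/4)` for large `j` (`e l ≥ 1`), so `K j l ≥ 2 ^ (j/4)`.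
(1) By `ex_lim`, for a.e. `x` all the limits `lim_K EX T Q K (f l) x` exist. Let `g l : X → ℂ` be a measurable function, bounded by one everywhere, equal to the limit where it exists
(e.g. take the indicator of the measurable set where the sequence is Cauchy and `measurable_limit_of_tendsto_metrizable`, or `aemeasurable_of_tendsto_metrizable_ae` and a measurable modification).
Let `X₀` be the set of the `x` such that for all `m : ℤ` and all `l` the limit exists at `T ^ m x` and equals `g l (T ^ m x)`: it has full measure (countable intersection, `T ^ m` preserves `μ`) and is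
`T`-invariant. On `X₀`: `g l (T ^ Q x) = g l x`, because `EX T Q K f (T ^ Q x) - EX T Q K f x → 0` (telescoping, `f` bounded).
(2) For `x ∈ X₀` the function `t ↦ ∏_l g l (T ^ (P l t) x)` is `Q`-periodic (`P l (t + Q) ≡ P l t mod Q`, `T^Q`-invariance along the orbit); so `tv N` of it converges as `N → ∞`
(`periodic_tv`: average of a `Q`-periodic bounded sequence converges to the average over one period), hence also along `N j → ∞`.
(3) Let `Δ J x = ⨆_{j ≥ J} max_l ‖EwX .. (f l) x - g l x‖ ≤ 2` (measurable, as a countable supremum; real or `ℝ≥0` valued). For a.e. `x`: `Δ J x → 0` as `J → ∞` (by (1) and `K j l → ∞`). For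
`j ≥ J`: `‖AX T (N j) P (Ew f) x - AX T (N j) P g x‖ ≤ ∑_l avg_{t < N j} Δ J (T ^ (P l t) x) ≤ ∑_l M_l (Δ J) x`, where `M_l u x = ⨆_N avg_{t<N} u (T ^ (P l t) x)` (product difference, all factors bounded
by one). By `max1`: `∫ (M_l (Δ J))² ≤ C ∫ (Δ J)² → 0` (dominated convergence). `M_l (Δ J) x` is nonincreasing in `J`, so its limit `ω_l` as `J → ∞` satisfies `∫ ω_l² = 0`, `ω_l = 0` a.e. Hence
for a.e. `x` the difference tends to `0` as `j → ∞`. With (2): convergence.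
-/

set_option autoImplicit false

open Finset Polynomial MeasureTheory Filter Topology
open scoped ENNReal NNReal

namespace Pool.Agent.EQD.Lo

open Pool.Agent.HLT Pool.Agent.NLT Pool.Agent.NLG

variable {X : Type} [MeasurableSpace X] {μ : Measure X} [IsProbabilityMeasure μ]

namespace XLimAux

lemma sum_bdd (Q : ℕ) (hQ : 1 ≤ Q) (b : ℕ → ℂ) (hb : ∀ t, b (t + Q) = b t) (h0 : ∑ t ∈ range Q, b t = 0) :
    ∃ C : ℝ, ∀ N, ‖∑ t ∈ range N, b t‖ ≤ C := by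
  have hper : Function.Periodic (fun N : ℕ => ∑ t ∈ range N, b t) Q := by
    intro N
    induction N with
    | zero => simpa using h0
    | succ N ih =>
      have e1 : N + 1 + Q = (N + Q) + 1 := by ring
      simp only at ih ⊢
      rw [e1, Finset.sum_range_succ, ih, Finset.sum_range_succ, hb]
  refine ⟨∑ i ∈ range Q, ‖∑ t ∈ range i, b t‖, fun N => ?_⟩
  have h1 : ∑ t ∈ range (N % Q), b t = ∑ t ∈ range N, b t := hper.map_mod_nat N
  rw [← h1]
  exact Finset.single_le_sum (f := fun i => ‖∑ t ∈ range i, b t‖) (fun i _ => norm_nonneg _)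
    (Finset.mem_range.2 (Nat.mod_lt _ hQ))

lemma tendsto_of_bdd (b : ℕ → ℂ) (C : ℝ) (h : ∀ N, ‖b N‖ ≤ C) :
    Tendsto (fun N : ℕ => b N / (N : ℂ)) atTop (𝓝 0) := by
  rw [tendsto_zero_iff_norm_tendsto_zero]
  have h1 : Tendsto (fun N : ℕ => C / (N : ℝ)) atTop (𝓝 0) := tendsto_const_div_atTop_nhds_zero_nat C
  refine squeeze_zero (fun N => norm_nonneg _) (fun N => ?_) h1
  rw [norm_div, Complex.norm_natCast]
  exact div_le_div_of_nonneg_right (h N) (Nat.cast_nonneg N)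

end XLimAux

open XLimAux

lemma periodic_tv (Q : ℕ) (hQ : 1 ≤ Q) (a : ℕ → ℂ) (ha : ∀ t, a (t + Q) = a t) :
    Tendsto (fun N : ℕ => tv N a) atTop (𝓝 (tv Q a)) := by
  have hQ0 : (Q : ℂ) ≠ 0 := by exact_mod_cast (by omega : Q ≠ 0)
  set c := tv Q a with hc
  have hsum : ∑ t ∈ range Q, (a t - c) = 0 := by
    rw [Finset.sum_sub_distrib, Finset.sum_const, Finset.card_range, nsmul_eq_mul, hc]
    unfold tv
    field_simp
    ring
  obtain ⟨C, hC⟩ := sum_bdd Q hQ (fun t => a t - c) (fun t => by rw [ha]) hsum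
  have h1 := tendsto_of_bdd (fun N => ∑ t ∈ range N, (a t - c)) C hC
  have h2 : Tendsto (fun N : ℕ => (∑ t ∈ range N, (a t - c)) / (N : ℂ) + c) atTop (𝓝 (0 + c)) :=
    h1.add tendsto_const_nhds
  rw [zero_add] at h2
  refine h2.congr' ?_
  filter_upwards [eventually_ge_atTop 1] with N hN
  have hN0 : (N : ℂ) ≠ 0 := by exact_mod_cast (by omega : N ≠ 0)
  rw [Finset.sum_sub_distrib, Finset.sum_const, Finset.card_range, nsmul_eq_mul]
  unfold tv
  field_simp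
  ring

theorem ex_lim (T : Equiv.Perm X) (hT : IMP μ T) (Q : ℕ) {f : X → ℂ} (hfm : Measurable f) (hf : ∀ x, ‖f x‖ ≤ 1) :
    ∀ᵐ x ∂μ, ∃ L : ℂ, Tendsto (fun K : ℕ => EX T Q K f x) atTop (𝓝 L) := by
  have h1 : MemLp f 2 μ := MemLp.of_bound hfm.aestronglyMeasurable 1 (ae_of_all _ hf)
  filter_upwards [conv1 T hT (C (Q : ℤ) * Polynomial.X) h1] with x hx
  obtain ⟨L, hL⟩ := hx
  refine ⟨L, hL.congr (fun K => ?_)⟩
  unfold EX
  congr 1
  funext t
  simp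

namespace XLimAux

omit [IsProbabilityMeasure μ] in
/-- Powers of the map are measure preserving. -/
lemma mp_pow {T : Equiv.Perm X} (hT : IMP μ T) (m : ℤ) : MeasurePreserving (fun x => (T ^ m) x) μ μ := by
  obtain ⟨h1, h2, h3⟩ := hT
  let E : X ≃ᵐ X := ⟨T, h1, h2⟩
  have hE : MeasurePreserving E μ μ := h3
  have hs : MeasurePreserving (fun x => T.symm x) μ μ := hE.symm
  have hn : ∀ k : ℕ, MeasurePreserving (fun x => (T ^ k) x) μ μ := by
    intro k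
    induction k with
    | zero =>
      have h0 : MeasurePreserving (fun x : X => x) μ μ := MeasurePreserving.id μ
      simpa using h0
    | succ k ih =>
      have : (fun x => (T ^ (k + 1)) x) = (fun x => (T ^ k) x) ∘ (fun x => T x) := by
        funext x; simp [pow_succ]
      rw [this]
      exact ih.comp h3
  have hn' : ∀ k : ℕ, MeasurePreserving (fun x => (T⁻¹ ^ k) x) μ μ := by
    intro k
    induction k with
    | zero =>
      have h0 : MeasurePreserving (fun x : X => x) μ μ := MeasurePreserving.id μ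
      simpa using h0
    | succ k ih =>
      have : (fun x => (T⁻¹ ^ (k + 1)) x) = (fun x => (T⁻¹ ^ k) x) ∘ (fun x => T.symm x) := by
        funext x; simp [pow_succ]
      rw [this]
      exact ih.comp hs
  obtain ⟨k, rfl | rfl⟩ := m.eq_nat_or_neg
  · simpa using hn k
  · have : (fun x => (T ^ (-(k : ℤ))) x) = (fun x => (T⁻¹ ^ k) x) := by
      funext x; simp
    rw [this]
    exact hn' k

omit [IsProbabilityMeasure μ] in
lemma meas_EX {T : Equiv.Perm X} (hT : IMP μ T) (Q K : ℕ) {f : X → ℂ} (hfm : Measurable f) :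
    Measurable (EX T Q K f) := by
  have : EX T Q K f = fun x => (∑ h ∈ range K, f ((T ^ (((Q * h : ℕ) : ℤ))) x)) / (K : ℂ) := rfl
  rw [this]
  refine Measurable.div_const ?_ _
  refine Finset.measurable_sum _ (fun h _ => ?_)
  exact hfm.comp (mp_pow hT _).measurable

omit [MeasurableSpace X] in
lemma norm_EX_le (T : Equiv.Perm X) (Q K : ℕ) {f : X → ℂ} (hf : ∀ x, ‖f x‖ ≤ 1) (x : X) : ‖EX T Q K f x‖ ≤ 1 := by
  unfold EX
  exact norm_tv_le_one _ _ (fun t => hf _)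

omit [IsProbabilityMeasure μ] in
lemma ae_orbit {T : Equiv.Perm X} (hT : IMP μ T) {p : X → Prop} (hp : ∀ᵐ x ∂μ, p x) :
    ∀ᵐ x ∂μ, ∀ m : ℤ, p ((T ^ m) x) := by
  rw [ae_all_iff]
  intro m
  exact (mp_pow hT m).quasiMeasurePreserving.ae hp

omit [MeasurableSpace X] in
lemma inv_lim (T : Equiv.Perm X) (Q : ℕ) {f : X → ℂ} (hf : ∀ x, ‖f x‖ ≤ 1) {x : X} {a b : ℂ}
    (ha : Tendsto (fun K : ℕ => EX T Q K f x) atTop (𝓝 a))
    (hb : Tendsto (fun K : ℕ => EX T Q K f ((T ^ ((Q : ℕ) : ℤ)) x)) atTop (𝓝 b)) : b = a := by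
  have h1 : Tendsto (fun K : ℕ => EX T Q K f ((T ^ ((Q : ℕ) : ℤ)) x) - EX T Q K f x) atTop (𝓝 (b - a)) := hb.sub ha
  have h2 : Tendsto (fun K : ℕ => (f ((T ^ (((Q * K : ℕ) : ℤ))) x) - f x) / (K : ℂ)) atTop (𝓝 0) := by
    refine tendsto_of_bdd (fun K => f ((T ^ (((Q * K : ℕ) : ℤ))) x) - f x) 2 (fun K => ?_)
    calc ‖f ((T ^ (((Q * K : ℕ) : ℤ))) x) - f x‖ ≤ ‖f ((T ^ (((Q * K : ℕ) : ℤ))) x)‖ + ‖f x‖ := norm_sub_le _ _
      _ ≤ 1 + 1 := add_le_add (hf _) (hf _)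
      _ = 2 := by norm_num
  have h3 : ∀ K : ℕ, EX T Q K f ((T ^ ((Q : ℕ) : ℤ)) x) - EX T Q K f x =
      (f ((T ^ (((Q * K : ℕ) : ℤ))) x) - f x) / (K : ℂ) := by
    intro K
    unfold EX tv
    rw [← sub_div]
    congr 1
    have e1 : ∀ h : ℕ, (T ^ (((Q * h : ℕ) : ℤ))) ((T ^ ((Q : ℕ) : ℤ)) x) = (T ^ (((Q * (h + 1) : ℕ) : ℤ))) x := by
      intro h
      rw [← Equiv.Perm.mul_apply, ← zpow_add]
      rw [show ((Q * h : ℕ) : ℤ) + ((Q : ℕ) : ℤ) = ((Q * (h + 1) : ℕ) : ℤ) by push_cast; ring]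
    simp_rw [e1]
    rw [← Finset.sum_sub_distrib, Finset.sum_range_sub (fun h => f ((T ^ (((Q * h : ℕ) : ℤ))) x))]
    simp
  have h4 : Tendsto (fun K : ℕ => EX T Q K f ((T ^ ((Q : ℕ) : ℤ)) x) - EX T Q K f x) atTop (𝓝 0) := by
    refine h2.congr (fun K => (h3 K).symm)
  have := tendsto_nhds_unique h1 h4
  exact sub_eq_zero.1 this

/-- The number of terms tends to infinity. -/
lemma K_tendsto (e : ℕ) (he : 1 ≤ e) (B t₀ κ : ℕ) (N : ℕ → ℕ) (hN : Sc N) :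
    Tendsto (fun j : ℕ => N j ^ e / 2 ^ κ / QB B (tj j) * (QB B (tj j) / QB B t₀)) atTop atTop := by
  rw [tendsto_atTop]
  intro c
  obtain ⟨j₁, hj₁⟩ := QB_tj 2 B
  filter_upwards [eventually_ge_atTop j₁, eventually_ge_atTop (2 ^ (2 * t₀)),
    eventually_ge_atTop ((c * 2 ^ κ) ^ 2)] with j h1 h2 h3
  have ht : t₀ ≤ tj j := by
    unfold tj
    have : 2 * t₀ ≤ Nat.log 2 j := Nat.le_log_of_pow_le (by norm_num) h2
    omega
  have hd : QB B t₀ ∣ QB B (tj j) := QB_dvd B ht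
  have hq : 1 ≤ QB B (tj j) / QB B t₀ := Nat.div_pos (Nat.le_of_dvd (QB_pos _ _) hd) (QB_pos _ _)
  have hk : c ≤ N j ^ e / 2 ^ κ / QB B (tj j) := by
    rw [Nat.le_div_iff_mul_le (QB_pos _ _), Nat.le_div_iff_mul_le (by positivity)]
    have e1 : (c * QB B (tj j) * 2 ^ κ) ^ 2 ≤ (2 ^ j) ^ 2 := by
      calc (c * QB B (tj j) * 2 ^ κ) ^ 2 = (c * 2 ^ κ) ^ 2 * QB B (tj j) ^ 2 := by ring
        _ ≤ 2 ^ j * 2 ^ j := Nat.mul_le_mul (h3.trans (Nat.lt_two_pow_self).le) (hj₁ j h1)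
        _ = (2 ^ j) ^ 2 := by ring
    have e2 : c * QB B (tj j) * 2 ^ κ ≤ 2 ^ j := (Nat.pow_le_pow_iff_left (by norm_num)).1 e1
    calc c * QB B (tj j) * 2 ^ κ ≤ 2 ^ j := e2
      _ ≤ N j := (hN j).1
      _ ≤ N j ^ e := Nat.le_self_pow (by omega) _
  calc c = c * 1 := (mul_one c).symm
    _ ≤ N j ^ e / 2 ^ κ / QB B (tj j) * (QB B (tj j) / QB B t₀) := Nat.mul_le_mul hk hq

omit [MeasurableSpace X] in
/-- Product of differences. -/
lemma prod_sub_le {n : ℕ} (a b : Fin n → ℂ) (ha : ∀ i, ‖a i‖ ≤ 1) (hb : ∀ i, ‖b i‖ ≤ 1) :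
    ‖∏ i, a i - ∏ i, b i‖ ≤ ∑ i, ‖a i - b i‖ := by
  have : ∀ s : Finset (Fin n), ‖∏ i ∈ s, a i - ∏ i ∈ s, b i‖ ≤ ∑ i ∈ s, ‖a i - b i‖ := by
    intro s
    induction s using Finset.induction_on with
    | empty => simp
    | insert i s hi ih =>
      rw [Finset.prod_insert hi, Finset.prod_insert hi, Finset.sum_insert hi]
      have e1 : a i * ∏ x ∈ s, a x - b i * ∏ x ∈ s, b x =
          (a i - b i) * ∏ x ∈ s, a x + b i * (∏ x ∈ s, a x - ∏ x ∈ s, b x) := by ring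
      rw [e1]
      refine (norm_add_le _ _).trans (add_le_add ?_ ?_)
      · rw [norm_mul]
        refine mul_le_of_le_one_right (norm_nonneg _) ?_
        rw [norm_prod]
        exact Finset.prod_le_one (fun _ _ => norm_nonneg _) (fun i _ => ha i)
      · rw [norm_mul]
        refine (mul_le_of_le_one_left (norm_nonneg _) (hb i)).trans ih
  exact this Finset.univ

/-- Decay of the maximal averages of functions which tend to zero. -/
lemma decay {T : Equiv.Perm X} (hT : IMP μ T) (P : ℤ[X]) (v : ℕ → X → ℝ≥0) (hv : ∀ j, Measurable (v j))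
    (hb : ∀ j x, v j x ≤ 2) (hz : ∀ᵐ x ∂μ, Tendsto (fun j => v j x) atTop (𝓝 0)) :
    ∀ᵐ x ∂μ, ∀ ε : ℝ, 0 < ε → ∃ J : ℕ, ∀ j, J ≤ j → ∀ N : ℕ,
      (∑ t ∈ range N, ((v j ((T ^ (P.eval (t : ℤ))) x) : ℝ≥0) : ℝ)) / (N : ℝ) ≤ ε := by
  set u : ℕ → X → ℝ≥0 := fun J x => ⨆ j, v (J + j) x with hu
  have hbdd : ∀ J x, BddAbove (Set.range (fun j => v (J + j) x)) := by
    intro J x
    refine ⟨2, ?_⟩
    rintro _ ⟨j, rfl⟩
    exact hb _ _
  have hum : ∀ J, Measurable (u J) := fun J => Measurable.iSup (fun j => hv (J + j))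
  have hub : ∀ J x, u J x ≤ 2 := fun J x => ciSup_le (fun j => hb _ _)
  have hvu : ∀ J j x, J ≤ j → v j x ≤ u J x := by
    intro J j x h
    have h1 := le_ciSup (hbdd J x) (j - J)
    have h2 : J + (j - J) = j := by omega
    simp only [h2] at h1
    exact h1
  have huz : ∀ᵐ x ∂μ, Tendsto (fun J => u J x) atTop (𝓝 0) := by
    filter_upwards [hz] with x hx
    refine tendsto_order.2 ⟨fun a ha => absurd ha (by simp), fun a ha => ?_⟩
    have ha2 : 0 < a / 2 := half_pos ha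
    obtain ⟨J₀, hJ₀⟩ := (eventually_atTop.1 ((tendsto_order.1 hx).2 (a / 2) ha2))
    filter_upwards [eventually_ge_atTop J₀] with J hJ
    refine lt_of_le_of_lt (ciSup_le (fun j => (hJ₀ (J + j) (by omega)).le)) (half_lt_self ha)
  obtain ⟨C, hC⟩ := max1 P.natDegree
  set M : ℕ → X → ℝ≥0∞ := fun J x =>
    ⨆ N : ℕ, (∑ t ∈ range N, (u J ((T ^ (P.eval (t : ℤ))) x) : ℝ≥0∞)) / (N : ℝ≥0∞) with hM
  have hMm : ∀ J, Measurable (M J) := by
    intro J
    refine Measurable.iSup (fun N => Measurable.div_const ?_ _)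
    refine Finset.measurable_sum _ (fun t _ => ?_)
    exact ((hum J).comp (mp_pow hT _).measurable).coe_nnreal_ennreal
  have hMC : ∀ J, ∫⁻ x, (M J x) ^ 2 ∂μ ≤ C * ∫⁻ x, (u J x : ℝ≥0∞) ^ 2 ∂μ := fun J => hC X μ T hT P le_rfl (u J) (hum J)
  have hlim : Tendsto (fun J => ∫⁻ x, (u J x : ℝ≥0∞) ^ 2 ∂μ) atTop (𝓝 0) := by
    have h0 : (0 : ℝ≥0∞) = ∫⁻ x, 0 ∂μ := by simp
    rw [h0]
    refine tendsto_lintegral_of_dominated_convergence (fun _ => 4) (fun J => ?_) (fun J => ?_) ?_ ?_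
    · exact (hum J).coe_nnreal_ennreal.pow_const 2
    · refine ae_of_all _ (fun x => ?_)
      have h1 : ((u J x : ℝ≥0) : ℝ≥0∞) ≤ 2 := by exact_mod_cast hub J x
      calc ((u J x : ℝ≥0) : ℝ≥0∞) ^ 2 ≤ 2 ^ 2 := pow_le_pow_left' h1 2
        _ = 4 := by norm_num
    · simp
    · filter_upwards [huz] with x hx
      have h1 : Tendsto (fun J => ((u J x : ℝ≥0) : ℝ≥0∞)) atTop (𝓝 ((0 : ℝ≥0) : ℝ≥0∞)) := by
        exact_mod_cast hx
      have h2 := ENNReal.Tendsto.pow (n := 2) h1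
      simpa using h2
  set ω : X → ℝ≥0∞ := fun x => ⨅ J, M J x with hω
  have hωm : Measurable ω := Measurable.iInf hMm
  have hω0 : ∫⁻ x, (ω x) ^ 2 ∂μ = 0 := by
    have h1 : ∀ J, ∫⁻ x, (ω x) ^ 2 ∂μ ≤ C * ∫⁻ x, (u J x : ℝ≥0∞) ^ 2 ∂μ := by
      intro J
      refine le_trans (lintegral_mono (fun x => ?_)) (hMC J)
      exact pow_le_pow_left' (iInf_le _ J) 2
    have h2 : Tendsto (fun J => (C : ℝ≥0∞) * ∫⁻ x, (u J x : ℝ≥0∞) ^ 2 ∂μ) atTop (𝓝 ((C : ℝ≥0∞) * 0)) :=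
      ENNReal.Tendsto.const_mul hlim (Or.inr ENNReal.coe_ne_top)
    rw [mul_zero] at h2
    exact le_antisymm (ge_of_tendsto' h2 h1) bot_le
  have hωae : ∀ᵐ x ∂μ, ω x = 0 := by
    rw [lintegral_eq_zero_iff (hωm.pow_const 2)] at hω0
    filter_upwards [hω0] with x hx
    simpa using hx
  filter_upwards [hωae] with x hx ε hε
  have h1 : ω x < ENNReal.ofReal ε := by rw [hx]; exact ENNReal.ofReal_pos.2 hε
  obtain ⟨J, hJ⟩ := iInf_lt_iff.1 h1
  refine ⟨J, fun j hj N => ?_⟩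
  rcases Nat.eq_zero_or_pos N with h0 | h0
  · subst h0; simpa using hε.le
  have h2 : (∑ t ∈ range N, ((u J ((T ^ (P.eval (t : ℤ))) x) : ℝ≥0) : ℝ≥0∞)) / (N : ℝ≥0∞) ≤ ENNReal.ofReal ε :=
    (le_iSup (fun N : ℕ => (∑ t ∈ range N, ((u J ((T ^ (P.eval (t : ℤ))) x) : ℝ≥0) : ℝ≥0∞)) / (N : ℝ≥0∞)) N).trans hJ.le
  have h3 : ENNReal.ofReal ((∑ t ∈ range N, ((v j ((T ^ (P.eval (t : ℤ))) x) : ℝ≥0) : ℝ)) / (N : ℝ)) ≤ ENNReal.ofReal ε := by
    refine le_trans ?_ h2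
    rw [ENNReal.ofReal_div_of_pos (by exact_mod_cast h0), ENNReal.ofReal_natCast,
      ENNReal.ofReal_sum_of_nonneg (fun _ _ => NNReal.coe_nonneg _)]
    refine ENNReal.div_le_div_right (Finset.sum_le_sum (fun t _ => ?_)) _
    rw [ENNReal.ofReal_coe_nnreal]
    exact_mod_cast hvu J j _ hj
  exact (ENNReal.ofReal_le_ofReal_iff hε.le).1 h3

end XLimAux

/-- The averages of `EwX f` are asymptotic to the averages of the limit functions `g`, which are `T ^ Q`-invariant. -/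
theorem xlim_g (T : Equiv.Perm X) (hT : IMP μ T) {n : ℕ} (P : Fin n → ℤ[X]) (e : Fin n → ℕ) (he : ∀ l, 1 ≤ e l)
    (B t₀ κ : ℕ) (N : ℕ → ℕ) (hN : Sc N) (f : Fin n → X → ℂ) (hfm : ∀ l, Measurable (f l)) (hf : ∀ l x, ‖f l x‖ ≤ 1) :
    ∃ g : Fin n → X → ℂ, (∀ l, Measurable (g l)) ∧ (∀ l x, ‖g l x‖ ≤ 1) ∧
      (∀ l, ∀ᵐ x ∂μ, Tendsto (fun K : ℕ => EX T (QB B t₀) K (f l) x) atTop (𝓝 (g l x))) ∧
      (∀ l, ∀ᵐ x ∂μ, g l ((T ^ ((QB B t₀ : ℕ) : ℤ)) x) = g l x) ∧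
      (∀ᵐ x ∂μ, Tendsto (fun j : ℕ => AX T (N j) P (fun l => EwX T B t₀ (tj j) (N j ^ e l / 2 ^ κ) (f l)) x -
        AX T (N j) P g x) atTop (𝓝 0)) ∧
      ∀ᵐ x ∂μ, ∃ L : ℂ, Tendsto (fun N' : ℕ => AX T N' P g x) atTop (𝓝 L) := by
  have hQ1 : 1 ≤ QB B t₀ := QB_pos _ _
  have hlim : ∀ l, ∃ g : X → ℂ, Measurable g ∧ (∀ x, ‖g x‖ ≤ 1) ∧
      ∀ᵐ x ∂μ, Tendsto (fun K : ℕ => EX T (QB B t₀) K (f l) x) atTop (𝓝 (g x)) := by
    intro l
    obtain ⟨g₀, hg₀, hg₁⟩ := measurable_limit_of_tendsto_metrizable_ae (μ := μ)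
      (f := fun K => EX T (QB B t₀) K (f l)) (L := atTop)
      (fun K => (meas_EX hT (QB B t₀) K (hfm l)).aemeasurable) (ex_lim T hT (QB B t₀) (hfm l) (hf l))
    refine ⟨fun x => if ‖g₀ x‖ ≤ 1 then g₀ x else 0, ?_, ?_, ?_⟩
    · exact Measurable.ite (measurableSet_le hg₀.norm measurable_const) hg₀ measurable_const
    · intro x
      dsimp only
      split_ifs with h
      · exact h
      · simp
    · filter_upwards [hg₁] with x hx
      have h1 : ‖g₀ x‖ ≤ 1 := le_of_tendsto' hx.norm (fun K => norm_EX_le T (QB B t₀) K (hf l) x)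
      rw [if_pos h1]
      exact hx
  choose g hgm hg1 hgt using hlim
  have hinv : ∀ l, ∀ᵐ x ∂μ, ∀ m : ℤ, g l ((T ^ ((QB B t₀ : ℕ) : ℤ)) ((T ^ m) x)) = g l ((T ^ m) x) := by
    intro l
    filter_upwards [ae_orbit hT (hgt l)] with x hx m
    refine inv_lim T (QB B t₀) (hf l) (x := (T ^ m) x) (hx m) ?_
    have h1 := hx (((QB B t₀ : ℕ) : ℤ) + m)
    rw [zpow_add, Equiv.Perm.mul_apply] at h1
    exact h1
  refine ⟨g, hgm, hg1, hgt, fun l => ?_, ?_, ?_⟩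
  · filter_upwards [hinv l] with x hx
    simpa using hx 0
  · have hdec : ∀ l, ∀ᵐ x ∂μ, ∀ ε : ℝ, 0 < ε → ∃ J : ℕ, ∀ j, J ≤ j → ∀ N' : ℕ,
        (∑ t ∈ range N', ((‖EwX T B t₀ (tj j) (N j ^ e l / 2 ^ κ) (f l) ((T ^ ((P l).eval (t : ℤ))) x) -
          g l ((T ^ ((P l).eval (t : ℤ))) x)‖₊ : ℝ≥0) : ℝ)) / (N' : ℝ) ≤ ε := by
      intro l
      refine decay hT (P l) (fun j x => ‖EwX T B t₀ (tj j) (N j ^ e l / 2 ^ κ) (f l) x - g l x‖₊) (fun j => ?_)
        (fun j x => ?_) ?_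
      · exact ((meas_EX hT _ _ (hfm l)).sub (hgm l)).nnnorm
      · rw [← NNReal.coe_le_coe, coe_nnnorm]
        calc ‖EwX T B t₀ (tj j) (N j ^ e l / 2 ^ κ) (f l) x - g l x‖
            ≤ ‖EwX T B t₀ (tj j) (N j ^ e l / 2 ^ κ) (f l) x‖ + ‖g l x‖ := norm_sub_le _ _
          _ ≤ 1 + 1 := add_le_add (norm_EX_le T _ _ (hf l) x) (hg1 l x)
          _ = ((2 : ℝ≥0) : ℝ) := by norm_num
      · filter_upwards [hgt l] with x hx
        have h1 := hx.comp (K_tendsto (e l) (he l) B t₀ κ N hN)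
        have h2 := (h1.sub_const (g l x)).nnnorm
        rw [sub_self, nnnorm_zero] at h2
        exact h2
    filter_upwards [ae_all_iff.2 hdec] with x hx
    rw [Metric.tendsto_atTop]
    intro ε hε
    have hε' : 0 < ε / (n + 1 : ℝ) := by positivity
    choose J hJ using fun l => hx l _ hε'
    refine ⟨∑ l, J l, fun j hj => ?_⟩
    rw [dist_zero_right]
    unfold AX
    rw [← tv_sub]
    calc ‖tv (N j) (fun t => ∏ i, EwX T B t₀ (tj j) (N j ^ e i / 2 ^ κ) (f i) ((T ^ ((P i).eval (t : ℤ))) x) -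
          ∏ i, g i ((T ^ ((P i).eval (t : ℤ))) x))‖
        ≤ tvr (N j) (fun t => ‖∏ i, EwX T B t₀ (tj j) (N j ^ e i / 2 ^ κ) (f i) ((T ^ ((P i).eval (t : ℤ))) x) -
          ∏ i, g i ((T ^ ((P i).eval (t : ℤ))) x)‖) := norm_tv_le _ _
      _ ≤ tvr (N j) (fun t => ∑ i, ‖EwX T B t₀ (tj j) (N j ^ e i / 2 ^ κ) (f i) ((T ^ ((P i).eval (t : ℤ))) x) -
          g i ((T ^ ((P i).eval (t : ℤ))) x)‖) := by
        refine tvr_mono _ (fun t _ => ?_)
        exact prod_sub_le _ _ (fun i => norm_EX_le T _ _ (hf i) _) (fun i => hg1 i _)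
      _ = ∑ i, (∑ t ∈ range (N j), ‖EwX T B t₀ (tj j) (N j ^ e i / 2 ^ κ) (f i) ((T ^ ((P i).eval (t : ℤ))) x) -
          g i ((T ^ ((P i).eval (t : ℤ))) x)‖) / (N j : ℝ) := by
        unfold tvr
        rw [Finset.sum_comm, Finset.sum_div]
      _ ≤ ∑ _i : Fin n, ε / (n + 1 : ℝ) := by
        refine Finset.sum_le_sum (fun i _ => ?_)
        have h1 := hJ i j ((Finset.single_le_sum (fun _ _ => Nat.zero_le _) (Finset.mem_univ i)).trans hj) (N j)
        simpa using h1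
      _ < ε := by
        rw [Finset.sum_const, Finset.card_univ, Fintype.card_fin, nsmul_eq_mul]
        rw [mul_div_assoc', div_lt_iff₀ (by positivity)]
        nlinarith
  · filter_upwards [ae_all_iff.2 hinv] with x hx
    refine ⟨_, periodic_tv (QB B t₀) hQ1 _ (fun t => ?_)⟩
    refine Finset.prod_congr rfl (fun l _ => ?_)
    have hper : Function.Periodic (fun m : ℤ => g l ((T ^ m) x)) ((QB B t₀ : ℕ) : ℤ) := by
      intro m
      have h1 := hx l m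
      dsimp only
      rw [add_comm, zpow_add, Equiv.Perm.mul_apply]
      exact h1
    obtain ⟨k, hk⟩ := Polynomial.sub_dvd_eval_sub (((t + QB B t₀ : ℕ) : ℤ)) (t : ℤ) (P l)
    have h2 : ((t + QB B t₀ : ℕ) : ℤ) - (t : ℤ) = ((QB B t₀ : ℕ) : ℤ) := by push_cast; ring
    rw [h2] at hk
    have h3 : (P l).eval (((t + QB B t₀ : ℕ) : ℤ)) = (P l).eval (t : ℤ) + k * ((QB B t₀ : ℕ) : ℤ) := by
      linear_combination hk
    rw [h3]
    exact (hper.int_mul k) ((P l).eval (t : ℤ))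

theorem xlim (T : Equiv.Perm X) (hT : IMP μ T) {n : ℕ} (P : Fin n → ℤ[X]) (e : Fin n → ℕ) (he : ∀ l, 1 ≤ e l)
    (B t₀ κ : ℕ) (N : ℕ → ℕ) (hN : Sc N) (f : Fin n → X → ℂ) (hfm : ∀ l, Measurable (f l)) (hf : ∀ l x, ‖f l x‖ ≤ 1) :
    ∀ᵐ x ∂μ, ∃ L : ℂ, Tendsto (fun j : ℕ =>
      AX T (N j) P (fun l => EwX T B t₀ (tj j) (N j ^ e l / 2 ^ κ) (f l)) x) atTop (𝓝 L) := by
  obtain ⟨g, -, -, -, -, h5, h6⟩ := xlim_g (μ := μ) T hT P e he B t₀ κ N hN f hfm hf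
  have hNt : Tendsto N atTop atTop := by
    refine tendsto_atTop_mono (fun j => ?_) tendsto_id
    exact (Nat.lt_two_pow_self).le.trans (hN j).1
  filter_upwards [h5, h6] with x h5x h6x
  obtain ⟨L, hL⟩ := h6x
  refine ⟨0 + L, ?_⟩
  have h7 := h5x.add (hL.comp hNt)
  refine h7.congr (fun j => ?_)
  simp

end Pool.Agent.EQD.Lo
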