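import Pool.Agent.Lib.EQD.XAppr
import Pool.Agent.Lib.EQD.XLim

/-!
# EQD.XZero: the limit is zero if one of the functions is orthogonal to all functions invariant under a power of `T`
-/

set_option autoImplicit false

open Finset Polynomial MeasureTheory Filter Topology
open scoped ENNReal NNReal

namespace Pool.Agent.EQD.Lo

open Pool.Agent.HLT Pool.Agent.NLT Pool.Agent.NLG

theorem xscale_zero {n : ℕ} {P : Fin n → ℤ[X]} {e : Fin n → ℕ} (he : ∀ l, 1 ≤ e l) (hM : MidB P e) (hL : LowB P e)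
    (X : Type) [MeasurableSpace X] (μ : Measure X) [IsProbabilityMeasure μ] (T : Equiv.Perm X) (hT : IMP μ T)
    (f : Fin n → X → ℂ) (hfm : ∀ l, Measurable (f l)) (hf : ∀ l x, ‖f l x‖ ≤ 1) (i : Fin n)
    (hz : ∀ q : ℕ, 1 ≤ q → ∀ᵐ x ∂μ, Tendsto (fun K : ℕ => EX T q K (f i) x) atTop (𝓝 0)) (N : ℕ → ℕ) (hN : Sc N) :
    ∀ᵐ x ∂μ, Tendsto (fun j : ℕ => AX T (N j) P f x) atTop (𝓝 0) := by
  classical
  have hmp : ∀ m : ℤ, MeasurePreserving ((T ^ m : Equiv.Perm X) : X → X) μ μ := fun m =>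
    Pool.Agent.Lib.Pf720ae.mp_zpow hT.1 hT.2.1 hT.2.2 m
  have hmeas : ∀ (N' : ℕ) (u : Fin n → X → ℂ), (∀ l, Measurable (u l)) → Measurable (AX T N' P u) := by
    intro N' u hu
    unfold AX tv
    refine Measurable.div_const ?_ _
    exact Finset.measurable_sum _ fun h _ => Finset.measurable_prod _ fun l _ => (hu l).comp (hmp _).measurable
  have hEm : ∀ (B t T' lam : ℕ) (u : X → ℂ), Measurable u → Measurable (EwX T B t T' lam u) := by
    intro B t T' lam u hu
    unfold EwX EX tv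
    refine Measurable.div_const ?_ _
    exact Finset.measurable_sum _ fun h _ => hu.comp (hmp _).measurable
  choose B κ t₀ J₀ hB hX using fun m : ℕ => xappr hM hL ((1 / 4 : ℝ) ^ m) (by positivity)
  set E : ℕ → ℕ → X → ℂ := fun m j =>
    AX T (N j) P (fun l => EwX T (B m) (t₀ m) (tj j) (N j ^ e l / 2 ^ (κ m)) (f l)) with hE
  set Θ : ℕ → X → ℝ≥0∞ := fun m x => ⨆ j : ℕ, ⨆ (_ : J₀ m ≤ j), ‖AX T (N j) P f x - E m j x‖ₑ with hΘ
  have hΘ1 : ∀ m, ∫⁻ x, Θ m x ∂μ ≤ ENNReal.ofReal (2 * (1 / 4 : ℝ) ^ m) := fun m => hX m X μ T hT f hfm hf N hN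
  have hΘm : ∀ m, Measurable (Θ m) := by
    intro m
    refine Measurable.iSup fun j => Measurable.iSup fun _ => Measurable.enorm ?_
    exact (hmeas _ _ hfm).sub (hmeas _ _ fun l => hEm _ _ _ _ _ (hfm l))
  have hsum : ∫⁻ x, ∑' m, Θ m x ∂μ ≠ ⊤ := by
    rw [lintegral_tsum fun m => (hΘm m).aemeasurable]
    refine ne_top_of_le_ne_top ?_ (ENNReal.tsum_le_tsum hΘ1)
    rw [← ENNReal.ofReal_tsum_of_nonneg (fun m => by positivity)]
    · exact ENNReal.ofReal_ne_top
    · exact (summable_geometric_of_lt_one (by norm_num) (by norm_num)).mul_left 2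
  have hfin : ∀ᵐ x ∂μ, ∑' m, Θ m x < ⊤ := ae_lt_top (Measurable.tsum hΘm) hsum
  have hg : ∀ m, ∀ᵐ x ∂μ, Tendsto (fun j : ℕ => E m j x) atTop (𝓝 0) := by
    intro m
    obtain ⟨g, -, -, hg1, -, hg3, -⟩ := xlim_g (μ := μ) T hT P e he (B m) (t₀ m) (κ m) N hN f hfm hf
    have hg0 : ∀ᵐ x ∂μ, g i x = 0 := by
      have hQ : 1 ≤ QB (B m) (t₀ m) := Nat.one_le_iff_ne_zero.2 (by
        unfold QB
        exact pow_ne_zero _ (Nat.factorial_ne_zero _))
      filter_upwards [hg1 i, hz _ hQ] with x h1 h2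
      exact tendsto_nhds_unique h1 h2
    have hg0' : ∀ᵐ x ∂μ, ∀ z : ℤ, g i ((T ^ z) x) = 0 := by
      rw [ae_all_iff]; intro z
      exact (hmp z).quasiMeasurePreserving.ae hg0
    filter_upwards [hg3, hg0'] with x h1 h2
    have h3 : ∀ N', AX T N' P g x = 0 := by
      intro N'
      unfold AX tv
      rw [Finset.sum_eq_zero, zero_div]
      intro t _
      exact Finset.prod_eq_zero (mem_univ i) (h2 _)
    simpa only [h3, sub_zero] using h1
  rw [← ae_all_iff] at hg
  filter_upwards [hfin, hg] with x hx1 hx2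
  have h0 : Tendsto (fun m => Θ m x) atTop (𝓝 0) := ENNReal.tendsto_atTop_zero_of_tsum_ne_top hx1.ne
  rw [tendsto_zero_iff_norm_tendsto_zero, Metric.tendsto_atTop]
  intro ε hε
  have h1 : ∃ m, Θ m x < ENNReal.ofReal (ε / 2) := by
    have := (tendsto_order.1 h0).2 (ENNReal.ofReal (ε / 2)) (by simpa using hε)
    exact this.exists
  obtain ⟨m, hm⟩ := h1
  obtain ⟨j₁, hj₁⟩ := Metric.tendsto_atTop.1 (hx2 m) (ε / 2) (by positivity)
  refine ⟨max (J₀ m) j₁, fun j hj => ?_⟩
  have h2 : ‖AX T (N j) P f x - E m j x‖ₑ < ENNReal.ofReal (ε / 2) :=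
    lt_of_le_of_lt (le_iSup₂_of_le (f := fun (j : ℕ) (_ : J₀ m ≤ j) => ‖AX T (N j) P f x - E m j x‖ₑ) j
      (le_trans (le_max_left _ _) hj) le_rfl) hm
  rw [← ofReal_norm, ENNReal.ofReal_lt_ofReal_iff (by positivity)] at h2
  have h3 := hj₁ j (le_trans (le_max_right _ _) hj)
  rw [dist_zero_right] at h3
  rw [Real.dist_0_eq_abs, abs_norm]
  calc ‖AX T (N j) P f x‖ = ‖(AX T (N j) P f x - E m j x) + E m j x‖ := by rw [sub_add_cancel]
    _ ≤ ‖AX T (N j) P f x - E m j x‖ + ‖E m j x‖ := norm_add_le _ _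
    _ < ε / 2 + ε / 2 := add_lt_add h2 h3
    _ = ε := by ring

/-- A bounded function which is orthogonal to all functions invariant under `T ^ q` has vanishing averages. -/
theorem ex_zero {X : Type} [MeasurableSpace X] {μ : Measure X} [IsProbabilityMeasure μ] (T : Equiv.Perm X) (hT : IMP μ T)
    (q : ℕ) {f : X → ℂ} (hfm : Measurable f) (hf : ∀ x, ‖f x‖ ≤ 1)
    (hz : ∀ g : X → ℂ, MemLp g 2 μ → (∀ᵐ x ∂μ, g ((T ^ q) x) = g x) → ∫ x, f x * g x ∂μ = 0) :
    ∀ᵐ x ∂μ, Tendsto (fun K : ℕ => EX T q K f x) atTop (𝓝 0) := by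
  classical
  have hmp : ∀ m : ℤ, MeasurePreserving ((T ^ m : Equiv.Perm X) : X → X) μ μ := fun m =>
    Pool.Agent.Lib.Pf720ae.mp_zpow hT.1 hT.2.1 hT.2.2 m
  have hlim := ex_lim (μ := μ) T hT q hfm hf
  have hEm : ∀ K : ℕ, Measurable (fun x => EX T q K f x) := by
    intro K
    unfold EX tv
    refine Measurable.div_const ?_ _
    exact Finset.measurable_sum _ fun h _ => hfm.comp (hmp _).measurable
  have hEb : ∀ (K : ℕ) (x : X), ‖EX T q K f x‖ ≤ 1 := by
    intro K x
    unfold EX tv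
    rw [norm_div, Complex.norm_natCast]
    rcases Nat.eq_zero_or_pos K with h | h
    · subst h; simp
    · rw [div_le_one (by exact_mod_cast h)]
      calc ‖∑ t ∈ range K, f ((T ^ ((q * t : ℕ) : ℤ)) x)‖ ≤ ∑ t ∈ range K, ‖f ((T ^ ((q * t : ℕ) : ℤ)) x)‖ := norm_sum_le _ _
        _ ≤ ∑ t ∈ range K, (1 : ℝ) := Finset.sum_le_sum fun t _ => hf _
        _ = K := by simp
  set g : X → ℂ := fun x => if h : ∃ L : ℂ, Tendsto (fun K : ℕ => EX T q K f x) atTop (𝓝 L) then h.choose else 0 with hg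
  have hgt : ∀ᵐ x ∂μ, Tendsto (fun K : ℕ => EX T q K f x) atTop (𝓝 (g x)) := by
    filter_upwards [hlim] with x hx
    have : g x = hx.choose := by simp only [hg]; rw [dif_pos hx]
    rw [this]
    exact hx.choose_spec
  have hgm : AEMeasurable g μ := aemeasurable_of_tendsto_metrizable_ae atTop (fun K => (hEm K).aemeasurable) hgt
  have hgb : ∀ᵐ x ∂μ, ‖g x‖ ≤ 1 := by
    filter_upwards [hgt] with x hx
    exact le_of_tendsto hx.norm (Eventually.of_forall fun K => hEb K x)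
  -- invariance
  have hinv : ∀ᵐ x ∂μ, g ((T ^ q) x) = g x := by
    have h1 : ∀ᵐ x ∂μ, Tendsto (fun K : ℕ => EX T q K f ((T ^ (q : ℤ)) x)) atTop (𝓝 (g ((T ^ (q : ℤ)) x))) :=
      (hmp q).quasiMeasurePreserving.ae hgt
    filter_upwards [hgt, h1] with x hx hx1
    rw [zpow_natCast] at hx1
    have hd : Tendsto (fun K : ℕ => EX T q K f ((T ^ q) x) - EX T q K f x) atTop (𝓝 0) := by
      have hb : ∀ K : ℕ, ‖EX T q K f ((T ^ q) x) - EX T q K f x‖ ≤ 2 / (K : ℝ) := by
        intro K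
        have : EX T q K f ((T ^ q) x) - EX T q K f x =
            (f ((T ^ ((q * K : ℕ) : ℤ)) x) - f ((T ^ ((q * 0 : ℕ) : ℤ)) x)) / K := by
          unfold EX tv
          rw [← sub_div, ← Finset.sum_sub_distrib, ← Finset.sum_range_sub (fun t => f ((T ^ ((q * t : ℕ) : ℤ)) x)) K]
          congr 1
          refine Finset.sum_congr rfl fun t _ => ?_
          congr 2
          rw [zpow_natCast, zpow_natCast, ← Equiv.Perm.mul_apply, ← pow_add, Nat.mul_succ]
        rw [this, norm_div, Complex.norm_natCast]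
        gcongr
        calc _ ≤ _ := norm_sub_le _ _
          _ ≤ 1 + 1 := add_le_add (hf _) (hf _)
          _ = 2 := by norm_num
      exact squeeze_zero_norm hb (tendsto_const_div_atTop_nhds_zero_nat 2)
    have h2 := (hx1.sub hx)
    have := tendsto_nhds_unique h2 hd
    exact sub_eq_zero.1 this
  set c : X → ℂ := fun x => (starRingEnd ℂ) (g x) with hc
  have hcm : AEStronglyMeasurable c μ := (Complex.continuous_conj.measurable.comp_aemeasurable hgm).aestronglyMeasurable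
  have hcb : ∀ᵐ x ∂μ, ‖c x‖ ≤ 1 := by
    filter_upwards [hgb] with x hx
    simpa [hc] using hx
  have hcL : MemLp c 2 μ := MemLp.of_bound hcm 1 hcb
  have hcinv : ∀ᵐ x ∂μ, c ((T ^ q) x) = c x := by
    filter_upwards [hinv] with x hx
    simp only [hc, hx]
  have h0 := hz c hcL hcinv
  -- invariance under all powers
  have hcinv' : ∀ h : ℕ, ∀ᵐ x ∂μ, c ((T ^ ((q * h : ℕ) : ℤ)) x) = c x := by
    intro h
    induction h with
    | zero => simp
    | succ h ih =>
      have h1 : ∀ᵐ x ∂μ, c ((T ^ q) ((T ^ ((q * h : ℕ) : ℤ)) x)) = c ((T ^ ((q * h : ℕ) : ℤ)) x) :=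
        (hmp ((q * h : ℕ) : ℤ)).quasiMeasurePreserving.ae hcinv
      filter_upwards [ih, h1] with x hx hx1
      rw [← hx, ← hx1]
      congr 1
      rw [zpow_natCast, zpow_natCast, ← Equiv.Perm.mul_apply, ← pow_add, Nat.mul_succ, add_comm]
  have hterm : ∀ h : ℕ, ∫ x, f ((T ^ ((q * h : ℕ) : ℤ)) x) * c x ∂μ = 0 := by
    intro h
    have h1 : ∫ x, f ((T ^ ((q * h : ℕ) : ℤ)) x) * c x ∂μ =
        ∫ x, (fun y => f y * c y) ((T ^ ((q * h : ℕ) : ℤ)) x) ∂μ := by
      refine integral_congr_ae ?_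
      filter_upwards [hcinv' h] with x hx
      simp only [hx]
    rw [h1]
    have h2 := hmp ((q * h : ℕ) : ℤ)
    have h3 : AEStronglyMeasurable (fun y => f y * c y) μ := hfm.aestronglyMeasurable.mul hcm
    have h4 := integral_map (μ := μ) h2.measurable.aemeasurable (f := fun y => f y * c y) (by rw [h2.map_eq]; exact h3)
    rw [h2.map_eq] at h4
    rw [← h4]
    exact h0
  have hE0 : ∀ K : ℕ, ∫ x, EX T q K f x * c x ∂μ = 0 := by
    intro K
    have : ∀ x, EX T q K f x * c x = (∑ h ∈ range K, f ((T ^ ((q * h : ℕ) : ℤ)) x) * c x) / K := by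
      intro x
      unfold EX tv
      rw [div_mul_eq_mul_div, Finset.sum_mul]
    simp only [this]
    rw [integral_div, integral_finsetSum]
    · rw [Finset.sum_eq_zero fun h _ => hterm h]
      simp
    · intro h _
      refine Integrable.mono' (integrable_const (1 : ℝ)) ?_ ?_
      · exact (hfm.comp (hmp _).measurable).aestronglyMeasurable.mul hcm
      · filter_upwards [hcb] with x hx
        rw [norm_mul]
        exact mul_le_one₀ (hf _) (norm_nonneg _) hx
  have hlim2 : Tendsto (fun K : ℕ => ∫ x, EX T q K f x * c x ∂μ) atTop (𝓝 (∫ x, g x * c x ∂μ)) := by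
    refine tendsto_integral_of_dominated_convergence (fun _ => (1 : ℝ)) ?_ (integrable_const _) ?_ ?_
    · intro K
      exact (hEm K).aestronglyMeasurable.mul hcm
    · intro K
      filter_upwards [hcb] with x hx
      rw [norm_mul]
      exact mul_le_one₀ (hEb K x) (norm_nonneg _) hx
    · filter_upwards [hgt] with x hx
      exact hx.mul_const _
  have hg0 : ∫ x, g x * c x ∂μ = 0 := by
    refine tendsto_nhds_unique hlim2 ?_
    simp only [hE0]
    exact tendsto_const_nhds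
  have hsq : ∀ x, g x * c x = ((‖g x‖ ^ 2 : ℝ) : ℂ) := by
    intro x
    simp only [hc]
    rw [Complex.mul_conj, Complex.normSq_eq_norm_sq]
  simp only [hsq] at hg0
  rw [integral_complex_ofReal] at hg0
  have hg1 : ∫ x, ‖g x‖ ^ 2 ∂μ = 0 := by exact_mod_cast hg0
  have hint : Integrable (fun x => ‖g x‖ ^ 2) μ := by
    refine Integrable.mono' (integrable_const (1 : ℝ)) ((hgm.norm.pow_const 2).aestronglyMeasurable) ?_
    filter_upwards [hgb] with x hx
    rw [norm_pow, norm_norm]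
    exact pow_le_one₀ (norm_nonneg _) hx
  rw [integral_eq_zero_iff_of_nonneg (fun x => by positivity) hint] at hg1
  filter_upwards [hgt, hg1] with x hx hx1
  have : g x = 0 := by
    have : ‖g x‖ ^ 2 = 0 := hx1
    simpa using this
  rw [this] at hx
  exact hx

end Pool.Agent.EQD.Lo
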