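import Pool.Agent.Lib.EQD.XScale
import Pool.Agent.Lib.EQD.XAll
import Pool.Agent.Lib.EQD.XZero

/-!
# EQD.Final: the theorem for bounded functions, from `MidB` and `LowB`
-/

set_option autoImplicit false

open Finset Polynomial MeasureTheory Filter Topology
open scoped ENNReal NNReal

namespace Pool.Agent.EQD.Lo

open Pool.Agent.HLT Pool.Agent.NLT Pool.Agent.NLG

/-- The condition on the polynomials: same degree `D`, and with respect to the base `i₀` the differences have pairwise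
distinct degrees in `[1, D - 1]`. -/
def EqualDeg {n : ℕ} (P : Fin n → ℤ[X]) (i₀ : Fin n) : Prop :=
  (∀ i, i ≠ i₀ → 1 ≤ (P i - P i₀).natDegree ∧ (P i - P i₀).natDegree < (P i₀).natDegree) ∧
  ∀ i j, i ≠ i₀ → j ≠ i₀ → i ≠ j → (P i - P i₀).natDegree ≠ (P j - P i₀).natDegree

/-- Sorting the slots. -/
theorem exists_sort (k : ℕ) (P : Fin (k + 2) → ℤ[X]) (i₀ : Fin (k + 2)) (h : EqualDeg P i₀) :
    ∃ σ : Equiv.Perm (Fin (k + 2)), σ 0 = i₀ ∧
      StrictMono (fun j : Fin (k + 1) => (P (σ j.succ) - P i₀).natDegree) := by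
  classical
  obtain ⟨h1, h2⟩ := h
  set deg : Fin (k + 2) → ℕ := fun i => (P i - P i₀).natDegree with hdeg
  set s : Finset ℕ := (univ.erase i₀).image deg with hs
  have hinj : Set.InjOn deg (univ.erase i₀ : Finset (Fin (k + 2))) := by
    intro i hi j hj hij
    by_contra hne
    exact h2 i j (by simpa using hi) (by simpa using hj) hne hij
  have hcard : s.card = k + 1 := by
    rw [hs, Finset.card_image_of_injOn hinj, Finset.card_erase_of_mem (mem_univ _)]
    simp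
  have hmem : ∀ j : Fin (k + 1), ∃ i : Fin (k + 2), i ≠ i₀ ∧ deg i = s.orderEmbOfFin hcard j := by
    intro j
    obtain ⟨i, hi, hij⟩ := Finset.mem_image.1 (Finset.orderEmbOfFin_mem s hcard j)
    exact ⟨i, by simpa using hi, by rw [hij]⟩
  choose τ hτ1 hτ2 using hmem
  have hτinj : Function.Injective τ := by
    intro a b hab
    have := hτ2 a
    rw [hab, hτ2 b] at this
    exact ((s.orderEmbOfFin hcard).injective this).symm
  let φ : Fin (k + 2) → Fin (k + 2) := Fin.cons i₀ τ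
  have hφinj : Function.Injective φ := by
    intro a b hab
    induction a using Fin.cases with
    | zero =>
      induction b using Fin.cases with
      | zero => rfl
      | succ b => exact absurd hab (by simpa [φ] using (hτ1 b).symm)
    | succ a =>
      induction b using Fin.cases with
      | zero => exact absurd hab (by simpa [φ] using (hτ1 a))
      | succ b => exact congrArg Fin.succ (hτinj (by simpa [φ] using hab))
  let σ : Equiv.Perm (Fin (k + 2)) := Equiv.ofBijective φ ((Finite.injective_iff_bijective).1 hφinj)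
  refine ⟨σ, by simp [σ, φ], ?_⟩
  intro a b hab
  have ha : (P (σ a.succ) - P i₀).natDegree = s.orderEmbOfFin hcard a := by
    have : σ a.succ = τ a := by simp [σ, φ]
    rw [this]; exact hτ2 a
  have hb : (P (σ b.succ) - P i₀).natDegree = s.orderEmbOfFin hcard b := by
    have : σ b.succ = τ b := by simp [σ, φ]
    rw [this]; exact hτ2 b
  show (P (σ a.succ) - P i₀).natDegree < (P (σ b.succ) - P i₀).natDegree
  rw [ha, hb]
  exact (s.orderEmbOfFin hcard).strictMono hab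

/-- Permuting the slots. -/
theorem AX_perm {X : Type} (T : Equiv.Perm X) {n : ℕ} (N : ℕ) (P : Fin n → ℤ[X]) (f : Fin n → X → ℂ)
    (σ : Equiv.Perm (Fin n)) (x : X) : AX T N (fun i => P (σ i)) (fun i => f (σ i)) x = AX T N P f x := by
  unfold AX
  congr 1
  funext t
  exact Equiv.prod_comp σ (fun i => f i ((T ^ ((P i).eval (t : ℤ))) x))

/-- What the two halves of the approximation give, for the families `P, P + R_0, ..., P + R_k`. -/
def Halves : Prop :=
  ∀ (k : ℕ) (P : ℤ[X]) (R : Fin (k + 1) → ℤ[X]) (d : Fin (k + 1) → ℕ), StrictMono d → (∀ j, 1 ≤ d j) →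
    (∀ j, (R j).natDegree = d j) → (∀ j, d j < P.natDegree) →
    MidB (Fin.cons P (fun j => P + R j) : Fin (k + 2) → ℤ[X]) (Fin.cons (d 0) d : Fin (k + 2) → ℕ) ∧
    LowB (Fin.cons P (fun j => P + R j) : Fin (k + 2) → ℤ[X]) (Fin.cons (d 0) d : Fin (k + 2) → ℕ)

section dyn

variable {X : Type} [MeasurableSpace X] {μ : Measure X} [IsProbabilityMeasure μ]

/-- Functions bounded by one, averages over `t < N`. -/
theorem conv_bdd (H : Halves) (k : ℕ) (P : Fin (k + 2) → ℤ[X]) (i₀ : Fin (k + 2)) (h : EqualDeg P i₀)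
    (T : Equiv.Perm X) (hT : IMP μ T) (f : Fin (k + 2) → X → ℂ) (hfm : ∀ l, Measurable (f l)) (hf : ∀ l x, ‖f l x‖ ≤ 1) :
    (∀ᵐ x ∂μ, ∃ L : ℂ, Tendsto (fun N : ℕ => AX T N P f x) atTop (𝓝 L)) ∧
    ((∀ q : ℕ, 1 ≤ q → Ergodic (T ^ q : Equiv.Perm X) μ) →
      ∀ᵐ x ∂μ, Tendsto (fun N : ℕ => AX T N P f x) atTop (𝓝 (∏ l, ∫ y, f l y ∂μ))) ∧
    (∀ i, (∀ q : ℕ, 1 ≤ q → ∀ᵐ x ∂μ, Tendsto (fun K : ℕ => EX T q K (f i) x) atTop (𝓝 0)) →
      ∀ᵐ x ∂μ, Tendsto (fun N : ℕ => AX T N P f x) atTop (𝓝 0)) := by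
  obtain ⟨σ, hσ0, hσ⟩ := exists_sort k P i₀ h
  set R : Fin (k + 1) → ℤ[X] := fun j => P (σ j.succ) - P i₀ with hR
  have hne : ∀ j : Fin (k + 1), σ j.succ ≠ i₀ := by
    intro j hj
    rw [← hσ0] at hj
    exact absurd (σ.injective hj) (Fin.succ_ne_zero j)
  have hfam : (Fin.cons (P i₀) (fun j => P i₀ + R j) : Fin (k + 2) → ℤ[X]) = fun i => P (σ i) := by
    funext i
    induction i using Fin.cases with
    | zero => simp [hσ0]
    | succ j => simp [hR]
  have hpos : ∀ j, 1 ≤ (R j).natDegree := fun j => (h.1 _ (hne j)).1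
  obtain ⟨hM, hL⟩ := H k (P i₀) R (fun j => (R j).natDegree) hσ hpos (fun _ => rfl) (fun j => (h.1 _ (hne j)).2)
  rw [hfam] at hM hL
  have he : ∀ l : Fin (k + 2), 1 ≤ (Fin.cons (R 0).natDegree (fun j => (R j).natDegree) : Fin (k + 2) → ℕ) l := by
    intro l
    induction l using Fin.cases with
    | zero => simpa using hpos 0
    | succ j => simpa using hpos j
  have key : ∀ᵐ x ∂μ, ∃ L : ℂ, Tendsto (fun N : ℕ => AX T N (fun i => P (σ i)) (fun i => f (σ i)) x) atTop (𝓝 L) :=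
    xall _ X μ T _ (fun l x => hf _ x)
      (fun N hN => xscale he hM hL X μ T hT _ (fun l => hfm _) (fun l x => hf _ x) N hN)
  simp only [AX_perm] at key
  have hN : Sc (fun j => 2 ^ j) := fun j => ⟨le_refl _, Nat.pow_lt_pow_right (by norm_num) (Nat.lt_succ_self j)⟩
  have hpow : Tendsto (fun j : ℕ => 2 ^ j) atTop atTop := tendsto_pow_atTop_atTop_of_one_lt (by norm_num)
  refine ⟨key, fun hE => ?_, fun i hi => ?_⟩
  · have h2 := xscale_erg he hM hL X μ T hT hE (fun i => f (σ i)) (fun l => hfm _) (fun l x => hf _ x) _ hN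
    simp only [AX_perm] at h2
    filter_upwards [key, h2] with x hx1 hx2
    obtain ⟨L, hL'⟩ := hx1
    have := tendsto_nhds_unique (hL'.comp hpow) hx2
    rw [this, Equiv.prod_comp σ (fun l => ∫ y, f l y ∂μ)] at hL'
    exact hL'
  · have h2 := xscale_zero he hM hL X μ T hT (fun i => f (σ i)) (fun l => hfm _) (fun l x => hf _ x) (σ.symm i)
      (by simpa using hi) _ hN
    simp only [AX_perm] at h2
    filter_upwards [key, h2] with x hx1 hx2
    obtain ⟨L, hL'⟩ := hx1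
    have := tendsto_nhds_unique (hL'.comp hpow) hx2
    rw [this] at hL'
    exact hL'

/-- The shift `m = t + 1`. -/
theorem AX_shift (T : Equiv.Perm X) {n : ℕ} (N : ℕ) (P : Fin n → ℤ[X]) (f : Fin n → X → ℂ) (x : X) :
    AX T N (fun i => (P i).comp (Polynomial.X + 1)) f x =
      (N : ℂ)⁻¹ * ∑ m ∈ Finset.Icc 1 N, ∏ i, f i ((T ^ ((P i).eval (m : ℤ))) x) := by
  unfold AX tv
  rw [div_eq_inv_mul]
  congr 1
  have h1 : ∑ m ∈ Finset.Icc 1 N, ∏ i, f i ((T ^ ((P i).eval (m : ℤ))) x) =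
      ∑ t ∈ Finset.range N, ∏ i, f i ((T ^ ((P i).eval ((t + 1 : ℕ) : ℤ))) x) := by
    rw [Finset.range_eq_Ico, Finset.sum_Ico_add' (fun m : ℕ => ∏ i, f i ((T ^ ((P i).eval (m : ℤ))) x)) 0 N 1]
    rfl
  rw [h1]
  refine Finset.sum_congr rfl fun t _ => ?_
  refine Finset.prod_congr rfl fun i _ => ?_
  simp

theorem EqualDeg_shift {n : ℕ} {P : Fin n → ℤ[X]} {i₀ : Fin n} (h : EqualDeg P i₀) :
    EqualDeg (fun i => (P i).comp (Polynomial.X + 1)) i₀ := by
  have h1 : ∀ Q : ℤ[X], (Q.comp (Polynomial.X + 1)).natDegree = Q.natDegree := by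
    intro Q
    rw [Polynomial.natDegree_comp]
    have : (Polynomial.X + 1 : ℤ[X]).natDegree = 1 := by
      rw [show (1 : ℤ[X]) = Polynomial.C 1 by simp]
      exact Polynomial.natDegree_X_add_C 1
    rw [this, mul_one]
  unfold EqualDeg at *
  simp only [← Polynomial.sub_comp, h1]
  exact h

/-- Bounded measurable modification. -/
theorem bdd_mod {f : X → ℂ} (hf : MemLp f ⊤ μ) :
    ∃ (c : ℝ) (g : X → ℂ), 0 < c ∧ Measurable g ∧ (∀ x, ‖g x‖ ≤ 1) ∧ ∀ᵐ x ∂μ, f x = (c : ℂ) * g x := by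
  classical
  set c : ℝ := (eLpNorm f ⊤ μ).toReal + 1 with hc
  have hc0 : 0 < c := by positivity
  have hb : ∀ᵐ x ∂μ, ‖f x‖ ≤ c := by
    have h1 := ae_le_eLpNormEssSup (f := f) (μ := μ)
    filter_upwards [h1] with x hx
    have h2 : ‖f x‖ₑ ≤ eLpNorm f ⊤ μ := by rw [eLpNorm_exponent_top]; exact hx
    have h3 : ‖f x‖ = (‖f x‖ₑ).toReal := by simp
    rw [h3]
    have := ENNReal.toReal_mono hf.2.ne h2
    linarith
  set h : X → ℂ := hf.1.mk f with hh
  have hm : Measurable h := hf.1.stronglyMeasurable_mk.measurable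
  refine ⟨c, fun x => if ‖h x‖ ≤ c then h x / c else 0, hc0, ?_, ?_, ?_⟩
  · exact Measurable.ite (measurableSet_le hm.norm measurable_const) (hm.div_const _) measurable_const
  · intro x
    beta_reduce
    split_ifs with hx
    · rw [norm_div, Complex.norm_real, Real.norm_of_nonneg hc0.le]
      exact div_le_one_of_le₀ hx hc0.le
    · simp
  · filter_upwards [hb, hf.1.ae_eq_mk] with x hx1 hx2
    have hx3 : ‖h x‖ ≤ c := by rw [hh, ← hx2]; exact hx1
    have hx4 : f x = h x := hx2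
    have : (c : ℂ) ≠ 0 := by exact_mod_cast hc0.ne'
    rw [if_pos hx3, hx4]
    field_simp

/-- The theorem. -/
theorem final (H : Halves) (n : ℕ) (hn : 2 ≤ n) (T : Equiv.Perm X) (hT : IMP μ T)
    (P : Fin n → ℤ[X]) (i₀ : Fin n) (h : EqualDeg P i₀) (f : Fin n → X → ℂ) (hf : ∀ i, MemLp (f i) ⊤ μ) :
    (∀ᵐ x ∂μ, ∃ L : ℂ, Tendsto (fun N : ℕ => (N : ℂ)⁻¹ *
      ∑ m ∈ Finset.Icc 1 N, ∏ i, f i ((T ^ ((P i).eval (m : ℤ))) x)) atTop (𝓝 L)) ∧
    ((∀ q : ℕ, 1 ≤ q → Ergodic (T ^ q : Equiv.Perm X) μ) →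
      ∀ᵐ x ∂μ, Tendsto (fun N : ℕ => (N : ℂ)⁻¹ *
        ∑ m ∈ Finset.Icc 1 N, ∏ i, f i ((T ^ ((P i).eval (m : ℤ))) x)) atTop (𝓝 (∏ i, ∫ x, f i x ∂μ))) ∧
    (∀ i, (∀ q : ℕ, 1 ≤ q → ∀ g : X → ℂ, MemLp g 2 μ → (∀ᵐ x ∂μ, g ((T ^ q) x) = g x) → ∫ x, f i x * g x ∂μ = 0) →
      ∀ᵐ x ∂μ, Tendsto (fun N : ℕ => (N : ℂ)⁻¹ *
        ∑ m ∈ Finset.Icc 1 N, ∏ i, f i ((T ^ ((P i).eval (m : ℤ))) x)) atTop (𝓝 0)) := by
  obtain ⟨k, rfl⟩ : ∃ k, n = k + 2 := ⟨n - 2, by omega⟩
  choose c g hc0 hgm hgb hfg using fun i => bdd_mod (hf i)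
  have horb : ∀ᵐ x ∂μ, ∀ i, ∀ m : ℤ, f i ((T ^ m) x) = (c i : ℂ) * g i ((T ^ m) x) := by
    rw [ae_all_iff]; intro i
    rw [ae_all_iff]; intro m
    exact (Pool.Agent.Lib.Pf720ae.mp_zpow hT.1 hT.2.1 hT.2.2 m).quasiMeasurePreserving.ae (hfg i)
  have heq : ∀ᵐ x ∂μ, ∀ N : ℕ, (N : ℂ)⁻¹ * ∑ m ∈ Finset.Icc 1 N, ∏ i, f i ((T ^ ((P i).eval (m : ℤ))) x) =
      (∏ i, (c i : ℂ)) * AX T N (fun i => (P i).comp (Polynomial.X + 1)) g x := by
    filter_upwards [horb] with x hx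
    intro N
    rw [AX_shift, mul_left_comm]
    congr 1
    rw [Finset.mul_sum]
    refine Finset.sum_congr rfl fun m _ => ?_
    rw [← Finset.prod_mul_distrib]
    exact Finset.prod_congr rfl fun i _ => hx i _
  obtain ⟨h1, h2, h3⟩ := conv_bdd (μ := μ) H k _ i₀ (EqualDeg_shift h) T hT g hgm hgb
  refine ⟨?_, ?_, ?_⟩
  · filter_upwards [heq, h1] with x hx1 hx2
    obtain ⟨L, hL⟩ := hx2
    refine ⟨(∏ i, (c i : ℂ)) * L, ?_⟩
    simp only [hx1]
    exact hL.const_mul _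
  · intro hE
    filter_upwards [heq, h2 hE] with x hx1 hx2
    simp only [hx1]
    have hint : (∏ i, ∫ x, f i x ∂μ) = (∏ i, (c i : ℂ)) * ∏ i, ∫ x, g i x ∂μ := by
      rw [← Finset.prod_mul_distrib]
      refine Finset.prod_congr rfl fun i _ => ?_
      rw [← integral_const_mul]
      exact integral_congr_ae (hfg i)
    rw [hint]
    exact hx2.const_mul _
  · intro i hi
    have hz : ∀ q : ℕ, 1 ≤ q → ∀ᵐ x ∂μ, Tendsto (fun K : ℕ => EX T q K (g i) x) atTop (𝓝 0) := by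
      intro q hq
      refine ex_zero T hT q (hgm i) (hgb i) fun u hu hinv => ?_
      have h4 := hi q hq u hu hinv
      have h5 : ∫ x, f i x * u x ∂μ = (c i : ℂ) * ∫ x, g i x * u x ∂μ := by
        rw [← integral_const_mul]
        refine integral_congr_ae ?_
        filter_upwards [hfg i] with x hx
        rw [hx]; ring
      rw [h5] at h4
      exact (mul_eq_zero.1 h4).resolve_left (by exact_mod_cast (hc0 i).ne')
    filter_upwards [heq, h3 i hz] with x hx1 hx2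
    simp only [hx1]
    simpa using hx2.const_mul (∏ i, (c i : ℂ))

end dyn

end Pool.Agent.EQD.Lo
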