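import Pool.Agent.Lib.EQD.AAB

/-!
# Module Impr: the linear improving inequality

PROOF. With `s = card E / M` and `u = 1_E`: `avr (AR N p u) ^ 2 = ∑_ξ ‖a ξ‖ ^ 2 ‖ft u ξ‖ ^ 2`, `a ξ = tv N (fun t => chi ξ (pz M p t))`, `‖ft u ξ‖ ≤ s`, `∑ ‖ft u ξ‖ ^ 2 = s`.
Let `C₁` be the constant of `weyl_mod D`. The number of `ξ` with `‖a ξ‖ ≥ 1 / R` (`R ≥ 2`) is at most `C₂ R ^ C₃`: if `R ^ C₁ ≤ N`, then for some `q ≤ R ^ C₁`
`nrm (q c ξ.val / M) ≤ R ^ C₁ / N ^ D`, `c` = leading coefficient, and for `b = q |c| ≥ 1` the number of `ξ < M` with `nrm (b ξ / M) ≤ δ` is `≤ (b + 1)(2 δ M / b + 1)`-ish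
`≤ 2 δ M + 2 b + 2 + ..`: the integers `k = round (b ξ / M) ∈ [0, b]`, `|ξ - k M / b| ≤ δ M / b`; `δ M ≤ R ^ C₁ B`. If `R ^ C₁ > N` there are at most
`M ≤ B N ^ D ≤ B R ^ (C₁ D)` values of `ξ` at all. So the sum is `≤ s / R ^ 2 + C₂ R ^ C₃ s ^ 2 ≤ C s / R` if `s ≤ R ^ (- C₃ - 1)`. For `R = 1` use `n2_AR_le`.
-/

set_option autoImplicit false

open Finset Polynomial

namespace Pool.Agent.EQD

open Pool.Agent.HLT Pool.Agent.NLT Pool.Agent.NLG

namespace ImprAux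

lemma count_b {M : ℕ} [NeZero M] (b T : ℕ) (hb : 1 ≤ b) (S : Finset (ZMod M))
    (h : ∀ ξ ∈ S, nrm ((b : ℝ) * ((ξ.val : ℝ) / (M : ℝ))) * M ≤ T) :
    S.card ≤ (b + 1) * (2 * T + 1) := by
  classical
  have hM : (0 : ℝ) < M := by exact_mod_cast Nat.pos_of_ne_zero (NeZero.ne M)
  set φ : ZMod M → ℤ × ℤ := fun ξ => (round ((b : ℝ) * ((ξ.val : ℝ) / (M : ℝ))),
    (b : ℤ) * (ξ.val : ℤ) - round ((b : ℝ) * ((ξ.val : ℝ) / (M : ℝ))) * (M : ℤ)) with hφ
  have hmaps : ∀ ξ ∈ S, φ ξ ∈ (Icc (0 : ℤ) b) ×ˢ (Icc (-(T : ℤ)) T) := by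
    intro ξ hξ
    have h1 := h ξ hξ
    have hv : ξ.val < M := ZMod.val_lt ξ
    have hv' : (ξ.val : ℝ) < M := by exact_mod_cast hv
    have hv0 : (0 : ℝ) ≤ ξ.val := Nat.cast_nonneg _
    have hy0 : 0 ≤ (b : ℝ) * ((ξ.val : ℝ) / (M : ℝ)) := by positivity
    have hb0 : (0 : ℝ) < b := by exact_mod_cast hb
    have hy1 : (b : ℝ) * ((ξ.val : ℝ) / (M : ℝ)) < b := by
      have : (ξ.val : ℝ) / (M : ℝ) < 1 := by rw [div_lt_one hM]; exact hv'
      nlinarith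
    have h2 := abs_sub_round ((b : ℝ) * ((ξ.val : ℝ) / (M : ℝ)))
    have h3 := abs_le.mp h2
    rw [mem_product, mem_Icc, mem_Icc, hφ]
    simp only
    refine ⟨⟨?_, ?_⟩, ?_⟩
    · have : (-1 : ℝ) < (round ((b : ℝ) * ((ξ.val : ℝ) / (M : ℝ))) : ℝ) := by linarith
      have h4 : (-1 : ℤ) < round ((b : ℝ) * ((ξ.val : ℝ) / (M : ℝ))) := by exact_mod_cast this
      omega
    · have : (round ((b : ℝ) * ((ξ.val : ℝ) / (M : ℝ))) : ℝ) < (b : ℝ) + 1 := by linarith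
      have h4 : round ((b : ℝ) * ((ξ.val : ℝ) / (M : ℝ))) < (b : ℤ) + 1 := by exact_mod_cast this
      omega
    · rw [← abs_le]
      have h5 : |((b : ℤ) * (ξ.val : ℤ) - round ((b : ℝ) * ((ξ.val : ℝ) / (M : ℝ))) * (M : ℤ) : ℝ)| ≤
          (T : ℝ) := by
        have e : ((b : ℤ) * (ξ.val : ℤ) - round ((b : ℝ) * ((ξ.val : ℝ) / (M : ℝ))) * (M : ℤ) : ℝ) =
            ((b : ℝ) * ((ξ.val : ℝ) / (M : ℝ)) - round ((b : ℝ) * ((ξ.val : ℝ) / (M : ℝ)))) * M := by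
          push_cast
          field_simp
        rw [e, abs_mul, abs_of_pos hM]
        exact h1
      exact_mod_cast h5
  have hinj : Set.InjOn φ S := by
    intro ξ _ η _ hξη
    rw [hφ] at hξη
    simp only [Prod.mk.injEq] at hξη
    obtain ⟨h1, h2⟩ := hξη
    rw [h1] at h2
    have h3 : (b : ℤ) * (ξ.val : ℤ) = (b : ℤ) * (η.val : ℤ) := by linarith
    have h4 : (ξ.val : ℤ) = (η.val : ℤ) :=
      mul_left_cancel₀ (by exact_mod_cast (by omega : b ≠ 0)) h3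
    exact ZMod.val_injective M (by exact_mod_cast h4)
  have h1 := Finset.card_le_card_of_injOn φ hmaps hinj
  rw [card_product, Int.card_Icc, Int.card_Icc] at h1
  have h2 : ((b : ℤ) + 1 - 0).toNat = b + 1 := by omega
  have h3 : ((T : ℤ) + 1 - -(T : ℤ)).toNat = 2 * T + 1 := by omega
  rwa [h2, h3] at h1

lemma card_big (p : ℤ[X]) (D : ℕ) (hp : p.natDegree = D) (hD : 1 ≤ D) (B : ℕ) :
    ∃ C₂ C₃ : ℕ, ∀ (M : ℕ) [NeZero M] (N R : ℕ), 2 ≤ R → 1 ≤ N → M ≤ B * N ^ D →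
      (univ.filter (fun ξ : ZMod M => 1 / (R : ℝ) ≤ ‖tv N (fun t => chi ξ (pz M p t))‖)).card ≤
        C₂ * R ^ C₃ := by
  classical
  obtain ⟨C₁, hC₁⟩ := weyl_mod D hD
  set c : ℕ := (p.coeff D).natAbs with hc
  have hc0 : p.coeff D ≠ 0 := by
    rw [← hp]
    have : p ≠ 0 := by
      rintro rfl
      simp at hp
      omega
    exact leadingCoeff_ne_zero.mpr this
  have hc1 : 1 ≤ c := Int.natAbs_pos.mpr hc0
  refine ⟨(c + 1) * (2 * B + 1), 3 * C₁ + C₁ * D, ?_⟩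
  intro M _ N R hR hN hM
  have hM0 : (0 : ℝ) < M := by exact_mod_cast Nat.pos_of_ne_zero (NeZero.ne M)
  have hN0 : (0 : ℝ) < N := by exact_mod_cast hN
  rcases le_or_gt (R ^ C₁) N with hcase | hcase
  · set F : ℕ → Finset (ZMod M) := fun q => univ.filter (fun ξ : ZMod M =>
      nrm ((q : ℝ) * (p.coeff D : ℝ) * ((ξ.val : ℝ) / (M : ℝ))) ≤ (R : ℝ) ^ C₁ / (N : ℝ) ^ D) with hF
    have hsub : univ.filter (fun ξ : ZMod M => 1 / (R : ℝ) ≤ ‖tv N (fun t => chi ξ (pz M p t))‖) ⊆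
        (Icc 1 (R ^ C₁)).biUnion F := by
      intro ξ hξ
      rw [mem_filter] at hξ
      obtain ⟨q, hq1, hq2, hq3⟩ := hC₁ M N R p ξ hR hcase hp.le hξ.2
      rw [mem_biUnion]
      exact ⟨q, mem_Icc.mpr ⟨hq1, hq2⟩, by rw [hF]; exact mem_filter.mpr ⟨mem_univ _, hq3⟩⟩
    have hFc : ∀ q ∈ Icc 1 (R ^ C₁), (F q).card ≤ (R ^ C₁ * c + 1) * (2 * (B * R ^ C₁) + 1) := by
      intro q hq
      rw [mem_Icc] at hq
      have h1 : (F q).card ≤ (q * c + 1) * (2 * (B * R ^ C₁) + 1) := by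
        refine count_b (q * c) (B * R ^ C₁) (Nat.mul_pos hq.1 hc1) (F q) ?_
        intro ξ hξ
        rw [hF] at hξ
        have h2 := (mem_filter.mp hξ).2
        have h3 : nrm (((q * c : ℕ) : ℝ) * ((ξ.val : ℝ) / (M : ℝ))) =
            nrm ((q : ℝ) * (p.coeff D : ℝ) * ((ξ.val : ℝ) / (M : ℝ))) := by
          rcases Int.natAbs_eq (p.coeff D) with h4 | h4
          · rw [h4, ← hc]
            push_cast
            rfl
          · rw [h4, ← hc]
            push_cast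
            rw [← nrm_ng]
            congr 1
            ring
        rw [h3]
        calc nrm ((q : ℝ) * (p.coeff D : ℝ) * ((ξ.val : ℝ) / (M : ℝ))) * M
            ≤ ((R : ℝ) ^ C₁ / (N : ℝ) ^ D) * (B * (N : ℝ) ^ D) := by
              refine mul_le_mul h2 (by exact_mod_cast hM) hM0.le (by positivity)
          _ = ((B * R ^ C₁ : ℕ) : ℝ) := by
              push_cast
              field_simp
      refine h1.trans (Nat.mul_le_mul_right _ ?_)
      exact Nat.add_le_add_right (Nat.mul_le_mul_right _ hq.2) 1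
    have hP : 1 ≤ R ^ C₁ := Nat.one_le_pow _ _ (by omega)
    calc (univ.filter (fun ξ : ZMod M => 1 / (R : ℝ) ≤ ‖tv N (fun t => chi ξ (pz M p t))‖)).card
        ≤ ((Icc 1 (R ^ C₁)).biUnion F).card := card_le_card hsub
      _ ≤ ∑ q ∈ Icc 1 (R ^ C₁), (F q).card := card_biUnion_le
      _ ≤ ∑ _q ∈ Icc 1 (R ^ C₁), (R ^ C₁ * c + 1) * (2 * (B * R ^ C₁) + 1) := sum_le_sum hFc
      _ = R ^ C₁ * ((R ^ C₁ * c + 1) * (2 * (B * R ^ C₁) + 1)) := by
          rw [sum_const, Nat.card_Icc, smul_eq_mul]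
          congr 1
      _ ≤ R ^ C₁ * ((R ^ C₁ * (c + 1)) * (R ^ C₁ * (2 * B + 1))) := by
          refine Nat.mul_le_mul_left _ (Nat.mul_le_mul ?_ ?_)
          · rw [Nat.mul_add, Nat.mul_one]
            omega
          · calc 2 * (B * R ^ C₁) + 1 ≤ 2 * (B * R ^ C₁) + R ^ C₁ := by omega
              _ = R ^ C₁ * (2 * B + 1) := by ring
      _ = (c + 1) * (2 * B + 1) * R ^ (3 * C₁) := by
          rw [show 3 * C₁ = C₁ + C₁ + C₁ by ring, pow_add, pow_add]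
          ring
      _ ≤ (c + 1) * (2 * B + 1) * R ^ (3 * C₁ + C₁ * D) :=
          Nat.mul_le_mul_left _ (Nat.pow_le_pow_right (by omega) (by omega))
  · calc (univ.filter (fun ξ : ZMod M => 1 / (R : ℝ) ≤ ‖tv N (fun t => chi ξ (pz M p t))‖)).card
        ≤ (univ : Finset (ZMod M)).card := card_le_card (filter_subset _ _)
      _ = M := by rw [card_univ, ZMod.card]
      _ ≤ B * N ^ D := hM
      _ ≤ B * (R ^ C₁) ^ D := Nat.mul_le_mul_left _ (Nat.pow_le_pow_left hcase.le D)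
      _ = B * R ^ (C₁ * D) := by rw [pow_mul]
      _ ≤ (c + 1) * (2 * B + 1) * R ^ (3 * C₁ + C₁ * D) := by
          refine Nat.mul_le_mul ?_ (Nat.pow_le_pow_right (by omega) (by omega))
          nlinarith

lemma avr_sq {M : ℕ} [NeZero M] (N : ℕ) (p : ℤ[X]) (u : ZMod M → ℝ) :
    avr (fun x => AR N p u x ^ 2) =
      ∑ ξ, ‖ft (fun y => (u y : ℂ)) ξ‖ ^ 2 * ‖tv N (fun t => chi ξ (pz M p t))‖ ^ 2 := by
  have h1 : ∀ x, ((AR N p u x : ℝ) : ℂ) =
      ∑ ξ, (ft (fun y => (u y : ℂ)) ξ * tv N (fun t => chi ξ (pz M p t))) * chi ξ x := by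
    intro x
    have h2 : ((AR N p u x : ℝ) : ℂ) = tv N (fun t => ((u (x + pz M p t) : ℝ) : ℂ)) := by
      unfold AR tvr tv
      push_cast
      rfl
    rw [h2]
    unfold tv
    have h3 : ∀ t, ((u (x + pz M p t) : ℝ) : ℂ) =
        ∑ ξ, ft (fun y => (u y : ℂ)) ξ * (chi ξ x * chi ξ (pz M p t)) := by
      intro t
      rw [inversion (fun y => (u y : ℂ)) (x + pz M p t)]
      refine sum_congr rfl fun ξ _ => ?_
      rw [chi_add_right]
    simp only [h3]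
    rw [sum_comm, sum_div]
    refine sum_congr rfl fun ξ _ => ?_
    rw [← mul_sum, ← mul_sum]
    ring
  have h4 : ∀ x, AR N p u x ^ 2 =
      ‖∑ ξ, (ft (fun y => (u y : ℂ)) ξ * tv N (fun t => chi ξ (pz M p t))) * chi ξ x‖ ^ 2 := by
    intro x
    rw [← h1, Complex.norm_real, Real.norm_eq_abs, sq_abs]
  simp only [h4]
  rw [parseval_series]
  refine sum_congr rfl fun ξ _ => ?_
  rw [norm_mul, mul_pow]

end ImprAux

open ImprAux in
theorem improve (p : ℤ[X]) (D : ℕ) (hp : p.natDegree = D) (hD : 1 ≤ D) (B : ℕ) :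
    ∃ C : ℕ, 1 ≤ C ∧ ∀ (M : ℕ) [NeZero M] (N R : ℕ), 1 ≤ R → 1 ≤ N → M ≤ B * N ^ D → ∀ E : Finset (ZMod M),
      E.card * R ^ C ≤ M →
      avr (fun x => AR N p (fun y => if y ∈ E then 1 else 0) x ^ 2) ≤ C * ((E.card : ℝ) / M) / R := by
  classical
  obtain ⟨C₂, C₃, hcard⟩ := card_big p D hp hD B
  refine ⟨C₃ + C₂ + 2, by omega, ?_⟩
  intro M _ N R hR hN hM E hE
  have hM0 : (0 : ℝ) < M := by exact_mod_cast Nat.pos_of_ne_zero (NeZero.ne M)
  set s : ℝ := (E.card : ℝ) / M with hs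
  have hs0 : 0 ≤ s := by positivity
  set u : ZMod M → ℝ := fun y => if y ∈ E then 1 else 0 with hu
  have hu2 : ∀ x, u x ^ 2 = u x := by
    intro x
    rw [hu]
    simp only
    split_ifs <;> norm_num
  have hsumu : ∑ x, u x = E.card := by
    rw [hu]
    simp
  have havu : avr (fun x => u x ^ 2) = s := by
    unfold avr
    simp only [hu2]
    rw [hsumu]
  have hC0 : (0 : ℝ) ≤ C₂ := Nat.cast_nonneg _
  have hC30 : (0 : ℝ) ≤ C₃ := Nat.cast_nonneg _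
  rcases Nat.lt_or_ge R 2 with hR2 | hR2
  · have hR1 : R = 1 := by omega
    subst hR1
    refine (n2_AR_le N p u).trans ?_
    rw [havu]
    push_cast
    rw [div_one]
    nlinarith
  · have hR0 : (0 : ℝ) < R := by exact_mod_cast (by omega : 0 < R)
    have hR1 : (1 : ℝ) ≤ R := by exact_mod_cast hR
    rw [avr_sq]
    set a : ZMod M → ℝ := fun ξ => ‖tv N (fun t => chi ξ (pz M p t))‖ with ha
    set g : ZMod M → ℝ := fun ξ => ‖ft (fun y => (u y : ℂ)) ξ‖ with hg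
    have ha1 : ∀ ξ, a ξ ≤ 1 := by
      intro ξ
      rw [ha]
      simp only
      unfold tv
      have hN0 : (0 : ℝ) < N := by exact_mod_cast hN
      rw [norm_div, Complex.norm_natCast, div_le_one hN0]
      calc ‖∑ t ∈ range N, chi ξ (pz M p t)‖ ≤ ∑ t ∈ range N, ‖chi ξ (pz M p t)‖ := norm_sum_le _ _
        _ = N := by simp [norm_chi]
    have hgs : ∀ ξ, g ξ ≤ s := by
      intro ξ
      rw [hg]
      simp only
      unfold ft av
      rw [norm_div, Complex.norm_natCast, hs]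
      refine div_le_div_of_nonneg_right ?_ hM0.le
      calc ‖∑ x, (u x : ℂ) * chi (-ξ) x‖ ≤ ∑ x, ‖(u x : ℂ) * chi (-ξ) x‖ := norm_sum_le _ _
        _ = ∑ x, u x := by
            refine sum_congr rfl fun x _ => ?_
            rw [norm_mul, norm_chi, mul_one, Complex.norm_real, Real.norm_eq_abs]
            rw [hu]
            simp only
            split_ifs <;> norm_num
        _ = E.card := hsumu
    have hg2 : ∑ ξ, g ξ ^ 2 = s := by
      rw [hg]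
      simp only
      rw [parseval]
      rw [← havu]
      congr 1
      funext x
      rw [Complex.norm_real, Real.norm_eq_abs, sq_abs]
    set Bg : Finset (ZMod M) := univ.filter (fun ξ : ZMod M => 1 / (R : ℝ) ≤ a ξ) with hBg
    have hBc : Bg.card ≤ C₂ * R ^ C₃ := hcard M N R hR2 hN hM
    have hpt : ∀ ξ, g ξ ^ 2 * a ξ ^ 2 ≤ g ξ ^ 2 * (1 / (R : ℝ)) + (if ξ ∈ Bg then s ^ 2 else 0) := by
      intro ξ
      have ha0 : 0 ≤ a ξ := norm_nonneg _
      have hg0 : 0 ≤ g ξ := norm_nonneg _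
      have hgg : 0 ≤ g ξ ^ 2 := by positivity
      split_ifs with hξ
      · have h1 : g ξ ^ 2 ≤ s ^ 2 := pow_le_pow_left₀ hg0 (hgs ξ) 2
        have h2 : a ξ ^ 2 ≤ 1 := pow_le_one₀ ha0 (ha1 ξ)
        have h3 : g ξ ^ 2 * a ξ ^ 2 ≤ s ^ 2 * 1 := mul_le_mul h1 h2 (by positivity) (by positivity)
        have h4 : 0 ≤ g ξ ^ 2 * (1 / (R : ℝ)) := by positivity
        linarith
      · have h1 : a ξ < 1 / (R : ℝ) := by
          by_contra hcon
          exact hξ (mem_filter.mpr ⟨mem_univ _, not_lt.mp hcon⟩)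
        have h2 : a ξ ^ 2 ≤ 1 / (R : ℝ) := by
          calc a ξ ^ 2 = a ξ * a ξ := sq _
            _ ≤ (1 / (R : ℝ)) * 1 := mul_le_mul h1.le (ha1 ξ) ha0 (by positivity)
            _ = 1 / (R : ℝ) := mul_one _
        have h3 := mul_le_mul_of_nonneg_left h2 hgg
        linarith
    have hsum : ∑ ξ, g ξ ^ 2 * a ξ ^ 2 ≤ s * (1 / (R : ℝ)) + Bg.card * s ^ 2 := by
      calc ∑ ξ, g ξ ^ 2 * a ξ ^ 2
          ≤ ∑ ξ, (g ξ ^ 2 * (1 / (R : ℝ)) + (if ξ ∈ Bg then s ^ 2 else 0)) :=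
            sum_le_sum fun ξ _ => hpt ξ
        _ = s * (1 / (R : ℝ)) + Bg.card * s ^ 2 := by
            rw [sum_add_distrib, ← sum_mul, hg2, sum_ite_mem, univ_inter, sum_const, nsmul_eq_mul]
    have hsR : s * (R : ℝ) ^ (C₃ + 1) ≤ 1 := by
      rw [hs, div_mul_eq_mul_div, div_le_one hM0]
      have h1 : E.card * R ^ (C₃ + 1) ≤ M :=
        (Nat.mul_le_mul_left _ (Nat.pow_le_pow_right (by omega) (by omega))).trans hE
      exact_mod_cast h1
    have hB2 : (Bg.card : ℝ) * s ^ 2 ≤ C₂ * (s / R) := by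
      have h1 : (Bg.card : ℝ) ≤ C₂ * (R : ℝ) ^ C₃ := by exact_mod_cast hBc
      have h2 : (R : ℝ) ^ C₃ * s ^ 2 ≤ s / R := by
        rw [le_div_iff₀ hR0]
        calc (R : ℝ) ^ C₃ * s ^ 2 * R = s * (s * (R : ℝ) ^ (C₃ + 1)) := by ring
          _ ≤ s * 1 := mul_le_mul_of_nonneg_left hsR hs0
          _ = s := mul_one _
      calc (Bg.card : ℝ) * s ^ 2 ≤ (C₂ * (R : ℝ) ^ C₃) * s ^ 2 :=
            mul_le_mul_of_nonneg_right h1 (by positivity)
        _ = C₂ * ((R : ℝ) ^ C₃ * s ^ 2) := by ring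
        _ ≤ C₂ * (s / R) := mul_le_mul_of_nonneg_left h2 hC0
    have hfin : s * (1 / (R : ℝ)) + C₂ * (s / R) ≤ (C₃ + C₂ + 2 : ℕ) * s / R := by
      rw [mul_div_assoc]
      push_cast
      have : 0 ≤ s / R := by positivity
      have e : s * (1 / (R : ℝ)) = s / R := by ring
      rw [e]
      nlinarith
    linarith

end Pool.Agent.EQD
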