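import Pool.Agent.Lib.EQD.L2loc

/-!
# Module L2win: gain in L2 for every modulus

PROOF. Let `c₁` be such that `|P i t| ≤ c₁ N ^ D` for `t < N`, all `i` (all `N ≥ 1`), `A = (c₁ + 1) N ^ D`, `W = 4 A`. Transplant from `ZMod M` to `ZMod W`: for
`a : ZMod M` put `F' y = F (a + y.val)`, `g' l y = g l (a + y.val)` for `y : ZMod W`. For `A ≤ y.val < W - A` there is no wrap around: the arguments of the functions are
`y + P l t (+ v)` with `|P l t + v| ≤ A`, hence `AA' ... y = AA ... (a + y.val)`. So `l2loc` (`B = 4 (c₁ + 1)`) gives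
`∑_{A ≤ y.val < W - A} ‖X F (a + y.val)‖² ≤ (C / R) ∑_y ‖F (a + y.val)‖²`. The sum over `a` is `2 A M n2 (X F) ≤ (C / R) W M n2 F`.
The constant: `NS (C * 3) R = NS C (R ^ 3)`.
-/

set_option autoImplicit false

open Finset Polynomial

namespace Pool.Agent.EQD

open Pool.Agent.HLT Pool.Agent.NLT Pool.Agent.NLG

namespace L2winAux

/-- Bound of the values of a polynomial. -/
lemma eval_bound (p : ℤ[X]) (D : ℕ) (hp : p.natDegree = D) (N t : ℕ) (ht : t < N) :
    (p.eval (t : ℤ)).natAbs ≤ (∑ k ∈ range (D + 1), (p.coeff k).natAbs) * N ^ D := by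
  rw [Polynomial.eval_eq_sum_range, hp, Finset.sum_mul]
  refine (Int.natAbs_sum_le _ _).trans (Finset.sum_le_sum fun k hk => ?_)
  rw [Int.natAbs_mul, Int.natAbs_pow, Int.natAbs_natCast]
  refine Nat.mul_le_mul_left _ ?_
  have h1 : k ≤ D := Nat.lt_succ_iff.1 (Finset.mem_range.1 hk)
  exact (Nat.pow_le_pow_left ht.le k).trans (Nat.pow_le_pow_right (by omega) h1)

variable {M W : ℕ} [NeZero M] [NeZero W]

/-- The chart. -/
def ph (M : ℕ) {W : ℕ} (a : ZMod M) (y : ZMod W) : ZMod M := a + (y.val : ZMod M)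

/-- No wrap around. -/
lemma ph_add (a : ZMod M) (y : ZMod W) (u : ℤ) (h0 : 0 ≤ (y.val : ℤ) + u)
    (h1 : (y.val : ℤ) + u < W) : ph M a (y + (u : ZMod W)) = ph M a y + (u : ZMod M) := by
  have e1 : y + (u : ZMod W) = (((y.val : ℤ) + u : ℤ) : ZMod W) := by
    push_cast
    rw [ZMod.natCast_zmod_val]
  have e2 : ((y + (u : ZMod W)).val : ℤ) = (y.val : ℤ) + u := by
    rw [e1, ZMod.val_intCast, Int.emod_eq_of_lt h0 h1]
  have e3 : (((y + (u : ZMod W)).val : ℕ) : ZMod M) = (((y + (u : ZMod W)).val : ℤ) : ZMod M) := by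
    push_cast
    rfl
  unfold ph
  rw [e3, e2]
  push_cast
  ring

/-- `f'` at `y` is `f` at `a + y.val`, up to the distance `A`. -/
def Loc (A : ℕ) (a : ZMod M) (y : ZMod W) (f' : ZMod W → ℂ) (f : ZMod M → ℂ) : Prop :=
  ∀ u : ℤ, u.natAbs ≤ A → f' (y + (u : ZMod W)) = f (ph M a y + (u : ZMod M))

/-- The central part. -/
def Cen (A : ℕ) (y : ZMod W) : Prop := A ≤ y.val ∧ y.val + A < W

lemma loc_pull {A : ℕ} (a : ZMod M) {y : ZMod W} (hy : Cen A y) (f : ZMod M → ℂ) :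
    Loc A a y (fun z => f (ph M a z)) f := by
  intro u hu
  show f (ph M a (y + (u : ZMod W))) = _
  rw [ph_add a y u (by have := hy.1; omega) (by have := hy.2; omega)]

lemma loc_cv {A A' L : ℕ} (hA : A' + L ≤ A) (a : ZMod M) {y : ZMod W} (hy : Cen A y)
    (f : ZMod M → ℂ) {β : ℤ →₀ ℂ} (hβ : Supp L β) :
    Loc A' a y (cv β (fun z : ZMod W => f (ph M a z))) (cv β f) := by
  intro u hu
  unfold cv Finsupp.sum
  refine Finset.sum_congr rfl fun v hv => ?_
  have h1 : v.natAbs ≤ L := hβ v (Finsupp.mem_support_iff.1 hv)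
  have h2 : (u + v).natAbs ≤ A := by omega
  have h3 := loc_pull a hy f (u + v) h2
  have h4 : y + (u : ZMod W) + (v : ZMod W) = y + ((u + v : ℤ) : ZMod W) := by
    push_cast
    ring
  have h5 : ph M a y + (u : ZMod M) + (v : ZMod M) = ph M a y + ((u + v : ℤ) : ZMod M) := by
    push_cast
    ring
  beta_reduce at h3 ⊢
  rw [h4, h5, h3]

lemma loc_mono {A A' : ℕ} (h : A' ≤ A) {a : ZMod M} {y : ZMod W} {f' : ZMod W → ℂ}
    {f : ZMod M → ℂ} (hf : Loc A a y f' f) : Loc A' a y f' f := fun u hu => hf u (hu.trans h)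

/-- The averages agree in the central part. -/
lemma AA_loc {n N A : ℕ} {P : Fin n → ℤ[X]} (hP : ∀ l t, t < N → ((P l).eval (t : ℤ)).natAbs ≤ A)
    {a : ZMod M} {y : ZMod W} {G' : Fin n → ZMod W → ℂ} {G : Fin n → ZMod M → ℂ}
    (hG : ∀ l, Loc A a y (G' l) (G l)) : AA N P G' y = AA N P G (ph M a y) := by
  unfold AA tv
  congr 1
  refine Finset.sum_congr rfl fun t ht => ?_
  refine Finset.prod_congr rfl fun l _ => ?_
  unfold pz
  exact hG l _ (hP l t (Finset.mem_range.1 ht))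

lemma sum_shift (U : ZMod M → ℝ) (c : ZMod M) : ∑ a, U (a + c) = ∑ a, U a :=
  Fintype.sum_equiv (Equiv.addRight c) _ _ fun _ => rfl

lemma card_cen {A : ℕ} (hW : W = 4 * A) : 
    ((univ.filter fun y : ZMod W => A ≤ y.val ∧ y.val + A < W).card : ℝ) = 2 * A := by
  have h1 : (univ.filter fun y : ZMod W => A ≤ y.val ∧ y.val + A < W).card =
      (Ico A (W - A)).card := by
    refine Finset.card_bij (fun y _ => y.val) ?_ ?_ ?_
    · intro y hy
      obtain ⟨-, h1, h2⟩ := Finset.mem_filter.1 hy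
      exact Finset.mem_Ico.2 ⟨h1, by omega⟩
    · intro y _ z _ h
      exact ZMod.val_injective W h
    · intro m hm
      obtain ⟨h1, h2⟩ := Finset.mem_Ico.1 hm
      have h3 : ((m : ZMod W)).val = m := ZMod.val_natCast_of_lt (by omega)
      exact ⟨(m : ZMod W), Finset.mem_filter.2 ⟨Finset.mem_univ _, by rw [h3]; omega⟩, h3⟩
  rw [h1, Nat.card_Ico]
  have h2 : W - A - A = 2 * A := by omega
  rw [h2]
  push_cast
  ring

/-- The averaging over the position of the chart. -/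
lemma averaging {A : ℕ} (hA : 1 ≤ A) (hW : W = 4 * A) (U V : ZMod M → ℝ) (K : ℝ)
    (h : ∀ a : ZMod M, ∑ y ∈ univ.filter (fun y : ZMod W => A ≤ y.val ∧ y.val + A < W),
      U (ph M a y) ≤ K * ∑ y : ZMod W, V (ph M a y)) : avr U ≤ 2 * K * avr V := by
  have h1 := Finset.sum_le_sum fun a (_ : a ∈ (univ : Finset (ZMod M))) => h a
  rw [Finset.sum_comm, ← Finset.mul_sum, Finset.sum_comm (s := (univ : Finset (ZMod M)))] at h1
  unfold ph at h1
  simp only [sum_shift] at h1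
  rw [Finset.sum_const, Finset.sum_const, nsmul_eq_mul, nsmul_eq_mul, card_cen hW,
    Finset.card_univ, ZMod.card, hW] at h1
  have hA0 : (0 : ℝ) < A := by exact_mod_cast hA
  have h2 : ∑ a, U a ≤ 2 * K * ∑ a, V a := by
    push_cast at h1
    have h3 : 2 * (A : ℝ) * ∑ a, U a ≤ 2 * (A : ℝ) * (2 * K * ∑ a, V a) := by
      calc 2 * (A : ℝ) * ∑ a, U a ≤ K * (4 * (A : ℝ) * ∑ a, V a) := h1
        _ = 2 * (A : ℝ) * (2 * K * ∑ a, V a) := by ring
    exact le_of_mul_le_mul_left h3 (by positivity)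
  unfold avr
  rw [← mul_div_assoc]
  exact div_le_div_of_nonneg_right h2 (Nat.cast_nonneg _)

end L2winAux

open L2winAux

theorem l2gain {n D : ℕ} {P : Fin n → ℤ[X]} {e : Fin n → ℕ} {i₀ : Fin n} (h : EqDeg D P e i₀) :
    ∃ C : ℕ, 1 ≤ C ∧ ∀ (M : ℕ) [NeZero M] (N R : ℕ), 2 ≤ R → R ^ C ≤ N → ∀ (i : Fin n) (β : ℤ →₀ ℂ), mass β ≤ 4 →
      Supp (N ^ D) β → NS C R (N ^ e i) β → ∀ g : Fin n → ZMod M → ℂ, (∀ l, Bd (g l)) → ∀ F : ZMod M → ℂ,
      n2 (AA N P (Function.update g i (cv β F))) ≤ C * n2 F / R ∧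
      ∀ l, l ≠ i → n2 (AA N P (Function.update (Function.update g i (cv β (g i))) l F)) ≤ C * n2 F / R := by
  obtain ⟨c₁, hc₁⟩ : ∃ c₁ : ℕ, ∀ (l : Fin n) (N t : ℕ), t < N →
      ((P l).eval (t : ℤ)).natAbs ≤ c₁ * N ^ D := by
    refine ⟨∑ l, ∑ k ∈ range (D + 1), ((P l).coeff k).natAbs, fun l N t ht => ?_⟩
    refine (eval_bound (P l) D (h.deg l) N t ht).trans (Nat.mul_le_mul_right _ ?_)
    exact Finset.single_le_sum (f := fun l => ∑ k ∈ range (D + 1), ((P l).coeff k).natAbs)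
      (fun _ _ => Nat.zero_le _) (Finset.mem_univ l)
  obtain ⟨C, hC1, hC⟩ := l2loc h (4 * (c₁ + 1))
  refine ⟨C * 3, by omega, ?_⟩
  intro M hM N R hR hRN i β hβ hsupp hNS g hg F
  have hR1 : 1 ≤ R := by omega
  have hN1 : 1 ≤ N := le_trans (Nat.one_le_pow _ _ hR1) hRN
  have hND : 1 ≤ N ^ D := Nat.one_le_pow _ _ hN1
  obtain ⟨A, hA⟩ : ∃ A, A = (c₁ + 1) * N ^ D := ⟨_, rfl⟩
  have hA1 : 1 ≤ A := by
    rw [hA]
    exact Nat.mul_pos (by omega) hND
  obtain ⟨W, hW⟩ : ∃ W, W = 4 * A := ⟨_, rfl⟩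
  haveI : NeZero W := ⟨by omega⟩
  have hA' : c₁ * N ^ D + N ^ D ≤ A := by rw [hA]; exact le_of_eq (by ring)
  have hP : ∀ l t, t < N → ((P l).eval (t : ℤ)).natAbs ≤ c₁ * N ^ D := fun l t ht => hc₁ l N t ht
  -- the local estimate
  have hR3 : 2 ≤ R ^ 3 := le_trans hR (Nat.le_self_pow (by norm_num) R)
  have hRN3 : (R ^ 3) ^ C ≤ N := by
    rw [← pow_mul, mul_comm 3 C]
    exact hRN
  have hNS3 : NS C (R ^ 3) (N ^ e i) β := by
    intro r hr hr2 θ
    have e1 : (R ^ 3) ^ C = R ^ (C * 3) := by rw [← pow_mul, mul_comm 3 C]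
    have e2 : (((R ^ 3 : ℕ) : ℝ)) ^ C = (R : ℝ) ^ (C * 3) := by
      rw [Nat.cast_pow, ← pow_mul, mul_comm 3 C]
    rw [e1] at hr2 ⊢
    rw [e2]
    exact hNS r hr hr2 θ
  have hWB : W ≤ 4 * (c₁ + 1) * N ^ D := by
    rw [hW, hA]
    exact le_of_eq (by ring)
  have hRr : (0 : ℝ) < R := by exact_mod_cast (by omega : 0 < R)
  have hloc := fun (a : ZMod M) => hC W N (R ^ 3) hR3 hRN3 hWB i β hβ hNS3
    (fun l z => g l (ph M a z)) (fun l z => hg l _) (fun z => F (ph M a z))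
  have hK0 : (0 : ℝ) ≤ C / ((R ^ 3 : ℕ) : ℝ) := by positivity
  -- from the chart to everything
  have key : ∀ (X : ZMod M → ℂ) (X' : ZMod M → ZMod W → ℂ),
      (∀ a (y : ZMod W), Cen A y → X' a y = X (ph M a y)) →
      (∀ a, n2 (X' a) ≤ C * n2 (fun z : ZMod W => F (ph M a z)) / ((R ^ 3 : ℕ) : ℝ)) →
      n2 X ≤ ((C * 3 : ℕ) : ℝ) * n2 F / R := by
    intro X X' h1 h2
    have h3 : n2 X ≤ 2 * (C / ((R ^ 3 : ℕ) : ℝ)) * n2 F := by
      refine averaging (W := W) hA1 hW (fun x => ‖X x‖ ^ 2) (fun x => ‖F x‖ ^ 2) _ fun a => ?_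
      have h4 : ∑ y ∈ univ.filter (fun y : ZMod W => A ≤ y.val ∧ y.val + A < W),
          ‖X (ph M a y)‖ ^ 2 ≤ ∑ y : ZMod W, ‖X' a y‖ ^ 2 := by
        calc ∑ y ∈ univ.filter (fun y : ZMod W => A ≤ y.val ∧ y.val + A < W),
            ‖X (ph M a y)‖ ^ 2 =
            ∑ y ∈ univ.filter (fun y : ZMod W => A ≤ y.val ∧ y.val + A < W), ‖X' a y‖ ^ 2 := by
              refine Finset.sum_congr rfl fun y hy => ?_
              rw [h1 a y (Finset.mem_filter.1 hy).2]
          _ ≤ ∑ y : ZMod W, ‖X' a y‖ ^ 2 :=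
              Finset.sum_le_sum_of_subset_of_nonneg (Finset.filter_subset _ _)
                fun _ _ _ => by positivity
      have h5 := h2 a
      unfold n2 avr at h5
      have hW0 : (0 : ℝ) < W := by exact_mod_cast (by omega : 0 < W)
      rw [div_le_iff₀ hW0] at h5
      refine h4.trans (h5.trans (le_of_eq ?_))
      field_simp
    refine h3.trans ?_
    have hF0 : 0 ≤ n2 F := by
      unfold n2 avr
      positivity
    have h6 : 2 * ((C : ℝ) / ((R ^ 3 : ℕ) : ℝ)) ≤ ((C * 3 : ℕ) : ℝ) / R := by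
      have hRR : (R : ℝ) ≤ ((R ^ 3 : ℕ) : ℝ) := by
        exact_mod_cast Nat.le_self_pow (by norm_num) R
      have h7 : (C : ℝ) / ((R ^ 3 : ℕ) : ℝ) ≤ C / R :=
        div_le_div_of_nonneg_left (Nat.cast_nonneg _) hRr hRR
      have h8 : ((C * 3 : ℕ) : ℝ) / R = 3 * ((C : ℝ) / R) := by
        push_cast
        ring
      rw [h8]
      have h9 : (0 : ℝ) ≤ C / R := by positivity
      linarith
    calc 2 * ((C : ℝ) / ((R ^ 3 : ℕ) : ℝ)) * n2 F ≤ ((C * 3 : ℕ) : ℝ) / R * n2 F :=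
          mul_le_mul_of_nonneg_right h6 hF0
      _ = ((C * 3 : ℕ) : ℝ) * n2 F / R := by ring
  refine ⟨?_, fun l hl => ?_⟩
  · refine key _ (fun a => AA N P (Function.update (fun l z => g l (ph M a z)) i
      (cv β (fun z => F (ph M a z))))) ?_ (fun a => (hloc a).1)
    intro a y hy
    refine AA_loc hP fun m => ?_
    by_cases hm : m = i
    · subst hm
      rw [Function.update_self, Function.update_self]
      exact loc_cv hA' a hy F hsupp
    · rw [Function.update_of_ne hm, Function.update_of_ne hm]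
      exact loc_mono (le_trans (Nat.le_add_right _ _) hA') (loc_pull a hy (g m))
  · refine key _ (fun a => AA N P (Function.update (Function.update (fun l z => g l (ph M a z)) i
      (cv β (fun z => g i (ph M a z)))) l (fun z => F (ph M a z)))) ?_ (fun a => (hloc a).2 l hl)
    intro a y hy
    refine AA_loc hP fun m => ?_
    by_cases hm : m = l
    · subst hm
      rw [Function.update_self, Function.update_self]
      exact loc_mono (le_trans (Nat.le_add_right _ _) hA') (loc_pull a hy F)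
    · rw [Function.update_of_ne hm, Function.update_of_ne hm]
      by_cases hm2 : m = i
      · subst hm2
        rw [Function.update_self, Function.update_self]
        exact loc_cv hA' a hy (g m) hsupp
      · rw [Function.update_of_ne hm2, Function.update_of_ne hm2]
        exact loc_mono (le_trans (Nat.le_add_right _ _) hA') (loc_pull a hy (g m))

end Pool.Agent.EQD
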