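import Pool.Agent.Lib.EQD.Kern
import Pool.Agent.Lib.EQD.L2win
import Pool.Agent.Lib.EQD.Impr

/-!
# EQD.Gain: the gain in `L²` and the improving estimate in the form used for the low levels
-/

set_option autoImplicit false

open Finset Polynomial

namespace Pool.Agent.EQD.Lo

open Pool.Agent.HLT Pool.Agent.NLT Pool.Agent.NLG

/-- The relative gain in `L²` (first form: the function in the slot `i` is `cv β F`, `β` removes the low structure). -/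
theorem L2gain {n D : ℕ} {P : Fin n → ℤ[X]} {e : Fin n → ℕ} {i₀ : Fin n} (h : EqDeg D P e i₀) :
    ∃ C : ℕ, ∀ (M : ℕ) [NeZero M] (N R : ℕ), 2 ≤ R → R ^ C ≤ N → ∀ (i : Fin n) (β : ℤ →₀ ℂ), mass β ≤ 4 →
      Supp (N ^ D) β → NS C R (N ^ e i) β → ∀ g : Fin n → ZMod M → ℂ, (∀ l, Bd (g l)) → ∀ F : ZMod M → ℂ,
      n2 (AA N P (Function.update g i (cv β F))) ≤ (C : ℝ) * n2 F / R := by
  obtain ⟨C, -, hC⟩ := l2gain h
  exact ⟨C, fun M _ N R h1 h2 i β h3 h4 h5 g hg F => (hC M N R h1 h2 i β h3 h4 h5 g hg F).1⟩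

/-- The relative gain in `L²` (second form: the function in the slot `i` is `cv β (g i)` with a bounded function `g i`, the function
`F` sits in another slot). -/
theorem L2gain' {n D : ℕ} {P : Fin n → ℤ[X]} {e : Fin n → ℕ} {i₀ : Fin n} (h : EqDeg D P e i₀) :
    ∃ C : ℕ, ∀ (M : ℕ) [NeZero M] (N R : ℕ), 2 ≤ R → R ^ C ≤ N → ∀ (i : Fin n) (β : ℤ →₀ ℂ), mass β ≤ 4 →
      Supp (N ^ D) β → NS C R (N ^ e i) β → ∀ g : Fin n → ZMod M → ℂ, (∀ l, Bd (g l)) → ∀ l, l ≠ i → ∀ F : ZMod M → ℂ,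
      n2 (AA N P (Function.update (Function.update g i (cv β (g i))) l F)) ≤ (C : ℝ) * n2 F / R := by
  obtain ⟨C, -, hC⟩ := l2gain h
  exact ⟨C, fun M _ N R h1 h2 i β h3 h4 h5 g hg l hl F => (hC M N R h1 h2 i β h3 h4 h5 g hg F).2 l hl⟩

/-- The improving estimate (`M ≤ B N ^ D`; for instance `M = Q`, `N = Q ^ k`). -/
theorem improve (D : ℕ) (hD : 1 ≤ D) (P : ℤ[X]) (hP : P.natDegree = D) (B : ℕ) :
    ∃ C : ℕ, ∀ (M : ℕ) [NeZero M] (N R : ℕ), 2 ≤ R → 1 ≤ N → M ≤ B * N ^ D → ∀ E : Finset (ZMod M),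
      E.card * R ^ C ≤ M →
      avr (fun x => (AR N P (fun y => if y ∈ E then 1 else 0) x) ^ 2) ≤ (C : ℝ) * ((E.card : ℝ) / M) / R := by
  obtain ⟨C, -, hC⟩ := _root_.Pool.Agent.EQD.improve P D hP hD B
  exact ⟨C, fun M _ N R h1 h2 h3 E h4 => hC M N R (by omega) h2 h3 E h4⟩

end Pool.Agent.EQD.Lo
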