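import Pool.Agent.Lib.EQD.DkB

/-!
# Module NSb: the kernel `δ - box` removes the low structure

PROOF. `J = L / R ^ C ≥ 8 q K R ^ C`. For `1 ≤ r ≤ R ^ C`, `q = r s`: `‖1 - dk K (q θ)‖ ≤ π K nrm (q θ) ≤ π K s nrm (r θ)` (`nrm_int_mul_le`), and
`‖dk J (r θ)‖ * (2 J nrm (r θ)) ≤ 1`; if `nrm (r θ) = 0` the first factor is `0`. Product `≤ π K s / (2 J) ≤ π / (16 R ^ C)`.
-/

set_option autoImplicit false

open Finset Polynomial

namespace Pool.Agent.EQD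

open Pool.Agent.HLT Pool.Agent.NLT Pool.Agent.NLG

theorem ns_box (C R L q K : ℕ) (hR : 2 ≤ R) (hK : 1 ≤ K) (hq : ∀ r, 1 ≤ r → r ≤ R ^ C → r ∣ q) (h1 : 1 ≤ q)
    (h : 8 * (q * K) * R ^ (2 * C) ≤ L) : NS C R L (dlt - bk q K) := by
  intro r hr1 hr2 θ
  obtain ⟨s, hs⟩ := hq r hr1 hr2
  rw [mul_sub', mul_dlt, mul_bk]
  have hRC : 0 < R ^ C := by positivity
  obtain ⟨J, hJ⟩ : ∃ J : ℕ, J = L / R ^ C := ⟨_, rfl⟩
  rw [← hJ]
  have hJ1 : 8 * (q * K) * R ^ C ≤ J := by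
    rw [hJ, Nat.le_div_iff_mul_le hRC]
    refine le_trans (le_of_eq ?_) h
    rw [two_mul, pow_add]
    ring
  obtain ⟨x, hx⟩ : ∃ x : ℝ, x = nrm ((r : ℝ) * θ) := ⟨_, rfl⟩
  have hx0 : 0 ≤ x := by rw [hx]; exact nrm_nonneg _
  have e1 : ‖1 - dk K ((q : ℝ) * θ)‖ ≤ Real.pi * K * ((s : ℝ) * x) := by
    refine (norm_one_sub_dk K hK _).trans ?_
    have h2 : (q : ℝ) * θ = ((s : ℤ) : ℝ) * ((r : ℝ) * θ) := by
      rw [hs]
      push_cast
      ring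
    have h3 : nrm ((q : ℝ) * θ) ≤ (s : ℝ) * x := by
      rw [h2, hx]
      refine (nrm_int_mul_le _ _).trans (le_of_eq ?_)
      rw [Int.cast_natCast, Nat.abs_cast]
    have : 0 ≤ Real.pi * K := by positivity
    exact mul_le_mul_of_nonneg_left h3 this
  have e2 : ‖dk J ((r : ℝ) * θ)‖ * (2 * J * x) ≤ 1 := by
    rw [hx]
    exact dk_mul_nrm J _
  have hb := norm_nonneg (dk J ((r : ℝ) * θ))
  have ha := norm_nonneg (1 - dk K ((q : ℝ) * θ))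
  generalize ‖dk J ((r : ℝ) * θ)‖ = b at *
  generalize ‖1 - dk K ((q : ℝ) * θ)‖ = a at *
  have hRC' : (0 : ℝ) < (R : ℝ) ^ C := by exact_mod_cast hRC
  have hJ2 : 8 * ((q : ℝ) * K) * (R : ℝ) ^ C ≤ J := by exact_mod_cast hJ1
  have hq0 : (1 : ℝ) ≤ q := by exact_mod_cast h1
  have hK0 : (1 : ℝ) ≤ K := by exact_mod_cast hK
  have hJ0 : (0 : ℝ) < J := by
    refine lt_of_lt_of_le ?_ hJ2
    positivity
  have hsq : (s : ℝ) ≤ q := by
    have : s ≤ q := by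
      rw [hs]
      exact Nat.le_mul_of_pos_left s hr1
    exact_mod_cast this
  have hs0 : (0 : ℝ) ≤ s := Nat.cast_nonneg _
  have e3 : a * b ≤ Real.pi * K * s * (x * b) := by
    have := mul_le_mul_of_nonneg_right e1 hb
    linarith [this]
  have e4 : x * b ≤ 1 / (2 * J) := by
    rw [le_div_iff₀ (by positivity)]
    linarith
  have e5 : a * b ≤ Real.pi * K * s * (1 / (2 * J)) := by
    refine e3.trans (mul_le_mul_of_nonneg_left e4 ?_)
    positivity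
  have e6 : Real.pi * K * s * (1 / (2 * J)) ≤ 1 / (2 * (R : ℝ) ^ C) := by
    rw [mul_one_div, div_le_div_iff₀ (by positivity) (by positivity)]
    have hpi : Real.pi ≤ 4 := Real.pi_le_four
    have h5 : Real.pi * K * s * (2 * (R : ℝ) ^ C) ≤ 8 * ((q : ℝ) * K) * (R : ℝ) ^ C := by
      have h6 : Real.pi * K * s ≤ 4 * K * q := by gcongr
      nlinarith [h6, hRC']
    have h7 : (0 : ℝ) ≤ J := hJ0.le
    linarith
  exact e5.trans e6

/-- Every `r ≤ 2 ^ t` divides `QB B t`. -/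
theorem dvd_QB (B t r : ℕ) (hB : 1 ≤ B) (ht : 1 ≤ t) (h1 : 1 ≤ r) (hr : r ≤ 2 ^ t) : r ∣ QB B t := by
  unfold QB
  refine (Nat.dvd_factorial h1 hr).trans (dvd_pow_self _ ?_)
  have : 1 ≤ B * t := Nat.mul_pos hB ht
  omega

theorem QB_dvd (B t t' : ℕ) (h : t ≤ t') : QB B t ∣ QB B t' := by
  unfold QB
  refine (pow_dvd_pow_of_dvd (Nat.factorial_dvd_factorial (Nat.pow_le_pow_right (by norm_num) h)) _).trans ?_
  exact pow_dvd_pow _ (Nat.mul_le_mul_left B h)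

theorem QB_pos (B t : ℕ) : 1 ≤ QB B t := by
  unfold QB
  exact Nat.pow_pos (Nat.factorial_pos _)

theorem QB_le (B t : ℕ) : QB B t ≤ 2 ^ (B * t ^ 2 * 2 ^ t) := by
  unfold QB
  calc (2 ^ t).factorial ^ (B * t) ≤ ((2 ^ t) ^ (2 ^ t)) ^ (B * t) :=
        Nat.pow_le_pow_left (Nat.factorial_le_pow _) _
    _ = 2 ^ (B * t ^ 2 * 2 ^ t) := by
        rw [← pow_mul, ← pow_mul]
        congr 1
        ring

theorem tj_pow_le (j : ℕ) (hj : 1 ≤ j) : 4 ^ tj j ≤ j := by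
  unfold tj
  have h1 : (4 : ℕ) = 2 ^ 2 := by norm_num
  rw [h1, ← pow_mul]
  calc 2 ^ (2 * (Nat.log 2 j / 2)) ≤ 2 ^ Nat.log 2 j :=
        Nat.pow_le_pow_right (by norm_num) (Nat.mul_div_le _ _)
    _ ≤ j := Nat.pow_log_le_self 2 (by omega)

theorem lt_tj_pow (j : ℕ) : j < 4 ^ (tj j + 1) := by
  unfold tj
  have h1 : (4 : ℕ) = 2 ^ 2 := by norm_num
  rw [h1, ← pow_mul]
  refine (Nat.lt_pow_succ_log_self (by norm_num : 1 < 2) j).trans_le ?_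
  apply Nat.pow_le_pow_right (by norm_num)
  omega

theorem tj_mono {j j' : ℕ} (h : j ≤ j') : tj j ≤ tj j' :=
  Nat.div_le_div_right (Nat.log_mono_right h)

namespace NSbAux

lemma sq_le_two_pow (K : ℕ) : ∃ t₀ : ℕ, 1 ≤ t₀ ∧ ∀ t, t₀ ≤ t → K * t ^ 2 ≤ 2 ^ t := by
  have h := tendsto_pow_const_div_const_pow_of_one_lt 2 (r := (2 : ℝ)) (by norm_num)
  have h1 := h.eventually (gt_mem_nhds (show (0 : ℝ) < 1 / (K + 1) by positivity))
  obtain ⟨t₀, ht₀⟩ := Filter.eventually_atTop.mp h1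
  refine ⟨max t₀ 1, le_max_right _ _, fun t ht => ?_⟩
  have h2 := ht₀ t (le_trans (le_max_left _ _) ht)
  rw [div_lt_div_iff₀ (by positivity) (by positivity)] at h2
  have h3 : (K : ℝ) * (t : ℝ) ^ 2 ≤ 2 ^ t := by
    have : (0 : ℝ) ≤ (t : ℝ) ^ 2 := by positivity
    nlinarith
  exact_mod_cast h3

end NSbAux

/-- Everything that depends on the level `t(j)` is small compared with `2 ^ j`. -/
theorem num_small (B C c : ℕ) (hc : 1 ≤ c) : ∃ j₀ : ℕ, 4 ≤ j₀ ∧ ∀ j, j₀ ≤ j →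
    (2 ^ (C * tj j + C) * QB B (tj j) ^ C * j ^ C) ^ c ≤ 2 ^ j := by
  obtain ⟨t₀, ht1, ht₀⟩ := NSbAux.sq_le_two_pow (c * C * (B + 6))
  refine ⟨4 ^ (t₀ + 1), ?_, fun j hj => ?_⟩
  · calc 4 = 4 ^ 1 := by norm_num
      _ ≤ 4 ^ (t₀ + 1) := Nat.pow_le_pow_right (by norm_num) (by omega)
  obtain ⟨t, ht⟩ : ∃ t : ℕ, t = tj j := ⟨_, rfl⟩
  have hj1 : 1 ≤ j := le_trans (Nat.one_le_pow _ _ (by norm_num)) hj
  have htt : t₀ ≤ t := by
    have h1 := lt_tj_pow j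
    rw [← ht] at h1
    have h2 : t₀ + 1 < t + 1 := (Nat.pow_lt_pow_iff_right (by norm_num : 1 < 4)).mp (hj.trans_lt h1)
    omega
  have h4 : 4 ^ t ≤ j := by rw [ht]; exact tj_pow_le j hj1
  have hj2 : j ≤ 2 ^ (2 * t + 2) := by
    have h1 := lt_tj_pow j
    rw [← ht] at h1
    have h2 : (4 : ℕ) ^ (t + 1) = 2 ^ (2 * t + 2) := by
      rw [show (4 : ℕ) = 2 ^ 2 by norm_num, ← pow_mul]
      congr 1
    rw [← h2]
    exact h1.le
  rw [← ht]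
  calc (2 ^ (C * t + C) * QB B t ^ C * j ^ C) ^ c
      ≤ (2 ^ (C * t + C) * (2 ^ (B * t ^ 2 * 2 ^ t)) ^ C * (2 ^ (2 * t + 2)) ^ C) ^ c := by
        have := QB_le B t
        gcongr
    _ = 2 ^ (c * C * (3 * t + 3 + B * t ^ 2 * 2 ^ t)) := by
        rw [← pow_mul, ← pow_mul, ← pow_add, ← pow_add, ← pow_mul]
        congr 1
        ring
    _ ≤ 2 ^ j := by
        apply Nat.pow_le_pow_right (by norm_num)
        refine le_trans ?_ h4
        have h5 := ht₀ t htt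
        have ht' : 1 ≤ t := ht1.trans htt
        have h6 : 3 * t + 3 + B * t ^ 2 * 2 ^ t ≤ (B + 6) * t ^ 2 * 2 ^ t := by
          have h7 : 1 ≤ 2 ^ t := Nat.one_le_pow _ _ (by norm_num)
          have h8 : t ≤ t ^ 2 := by nlinarith
          have h9 : 1 ≤ t ^ 2 := by nlinarith
          have h10 : t ^ 2 ≤ t ^ 2 * 2 ^ t := Nat.le_mul_of_pos_right _ h7
          have h11 : (B + 6) * t ^ 2 * 2 ^ t = B * t ^ 2 * 2 ^ t + 6 * (t ^ 2 * 2 ^ t) := by ring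
          rw [h11]
          omega
        calc c * C * (3 * t + 3 + B * t ^ 2 * 2 ^ t)
            ≤ c * C * ((B + 6) * t ^ 2 * 2 ^ t) := Nat.mul_le_mul_left _ h6
          _ = (c * C * (B + 6) * t ^ 2) * 2 ^ t := by ring
          _ ≤ 2 ^ t * 2 ^ t := Nat.mul_le_mul_right _ h5
          _ = 4 ^ t := by
              rw [← mul_pow]
              norm_num

end Pool.Agent.EQD
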