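import Pool.Agent.Lib.EQD.MuA
import Pool.Agent.Lib.EQD.NSb
import Pool.Agent.Lib.EQD.DefsD

/-!
# Module Hgt: heights and sizes in the block `[2 ^ K, 2 ^ (K + 1))`

`t = K / 2`, `Q = QB B t`, `Ps = PP t (2 ^ (K A))`, `k = a = 2 A + 2`, `B ≥ 4 A`.

PROOFS. `tj_block`: `Nat.log 2 j = K`. `ws_block`: a prime `p > 2 ^ t` does not divide `((2 ^ t)!) ^ (B t)`. `height`: let `U₀` = primes of `q` in `Ps`. A prime `p ∣ q` with `p > 2 ^ t` satisfies `p ≤ q ≤ 2 ^ (K A)`,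
so it is in `Ps`; if `v` is the number of such primes, or the exponent of one of them, then `(2 ^ t) ^ v < 2 ^ (K A)`, so `t v < K A`, and `K ≤ 2 t + 1` gives `v ≤ 2 A + 1` for `K` large (`K ≥ 4 A + 4`). For `p ≤ 2 ^ t` the exponent of `p` in `q` is
at most `K A ≤ B t` (`B ≥ 4 A`, `4 t ≥ K`), and `p ^ (B t) ∣ ((2 ^ t)!) ^ (B t)`. Hence `q ∣ Q ∏_{p ∈ U₀} p ^ a` (compare factorizations).
`size_block`: `qm = Q 2 ^ (K A a k)`, `#Ps ≤ 2 ^ (K A)`, `Q ≤ 2 ^ (B t ^ 2 2 ^ t)` (`QB_le`): everything is `2 ^ (O(K ^ 2) 2 ^ (K / 2))`, which is eventually at most the `X`-th root of `2 ^ (2 ^ K / 8)`.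
`Lf_block`: `N ^ e / 2 ^ (C₄ t) ≥ 2 Q` because `N ≥ 2 ^ (2 ^ K)`, so the two divisions lose at most a factor `4`.
-/

set_option autoImplicit false

open Finset Polynomial

namespace Pool.Agent.EQD

open Pool.Agent.HLT Pool.Agent.NLT Pool.Agent.NLG

namespace HgtAux

lemma card_PP (t X : ℕ) : (PP t X).card ≤ X + 1 := by
  unfold PP
  exact (Finset.card_filter_le _ _).trans (by rw [Finset.card_range])

lemma mem_PP {t X p : ℕ} : p ∈ PP t X ↔ p ≤ X ∧ p.Prime ∧ 2 ^ t < p := by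
  unfold PP
  rw [Finset.mem_filter, Finset.mem_range, Nat.lt_succ_iff]

/-- An exponent `v` with `(2 ^ t) ^ v ≤ 2 ^ (K A)` is at most `2 A` if `t > A`. -/
lemma exp_le {A K v : ℕ} (ht : A < K / 2) (h : (2 ^ (K / 2)) ^ v ≤ 2 ^ (K * A)) : v ≤ 2 * A := by
  rw [← pow_mul] at h
  have h1 : K / 2 * v ≤ K * A := (Nat.pow_le_pow_iff_right (by norm_num : 1 < 2)).mp h
  by_contra hv
  rw [not_le] at hv
  have h2 : K / 2 * (2 * A + 1) ≤ K / 2 * v := Nat.mul_le_mul_left _ hv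
  have h3 : K ≤ 2 * (K / 2) + 1 := by omega
  have h4 : K * A ≤ (2 * (K / 2) + 1) * A := Nat.mul_le_mul_right _ h3
  have h5 : (2 * (K / 2) + 1) * A = K / 2 * (2 * A) + A := by ring
  have h6 : K / 2 * (2 * A + 1) = K / 2 * (2 * A) + K / 2 := by ring
  omega

lemma block_small (c : ℕ) : ∃ K₀ : ℕ, 4 ≤ K₀ ∧ ∀ K, K₀ ≤ K → c * K ^ 2 * 2 ^ (K / 2) ≤ 2 ^ K := by
  obtain ⟨t₀, ht1, ht₀⟩ := NSbAux.sq_le_two_pow (9 * c)
  refine ⟨2 * t₀ + 4, by omega, fun K hK => ?_⟩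
  obtain ⟨t, ht⟩ : ∃ t : ℕ, t = K / 2 := ⟨_, rfl⟩
  have h1 := ht₀ t (by omega)
  have h2 : K ≤ 3 * t := by omega
  have h3 : K ^ 2 ≤ (3 * t) ^ 2 := Nat.pow_le_pow_left h2 2
  rw [← ht]
  calc c * K ^ 2 * 2 ^ t ≤ c * (3 * t) ^ 2 * 2 ^ t := by gcongr
    _ = (9 * c * t ^ 2) * 2 ^ t := by ring
    _ ≤ 2 ^ t * 2 ^ t := Nat.mul_le_mul_right _ h1
    _ = 2 ^ (t + t) := (pow_add _ _ _).symm
    _ ≤ 2 ^ K := Nat.pow_le_pow_right (by norm_num) (by omega)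

end HgtAux

theorem tj_block (K j : ℕ) (h1 : 2 ^ K ≤ j) (h2 : j < 2 ^ (K + 1)) : tj j = K / 2 := by
  unfold tj
  rw [Nat.log_eq_of_pow_le_of_lt_pow h1 h2]

theorem ws_block (M B K A a : ℕ) (ha : 1 ≤ a) (h : qU (QB B (K / 2)) a (PP (K / 2) (2 ^ (K * A))) ∣ M) :
    WS M (QB B (K / 2)) a (PP (K / 2) (2 ^ (K * A))) where
  prime p hp := (HgtAux.mem_PP.mp hp).2.1
  cop p hp hd := by
    obtain ⟨_, hpp, hlt⟩ := HgtAux.mem_PP.mp hp
    unfold QB at hd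
    have h1 := (hpp.dvd_factorial).mp (hpp.dvd_of_dvd_pow hd)
    omega
  dvd := h
  pos := QB_pos B (K / 2)
  apos := ha

theorem height (A B : ℕ) (hA : 1 ≤ A) (hB : 4 * A ≤ B) : ∃ K₀ : ℕ, ∀ K, K₀ ≤ K → ∀ q : ℕ, 1 ≤ q → q ≤ 2 ^ (K * A) →
    ∃ U₀ : Finset ℕ, U₀ ⊆ PP (K / 2) (2 ^ (K * A)) ∧ U₀.card ≤ 2 * A + 2 ∧ q ∣ qU (QB B (K / 2)) (2 * A + 2) U₀ ∧
      ∀ p ∈ PP (K / 2) (2 ^ (K * A)), p ∉ U₀ → ¬ p ∣ q := by
  classical
  refine ⟨2 * A + 4, fun K hK q hq1 hqX => ?_⟩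
  have htA : A < K / 2 := by omega
  refine ⟨(PP (K / 2) (2 ^ (K * A))).filter (fun p => p ∣ q), Finset.filter_subset _ _, ?_, ?_, ?_⟩
  · obtain ⟨U, hU⟩ : ∃ U : Finset ℕ, U = (PP (K / 2) (2 ^ (K * A))).filter (fun p => p ∣ q) := ⟨_, rfl⟩
    rw [← hU]
    have hUp : ∀ p ∈ U, p.Prime ∧ 2 ^ (K / 2) < p ∧ p ∣ q := by
      intro p hp
      rw [hU, Finset.mem_filter, HgtAux.mem_PP] at hp
      exact ⟨hp.1.2.1, hp.1.2.2, hp.2⟩
    have h1 : ∏ p ∈ U, p ∣ q := by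
      apply Finset.prod_primes_dvd q
      · intro p hp
        exact (hUp p hp).1.prime
      · intro p hp
        exact (hUp p hp).2.2
    have h2 : (2 ^ (K / 2)) ^ U.card ≤ ∏ p ∈ U, p :=
      Finset.pow_card_le_prod U _ _ (fun p hp => (hUp p hp).2.1.le)
    have h3 := HgtAux.exp_le htA ((h2.trans (Nat.le_of_dvd hq1 h1)).trans hqX)
    omega
  · have hn : qU (QB B (K / 2)) (2 * A + 2) ((PP (K / 2) (2 ^ (K * A))).filter (fun p => p ∣ q)) ≠ 0 := by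
      unfold qU
      refine mul_ne_zero (Nat.one_le_iff_ne_zero.mp (QB_pos B (K / 2))) ?_
      refine Finset.prod_ne_zero_iff.mpr (fun p hp => ?_)
      rw [Finset.mem_filter, HgtAux.mem_PP] at hp
      exact pow_ne_zero _ hp.1.2.1.ne_zero
    rw [← Nat.factorization_prime_le_iff_dvd (by omega) hn]
    intro p hp
    rw [← hp.pow_dvd_iff_le_factorization hn]
    obtain ⟨v, hv⟩ : ∃ v : ℕ, v = q.factorization p := ⟨_, rfl⟩
    rw [← hv]
    have hpv : p ^ v ∣ q := by rw [hv]; exact Nat.ordProj_dvd q p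
    have hpv' : p ^ v ≤ 2 ^ (K * A) := (Nat.le_of_dvd hq1 hpv).trans hqX
    by_cases hlt : 2 ^ (K / 2) < p
    · rcases Nat.eq_zero_or_pos v with h0 | h0
      · rw [h0, pow_zero]
        exact one_dvd _
      · have hpq : p ∣ q := (dvd_pow_self p (by omega)).trans hpv
        have hmem : p ∈ (PP (K / 2) (2 ^ (K * A))).filter (fun p => p ∣ q) := by
          rw [Finset.mem_filter, HgtAux.mem_PP]
          exact ⟨⟨(Nat.le_of_dvd hq1 hpq).trans hqX, hp, hlt⟩, hpq⟩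
        have h3 := HgtAux.exp_le htA ((Nat.pow_le_pow_left hlt.le v).trans hpv')
        unfold qU
        exact (pow_dvd_pow p (by omega : v ≤ 2 * A + 2)).trans
          ((Finset.dvd_prod_of_mem (fun p : ℕ => p ^ (2 * A + 2)) hmem).trans (Dvd.intro_left _ rfl))
    · rw [not_lt] at hlt
      have h1 : v ≤ K * A := by
        have h2 : 2 ^ v ≤ 2 ^ (K * A) := (Nat.pow_le_pow_left hp.two_le v).trans hpv'
        exact (Nat.pow_le_pow_iff_right (by norm_num : 1 < 2)).mp h2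
      have h2 : K * A ≤ B * (K / 2) := by
        have h3 : K ≤ 4 * (K / 2) := by omega
        calc K * A ≤ 4 * (K / 2) * A := Nat.mul_le_mul_right _ h3
          _ = 4 * A * (K / 2) := by ring
          _ ≤ B * (K / 2) := Nat.mul_le_mul_right _ hB
      unfold qU QB
      exact ((pow_dvd_pow p (h1.trans h2)).trans
        (pow_dvd_pow_of_dvd (Nat.dvd_factorial hp.pos hlt) _)).trans (Dvd.intro _ rfl)
  · intro p hp hpU hpq
    exact hpU (Finset.mem_filter.mpr ⟨hp, hpq⟩)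

/-- All moduli of the block are at most `qm`, and `qm`, the number of components, `2 ^ K` are tiny. -/
theorem size_block (A B a k X : ℕ) : ∃ K₀ : ℕ, ∀ K, K₀ ≤ K → ∃ qm : ℕ, 1 ≤ qm ∧
    (∀ U, U ⊆ PP (K / 2) (2 ^ (K * A)) → U.card ≤ k → qU (QB B (K / 2)) a U ≤ qm) ∧
    (qm * (4 * ((PP (K / 2) (2 ^ (K * A))).card + 2)) ^ (k + 1) * 2 ^ (K * X + X)) ^ X ≤ 2 ^ (2 ^ K / 8) := by
  obtain ⟨K₀, hK4, hK₀⟩ := HgtAux.block_small (8 * (X * (B + A * a * k + (A + 4) * (k + 1) + 2 * X)))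
  refine ⟨K₀, fun K hK => ⟨QB B (K / 2) * 2 ^ (K * A * a * k), ?_, ?_, ?_⟩⟩
  · exact Nat.mul_pos (QB_pos _ _) (Nat.pow_pos (by norm_num))
  · intro U hU hUk
    unfold qU
    apply Nat.mul_le_mul_left
    calc ∏ p ∈ U, p ^ a ≤ ∏ p ∈ U, (2 ^ (K * A)) ^ a := by
          apply Finset.prod_le_prod'
          intro p hp
          exact Nat.pow_le_pow_left (HgtAux.mem_PP.mp (hU hp)).1 a
      _ = 2 ^ (K * A * a * U.card) := by
          rw [Finset.prod_const, ← pow_mul, ← pow_mul]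
          congr 1
          ring
      _ ≤ 2 ^ (K * A * a * k) := Nat.pow_le_pow_right (by norm_num) (Nat.mul_le_mul_left _ hUk)
  · have h1 := hK₀ K hK
    obtain ⟨t, ht⟩ : ∃ t : ℕ, t = K / 2 := ⟨_, rfl⟩
    rw [← ht] at h1 ⊢
    have hQ := QB_le B t
    have hP : 4 * ((PP t (2 ^ (K * A))).card + 2) ≤ 2 ^ (K * A + 4) := by
      have h2 := HgtAux.card_PP t (2 ^ (K * A))
      have h3 : 1 ≤ 2 ^ (K * A) := Nat.one_le_pow _ _ (by norm_num)
      have h4 : 2 ^ (K * A + 4) = 2 ^ (K * A) * 16 := by rw [pow_add]; norm_num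
      omega
    calc (QB B t * 2 ^ (K * A * a * k) * (4 * ((PP t (2 ^ (K * A))).card + 2)) ^ (k + 1) *
          2 ^ (K * X + X)) ^ X
        ≤ (2 ^ (B * t ^ 2 * 2 ^ t) * 2 ^ (K * A * a * k) * (2 ^ (K * A + 4)) ^ (k + 1) *
          2 ^ (K * X + X)) ^ X := by gcongr
      _ = 2 ^ ((B * t ^ 2 * 2 ^ t + K * A * a * k + (K * A + 4) * (k + 1) + (K * X + X)) * X) := by
          rw [← pow_mul, ← pow_add, ← pow_add, ← pow_add, ← pow_mul]
      _ ≤ 2 ^ (2 ^ K / 8) := by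
          apply Nat.pow_le_pow_right (by norm_num)
          rw [Nat.le_div_iff_mul_le (by norm_num)]
          refine le_trans ?_ h1
          have hKt : t ≤ K := by omega
          have h5 : t ^ 2 ≤ K ^ 2 := Nat.pow_le_pow_left hKt 2
          have h6 : 1 ≤ 2 ^ t := Nat.one_le_pow _ _ (by norm_num)
          have h7 : K ≤ K ^ 2 := by nlinarith
          have h8 : 1 ≤ K ^ 2 := by nlinarith
          have h9 : K ^ 2 ≤ K ^ 2 * 2 ^ t := Nat.le_mul_of_pos_right _ h6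
          obtain ⟨W, hW⟩ : ∃ W : ℕ, W = K ^ 2 * 2 ^ t := ⟨_, rfl⟩
          have hKW : K ≤ W := by omega
          have h1W : 1 ≤ W := by omega
          have e1 : B * t ^ 2 * 2 ^ t ≤ B * W := by
            rw [hW, ← mul_assoc]
            gcongr
          have e2 : K * A * a * k ≤ A * a * k * W := by
            calc K * A * a * k = A * a * k * K := by ring
              _ ≤ _ := Nat.mul_le_mul_left _ hKW
          have e3 : (K * A + 4) * (k + 1) ≤ (A + 4) * (k + 1) * W := by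
            calc (K * A + 4) * (k + 1) ≤ (W * A + 4 * W) * (k + 1) := by
                  gcongr
                  omega
              _ = _ := by ring
          have e4 : K * X + X ≤ 2 * X * W := by
            calc K * X + X ≤ W * X + W * X := by
                  have := Nat.mul_le_mul_right X hKW
                  have := Nat.mul_le_mul_right X h1W
                  omega
              _ = _ := by ring
          calc (B * t ^ 2 * 2 ^ t + K * A * a * k + (K * A + 4) * (k + 1) + (K * X + X)) * X * 8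
              ≤ (B * W + A * a * k * W + (A + 4) * (k + 1) * W + 2 * X * W) * X * 8 := by gcongr
            _ = 8 * (X * (B + A * a * k + (A + 4) * (k + 1) + 2 * X)) * K ^ 2 * 2 ^ t := by
                rw [hW]
                ring

theorem Lf_block (B C₄ : ℕ) : ∃ K₀ : ℕ, ∀ K, K₀ ≤ K → ∀ (N : ℕ → ℕ) (e j : ℕ), Sc N → 1 ≤ e → 2 ^ K ≤ j → j < 2 ^ (K + 1) →
    N j ^ e ≤ 2 ^ (C₄ * (K / 2) + 2) * Lf (QB B (K / 2)) C₄ (K / 2) (N j) e ∧
    2 ^ (C₄ * (K / 2)) * Lf (QB B (K / 2)) C₄ (K / 2) (N j) e ≤ N j ^ e ∧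
    QB B (K / 2) ∣ Lf (QB B (K / 2)) C₄ (K / 2) (N j) e ∧ N j ≤ 2 ^ (2 ^ K / 8) * Lf (QB B (K / 2)) C₄ (K / 2) (N j) e ∧
    2 ^ (2 ^ K / 2) ≤ Lf (QB B (K / 2)) C₄ (K / 2) (N j) e := by
  obtain ⟨K₀, hK4, hK₀⟩ := HgtAux.block_small (8 * (2 + C₄ + B))
  refine ⟨K₀, fun K hK N e j hN he hj1 _ => ?_⟩
  have h1 := hK₀ K hK
  obtain ⟨t, ht⟩ : ∃ t : ℕ, t = K / 2 := ⟨_, rfl⟩
  rw [← ht] at h1 ⊢
  have hKt : t ≤ K := by omega
  have h5 : t ^ 2 ≤ K ^ 2 := Nat.pow_le_pow_left hKt 2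
  have h6 : 1 ≤ 2 ^ t := Nat.one_le_pow _ _ (by norm_num)
  have h7 : K ≤ K ^ 2 := by nlinarith
  have h8 : 1 ≤ K ^ 2 := by nlinarith
  have h9 : K ^ 2 ≤ K ^ 2 * 2 ^ t := Nat.le_mul_of_pos_right _ h6
  obtain ⟨W, hW⟩ : ∃ W : ℕ, W = K ^ 2 * 2 ^ t := ⟨_, rfl⟩
  have hKW : K ≤ W := by omega
  have h1W : 1 ≤ W := by omega
  have hsmall : C₄ * t + 2 + B * t ^ 2 * 2 ^ t ≤ 2 ^ K / 8 := by
    rw [Nat.le_div_iff_mul_le (by norm_num)]
    refine le_trans ?_ h1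
    have e1 : B * t ^ 2 * 2 ^ t ≤ B * W := by
      rw [hW, ← mul_assoc]
      gcongr
    have e2 : C₄ * t ≤ C₄ * W := Nat.mul_le_mul_left _ (hKt.trans hKW)
    calc (C₄ * t + 2 + B * t ^ 2 * 2 ^ t) * 8 ≤ (C₄ * W + 2 * W + B * W) * 8 := by
          gcongr
          omega
      _ = 8 * (2 + C₄ + B) * K ^ 2 * 2 ^ t := by
          rw [hW]
          ring
  have hc2 : C₄ * t + 2 ≤ 2 ^ K / 8 := by omega
  obtain ⟨n, hn⟩ : ∃ n : ℕ, n = N j ^ e := ⟨_, rfl⟩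
  have hNj : 2 ^ (2 ^ K) ≤ N j := le_trans (Nat.pow_le_pow_right (by norm_num) hj1) (hN j).1
  have hNj1 : 1 ≤ N j := le_trans (Nat.one_le_pow _ _ (by norm_num)) hNj
  have hNn : N j ≤ n := by
    rw [hn]
    calc N j = N j ^ 1 := (pow_one _).symm
      _ ≤ N j ^ e := Nat.pow_le_pow_right hNj1 he
  obtain ⟨D, hD⟩ : ∃ D : ℕ, D = 2 ^ (C₄ * t) := ⟨_, rfl⟩
  obtain ⟨Q, hQ⟩ : ∃ Q : ℕ, Q = QB B t := ⟨_, rfl⟩
  have hD0 : 0 < D := by rw [hD]; exact Nat.pow_pos (by norm_num)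
  have hQ0 : 0 < Q := by rw [hQ]; exact QB_pos B t
  have hDQ : 4 * (D * Q) ≤ n := by
    refine le_trans ?_ (hNj.trans hNn)
    have h10 := QB_le B t
    rw [← hQ] at h10
    calc 4 * (D * Q) ≤ 4 * (2 ^ (C₄ * t) * 2 ^ (B * t ^ 2 * 2 ^ t)) := by
          rw [hD]
          gcongr
      _ = 2 ^ (C₄ * t + 2 + B * t ^ 2 * 2 ^ t) := by
          rw [pow_add, pow_add]
          ring
      _ ≤ 2 ^ (2 ^ K) := by
          apply Nat.pow_le_pow_right (by norm_num)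
          have : 2 ^ K / 8 ≤ 2 ^ K := Nat.div_le_self _ _
          omega
  have hLf : Lf Q C₄ t (N j) e = n / D / Q * Q := by
    unfold Lf
    rw [hn, hD]
  rw [← hQ, hLf, ← hn]
  obtain ⟨m, hm⟩ : ∃ m : ℕ, m = n / D := ⟨_, rfl⟩
  rw [← hm]
  have a1 : n < D * m + D := by
    rw [hm]
    have := Nat.div_add_mod n D
    have := Nat.mod_lt n hD0
    omega
  have a2 : m < m / Q * Q + Q := by
    have := Nat.div_add_mod m Q
    have := Nat.mod_lt m hQ0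
    have : m / Q * Q = Q * (m / Q) := mul_comm _ _
    omega
  obtain ⟨l, hl⟩ : ∃ l : ℕ, l = m / Q * Q := ⟨_, rfl⟩
  rw [← hl] at a2 ⊢
  have a3 : D * m ≤ D * (l + Q) := Nat.mul_le_mul_left _ a2.le
  have a4 : D * (l + Q) = D * l + D * Q := by ring
  have a5 : D ≤ D * Q := Nat.le_mul_of_pos_right _ hQ0
  have ha : n ≤ 2 ^ (C₄ * t + 2) * l := by
    have h11 : 2 ^ (C₄ * t + 2) * l = 4 * (D * l) := by
      rw [pow_add, ← hD]
      ring
    rw [h11]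
    omega
  have hb : 2 ^ (C₄ * t) * l ≤ n := by
    rw [← hD]
    calc D * l ≤ D * m := Nat.mul_le_mul_left _ (by rw [hl]; exact Nat.div_mul_le_self _ _)
      _ ≤ n := by rw [hm]; exact Nat.mul_div_le _ _
  have hd : n ≤ 2 ^ (2 ^ K / 8) * l :=
    ha.trans (Nat.mul_le_mul_right _ (Nat.pow_le_pow_right (by norm_num) hc2))
  refine ⟨ha, hb, ?_, hNn.trans hd, ?_⟩
  · rw [hl]
    exact Dvd.intro_left _ rfl
  · have h12 : 2 ^ (2 ^ K / 8) * 2 ^ (2 ^ K / 2) ≤ 2 ^ (2 ^ K / 8) * l := by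
      refine le_trans ?_ ((hNj.trans hNn).trans hd)
      rw [← pow_add]
      apply Nat.pow_le_pow_right (by norm_num)
      omega
    exact Nat.le_of_mul_le_mul_left h12 (Nat.pow_pos (by norm_num))

/-- The function of type `0` is the box average. -/
theorem vT_zero_diag {M : ℕ} [NeZero M] {Q a k L : ℕ} {Ps : Finset ℕ} (h : WS M Q a Ps) (hQL : Q ∣ L) (hL : 1 ≤ L) (f : ZMod M → ℂ)
    (x : ZMod M) : vK Q a 0 L Ps 0 f x x = Eb Q (L / Q) f x := by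
  have hQM : Q ∣ M := by
    refine dvd_trans ?_ h.dvd
    unfold qU
    exact Dvd.intro _ rfl
  rw [← mU_diag_dvd Q L h.pos hQM hQL hL f x]
  unfold vK vS
  simp [qU]

end Pool.Agent.EQD
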