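import Pool.Agent.Lib.EQD.AAB

/-!
# Module MinB: minor arcs

PROOF. `C` = constant of `InvP P e`, `R = lam ^ (n + 3)`, `A = (n + 3) C`, `r ≥ r₀` with `2 r₀ ≥ 4 n + 4` and `2 r₀ ≥ A + 4`. Truncate: `u = u₁ + u₂`, `u₁ = u` where `‖u‖ ≤ lam`, `0` elsewhere, the same for
all `g l`. `nq n (tail) ≤ lam ^ (- (2 r - n)) K`, `nq n (all functions) ≤ 1 + K`. Replace the functions by their truncations one after the other (`AA_telescope`): each error is at most
`(1 / δ) ^ n nq n (tail) + δ ∑ nq n` (`AA_young`) with `δ = lam ^ (- 3)`: `≤ lam ^ (3 n) lam ^ (- (2 r - n)) K + n lam ^ (- 3) (1 + K) ≤ 3 n lam ^ (- 2)`.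
Main term: all functions divided by `lam` are bounded by one. If the mean of `‖AA‖` (of the divided functions) is `≥ 1 / R`, then with `f0` = conjugate sign `InvP` gives
`q ≤ R ^ C = lam ^ A` with `1 / lam ^ A ≤ avr ‖tv J' (u₁ / lam)(x + q ·)‖` for `J' = N ^ e i / lam ^ A` (`≥ 1` because `lam ^ A ≤ N`, `1 ≤ e i`), while the right side is at most
`(1 / lam) (1 / (2 lam ^ A) + nq 1 (u₂)) ≤ (1 / lam)(1 / (2 lam ^ A) + lam ^ (- (2 r - 1)) K) < 1 / lam ^ A`. So the main term is at most `lam ^ n / R = lam ^ (- 3)`.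
-/

set_option autoImplicit false

open Finset Polynomial

namespace Pool.Agent.EQD

open Pool.Agent.HLT Pool.Agent.NLT Pool.Agent.NLG

namespace MinBAux

variable {M : ℕ} [NeZero M]

/-- Truncation at height `c`. -/
noncomputable def tru (c : ℝ) (v : ZMod M → ℂ) (x : ZMod M) : ℂ := if ‖v x‖ ≤ c then v x else 0

/-- The tail. -/
noncomputable def tl (c : ℝ) (v : ZMod M → ℂ) (x : ZMod M) : ℂ := v x - tru c v x

theorem norm_tru_le (c : ℝ) (hc : 0 ≤ c) (v : ZMod M → ℂ) (x : ZMod M) : ‖tru c v x‖ ≤ c := by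
  unfold tru
  split_ifs with h
  · exact h
  · simpa using hc

theorem norm_tru_le' (c : ℝ) (v : ZMod M → ℂ) (x : ZMod M) : ‖tru c v x‖ ≤ ‖v x‖ := by
  unfold tru
  split_ifs with h
  · exact le_rfl
  · simp

theorem tl_pow (c : ℝ) (hc : 0 < c) (v : ZMod M → ℂ) (m s : ℕ) (hm : 1 ≤ m) (hms : m ≤ s) (x : ZMod M) :
    ‖tl c v x‖ ^ m ≤ 1 / c ^ (s - m) * ‖v x‖ ^ s := by
  unfold tl tru
  split_ifs with h
  · rw [sub_self, norm_zero, zero_pow (by omega)]
    positivity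
  · push Not at h
    rw [sub_zero]
    have h1 : ‖v x‖ ^ s = ‖v x‖ ^ m * ‖v x‖ ^ (s - m) := by
      rw [← pow_add]
      congr 1
      omega
    have h2 : c ^ (s - m) ≤ ‖v x‖ ^ (s - m) := pow_le_pow_left₀ hc.le h.le _
    rw [h1, one_div, inv_mul_eq_div, le_div_iff₀ (by positivity)]
    exact mul_le_mul_of_nonneg_left h2 (by positivity)

theorem nq_tl (c : ℝ) (hc : 0 < c) (v : ZMod M → ℂ) (m s : ℕ) (hm : 1 ≤ m) (hms : m ≤ s) :
    nq m (tl c v) ≤ 1 / c ^ (s - m) * nq s v := by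
  unfold nq
  rw [← avr_mul_left]
  exact avr_mono (fun x => tl_pow c hc v m s hm hms x)

theorem nq_le (v : ZMod M → ℂ) (m s : ℕ) (hms : m ≤ s) : nq m v ≤ 1 + nq s v := by
  unfold nq
  have e : (1 : ℝ) + avr (fun x : ZMod M => ‖v x‖ ^ s) = avr (fun x : ZMod M => 1 + ‖v x‖ ^ s) := by
    rw [avr_add (fun _ => (1 : ℝ)), avr_const]
  rw [e]
  refine avr_mono (fun x => ?_)
  rcases le_total ‖v x‖ 1 with h | h
  · have h1 : ‖v x‖ ^ m ≤ 1 := pow_le_one₀ (norm_nonneg _) h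
    have h2 : 0 ≤ ‖v x‖ ^ s := by positivity
    linarith
  · have h1 : ‖v x‖ ^ m ≤ ‖v x‖ ^ s := pow_le_pow_right₀ h hms
    linarith

theorem nq_tru (c : ℝ) (v : ZMod M → ℂ) (m : ℕ) : nq m (tru c v) ≤ nq m v :=
  avr_mono (fun x => pow_le_pow_left₀ (norm_nonneg _) (norm_tru_le' c v x) m)

theorem AA_scale {n : ℕ} (N : ℕ) (P : Fin n → ℤ[X]) (g : Fin n → ZMod M → ℂ) (c : ℂ) (x : ZMod M) :
    AA N P (fun l y => c * g l y) x = c ^ n * AA N P g x := by
  unfold AA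
  rw [← tv_mul_left]
  congr 1
  funext t
  rw [Finset.prod_mul_distrib, Finset.prod_const, Finset.card_univ, Fintype.card_fin]

/-- Testing with the sign. -/
theorem sgn (F : ZMod M → ℂ) : ∃ f0 : ZMod M → ℂ, Bd f0 ∧ ‖av (fun x => f0 x * F x)‖ = avr (fun x => ‖F x‖) := by
  refine ⟨fun x => (starRingEnd ℂ) (F x) / (‖F x‖ : ℂ), fun x => ?_, ?_⟩
  · rw [norm_div, RCLike.norm_conj, Complex.norm_real, norm_norm]
    exact div_self_le_one _
  · have h1 : ∀ x, (starRingEnd ℂ) (F x) / (‖F x‖ : ℂ) * F x = ((‖F x‖ : ℝ) : ℂ) := by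
      intro x
      by_cases h : F x = 0
      · rw [h]
        simp
      · have h2 : ((‖F x‖ : ℝ) : ℂ) ≠ 0 := by
          rw [Complex.ofReal_ne_zero]
          exact norm_ne_zero_iff.2 h
        rw [div_mul_eq_mul_div, mul_comm, Complex.mul_conj, Complex.normSq_eq_norm_sq, div_eq_iff h2]
        push_cast
        ring
    simp only [h1]
    rw [av_ofReal, Complex.norm_real, Real.norm_of_nonneg (avr_nonneg (fun x => norm_nonneg _))]

/-- Bounded functions without structure. -/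
theorem main_term {n : ℕ} (P : Fin n → ℤ[X]) (e : Fin n → ℕ) (he : ∀ i, 1 ≤ e i) (C : ℕ)
    (hC : ∀ (M : ℕ) [NeZero M] (H R : ℕ), 2 ≤ R → R ^ C ≤ H →
      ∀ f0 : ZMod M → ℂ, Bd f0 → ∀ f : Fin n → ZMod M → ℂ, (∀ i, Bd (f i)) →
      1 / (R : ℝ) ≤ ‖av (fun x => f0 x * AA H P f x)‖ → ∀ i, Star C R H (e i) (f i))
    (N lam : ℕ) (hlam : 2 ≤ lam) (hN : lam ^ ((n + 3) * C + 1) ≤ N) (i : Fin n) (f : Fin n → ZMod M → ℂ) (hf : ∀ l, Bd (f l))
    (h : ∀ q : ℕ, 1 ≤ q → q ≤ lam ^ ((n + 3) * C + 1) →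
      avr (fun x => ‖tv (N ^ e i / lam ^ ((n + 3) * C + 1)) (fun t => f i (x + ((q * t : ℕ) : ZMod M)))‖) <
        1 / (lam : ℝ) ^ ((n + 3) * C + 1)) :
    avr (fun x => ‖AA N P f x‖) ≤ 1 / (lam : ℝ) ^ (n + 3) := by
  by_contra hcon
  push Not at hcon
  have hl1 : 1 ≤ lam := by omega
  have hlr : (1 : ℝ) ≤ lam := by exact_mod_cast hl1
  obtain ⟨f0, hf0, hav⟩ := sgn (AA N P f)
  have hR : 2 ≤ lam ^ (n + 3) := by
    calc 2 ≤ lam := hlam
      _ = lam ^ 1 := (pow_one _).symm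
      _ ≤ lam ^ (n + 3) := Nat.pow_le_pow_right hl1 (by omega)
  have hRC : (lam ^ (n + 3)) ^ C ≤ lam ^ ((n + 3) * C + 1) := by
    rw [← pow_mul]
    exact Nat.pow_le_pow_right hl1 (by omega)
  have h1 := hC M N (lam ^ (n + 3)) hR (hRC.trans hN) f0 hf0 f hf (by
    rw [hav]
    push_cast
    exact hcon.le) i
  obtain ⟨q, hq1, hq2, hq3⟩ := h1
  have hpos : 0 < lam ^ ((n + 3) * C + 1) := by positivity
  have hN1 : 1 ≤ N := le_trans hpos hN
  have hNe : N ≤ N ^ e i := by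
    calc N = N ^ 1 := (pow_one _).symm
      _ ≤ N ^ e i := Nat.pow_le_pow_right hN1 (he i)
  have hJ : 1 ≤ N ^ e i / lam ^ ((n + 3) * C + 1) := (Nat.one_le_div_iff hpos).2 (hN.trans hNe)
  have hJ2 : N ^ e i / lam ^ ((n + 3) * C + 1) * (lam ^ (n + 3)) ^ C ≤ N ^ e i :=
    (Nat.mul_le_mul_left _ hRC).trans (Nat.div_mul_le_self _ _)
  have h2 := hq3 _ hJ hJ2
  have h3 := h q hq1 (hq2.trans hRC)
  have h4 : 1 / (lam : ℝ) ^ ((n + 3) * C + 1) ≤ 1 / (((lam ^ (n + 3) : ℕ) : ℝ)) ^ C := by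
    have h5 : (((lam ^ (n + 3) : ℕ) : ℝ)) ^ C ≤ (lam : ℝ) ^ ((n + 3) * C + 1) := by exact_mod_cast hRC
    exact one_div_le_one_div_of_le (by positivity) h5
  linarith

/-- One replacement. -/
theorem one_error {n : ℕ} (P : Fin n → ℤ[X]) (N lam r : ℕ) (K : ℝ) (hlam : 2 ≤ lam) (hr : 4 * n + 4 ≤ 2 * r) (hK : 1 ≤ K)
    (hKl : K ≤ lam) (j : Fin n) (g : Fin n → ZMod M → ℂ) (hg : ∀ l, nq n (g l) ≤ 1 + K) (v : ZMod M → ℂ)
    (hv : nq (2 * r) v ≤ K) :
    avr (fun x => ‖AA N P (Function.update g j (tl (lam : ℝ) v)) x‖) ≤ (2 * n + 1) / (lam : ℝ) ^ 2 := by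
  have hl0 : (0 : ℝ) < lam := by
    have : 0 < lam := by omega
    exact_mod_cast this
  have hl1 : (1 : ℝ) ≤ lam := by
    have : 1 ≤ lam := by omega
    exact_mod_cast this
  have hn : 1 ≤ n := by
    have := j.isLt
    omega
  have hδ : (0 : ℝ) < 1 / (lam : ℝ) ^ 3 := by positivity
  have hδ1 : 1 / (lam : ℝ) ^ 3 ≤ 1 := by
    rw [div_le_one (by positivity)]
    exact one_le_pow₀ hl1
  have h1 := AA_young N P (Function.update g j (tl (lam : ℝ) v)) j (1 / (lam : ℝ) ^ 3) hδ hδ1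
  refine h1.trans ?_
  rw [Function.update_self]
  have h2 : ∑ l ∈ univ.erase j, nq n (Function.update g j (tl (lam : ℝ) v) l) ≤ n * (2 * lam) := by
    calc ∑ l ∈ univ.erase j, nq n (Function.update g j (tl (lam : ℝ) v) l) ≤ ∑ l ∈ univ.erase j, (2 * (lam : ℝ)) := by
          refine Finset.sum_le_sum (fun l hl => ?_)
          rw [Function.update_of_ne (Finset.ne_of_mem_erase hl)]
          refine (hg l).trans ?_
          linarith
      _ ≤ n * (2 * lam) := by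
          rw [Finset.sum_const, Finset.card_erase_of_mem (mem_univ j), Finset.card_univ, Fintype.card_fin, nsmul_eq_mul]
          refine mul_le_mul_of_nonneg_right ?_ (by positivity)
          exact_mod_cast Nat.sub_le n 1
  have h3 : nq n (tl (lam : ℝ) v) ≤ 1 / (lam : ℝ) ^ (2 * r - n) * lam := by
    refine (nq_tl (lam : ℝ) hl0 v n (2 * r) hn (by omega)).trans ?_
    exact mul_le_mul_of_nonneg_left (hv.trans hKl) (by positivity)
  have h4 : (1 / (1 / (lam : ℝ) ^ 3)) ^ n * nq n (tl (lam : ℝ) v) ≤ 1 / (lam : ℝ) ^ 2 := by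
    have e1 : (1 / (1 / (lam : ℝ) ^ 3)) ^ n = (lam : ℝ) ^ (3 * n) := by
      rw [one_div_one_div, ← pow_mul]
    rw [e1]
    refine (mul_le_mul_of_nonneg_left h3 (by positivity)).trans ?_
    have e2 : (lam : ℝ) ^ (3 * n) * (1 / (lam : ℝ) ^ (2 * r - n) * lam) =
        (lam : ℝ) ^ (3 * n + 1) / (lam : ℝ) ^ (2 * r - n) := by
      rw [pow_succ]
      ring
    rw [e2, div_le_div_iff₀ (by positivity) (by positivity), one_mul, ← pow_add]
    exact pow_le_pow_right₀ hl1 (by omega)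
  have h5 : 1 / (lam : ℝ) ^ 3 * ∑ l ∈ univ.erase j, nq n (Function.update g j (tl (lam : ℝ) v) l) ≤ 2 * n / (lam : ℝ) ^ 2 := by
    refine (mul_le_mul_of_nonneg_left h2 hδ.le).trans (le_of_eq ?_)
    field_simp
  calc _ ≤ 1 / (lam : ℝ) ^ 2 + 2 * n / (lam : ℝ) ^ 2 := add_le_add h4 h5
    _ = (2 * n + 1) / (lam : ℝ) ^ 2 := by ring

end MinBAux

open MinBAux

theorem minor {n : ℕ} (P : Fin n → ℤ[X]) (e : Fin n → ℕ) (he : ∀ i, 1 ≤ e i) (h : InvP P e) :
    ∃ A r₀ C₁ : ℕ, 1 ≤ A ∧ 1 ≤ r₀ ∧ ∀ r, r₀ ≤ r → ∀ (M : ℕ) [NeZero M] (N lam : ℕ) (K : ℝ), 2 ≤ lam → lam ^ A ≤ N → 1 ≤ K → K ≤ lam →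
      ∀ (i : Fin n) (g : Fin n → ZMod M → ℂ), (∀ l, l ≠ i → nq (2 * r) (g l) ≤ K) → ∀ u : ZMod M → ℂ, nq (2 * r) u ≤ K →
      (∀ q : ℕ, 1 ≤ q → q ≤ lam ^ A →
        avr (fun x => ‖tv (N ^ e i / lam ^ A) (fun t => u (x + ((q * t : ℕ) : ZMod M)))‖) ≤ 1 / (2 * (lam : ℝ) ^ A)) →
      avr (fun x => ‖AA N P (Function.update g i u) x‖) ≤ C₁ / (lam : ℝ) ^ 2 := by
  obtain ⟨C, hC⟩ := h
  refine ⟨(n + 3) * C + 1, 2 * n + 2 + ((n + 3) * C + 1), n * (2 * n + 1) + 1, by omega, by omega, ?_⟩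
  intro r hr M _ N lam K hlam hN hK hKl i g hg u hu hq
  set A := (n + 3) * C + 1 with hA
  have hl0 : (0 : ℝ) < lam := by
    have : 0 < lam := by omega
    exact_mod_cast this
  have hl1 : (1 : ℝ) ≤ lam := by
    have : 1 ≤ lam := by omega
    exact_mod_cast this
  have hl2 : (2 : ℝ) ≤ lam := by exact_mod_cast hlam
  set f : Fin n → ZMod M → ℂ := Function.update g i u with hf
  have hfK : ∀ l, nq (2 * r) (f l) ≤ K := by
    intro l
    by_cases hl : l = i
    · subst hl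
      rw [hf, Function.update_self]
      exact hu
    · rw [hf, Function.update_of_ne hl]
      exact hg l hl
  have hfn : ∀ l, nq n (f l) ≤ 1 + K := by
    intro l
    have := nq_le (f l) n (2 * r) (by omega)
    linarith [hfK l]
  have hfi : f i = u := by rw [hf, Function.update_self]
  -- the truncated functions, divided by `lam`
  set F : Fin n → ZMod M → ℂ := fun l y => (1 / (lam : ℂ)) * tru (lam : ℝ) (f l) y with hF
  have hlc : (lam : ℂ) ≠ 0 := by
    have : lam ≠ 0 := by omega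
    exact_mod_cast this
  have hFBd : ∀ l, Bd (F l) := by
    intro l x
    rw [hF]
    simp only
    rw [norm_mul, norm_div, norm_one, Complex.norm_natCast, one_div, inv_mul_eq_div, div_le_one hl0]
    exact norm_tru_le _ hl0.le _ x
  have hmain : avr (fun x => ‖AA N P F x‖) ≤ 1 / (lam : ℝ) ^ (n + 3) := by
    refine main_term P e he C hC N lam hlam hN i F hFBd ?_
    intro q hq1 hq2
    have h1 : ∀ x : ZMod M, ‖tv (N ^ e i / lam ^ A) (fun t => F i (x + ((q * t : ℕ) : ZMod M)))‖ ≤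
        (1 / (lam : ℝ)) * ‖tv (N ^ e i / lam ^ A) (fun t => u (x + ((q * t : ℕ) : ZMod M)))‖ +
        (1 / (lam : ℝ)) * tvr (N ^ e i / lam ^ A) (fun t => ‖tl (lam : ℝ) u (x + ((q * t : ℕ) : ZMod M))‖) := by
      intro x
      have e1 : tv (N ^ e i / lam ^ A) (fun t => F i (x + ((q * t : ℕ) : ZMod M))) =
          (1 / (lam : ℂ)) * (tv (N ^ e i / lam ^ A) (fun t => u (x + ((q * t : ℕ) : ZMod M))) -
            tv (N ^ e i / lam ^ A) (fun t => tl (lam : ℝ) u (x + ((q * t : ℕ) : ZMod M)))) := by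
        rw [← tv_sub, ← tv_mul_left]
        congr 1
        funext t
        rw [hF]
        simp only
        rw [hfi]
        unfold tl
        ring
      rw [e1, norm_mul, norm_div, norm_one, Complex.norm_natCast, ← mul_add]
      refine mul_le_mul_of_nonneg_left ?_ (by positivity)
      exact (norm_sub_le _ _).trans (add_le_add le_rfl (norm_tv_le _ _))
    have h2 : avr (fun x => ‖tv (N ^ e i / lam ^ A) (fun t => F i (x + ((q * t : ℕ) : ZMod M)))‖) ≤
        (1 / (lam : ℝ)) * (1 / (2 * (lam : ℝ) ^ A)) + (1 / (lam : ℝ)) * nq 1 (tl (lam : ℝ) u) := by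
      refine (avr_mono h1).trans ?_
      rw [avr_add, avr_mul_left, avr_mul_left]
      refine add_le_add (mul_le_mul_of_nonneg_left (hq q hq1 hq2) (by positivity))
        (mul_le_mul_of_nonneg_left ?_ (by positivity))
      refine AABAux.avr_tvr_le _ (fun t x => ‖tl (lam : ℝ) u (x + ((q * t : ℕ) : ZMod M))‖) _
        (avr_nonneg (fun x => by positivity)) (fun t => ?_)
      rw [avr_shift (fun y => ‖tl (lam : ℝ) u y‖)]
      unfold nq
      simp only [pow_one]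
      exact le_rfl
    have h3 : nq 1 (tl (lam : ℝ) u) ≤ 1 / (lam : ℝ) ^ A := by
      refine (nq_tl (lam : ℝ) hl0 u 1 (2 * r) le_rfl (by omega)).trans ?_
      refine (mul_le_mul_of_nonneg_left (hu.trans hKl) (by positivity)).trans ?_
      rw [one_div, inv_mul_eq_div, div_le_div_iff₀ (by positivity) (by positivity), one_mul, ← pow_succ']
      exact pow_le_pow_right₀ hl1 (by omega)
    refine lt_of_le_of_lt h2 ?_
    have h4 : (0 : ℝ) < 1 / (lam : ℝ) ^ A := by positivity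
    have h5 : 1 / (2 * (lam : ℝ) ^ A) = 1 / 2 * (1 / (lam : ℝ) ^ A) := by
      field_simp
    have h6 : 1 / (lam : ℝ) ≤ 1 / 2 := one_div_le_one_div_of_le (by norm_num) hl2
    calc (1 / (lam : ℝ)) * (1 / (2 * (lam : ℝ) ^ A)) + (1 / (lam : ℝ)) * nq 1 (tl (lam : ℝ) u)
        ≤ 1 / 2 * (1 / 2 * (1 / (lam : ℝ) ^ A)) + 1 / 2 * (1 / (lam : ℝ) ^ A) := by
          rw [h5]
          refine add_le_add (mul_le_mul_of_nonneg_right h6 (by positivity)) ?_
          refine mul_le_mul h6 h3 (avr_nonneg (fun x => by positivity)) (by norm_num)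
      _ < 1 / (lam : ℝ) ^ A := by linarith
  -- the main term
  have hmain2 : avr (fun x => ‖AA N P (fun l => tru (lam : ℝ) (f l)) x‖) ≤ 1 / (lam : ℝ) ^ 2 := by
    have e1 : ∀ x, ‖AA N P (fun l => tru (lam : ℝ) (f l)) x‖ = (lam : ℝ) ^ n * ‖AA N P F x‖ := by
      intro x
      have e2 : AA N P (fun l => tru (lam : ℝ) (f l)) x = (lam : ℂ) ^ n * AA N P F x := by
        rw [← AA_scale]
        congr 1
        funext l y
        rw [hF]
        simp only
        rw [← mul_assoc, mul_one_div_cancel hlc, one_mul]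
      rw [e2, norm_mul, norm_pow, Complex.norm_natCast]
    simp only [e1]
    rw [avr_mul_left]
    refine (mul_le_mul_of_nonneg_left hmain (by positivity)).trans ?_
    rw [mul_one_div, div_le_div_iff₀ (by positivity) (by positivity), one_mul, ← pow_add]
    exact pow_le_pow_right₀ hl1 (by omega)
  -- telescoping
  have htel : ∀ x, ‖AA N P f x‖ ≤ ‖AA N P (fun l => tru (lam : ℝ) (f l)) x‖ +
      ∑ j : Fin n, ‖AA N P (Function.update (fun l => if l < j then tru (lam : ℝ) (f l) else f l) j (tl (lam : ℝ) (f j))) x‖ := by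
    intro x
    have h1 := AA_telescope N P f (fun l => tru (lam : ℝ) (f l)) x
    have h2 : AA N P f x = AA N P (fun l => tru (lam : ℝ) (f l)) x +
        ∑ j : Fin n, AA N P (Function.update (fun l => if l < j then tru (lam : ℝ) (f l) else f l) j (tl (lam : ℝ) (f j))) x := by
      rw [← sub_eq_iff_eq_add', h1]
      rfl
    rw [h2]
    exact (norm_add_le _ _).trans (add_le_add le_rfl (norm_sum_le _ _))
  refine (avr_mono htel).trans ?_
  rw [avr_add, avr_sum]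
  have h7 : ∑ j : Fin n, avr (fun x => ‖AA N P (Function.update (fun l => if l < j then tru (lam : ℝ) (f l) else f l) j
      (tl (lam : ℝ) (f j))) x‖) ≤ ∑ j : Fin n, (2 * n + 1) / (lam : ℝ) ^ 2 := by
    refine Finset.sum_le_sum (fun j _ => ?_)
    refine one_error P N lam r K hlam (by omega) hK hKl j _ ?_ (f j) (hfK j)
    intro l
    split_ifs
    · exact (nq_tru _ _ _).trans (hfn l)
    · exact hfn l
  refine (add_le_add hmain2 h7).trans (le_of_eq ?_)
  rw [Finset.sum_const, Finset.card_univ, Fintype.card_fin, nsmul_eq_mul]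
  push_cast
  ring

end Pool.Agent.EQD
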