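import Pool.Agent.Lib.EQD.MinA
import Pool.Agent.Lib.EQD.MinB
import Pool.Agent.Lib.EQD.Wlin
import Pool.Agent.Lib.EQD.Hgt
import Pool.Agent.Lib.EQD.DefsE

/-!
# Module T3m: reduction to structured functions in one block of scales (minor arcs)

PROOF. `A` from `minor`, `k = a = 2 A + 2`, `t = K / 2`, `Q = QB B t`, `Ps = PP t (2 ^ (K A))`, `WS` from `ws_block`, `lam = 2 ^ K`, `r = r₀`. Fix `x` and the scale `j = c x`, `N = N j`; write `G l = Gd B C₄ t (e l) N (ty l) (f l)`,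
`V l = Vd ..`. `L = Lf Q C₄ t N e = (N ^ e / 2 ^ (C₄ t) / Q) Q`, so `Ew B t t (N ^ e / 2 ^ (C₄ t)) f = Eb Q (L / Q) f = vK Q a 0 L Ps 0 f x x` (`vT_zero_diag`): `G l - V l = 0` for type `0`, and
`G l - V l = f l - Pf Q a k L Ps (f l) =: u l` for the other types. `AA_telescope`: the difference is the sum over `i` (with `ty i ≠ 0`) of `D_(i,j) = AA N P (update (if l < i then V l else G l) i (u i))`.
`minor` with `K' = 4 ^ r (1 + C)`, `C` from `w_vT_lin k r` (types `0, 1, 2`; `‖G l‖ ≤ 2`; `‖u‖ ^ (2 r) ≤ 4 ^ r (‖f‖ ^ (2 r) + ‖Pf f‖ ^ (2 r))`), `K' ≤ lam` for `K` large, `lam ^ A ≤ N` by `N ≥ 2 ^ (2 ^ K)`;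
`Tny Q a k r L Ps` from `size_block` with `X ≥ 16 r` and `Lf_block`. Hypothesis of `minor` for `q ≤ lam ^ A = 2 ^ (K A)`: `U₀` from `height`, `minor_abs` with `J' = N ^ e / lam ^ A`: the bound is
`4 L / (q J') + (qm (4 (#Ps + 2)) ^ (k + 1)) ^ 4 q (1 / L + 1 / J')`; `4 L / J' ≤ 4 (N ^ e / 2 ^ (C₄ t)) (2 lam ^ A / N ^ e) = 8 * 2 ^ (K A) / 2 ^ (C₄ t) ≤ 1 / (4 * 2 ^ (K A))` because
`C₄ t ≥ (4 A + 12)(K - 1) / 2 ≥ 2 K A + 5` for `K ≥ K₀`, and the second term is tiny (`size_block`, `L ≥ 2 ^ (2 ^ K / 2)`, `J' ≥ N / (2 lam ^ A)`).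
So `avr ‖D_(i,j)‖ ≤ C₁ / 2 ^ (2 K)` for all `2 ^ K` scales `j` of the block, and `avr ‖D_(i, c x) x‖ ≤ ∑_j avr ‖D_(i,j)‖ ≤ C₁ / 2 ^ K`.
-/

set_option autoImplicit false

open Finset Polynomial

namespace Pool.Agent.EQD

open Pool.Agent.HLT Pool.Agent.NLT Pool.Agent.NLG

namespace T3mAux

theorem div_add_le (m : ℕ) : m / 8 + m / 8 ≤ m := by omega

theorem div_le_div_two (m : ℕ) : m / 8 ≤ m / 2 := by omega

theorem sub_two (m : ℕ) : m * 2 - m = m := by omega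

variable {M : ℕ} [NeZero M] {n : ℕ}

theorem nrm_tv_le (N : ℕ) (F : ℕ → ℂ) (c : ℝ) (hc : 0 ≤ c) (h : ∀ t, ‖F t‖ ≤ c) : ‖tv N F‖ ≤ c := by
  unfold tv
  rw [norm_div, Complex.norm_natCast]
  have h1 : ‖∑ t ∈ range N, F t‖ ≤ N * c := by
    refine (norm_sum_le _ _).trans ?_
    refine (Finset.sum_le_card_nsmul _ _ c fun t _ => h t).trans (le_of_eq ?_)
    rw [card_range, nsmul_eq_mul]
  rcases Nat.eq_zero_or_pos N with h0 | h0
  · subst h0
    simpa using hc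
  · rw [div_le_iff₀ (by exact_mod_cast h0)]
    linarith

theorem block_le (s : Finset ℕ) (D : ℕ → ZMod M → ℂ) (G : ℝ) (hG : ∀ j ∈ s, avr (fun x => ‖D j x‖) ≤ G)
    (c : ZMod M → ℕ) (hc : ∀ x, c x ∈ s) : avr (fun x => ‖D (c x) x‖) ≤ s.card * G := by
  have h1 : avr (fun x => ‖D (c x) x‖) ≤ avr (fun x => ∑ j ∈ s, ‖D j x‖) :=
    avr_mono fun x => Finset.single_le_sum (f := fun j => ‖D j x‖) (fun _ _ => norm_nonneg _) (hc x)
  rw [avr_sum] at h1
  refine h1.trans ((Finset.sum_le_card_nsmul _ _ G hG).trans (le_of_eq ?_))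
  rw [nsmul_eq_mul]

theorem nq_le_pow (m : ℕ) (g : ZMod M → ℂ) (b : ℝ) (h : ∀ x, ‖g x‖ ≤ b) : nq m g ≤ b ^ m := by
  unfold nq
  exact avr_le fun x => pow_le_pow_left₀ (norm_nonneg _) (h x) m

theorem Ew_eq (B t lam : ℕ) (f : ZMod M → ℂ) : Ew B t t lam f = Eb (QB B t) (lam / QB B t) f := by
  unfold Ew
  rw [Nat.div_self (QB_pos B t), mul_one]

theorem Bd_Eb (q K : ℕ) (f : ZMod M → ℂ) (hf : Bd f) (x : ZMod M) : ‖Eb q K f x‖ ≤ 1 :=
  nrm_tv_le _ _ 1 zero_le_one fun _ => hf _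

theorem Gd_norm (B C₄ t e N ty : ℕ) (f : ZMod M → ℂ) (hf : Bd f) (x : ZMod M) : ‖Gd B C₄ t e N ty f x‖ ≤ 2 := by
  have h1 : ‖Ew B t t (N ^ e / 2 ^ (C₄ * t)) f x‖ ≤ 1 := by
    rw [Ew_eq]
    exact Bd_Eb _ _ f hf x
  have h2 := hf x
  unfold Gd
  split_ifs
  · linarith
  · linarith
  · refine (norm_sub_le _ _).trans (by linarith)

omit [NeZero M] in
theorem AA_zero_slot (N : ℕ) (P : Fin n → ℤ[X]) (g : Fin n → ZMod M → ℂ) (i : Fin n) (u : ZMod M → ℂ)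
    (hu : ∀ x, u x = 0) (x : ZMod M) : AA N P (Function.update g i u) x = 0 := by
  unfold AA tv
  have : ∀ t ∈ range N, ∏ l, Function.update g i u l (x + pz M (P l) t) = 0 := by
    intro t _
    refine Finset.prod_eq_zero (Finset.mem_univ i) ?_
    rw [Function.update_self]
    exact hu _
  rw [Finset.sum_congr rfl this]
  simp

/-- The difference of the two functions of a slot. -/
theorem diff_zero {A B C₄ K e N : ℕ} (h : WS M (QB B (K / 2)) (2 * A + 2) (PP (K / 2) (2 ^ (K * A))))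
    (hL : 1 ≤ Lf (QB B (K / 2)) C₄ (K / 2) N e) (f : ZMod M → ℂ) (x : ZMod M) :
    Gd B C₄ (K / 2) e N 0 f x - Vd A B C₄ K e N 0 f x = 0 := by
  unfold Gd Vd vT
  rw [if_pos rfl, if_pos rfl, vT_zero_diag (k := 0) h (by unfold Lf; exact Dvd.intro_left _ rfl) hL, Ew_eq]
  unfold Lf
  rw [Nat.mul_div_cancel _ (QB_pos B (K / 2)), sub_self]

theorem diff_pos {A B C₄ K e N ty : ℕ} (hty : ty ≠ 0) (h : WS M (QB B (K / 2)) (2 * A + 2) (PP (K / 2) (2 ^ (K * A))))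
    (hL : 1 ≤ Lf (QB B (K / 2)) C₄ (K / 2) N e) (f : ZMod M → ℂ) (x : ZMod M) :
    Gd B C₄ (K / 2) e N ty f x - Vd A B C₄ K e N ty f x =
      f x - Pf (QB B (K / 2)) (2 * A + 2) (2 * A + 2) (Lf (QB B (K / 2)) C₄ (K / 2) N e)
        (PP (K / 2) (2 ^ (K * A))) f x := by
  have h0 := diff_zero h hL f x
  unfold Gd Vd vT at h0
  rw [if_pos rfl, if_pos rfl] at h0
  unfold Gd Vd vT Pf
  rw [if_neg hty, if_neg hty]
  by_cases h1 : ty = 1
  · rw [if_pos h1, if_pos h1]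
  · rw [if_neg h1, if_neg h1]
    linear_combination -h0

theorem num_bound {KA E L Ne J' W Y q : ℕ} (h1 : 2 ^ E * L ≤ Ne) (hJ : J' = Ne / 2 ^ KA)
    (h3 : 2 * KA + 5 ≤ E) (h4 : 8 * W ^ 4 * 2 ^ (2 * KA) ≤ Y) (hY : 1 ≤ Y) (hYL : Y ≤ L) (hYJ : Y ≤ J')
    (hq1 : 1 ≤ q) (hq2 : q ≤ 2 ^ KA) :
    4 * (L : ℝ) / (q * J') + (W : ℝ) ^ 4 * q * (1 / L + 1 / J') ≤ 1 / (2 * 2 ^ KA) := by
  have hJ1 : 1 ≤ J' := hY.trans hYJ
  have hL1 : 1 ≤ L := hY.trans hYL
  have hJ0 : (0 : ℝ) < J' := by exact_mod_cast hJ1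
  have hL0 : (0 : ℝ) < L := by exact_mod_cast hL1
  have hY0 : (0 : ℝ) < Y := by exact_mod_cast hY
  have hqr : (1 : ℝ) ≤ q := by exact_mod_cast hq1
  have hqr2 : (q : ℝ) ≤ 2 ^ KA := by exact_mod_cast hq2
  have hP : (0 : ℝ) < 2 ^ KA := by positivity
  -- first term
  have a1 : Ne < (J' + 1) * 2 ^ KA := by
    rw [hJ]
    have := Nat.lt_div_mul_add (a := Ne) (b := 2 ^ KA) (by positivity)
    calc Ne < Ne / 2 ^ KA * 2 ^ KA + 2 ^ KA := this
      _ = _ := by ring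
  have a2 : 2 ^ E * L < 2 * J' * 2 ^ KA := by
    calc 2 ^ E * L ≤ Ne := h1
      _ < (J' + 1) * 2 ^ KA := a1
      _ ≤ 2 * J' * 2 ^ KA := Nat.mul_le_mul_right _ (by omega)
  have a3 : 2 ^ (2 * KA + 5) * L ≤ 2 ^ E * L := Nat.mul_le_mul_right _ (Nat.pow_le_pow_right (by norm_num) h3)
  have a4 : 2 ^ KA * (16 * 2 ^ KA * L) ≤ 2 ^ KA * J' := by
    have e1 : 2 ^ (2 * KA + 5) * L = 2 * (2 ^ KA * (16 * 2 ^ KA * L)) := by
      rw [pow_add, two_mul KA, pow_add]; ring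
    have e2 : 2 * J' * 2 ^ KA = 2 * (2 ^ KA * J') := by ring
    omega
  have a5 : 16 * 2 ^ KA * L ≤ J' := Nat.le_of_mul_le_mul_left a4 (by positivity)
  have a6 : (16 : ℝ) * 2 ^ KA * L ≤ J' := by exact_mod_cast a5
  have b1 : 4 * (L : ℝ) / (q * J') ≤ 1 / (4 * 2 ^ KA) := by
    rw [div_le_div_iff₀ (by positivity) (by positivity)]
    calc 4 * (L : ℝ) * (4 * 2 ^ KA) = 16 * 2 ^ KA * L := by ring
      _ ≤ J' := a6
      _ ≤ 1 * (q * J') := by nlinarith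
  -- second term
  have c1 : (1 : ℝ) / L ≤ 1 / Y := one_div_le_one_div_of_le hY0 (by exact_mod_cast hYL)
  have c2 : (1 : ℝ) / J' ≤ 1 / Y := one_div_le_one_div_of_le hY0 (by exact_mod_cast hYJ)
  have c3 : (8 : ℝ) * W ^ 4 * 2 ^ (2 * KA) ≤ Y := by exact_mod_cast h4
  have b2 : (W : ℝ) ^ 4 * q * (1 / L + 1 / J') ≤ 1 / (4 * 2 ^ KA) := by
    calc (W : ℝ) ^ 4 * q * (1 / L + 1 / J') ≤ (W : ℝ) ^ 4 * 2 ^ KA * (1 / Y + 1 / Y) := by
          gcongr
      _ = (2 * (W : ℝ) ^ 4 * 2 ^ KA) / Y := by ring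
      _ ≤ 1 / (4 * 2 ^ KA) := by
          rw [div_le_div_iff₀ hY0 (by positivity)]
          calc 2 * (W : ℝ) ^ 4 * 2 ^ KA * (4 * 2 ^ KA) = 8 * W ^ 4 * 2 ^ (2 * KA) := by
                rw [two_mul KA, pow_add]; ring
            _ ≤ 1 * (Y : ℝ) := by linarith
  have e : (1 : ℝ) / (2 * 2 ^ KA) = 1 / (4 * 2 ^ KA) + 1 / (4 * 2 ^ KA) := by
    field_simp
    norm_num
  rw [e]
  exact add_le_add b1 b2

end T3mAux

open T3mAux

theorem minor_block {n : ℕ} (P : Fin n → ℤ[X]) (e : Fin n → ℕ) (he : ∀ i, 1 ≤ e i) (h : InvP P e) : ∃ A : ℕ, 1 ≤ A ∧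
    ∀ B C₄ : ℕ, 4 * A ≤ B → 4 * A + 12 ≤ C₄ → ∃ C K₀ : ℕ, 1 ≤ C ∧ ∀ (M : ℕ) [NeZero M] (K : ℕ) (N : ℕ → ℕ) (ty : Fin n → ℕ), K₀ ≤ K → Sc N →
      qU (QB B (K / 2)) (2 * A + 2) (PP (K / 2) (2 ^ (K * A))) ∣ M → ∀ f : Fin n → ZMod M → ℂ, (∀ l, Bd (f l)) →
      ∀ c : ZMod M → ℕ, (∀ x, 2 ^ K ≤ c x ∧ c x < 2 ^ (K + 1)) →
      avr (fun x => ‖AA (N (c x)) P (fun l => Gd B C₄ (K / 2) (e l) (N (c x)) (ty l) (f l)) x -
        AA (N (c x)) P (fun l => Vd A B C₄ K (e l) (N (c x)) (ty l) (f l)) x‖) ≤ C / 2 ^ K := by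
  obtain ⟨A, r, C₁, hA, hr, hmin⟩ := minor P e he h
  refine ⟨A, hA, fun B C₄ hB hC₄ => ?_⟩
  obtain ⟨Cw, hCw, hw⟩ := w_vT_lin (2 * A + 2) r hr
  obtain ⟨K1, hK1⟩ := height A B hA hB
  obtain ⟨K2, hK2⟩ := size_block A B (2 * A + 2) (2 * A + 2) (16 * r + 2 * A + 8)
  obtain ⟨K3, hK3⟩ := Lf_block B C₄
  refine ⟨n * C₁ + 1, K1 + K2 + K3 + (2 * A + 11) + 4 ^ r * (1 + Cw), by omega, ?_⟩
  intro M _ K N ty hK hN hdvd f hf c hc
  have hKK1 : K1 ≤ K := by omega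
  have hKK2 : K2 ≤ K := by omega
  have hKK3 : K3 ≤ K := by omega
  have hKA : 2 * A + 11 ≤ K := by omega
  have hKp : 4 ^ r * (1 + Cw) ≤ K := by omega
  have hws := ws_block M B K A (2 * A + 2) (by omega) hdvd
  obtain ⟨qm, hqm1, hqm2, hqm3⟩ := hK2 K hKK2
  set Ps := PP (K / 2) (2 ^ (K * A)) with hPs
  set Q := QB B (K / 2) with hQ
  set W : ℕ := qm * (4 * (Ps.card + 2)) ^ (2 * A + 2 + 1) with hW
  set X : ℕ := 16 * r + 2 * A + 8 with hX
  set Y : ℕ := 2 ^ (2 ^ K / 8) with hY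
  have hW1 : 1 ≤ W := Nat.mul_pos hqm1 (Nat.pow_pos (by omega))
  have hY1 : 1 ≤ Y := Nat.one_le_pow _ _ (by norm_num)
  have hWX : W ^ X * (2 ^ (K * X + X)) ^ X ≤ Y := by
    rw [← mul_pow]
    exact hqm3
  have hWX1 : W ^ X ≤ Y := by
    refine le_trans ?_ hWX
    exact Nat.le_mul_of_pos_right _ (Nat.pow_pos (Nat.pow_pos (by norm_num)))
  have hWr : W ^ (16 * r) ≤ Y := (Nat.pow_le_pow_right hW1 (by omega)).trans hWX1
  have hWY : W ≤ Y := by
    calc W = W ^ 1 := (pow_one _).symm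
      _ ≤ W ^ X := Nat.pow_le_pow_right hW1 (by omega)
      _ ≤ Y := hWX1
  have hqmY : qm ≤ Y := (Nat.le_mul_of_pos_right _ (Nat.pow_pos (by omega))).trans hWY
  have h8 : 8 * W ^ 4 * 2 ^ (2 * (K * A)) ≤ Y := by
    refine le_trans ?_ hWX
    have e1 : W ^ 4 ≤ W ^ X := Nat.pow_le_pow_right hW1 (by omega)
    have e2 : 2 ^ (2 * (K * A) + 3) ≤ (2 ^ (K * X + X)) ^ X := by
      rw [← pow_mul]
      refine Nat.pow_le_pow_right (by norm_num) ?_
      have hX8 : 2 * A + 8 ≤ X := by omega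
      calc 2 * (K * A) + 3 ≤ K * X + X := by
            have : K * (2 * A) ≤ K * X := Nat.mul_le_mul_left _ (by omega)
            have e3 : 2 * (K * A) = K * (2 * A) := by ring
            omega
        _ ≤ (K * X + X) * X := Nat.le_mul_of_pos_right _ (by omega)
    calc 8 * W ^ 4 * 2 ^ (2 * (K * A)) = W ^ 4 * 2 ^ (2 * (K * A) + 3) := by rw [pow_add]; ring
      _ ≤ _ := Nat.mul_le_mul e1 e2
  have hPY : 2 ^ (K * A) ≤ Y := by
    refine le_trans ?_ h8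
    calc 2 ^ (K * A) ≤ 2 ^ (2 * (K * A)) := Nat.pow_le_pow_right (by norm_num) (by omega)
      _ ≤ 8 * W ^ 4 * 2 ^ (2 * (K * A)) :=
        Nat.le_mul_of_pos_left _ (Nat.mul_pos (by norm_num) (Nat.pow_pos hW1))
  have hYY : Y * Y ≤ 2 ^ (2 ^ K) := by
    rw [hY, ← pow_add]
    exact Nat.pow_le_pow_right (by norm_num) (div_add_le _)
  have hE : 2 * (K * A) + 5 ≤ C₄ * (K / 2) := by
    have e1 : (4 * A + 12) * (K / 2) ≤ C₄ * (K / 2) := Nat.mul_le_mul_right _ hC₄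
    have e2 : K ≤ 2 * (K / 2) + 1 := by omega
    have e3 : 2 * (K * A) ≤ 2 * ((2 * (K / 2) + 1) * A) :=
      Nat.mul_le_mul_left _ (Nat.mul_le_mul_right _ e2)
    have e4 : 2 * ((2 * (K / 2) + 1) * A) = 4 * A * (K / 2) + 2 * A := by ring
    have e5 : (4 * A + 12) * (K / 2) = 4 * A * (K / 2) + 12 * (K / 2) := by ring
    omega
  set Kp : ℝ := 4 ^ r * (1 + Cw) with hKpdef
  have hCw0 : (1 : ℝ) ≤ Cw := by exact_mod_cast hCw
  have h4r : (1 : ℝ) ≤ 4 ^ r := one_le_pow₀ (by norm_num)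
  have hKp1 : 1 ≤ Kp := by
    rw [hKpdef]
    nlinarith
  have hKpl : Kp ≤ ((2 ^ K : ℕ) : ℝ) := by
    have h1 : 4 ^ r * (1 + Cw) ≤ 2 ^ K := hKp.trans (Nat.lt_two_pow_self).le
    rw [hKpdef]
    exact_mod_cast h1
  -- the bound in one slot and one scale
  have key : ∀ (i : Fin n) (j : ℕ), j ∈ Finset.Ico (2 ^ K) (2 ^ (K + 1)) →
      avr (fun x => ‖AA (N j) P (Function.update
        (fun l => if l < i then (fun y => Vd A B C₄ K (e l) (N j) (ty l) (f l) y)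
          else (fun y => Gd B C₄ (K / 2) (e l) (N j) (ty l) (f l) y)) i
        (fun y => Gd B C₄ (K / 2) (e i) (N j) (ty i) (f i) y - Vd A B C₄ K (e i) (N j) (ty i) (f i) y)) x‖) ≤
      C₁ / ((2 ^ K : ℕ) : ℝ) ^ 2 := by
    intro i j hj
    rw [Finset.mem_Ico] at hj
    have hLb := fun l : Fin n => hK3 K hKK3 N (e l) j hN (he l) hj.1 hj.2
    have hYL : ∀ l : Fin n, Y ≤ Lf Q C₄ (K / 2) (N j) (e l) := by
      intro l
      refine le_trans ?_ (hLb l).2.2.2.2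
      exact Nat.pow_le_pow_right (by norm_num) (div_le_div_two _)
    have hL1 : ∀ l : Fin n, 1 ≤ Lf Q C₄ (K / 2) (N j) (e l) := fun l => hY1.trans (hYL l)
    have hTny : ∀ l : Fin n, Tny Q (2 * A + 2) (2 * A + 2) r (Lf Q C₄ (K / 2) (N j) (e l)) Ps := by
      intro l U hU hUc
      have e1 : qU Q (2 * A + 2) U * (4 * (Ps.card + 2)) ^ (2 * A + 2 + 1) ≤ W :=
        Nat.mul_le_mul_right _ (hqm2 U hU hUc)
      exact (Nat.pow_le_pow_left e1 _).trans (hWr.trans (hYL l))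
    have hV : ∀ l : Fin n, nq (2 * r) (fun y => Vd A B C₄ K (e l) (N j) (ty l) (f l) y) ≤ Kp := by
      intro l
      have h1 := hw M Q (2 * A + 2) (Lf Q C₄ (K / 2) (N j) (e l)) Ps hws (hTny l) (ty l) 0 (f l) (hf l)
      have h2 : nq (2 * r) (fun y => Vd A B C₄ K (e l) (N j) (ty l) (f l) y) ≤ Cw := h1
      rw [hKpdef]
      nlinarith
    have hG : ∀ l : Fin n, nq (2 * r) (fun y => Gd B C₄ (K / 2) (e l) (N j) (ty l) (f l) y) ≤ Kp := by
      intro l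
      have h1 := nq_le_pow (2 * r) (fun y => Gd B C₄ (K / 2) (e l) (N j) (ty l) (f l) y) 2
        (fun x => Gd_norm B C₄ (K / 2) (e l) (N j) (ty l) (f l) (hf l) x)
      have h2 : (2 : ℝ) ^ (2 * r) = 4 ^ r := by
        rw [pow_mul]
        norm_num
      rw [h2] at h1
      rw [hKpdef]
      nlinarith
    by_cases hty : ty i = 0
    · have hz : ∀ x, AA (N j) P (Function.update
        (fun l => if l < i then (fun y => Vd A B C₄ K (e l) (N j) (ty l) (f l) y)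
          else (fun y => Gd B C₄ (K / 2) (e l) (N j) (ty l) (f l) y)) i
        (fun y => Gd B C₄ (K / 2) (e i) (N j) (ty i) (f i) y - Vd A B C₄ K (e i) (N j) (ty i) (f i) y)) x = 0 :=
        fun x => AA_zero_slot _ _ _ _ _ (fun y => by rw [hty]; exact diff_zero hws (hL1 i) (f i) y) x
      refine (avr_le (c := 0) fun x => ?_).trans (by positivity)
      rw [hz x, norm_zero]
    · have hu : (fun y => Gd B C₄ (K / 2) (e i) (N j) (ty i) (f i) y - Vd A B C₄ K (e i) (N j) (ty i) (f i) y) =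
          fun y => f i y - Pf Q (2 * A + 2) (2 * A + 2) (Lf Q C₄ (K / 2) (N j) (e i)) Ps (f i) y := by
        funext y
        exact diff_pos hty hws (hL1 i) (f i) y
      rw [hu]
      refine hmin r le_rfl M (N j) (2 ^ K) Kp ?_ ?_ hKp1 hKpl i _ ?_ _ ?_ ?_
      · calc 2 = 2 ^ 1 := by norm_num
          _ ≤ 2 ^ K := Nat.pow_le_pow_right (by norm_num) (by omega)
      · rw [← pow_mul]
        calc 2 ^ (K * A) ≤ Y := hPY
          _ ≤ Y * Y := Nat.le_mul_of_pos_right _ hY1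
          _ ≤ 2 ^ (2 ^ K) := hYY
          _ ≤ 2 ^ j := Nat.pow_le_pow_right (by norm_num) hj.1
          _ ≤ N j := (hN j).1
      · intro l _
        by_cases hl : l < i
        · simp only [if_pos hl]
          exact hV l
        · simp only [if_neg hl]
          exact hG l
      · have h1 := WlinAux.nq_add_le (2 * r) (f i)
          (Pf Q (2 * A + 2) (2 * A + 2) (Lf Q C₄ (K / 2) (N j) (e i)) Ps (f i))
        have h2 : nq (2 * r) (f i) ≤ 1 := by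
          have := nq_le_pow (2 * r) (f i) 1 (hf i)
          rwa [one_pow] at this
        have h3 : nq (2 * r) (Pf Q (2 * A + 2) (2 * A + 2) (Lf Q C₄ (K / 2) (N j) (e i)) Ps (f i)) ≤ Cw := by
          have h4 := hw M Q (2 * A + 2) (Lf Q C₄ (K / 2) (N j) (e i)) Ps hws (hTny i) 1 0 (f i) (hf i)
          refine le_trans (le_of_eq ?_) h4
          congr 1
        have h5 : (fun y => f i y - Pf Q (2 * A + 2) (2 * A + 2) (Lf Q C₄ (K / 2) (N j) (e i)) Ps (f i) y) =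
            fun y => f i y + (-1) * Pf Q (2 * A + 2) (2 * A + 2) (Lf Q C₄ (K / 2) (N j) (e i)) Ps (f i) y := by
          funext y
          ring
        rw [h5, hKpdef]
        refine h1.trans ?_
        have h6 : (2 : ℝ) ^ (2 * r) = 4 ^ r := by
          rw [pow_mul]
          norm_num
        rw [h6]
        exact mul_le_mul_of_nonneg_left (add_le_add h2 h3) (by positivity)
      · intro q hq1 hq2
        have hq2' : q ≤ 2 ^ (K * A) := by rwa [pow_mul]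
        obtain ⟨U₀, hU1, hU2, hU3, hU4⟩ := hK1 K hKK1 q hq1 hq2'
        have hNe : 2 ^ (2 ^ K) ≤ N j ^ e i := by
          calc 2 ^ (2 ^ K) ≤ 2 ^ j := Nat.pow_le_pow_right (by norm_num) hj.1
            _ ≤ N j := (hN j).1
            _ = N j ^ 1 := (pow_one _).symm
            _ ≤ N j ^ e i := Nat.pow_le_pow_right
              ((Nat.one_le_pow _ _ (by norm_num)).trans (hN j).1) (he i)
        have hYJ : Y ≤ N j ^ e i / 2 ^ (K * A) := by
          rw [Nat.le_div_iff_mul_le (by positivity)]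
          exact (Nat.mul_le_mul_left _ hPY).trans (hYY.trans hNe)
        have hb := fun x => minor_abs (k := 2 * A + 2) (a := 2 * A + 2) (Q := Q) (Ps := Ps)
          (L := Lf Q C₄ (K / 2) (N j) (e i)) hws hqm2 (hqmY.trans (hYL i)) (f i) (hf i) q
          (N j ^ e i / 2 ^ (K * A)) hq1 (hY1.trans hYJ) U₀ hU1 hU2 hU3 hU4 x
        have hn := num_bound (KA := K * A) (E := C₄ * (K / 2)) (L := Lf Q C₄ (K / 2) (N j) (e i))
          (Ne := N j ^ e i) (W := W) (Y := Y) (q := q) (hLb i).2.1 rfl hE h8 hY1 (hYL i) hYJ hq1 hq2'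
        have hcast : (((2 ^ K : ℕ) : ℝ)) ^ A = 2 ^ (K * A) := by
          push_cast
          rw [← pow_mul]
        rw [hcast]
        have hlam : (2 ^ K) ^ A = 2 ^ (K * A) := by rw [← pow_mul]
        rw [hlam]
        refine avr_le fun x => (hb x).trans ?_
        refine le_trans (le_of_eq ?_) hn
        rw [hW]
        push_cast
        ring
  -- summation
  have hpt : ∀ x, ‖AA (N (c x)) P (fun l => Gd B C₄ (K / 2) (e l) (N (c x)) (ty l) (f l)) x -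
        AA (N (c x)) P (fun l => Vd A B C₄ K (e l) (N (c x)) (ty l) (f l)) x‖ ≤
      ∑ i : Fin n, ‖AA (N (c x)) P (Function.update
        (fun l => if l < i then (fun y => Vd A B C₄ K (e l) (N (c x)) (ty l) (f l) y)
          else (fun y => Gd B C₄ (K / 2) (e l) (N (c x)) (ty l) (f l) y)) i
        (fun y => Gd B C₄ (K / 2) (e i) (N (c x)) (ty i) (f i) y -
          Vd A B C₄ K (e i) (N (c x)) (ty i) (f i) y)) x‖ := by
    intro x
    rw [AA_telescope]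
    exact norm_sum_le _ _
  have hsum : avr (fun x => ∑ i : Fin n, ‖AA (N (c x)) P (Function.update
        (fun l => if l < i then (fun y => Vd A B C₄ K (e l) (N (c x)) (ty l) (f l) y)
          else (fun y => Gd B C₄ (K / 2) (e l) (N (c x)) (ty l) (f l) y)) i
        (fun y => Gd B C₄ (K / 2) (e i) (N (c x)) (ty i) (f i) y -
          Vd A B C₄ K (e i) (N (c x)) (ty i) (f i) y)) x‖) ≤ ∑ _i : Fin n, (C₁ : ℝ) / 2 ^ K := by
    rw [avr_sum]
    refine Finset.sum_le_sum fun i _ => ?_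
    have h1 := block_le (Finset.Ico (2 ^ K) (2 ^ (K + 1))) (fun j x => AA (N j) P (Function.update
        (fun l => if l < i then (fun y => Vd A B C₄ K (e l) (N j) (ty l) (f l) y)
          else (fun y => Gd B C₄ (K / 2) (e l) (N j) (ty l) (f l) y)) i
        (fun y => Gd B C₄ (K / 2) (e i) (N j) (ty i) (f i) y -
          Vd A B C₄ K (e i) (N j) (ty i) (f i) y)) x) (C₁ / ((2 ^ K : ℕ) : ℝ) ^ 2) (key i) c
      (fun x => Finset.mem_Ico.mpr (hc x))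
    refine h1.trans (le_of_eq ?_)
    rw [Nat.card_Ico]
    have h2 : 2 ^ (K + 1) - 2 ^ K = 2 ^ K := by
      rw [pow_succ]
      exact sub_two _
    rw [h2]
    push_cast
    field_simp
  refine (avr_mono hpt).trans (hsum.trans ?_)
  rw [Finset.sum_const, Finset.card_univ, Fintype.card_fin, nsmul_eq_mul]
  push_cast
  rw [← mul_div_assoc]
  gcongr
  linarith

end Pool.Agent.EQD
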