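import Pool.Agent.Lib.EQD.T3s
import Pool.Agent.Lib.EQD.T3m

/-!
# Module GapB: from the functions to the averages of width `2 ^ (- C₄ t(j))`

PROOF. `A` from `minor_block`, `C₄ = 4 A + 12`, `B₀ = 4 A`; `C₁, K₁` from `structured`, `C₂, K₂` from `minor_block`. `AA_telescope`: the difference at `x` is the sum over `i` of `AA (N (c x)) P (fun l => Gd B C₄ t (e l) (N (c x)) (ty l) (f l)) x`,
`t = tj (c x)`, `ty l = 2` if `l = i`, `0` if `l < i`, `1` if `l > i`. Blocks: `K x = Nat.log 2 (c x)`, `tj (c x) = K x / 2` (`tj_block`). For every `K` let `c_K x = c x` if `2 ^ K ≤ c x < 2 ^ (K + 1)`, and `2 ^ K` otherwise; then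
`‖AA .. (c x)‖ ≤ ∑_{K = K'}^{log J₁} ‖AA .. (c_K x)‖` (`K' = log J₀`), and for `K ≥ K₁, K₂` the mean of the term `K` is at most `C₁ / 2 ^ (K / C₁) + C₂ / 2 ^ K`. The sum over `K ≥ K'` and `i` is at most `ε` for `J₀ = 2 ^ K'` large.
`M₀ = ∏_{K ≤ log J₁} qU (QB B (K / 2)) (2 A + 2) (PP (K / 2) (2 ^ (K A)))` (positive: `QB ≥ 1`, primes).
-/

set_option autoImplicit false

open Finset Polynomial

namespace Pool.Agent.EQD

open Pool.Agent.HLT Pool.Agent.NLT Pool.Agent.NLG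

namespace GapBAux

theorem tail (a : ℕ → ℝ) (ha : Summable a) (δ : ℝ) (hδ : 0 < δ) :
    ∃ K₀ : ℕ, ∀ s : Finset ℕ, (∀ k ∈ s, K₀ ≤ k) → ∑ k ∈ s, a k ≤ δ := by
  obtain ⟨s, hs⟩ := summable_iff_vanishing_norm.mp ha δ hδ
  refine ⟨s.sup id + 1, fun t ht => ?_⟩
  have hd : Disjoint t s := by
    rw [Finset.disjoint_left]
    intro k hk hks
    have h1 := ht k hk
    have h2 : id k ≤ s.sup id := Finset.le_sup hks
    have h3 : k ≤ s.sup id := h2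
    omega
  have h4 := hs t hd
  rw [Real.norm_eq_abs] at h4
  exact (le_abs_self _).trans h4.le

theorem summ (A : ℕ) (hA : 1 ≤ A) : Summable (fun k : ℕ => (1 / 2 : ℝ) ^ (k / A)) := by
  obtain ⟨ρ, h0, h1, hρ⟩ : ∃ ρ : ℝ, 0 < ρ ∧ ρ < 1 ∧ ρ ^ A = 1 / 2 := by
    refine ⟨(1 / 2 : ℝ) ^ ((1 : ℝ) / (A : ℕ)), by positivity, ?_, ?_⟩
    · apply Real.rpow_lt_one (by norm_num) (by norm_num)
      have : (0 : ℝ) < (A : ℕ) := by exact_mod_cast hA
      positivity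
    · rw [← Real.rpow_natCast, ← Real.rpow_mul (by norm_num), one_div_mul_cancel, Real.rpow_one]
      have : A ≠ 0 := by omega
      exact_mod_cast this
  have hle : ∀ k : ℕ, (1 / 2 : ℝ) ^ (k / A) ≤ 2 * ρ ^ k := by
    intro k
    have h3 : ρ ^ k = (1 / 2 : ℝ) ^ (k / A) * ρ ^ (k % A) := by
      rw [← hρ, ← pow_mul, ← pow_add, Nat.div_add_mod k A]
    have h5 : (1 / 2 : ℝ) ≤ ρ ^ (k % A) := by
      rw [← hρ]
      exact pow_le_pow_of_le_one h0.le h1.le (Nat.mod_lt k (by omega : A > 0)).le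
    rw [h3]
    have h6 : (0 : ℝ) < (1 / 2 : ℝ) ^ (k / A) := by positivity
    nlinarith
  have hs2 : Summable (fun k : ℕ => 2 * ρ ^ k) := (summable_geometric_of_lt_one h0.le h1).mul_left 2
  exact Summable.of_nonneg_of_le (fun k => by positivity) hle hs2

theorem gapB_qU_pos (B K A : ℕ) :
    1 ≤ qU (QB B (K / 2)) (2 * A + 2) (PP (K / 2) (2 ^ (K * A))) := by
  unfold qU
  have h1 := QB_pos B (K / 2)
  have h2 : 0 < ∏ p ∈ PP (K / 2) (2 ^ (K * A)), p ^ (2 * A + 2) := by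
    apply Finset.prod_pos
    intro p hp
    unfold PP at hp
    exact pow_pos (mem_filter.mp hp).2.1.pos _
  exact Nat.mul_pos h1 h2

end GapBAux

open GapBAux

theorem gapB {n D : ℕ} {P : Fin n → ℤ[X]} {e : Fin n → ℕ} {i₀ : Fin n} (h : EqDeg D P e i₀) : ∃ C₄ B₀ : ℕ, 2 ≤ C₄ ∧ 1 ≤ B₀ ∧
    ∀ B : ℕ, B₀ ≤ B → ∀ ε : ℝ, 0 < ε → ∃ J₀ : ℕ, ∀ J₁ : ℕ, ∃ M₀ : ℕ, 1 ≤ M₀ ∧ ∀ (M : ℕ) [NeZero M], M₀ ∣ M → ∀ N : ℕ → ℕ, Sc N →
    ∀ f : Fin n → ZMod M → ℂ, (∀ l, Bd (f l)) → ∀ c : ZMod M → ℕ, Ch J₀ J₁ c →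
    avr (fun x => ‖AA (N (c x)) P f x -
      AA (N (c x)) P (fun l => Ew B (tj (c x)) (tj (c x)) (N (c x) ^ e l / 2 ^ (C₄ * tj (c x))) (f l)) x‖) ≤ ε := by
  obtain ⟨A, hA, hmin⟩ := minor_block P e h.pos h.inv
  refine ⟨4 * A + 12, 4 * A, by omega, by omega, ?_⟩
  intro B hB ε hε
  obtain ⟨C₁, K₁, hC₁, h1⟩ := structured h A B (4 * A + 12) hA hB
  obtain ⟨C₂, K₂, hC₂, h2⟩ := hmin B (4 * A + 12) hB le_rfl
  obtain ⟨C₄, hC₄⟩ : ∃ C₄, C₄ = 4 * A + 12 := ⟨_, rfl⟩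
  rw [← hC₄] at h1 h2 ⊢
  have hn1 : (0 : ℝ) < (n : ℝ) + 1 := by positivity
  obtain ⟨δ, hδ⟩ : ∃ δ : ℝ, δ = ε / ((n : ℝ) + 1) := ⟨_, rfl⟩
  have hδ0 : 0 < δ := by rw [hδ]; positivity
  have hsum : Summable (fun K : ℕ => (C₁ : ℝ) / 2 ^ (K / C₁) + C₂ / 2 ^ K) := by
    have a1 := (summ C₁ hC₁).mul_left (C₁ : ℝ)
    have a2 := (summ 1 le_rfl).mul_left (C₂ : ℝ)
    have e1 : (fun K : ℕ => (C₁ : ℝ) / 2 ^ (K / C₁) + C₂ / 2 ^ K) =
        (fun K : ℕ => (C₁ : ℝ) * (1 / 2) ^ (K / C₁) + (C₂ : ℝ) * (1 / 2) ^ (K / 1)) := by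
      funext K
      rw [Nat.div_one, one_div, inv_pow, inv_pow]
      rfl
    rw [e1]
    exact a1.add a2
  obtain ⟨K₀, hK₀⟩ := tail _ hsum δ hδ0
  obtain ⟨K', hK'⟩ : ∃ K', K' = max K₀ (max K₁ K₂) := ⟨_, rfl⟩
  have k0 : K₀ ≤ K' := by rw [hK']; exact le_max_left _ _
  have k1 : K₁ ≤ K' := by rw [hK']; exact (le_max_left _ _).trans (le_max_right _ _)
  have k2 : K₂ ≤ K' := by rw [hK']; exact (le_max_right _ _).trans (le_max_right _ _)
  refine ⟨2 ^ K', fun J₁ => ?_⟩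
  refine ⟨∏ K ∈ range (Nat.log 2 J₁ + 1), qU (QB B (K / 2)) (2 * A + 2) (PP (K / 2) (2 ^ (K * A))),
    Nat.succ_le_of_lt (Finset.prod_pos fun K _ => gapB_qU_pos B K A), ?_⟩
  intro M _ hM N hN f hf c hc
  -- the types
  obtain ⟨ty, hty⟩ : ∃ ty : Fin n → Fin n → ℕ, ty = fun i l => if l = i then 2 else if l < i then 0 else 1 :=
    ⟨_, rfl⟩
  have hslot : ∀ i : Fin n, avr (fun x => ‖AA (N (c x)) P
      (fun l => Gd B C₄ (tj (c x)) (e l) (N (c x)) (ty i l) (f l)) x‖) ≤ δ := by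
    intro i
    obtain ⟨cK, hcK⟩ : ∃ cK : ℕ → ZMod M → ℕ, cK = fun K x =>
        if 2 ^ K ≤ c x ∧ c x < 2 ^ (K + 1) then c x else 2 ^ K := ⟨_, rfl⟩
    have hcK1 : ∀ K x, 2 ^ K ≤ cK K x ∧ cK K x < 2 ^ (K + 1) := by
      intro K x
      rw [hcK]
      show 2 ^ K ≤ (if 2 ^ K ≤ c x ∧ c x < 2 ^ (K + 1) then c x else 2 ^ K) ∧
        (if 2 ^ K ≤ c x ∧ c x < 2 ^ (K + 1) then c x else 2 ^ K) < 2 ^ (K + 1)
      split_ifs with hh
      · exact hh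
      · exact ⟨le_rfl, Nat.pow_lt_pow_right (by norm_num) (Nat.lt_succ_self K)⟩
    have hpt : ∀ x, ‖AA (N (c x)) P (fun l => Gd B C₄ (tj (c x)) (e l) (N (c x)) (ty i l) (f l)) x‖ ≤
        ∑ K ∈ Icc K' (Nat.log 2 J₁), ‖AA (N (cK K x)) P
          (fun l => Gd B C₄ (K / 2) (e l) (N (cK K x)) (ty i l) (f l)) x‖ := by
      intro x
      obtain ⟨c1, c2⟩ := hc x
      have hc0 : c x ≠ 0 := by
        have : 0 < 2 ^ K' := by positivity
        omega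
      have l1 : 2 ^ Nat.log 2 (c x) ≤ c x := Nat.pow_log_le_self 2 hc0
      have l2 : c x < 2 ^ (Nat.log 2 (c x) + 1) := Nat.lt_pow_succ_log_self (by norm_num) (c x)
      have l3 : K' ≤ Nat.log 2 (c x) := Nat.le_log_of_pow_le (by norm_num) c1
      have l4 : Nat.log 2 (c x) ≤ Nat.log 2 J₁ := Nat.log_mono_right c2
      have hmem : Nat.log 2 (c x) ∈ Icc K' (Nat.log 2 J₁) := mem_Icc.mpr ⟨l3, l4⟩
      have h5 := Finset.single_le_sum (f := fun K => ‖AA (N (cK K x)) P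
          (fun l => Gd B C₄ (K / 2) (e l) (N (cK K x)) (ty i l) (f l)) x‖)
          (fun K _ => norm_nonneg _) hmem
      refine le_trans (le_of_eq ?_) h5
      have h6 : cK (Nat.log 2 (c x)) x = c x := by
        rw [hcK]
        show (if 2 ^ Nat.log 2 (c x) ≤ c x ∧ c x < 2 ^ (Nat.log 2 (c x) + 1) then c x else _) = c x
        rw [if_pos ⟨l1, l2⟩]
      show _ = ‖AA (N (cK (Nat.log 2 (c x)) x)) P
          (fun l => Gd B C₄ (Nat.log 2 (c x) / 2) (e l) (N (cK (Nat.log 2 (c x)) x)) (ty i l) (f l)) x‖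
      rw [h6, tj_block (Nat.log 2 (c x)) (c x) l1 l2]
    refine (avr_mono hpt).trans ?_
    rw [avr_sum]
    refine le_trans (Finset.sum_le_sum fun K hK => ?_) (hK₀ (Icc K' (Nat.log 2 J₁)) fun K hK =>
      k0.trans (mem_Icc.mp hK).1)
    obtain ⟨m1, m2⟩ := mem_Icc.mp hK
    have hdiv : qU (QB B (K / 2)) (2 * A + 2) (PP (K / 2) (2 ^ (K * A))) ∣ M :=
      (Finset.dvd_prod_of_mem (fun K => qU (QB B (K / 2)) (2 * A + 2) (PP (K / 2) (2 ^ (K * A))))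
        (mem_range.mpr (Nat.lt_succ_of_le m2))).trans hM
    have b1 := h1 M K N (ty i) i (k1.trans m1) hN hdiv (by rw [hty]; exact if_pos rfl) f hf (cK K) (hcK1 K)
    have b2 := h2 M K N (ty i) (k2.trans m1) hN hdiv f hf (cK K) (hcK1 K)
    have b3 : ∀ x, ‖AA (N (cK K x)) P (fun l => Gd B C₄ (K / 2) (e l) (N (cK K x)) (ty i l) (f l)) x‖ ≤
        ‖AA (N (cK K x)) P (fun l => Vd A B C₄ K (e l) (N (cK K x)) (ty i l) (f l)) x‖ +
        ‖AA (N (cK K x)) P (fun l => Gd B C₄ (K / 2) (e l) (N (cK K x)) (ty i l) (f l)) x -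
          AA (N (cK K x)) P (fun l => Vd A B C₄ K (e l) (N (cK K x)) (ty i l) (f l)) x‖ := by
      intro x
      have := norm_add_le (AA (N (cK K x)) P (fun l => Vd A B C₄ K (e l) (N (cK K x)) (ty i l) (f l)) x)
        (AA (N (cK K x)) P (fun l => Gd B C₄ (K / 2) (e l) (N (cK K x)) (ty i l) (f l)) x -
          AA (N (cK K x)) P (fun l => Vd A B C₄ K (e l) (N (cK K x)) (ty i l) (f l)) x)
      rwa [add_sub_cancel] at this
    refine (avr_mono b3).trans ?_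
    rw [avr_add]
    exact add_le_add b1 b2
  have hfin : ∀ x, ‖AA (N (c x)) P f x -
      AA (N (c x)) P (fun l => Ew B (tj (c x)) (tj (c x)) (N (c x) ^ e l / 2 ^ (C₄ * tj (c x))) (f l)) x‖ ≤
      ∑ i : Fin n, ‖AA (N (c x)) P (fun l => Gd B C₄ (tj (c x)) (e l) (N (c x)) (ty i l) (f l)) x‖ := by
    intro x
    rw [AA_telescope]
    refine (norm_sum_le _ _).trans (le_of_eq ?_)
    refine Finset.sum_congr rfl fun i _ => ?_
    congr 2
    funext l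
    by_cases hl : l = i
    · subst hl
      rw [Function.update_self]
      funext y
      unfold Gd
      rw [hty]
      simp
    · rw [Function.update_of_ne hl]
      funext y
      unfold Gd
      rw [hty]
      by_cases hl2 : l < i
      · simp [hl, hl2]
      · simp [hl, hl2]
  refine (avr_mono hfin).trans ?_
  rw [avr_sum]
  refine (Finset.sum_le_card_nsmul _ _ _ fun i _ => hslot i).trans ?_
  rw [card_univ, Fintype.card_fin, nsmul_eq_mul, hδ]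
  have e1 : (n : ℝ) * (ε / ((n : ℝ) + 1)) = n / ((n : ℝ) + 1) * ε := by
    field_simp
  rw [e1]
  have e2 : (n : ℝ) / ((n : ℝ) + 1) ≤ 1 := div_le_one_of_le₀ (by linarith) hn1.le
  nlinarith

end Pool.Agent.EQD
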