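import Pool.Agent.Lib.EQD.DefsC
import Pool.Agent.Lib.EQD.DkB

/-!
# Module MuA: class sums in windows and their Efron-Stein components

PROOFS. The elements `h < L` with `z + s + h ≡ y` modulo `q` (`q ∣ M`, so residues modulo `q` make sense: `q ∣ (u - y).val ↔ ZMod.castHom u = ZMod.castHom y`) form a progression of
difference `q` with at most `L / q + 1` members: `‖m‖ ≤ (q / L)(L / q + 1) ≤ 2`. Moving the window by `u` changes at most `2 (u / q + 1)` members. `Ep p`: the `p`-primary subgroup of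
`ZMod M` acts transitively on the residues modulo `p ^ a` (`p ^ a ∣ p ^ v_p(M)`) and trivially on the residues modulo `q_(U \ p)` (coprime to `p`), so the average over `y + H_p` of
`q_U 1[u ≡ y mod q_U]` is `q_(U \ p) 1[u ≡ y mod q_(U \ p)]`. For `vS`: pair `U` with `U ∆ {p}`.
-/

set_option autoImplicit false

open Finset Polynomial

namespace Pool.Agent.EQD

open Pool.Agent.HLT Pool.Agent.NLT Pool.Agent.NLG

namespace MuAAux

variable {M : ℕ} [NeZero M]

theorem dvd_val_iff {q : ℕ} (hqM : q ∣ M) (t : ZMod M) :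
    q ∣ t.val ↔ ZMod.castHom hqM (ZMod q) t = 0 := by
  rw [← ZMod.natCast_eq_zero_iff, ZMod.natCast_val, ZMod.castHom_apply]

theorem dvd_val_nat {q : ℕ} (hqM : q ∣ M) (n : ℕ) : q ∣ ((n : ZMod M)).val ↔ q ∣ n := by
  rw [ZMod.val_natCast, Nat.dvd_mod_iff hqM]

theorem dvd_val_add_nat {q : ℕ} (hqM : q ∣ M) (w : ZMod M) (n : ℕ) : q ∣ (w + (n : ZMod M)).val ↔ q ∣ w.val + n := by
  have h : w + (n : ZMod M) = ((w.val + n : ℕ) : ZMod M) := by
    push_cast
    rw [ZMod.natCast_zmod_val]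
  rw [h, dvd_val_nat hqM]

/-- Translation by a multiple of `q` changes nothing. -/
theorem dvd_val_sub {q : ℕ} (hqM : q ∣ M) (t : ZMod M) (n : ℕ) (hn : q ∣ n) :
    q ∣ (t - (n : ZMod M)).val ↔ q ∣ t.val := by
  rw [dvd_val_iff hqM, dvd_val_iff hqM, map_sub, map_natCast, (ZMod.natCast_eq_zero_iff n q).2 hn, sub_zero]

theorem cnt1 (q : ℕ) (n m K : ℕ) (hK : K ≤ q) :
    ((Ico m (m + K)).filter (fun h => q ∣ n + h)).card ≤ 1 := by
  rw [Finset.card_le_one]
  have key : ∀ a b : ℕ, m ≤ a → b < m + K → q ∣ n + a → q ∣ n + b → ¬ a < b := by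
    intro a b ha hb h1 h2 hlt
    have h3 : q ∣ (n + b) - (n + a) := Nat.dvd_sub h2 h1
    have h4 : (n + b) - (n + a) = b - a := by omega
    rw [h4] at h3
    have h5 := Nat.le_of_dvd (by omega) h3
    omega
  intro a ha b hb
  simp only [mem_filter, mem_Ico] at ha hb
  have h1 := key a b ha.1.1 hb.1.2 ha.2 hb.2
  have h2 := key b a hb.1.1 ha.1.2 hb.2 ha.2
  omega

theorem cnt (q : ℕ) (hq : 1 ≤ q) (n : ℕ) : ∀ L m : ℕ,
    q * ((Ico m (m + L)).filter (fun h => q ∣ n + h)).card < L + q := by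
  intro L
  induction L using Nat.strong_induction_on with
  | _ L ih =>
    intro m
    by_cases hL : L < q
    · rcases Nat.eq_zero_or_pos L with h0 | h0
      · subst h0
        simp
        omega
      · have h1 := cnt1 q n m L (by omega)
        have h2 := Nat.mul_le_mul_left q h1
        omega
    · have h1 := ih (L - q) (by omega) (m + q)
      have h2 : m + q + (L - q) = m + L := by omega
      rw [h2] at h1
      have h3 := cnt1 q n m q le_rfl
      have h4 : (Ico m (m + L)).filter (fun h => q ∣ n + h) =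
          (Ico m (m + q)).filter (fun h => q ∣ n + h) ∪ (Ico (m + q) (m + L)).filter (fun h => q ∣ n + h) := by
        rw [← filter_union, Ico_union_Ico_eq_Ico (by omega) (by omega)]
      have h5 : ((Ico m (m + L)).filter (fun h => q ∣ n + h)).card ≤
          ((Ico m (m + q)).filter (fun h => q ∣ n + h)).card +
            ((Ico (m + q) (m + L)).filter (fun h => q ∣ n + h)).card := by
        rw [h4]
        exact card_union_le _ _
      have h6 := Nat.mul_le_mul_left q h5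
      have h7 := Nat.mul_le_mul_left q h3
      rw [Nat.mul_add] at h6
      omega

/-- The summand. -/
noncomputable def G (q : ℕ) (f : ZMod M → ℂ) (w y : ZMod M) (h : ℕ) : ℂ :=
  if q ∣ (w + (h : ZMod M) - y).val then f (w + (h : ZMod M)) else 0

theorem mU_eq (q L : ℕ) (s : ZMod M) (f : ZMod M → ℂ) (z y : ZMod M) :
    mU q L s f z y = (q : ℂ) / L * ∑ h ∈ range L, G q f (z + s) y h := rfl

theorem norm_G_le (q : ℕ) (f : ZMod M → ℂ) (hf : Bd f) (w y : ZMod M) (h : ℕ) : ‖G q f w y h‖ ≤ 1 := by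
  unfold G
  split_ifs
  · exact hf _
  · simp

theorem norm_sum_G (q : ℕ) (hq : 1 ≤ q) (hqM : q ∣ M) (f : ZMod M → ℂ) (hf : Bd f) (w y : ZMod M) (m L : ℕ) :
    ‖∑ h ∈ Ico m (m + L), G q f w y h‖ ≤ (L : ℝ) / q + 1 := by
  have hq0 : (0 : ℝ) < q := by exact_mod_cast hq
  have h1 : ‖∑ h ∈ Ico m (m + L), G q f w y h‖ ≤
      ∑ h ∈ Ico m (m + L), if q ∣ (w - y).val + h then (1 : ℝ) else 0 := by
    refine norm_sum_le_of_le _ (fun h _ => ?_)
    unfold G
    have e : w + (h : ZMod M) - y = (w - y) + (h : ZMod M) := by ring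
    rw [e]
    by_cases hc : q ∣ (w - y).val + h
    · rw [if_pos ((dvd_val_add_nat hqM _ _).2 hc), if_pos hc]
      exact hf _
    · rw [if_neg (fun hh => hc ((dvd_val_add_nat hqM _ _).1 hh)), if_neg hc]
      simp
  rw [← Finset.sum_filter, Finset.sum_const, nsmul_eq_mul, mul_one] at h1
  refine h1.trans ?_
  have h2 := cnt q hq ((w - y).val) L m
  have h3 : (q : ℝ) * (((Ico m (m + L)).filter (fun h => q ∣ (w - y).val + h)).card : ℝ) ≤ L + q := by
    exact_mod_cast h2.le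
  have h4 : (L : ℝ) / q + 1 = (L + q) / q := by field_simp
  rw [h4, le_div_iff₀ hq0]
  linarith

theorem sum_Ico_G (q : ℕ) (f : ZMod M → ℂ) (w y : ZMod M) (u L : ℕ) :
    ∑ h ∈ range L, G q f (w + (u : ZMod M)) y h - ∑ h ∈ range L, G q f w y h =
      ∑ h ∈ Ico L (L + u), G q f w y h - ∑ h ∈ Ico 0 (0 + u), G q f w y h := by
  have h1 : ∑ h ∈ range L, G q f (w + (u : ZMod M)) y h = ∑ h ∈ Ico u (u + L), G q f w y h := by
    rw [Finset.sum_Ico_eq_sum_range]
    have e : u + L - u = L := by omega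
    rw [e]
    refine Finset.sum_congr rfl (fun h _ => ?_)
    unfold G
    push_cast
    rw [add_assoc]
  have h2 : ∑ h ∈ Ico 0 u, G q f w y h + ∑ h ∈ Ico u (u + L), G q f w y h = ∑ h ∈ Ico 0 (u + L), G q f w y h :=
    Finset.sum_Ico_consecutive _ (by omega) (by omega)
  have h3 : ∑ h ∈ Ico 0 L, G q f w y h + ∑ h ∈ Ico L (u + L), G q f w y h = ∑ h ∈ Ico 0 (u + L), G q f w y h :=
    Finset.sum_Ico_consecutive _ (by omega) (by omega)
  rw [h1, zero_add, add_comm L u, Finset.range_eq_Ico]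
  linear_combination h2 - h3

theorem factorization_ge {p a v : ℕ} (hp : p.Prime) (hM : M ≠ 0) (hv : v = M.factorization p) (h : p ^ a ∣ M) : a ≤ v := by
  rw [hv]
  exact (hp.pow_dvd_iff_le_factorization hM).1 h

theorem coprime_div {p v : ℕ} (hp : p.Prime) (hM : M ≠ 0) (hv : v = M.factorization p) : Nat.Coprime (M / p ^ v) p := by
  rw [hv]
  exact (Nat.coprime_ordCompl hp hM).symm

theorem dvd_div {p v q' : ℕ} (hv : v = M.factorization p) (hc : Nat.Coprime q' p) (h : q' ∣ M) :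
    q' ∣ M / p ^ v := by
  have h1 : p ^ v * (M / p ^ v) = M := by
    rw [hv]
    exact Nat.ordProj_mul_ordCompl_eq_self M p
  rw [← h1] at h
  exact (Nat.Coprime.dvd_of_dvd_mul_left (Nat.Coprime.pow_right v hc) h)

/-- One period. -/
theorem one_period (n c : ℕ) [NeZero n] (hc : Nat.Coprime c n) (τ : ZMod n) (F : ℂ) :
    ∑ i ∈ range n, (if τ = ((c * i : ℕ) : ZMod n) then F else 0) = F := by
  have hu : (c : ZMod n) * (c : ZMod n)⁻¹ = 1 := ZMod.coe_mul_inv_eq_one c hc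
  set r : ℕ := ((c : ZMod n)⁻¹ * τ).val with hr
  have hr1 : r ∈ range n := mem_range.2 (ZMod.val_lt _)
  rw [Finset.sum_eq_single_of_mem r hr1]
  · rw [if_pos]
    rw [Nat.cast_mul, hr, ZMod.natCast_zmod_val, ← mul_assoc, hu, one_mul]
  · intro i hi hne
    rw [if_neg]
    intro h
    apply hne
    have h1 : ((i : ℕ) : ZMod n) = (c : ZMod n)⁻¹ * τ := by
      rw [h, Nat.cast_mul, ← mul_assoc, mul_comm ((c : ZMod n)⁻¹), hu, one_mul]
    rw [hr, ← h1, ZMod.val_natCast, Nat.mod_eq_of_lt (mem_range.1 hi)]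

theorem many_periods (n c K : ℕ) [NeZero n] (hc : Nat.Coprime c n) (τ : ZMod n) (F : ℂ) :
    ∑ i ∈ range (n * K), (if τ = ((c * i : ℕ) : ZMod n) then F else 0) = K * F := by
  induction K with
  | zero => simp
  | succ K ih =>
    rw [Nat.mul_succ, Finset.sum_range_add, ih]
    have h1 : ∑ i ∈ range n, (if τ = ((c * (n * K + i) : ℕ) : ZMod n) then F else 0) = F := by
      rw [← one_period n c hc τ F]
      refine Finset.sum_congr rfl (fun i _ => ?_)
      have e : ((c * (n * K + i) : ℕ) : ZMod n) = ((c * i : ℕ) : ZMod n) := by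
        push_cast
        rw [ZMod.natCast_self]
        ring
      rw [e, one_period n c hc τ F]
    rw [h1]
    push_cast
    ring

theorem sum_class {p a v q' : ℕ} (hp : p.Prime) (hv : v = M.factorization p) (hc : Nat.Coprime q' p)
    (h : q' * p ^ a ∣ M) (t : ZMod M) (F : ℂ) :
    ∑ i ∈ range (p ^ v), (if q' * p ^ a ∣ (t - ((M / p ^ v * i : ℕ) : ZMod M)).val then F else 0) =
      if q' ∣ t.val then (p ^ (v - a) : ℕ) * F else 0 := by
  have hM : M ≠ 0 := NeZero.ne M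
  have hpa : p ^ a ∣ M := (Dvd.intro_left q' rfl).trans h
  have hq' : q' ∣ M := (Dvd.intro (p ^ a) rfl).trans h
  have hav : a ≤ v := factorization_ge hp hM hv hpa
  have hcop : Nat.Coprime (M / p ^ v) p := coprime_div hp hM hv
  have hqc : q' ∣ M / p ^ v := dvd_div hv hc hq'
  have : NeZero (p ^ a) := ⟨pow_ne_zero _ hp.ne_zero⟩
  have key : ∀ i : ℕ, (q' * p ^ a ∣ (t - ((M / p ^ v * i : ℕ) : ZMod M)).val) ↔
      (q' ∣ t.val ∧ ZMod.castHom hpa (ZMod (p ^ a)) t = ((M / p ^ v * i : ℕ) : ZMod (p ^ a))) := by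
    intro i
    have h1 : (q' * p ^ a ∣ (t - ((M / p ^ v * i : ℕ) : ZMod M)).val) ↔
        (q' ∣ (t - ((M / p ^ v * i : ℕ) : ZMod M)).val ∧ p ^ a ∣ (t - ((M / p ^ v * i : ℕ) : ZMod M)).val) := by
      constructor
      · intro h
        exact ⟨(Dvd.intro _ rfl).trans h, (Dvd.intro_left _ rfl).trans h⟩
      · rintro ⟨h1, h2⟩
        exact (Nat.Coprime.pow_right a hc).mul_dvd_of_dvd_of_dvd h1 h2
    rw [h1, dvd_val_sub hq' t _ (hqc.trans (Dvd.intro _ rfl)), dvd_val_iff hpa, map_sub, map_natCast, sub_eq_zero]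
  by_cases hq : q' ∣ t.val
  · rw [if_pos hq]
    have h2 : p ^ v = p ^ a * p ^ (v - a) := by rw [← pow_add]; congr 1; omega
    rw [← many_periods (p ^ a) (M / p ^ v) (p ^ (v - a)) (Nat.Coprime.pow_right a hcop)
      (ZMod.castHom hpa (ZMod (p ^ a)) t) F, ← h2]
    refine Finset.sum_congr rfl (fun i _ => ?_)
    by_cases hi : ZMod.castHom hpa (ZMod (p ^ a)) t = ((M / p ^ v * i : ℕ) : ZMod (p ^ a))
    · rw [if_pos ((key i).2 ⟨hq, hi⟩), if_pos hi]
    · rw [if_neg (fun hh => hi ((key i).1 hh).2), if_neg hi]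
  · rw [if_neg hq]
    refine Finset.sum_eq_zero (fun i _ => ?_)
    rw [if_neg (fun hh => hq ((key i).1 hh).1)]

theorem cop_qU {Q a : ℕ} {U Ps : Finset ℕ} (h : WS M Q a Ps) (hU : U ⊆ Ps) (p : ℕ) (hp : p ∈ Ps) (hpU : p ∉ U) :
    Nat.Coprime (qU Q a U) p := by
  unfold qU
  have hpp := h.prime p hp
  refine Nat.Coprime.mul_left ?_ ?_
  · exact ((Nat.Prime.coprime_iff_not_dvd hpp).2 (h.cop p hp)).symm
  · refine Nat.Coprime.prod_left (fun p' hp' => ?_)
    refine Nat.Coprime.pow_left a ?_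
    have hne : p' ≠ p := fun e => hpU (e ▸ hp')
    exact (Nat.coprime_primes (h.prime p' (hU hp')) hpp).2 hne

theorem qU_erase {Q a : ℕ} {U : Finset ℕ} (p : ℕ) (hp : p ∈ U) : qU Q a U = qU Q a (U.erase p) * p ^ a := by
  unfold qU
  rw [mul_assoc, Finset.prod_erase_mul U (fun p => p ^ a) hp]


theorem mU_per_dvd {q r : ℕ} (hqM : q ∣ M) (hqr : q ∣ r) (L : ℕ) (s : ZMod M) (f : ZMod M → ℂ) (z y : ZMod M) :
    mU q L s f z (y + (r : ZMod M)) = mU q L s f z y := by
  rw [mU_eq, mU_eq]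
  congr 1
  refine Finset.sum_congr rfl (fun h _ => ?_)
  unfold G
  have e : z + s + (h : ZMod M) - (y + (r : ZMod M)) = (z + s + (h : ZMod M) - y) - (r : ZMod M) := by ring
  rw [e]
  by_cases hc : q ∣ (z + s + (h : ZMod M) - y).val
  · rw [if_pos ((dvd_val_sub hqM _ r hqr).2 hc), if_pos hc]
  · rw [if_neg (fun hh => hc ((dvd_val_sub hqM _ r hqr).1 hh)), if_neg hc]

theorem Ep_vS (Q a L : ℕ) (s : ZMod M) (f : ZMod M → ℂ) (S : Finset ℕ) (z y : ZMod M) (p : ℕ) :
    Ep p (vS Q a L s f S z) y = ∑ U ∈ S.powerset, (-1 : ℂ) ^ (S \ U).card * Ep p (mU (qU Q a U) L s f z) y := by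
  unfold Ep Eb tv vS
  rw [Finset.sum_comm, Finset.sum_div]
  refine Finset.sum_congr rfl (fun U _ => ?_)
  rw [← Finset.mul_sum, mul_div_assoc]

theorem moebius (m : Finset ℕ → ℂ) (U : Finset ℕ) :
    ∑ S ∈ U.powerset, ∑ V ∈ S.powerset, (-1 : ℂ) ^ (S \ V).card * m V = m U := by
  have h1 : ∑ S ∈ U.powerset, ∑ V ∈ S.powerset, (-1 : ℂ) ^ (S \ V).card * m V =
      ∑ V ∈ U.powerset, ∑ S ∈ U.powerset.filter (fun S => V ⊆ S), (-1 : ℂ) ^ (S \ V).card * m V := by
    refine Finset.sum_comm' (fun S V => ?_)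
    simp only [mem_filter, mem_powerset]
    constructor
    · rintro ⟨hS, hV⟩
      exact ⟨⟨hS, hV⟩, hV.trans hS⟩
    · rintro ⟨⟨hS, hV⟩, _⟩
      exact ⟨hS, hV⟩
  rw [h1]
  have h2 : ∀ V ∈ U.powerset, ∑ S ∈ U.powerset.filter (fun S => V ⊆ S), (-1 : ℂ) ^ (S \ V).card * m V =
      if U \ V = ∅ then m V else 0 := by
    intro V hV
    have hVU := mem_powerset.1 hV
    rw [← Finset.sum_mul]
    have h3 : ∑ S ∈ U.powerset.filter (fun S => V ⊆ S), (-1 : ℂ) ^ (S \ V).card =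
        ∑ T ∈ (U \ V).powerset, (-1 : ℂ) ^ T.card := by
      refine Finset.sum_bij' (fun S _ => S \ V) (fun T _ => V ∪ T) ?_ ?_ ?_ ?_ ?_
      · intro S hS
        rw [mem_filter, mem_powerset] at hS
        exact mem_powerset.2 (Finset.sdiff_subset_sdiff hS.1 (Finset.Subset.refl V))
      · intro T hT
        rw [mem_powerset] at hT
        rw [mem_filter, mem_powerset]
        exact ⟨Finset.union_subset hVU (hT.trans Finset.sdiff_subset), Finset.subset_union_left⟩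
      · intro S hS
        rw [mem_filter, mem_powerset] at hS
        exact Finset.union_sdiff_of_subset hS.2
      · intro T hT
        rw [mem_powerset] at hT
        have hd : Disjoint V T := by
          rw [Finset.disjoint_left]
          intro x hx hxT
          exact (Finset.mem_sdiff.1 (hT hxT)).2 hx
        show (V ∪ T) \ V = T
        rw [Finset.union_sdiff_cancel_left hd]
      · intro S _
        rfl
    have h4 : ∑ T ∈ (U \ V).powerset, (-1 : ℂ) ^ T.card = ((∑ T ∈ (U \ V).powerset, (-1 : ℤ) ^ T.card : ℤ) : ℂ) := by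
      push_cast
      rfl
    rw [h3, h4, Finset.sum_powerset_neg_one_pow_card]
    split_ifs <;> simp
  rw [Finset.sum_congr rfl h2]
  rw [Finset.sum_eq_single_of_mem U (Finset.mem_powerset_self U)]
  · simp
  · intro V hV hne
    rw [if_neg]
    intro he
    exact hne (Finset.Subset.antisymm (mem_powerset.1 hV) (Finset.sdiff_eq_empty_iff_subset.1 he))

end MuAAux

variable {M : ℕ} [NeZero M]

theorem qU_dvd {Q a : ℕ} {U V : Finset ℕ} (h : U ⊆ V) : qU Q a U ∣ qU Q a V := by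
  unfold qU
  exact Nat.mul_dvd_mul_left Q (Finset.prod_dvd_prod_of_subset U V _ h)

theorem qU_pos {Q a : ℕ} {U Ps : Finset ℕ} (h : WS M Q a Ps) (hU : U ⊆ Ps) : 1 ≤ qU Q a U := by
  unfold qU
  have h1 : 0 < ∏ p ∈ U, p ^ a := Finset.prod_pos (fun p hp => pow_pos (h.prime p (hU hp)).pos a)
  exact Nat.mul_pos h.pos h1

theorem qU_dvd_M {Q a : ℕ} {U Ps : Finset ℕ} (h : WS M Q a Ps) (hU : U ⊆ Ps) : qU Q a U ∣ M :=
  (qU_dvd hU).trans h.dvd

theorem norm_mU_le (q L : ℕ) (hq : 1 ≤ q) (hL : q ≤ L) (hqM : q ∣ M) (s : ZMod M) (f : ZMod M → ℂ) (hf : Bd f) (z y : ZMod M) :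
    ‖mU q L s f z y‖ ≤ 2 := by
  have hq0 : (0 : ℝ) < q := by exact_mod_cast hq
  have hLq : (q : ℝ) ≤ L := by exact_mod_cast hL
  have hL0 : (0 : ℝ) < L := lt_of_lt_of_le hq0 hLq
  have h1 := MuAAux.norm_sum_G q hq hqM f hf (z + s) y 0 L
  rw [zero_add, ← Finset.range_eq_Ico] at h1
  rw [MuAAux.mU_eq, norm_mul, norm_div, Complex.norm_natCast, Complex.norm_natCast]
  calc (q : ℝ) / L * ‖∑ h ∈ range L, MuAAux.G q f (z + s) y h‖ ≤ (q : ℝ) / L * ((L : ℝ) / q + 1) :=
        mul_le_mul_of_nonneg_left h1 (by positivity)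
    _ = 1 + (q : ℝ) / L := by field_simp
    _ ≤ 1 + 1 := by
        have := (div_le_one hL0).2 hLq
        linarith
    _ = 2 := by norm_num

/-- Slow variation in `z`. -/
theorem mU_shift (q L : ℕ) (hq : 1 ≤ q) (hL : 1 ≤ L) (hqM : q ∣ M) (s : ZMod M) (f : ZMod M → ℂ) (hf : Bd f) (z y : ZMod M) (u : ℕ) :
    ‖mU q L s f (z + (u : ZMod M)) y - mU q L s f z y‖ ≤ 2 * ((u : ℝ) + q) / L := by
  have hq0 : (0 : ℝ) < q := by exact_mod_cast hq
  have hL0 : (0 : ℝ) < L := by exact_mod_cast hL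
  have e : z + (u : ZMod M) + s = z + s + (u : ZMod M) := by ring
  rw [MuAAux.mU_eq, MuAAux.mU_eq, e, ← mul_sub, MuAAux.sum_Ico_G, norm_mul, norm_div, Complex.norm_natCast, Complex.norm_natCast]
  have h1 := MuAAux.norm_sum_G q hq hqM f hf (z + s) y L u
  have h2 := MuAAux.norm_sum_G q hq hqM f hf (z + s) y 0 u
  have h3 := norm_sub_le (∑ h ∈ Ico L (L + u), MuAAux.G q f (z + s) y h) (∑ h ∈ Ico 0 (0 + u), MuAAux.G q f (z + s) y h)
  calc (q : ℝ) / L * ‖∑ h ∈ Ico L (L + u), MuAAux.G q f (z + s) y h - ∑ h ∈ Ico 0 (0 + u), MuAAux.G q f (z + s) y h‖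
      ≤ (q : ℝ) / L * (((u : ℝ) / q + 1) + ((u : ℝ) / q + 1)) :=
        mul_le_mul_of_nonneg_left (by linarith) (by positivity)
    _ = 2 * ((u : ℝ) + q) / L := by field_simp; ring

theorem mU_lip (q L : ℕ) (hL : 1 ≤ L) (s : ZMod M) (f : ZMod M → ℂ) (hf : Bd f) (z y : ZMod M) :
    ‖mU q L s f (z + 1) y - mU q L s f z y‖ ≤ 2 * (q : ℝ) / L := by
  have hL0 : (0 : ℝ) < L := by exact_mod_cast hL
  have e : z + 1 + s = z + s + ((1 : ℕ) : ZMod M) := by push_cast; ring
  rw [MuAAux.mU_eq, MuAAux.mU_eq, e, ← mul_sub, MuAAux.sum_Ico_G, norm_mul, norm_div, Complex.norm_natCast, Complex.norm_natCast]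
  have h1 := MuAAux.norm_G_le q f hf (z + s) y L
  have h2 := MuAAux.norm_G_le q f hf (z + s) y 0
  have e1 : ∑ h ∈ Ico L (L + 1), MuAAux.G q f (z + s) y h = MuAAux.G q f (z + s) y L := by
    rw [Nat.Ico_succ_singleton, Finset.sum_singleton]
  have e2 : ∑ h ∈ Ico 0 (0 + 1), MuAAux.G q f (z + s) y h = MuAAux.G q f (z + s) y 0 := by
    rw [Nat.Ico_succ_singleton, Finset.sum_singleton]
  rw [e1, e2]
  have h3 := norm_sub_le (MuAAux.G q f (z + s) y L) (MuAAux.G q f (z + s) y 0)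
  calc (q : ℝ) / L * ‖MuAAux.G q f (z + s) y L - MuAAux.G q f (z + s) y 0‖ ≤ (q : ℝ) / L * (1 + 1) :=
        mul_le_mul_of_nonneg_left (by linarith) (by positivity)
    _ = 2 * (q : ℝ) / L := by ring

theorem mU_per (q L : ℕ) (hq : 1 ≤ q) (hqM : q ∣ M) (s : ZMod M) (f : ZMod M → ℂ) (z y : ZMod M) :
    mU q L s f z (y + (q : ZMod M)) = mU q L s f z y := by
  rw [MuAAux.mU_eq, MuAAux.mU_eq]
  congr 1
  refine Finset.sum_congr rfl (fun h _ => ?_)
  unfold MuAAux.G
  have e : z + s + (h : ZMod M) - (y + (q : ZMod M)) = (z + s + (h : ZMod M) - y) - (q : ZMod M) := by ring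
  rw [e]
  by_cases hc : q ∣ (z + s + (h : ZMod M) - y).val
  · rw [if_pos ((MuAAux.dvd_val_sub hqM _ q dvd_rfl).2 hc), if_pos hc]
  · rw [if_neg (fun hh => hc ((MuAAux.dvd_val_sub hqM _ q dvd_rfl).1 hh)), if_neg hc]

theorem mU_sub (q L : ℕ) (s : ZMod M) (f g : ZMod M → ℂ) (z y : ZMod M) :
    mU q L s (fun x => f x - g x) z y = mU q L s f z y - mU q L s g z y := by
  rw [MuAAux.mU_eq, MuAAux.mU_eq, MuAAux.mU_eq, ← mul_sub, ← Finset.sum_sub_distrib]
  congr 1
  refine Finset.sum_congr rfl (fun h _ => ?_)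
  unfold MuAAux.G
  split_ifs
  · rfl
  · simp

/-- The shift can be moved into the position of the window. -/
theorem mU_move (q L : ℕ) (s : ZMod M) (f : ZMod M → ℂ) (z y : ZMod M) : mU q L s f z y = mU q L 0 f (z + s) y := by
  rw [MuAAux.mU_eq, MuAAux.mU_eq, add_zero]

theorem mU_diag (q L : ℕ) (hq : 1 ≤ q) (hqM : q ∣ M) (f : ZMod M → ℂ) (x : ZMod M) :
    mU q L 0 f x x = (q : ℂ) / L * ∑ i ∈ range ((L + q - 1) / q), f (x + ((q * i : ℕ) : ZMod M)) := by
  rw [MuAAux.mU_eq]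
  congr 1
  have h1 : ∀ h ∈ range L, MuAAux.G q f (x + 0) x h = if q ∣ h then f (x + (h : ZMod M)) else 0 := by
    intro h _
    unfold MuAAux.G
    have e : x + 0 + (h : ZMod M) - x = (h : ZMod M) := by ring
    rw [e, add_zero]
    by_cases hc : q ∣ h
    · rw [if_pos ((MuAAux.dvd_val_nat hqM h).2 hc), if_pos hc]
    · rw [if_neg (fun hh => hc ((MuAAux.dvd_val_nat hqM h).1 hh)), if_neg hc]
  rw [Finset.sum_congr rfl h1, ← Finset.sum_filter]
  symm
  refine Finset.sum_bij (fun i _ => q * i) ?_ ?_ ?_ ?_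
  · intro i hi
    rw [mem_filter, mem_range]
    rw [mem_range] at hi
    refine ⟨?_, Dvd.intro _ rfl⟩
    have h2 : (i + 1) * q ≤ L + q - 1 := by
      have := (Nat.le_div_iff_mul_le (by omega : 0 < q)).1 (Nat.succ_le_of_lt hi)
      exact this
    have h3 : (i + 1) * q = q * i + q := by ring
    omega
  · intro i _ j _ hij
    exact Nat.eq_of_mul_eq_mul_left (by omega : 0 < q) hij
  · intro h hh
    rw [mem_filter, mem_range] at hh
    obtain ⟨i, rfl⟩ := hh.2
    refine ⟨i, ?_, rfl⟩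
    rw [mem_range]
    refine Nat.lt_of_succ_le ((Nat.le_div_iff_mul_le (by omega : 0 < q)).2 ?_)
    have h3 : (i + 1) * q = q * i + q := by ring
    have := hh.1
    rw [Nat.succ_eq_add_one, h3]
    omega
  · intro i _
    rfl

theorem mU_diag_dvd (q L : ℕ) (hq : 1 ≤ q) (hqM : q ∣ M) (hqL : q ∣ L) (hL : 1 ≤ L) (f : ZMod M → ℂ) (x : ZMod M) :
    mU q L 0 f x x = Eb q (L / q) f x := by
  rw [mU_diag q L hq hqM]
  obtain ⟨K, rfl⟩ := hqL
  have hq0 : 0 < q := hq
  have e1 : (q * K + q - 1) / q = K := by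
    rw [Nat.div_eq_iff hq0]
    constructor
    · have : K * q = q * K := mul_comm _ _
      omega
    · have : K * q = q * K := mul_comm _ _
      omega
  have e2 : q * K / q = K := Nat.mul_div_cancel_left K hq0
  rw [e1, e2]
  unfold Eb tv
  have hK : (K : ℂ) ≠ 0 := by
    have : K ≠ 0 := by
      rintro rfl
      omega
    exact_mod_cast this
  have hqc : (q : ℂ) ≠ 0 := by
    have : q ≠ 0 := by omega
    exact_mod_cast this
  push_cast
  field_simp

theorem mU_Ep_mem {Q a : ℕ} {U Ps : Finset ℕ} (h : WS M Q a Ps) (hU : U ⊆ Ps) (p : ℕ) (hp : p ∈ U) (L : ℕ) (s : ZMod M)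
    (f : ZMod M → ℂ) (z y : ZMod M) : Ep p (mU (qU Q a U) L s f z) y = mU (qU Q a (U.erase p)) L s f z y := by
  have hpp : p.Prime := h.prime p (hU hp)
  have hM : M ≠ 0 := NeZero.ne M
  have hE : U.erase p ⊆ Ps := (Finset.erase_subset p U).trans hU
  have hc : Nat.Coprime (qU Q a (U.erase p)) p := MuAAux.cop_qU h hE p (hU hp) (Finset.notMem_erase p U)
  have hq : qU Q a U = qU Q a (U.erase p) * p ^ a := MuAAux.qU_erase p hp
  have hd : qU Q a (U.erase p) * p ^ a ∣ M := hq ▸ qU_dvd_M h hU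
  have hav : a ≤ M.factorization p := MuAAux.factorization_ge hpp hM rfl ((Dvd.intro_left _ rfl).trans hd)
  unfold Ep Eb tv
  rw [hq]
  generalize hqq : qU Q a (U.erase p) = q' at *
  have h1 : ∑ i ∈ range (p ^ M.factorization p),
      mU (q' * p ^ a) L s f z (y + ((M / p ^ M.factorization p * i : ℕ) : ZMod M)) =
      ((q' * p ^ a : ℕ) : ℂ) / L * ∑ h ∈ range L,
        (if q' ∣ (z + s + (h : ZMod M) - y).val then ((p ^ (M.factorization p - a) : ℕ) : ℂ) * f (z + s + (h : ZMod M)) else 0) := by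
    simp only [MuAAux.mU_eq]
    rw [← Finset.mul_sum, Finset.sum_comm]
    congr 1
    refine Finset.sum_congr rfl (fun h _ => ?_)
    rw [← MuAAux.sum_class hpp rfl hc hd (z + s + (h : ZMod M) - y) (f (z + s + (h : ZMod M)))]
    refine Finset.sum_congr rfl (fun i _ => ?_)
    unfold MuAAux.G
    have e : z + s + (h : ZMod M) - (y + ((M / p ^ M.factorization p * i : ℕ) : ZMod M)) =
      (z + s + (h : ZMod M) - y) - ((M / p ^ M.factorization p * i : ℕ) : ZMod M) := by ring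
    rw [e]
  rw [h1, MuAAux.mU_eq]
  have hp0 : (p : ℂ) ≠ 0 := by exact_mod_cast hpp.ne_zero
  have h2 : ∑ h ∈ range L,
        (if q' ∣ (z + s + (h : ZMod M) - y).val then ((p ^ (M.factorization p - a) : ℕ) : ℂ) * f (z + s + (h : ZMod M)) else 0) =
      ((p ^ (M.factorization p - a) : ℕ) : ℂ) * ∑ h ∈ range L, MuAAux.G q' f (z + s) y h := by
    rw [Finset.mul_sum]
    refine Finset.sum_congr rfl (fun h _ => ?_)
    unfold MuAAux.G
    split_ifs
    · rfl
    · simp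
  rw [h2]
  have h3 : ((p ^ M.factorization p : ℕ) : ℂ) = (p : ℂ) ^ a * (p : ℂ) ^ (M.factorization p - a) := by
    rw [← pow_add]
    push_cast
    congr 1
    omega
  rw [h3]
  push_cast
  field_simp

theorem mU_Ep_not {Q a : ℕ} {U Ps : Finset ℕ} (h : WS M Q a Ps) (hU : U ⊆ Ps) (p : ℕ) (hp : p ∈ Ps) (hpU : p ∉ U) (L : ℕ) (s : ZMod M)
    (f : ZMod M → ℂ) (z y : ZMod M) : Ep p (mU (qU Q a U) L s f z) y = mU (qU Q a U) L s f z y := by
  have hpp : p.Prime := h.prime p hp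
  have hc : Nat.Coprime (qU Q a U) p := MuAAux.cop_qU h hU p hp hpU
  have hqM := qU_dvd_M h hU
  have hd : qU Q a U ∣ M / p ^ M.factorization p := MuAAux.dvd_div rfl hc hqM
  unfold Ep Eb tv
  have h1 : ∀ i ∈ range (p ^ M.factorization p),
      mU (qU Q a U) L s f z (y + ((M / p ^ M.factorization p * i : ℕ) : ZMod M)) = mU (qU Q a U) L s f z y := by
    intro i _
    rw [MuAAux.mU_eq, MuAAux.mU_eq]
    congr 1
    refine Finset.sum_congr rfl (fun h _ => ?_)
    unfold MuAAux.G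
    have e : z + s + (h : ZMod M) - (y + ((M / p ^ M.factorization p * i : ℕ) : ZMod M)) =
      (z + s + (h : ZMod M) - y) - ((M / p ^ M.factorization p * i : ℕ) : ZMod M) := by ring
    rw [e]
    have hdi : qU Q a U ∣ M / p ^ M.factorization p * i := hd.trans (Dvd.intro _ rfl)
    by_cases hc : qU Q a U ∣ (z + s + (h : ZMod M) - y).val
    · rw [if_pos ((MuAAux.dvd_val_sub hqM _ _ hdi).2 hc), if_pos hc]
    · rw [if_neg (fun hh => hc ((MuAAux.dvd_val_sub hqM _ _ hdi).1 hh)), if_neg hc]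
  rw [Finset.sum_congr rfl h1, Finset.sum_const, card_range, nsmul_eq_mul]
  have hp0 : ((p ^ M.factorization p : ℕ) : ℂ) ≠ 0 := by
    have : p ^ M.factorization p ≠ 0 := pow_ne_zero _ hpp.ne_zero
    exact_mod_cast this
  field_simp

theorem norm_vS_le {Q a : ℕ} {S Ps : Finset ℕ} (h : WS M Q a Ps) (hS : S ⊆ Ps) (L : ℕ) (hL : qU Q a S ≤ L) (s : ZMod M)
    (f : ZMod M → ℂ) (hf : Bd f) (z y : ZMod M) : ‖vS Q a L s f S z y‖ ≤ 2 ^ (S.card + 1) := by
  unfold vS
  have h1 : ‖∑ U ∈ S.powerset, (-1 : ℂ) ^ (S \ U).card * mU (qU Q a U) L s f z y‖ ≤ ∑ U ∈ S.powerset, (2 : ℝ) := by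
    refine norm_sum_le_of_le _ (fun U hU => ?_)
    have hUS : U ⊆ S := Finset.mem_powerset.1 hU
    rw [norm_mul, norm_pow, norm_neg, norm_one, one_pow, one_mul]
    refine norm_mU_le _ L (qU_pos h (hUS.trans hS)) ?_ (qU_dvd_M h (hUS.trans hS)) s f hf z y
    exact (Nat.le_of_dvd (qU_pos h hS) (qU_dvd hUS)).trans hL
  refine h1.trans (le_of_eq ?_)
  rw [Finset.sum_const, Finset.card_powerset, nsmul_eq_mul]
  push_cast
  ring

theorem vS_shift {Q a : ℕ} {S Ps : Finset ℕ} (h : WS M Q a Ps) (hS : S ⊆ Ps) (L : ℕ) (hL : 1 ≤ L) (s : ZMod M)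
    (f : ZMod M → ℂ) (hf : Bd f) (z y : ZMod M) (u : ℕ) :
    ‖vS Q a L s f S (z + (u : ZMod M)) y - vS Q a L s f S z y‖ ≤ 2 ^ (S.card + 1) * ((u : ℝ) + qU Q a S) / L := by
  have hL0 : (0 : ℝ) < L := by exact_mod_cast hL
  unfold vS
  rw [← Finset.sum_sub_distrib]
  have h1 : ‖∑ U ∈ S.powerset, ((-1 : ℂ) ^ (S \ U).card * mU (qU Q a U) L s f (z + (u : ZMod M)) y -
      (-1 : ℂ) ^ (S \ U).card * mU (qU Q a U) L s f z y)‖ ≤ ∑ U ∈ S.powerset, (2 * ((u : ℝ) + qU Q a S) / L) := by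
    refine norm_sum_le_of_le _ (fun U hU => ?_)
    have hUS : U ⊆ S := Finset.mem_powerset.1 hU
    rw [← mul_sub, norm_mul, norm_pow, norm_neg, norm_one, one_pow, one_mul]
    refine (mU_shift _ L (qU_pos h (hUS.trans hS)) hL (qU_dvd_M h (hUS.trans hS)) s f hf z y u).trans ?_
    have h2 : ((qU Q a U : ℕ) : ℝ) ≤ qU Q a S := by exact_mod_cast Nat.le_of_dvd (qU_pos h hS) (qU_dvd hUS)
    gcongr
  refine h1.trans (le_of_eq ?_)
  rw [Finset.sum_const, Finset.card_powerset, nsmul_eq_mul]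
  push_cast
  ring

theorem vS_per {Q a : ℕ} {S Ps : Finset ℕ} (h : WS M Q a Ps) (hS : S ⊆ Ps) (L : ℕ) (s : ZMod M) (f : ZMod M → ℂ) (z y : ZMod M) :
    vS Q a L s f S z (y + (qU Q a S : ZMod M)) = vS Q a L s f S z y := by
  unfold vS
  refine Finset.sum_congr rfl (fun U hU => ?_)
  have hUS : U ⊆ S := Finset.mem_powerset.1 hU
  congr 1
  exact MuAAux.mU_per_dvd (qU_dvd_M h (hUS.trans hS)) (qU_dvd hUS) L s f z y

theorem vS_move (Q a L : ℕ) (s : ZMod M) (f : ZMod M → ℂ) (S : Finset ℕ) (z y : ZMod M) :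
    vS Q a L s f S z y = vS Q a L 0 f S (z + s) y := by
  unfold vS
  refine Finset.sum_congr rfl (fun U _ => ?_)
  rw [mU_move]

theorem vS_Ep_mem {Q a : ℕ} {S Ps : Finset ℕ} (h : WS M Q a Ps) (hS : S ⊆ Ps) (p : ℕ) (hp : p ∈ S) (L : ℕ) (s : ZMod M)
    (f : ZMod M → ℂ) (z y : ZMod M) : Ep p (vS Q a L s f S z) y = 0 := by
  have h0 := MuAAux.Ep_vS (M := M) Q a L s f S z y p
  rw [h0]
  have hins : insert p (S.erase p) = S := Finset.insert_erase hp
  have hnot : p ∉ S.erase p := Finset.notMem_erase p S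
  rw [← hins, Finset.sum_powerset_insert hnot, ← Finset.sum_add_distrib]
  refine Finset.sum_eq_zero (fun U hU => ?_)
  have hUS : U ⊆ S.erase p := Finset.mem_powerset.1 hU
  have hUS' : U ⊆ S := hUS.trans (Finset.erase_subset p S)
  have hpU : p ∉ U := fun hh => hnot (hUS hh)
  have hIS : insert p U ⊆ S := by
    intro x hx
    rcases Finset.mem_insert.1 hx with rfl | hx
    · exact hp
    · exact hUS' hx
  rw [mU_Ep_not h (hUS'.trans hS) p (hS hp) hpU, mU_Ep_mem h (hIS.trans hS) p (Finset.mem_insert_self p U),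
    Finset.erase_insert hpU]
  have e1 : (insert p (S.erase p) \ U).card = (insert p (S.erase p) \ insert p U).card + 1 := by
    rw [hins]
    have h1 := Finset.card_sdiff_add_card_eq_card hUS'
    have h2 := Finset.card_sdiff_add_card_eq_card hIS
    rw [Finset.card_insert_of_notMem hpU] at h2
    omega
  rw [e1, pow_succ]
  ring

theorem vS_Ep_not {Q a : ℕ} {S Ps : Finset ℕ} (h : WS M Q a Ps) (hS : S ⊆ Ps) (p : ℕ) (hp : p ∈ Ps) (hpS : p ∉ S) (L : ℕ) (s : ZMod M)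
    (f : ZMod M → ℂ) (z y : ZMod M) : Ep p (vS Q a L s f S z) y = vS Q a L s f S z y := by
  have h0 := MuAAux.Ep_vS (M := M) Q a L s f S z y p
  rw [h0]
  unfold vS
  refine Finset.sum_congr rfl (fun U hU => ?_)
  have hUS : U ⊆ S := Finset.mem_powerset.1 hU
  rw [mU_Ep_not h (hUS.trans hS) p hp (fun hh => hpS (hUS hh))]

/-- The components of a set of primes add up to the class sum. -/
theorem sum_vS (Q a L : ℕ) (s : ZMod M) (f : ZMod M → ℂ) (U : Finset ℕ) (z y : ZMod M) :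
    ∑ S ∈ U.powerset, vS Q a L s f S z y = mU (qU Q a U) L s f z y := by
  unfold vS
  exact MuAAux.moebius (fun V => mU (qU Q a V) L s f z y) U

theorem vK_move (Q a k L : ℕ) (Ps : Finset ℕ) (s : ZMod M) (f : ZMod M → ℂ) (z y : ZMod M) :
    vK Q a k L Ps s f z y = vK Q a k L Ps 0 f (z + s) y := by
  unfold vK
  refine Finset.sum_congr rfl (fun i _ => Finset.sum_congr rfl (fun S _ => ?_))
  rw [vS_move]

/-- The number of components. -/
theorem card_comp (k : ℕ) (Ps : Finset ℕ) : ∑ i ∈ range (k + 1), (Ps.powersetCard i).card ≤ (Ps.card + 2) ^ (k + 1) := by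
  induction k with
  | zero => simp
  | succ k ih =>
    rw [Finset.sum_range_succ]
    have h1 : (Ps.powersetCard (k + 1)).card ≤ (Ps.card + 2) ^ (k + 1) := by
      rw [Finset.card_powersetCard]
      exact (Nat.choose_le_pow _ _).trans (Nat.pow_le_pow_left (by omega) _)
    have h2 : (Ps.card + 2) ^ (k + 1 + 1) = (Ps.card + 2) ^ (k + 1) * (Ps.card + 2) := pow_succ _ _
    have h3 : (Ps.card + 2) ^ (k + 1) * 2 ≤ (Ps.card + 2) ^ (k + 1) * (Ps.card + 2) := Nat.mul_le_mul_left _ (by omega)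
    rw [h2]
    omega

end Pool.Agent.EQD
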