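import Pool.Agent.Lib.EQD.HypI
import Pool.Agent.Lib.EQD.MuA

/-!
# Globalness of the projections on the fibre

`gl0`: a sum `w` of components `v_T`, `T ⊆ W`, of a bounded function satisfies `E_W |w| ^ 2 ≤ 2`.
`glob`: a sum of components `v_(S ∪ T)`, `T ⊆ W`, satisfies `E_W |.| ^ 2 ≤ 2 * 4 ^ |S|`.
-/

set_option autoImplicit false

open Finset Polynomial

namespace Pool.Agent.EQD

open Pool.Agent.HLT Pool.Agent.NLT Pool.Agent.NLG

variable {M : ℕ} [NeZero M]

theorem per_mul {φ : ZMod M → ℂ} {q : ℕ} (h : ∀ y, φ (y + (q : ZMod M)) = φ y) (y : ZMod M) (j : ℕ) :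
    φ (y + ((q * j : ℕ) : ZMod M)) = φ y := by
  induction j with
  | zero => simp
  | succ j ih => rw [Nat.mul_succ, Nat.cast_add, ← add_assoc, h, ih]

theorem per_of_dvd {φ : ZMod M → ℂ} {q : ℕ} (h : ∀ y, φ (y + (q : ZMod M)) = φ y) (u y : ZMod M) (hd : q ∣ (u - y).val) :
    φ u = φ y := by
  obtain ⟨j, hj⟩ := hd
  have e : u = y + ((q * j : ℕ) : ZMod M) := by
    rw [← hj, ZMod.natCast_zmod_val]; ring
  rw [e, per_mul h]

/-- A periodic factor can be pulled out of a class sum. -/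
theorem mU_mul_per (q L : ℕ) (s : ZMod M) (F φ : ZMod M → ℂ) (h : ∀ y, φ (y + (q : ZMod M)) = φ y) (z y : ZMod M) :
    mU q L s (fun x => F x * φ x) z y = mU q L s F z y * φ y := by
  unfold mU
  rw [mul_assoc, sum_mul]
  congr 1
  apply sum_congr rfl
  intro i _
  split_ifs with hd
  · show F (z + s + (i : ZMod M)) * φ (z + s + (i : ZMod M)) = F (z + s + (i : ZMod M)) * φ y
    rw [per_of_dvd h _ _ hd]
  · simp

theorem mU_fsum (q L : ℕ) (s : ZMod M) {ι : Type} (A : Finset ι) (F : ι → ZMod M → ℂ) (z y : ZMod M) :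
    mU q L s (fun x => ∑ i ∈ A, F i x) z y = ∑ i ∈ A, mU q L s (F i) z y := by
  unfold mU
  rw [← mul_sum]
  congr 1
  rw [sum_comm]
  apply sum_congr rfl
  intro j _
  split_ifs
  · rfl
  · simp

theorem card_class (q : ℕ) (hq : 1 ≤ q) (n L : ℕ) :
    L < q * ((range L).filter (fun h => q ∣ n + h)).card + q ∧
      q * ((range L).filter (fun h => q ∣ n + h)).card < L + q := by
  constructor
  · have e : (range L).filter (fun h => q ∣ n + h) = (range L).filter (fun h => h ≡ (q - n % q) [MOD q]) := by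
      apply filter_congr
      intro h _
      have hlt : n % q < q := Nat.mod_lt _ hq
      have key : n + (q - n % q) ≡ 0 [MOD q] := by
        have : n + (q - n % q) = q * (n / q) + q := by
          have := Nat.div_add_mod n q; omega
        rw [this]
        simp [Nat.ModEq]
      constructor
      · intro hd
        have h1 : n + h ≡ 0 [MOD q] := (Nat.modEq_zero_iff_dvd).2 hd
        exact Nat.ModEq.add_left_cancel' n (h1.trans key.symm)
      · intro hd
        have h1 : n + h ≡ n + (q - n % q) [MOD q] := Nat.ModEq.add_left n hd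
        exact (Nat.modEq_zero_iff_dvd).1 (h1.trans key)
    have hc := Nat.count_modEq_card (b := L) (r := q) hq (q - n % q)
    rw [Nat.count_eq_card_filter_range] at hc
    rw [e, hc]
    have := Nat.div_add_mod L q
    have hlt := Nat.mod_lt L hq
    rw [Nat.mul_add]
    omega
  · have h := MuAAux.cnt q hq n L 0
    rw [Nat.zero_add, ← Finset.range_eq_Ico] at h
    exact h

theorem mU_one (q L : ℕ) (hq : 1 ≤ q) (hL : 1 ≤ L) (hqM : q ∣ M) (s z y : ZMod M) :
    ‖mU q L s (fun _ => (1 : ℂ)) z y - 1‖ ≤ (q : ℝ) / L := by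
  have hL0 : (0 : ℝ) < L := by exact_mod_cast hL
  have e : mU q L s (fun _ => (1 : ℂ)) z y =
      (((q : ℝ) * (((range L).filter (fun h => q ∣ (z + s - y).val + h)).card : ℝ) / L : ℝ) : ℂ) := by
    unfold mU
    have : ∀ h ∈ range L, (if q ∣ (z + s + (h : ZMod M) - y).val then (1 : ℂ) else 0) =
        if q ∣ (z + s - y).val + h then (1 : ℂ) else 0 := by
      intro h _
      have e1 : z + s + (h : ZMod M) - y = (z + s - y) + (h : ZMod M) := by ring
      rw [e1]
      simp only [MuAAux.dvd_val_add_nat hqM]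
    rw [sum_congr rfl this, ← sum_filter, sum_const, nsmul_eq_mul, mul_one]
    push_cast
    ring
  obtain ⟨h1, h2⟩ := card_class q hq (z + s - y).val L
  set c := ((range L).filter (fun h => q ∣ (z + s - y).val + h)).card
  rw [e, ← Complex.ofReal_one, ← Complex.ofReal_sub, Complex.norm_real, Real.norm_eq_abs, abs_le]
  have h1' : (L : ℝ) < q * c + q := by exact_mod_cast h1
  have h2' : (q : ℝ) * c < L + q := by exact_mod_cast h2
  constructor
  · rw [← neg_div, le_sub_iff_add_le, ← div_self hL0.ne', ← add_div]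
    exact div_le_div_of_nonneg_right (by linarith) hL0.le
  · rw [sub_le_iff_le_add]
    have : (q : ℝ) / L + 1 = (q + L) / L := by rw [add_div, div_self hL0.ne']
    rw [this]
    exact div_le_div_of_nonneg_right (by linarith) hL0.le

/-- Averages of class sums over subgroups. -/
theorem AV_mU {Q a : ℕ} {Ps : Finset ℕ} (h : WS M Q a Ps) (T : Finset ℕ) (hT : T ⊆ Ps) (L : ℕ) (s : ZMod M) (F : ZMod M → ℂ)
    (z : ZMod M) (W : Finset ℕ) (hW : W ⊆ Ps) (y : ZMod M) :
    AV W (mU (qU Q a T) L s F z) y = mU (qU Q a (T \ W)) L s F z y := by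
  classical
  induction W using Finset.induction_on generalizing y with
  | empty => rw [AV_empty, sdiff_empty]
  | insert p W hp ih =>
    have hW' : W ⊆ Ps := (subset_insert _ _).trans hW
    have hpP : p ∈ Ps := hW (mem_insert_self _ _)
    rw [AV_insert' W p hp (fun q hq => h.prime q (hW hq)), AV_congr {p} y (fun y => ih hW' y), ← Ep_eq_AV]
    have hsub : T \ W ⊆ Ps := sdiff_subset.trans hT
    have e : T \ insert p W = (T \ W).erase p := by
      rw [Finset.sdiff_insert]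
    rw [e]
    by_cases hpT : p ∈ T \ W
    · exact mU_Ep_mem h hsub p hpT L s F z y
    · rw [erase_eq_of_notMem hpT]
      exact mU_Ep_not h hsub p hpP hpT L s F z y

theorem qU_empty (Q a : ℕ) : qU Q a ∅ = Q := by simp [qU]

/-- Sums of a periodic function over a class of a window are averages over a subgroup. -/
theorem cls_avg {Q a : ℕ} {W : Finset ℕ} (h : WS M Q a W) (T : Finset ℕ) (hT : T ⊆ W) (L : ℕ) (hL : 1 ≤ L) (s : ZMod M)
    (Φ : ZMod M → ℂ) (hper : ∀ y, Φ (y + (qU Q a T : ZMod M)) = Φ y) (b : ℝ) (hb : ∀ y, ‖Φ y‖ ≤ b) (z y : ZMod M) :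
    ‖mU Q L s Φ z y - AV W Φ y‖ ≤ b * ((qU Q a T : ℝ) / L) := by
  have hb0 : 0 ≤ b := (norm_nonneg _).trans (hb 0)
  have e1 : mU Q L s Φ z y = AV W (mU (qU Q a T) L s Φ z) y := by
    rw [AV_mU h T hT L s Φ z W (Subset.refl _) y, sdiff_eq_empty_iff_subset.mpr hT, qU_empty]
  have e2 : ∀ y, mU (qU Q a T) L s Φ z y = mU (qU Q a T) L s (fun _ => (1 : ℂ)) z y * Φ y := by
    intro y
    rw [← mU_mul_per _ L s (fun _ => (1 : ℂ)) Φ hper z y]
    simp
  rw [e1, ← AV_sub]
  have e3 : ∀ y, mU (qU Q a T) L s Φ z y - Φ y = (mU (qU Q a T) L s (fun _ => (1 : ℂ)) z y - 1) * Φ y := by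
    intro y; rw [e2]; ring
  rw [AV_congr W y e3]
  refine (AV_norm_le W _ y).trans ?_
  have hq : 1 ≤ qU Q a T := qU_pos h hT
  have hqM : qU Q a T ∣ M := qU_dvd_M h hT
  refine (AV_mono W _ (fun _ => b * ((qU Q a T : ℝ) / L)) (fun y => ?_) y).trans (le_of_eq ?_)
  · rw [norm_mul, mul_comm]
    exact mul_le_mul (hb y) (mU_one _ L hq hL hqM s z y) (norm_nonneg _) hb0
  · exact AV_const W (fun p hp => h.prime p hp) _ y

/-- The components form an adapted family. -/
theorem adp_vS {Q a : ℕ} {W : Finset ℕ} (h : WS M Q a W) (L : ℕ) (s : ZMod M) (f : ZMod M → ℂ) (z : ZMod M) :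
    Adp W (fun T => vS Q a L s f T z) := by
  refine ⟨fun T hT p hp y => ?_, fun T hT p hp hpT y => ?_⟩
  · rw [← Ep_eq_AV]; exact vS_Ep_mem h hT p hp L s f z y
  · rw [← Ep_eq_AV]; exact vS_Ep_not h hT p hp hpT L s f z y

/-- Duality. -/
theorem dual_vS {Q a : ℕ} {W : Finset ℕ} (h : WS M Q a W) (T : Finset ℕ) (hT : T ⊆ W) (L : ℕ) (s : ZMod M) (f : ZMod M → ℂ)
    (z y : ZMod M) :
    ((AV W (fun y => ‖vS Q a L s f T z y‖ ^ 2) y : ℝ) : ℂ) =
      mU Q L s (fun x => f x * (starRingEnd ℂ) (vS Q a L s f T z x)) z y := by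
  classical
  have hadp := adp_vS h L s f z
  have hpr : ∀ p ∈ W, p.Prime := fun p hp => h.prime p hp
  have m := AV_map (M := M) (Complex.ofRealCLM.toLinearMap) W (fun y => ‖vS Q a L s f T z y‖ ^ 2) y
  simp only [ContinuousLinearMap.coe_coe, Complex.ofRealCLM_apply] at m
  rw [m]
  have e0 : ∀ y, (((‖vS Q a L s f T z y‖ ^ 2 : ℝ)) : ℂ) = vS Q a L s f T z y * (starRingEnd ℂ) (vS Q a L s f T z y) := by
    intro y; rw [Complex.mul_conj, Complex.normSq_eq_norm_sq]
  rw [AV_congr W y e0]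
  -- replace the first factor by the class sum
  have e1 : AV W (fun y => mU (qU Q a T) L s f z y * (starRingEnd ℂ) (vS Q a L s f T z y)) y =
      AV W (fun y => vS Q a L s f T z y * (starRingEnd ℂ) (vS Q a L s f T z y)) y := by
    have : ∀ y, mU (qU Q a T) L s f z y * (starRingEnd ℂ) (vS Q a L s f T z y) =
        ∑ S ∈ T.powerset, vS Q a L s f S z y * (starRingEnd ℂ) (vS Q a L s f T z y) := by
      intro y; rw [← sum_mul, sum_vS]
    rw [AV_congr W y this, AV_sum, Finset.sum_eq_single T]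
    · intro S hS hne
      exact adp_orth W hpr (fun T => vS Q a L s f T z) hadp S T ((mem_powerset.mp hS).trans hT) hT hne y
    · intro hn; exact absurd (mem_powerset_self T) hn
  rw [← e1]
  have e2 : ∀ y, mU (qU Q a T) L s f z y * (starRingEnd ℂ) (vS Q a L s f T z y) =
      mU (qU Q a T) L s (fun x => f x * (starRingEnd ℂ) (vS Q a L s f T z x)) z y := by
    intro y
    rw [mU_mul_per (qU Q a T) L s f (fun x => (starRingEnd ℂ) (vS Q a L s f T z x))
      (fun y => by simp only [vS_per h hT L s f z y])]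
  rw [AV_congr W y e2, AV_mU h T hT L s _ z W (Subset.refl _) y, sdiff_eq_empty_iff_subset.mpr hT, qU_empty]

/-- Sums of components of a bounded function. -/
theorem gl0 {Q a : ℕ} {W : Finset ℕ} (h : WS M Q a W) (L : ℕ) (s : ZMod M) (f : ZMod M → ℂ) (hf : Bd f) (z : ZMod M)
    (k X N : ℕ) (F : Finset (Finset ℕ)) (hF : ∀ T ∈ F, T ⊆ W) (hk : ∀ T ∈ F, T.card ≤ k) (hN : F.card ≤ N) (hN1 : 1 ≤ N)
    (hX : ∀ T ∈ F, ∀ T' ∈ F, qU Q a (T ∪ T') ≤ X) (hX1 : Q ≤ X) (hL : 2 * (N * 2 ^ (k + 1)) ^ 2 * X ≤ L) (y : ZMod M) :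
    AV W (fun y => ‖∑ T ∈ F, vS Q a L s f T z y‖ ^ 2) y ≤ 2 := by
  classical
  have hpr : ∀ p ∈ W, p.Prime := fun p hp => h.prime p hp
  have hadp := adp_vS h L s f z
  have hQ1 : 1 ≤ Q := h.pos
  have hX0 : 1 ≤ X := hQ1.trans hX1
  have hc1 : 1 ≤ (N * 2 ^ (k + 1)) ^ 2 := Nat.one_le_pow _ _ (Nat.mul_pos hN1 (by positivity))
  have hXL : 2 * X ≤ L := by
    calc 2 * X = 2 * 1 * X := by ring
      _ ≤ 2 * (N * 2 ^ (k + 1)) ^ 2 * X := by gcongr
      _ ≤ L := hL
  have hL1 : 1 ≤ L := by omega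
  have hLR : (0 : ℝ) < L := by exact_mod_cast hL1
  set w : ZMod M → ℂ := fun y => ∑ T ∈ F, vS Q a L s f T z y with hw
  set Y : ℝ := AV W (fun y => ‖w y‖ ^ 2) y with hY
  -- bound of the components
  have hv : ∀ T ∈ F, ∀ y, ‖vS Q a L s f T z y‖ ≤ 2 ^ (k + 1) := by
    intro T hT y
    have hTX : qU Q a T ≤ L := by
      have := hX T hT T hT
      rw [union_self] at this
      omega
    refine (norm_vS_le h (hF T hT) L hTX s f hf z y).trans ?_
    exact pow_le_pow_right₀ (by norm_num) (Nat.succ_le_succ (hk T hT))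
  -- duality
  have hdual : (Y : ℂ) = mU Q L s (fun x => f x * (starRingEnd ℂ) (w x)) z y := by
    rw [hY, hw]
    rw [adp_pyth W hpr (fun T => vS Q a L s f T z) hadp F hF y]
    push_cast
    have : ∀ x, f x * (starRingEnd ℂ) (∑ T ∈ F, vS Q a L s f T z x) =
        ∑ T ∈ F, f x * (starRingEnd ℂ) (vS Q a L s f T z x) := by
      intro x; rw [map_sum, mul_sum]
    simp only [this]
    rw [mU_fsum]
    apply sum_congr rfl
    intro T hT
    rw [← dual_vS h T (hF T hT) L s f z y]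
  -- the class average of |w|^2
  have hcls : ‖mU Q L s (fun x => ((‖w x‖ ^ 2 : ℝ) : ℂ)) z y - (Y : ℂ)‖ ≤ 1 / 2 := by
    have e1 : ∀ x, ((‖w x‖ ^ 2 : ℝ) : ℂ) =
        ∑ T ∈ F, ∑ T' ∈ F, vS Q a L s f T z x * (starRingEnd ℂ) (vS Q a L s f T' z x) := by
      intro x
      rw [← Complex.normSq_eq_norm_sq, ← Complex.mul_conj, hw]
      simp only
      rw [map_sum, sum_mul_sum]
    have eY : (Y : ℂ) = AV W (fun x => ((‖w x‖ ^ 2 : ℝ) : ℂ)) y := by
      have m := AV_map (M := M) (Complex.ofRealCLM.toLinearMap) W (fun y => ‖w y‖ ^ 2) y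
      simpa using m
    rw [eY]
    simp only [e1]
    rw [mU_fsum, AV_sum, ← sum_sub_distrib]
    have hterm : ∀ T ∈ F, ∀ T' ∈ F,
        ‖mU Q L s (fun x => vS Q a L s f T z x * (starRingEnd ℂ) (vS Q a L s f T' z x)) z y -
          AV W (fun x => vS Q a L s f T z x * (starRingEnd ℂ) (vS Q a L s f T' z x)) y‖ ≤
            (2 ^ (k + 1)) ^ 2 * ((X : ℝ) / L) := by
      intro T hT T' hT'
      have hsub : T ∪ T' ⊆ W := union_subset (hF T hT) (hF T' hT')
      have perA : ∀ (R : Finset ℕ), R ∈ F → R ⊆ T ∪ T' → ∀ x, vS Q a L s f R z (x + (qU Q a (T ∪ T') : ZMod M)) =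
          vS Q a L s f R z x := by
        intro R hR hRT x
        obtain ⟨j, hj⟩ := qU_dvd (Q := Q) (a := a) hRT
        rw [hj]
        exact per_mul (φ := vS Q a L s f R z) (vS_per h (hF R hR) L s f z) x j
      refine (cls_avg h (T ∪ T') hsub L hL1 s _ (fun x => ?_) ((2 ^ (k + 1)) ^ 2) (fun x => ?_) z y).trans ?_
      · rw [perA T hT subset_union_left, perA T' hT' subset_union_right]
      · rw [norm_mul, RCLike.norm_conj, sq]
        exact mul_le_mul (hv T hT x) (hv T' hT' x) (norm_nonneg _) (by positivity)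
      · apply mul_le_mul_of_nonneg_left _ (by positivity)
        apply div_le_div_of_nonneg_right _ hLR.le
        exact_mod_cast hX T hT T' hT'
    calc ‖∑ T ∈ F, (mU Q L s (fun x => ∑ T' ∈ F, vS Q a L s f T z x * (starRingEnd ℂ) (vS Q a L s f T' z x)) z y -
          AV W (fun x => ∑ T' ∈ F, vS Q a L s f T z x * (starRingEnd ℂ) (vS Q a L s f T' z x)) y)‖
        ≤ ∑ T ∈ F, ∑ T' ∈ F, (2 ^ (k + 1)) ^ 2 * ((X : ℝ) / L) := by
          refine norm_sum_le_of_le _ fun T hT => ?_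
          rw [mU_fsum, AV_sum, ← sum_sub_distrib]
          exact norm_sum_le_of_le _ fun T' hT' => hterm T hT T' hT'
      _ = (F.card : ℝ) * ((F.card : ℝ) * ((2 ^ (k + 1)) ^ 2 * ((X : ℝ) / L))) := by
          simp only [sum_const, nsmul_eq_mul]
      _ ≤ (N : ℝ) * ((N : ℝ) * ((2 ^ (k + 1)) ^ 2 * ((X : ℝ) / L))) := by
          have hNR : (F.card : ℝ) ≤ N := by exact_mod_cast hN
          gcongr
      _ = (((N : ℝ) * 2 ^ (k + 1)) ^ 2 * X) / L := by ring
      _ ≤ 1 / 2 := by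
          rw [div_le_iff₀ hLR]
          have : (2 : ℝ) * ((N : ℝ) * 2 ^ (k + 1)) ^ 2 * X ≤ L := by exact_mod_cast hL
          linarith
  have hone := mU_one Q L hQ1 hL1 (by have := h.dvd; exact (Dvd.intro _ rfl).trans this) s z y
  have hQL : (Q : ℝ) / L ≤ 1 / 2 := by
    rw [div_le_iff₀ hLR]
    have : (2 : ℝ) * Q ≤ L := by exact_mod_cast (Nat.mul_le_mul_left 2 hX1).trans hXL
    linarith
  -- real parts
  have hre1 : (mU Q L s (fun _ => (1 : ℂ)) z y).re ≤ 3 / 2 := by
    have := (Complex.abs_re_le_norm _).trans (hone.trans hQL)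
    rw [Complex.sub_re, Complex.one_re, abs_le] at this
    linarith [this.2]
  have hre2 : (mU Q L s (fun x => ((‖w x‖ ^ 2 : ℝ) : ℂ)) z y).re ≤ Y + 1 / 2 := by
    have := (Complex.abs_re_le_norm _).trans hcls
    rw [Complex.sub_re, Complex.ofReal_re, abs_le] at this
    linarith [this.2]
  have hkey : 2 * Y ≤ (mU Q L s (fun _ => (1 : ℂ)) z y).re + (mU Q L s (fun x => ((‖w x‖ ^ 2 : ℝ) : ℂ)) z y).re := by
    have hYre : Y = (mU Q L s (fun x => f x * (starRingEnd ℂ) (w x)) z y).re := by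
      rw [← hdual, Complex.ofReal_re]
    rw [hYre]
    have hform : ∀ g : ZMod M → ℂ, (mU Q L s g z y).re = (Q : ℝ) / L *
        ∑ i ∈ range L, if Q ∣ (z + s + (i : ZMod M) - y).val then (g (z + s + (i : ZMod M))).re else 0 := by
      intro g
      unfold mU
      have : ((Q : ℂ) / L) = (((Q : ℝ) / L : ℝ) : ℂ) := by push_cast; rfl
      rw [this, Complex.re_ofReal_mul, Complex.re_sum]
      congr 1
      apply sum_congr rfl
      intro i _
      split_ifs <;> simp
    rw [hform, hform, hform, ← mul_add, ← sum_add_distrib, mul_left_comm]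
    apply mul_le_mul_of_nonneg_left _ (by positivity)
    rw [mul_sum]
    apply sum_le_sum
    intro i _
    split_ifs
    · simp only [Complex.one_re, Complex.ofReal_re]
      set x := z + s + (i : ZMod M)
      have h1 : (f x * (starRingEnd ℂ) (w x)).re ≤ ‖w x‖ := by
        refine (Complex.re_le_norm _).trans ?_
        rw [norm_mul, RCLike.norm_conj]
        calc ‖f x‖ * ‖w x‖ ≤ 1 * ‖w x‖ := mul_le_mul_of_nonneg_right (hf x) (norm_nonneg _)
          _ = _ := one_mul _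
      nlinarith [sq_nonneg (‖w x‖ - 1)]
    · simp
  linarith

/-- One prime less. -/
theorem vS_insert (Q a L : ℕ) (s : ZMod M) (f : ZMod M → ℂ) (p : ℕ) (S : Finset ℕ) (hp : p ∉ S) (z y : ZMod M) :
    vS Q a L s f (insert p S) z y = vS (Q * p ^ a) a L s f S z y - vS Q a L s f S z y := by
  classical
  unfold vS
  rw [Finset.sum_powerset_insert hp, add_comm, sub_eq_add_neg, ← sum_neg_distrib]
  have hnot : ∀ U ∈ S.powerset, p ∉ U := fun U hU h => hp (mem_powerset.mp hU h)
  congr 1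
  · apply sum_congr rfl
    intro U hU
    have hpU := hnot U hU
    have e1 : insert p S \ insert p U = S \ U := by
      rw [Finset.insert_sdiff_insert]
      ext q
      simp only [mem_sdiff, mem_insert, not_or]
      constructor
      · rintro ⟨a, -, b⟩; exact ⟨a, b⟩
      · rintro ⟨a, b⟩; exact ⟨a, fun h => hp (h ▸ a), b⟩
    have e2 : qU Q a (insert p U) = qU (Q * p ^ a) a U := by
      unfold qU; rw [prod_insert hpU]; ring
    rw [e1, e2]
  · apply sum_congr rfl
    intro U hU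
    have hpU := hnot U hU
    have e1 : insert p S \ U = insert p (S \ U) := Finset.insert_sdiff_of_notMem _ hpU
    have e2 : p ∉ S \ U := fun h => hp (mem_sdiff.mp h).1
    rw [e1, card_insert_of_notMem e2, pow_succ]
    ring

/-- Globalness. -/
theorem glob {a : ℕ} (L : ℕ) (s : ZMod M) (f : ZMod M → ℂ) (hf : Bd f) (z : ZMod M)
    (k X N : ℕ) (hN1 : 1 ≤ N) (hL : 2 * (N * 2 ^ (k + 1)) ^ 2 * X ≤ L) (W : Finset ℕ) (S : Finset ℕ) :
    ∀ Q : ℕ, Disjoint S W → WS M Q a (S ∪ W) → ∀ F : Finset (Finset ℕ), (∀ T ∈ F, T ⊆ W) → (∀ T ∈ F, T.card ≤ k) → F.card ≤ N →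
    (∀ T ∈ F, ∀ T' ∈ F, qU Q a (S ∪ (T ∪ T')) ≤ X) → qU Q a S ≤ X → ∀ y : ZMod M,
    AV W (fun y => ‖∑ T ∈ F, vS Q a L s f (S ∪ T) z y‖ ^ 2) y ≤ 2 * 4 ^ S.card := by
  classical
  induction S using Finset.induction_on with
  | empty =>
    intro Q _ h F hF hk hN hX hX1 y
    simp only [empty_union] at h hX ⊢
    rw [qU_empty] at hX1
    simpa using gl0 h L s f hf z k X N F hF hk hN hN1 hX hX1 hL y
  | insert p S hp ih =>
    intro Q hd h F hF hk hN hX hX1 y
    have hdS : Disjoint S W := hd.mono_left (subset_insert _ _)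
    have hpW : p ∉ W := fun hh => (Finset.disjoint_left.mp hd (mem_insert_self _ _)) hh
    have hpp : p.Prime := h.prime p (mem_union_left _ (mem_insert_self _ _))
    have hp1 : 1 ≤ p ^ a := Nat.one_le_pow _ _ hpp.pos
    -- the two moduli
    have hsub : S ∪ W ⊆ insert p S ∪ W := union_subset_union (subset_insert _ _) (Subset.refl _)
    have hpSW : p ∉ S ∪ W := by rw [mem_union, not_or]; exact ⟨hp, hpW⟩
    have hA : WS M Q a (S ∪ W) :=
      ⟨fun q hq => h.prime q (hsub hq), fun q hq => h.cop q (hsub hq), (qU_dvd hsub).trans h.dvd, h.pos, h.apos⟩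
    have hqU : qU Q a (insert p S ∪ W) = qU (Q * p ^ a) a (S ∪ W) := by
      rw [insert_union]; unfold qU; rw [prod_insert hpSW]; ring
    have hB : WS M (Q * p ^ a) a (S ∪ W) := by
      refine ⟨fun q hq => h.prime q (hsub hq), fun q hq hd' => ?_, by rw [← hqU]; exact h.dvd,
        Nat.mul_pos h.pos hp1, h.apos⟩
      have hqp : q.Prime := h.prime q (hsub hq)
      rcases (Nat.Prime.dvd_mul hqp).1 hd' with h1 | h1
      · exact h.cop q (hsub hq) h1
      · have h2 := (Nat.prime_dvd_prime_iff_eq hqp hpp).1 (hqp.dvd_of_dvd_pow h1)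
        subst h2
        exact hpSW hq
    have hmono : ∀ R : Finset ℕ, p ∉ R → qU (Q * p ^ a) a R = qU Q a (insert p R) := by
      intro R hR; unfold qU; rw [prod_insert hR]; ring
    have hle : ∀ R : Finset ℕ, R ⊆ insert p S ∪ W → p ∉ R → qU Q a R ≤ qU Q a (insert p R) := by
      intro R hR hpR
      apply Nat.le_of_dvd
      · exact qU_pos h (insert_subset (mem_union_left _ (mem_insert_self _ _)) hR)
      · exact qU_dvd (subset_insert _ _)
    have hpT : ∀ T ∈ F, p ∉ T := fun T hT hh => hpW (hF T hT hh)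
    have hXA : ∀ T ∈ F, ∀ T' ∈ F, qU Q a (S ∪ (T ∪ T')) ≤ X := by
      intro T hT T' hT'
      refine le_trans (hle _ ?_ ?_) ?_
      · exact union_subset (subset_union_left.trans hsub)
          ((union_subset (hF T hT) (hF T' hT')).trans subset_union_right)
      · simp only [mem_union, not_or]; exact ⟨hp, hpT T hT, hpT T' hT'⟩
      · rw [← insert_union]; exact hX T hT T' hT'
    have hXB : ∀ T ∈ F, ∀ T' ∈ F, qU (Q * p ^ a) a (S ∪ (T ∪ T')) ≤ X := by
      intro T hT T' hT'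
      rw [hmono _ (by simp only [mem_union, not_or]; exact ⟨hp, hpT T hT, hpT T' hT'⟩), ← insert_union]
      exact hX T hT T' hT'
    have hX1A : qU Q a S ≤ X := (hle S (subset_union_left.trans hsub) hp).trans hX1
    have hX1B : qU (Q * p ^ a) a S ≤ X := by rw [hmono S hp]; exact hX1
    have iA := ih Q hdS hA F hF hk hN hXA hX1A y
    have iB := ih (Q * p ^ a) hdS hB F hF hk hN hXB hX1B y
    have hpt : ∀ y, ‖∑ T ∈ F, vS Q a L s f (insert p S ∪ T) z y‖ ^ 2 ≤
        2 * ‖∑ T ∈ F, vS (Q * p ^ a) a L s f (S ∪ T) z y‖ ^ 2 + 2 * ‖∑ T ∈ F, vS Q a L s f (S ∪ T) z y‖ ^ 2 := by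
      intro y
      have : ∑ T ∈ F, vS Q a L s f (insert p S ∪ T) z y =
          ∑ T ∈ F, vS (Q * p ^ a) a L s f (S ∪ T) z y - ∑ T ∈ F, vS Q a L s f (S ∪ T) z y := by
        rw [← sum_sub_distrib]
        apply sum_congr rfl
        intro T hT
        rw [insert_union, vS_insert Q a L s f p (S ∪ T) (by rw [mem_union, not_or]; exact ⟨hp, hpT T hT⟩)]
      rw [this]
      have h3 := norm_sub_le (∑ T ∈ F, vS (Q * p ^ a) a L s f (S ∪ T) z y) (∑ T ∈ F, vS Q a L s f (S ∪ T) z y)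
      have h4 := norm_nonneg (∑ T ∈ F, vS (Q * p ^ a) a L s f (S ∪ T) z y - ∑ T ∈ F, vS Q a L s f (S ∪ T) z y)
      nlinarith [sq_nonneg (‖∑ T ∈ F, vS (Q * p ^ a) a L s f (S ∪ T) z y‖ - ‖∑ T ∈ F, vS Q a L s f (S ∪ T) z y‖)]
    refine (AV_mono W _ _ hpt y).trans ?_
    rw [AV_add]
    have u1 := AV_smul W (2 : ℝ) (fun y : ZMod M => ‖∑ T ∈ F, vS (Q * p ^ a) a L s f (S ∪ T) z y‖ ^ 2) y
    have u2 := AV_smul W (2 : ℝ) (fun y : ZMod M => ‖∑ T ∈ F, vS Q a L s f (S ∪ T) z y‖ ^ 2) y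
    simp only [smul_eq_mul] at u1 u2
    rw [u1, u2, card_insert_of_notMem hp, pow_succ]
    linarith

end Pool.Agent.EQD
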