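import Pool.Agent.Lib.EQD.AAB

/-!
# Module GnA: gain in the mean

PROOF of `gainA`. Let `C` be the constant of `InvP`. If the mean is `> 4 / R`, then for `u = (1 / 4) cv β F` (bounded by one, `norm_cv_le`) the mean of
`‖AA N P (update g i u)‖` is `> 1 / R`; with `f0 x = conj (AA ..) / ‖AA ..‖` (`0` if zero) `InvP` gives `q ≤ R ^ C` with
`1 / R ^ C ≤ avr ‖tv J (u (x + q ·))‖` for `J = N ^ e i / R ^ C ≥ 1`. But `avr ‖tv J (u (x + q ·))‖ ≤ sqrt (n2 (Eb q J u))` and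
`n2 (Eb q J (cv β F)) = ∑ ‖dk J (q θ)‖ ^ 2 ‖mul β θ‖ ^ 2 ‖ft F‖ ^ 2 ≤ (1 / (2 R ^ C)) ^ 2` (`ft_Eb`, `ft_cv`, `NS`): contradiction.
`gainB`: `gainA` for `g` with slot `l` replaced by `F` (`Function.update_comm`).
`gainC`: the same for a function `u` bounded by one in slot `i` all of whose averages along the full subgroups `q ZMod M`, `q ≤ R ^ C`, `q ∣ M`, vanish, on the fibre:
`AA M P = AA (M m) P` (`AA_mul_cast`) with `m = R ^ (C + 1)`, `H = M m`, and `Star` with `J = M`.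
-/

set_option autoImplicit false

open Finset Polynomial

namespace Pool.Agent.EQD

open Pool.Agent.HLT Pool.Agent.NLT Pool.Agent.NLG

namespace GnAAux

variable {M : ℕ} [NeZero M]

/-- The unimodular factor which makes the mean value positive. -/
noncomputable def sg (G : ZMod M → ℂ) (x : ZMod M) : ℂ := (starRingEnd ℂ) (G x) / (‖G x‖ : ℂ)

lemma sg_Bd (G : ZMod M → ℂ) : Bd (sg G) := by
  intro x
  unfold sg
  rw [norm_div, RCLike.norm_conj, Complex.norm_real, Real.norm_eq_abs, abs_of_nonneg (norm_nonneg _)]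
  exact div_self_le_one _

lemma sg_mul (G : ZMod M → ℂ) (x : ZMod M) : sg G x * G x = ((‖G x‖ : ℝ) : ℂ) := by
  unfold sg
  by_cases h : G x = 0
  · simp [h]
  · have h1 : ((‖G x‖ : ℝ) : ℂ) ≠ 0 := by
      exact_mod_cast norm_ne_zero_iff.mpr h
    rw [div_mul_eq_mul_div, div_eq_iff h1]
    rw [mul_comm ((starRingEnd ℂ) (G x)) (G x), Complex.mul_conj, Complex.normSq_eq_norm_sq]
    push_cast
    ring

lemma norm_av_sg (G : ZMod M → ℂ) : ‖av (fun x => sg G x * G x)‖ = avr (fun x => ‖G x‖) := by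
  have h : (fun x => sg G x * G x) = fun x => ((‖G x‖ : ℝ) : ℂ) := funext (fun x => sg_mul G x)
  rw [h, av_ofReal, Complex.norm_real, Real.norm_eq_abs, abs_of_nonneg (avr_nonneg (fun x => norm_nonneg _))]

/-- The inverse theorem in terms of the mean of the absolute value. -/
lemma star_of_mean {n : ℕ} (P : Fin n → ℤ[X]) (e : Fin n → ℕ) (h : InvP P e) :
    ∃ C : ℕ, ∀ (M : ℕ) [NeZero M] (H R : ℕ), 2 ≤ R → R ^ C ≤ H → ∀ f : Fin n → ZMod M → ℂ, (∀ i, Bd (f i)) →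
      1 / (R : ℝ) ≤ avr (fun x => ‖AA H P f x‖) → ∀ i, Star C R H (e i) (f i) := by
  obtain ⟨C, hC⟩ := h
  refine ⟨C, ?_⟩
  intro M _ H R hR hH f hf hm i
  refine hC M H R hR hH (sg (AA H P f)) (sg_Bd _) f hf ?_ i
  rw [norm_av_sg]
  exact hm

/-- Large averages along progressions are excluded by `NS`. -/
lemma avr_Eb_le (q J : ℕ) (β : ℤ →₀ ℂ) (F : ZMod M → ℂ) (hF : Bd F) (δ : ℝ) (hδ : 0 ≤ δ)
    (h : ∀ θ : ℝ, ‖mul β θ‖ * ‖dk J ((q : ℝ) * θ)‖ ≤ δ) : avr (fun x => ‖Eb q J (cv β F) x‖) ≤ δ := by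
  refine (avr_norm_le_sqrt_n2 _).trans ?_
  rw [Real.sqrt_le_left hδ, n2_eq_ft]
  have h1 : ∀ ξ : ZMod M, ‖ft (Eb q J (cv β F)) ξ‖ ^ 2 ≤ δ ^ 2 * ‖ft F ξ‖ ^ 2 := by
    intro ξ
    rw [ft_Eb, ft_cv, ← mul_assoc, norm_mul, norm_mul, mul_pow]
    refine mul_le_mul_of_nonneg_right (pow_le_pow_left₀ (by positivity) ?_ 2) (by positivity)
    rw [mul_comm]
    exact h _
  calc ∑ ξ, ‖ft (Eb q J (cv β F)) ξ‖ ^ 2 ≤ ∑ ξ, δ ^ 2 * ‖ft F ξ‖ ^ 2 := sum_le_sum (fun ξ _ => h1 ξ)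
    _ = δ ^ 2 * ∑ ξ, ‖ft F ξ‖ ^ 2 := by rw [← mul_sum]
    _ ≤ δ ^ 2 * 1 := mul_le_mul_of_nonneg_left (sum_ft_sq_le_one hF) (by positivity)
    _ = δ ^ 2 := mul_one _

end GnAAux

open GnAAux

theorem gainA {n : ℕ} (P : Fin n → ℤ[X]) (e : Fin n → ℕ) (he : ∀ i, 1 ≤ e i) (h : InvP P e) :
    ∃ C : ℕ, 1 ≤ C ∧ ∀ (M : ℕ) [NeZero M] (N R : ℕ), 2 ≤ R → R ^ C ≤ N → ∀ (i : Fin n) (β : ℤ →₀ ℂ), mass β ≤ 4 →
      NS C R (N ^ e i) β → ∀ g : Fin n → ZMod M → ℂ, (∀ l, l ≠ i → Bd (g l)) → ∀ F : ZMod M → ℂ, Bd F →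
      avr (fun x => ‖AA N P (Function.update g i (cv β F)) x‖) ≤ 4 / R := by
  obtain ⟨C, hC⟩ := star_of_mean P e h
  refine ⟨C + 1, by omega, ?_⟩
  intro M _ N R hR hN i β hβ hNS g hg F hF
  by_contra hcon
  push Not at hcon
  have hRpos : (0 : ℝ) < (R : ℝ) := by
    have : 0 < R := by omega
    exact_mod_cast this
  have hR1 : 1 ≤ R := by omega
  have hCC : R ^ C ≤ R ^ (C + 1) := Nat.pow_le_pow_right hR1 (by omega)
  have hRC1 : 1 ≤ R ^ (C + 1) := Nat.one_le_pow _ _ hR1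
  -- the normalised function
  have hu : Bd (fun y => (1 / 4 : ℂ) * cv β F y) := by
    intro x
    have h1 := norm_cv_le β F 1 hF x
    simp only [norm_mul]
    have h2 : ‖(1 / 4 : ℂ)‖ = 1 / 4 := by
      rw [norm_div, norm_one]
      norm_num
    rw [h2]
    linarith
  have hall : ∀ l, Bd (Function.update g i (fun y => (1 / 4 : ℂ) * cv β F y) l) := by
    intro l
    by_cases hl : l = i
    · subst hl
      rw [Function.update_self]
      exact hu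
    · rw [Function.update_of_ne hl]
      exact hg l hl
  have hmean : 1 / (R : ℝ) ≤
      avr (fun x => ‖AA N P (Function.update g i (fun y => (1 / 4 : ℂ) * cv β F y)) x‖) := by
    have h1 : (fun x => ‖AA N P (Function.update g i (fun y => (1 / 4 : ℂ) * cv β F y)) x‖) =
        fun x => (1 / 4 : ℝ) * ‖AA N P (Function.update g i (cv β F)) x‖ := by
      funext x
      rw [AA_update_mul, norm_mul]
      congr 1
      rw [norm_div, norm_one]
      norm_num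
    rw [h1, avr_mul_left]
    have h2 : (4 : ℝ) / R = 4 * (1 / R) := by ring
    rw [h2] at hcon
    linarith
  have hstar := hC M N R hR (hCC.trans hN) _ hall hmean i
  rw [Function.update_self] at hstar
  obtain ⟨q, hq1, hq2, hJ⟩ := hstar
  have hNe : N ≤ N ^ e i := by
    have hN1 : 1 ≤ N := hRC1.trans hN
    calc N = N ^ 1 := (pow_one N).symm
      _ ≤ N ^ e i := Nat.pow_le_pow_right hN1 (he i)
  have hJ1 : 1 ≤ N ^ e i / R ^ (C + 1) := (Nat.one_le_div_iff (by omega)).mpr (hN.trans hNe)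
  have hJ2 : N ^ e i / R ^ (C + 1) * R ^ C ≤ N ^ e i :=
    (Nat.mul_le_mul_left _ hCC).trans (Nat.div_mul_le_self _ _)
  have hbig := hJ _ hJ1 hJ2
  have hδ : (0 : ℝ) < 1 / (2 * (R : ℝ) ^ (C + 1)) := by positivity
  have hsmall := avr_Eb_le q (N ^ e i / R ^ (C + 1)) β F hF (1 / (2 * (R : ℝ) ^ (C + 1))) hδ.le
    (hNS q hq1 (hq2.trans hCC))
  have heq : (fun x => ‖tv (N ^ e i / R ^ (C + 1))
      (fun j => (1 / 4 : ℂ) * cv β F (x + ((q * j : ℕ) : ZMod M)))‖) =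
      fun x => (1 / 4 : ℝ) * ‖Eb q (N ^ e i / R ^ (C + 1)) (cv β F) x‖ := by
    funext x
    rw [tv_mul_left, norm_mul]
    unfold Eb
    congr 1
    rw [norm_div, norm_one]
    norm_num
  rw [heq, avr_mul_left] at hbig
  have hpow : (1 : ℝ) / (R : ℝ) ^ (C + 1) ≤ 1 / (R : ℝ) ^ C := by
    apply one_div_le_one_div_of_le (by positivity)
    exact_mod_cast hCC
  have hhalf : 1 / (2 * (R : ℝ) ^ (C + 1)) = (1 / 2) * (1 / (R : ℝ) ^ (C + 1)) := by
    field_simp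
  rw [hhalf] at hsmall hδ
  linarith

theorem gainB {n : ℕ} (P : Fin n → ℤ[X]) (e : Fin n → ℕ) (he : ∀ i, 1 ≤ e i) (h : InvP P e) :
    ∃ C : ℕ, 1 ≤ C ∧ ∀ (M : ℕ) [NeZero M] (N R : ℕ), 2 ≤ R → R ^ C ≤ N → ∀ (i : Fin n) (β : ℤ →₀ ℂ), mass β ≤ 4 →
      NS C R (N ^ e i) β → ∀ g : Fin n → ZMod M → ℂ, (∀ l, Bd (g l)) →
      (∀ F : ZMod M → ℂ, Bd F → avr (fun x => ‖AA N P (Function.update g i (cv β F)) x‖) ≤ 4 / R) ∧
      ∀ l, l ≠ i → ∀ F : ZMod M → ℂ, Bd F →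
        avr (fun x => ‖AA N P (Function.update (Function.update g i (cv β (g i))) l F) x‖) ≤ 4 / R := by
  obtain ⟨C, hC1, hC⟩ := gainA P e he h
  refine ⟨C, hC1, ?_⟩
  intro M _ N R hR hN i β hβ hNS g hg
  refine ⟨fun F hF => hC M N R hR hN i β hβ hNS g (fun l _ => hg l) F hF, ?_⟩
  intro l hl F hF
  rw [Function.update_comm (Ne.symm hl)]
  refine hC M N R hR hN i β hβ hNS (Function.update g l F) ?_ (g i) (hg i)
  intro k hk
  by_cases hkl : k = l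
  · subst hkl
    rw [Function.update_self]
    exact hF
  · rw [Function.update_of_ne hkl]
    exact hg k

/-- The fibre `N = M`. -/
theorem gainC {n : ℕ} (P : Fin n → ℤ[X]) (e : Fin n → ℕ) (he : ∀ i, 1 ≤ e i) (h : InvP P e) :
    ∃ C : ℕ, 1 ≤ C ∧ ∀ (M : ℕ) [NeZero M] (R : ℕ), 2 ≤ R → ∀ (i : Fin n) (g : Fin n → ZMod M → ℂ), (∀ l, Bd (g l)) →
      (∀ q : ℕ, 1 ≤ q → q ≤ R ^ C → ∀ x, Eb q M (g i) x = 0) → avr (fun x => ‖AA M P g x‖) ≤ 1 / R := by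
  obtain ⟨C, hC⟩ := star_of_mean P e h
  refine ⟨C + 1, by omega, ?_⟩
  intro M _ R hR i g hg h0
  by_contra hcon
  push Not at hcon
  have hRpos : (0 : ℝ) < (R : ℝ) := by
    have : 0 < R := by omega
    exact_mod_cast this
  have hR1 : 1 ≤ R := by omega
  have hM1 : 1 ≤ M := NeZero.pos M
  have hRC1 : 1 ≤ R ^ C := Nat.one_le_pow _ _ hR1
  have hCC : R ^ C ≤ R ^ (C + 1) := Nat.pow_le_pow_right hR1 (by omega)
  have hH : R ^ C ≤ M * R ^ C := Nat.le_mul_of_pos_left _ (by omega)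
  have hmean : 1 / (R : ℝ) ≤ avr (fun x => ‖AA (M * R ^ C) P g x‖) := by
    rw [AA_mul_cast _ hRC1]
    exact hcon.le
  obtain ⟨q, hq1, hq2, hJ⟩ := hC M (M * R ^ C) R hR hH g hg hmean i
  have hHe : M * R ^ C ≤ (M * R ^ C) ^ e i := by
    calc M * R ^ C = (M * R ^ C) ^ 1 := (pow_one _).symm
      _ ≤ (M * R ^ C) ^ e i := Nat.pow_le_pow_right (hRC1.trans hH) (he i)
  have hbig := hJ M hM1 hHe
  have heq : (fun x => ‖tv M (fun j => g i (x + ((q * j : ℕ) : ZMod M)))‖) = fun _ => (0 : ℝ) := by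
    funext x
    have h1 := h0 q hq1 (hq2.trans hCC) x
    unfold Eb at h1
    rw [h1, norm_zero]
  rw [heq, avr_const] at hbig
  have : (0 : ℝ) < 1 / (R : ℝ) ^ C := by positivity
  linarith

end Pool.Agent.EQD
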