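import Pool.Agent.Lib.EQD.OneV

/-!
# Hypercontractivity over a set of primes

`hyp_ind`: for a family `g_T`, `T ⊆ Ps`, with `E_p g_T = 0` (`p ∈ T`), `E_p g_T = g_T` (`p ∈ Ps \ T`),
`avr (E_V |∑ ρ ^ |T| g_T| ^ 2) ^ r ≤ ∑_{S ⊆ Ps} avr (E_{V ∪ (Ps \ S)} |∑_{T ⊇ S} g_T| ^ 2) ^ r`.
`hyp_w`: homogeneous families with bounded influences have bounded moments.
-/

set_option autoImplicit false

open Finset Polynomial

namespace Pool.Agent.EQD

open Pool.Agent.HLT Pool.Agent.NLT Pool.Agent.NLG

variable {M : ℕ} [NeZero M]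

/-- The family is adapted to the set of primes `W`. -/
def Adp (W : Finset ℕ) (g : Finset ℕ → ZMod M → ℂ) : Prop :=
  (∀ T ⊆ W, ∀ p ∈ T, ∀ y, AV {p} (g T) y = 0) ∧ (∀ T ⊆ W, ∀ p ∈ W, p ∉ T → ∀ y, AV {p} (g T) y = g T y)

theorem hyp_ind (r : ℕ) (hr : 1 ≤ r) (ρ : ℝ) (h0 : 0 ≤ ρ) (h1 : ρ ≤ 1) (h2 : 8 ^ r * ρ ^ 2 ≤ 1) (Ps : Finset ℕ) :
    ∀ V : Finset ℕ, Disjoint V Ps → (∀ p ∈ V, p.Prime) → (∀ p ∈ Ps, p.Prime) → ∀ g : Finset ℕ → ZMod M → ℂ, Adp Ps g →
    avr (fun y => (AV V (fun y => ‖∑ T ∈ Ps.powerset, (ρ : ℂ) ^ T.card * g T y‖ ^ 2) y) ^ r) ≤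
      ∑ S ∈ Ps.powerset, avr (fun y =>
        (AV (V ∪ (Ps \ S)) (fun y => ‖∑ T ∈ Ps.powerset, if S ⊆ T then g T y else 0‖ ^ 2) y) ^ r) := by
  classical
  induction Ps using Finset.induction_on with
  | empty =>
    intro V _ _ _ g _
    simp
  | insert p Ps hp ih =>
    intro V hd hV hPs g hg
    have hpV : p ∉ V := fun h => (Finset.disjoint_left.mp hd h) (mem_insert_self _ _)
    have hdV : Disjoint V Ps := hd.mono_right (subset_insert _ _)
    have hPs' : ∀ q ∈ Ps, q.Prime := fun q hq => hPs q (mem_insert_of_mem hq)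
    have hVp : ∀ q ∈ insert p V, q.Prime := by
      intro q hq
      rcases mem_insert.mp hq with rfl | h
      · exact hPs q (mem_insert_self _ _)
      · exact hV q h
    have hdV' : Disjoint (insert p V) Ps := by
      rw [Finset.disjoint_insert_left]; exact ⟨hp, hdV⟩
    -- the two parts
    set G0 : ZMod M → ℂ := fun y => ∑ T ∈ Ps.powerset, (ρ : ℂ) ^ T.card * g T y with hG0
    set G1 : ZMod M → ℂ := fun y => ∑ T ∈ Ps.powerset, (ρ : ℂ) ^ T.card * g (insert p T) y with hG1
    have hsub : ∀ T ∈ Ps.powerset, T ⊆ insert p Ps := fun T hT => (mem_powerset.mp hT).trans (subset_insert _ _)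
    have hsub' : ∀ T ∈ Ps.powerset, insert p T ⊆ insert p Ps := fun T hT => insert_subset_insert _ (mem_powerset.mp hT)
    have hnot : ∀ T ∈ Ps.powerset, p ∉ T := fun T hT h => hp (mem_powerset.mp hT h)
    have hAVmul : ∀ (c : ℂ) (f : ZMod M → ℂ) (y : ZMod M), AV {p} (fun y => c * f y) y = c * AV {p} f y := fun c f y =>
      AV_pull {p} (fun _ => c) (fun _ _ => rfl) f y
    have e0 : ∀ y, AV {p} G0 y = G0 y := by
      intro y
      rw [hG0, AV_sum]
      apply sum_congr rfl
      intro T hT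
      rw [hAVmul, hg.2 T (hsub T hT) p (mem_insert_self _ _) (hnot T hT)]
    have e1 : ∀ y, AV {p} G1 y = 0 := by
      intro y
      rw [hG1, AV_sum]
      apply sum_eq_zero
      intro T hT
      rw [hAVmul, hg.1 (insert p T) (hsub' T hT) p (mem_insert_self _ _), mul_zero]
    have hsplit : ∀ y, (∑ T ∈ (insert p Ps).powerset, (ρ : ℂ) ^ T.card * g T y) = G0 y + (ρ : ℂ) * G1 y := by
      intro y
      rw [Finset.sum_powerset_insert hp, hG0, hG1, mul_sum]
      congr 1
      apply sum_congr rfl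
      intro T hT
      rw [card_insert_of_notMem (hnot T hT), pow_succ]
      ring
    have hL : avr (fun y => (AV V (fun y => ‖∑ T ∈ (insert p Ps).powerset, (ρ : ℂ) ^ T.card * g T y‖ ^ 2) y) ^ r) =
        avr (fun y => (AV V (fun y => ‖G0 y + (ρ : ℂ) * G1 y‖ ^ 2) y) ^ r) := by
      simp only [hsplit]
    rw [hL]
    refine (step_av r hr ρ h0 h1 h2 V p hpV hVp G0 G1 e0 e1).trans ?_
    rw [Finset.sum_powerset_insert hp]
    -- first family
    have hgA : Adp Ps (fun T y => g T y + g (insert p T) y) := by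
      refine ⟨fun T hT q hq y => ?_, fun T hT q hq hqT y => ?_⟩
      · rw [AV_add, hg.1 T (hT.trans (subset_insert _ _)) q hq,
          hg.1 (insert p T) (insert_subset_insert _ hT) q (mem_insert_of_mem hq), add_zero]
      · have hqp : q ∉ insert p T := by
          rw [mem_insert]; rintro (rfl | h)
          · exact hp hq
          · exact hqT h
        rw [AV_add, hg.2 T (hT.trans (subset_insert _ _)) q (mem_insert_of_mem hq) hqT,
          hg.2 (insert p T) (insert_subset_insert _ hT) q (mem_insert_of_mem hq) hqp]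
    have hgB : Adp Ps (fun T y => g (insert p T) y) := by
      refine ⟨fun T hT q hq y => ?_, fun T hT q hq hqT y => ?_⟩
      · exact hg.1 (insert p T) (insert_subset_insert _ hT) q (mem_insert_of_mem hq) y
      · have hqp : q ∉ insert p T := by
          rw [mem_insert]; rintro (rfl | h)
          · exact hp hq
          · exact hqT h
        exact hg.2 (insert p T) (insert_subset_insert _ hT) q (mem_insert_of_mem hq) hqp y
    have iA := ih (insert p V) hdV' hVp hPs' (fun T y => g T y + g (insert p T) y) hgA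
    have iB := ih V hdV hV hPs' (fun T y => g (insert p T) y) hgB
    have eA : avr (fun y => (AV (insert p V) (fun y => ‖G0 y + G1 y‖ ^ 2) y) ^ r) =
        avr (fun y => (AV (insert p V)
          (fun y => ‖∑ T ∈ Ps.powerset, (ρ : ℂ) ^ T.card * (g T y + g (insert p T) y)‖ ^ 2) y) ^ r) := by
      have : ∀ y, G0 y + G1 y = ∑ T ∈ Ps.powerset, (ρ : ℂ) ^ T.card * (g T y + g (insert p T) y) := by
        intro y
        rw [hG0, hG1, ← sum_add_distrib]
        exact sum_congr rfl fun T _ => by ring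
      simp only [this]
    rw [eA]
    refine add_le_add (iA.trans (le_of_eq ?_)) (iB.trans (le_of_eq ?_))
    · apply sum_congr rfl
      intro S hS
      have hpS : p ∉ S := hnot S hS
      have u1 : insert p V ∪ (Ps \ S) = V ∪ (insert p Ps \ S) := by
        rw [Finset.insert_sdiff_of_notMem _ hpS, Finset.insert_union, Finset.union_insert]
      rw [u1]
      have u2 : ∀ y, (∑ T ∈ Ps.powerset, if S ⊆ T then g T y + g (insert p T) y else 0) =
          ∑ T ∈ (insert p Ps).powerset, if S ⊆ T then g T y else 0 := by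
        intro y
        rw [Finset.sum_powerset_insert hp, ← sum_add_distrib]
        apply sum_congr rfl
        intro T hT
        have : S ⊆ insert p T ↔ S ⊆ T := Finset.subset_insert_iff_of_notMem hpS
        simp only [this]
        split_ifs <;> simp
      simp only [u2]
    · apply sum_congr rfl
      intro S hS
      have hpS : p ∉ S := hnot S hS
      have u1 : Ps \ S = insert p Ps \ insert p S := by
        rw [Finset.insert_sdiff_insert]
        ext q
        simp only [mem_sdiff, mem_insert, not_or]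
        constructor
        · rintro ⟨a, b⟩
          exact ⟨a, fun h => hp (h ▸ a), b⟩
        · rintro ⟨a, -, b⟩
          exact ⟨a, b⟩
      rw [u1]
      have u2 : ∀ y, (∑ T ∈ Ps.powerset, if S ⊆ T then g (insert p T) y else 0) =
          ∑ T ∈ (insert p Ps).powerset, if insert p S ⊆ T then g T y else 0 := by
        intro y
        rw [Finset.sum_powerset_insert hp]
        have z : (∑ T ∈ Ps.powerset, if insert p S ⊆ T then g T y else 0) = 0 := by
          apply sum_eq_zero
          intro T hT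
          rw [if_neg]
          intro h
          exact hnot T hT (h (mem_insert_self _ _))
        rw [z, zero_add]
        apply sum_congr rfl
        intro T hT
        have : insert p S ⊆ insert p T ↔ S ⊆ T := by
          rw [Finset.insert_subset_insert_iff hpS]
        simp only [this]
      simp only [u2]

/-- Different components are orthogonal. -/
theorem adp_orth (W : Finset ℕ) (hW : ∀ p ∈ W, p.Prime) (g : Finset ℕ → ZMod M → ℂ) (hg : Adp W g) (T T' : Finset ℕ)
    (hT : T ⊆ W) (hT' : T' ⊆ W) (hne : T ≠ T') (y : ZMod M) : AV W (fun y => g T y * (starRingEnd ℂ) (g T' y)) y = 0 := by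
  classical
  have key : ∃ p ∈ W, ∀ y, AV {p} (fun y => g T y * (starRingEnd ℂ) (g T' y)) y = 0 := by
    have hc : ∀ (p : ℕ) (f : ZMod M → ℂ) (y : ZMod M), AV {p} (fun y => (starRingEnd ℂ) (f y)) y = (starRingEnd ℂ) (AV {p} f y) := by
      intro p f y
      have m := AV_map (M := M) (Complex.conjLIE.toLinearEquiv.toLinearMap) {p} f y
      simpa using m.symm
    by_cases h : T ⊆ T'
    · obtain ⟨p, hp, hpT⟩ : ∃ p ∈ T', p ∉ T := by
        by_contra hcon
        push Not at hcon
        exact hne (Subset.antisymm h hcon)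
      have hpW := hT' hp
      have hpp : ∀ q ∈ ({p} : Finset ℕ), q.Prime := fun q hq => by
        rw [mem_singleton] at hq; subst hq; exact hW q hpW
      refine ⟨p, hpW, fun y => ?_⟩
      have i1 := inv_of_AV {p} hpp (g T) (hg.2 T hT p hpW hpT)
      rw [AV_pull {p} (g T) i1, hc, hg.1 T' hT' p hp, map_zero, mul_zero]
    · obtain ⟨p, hp, hpT⟩ : ∃ p ∈ T, p ∉ T' := by
        by_contra hcon
        push Not at hcon
        exact h hcon
      have hpW := hT hp
      have hpp : ∀ q ∈ ({p} : Finset ℕ), q.Prime := fun q hq => by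
        rw [mem_singleton] at hq; subst hq; exact hW q hpW
      refine ⟨p, hpW, fun y => ?_⟩
      have i1 := inv_of_AV {p} hpp (g T') (hg.2 T' hT' p hpW hpT)
      have e : ∀ y, g T y * (starRingEnd ℂ) (g T' y) = (starRingEnd ℂ) (g T' y) * g T y := fun y => mul_comm _ _
      rw [AV_congr {p} y e, AV_pull {p} (fun y => (starRingEnd ℂ) (g T' y)) (fun y i => by rw [i1]), hg.1 T hT p hp, mul_zero]
  obtain ⟨p, hpW, hz⟩ := key
  have e : W = insert p (W.erase p) := (insert_erase hpW).symm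
  rw [e, AV_insert (W.erase p) p (notMem_erase _ _) (by rw [← e]; exact hW), AV_congr _ y hz, AV_zero]

/-- Pythagoras. -/
theorem adp_pyth (W : Finset ℕ) (hW : ∀ p ∈ W, p.Prime) (g : Finset ℕ → ZMod M → ℂ) (hg : Adp W g) (F : Finset (Finset ℕ))
    (hF : ∀ T ∈ F, T ⊆ W) (y : ZMod M) :
    AV W (fun y => ‖∑ T ∈ F, g T y‖ ^ 2) y = ∑ T ∈ F, AV W (fun y => ‖g T y‖ ^ 2) y := by
  classical
  have e1 : ∀ f : ZMod M → ℂ, ∀ y, ((AV W (fun y => ‖f y‖ ^ 2) y : ℝ) : ℂ) = AV W (fun y => f y * (starRingEnd ℂ) (f y)) y := by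
    intro f y
    have m := AV_map (M := M) (Complex.ofRealCLM.toLinearMap) W (fun y => ‖f y‖ ^ 2) y
    simp only [ContinuousLinearMap.coe_coe, Complex.ofRealCLM_apply] at m
    rw [m]
    apply AV_congr
    intro y
    rw [Complex.mul_conj, Complex.normSq_eq_norm_sq]
  have hre : ((AV W (fun y => ‖∑ T ∈ F, g T y‖ ^ 2) y : ℝ) : ℂ) = ((∑ T ∈ F, AV W (fun y => ‖g T y‖ ^ 2) y : ℝ) : ℂ) := by
    rw [e1]
    push_cast
    have : ∀ y, (∑ T ∈ F, g T y) * (starRingEnd ℂ) (∑ T ∈ F, g T y) =
        ∑ T ∈ F, ∑ T' ∈ F, g T y * (starRingEnd ℂ) (g T' y) := by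
      intro y
      rw [map_sum, sum_mul_sum]
    rw [AV_congr W y this, AV_sum]
    apply sum_congr rfl
    intro T hT
    rw [AV_sum, Finset.sum_eq_single T, ← e1]
    · intro T' hT' hne
      exact adp_orth W hW g hg T T' (hF T hT) (hF T' hT') (Ne.symm hne) y
    · intro h; exact absurd hT h
  exact_mod_cast hre

/-- Homogeneous families: moments. -/
theorem hyp_w (r : ℕ) (hr : 1 ≤ r) (i : ℕ) (Λ : ℝ) (hΛ : 0 ≤ Λ) (Ps : Finset ℕ) (hPs : ∀ p ∈ Ps, p.Prime)
    (g : Finset ℕ → ZMod M → ℂ) (hg : Adp Ps g)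
    (hinf : ∀ S ⊆ Ps, S.card ≤ i → ∀ y, AV (Ps \ S) (fun y => ‖∑ T ∈ (Ps.powersetCard i).filter (fun T => S ⊆ T), g T y‖ ^ 2) y ≤ Λ) :
    nq (2 * r) (fun y => ∑ T ∈ Ps.powersetCard i, g T y) ≤
      64 ^ (r * (r * i)) * (Λ ^ (r - 1) * (2 ^ i * n2 (fun y => ∑ T ∈ Ps.powersetCard i, g T y))) := by
  classical
  set ρ : ℝ := (1 / 8) ^ r with hρ
  have h0 : 0 < ρ := by positivity
  have h1 : ρ ≤ 1 := pow_le_one₀ (by norm_num) (by norm_num)
  have h2 : 8 ^ r * ρ ^ 2 ≤ 1 := by
    rw [hρ, ← pow_mul, mul_comm r 2, pow_mul, ← mul_pow]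
    exact pow_le_one₀ (by norm_num) (by norm_num)
  -- the truncated family
  set g' : Finset ℕ → ZMod M → ℂ := fun T y => if T.card = i then g T y else 0 with hg'
  have hadp : Adp Ps g' := by
    refine ⟨fun T hT p hp y => ?_, fun T hT p hp hpT y => ?_⟩
    · by_cases h : T.card = i
      · have : g' T = g T := by funext y; simp [hg', h]
        rw [this]; exact hg.1 T hT p hp y
      · have : g' T = fun _ => 0 := by funext y; simp [hg', h]
        rw [this]; exact AV_zero _ _
    · by_cases h : T.card = i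
      · have : g' T = g T := by funext y; simp [hg', h]
        rw [this]; exact hg.2 T hT p hp hpT y
      · have : g' T = fun _ => 0 := by funext y; simp [hg', h]
        rw [this]; exact AV_zero _ _
  set G : ZMod M → ℂ := fun y => ∑ T ∈ Ps.powersetCard i, g T y with hG
  have hS1 : ∀ y, (∑ T ∈ Ps.powerset, (ρ : ℂ) ^ T.card * g' T y) = (ρ : ℂ) ^ i * G y := by
    intro y
    rw [hG, mul_sum, Finset.powersetCard_eq_filter, sum_filter]
    apply sum_congr rfl
    intro T _
    simp only [hg']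
    split_ifs with h
    · rw [h]
    · simp
  have hS2 : ∀ (S : Finset ℕ) (y : ZMod M), (∑ T ∈ Ps.powerset, if S ⊆ T then g' T y else 0) =
      ∑ T ∈ (Ps.powersetCard i).filter (fun T => S ⊆ T), g T y := by
    intro S y
    rw [sum_filter, Finset.powersetCard_eq_filter, sum_filter]
    apply sum_congr rfl
    intro T _
    simp only [hg']
    split_ifs <;> simp
  have hmain := hyp_ind (M := M) r hr ρ h0.le h1 h2 Ps ∅ (disjoint_empty_left _) (by simp) hPs g' hadp
  simp only [hS1, hS2, Finset.empty_union, AV_empty] at hmain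
  -- left hand side
  have hleft : avr (fun y => (‖(ρ : ℂ) ^ i * G y‖ ^ 2) ^ r) = (ρ ^ i) ^ (2 * r) * nq (2 * r) G := by
    unfold nq
    rw [← avr_mul_left']
    congr 1
    funext y
    rw [← pow_mul, norm_mul, norm_pow, Complex.norm_real, Real.norm_of_nonneg h0.le, mul_pow]
  rw [hleft] at hmain
  -- right hand side
  have hcomp : ∀ S ⊆ Ps, avr (fun y => (AV (Ps \ S)
      (fun y => ‖∑ T ∈ (Ps.powersetCard i).filter (fun T => S ⊆ T), g T y‖ ^ 2) y) ^ r) ≤
      Λ ^ (r - 1) * ∑ T ∈ (Ps.powersetCard i).filter (fun T => S ⊆ T), n2 (g T) := by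
    intro S hS
    set X : ZMod M → ℝ := AV (Ps \ S) (fun y => ‖∑ T ∈ (Ps.powersetCard i).filter (fun T => S ⊆ T), g T y‖ ^ 2) with hX
    have hX0 : ∀ y, 0 ≤ X y := fun y => AV_nonneg _ _ (fun y => by positivity) y
    have hXΛ : ∀ y, X y ≤ Λ := by
      intro y
      by_cases h : S.card ≤ i
      · exact hinf S hS h y
      · have he : (Ps.powersetCard i).filter (fun T => S ⊆ T) = ∅ := by
          rw [filter_eq_empty_iff]
          intro T hT hST
          have := card_le_card hST
          rw [(mem_powersetCard.mp hT).2] at this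
          exact h this
        have : X y = 0 := by
          rw [hX, he]
          simp only [sum_empty, norm_zero]
          have := AV_zero (M := M) (F := ℝ) (Ps \ S) y
          simpa using this
        rw [this]; exact hΛ
    have e1 : avr (fun y => X y ^ r) ≤ Λ ^ (r - 1) * avr X := by
      rw [← avr_mul_left']
      apply avr_mono'
      intro y
      obtain ⟨m, rfl⟩ : ∃ m, r = m + 1 := ⟨r - 1, by omega⟩
      simp only [Nat.add_sub_cancel, pow_succ]
      exact mul_le_mul_of_nonneg_right (pow_le_pow_left₀ (hX0 y) (hXΛ y) m) (hX0 y)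
    have e2 : avr X = ∑ T ∈ (Ps.powersetCard i).filter (fun T => S ⊆ T), n2 (g T) := by
      have hprS : ∀ p ∈ Ps \ S, p.Prime := fun p hp => hPs p (mem_sdiff.mp hp).1
      rw [hX, avr_AV _ hprS, ← avr_AV Ps hPs]
      have : ∀ y, AV Ps (fun y => ‖∑ T ∈ (Ps.powersetCard i).filter (fun T => S ⊆ T), g T y‖ ^ 2) y =
          ∑ T ∈ (Ps.powersetCard i).filter (fun T => S ⊆ T), AV Ps (fun y => ‖g T y‖ ^ 2) y := fun y =>
        adp_pyth Ps hPs g hg _ (fun T hT => (mem_powersetCard.mp (mem_filter.mp hT).1).1) y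
      have e : AV Ps (fun y => ‖∑ T ∈ (Ps.powersetCard i).filter (fun T => S ⊆ T), g T y‖ ^ 2) = fun y =>
          ∑ T ∈ (Ps.powersetCard i).filter (fun T => S ⊆ T), AV Ps (fun y => ‖g T y‖ ^ 2) y := funext this
      rw [e, avr_sum']
      apply sum_congr rfl
      intro T _
      rw [avr_AV Ps hPs]; rfl
    rw [e2] at e1
    exact e1
  have hright : ∑ S ∈ Ps.powerset, avr (fun y => (AV (Ps \ S)
      (fun y => ‖∑ T ∈ (Ps.powersetCard i).filter (fun T => S ⊆ T), g T y‖ ^ 2) y) ^ r) ≤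
      Λ ^ (r - 1) * (2 ^ i * n2 G) := by
    refine (sum_le_sum fun S hS => hcomp S (mem_powerset.mp hS)).trans (le_of_eq ?_)
    rw [← mul_sum]
    congr 1
    have e3 : n2 G = ∑ T ∈ Ps.powersetCard i, n2 (g T) := by
      have h3 : ∀ y, AV Ps (fun y => ‖∑ T ∈ Ps.powersetCard i, g T y‖ ^ 2) y =
          ∑ T ∈ Ps.powersetCard i, AV Ps (fun y => ‖g T y‖ ^ 2) y := fun y =>
        adp_pyth Ps hPs g hg _ (fun T hT => (mem_powersetCard.mp hT).1) y
      unfold n2
      rw [hG, ← avr_AV Ps hPs]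
      have e : AV Ps (fun y => ‖∑ T ∈ Ps.powersetCard i, g T y‖ ^ 2) = fun y =>
          ∑ T ∈ Ps.powersetCard i, AV Ps (fun y => ‖g T y‖ ^ 2) y := funext h3
      rw [e, avr_sum']
      apply sum_congr rfl
      intro T _
      rw [avr_AV Ps hPs]
    rw [e3, mul_sum]
    have e4 : ∀ S ∈ Ps.powerset, (∑ T ∈ (Ps.powersetCard i).filter (fun T => S ⊆ T), n2 (g T)) =
        ∑ T ∈ Ps.powersetCard i, if S ⊆ T then n2 (g T) else 0 := fun S _ => by rw [sum_filter]
    rw [sum_congr rfl e4, sum_comm]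
    apply sum_congr rfl
    intro T hT
    obtain ⟨hTP, hTi⟩ := mem_powersetCard.mp hT
    rw [← sum_filter]
    have : Ps.powerset.filter (fun S => S ⊆ T) = T.powerset := by
      ext S
      simp only [mem_filter, mem_powerset]
      exact ⟨fun h => h.2, fun h => ⟨h.trans hTP, h⟩⟩
    rw [this, sum_const, card_powerset, hTi, nsmul_eq_mul]
    push_cast
    rfl
  have hfin : (ρ ^ i) ^ (2 * r) * nq (2 * r) G ≤ Λ ^ (r - 1) * (2 ^ i * n2 G) := hmain.trans hright
  have hρp : (64 : ℝ) ^ (r * (r * i)) * (ρ ^ i) ^ (2 * r) = 1 := by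
    rw [hρ, ← pow_mul, ← pow_mul, show (64 : ℝ) = 8 ^ 2 by norm_num, ← pow_mul,
      show r * (i * (2 * r)) = 2 * (r * (r * i)) by ring, ← mul_pow]
    norm_num
  calc nq (2 * r) G = 64 ^ (r * (r * i)) * (ρ ^ i) ^ (2 * r) * nq (2 * r) G := by rw [hρp, one_mul]
    _ = 64 ^ (r * (r * i)) * ((ρ ^ i) ^ (2 * r) * nq (2 * r) G) := by ring
    _ ≤ _ := mul_le_mul_of_nonneg_left hfin (by positivity)

end Pool.Agent.EQD
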