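import Pool.Agent.Lib.EQD.Defs

/-!
# Module InvF: the inverse theorem for `P, P + R_0, ..., P + R_k`

`genA (k + 2)` with the degrees `(d 0, ..., d k, D)`.
Slots `j.succ`: shift `x` by `-P t` (`av_shift`): `av (f0 * AA H p f) = tv av (f 0 x * ∏_j f j.succ (x + R j t) * f0 (x - P t))`: `genA` for the polynomials
`(R 0, ..., R k, -P)` with `f0 := f 0`.
Slot `0`: shift `x` by `-(P + R 0) t`: base function `f 1`, polynomials `-R 0` (function `f 0`), `R j - R 0` (`j ≥ 1`, functions `f j.succ`), `-P - R 0`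
(function `f0`): the degrees are again `(d 0, ..., d k, D)`, so `Star C R H (d 0) (f 0)`.
`Fam` asks `|coeff i| H ^ i ≤ R H ^ d`: true if `R ≥ R₀ := ∑ of all |coefficients|`. For `R < R₀` use `R ^ s ≥ R₀` with `2 ^ s ≥ R₀`
(`1 / R ^ s ≤ 1 / R`) and enlarge `C` (`Star C (R ^ s) = Star (C s) R` up to `pow_mul`; `Star` is monotone: a larger `C` weakens it).
-/

set_option autoImplicit false

open Finset Polynomial

namespace Pool.Agent.EQD

open Pool.Agent.HLT Pool.Agent.NLT Pool.Agent.NLG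

/-- `Star` is weaker for a larger exponent. -/
theorem star_mono {M : ℕ} [NeZero M] {C C' R H e : ℕ} (hC : C ≤ C') (hR : 1 ≤ R) {f : ZMod M → ℂ} (h : Star C R H e f) :
    Star C' R H e f := by
  obtain ⟨q, h1, h2, h3⟩ := h
  have hp : R ^ C ≤ R ^ C' := Nat.pow_le_pow_right hR hC
  refine ⟨q, h1, h2.trans hp, fun J hJ hJ2 => ?_⟩
  refine le_trans ?_ (h3 J hJ ((Nat.mul_le_mul_left J hp).trans hJ2))
  have hR0 : (0 : ℝ) < (R : ℝ) ^ C := by
    have : (0 : ℝ) < R := by exact_mod_cast hR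
    positivity
  exact one_div_le_one_div_of_le hR0 (by exact_mod_cast hp)

namespace InvFAux

/-- `genA` for a fixed family of integer polynomials. -/
lemma core (m : ℕ) (d : Fin m → ℕ) (hd : StrictMono d) (h1 : ∀ j, 1 ≤ d j) (Q : Fin m → ℤ[X])
    (hQ : ∀ j, (Q j).natDegree = d j) :
    ∃ C : ℕ, ∀ (M : ℕ) [NeZero M] (H R : ℕ), 2 ≤ R → R ^ C ≤ H →
      ∀ g0 : ZMod M → ℂ, Bd g0 → ∀ g : Fin m → ZMod M → ℂ, (∀ j, Bd (g j)) →
      1 / (R : ℝ) ≤ ‖TP H (fun _ => 1) Q g0 g‖ → ∀ j, Star C R H (d j) (g j) := by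
  obtain ⟨C1, hC1⟩ := genA m d hd h1
  obtain ⟨B, hB⟩ : ∃ B : ℕ, B = ∑ j, ∑ i ∈ range (d j + 1), ((Q j).coeff i).natAbs := ⟨_, rfl⟩
  have hco : ∀ j i, ((Q j).coeff i).natAbs ≤ B := by
    intro j i
    rcases Nat.lt_or_ge (d j) i with h | h
    · rw [Polynomial.coeff_eq_zero_of_natDegree_lt (by rw [hQ j]; exact h)]
      simp
    · rw [hB]
      refine le_trans ?_ (Finset.single_le_sum (f := fun j => ∑ i ∈ range (d j + 1),
        ((Q j).coeff i).natAbs) (fun _ _ => Nat.zero_le _) (Finset.mem_univ j))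
      exact Finset.single_le_sum (f := fun i => ((Q j).coeff i).natAbs)
        (fun _ _ => Nat.zero_le _) (Finset.mem_range.mpr (by omega))
  refine ⟨(B + 1) * C1, ?_⟩
  intro M _ H R hR hRH g0 hg0 g hg hav
  have hR1 : 1 ≤ R := by omega
  have hs : 2 ≤ R ^ (B + 1) := by
    calc 2 = 2 ^ 1 := by norm_num
      _ ≤ R ^ 1 := Nat.pow_le_pow_left hR 1
      _ ≤ R ^ (B + 1) := Nat.pow_le_pow_right hR1 (by omega)
  have hBR : B ≤ R ^ (B + 1) := by
    calc B ≤ 2 ^ B := Nat.lt_two_pow_self.le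
      _ ≤ R ^ B := Nat.pow_le_pow_left hR B
      _ ≤ R ^ (B + 1) := Nat.pow_le_pow_right hR1 (by omega)
  have hH1 : 1 ≤ H := (Nat.one_le_pow _ _ hR1).trans hRH
  have hfam : Fam m d (R ^ (B + 1)) H Q := by
    refine ⟨hQ, fun j i _ => ?_⟩
    rcases Nat.lt_or_ge (d j) i with h | h
    · rw [Polynomial.coeff_eq_zero_of_natDegree_lt (by rw [hQ j]; exact h)]
      simp
    · exact Nat.mul_le_mul ((hco j i).trans hBR) (Nat.pow_le_pow_right hH1 h)
  have hRR : (R : ℝ) ≤ ((R ^ (B + 1) : ℕ) : ℝ) := by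
    have : R ≤ R ^ (B + 1) := Nat.le_self_pow (by omega) R
    exact_mod_cast this
  have hRpos : (0 : ℝ) < R := by exact_mod_cast hR1
  have h2 := hC1 M H (R ^ (B + 1)) hs (by rw [← pow_mul]; exact hRH) Q hfam g0 hg0 g hg
    ((one_div_le_one_div_of_le hRpos hRR).trans hav)
  intro j
  obtain ⟨q, hq1, hq2, hq3⟩ := h2 j
  refine ⟨q, hq1, by rw [pow_mul]; exact hq2, fun J hJ hJ2 => ?_⟩
  have h3 := hq3 J hJ (by rw [← pow_mul]; exact hJ2)
  have e : ((R ^ (B + 1) : ℕ) : ℝ) ^ C1 = (R : ℝ) ^ ((B + 1) * C1) := by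
    rw [pow_mul]
    push_cast
    ring
  rw [e] at h3
  exact h3

lemma snoc_mono {k : ℕ} (d : Fin (k + 1) → ℕ) (hd : StrictMono d) (D : ℕ) (hD : ∀ j, d j < D) :
    StrictMono (Fin.snoc d D : Fin (k + 2) → ℕ) := by
  intro a b hab
  induction b using Fin.lastCases with
  | last =>
    induction a using Fin.lastCases with
    | last => exact absurd hab (lt_irrefl _)
    | cast a => simpa using hD a
  | cast b =>
    induction a using Fin.lastCases with
    | last => exact absurd hab (not_lt.mpr (Fin.le_last _))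
    | cast a =>
      simp only [Fin.snoc_castSucc]
      exact hd (by simpa using hab)

lemma pz_add {M : ℕ} (P Q : ℤ[X]) (t : ℕ) : pz M (P + Q) t = pz M P t + pz M Q t := by
  unfold pz
  rw [Polynomial.eval_add]
  push_cast
  rfl

lemma pz_neg {M : ℕ} (P : ℤ[X]) (t : ℕ) : pz M (-P) t = -pz M P t := by
  unfold pz
  rw [Polynomial.eval_neg]
  push_cast
  rfl

lemma pz_sub {M : ℕ} (P Q : ℤ[X]) (t : ℕ) : pz M (P - Q) t = pz M P t - pz M Q t := by
  rw [sub_eq_add_neg, pz_add, pz_neg, ← sub_eq_add_neg]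

variable {M : ℕ} [NeZero M]

/-- the average as an average over `t` of averages over `x` -/
lemma av_AA {n : ℕ} (H : ℕ) (P : Fin n → ℤ[X]) (f0 : ZMod M → ℂ) (f : Fin n → ZMod M → ℂ)
    (h : ℕ → ZMod M) :
    av (fun x => f0 x * AA H P f x) =
      tv H (fun t => av (fun x => f0 (x - h t) * ∏ i, f i (x - h t + pz M (P i) t))) := by
  have e1 : (fun x => f0 x * AA H P f x) =
      fun x => tv H (fun t => f0 x * ∏ i, f i (x + pz M (P i) t)) := by
    funext x
    rw [tv_mul_left]
    rfl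
  rw [e1, ← tv_av_comm]
  congr 1
  funext t
  rw [← av_shift_sub (fun x => f0 x * ∏ i, f i (x + pz M (P i) t)) (h t)]

lemma TP_eq {m : ℕ} (H : ℕ) (P : Fin m → ℤ[X]) (f0 : ZMod M → ℂ) (f : Fin m → ZMod M → ℂ) :
    TP H (fun _ => 1) P f0 f = tv H (fun t => av (fun x => f0 x * ∏ j, f j (x + pz M (P j) t))) := by
  unfold TP pz
  congr 1
  funext t
  rw [one_mul]

/-- slots `j.succ` -/
lemma slot_succ (k H : ℕ) (P : ℤ[X]) (R : Fin (k + 1) → ℤ[X]) (f0 : ZMod M → ℂ)
    (f : Fin (k + 2) → ZMod M → ℂ) :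
    av (fun x => f0 x * AA H (Fin.cons P (fun j => P + R j) : Fin (k + 2) → ℤ[X]) f x) =
      TP H (fun _ => 1) (Fin.snoc R (-P) : Fin (k + 2) → ℤ[X]) (f 0)
        (Fin.snoc (fun j : Fin (k + 1) => f j.succ) f0 : Fin (k + 2) → ZMod M → ℂ) := by
  rw [av_AA H _ f0 f (fun t => pz M P t), TP_eq]
  congr 1
  funext t
  congr 1
  funext x
  have hr : ∏ j : Fin (k + 2), (Fin.snoc (fun j : Fin (k + 1) => f j.succ) f0 :
      Fin (k + 2) → ZMod M → ℂ) j (x + pz M ((Fin.snoc R (-P) : Fin (k + 2) → ℤ[X]) j) t) =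
      (∏ j : Fin (k + 1), f j.succ (x + pz M (R j) t)) * f0 (x + pz M (-P) t) := by
    rw [Fin.prod_univ_castSucc]
    simp only [Fin.snoc_castSucc, Fin.snoc_last]
  rw [hr, Fin.prod_univ_succ]
  simp only [Fin.cons_zero, Fin.cons_succ, pz_add, pz_neg]
  rw [sub_add_cancel, ← sub_eq_add_neg]
  have : ∀ j : Fin (k + 1), x - pz M P t + (pz M P t + pz M (R j) t) = x + pz M (R j) t := by
    intro j
    ring
  simp only [this]
  ring

/-- slot `0` -/
lemma slot_zero (k H : ℕ) (P : ℤ[X]) (R : Fin (k + 1) → ℤ[X]) (f0 : ZMod M → ℂ)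
    (f : Fin (k + 2) → ZMod M → ℂ) :
    av (fun x => f0 x * AA H (Fin.cons P (fun j => P + R j) : Fin (k + 2) → ℤ[X]) f x) =
      TP H (fun _ => 1) (Fin.snoc (Fin.cons (-R 0) (fun j : Fin k => R j.succ - R 0) :
          Fin (k + 1) → ℤ[X]) (-P - R 0) : Fin (k + 2) → ℤ[X]) (f 1)
        (Fin.snoc (Fin.cons (f 0) (fun j : Fin k => f j.succ.succ) : Fin (k + 1) → ZMod M → ℂ) f0 :
          Fin (k + 2) → ZMod M → ℂ) := by
  rw [av_AA H _ f0 f (fun t => pz M (P + R 0) t), TP_eq]
  congr 1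
  funext t
  congr 1
  funext x
  rw [Fin.prod_univ_succ, Fin.prod_univ_succ, Fin.prod_univ_castSucc, Fin.prod_univ_succ]
  simp only [Fin.cons_zero, Fin.cons_succ, Fin.snoc_castSucc, Fin.snoc_last, pz_add, pz_neg,
    pz_sub]
  simp only [Fin.succ_zero_eq_one]
  have a1 : x - (pz M P t + pz M (R 0) t) + pz M P t = x + -pz M (R 0) t := by ring
  have a2 : x - (pz M P t + pz M (R 0) t) + (pz M P t + pz M (R 0) t) = x := by ring
  have a3 : x - (pz M P t + pz M (R 0) t) = x + (-pz M P t - pz M (R 0) t) := by ring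
  have a4 : ∀ j : Fin k, x - (pz M P t + pz M (R 0) t) + (pz M P t + pz M (R j.succ) t) =
      x + (pz M (R j.succ) t - pz M (R 0) t) := by
    intro j
    ring
  simp only [a4]
  rw [a1, a2, a3]
  ring

end InvFAux

open InvFAux in
theorem invP_equal (k : ℕ) (P : ℤ[X]) (R : Fin (k + 1) → ℤ[X]) (d : Fin (k + 1) → ℕ) (hd : StrictMono d) (h1 : ∀ j, 1 ≤ d j)
    (hR : ∀ j, (R j).natDegree = d j) (hP : ∀ j, d j < P.natDegree) :
    InvP (Fin.cons P (fun j => P + R j) : Fin (k + 2) → ℤ[X]) (Fin.cons (d 0) d : Fin (k + 2) → ℕ) := by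
  have hmono := snoc_mono d hd P.natDegree hP
  have hpos : ∀ j, 1 ≤ (Fin.snoc d P.natDegree : Fin (k + 2) → ℕ) j := by
    intro j
    induction j using Fin.lastCases with
    | last =>
      rw [Fin.snoc_last]
      have := h1 0
      have := hP 0
      omega
    | cast j =>
      rw [Fin.snoc_castSucc]
      exact h1 j
  have hneg : ∀ S : ℤ[X], S.natDegree < P.natDegree → (-P - S).natDegree = P.natDegree := by
    intro S hS
    rw [← Polynomial.natDegree_neg P] at hS ⊢
    exact Polynomial.natDegree_sub_eq_left_of_natDegree_lt hS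
  obtain ⟨C1, hC1⟩ := core (k + 2) (Fin.snoc d P.natDegree : Fin (k + 2) → ℕ) hmono hpos
    (Fin.snoc R (-P) : Fin (k + 2) → ℤ[X]) (by
      intro j
      induction j using Fin.lastCases with
      | last =>
        rw [Fin.snoc_last, Fin.snoc_last, Polynomial.natDegree_neg]
      | cast j =>
        rw [Fin.snoc_castSucc, Fin.snoc_castSucc]
        exact hR j)
  obtain ⟨C2, hC2⟩ := core (k + 2) (Fin.snoc d P.natDegree : Fin (k + 2) → ℕ) hmono hpos
    (Fin.snoc (Fin.cons (-R 0) (fun j : Fin k => R j.succ - R 0) :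
          Fin (k + 1) → ℤ[X]) (-P - R 0) : Fin (k + 2) → ℤ[X]) (by
      intro j
      induction j using Fin.lastCases with
      | last =>
        rw [Fin.snoc_last, Fin.snoc_last]
        exact hneg (R 0) (by rw [hR 0]; exact hP 0)
      | cast j =>
        rw [Fin.snoc_castSucc, Fin.snoc_castSucc]
        induction j using Fin.cases with
        | zero =>
          rw [Fin.cons_zero, Polynomial.natDegree_neg]
          exact hR 0
        | succ j =>
          rw [Fin.cons_succ, ← hR j.succ]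
          refine Polynomial.natDegree_sub_eq_left_of_natDegree_lt ?_
          rw [hR 0, hR j.succ]
          exact hd (Fin.succ_pos j))
  refine ⟨max C1 C2, ?_⟩
  intro M _ H T hT hTH f0 hf0 f hf hav
  have hT1 : 1 ≤ T := by omega
  have p1 : T ^ C1 ≤ H := (Nat.pow_le_pow_right hT1 (le_max_left _ _)).trans hTH
  have p2 : T ^ C2 ≤ H := (Nat.pow_le_pow_right hT1 (le_max_right _ _)).trans hTH
  intro i
  induction i using Fin.cases with
  | zero =>
    rw [slot_zero] at hav
    have h2 := hC2 M H T hT p2 (f 1) (hf 1) _ (by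
      intro j
      induction j using Fin.lastCases with
      | last =>
        rw [Fin.snoc_last]
        exact hf0
      | cast j =>
        rw [Fin.snoc_castSucc]
        induction j using Fin.cases with
        | zero =>
          rw [Fin.cons_zero]
          exact hf 0
        | succ j =>
          rw [Fin.cons_succ]
          exact hf _) hav (Fin.castSucc 0)
    rw [Fin.snoc_castSucc, Fin.snoc_castSucc, Fin.cons_zero] at h2
    rw [Fin.cons_zero]
    exact star_mono (le_max_right _ _) hT1 h2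
  | succ i =>
    rw [slot_succ] at hav
    have h2 := hC1 M H T hT p1 (f 0) (hf 0) _ (by
      intro j
      induction j using Fin.lastCases with
      | last =>
        rw [Fin.snoc_last]
        exact hf0
      | cast j =>
        rw [Fin.snoc_castSucc]
        exact hf _) hav (Fin.castSucc i)
    rw [Fin.snoc_castSucc, Fin.snoc_castSucc] at h2
    rw [Fin.cons_succ]
    exact star_mono (le_max_left _ _) hT1 h2

theorem eqDeg_equal (k : ℕ) (P : ℤ[X]) (R : Fin (k + 1) → ℤ[X]) (d : Fin (k + 1) → ℕ) (hd : StrictMono d) (h1 : ∀ j, 1 ≤ d j)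
    (hR : ∀ j, (R j).natDegree = d j) (hP : ∀ j, d j < P.natDegree) :
    EqDeg P.natDegree (Fin.cons P (fun j => P + R j) : Fin (k + 2) → ℤ[X]) (Fin.cons (d 0) d : Fin (k + 2) → ℕ) 0 where
  two := by
    have := h1 0
    have := hP 0
    omega
  deg := by
    intro i
    induction i using Fin.cases with
    | zero => rw [Fin.cons_zero]
    | succ i =>
      rw [Fin.cons_succ]
      exact Polynomial.natDegree_add_eq_left_of_natDegree_lt (by rw [hR i]; exact hP i)
  pos := by
    intro i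
    induction i using Fin.cases with
    | zero =>
      rw [Fin.cons_zero]
      exact h1 0
    | succ i =>
      rw [Fin.cons_succ]
      exact h1 i
  lt := by
    intro i
    induction i using Fin.cases with
    | zero =>
      rw [Fin.cons_zero]
      exact hP 0
    | succ i =>
      rw [Fin.cons_succ]
      exact hP i
  base := by
    intro i
    induction i using Fin.cases with
    | zero =>
      rw [sub_self, Polynomial.natDegree_zero]
      exact Nat.zero_le _
    | succ i =>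
      rw [Fin.cons_succ, Fin.cons_zero, Fin.cons_succ, add_sub_cancel_left]
      exact (hR i).le
  inv := invP_equal k P R d hd h1 hR hP

end Pool.Agent.EQD
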