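import Pool.Agent.Lib.EQD.Dyad

/-!
# EQD.Jump: the jump inequality for dyadic averages

PROOF of `jumps`. Going down from level `L` to level `0` keep a reference value: `ref L x = dy L f x`,
`ref k x = if η < ‖dy k f x - ref (k+1) x‖ then dy k f x else ref (k+1) x` for `k < L`. Let `jp k` (`k < L`) be the set of the `x` with
`η < ‖dy k f x - ref (k+1) x‖` (the jump set), and `cnt k x` the number of the `k' ∈ [k, L)` with `x ∈ jp k'`.
(i) By downward induction `ref k`, `cnt k` are constant on the blocks of level `k`.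
(ii) Potential `Φ k = η² avr cnt k + n2 (dy k f - ref k)`. CLAIM `Φ k ≤ Φ (k+1) + n2 (dy k f - dy (k+1) f)` for `k < L`: pointwise
`η² cnt k x + ‖dy k f x - ref k x‖² ≤ η² cnt (k+1) x + ‖dy k f x - ref (k+1) x‖²` (if `x` jumps, the left side is `η² (cnt (k+1) + 1) + 0`
and the last norm is `> η`; if not, both sides are equal), and `n2 (dy k f - ref (k+1)) = n2 (dy (k+1) f - ref (k+1)) + n2 (dy k f - dy (k+1) f)`, because
`dy k f - dy (k+1) f` has mean zero on every block of level `k+1` and `dy (k+1) f - ref (k+1)` is constant there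
(`av_dy_mul`, `dy_dy`). As `Φ L = 0`: `η² ∑_{k<L} card (jp k) / M = η² avr (cnt 0) ≤ Φ 0 ≤ ∑_{k<L} n2 (dy k f - dy (k+1) f) ≤ n2 f` (`n2_sum`).
(iii) If `x ∉ jp k` for `a ≤ k < b` then `ref k x = ref b x` for `a ≤ k ≤ b`, and `‖dy k f x - ref b x‖ ≤ η` for `a ≤ k ≤ b` (for `k < b` no jump;
for `k = b`: if `b = L` it is `0`; if `b < L`: either `x ∈ jp b` and `ref b x = dy b f x`, or no jump at `b` and the norm is `≤ η`). So the
difference of two such values is `≤ 2 η`.
-/

set_option autoImplicit false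

open Finset Polynomial

namespace Pool.Agent.EQD.Lo

open Pool.Agent.HLT Pool.Agent.NLT Pool.Agent.NLG

variable {M : ℕ} [NeZero M]

namespace JumpAux

/-- Reference value after `j` steps down from the level `L`. -/
noncomputable def rf (f : ZMod M → ℂ) (η : ℝ) (L : ℕ) : ℕ → ZMod M → ℂ
  | 0 => fun x => dy L f x
  | j + 1 => fun x =>
      if η < ‖dy (L - (j + 1)) f x - rf f η L j x‖ then dy (L - (j + 1)) f x else rf f η L j x

/-- Reference value at level `k`. -/
noncomputable def ref (f : ZMod M → ℂ) (η : ℝ) (L k : ℕ) (x : ZMod M) : ℂ := rf f η L (L - k) x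

/-- Jump set. -/
noncomputable def jp (f : ZMod M → ℂ) (η : ℝ) (L k : ℕ) : Finset (ZMod M) :=
  univ.filter (fun x => η < ‖dy k f x - ref f η L (k + 1) x‖)

lemma ref_top (f : ZMod M → ℂ) (η : ℝ) (L : ℕ) (x : ZMod M) : ref f η L L x = dy L f x := by
  unfold ref
  rw [Nat.sub_self]
  rfl

lemma ref_succ (f : ZMod M → ℂ) (η : ℝ) {L k : ℕ} (hk : k < L) (x : ZMod M) :
    ref f η L k x = if η < ‖dy k f x - ref f η L (k + 1) x‖ then dy k f x else ref f η L (k + 1) x := by
  unfold ref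
  have h1 : L - k = (L - (k + 1)) + 1 := by omega
  have h2 : L - ((L - (k + 1)) + 1) = k := by omega
  rw [h1]
  show (if η < ‖dy (L - ((L - (k + 1)) + 1)) f x - rf f η L (L - (k + 1)) x‖ then
    dy (L - ((L - (k + 1)) + 1)) f x else rf f η L (L - (k + 1)) x) = _
  rw [h2]

lemma mem_jp (f : ZMod M → ℂ) (η : ℝ) (L k : ℕ) (x : ZMod M) :
    x ∈ jp f η L k ↔ η < ‖dy k f x - ref f η L (k + 1) x‖ := by
  simp [jp]

lemma div_pow_succ {a b k : ℕ} (h : a / 2 ^ k = b / 2 ^ k) : a / 2 ^ (k + 1) = b / 2 ^ (k + 1) := by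
  rw [pow_succ, ← Nat.div_div_eq_div_mul, ← Nat.div_div_eq_div_mul, h]

lemma ref_const (f : ZMod M → ℂ) (η : ℝ) (L j k : ℕ) (hj : k + j = L) (x y : ZMod M)
    (h : x.val / 2 ^ k = y.val / 2 ^ k) : ref f η L k x = ref f η L k y := by
  induction j generalizing k with
  | zero =>
    have : k = L := by omega
    subst this
    rw [ref_top, ref_top]
    exact dy_const k f x y h
  | succ j ih =>
    have hk : k < L := by omega
    have h1 := ih (k + 1) (by omega) (div_pow_succ h)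
    rw [ref_succ f η hk x, ref_succ f η hk y, h1, dy_const k f x y h]

lemma dy_fix {L l : ℕ} (hL : 2 ^ L ∣ M) (hl : l ≤ L) (g : ZMod M → ℂ)
    (hg : ∀ x y : ZMod M, x.val / 2 ^ l = y.val / 2 ^ l → g x = g y) (x : ZMod M) : dy l g x = g x := by
  have hd : 2 ^ l ∣ M := (pow_dvd_pow 2 hl).trans hL
  obtain ⟨c, hc⟩ := hd
  have hp : 0 < 2 ^ l := by positivity
  have hx : x.val < M := ZMod.val_lt x
  have hq : x.val / 2 ^ l < c := by
    rw [Nat.div_lt_iff_lt_mul hp, mul_comm, ← hc]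
    exact hx
  have key : ∀ i ∈ range (2 ^ l), g (((x.val / 2 ^ l) * 2 ^ l + i : ℕ) : ZMod M) = g x := by
    intro i hi
    have hi' := mem_range.1 hi
    apply hg
    have hlt : (x.val / 2 ^ l) * 2 ^ l + i < M := by
      calc (x.val / 2 ^ l) * 2 ^ l + i < (x.val / 2 ^ l) * 2 ^ l + 2 ^ l := by omega
        _ = (x.val / 2 ^ l + 1) * 2 ^ l := by ring
        _ ≤ c * 2 ^ l := Nat.mul_le_mul_right _ hq
        _ = M := by rw [hc, mul_comm]
    rw [ZMod.val_natCast_of_lt hlt, mul_comm, Nat.mul_add_div hp, Nat.div_eq_of_lt hi', add_zero]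
  unfold dy tv
  rw [sum_congr rfl key, sum_const, card_range, nsmul_eq_mul]
  have : ((2 ^ l : ℕ) : ℂ) ≠ 0 := by exact_mod_cast hp.ne'
  field_simp

lemma dy_sub (l : ℕ) (g h : ZMod M → ℂ) (x : ZMod M) :
    dy l (fun y => g y - h y) x = dy l g x - dy l h x := by
  unfold dy tv
  rw [sum_sub_distrib, sub_div]

lemma pyth {L k : ℕ} (hL : 2 ^ L ∣ M) (hk : k < L) (f r : ZMod M → ℂ)
    (hr : ∀ x y : ZMod M, x.val / 2 ^ (k + 1) = y.val / 2 ^ (k + 1) → r x = r y) :
    n2 (fun x => dy k f x - r x) = n2 (fun x => dy (k + 1) f x - r x) + n2 (fun x => dy k f x - dy (k + 1) f x) := by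
  have h1 : ∀ x, dy k (fun y => dy k f y - r y) x = dy k f x - r x := by
    intro x
    apply dy_fix hL hk.le
    intro y z hyz
    rw [dy_const k f y z hyz, hr y z (div_pow_succ hyz)]
  have h2 : ∀ x, dy (k + 1) (fun y => dy k f y - r y) x = dy (k + 1) f x - r x := by
    intro x
    rw [dy_sub (k + 1) (dy k f) r, dy_dy hL (Nat.le_succ k) hk, dy_fix hL hk r hr]
  have h3 := n2_pyth hL (Nat.le_succ k) hk (fun y => dy k f y - r y)
  have e1 : dy k (fun y => dy k f y - r y) = fun x => dy k f x - r x := funext h1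
  have e2 : dy (k + 1) (fun y => dy k f y - r y) = fun x => dy (k + 1) f x - r x := funext h2
  rw [e1, e2] at h3
  rw [h3]
  congr 2
  funext x
  ring

lemma step {L k : ℕ} (hk : k < L) (f : ZMod M → ℂ) (η : ℝ) (hη : 0 < η) :
    η ^ 2 * (((jp f η L k).card : ℝ) / M) + n2 (fun x => dy k f x - ref f η L k x) ≤
      n2 (fun x => dy k f x - ref f η L (k + 1) x) := by
  have hM : (0 : ℝ) < M := by exact_mod_cast NeZero.pos M
  have hc : ((jp f η L k).card : ℝ) = ∑ x : ZMod M, if η < ‖dy k f x - ref f η L (k + 1) x‖ then (1 : ℝ) else 0 := by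
    unfold jp
    rw [Finset.card_filter]
    push_cast
    rfl
  unfold n2 avr
  rw [hc, ← mul_div_assoc, ← add_div, mul_sum, ← sum_add_distrib]
  apply div_le_div_of_nonneg_right _ hM.le
  apply sum_le_sum
  intro x _
  show (η ^ 2 * if η < ‖dy k f x - ref f η L (k + 1) x‖ then (1 : ℝ) else 0) + ‖dy k f x - ref f η L k x‖ ^ 2 ≤
    ‖dy k f x - ref f η L (k + 1) x‖ ^ 2
  rw [ref_succ f η hk x]
  by_cases h : η < ‖dy k f x - ref f η L (k + 1) x‖
  · simp only [h, if_true, sub_self, norm_zero]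
    nlinarith
  · simp only [h, if_false]
    simp

lemma n2_nonneg' (f : ZMod M → ℂ) : 0 ≤ n2 f := by
  unfold n2 avr
  positivity

lemma potential {L : ℕ} (hL : 2 ^ L ∣ M) (f : ZMod M → ℂ) (η : ℝ) (hη : 0 < η) (k : ℕ) (hk : k ≤ L) :
    η ^ 2 * (∑ i ∈ Ico k L, ((jp f η L i).card : ℝ) / M) + n2 (fun x => dy k f x - ref f η L k x) ≤
      ∑ i ∈ Ico k L, n2 (fun x => dy i f x - dy (i + 1) f x) := by
  induction hk using Nat.decreasingInduction with
  | self =>
    simp only [Ico_self, sum_empty, mul_zero, zero_add]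
    have : (fun x => dy L f x - ref f η L L x) = fun _ : ZMod M => (0 : ℂ) := by
      funext x
      rw [ref_top, sub_self]
    rw [this]
    simp [n2, avr]
  | of_succ k hk ih =>
    rw [sum_eq_sum_Ico_succ_bot hk, sum_eq_sum_Ico_succ_bot hk]
    have h1 := step hk f η hη
    have h2 := pyth hL hk f (ref f η L (k + 1))
      (fun x y h => ref_const f η L (L - (k + 1)) (k + 1) (by omega) x y h)
    rw [_root_.mul_add]
    linarith

lemma near (f : ZMod M → ℂ) (η : ℝ) (hη : 0 < η) {L k : ℕ} (hk : k ≤ L) (x : ZMod M) :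
    ‖dy k f x - ref f η L k x‖ ≤ η := by
  rcases Nat.lt_or_ge k L with h | h
  · rw [ref_succ f η h x]
    by_cases h' : η < ‖dy k f x - ref f η L (k + 1) x‖
    · simp only [h', if_true, sub_self, norm_zero]
      exact hη.le
    · simp only [h', if_false]
      exact not_lt.1 h'
  · have : k = L := le_antisymm hk h
    subst this
    rw [ref_top, sub_self, norm_zero]
    exact hη.le

lemma ref_eq (f : ZMod M → ℂ) (η : ℝ) {L a b : ℕ} (hb : b ≤ L) (x : ZMod M)
    (h : ∀ k, a ≤ k → k < b → x ∉ jp f η L k) (k : ℕ) (hak : a ≤ k) (hkb : k ≤ b) :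
    ref f η L k x = ref f η L b x := by
  induction hkb using Nat.decreasingInduction with
  | self => rfl
  | of_succ k hk ih =>
    have h1 := h k hak hk
    rw [mem_jp] at h1
    rw [ref_succ f η (lt_of_lt_of_le hk hb) x, if_neg h1]
    exact ih (by omega)

end JumpAux

open JumpAux in
theorem jumps {L : ℕ} (hL : 2 ^ L ∣ M) (f : ZMod M → ℂ) (η : ℝ) (hη : 0 < η) :
    ∃ jp : ℕ → Finset (ZMod M), ∑ k ∈ range L, ((jp k).card : ℝ) / M ≤ n2 f / η ^ 2 ∧
      ∀ (x : ZMod M) (a b : ℕ), a ≤ b → b ≤ L → (∀ k, a ≤ k → k < b → x ∉ jp k) →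
        ∀ k k', a ≤ k → k ≤ b → a ≤ k' → k' ≤ b → ‖dy k f x - dy k' f x‖ ≤ 2 * η := by
  refine ⟨JumpAux.jp f η L, ?_, ?_⟩
  · rw [le_div_iff₀ (by positivity), mul_comm, range_eq_Ico]
    have h1 := potential hL f η hη 0 (Nat.zero_le L)
    have h2 := n2_sum hL f
    rw [range_eq_Ico] at h2
    have h3 := n2_nonneg' (dy L f)
    have h4 := n2_nonneg' (fun x => dy 0 f x - ref f η L 0 x)
    linarith
  · intro x a b hab hb h k k' h1 h2 h3 h4
    have e1 := near f η hη (h2.trans hb) x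
    have e2 := near f η hη (h4.trans hb) x
    rw [ref_eq f η hb x h k h1 h2] at e1
    rw [ref_eq f η hb x h k' h3 h4] at e2
    calc ‖dy k f x - dy k' f x‖ = ‖(dy k f x - ref f η L b x) - (dy k' f x - ref f η L b x)‖ := by
          congr 1
          ring
      _ ≤ ‖dy k f x - ref f η L b x‖ + ‖dy k' f x - ref f η L b x‖ := norm_sub_le _ _
      _ ≤ 2 * η := by linarith

end Pool.Agent.EQD.Lo
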