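import Pool.Agent.Lib.EQD.Jump

/-!
# EQD.JumpQ: the jump inequality for box averages along progressions of difference `Q`

PROOF of `events_one` (difference `1`, `2 ^ L ∣ M`). Let `k_j = Nat.log 2 (K j)` (`2^k_j ≤ K j < 2^(k_j+1)`, `k_j < L`, nondecreasing in `j`),
`jp` from `jumps`. For `a < j ≤ b` let `ev j` be the set of the `x` such that `x ∈ jp k` for some `k` with `k_(j-1) ≤ k < k_j`, or
`‖Eb 1 (K j) f x - dy k_j f x‖ > η`, or the same for `j - 1`; `ev j = ∅` for other `j`.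
Count: the intervals `[k_(j-1), k_j)` are disjoint: first kind `≤ n2 f / η²`; second and third kind: by Chebyshev
`card {‖T_j f‖ > η} / M ≤ n2 (T_j f) / η²` and `cmp_sum`: `≤ 2 * 2400 n2 f / η²`; `n2 f ≤ 1`. Total `≤ 5000 / η²`.
Property: let `i ≤ j` and `x ∉ ev k` for `i < k ≤ j`. If `i = j` trivial. Otherwise no jump at the levels `k_i ≤ k < k_j`, so
`‖dy k_j f x - dy k_i f x‖ ≤ 2 η`; and `‖Eb 1 (K j) f x - dy k_j f x‖ ≤ η` (as `x ∉ ev j`), `‖Eb 1 (K i) f x - dy k_i f x‖ ≤ η` (as `x ∉ ev (i+1)`, third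
kind). Sum `≤ 4 η`.

PROOF of `events`. `M = Q M'`, `2 ^ L ∣ M'`. For `s < Q` let `F_s : ZMod M' → ℂ`, `F_s z = f ((Q z.val + s : ℕ))`. The map
`(s, z) ↦ Q z.val + s` is a bijection of `{0..Q-1} × ZMod M'` onto `ZMod M`, and `Eb Q K f (Q z.val + s) = Eb 1 K F_s z` (in `ZMod M`:
`Q ((z + i).val) = Q (z.val + i)` because `z.val + i` and `(z + i).val` are congruent modulo `M'`). Let `ev j` be the union over `s` of the images of the sets of
`events_one` for `F_s`; `card (ev j) / M = (1/Q) ∑_s card (ev_s j) / M'`.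
-/

set_option autoImplicit false

open Finset Polynomial

namespace Pool.Agent.EQD.Lo

open Pool.Agent.HLT Pool.Agent.NLT Pool.Agent.NLG

variable {M : ℕ} [NeZero M]

namespace JumpQAux

lemma sum_blocks (κ : ℕ → ℕ) (g : ℕ → ℝ) (a b : ℕ) (hab : a ≤ b)
    (hm : ∀ i j, a ≤ i → i ≤ j → j ≤ b → κ i ≤ κ j) :
    ∑ j ∈ Ioc a b, ∑ k ∈ Ico (κ (j - 1)) (κ j), g k = ∑ k ∈ Ico (κ a) (κ b), g k := by
  induction b, hab using Nat.le_induction with
  | base => simp
  | succ b hab ih =>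
    have h1 : ∑ j ∈ Ioc a (b + 1), ∑ k ∈ Ico (κ (j - 1)) (κ j), g k =
        (∑ j ∈ Ioc a b, ∑ k ∈ Ico (κ (j - 1)) (κ j), g k) + ∑ k ∈ Ico (κ b) (κ (b + 1)), g k := by
      rw [Finset.sum_Ioc_succ_top (by omega)]
      simp
    rw [h1, ih fun i j h2 h3 h4 => hm i j h2 h3 (by omega),
      Finset.sum_Ico_consecutive _ (hm a b le_rfl hab (by omega)) (hm b (b + 1) hab (by omega) le_rfl)]

lemma exists_block (κ : ℕ → ℕ) (i j k : ℕ) (hij : i ≤ j) (h1 : κ i ≤ k) (h2 : k < κ j) :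
    ∃ m, i < m ∧ m ≤ j ∧ κ (m - 1) ≤ k ∧ k < κ m := by
  induction j, hij using Nat.le_induction with
  | base => omega
  | succ j hij ih =>
    by_cases h : k < κ j
    · obtain ⟨m, h3, h4, h5, h6⟩ := ih h
      exact ⟨m, h3, by omega, h5, h6⟩
    · exact ⟨j + 1, by omega, le_rfl, by simpa using Nat.le_of_not_lt h, h2⟩

/-- the points where `‖F‖` is larger than `η` -/
noncomputable def bad (η : ℝ) (F : ZMod M → ℂ) : Finset (ZMod M) := by
  classical
  exact univ.filter fun x => η < ‖F x‖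

lemma mem_bad (η : ℝ) (F : ZMod M → ℂ) (x : ZMod M) : x ∈ bad η F ↔ η < ‖F x‖ := by
  classical
  simp [bad]

lemma card_bad (η : ℝ) (hη : 0 < η) (F : ZMod M → ℂ) :
    ((bad η F).card : ℝ) / M ≤ n2 F / η ^ 2 := by
  classical
  have hM : (0 : ℝ) < M := by exact_mod_cast Nat.pos_of_ne_zero (NeZero.ne M)
  have h1 : ((bad η F).card : ℝ) * η ^ 2 ≤ ∑ x, ‖F x‖ ^ 2 := by
    calc ((bad η F).card : ℝ) * η ^ 2 = ∑ _x ∈ bad η F, η ^ 2 := by
          rw [Finset.sum_const, nsmul_eq_mul]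
      _ ≤ ∑ x ∈ bad η F, ‖F x‖ ^ 2 := by
          refine Finset.sum_le_sum fun x hx => ?_
          rw [mem_bad] at hx
          exact pow_le_pow_left₀ hη.le hx.le 2
      _ ≤ ∑ x, ‖F x‖ ^ 2 :=
          Finset.sum_le_sum_of_subset_of_nonneg (Finset.subset_univ _) fun _ _ _ => by positivity
  have h2 : n2 F = (∑ x, ‖F x‖ ^ 2) / M := rfl
  rw [h2, div_div, div_le_div_iff₀ hM (by positivity)]
  calc ((bad η F).card : ℝ) * (M * η ^ 2) = (((bad η F).card : ℝ) * η ^ 2) * M := by ring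
    _ ≤ (∑ x, ‖F x‖ ^ 2) * M := mul_le_mul_of_nonneg_right h1 hM.le

lemma n2_le_one (f : ZMod M → ℂ) (hf : Bd f) : n2 f ≤ 1 := by
  have hM : (0 : ℝ) < M := by exact_mod_cast Nat.pos_of_ne_zero (NeZero.ne M)
  have h2 : n2 f = (∑ x, ‖f x‖ ^ 2) / M := rfl
  rw [h2, div_le_one hM]
  calc ∑ x, ‖f x‖ ^ 2 ≤ ∑ _x : ZMod M, (1 : ℝ) := by
        refine Finset.sum_le_sum fun x _ => ?_
        exact pow_le_one₀ (norm_nonneg _) (hf x)
    _ = M := by simp [ZMod.card]

end JumpQAux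

open JumpQAux

theorem events_one {L : ℕ} (hL : 2 ^ L ∣ M) (f : ZMod M → ℂ) (hf : Bd f) (a b : ℕ) (K : ℕ → ℕ)
    (hK1 : ∀ j ∈ Icc a b, 1 ≤ K j) (hKL : ∀ j ∈ Icc a b, K j < 2 ^ L)
    (hm : ∀ i j, a ≤ i → i ≤ j → j ≤ b → K i ≤ K j)
    (hc : ∀ k, ((Icc a b).filter (fun j => Nat.log 2 (K j) = k)).card ≤ 4) (η : ℝ) (hη : 0 < η) :
    ∃ ev : ℕ → Finset (ZMod M), ∑ j ∈ Icc a b, ((ev j).card : ℝ) / M ≤ 5000 / η ^ 2 ∧
      ∀ (x : ZMod M) (i j : ℕ), a ≤ i → i ≤ j → j ≤ b → (∀ k, i < k → k ≤ j → x ∉ ev k) →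
        ‖Eb 1 (K j) f x - Eb 1 (K i) f x‖ ≤ 4 * η := by
  classical
  rcases Nat.lt_or_ge b a with hab | hab
  · refine ⟨fun _ => ∅, ?_, fun x i j h1 h2 h3 => by omega⟩
    rw [Finset.Icc_eq_empty (by omega), Finset.sum_empty]
    positivity
  obtain ⟨jp, hjp1, hjp2⟩ := jumps hL f η hη
  have hM : (0 : ℝ) < M := by exact_mod_cast Nat.pos_of_ne_zero (NeZero.ne M)
  set κ : ℕ → ℕ := fun j => Nat.log 2 (K j) with hκ
  have hκm : ∀ i j, a ≤ i → i ≤ j → j ≤ b → κ i ≤ κ j := fun i j h1 h2 h3 =>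
    Nat.log_mono_right (hm i j h1 h2 h3)
  have hκL : ∀ j ∈ Icc a b, κ j < L := fun j hj =>
    Nat.log_lt_of_lt_pow (by have := hK1 j hj; omega) (hKL j hj)
  set T : ℕ → ZMod M → ℂ := fun j x => Eb 1 (K j) f x - dy (κ j) f x with hT
  have hcmp : ∑ j ∈ Icc a b, n2 (T j) ≤ 2400 * n2 f := cmp_sum hL (Icc a b) K hK1 hKL hc f
  have hn2 := n2_le_one f hf
  set ev : ℕ → Finset (ZMod M) := fun j => if a < j ∧ j ≤ b then
    ((Ico (κ (j - 1)) (κ j)).biUnion jp ∪ bad η (T j)) ∪ bad η (T (j - 1)) else ∅ with hev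
  refine ⟨ev, ?_, ?_⟩
  · have h1 : ∑ j ∈ Icc a b, ((ev j).card : ℝ) / M = ∑ j ∈ Ioc a b, ((ev j).card : ℝ) / M := by
      symm
      refine Finset.sum_subset (fun j hj => ?_) fun j hj hj2 => ?_
      · rw [Finset.mem_Ioc] at hj
        rw [Finset.mem_Icc]
        omega
      · have : ¬ (a < j ∧ j ≤ b) := by
          rw [Finset.mem_Ioc] at hj2
          exact hj2
        simp only [hev, if_neg this, Finset.card_empty, Nat.cast_zero, zero_div]
    have h2 : ∀ j ∈ Ioc a b, ((ev j).card : ℝ) / M ≤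
        (∑ k ∈ Ico (κ (j - 1)) (κ j), ((jp k).card : ℝ) / M) + n2 (T j) / η ^ 2 +
          n2 (T (j - 1)) / η ^ 2 := by
      intro j hj
      rw [Finset.mem_Ioc] at hj
      have h3 : (ev j).card ≤ (∑ k ∈ Ico (κ (j - 1)) (κ j), (jp k).card) + (bad η (T j)).card +
          (bad η (T (j - 1))).card := by
        simp only [hev, if_pos hj]
        refine (Finset.card_union_le _ _).trans (Nat.add_le_add_right ?_ _)
        refine (Finset.card_union_le _ _).trans (Nat.add_le_add_right ?_ _)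
        exact Finset.card_biUnion_le
      have h4 : ((ev j).card : ℝ) ≤ (∑ k ∈ Ico (κ (j - 1)) (κ j), ((jp k).card : ℝ)) +
          (bad η (T j)).card + (bad η (T (j - 1))).card := by exact_mod_cast h3
      calc ((ev j).card : ℝ) / M ≤ ((∑ k ∈ Ico (κ (j - 1)) (κ j), ((jp k).card : ℝ)) +
          (bad η (T j)).card + (bad η (T (j - 1))).card) / M := by gcongr
        _ = (∑ k ∈ Ico (κ (j - 1)) (κ j), ((jp k).card : ℝ) / M) + ((bad η (T j)).card : ℝ) / M +
          ((bad η (T (j - 1))).card : ℝ) / M := by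
            rw [add_div, add_div, Finset.sum_div]
        _ ≤ _ := add_le_add (add_le_add le_rfl (card_bad η hη _)) (card_bad η hη _)
    have h5 : ∑ j ∈ Ioc a b, ∑ k ∈ Ico (κ (j - 1)) (κ j), ((jp k).card : ℝ) / M ≤
        n2 f / η ^ 2 := by
      rw [sum_blocks κ _ a b hab hκm]
      refine le_trans (Finset.sum_le_sum_of_subset_of_nonneg ?_ fun _ _ _ => by positivity) hjp1
      intro k hk
      rw [Finset.mem_Ico] at hk
      rw [Finset.mem_range]
      have := hκL b (Finset.mem_Icc.2 ⟨hab, le_rfl⟩)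
      omega
    have hn2T : ∀ j, 0 ≤ n2 (T j) := fun j => by
      have : n2 (T j) = (∑ x, ‖T j x‖ ^ 2) / M := rfl
      rw [this]
      positivity
    have h6 : ∑ j ∈ Ioc a b, n2 (T j) ≤ ∑ j ∈ Icc a b, n2 (T j) :=
      Finset.sum_le_sum_of_subset_of_nonneg Finset.Ioc_subset_Icc_self fun j _ _ => hn2T j
    have h7 : ∑ j ∈ Ioc a b, n2 (T (j - 1)) ≤ ∑ j ∈ Icc a b, n2 (T j) := by
      have h8 : ∑ j ∈ Ioc a b, n2 (T (j - 1)) = ∑ j ∈ (Ioc a b).image (fun j => j - 1), n2 (T j) := by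
        rw [Finset.sum_image]
        intro x hx y hy hxy
        rw [Finset.mem_coe, Finset.mem_Ioc] at hx hy
        simp only at hxy
        omega
      rw [h8]
      refine Finset.sum_le_sum_of_subset_of_nonneg ?_ fun j _ _ => hn2T j
      intro j hj
      obtain ⟨y, hy, rfl⟩ := Finset.mem_image.1 hj
      rw [Finset.mem_Ioc] at hy
      rw [Finset.mem_Icc]
      omega
    rw [h1]
    refine (Finset.sum_le_sum h2).trans ?_
    rw [Finset.sum_add_distrib, Finset.sum_add_distrib, ← Finset.sum_div, ← Finset.sum_div]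
    have hη2 : 0 < η ^ 2 := by positivity
    calc _ ≤ n2 f / η ^ 2 + (2400 * n2 f) / η ^ 2 + (2400 * n2 f) / η ^ 2 := by
          gcongr
          · exact h6.trans hcmp
          · exact h7.trans hcmp
      _ = (4801 * n2 f) / η ^ 2 := by ring
      _ ≤ 5000 / η ^ 2 := by
          gcongr
          linarith
  · intro x i j hi hij hj hx
    rcases hij.eq_or_lt with rfl | hlt
    · rw [sub_self, norm_zero]
      positivity
    have hxj := hx j hlt le_rfl
    have hxi := hx (i + 1) (by omega) (by omega)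
    have hevj : x ∉ bad η (T j) := by
      intro h
      apply hxj
      simp only [hev, if_pos (show a < j ∧ j ≤ b by omega)]
      exact Finset.mem_union_left _ (Finset.mem_union_right _ h)
    have hevi : x ∉ bad η (T i) := by
      intro h
      apply hxi
      simp only [hev, if_pos (show a < i + 1 ∧ i + 1 ≤ b by omega)]
      exact Finset.mem_union_right _ (by simpa using h)
    rw [mem_bad, not_lt] at hevj hevi
    have hdy : ‖dy (κ j) f x - dy (κ i) f x‖ ≤ 2 * η := by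
      refine hjp2 x (κ i) (κ j) (hκm i j hi hij hj) (hκL j (Finset.mem_Icc.2 ⟨by omega, hj⟩)).le
        ?_ (κ j) (κ i) (hκm i j hi hij hj) le_rfl le_rfl (hκm i j hi hij hj)
      intro k hk1 hk2 hk3
      obtain ⟨m, hm1, hm2, hm3, hm4⟩ := exists_block κ i j k hij hk1 hk2
      apply hx m hm1 hm2
      simp only [hev, if_pos (show a < m ∧ m ≤ b by omega)]
      refine Finset.mem_union_left _ (Finset.mem_union_left _ ?_)
      exact Finset.mem_biUnion.2 ⟨k, Finset.mem_Ico.2 ⟨hm3, hm4⟩, hk3⟩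
    have h1 : Eb 1 (K j) f x - Eb 1 (K i) f x =
        T j x + (dy (κ j) f x - dy (κ i) f x) - T i x := by
      simp only [hT]
      ring
    rw [h1]
    calc ‖T j x + (dy (κ j) f x - dy (κ i) f x) - T i x‖
        ≤ ‖T j x‖ + ‖dy (κ j) f x - dy (κ i) f x‖ + ‖T i x‖ :=
          (norm_sub_le _ _).trans (add_le_add_left (norm_add_le _ _) _)
      _ ≤ η + 2 * η + η := by gcongr
      _ = 4 * η := by ring

namespace JumpQAux

lemma eb_fib {Q M' : ℕ} [NeZero M'] (hM : M = Q * M') (f : ZMod M → ℂ) (K s : ℕ) (z : ZMod M') :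
    Eb Q K f ((Q * z.val + s : ℕ) : ZMod M) =
      Eb 1 K (fun z : ZMod M' => f ((Q * z.val + s : ℕ) : ZMod M)) z := by
  unfold Eb
  congr 1
  funext i
  congr 1
  rw [one_mul, ← Nat.cast_add, ZMod.natCast_eq_natCast_iff]
  have h1 : (z + ((i : ℕ) : ZMod M')).val ≡ z.val + i [MOD M'] := by
    rw [← ZMod.natCast_eq_natCast_iff]
    simp
  have h2 : Q * (z + ((i : ℕ) : ZMod M')).val ≡ Q * (z.val + i) [MOD (Q * M')] :=
    Nat.ModEq.mul_left' Q h1
  rw [hM]
  have h3 : Q * z.val + s + Q * i = Q * (z.val + i) + s := by ring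
  rw [h3]
  exact (h2.add_right s).symm

end JumpQAux

theorem events {Q L : ℕ} [NeZero Q] (hL : Q * 2 ^ L ∣ M) (f : ZMod M → ℂ) (hf : Bd f) (a b : ℕ) (K : ℕ → ℕ)
    (hK1 : ∀ j ∈ Icc a b, 1 ≤ K j) (hKL : ∀ j ∈ Icc a b, K j < 2 ^ L)
    (hm : ∀ i j, a ≤ i → i ≤ j → j ≤ b → K i ≤ K j)
    (hc : ∀ k, ((Icc a b).filter (fun j => Nat.log 2 (K j) = k)).card ≤ 4) (η : ℝ) (hη : 0 < η) :
    ∃ ev : ℕ → Finset (ZMod M), ∑ j ∈ Icc a b, ((ev j).card : ℝ) / M ≤ 5000 / η ^ 2 ∧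
      ∀ (x : ZMod M) (i j : ℕ), a ≤ i → i ≤ j → j ≤ b → (∀ k, i < k → k ≤ j → x ∉ ev k) →
        ‖Eb Q (K j) f x - Eb Q (K i) f x‖ ≤ 4 * η := by
  classical
  obtain ⟨c, hc'⟩ := hL
  set M' : ℕ := 2 ^ L * c with hM'
  have hMQ : M = Q * M' := by rw [hc', hM']; ring
  have hMne : M ≠ 0 := NeZero.ne M
  have hQ : Q ≠ 0 := NeZero.ne Q
  have hM'ne : M' ≠ 0 := by
    rintro h
    rw [h, mul_zero] at hMQ
    exact hMne hMQ
  have hne : NeZero M' := ⟨hM'ne⟩
  have hL' : 2 ^ L ∣ M' := ⟨c, rfl⟩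
  have hQpos : (0 : ℝ) < Q := by exact_mod_cast Nat.pos_of_ne_zero hQ
  have hM'pos : (0 : ℝ) < M' := by exact_mod_cast Nat.pos_of_ne_zero hM'ne
  have hev := fun s : ℕ => events_one hL' (fun z : ZMod M' => f ((Q * z.val + s : ℕ) : ZMod M))
    (fun z => hf _) a b K hK1 hKL hm hc η hη
  choose ev' hev1 hev2 using hev
  refine ⟨fun j => (range Q).biUnion fun s =>
    (ev' s j).image fun z => ((Q * z.val + s : ℕ) : ZMod M), ?_, ?_⟩
  · have h1 : ∀ j, ((((range Q).biUnion fun s =>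
        (ev' s j).image fun z => ((Q * z.val + s : ℕ) : ZMod M)).card : ℕ) : ℝ) / M ≤
        ∑ s ∈ range Q, (1 / (Q : ℝ)) * (((ev' s j).card : ℝ) / M') := by
      intro j
      have h2 : ((range Q).biUnion fun s =>
          (ev' s j).image fun z => ((Q * z.val + s : ℕ) : ZMod M)).card ≤
          ∑ s ∈ range Q, (ev' s j).card :=
        Finset.card_biUnion_le.trans (Finset.sum_le_sum fun s _ => Finset.card_image_le)
      have h3 : ((((range Q).biUnion fun s =>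
          (ev' s j).image fun z => ((Q * z.val + s : ℕ) : ZMod M)).card : ℕ) : ℝ) ≤
          ∑ s ∈ range Q, ((ev' s j).card : ℝ) := by exact_mod_cast h2
      have hMr : (M : ℝ) = Q * M' := by rw [hMQ]; push_cast; ring
      calc _ ≤ (∑ s ∈ range Q, ((ev' s j).card : ℝ)) / M := by gcongr
        _ = _ := by
          rw [Finset.sum_div]
          refine Finset.sum_congr rfl fun s _ => ?_
          rw [hMr]
          field_simp
    calc _ ≤ ∑ j ∈ Icc a b, ∑ s ∈ range Q, (1 / (Q : ℝ)) * (((ev' s j).card : ℝ) / M') :=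
          Finset.sum_le_sum fun j _ => h1 j
      _ = ∑ s ∈ range Q, (1 / (Q : ℝ)) * ∑ j ∈ Icc a b, ((ev' s j).card : ℝ) / M' := by
          rw [Finset.sum_comm]
          refine Finset.sum_congr rfl fun s _ => ?_
          rw [Finset.mul_sum]
      _ ≤ ∑ s ∈ range Q, (1 / (Q : ℝ)) * (5000 / η ^ 2) := by
          refine Finset.sum_le_sum fun s _ => ?_
          exact mul_le_mul_of_nonneg_left (hev1 s) (by positivity)
      _ = 5000 / η ^ 2 := by
          rw [Finset.sum_const, Finset.card_range, nsmul_eq_mul]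
          field_simp
  · intro x i j hi hij hj hx
    set s : ℕ := x.val % Q with hs
    set z : ZMod M' := ((x.val / Q : ℕ) : ZMod M') with hz
    have hzv : z.val = x.val / Q := by
      rw [hz, ZMod.val_natCast, Nat.mod_eq_of_lt]
      rw [Nat.div_lt_iff_lt_mul (Nat.pos_of_ne_zero hQ), mul_comm, ← hMQ]
      exact ZMod.val_lt x
    have hxe : ((Q * z.val + s : ℕ) : ZMod M) = x := by
      rw [hzv, hs, Nat.div_add_mod]
      exact ZMod.natCast_zmod_val x
    have h1 := hev2 s z i j hi hij hj (fun k hk1 hk2 hk3 => hx k hk1 hk2 (by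
      refine Finset.mem_biUnion.2 ⟨s, Finset.mem_range.2 (Nat.mod_lt _ (Nat.pos_of_ne_zero hQ)), ?_⟩
      exact Finset.mem_image.2 ⟨z, hk3, hxe⟩))
    rw [← eb_fib hMQ f (K j) s z, ← eb_fib hMQ f (K i) s z, hxe] at h1
    exact h1

end Pool.Agent.EQD.Lo
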