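import Pool.Agent.Lib.EQD.Defs
import Pool.Agent.Lib.NLT.BasicT

/-!
# EQD.Kern: kernels, box averages, multipliers

PROOFS (all short; `av`, `avr`, `ft`, `chi`: see `NLT.BasicA`, `NLT.BasicB`; `tv`: `NLT.BasicT`).
* `cv_add`, `cv_sub`, `mul_add`, `mul_sub`: `Finsupp.sum_add_index'` (or write `β.sum` as a sum over the union of the supports);
  `cv_dlt`, `mul_dlt`, `mass_dlt`: `Finsupp.sum_single_index`; `mass_add_le`, `mass_sub_le`: triangle inequality
  (`Finsupp.sum` over the union of the supports).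
* `cv_bk`: `cv` is additive in the kernel (use `Finsupp.sum_finset_sum_index`, or `cv_add` and induction), one single gives
  `1 / K * f (x + q i)`. `mul_bk` the same. `mass_bk_le`: `mass` is subadditive, every single has mass `1 / K` (for `K = 0` the
  kernel is `0`).
* `norm_cv_le`: triangle inequality. `norm_mul_le_mass`: `‖ex‖ = 1`.
* `ft_cv`: `ft` is linear, `ft (fun x => f (x + v)) ξ = chi ξ v * ft f ξ` (`ft_shift`), `chi_int`.
* `n2_eq`: `parseval`. `n2_cv`: `n2_eq`, `ft_cv`. `n2_cv_le`: term by term.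
* `Eb_comp`: the numbers `g i + k` (`i < K`, `k < g`) are the numbers `< g K`, each once: the sum over `range (g * K)` is the double
  sum (`Finset.sum_range` over `Nat.divModEquiv`, or `Finset.sum_nat_mod`/ induction on `K`: `g (K + 1) = g K + g`,
  `Finset.sum_range_add`), and the normalisations agree. If `g = 0` or `K = 0` both sides are `0`.
* `Eb_slow`: `K (Eb q K f (x + q) - Eb q K f x) = f (x + q K) - f x` (telescoping).
* `Eb_comm`: both are double averages, `tv_comm`.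
* `Supp_bk`: the kernel vanishes at `v` unless `v = q i`, `i < K`.
* `n2_Eb_le`: `n2_cv_le` with `‖dk‖ ≤ 1` (`norm_mul_le_mass`, `mass_bk_le`), or directly by Cauchy-Schwarz.
* `Eb_near`: `Eb q K f - Eb q K' f` for `K ≤ K'`: `(1/K - 1/K') * (K terms)` and `K' - K` terms `/ K'`: at most `2 (K' - K) / K'`.
-/

set_option autoImplicit false

open Finset Polynomial

namespace Pool.Agent.EQD.Lo

open Pool.Agent.HLT Pool.Agent.NLT Pool.Agent.NLG

namespace KernAux

lemma mass_eq (β : ℤ →₀ ℂ) (s : Finset ℤ) (hs : β.support ⊆ s) : mass β = ∑ v ∈ s, ‖β v‖ := by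
  unfold mass
  rw [Finsupp.sum_of_support_subset β hs (fun _ b => ‖b‖) (fun _ _ => norm_zero)]

lemma mass_zero : mass (0 : ℤ →₀ ℂ) = 0 := by
  unfold mass
  exact Finsupp.sum_zero_index

lemma mass_single (v : ℤ) (b : ℂ) : mass (Finsupp.single v b) = ‖b‖ := by
  unfold mass
  exact Finsupp.sum_single_index norm_zero

lemma mass_add (β γ : ℤ →₀ ℂ) : mass (β + γ) ≤ mass β + mass γ := by
  rw [mass_eq β (β.support ∪ γ.support) subset_union_left,
    mass_eq γ (β.support ∪ γ.support) subset_union_right,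
    mass_eq (β + γ) (β.support ∪ γ.support) Finsupp.support_add, ← sum_add_distrib]
  exact sum_le_sum fun v _ => norm_add_le _ _

lemma mass_neg (β : ℤ →₀ ℂ) : mass (-β) = mass β := by
  rw [mass_eq (-β) β.support (by rw [Finsupp.support_neg]), mass_eq β β.support (Subset.refl _)]
  refine sum_congr rfl fun v _ => ?_
  rw [Finsupp.neg_apply, norm_neg]

lemma mass_sum (s : Finset ℕ) (g : ℕ → ℤ →₀ ℂ) : mass (∑ i ∈ s, g i) ≤ ∑ i ∈ s, mass (g i) := by
  classical
  induction s using Finset.induction_on with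
  | empty => rw [sum_empty, sum_empty, mass_zero]
  | insert a s ha ih =>
    rw [sum_insert ha, sum_insert ha]
    exact (mass_add _ _).trans (by linarith)

lemma mass_bk (q K : ℕ) : mass (bk q K) ≤ 1 := by
  unfold bk
  refine (mass_sum _ _).trans ?_
  have h1 : ∑ i ∈ range K, mass (Finsupp.single ((q * i : ℕ) : ℤ) (1 / (K : ℂ))) =
      K * (1 / (K : ℝ)) := by
    rw [sum_congr rfl fun i _ => mass_single _ _, sum_const, card_range, nsmul_eq_mul, norm_div,
      norm_one, Complex.norm_natCast]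
  rw [h1]
  rcases Nat.eq_zero_or_pos K with hK | hK
  · rw [hK, Nat.cast_zero, zero_mul]
    exact zero_le_one
  · have : (K : ℝ) ≠ 0 := by
      have : K ≠ 0 := by omega
      exact_mod_cast this
    rw [mul_one_div_cancel this]

lemma norm_mul (β : ℤ →₀ ℂ) (θ : ℝ) : ‖mul β θ‖ ≤ mass β := by
  unfold mul mass Finsupp.sum
  refine (norm_sum_le _ _).trans (sum_le_sum fun v _ => ?_)
  rw [_root_.norm_mul, norm_ex, mul_one]

lemma cv_sum (s : Finset ℕ) (g : ℕ → ℤ →₀ ℂ) {M : ℕ} [NeZero M] (f : ZMod M → ℂ) (x : ZMod M) :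
    cv (∑ i ∈ s, g i) f x = ∑ i ∈ s, cv (g i) f x := by
  classical
  induction s using Finset.induction_on with
  | empty =>
    rw [sum_empty, sum_empty]
    unfold cv
    exact Finsupp.sum_zero_index
  | insert a s ha ih =>
    rw [sum_insert ha, sum_insert ha, ← ih]
    unfold cv
    exact Finsupp.sum_add_index' (fun _ => zero_mul _) (fun _ _ _ => add_mul _ _ _)

lemma mul_sum' (s : Finset ℕ) (g : ℕ → ℤ →₀ ℂ) (θ : ℝ) :
    mul (∑ i ∈ s, g i) θ = ∑ i ∈ s, mul (g i) θ := by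
  classical
  induction s using Finset.induction_on with
  | empty =>
    rw [sum_empty, sum_empty]
    unfold mul
    exact Finsupp.sum_zero_index
  | insert a s ha ih =>
    rw [sum_insert ha, sum_insert ha, ← ih]
    unfold mul
    exact Finsupp.sum_add_index' (fun _ => zero_mul _) (fun _ _ _ => add_mul _ _ _)

lemma range_mul_sum (g K : ℕ) (F : ℕ → ℂ) :
    ∑ j ∈ range (g * K), F j = ∑ k ∈ range K, ∑ i ∈ range g, F (g * k + i) := by
  induction K with
  | zero => simp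
  | succ K ih => rw [Nat.mul_succ, Finset.sum_range_add, ih, sum_range_succ]

end KernAux

open KernAux

section group

variable {M : ℕ} [NeZero M]

lemma cv_add (β γ : ℤ →₀ ℂ) (f : ZMod M → ℂ) (x : ZMod M) : cv (β + γ) f x = cv β f x + cv γ f x := by
  unfold cv
  exact Finsupp.sum_add_index' (fun _ => zero_mul _) (fun _ _ _ => _root_.add_mul _ _ _)

lemma cv_sub (β γ : ℤ →₀ ℂ) (f : ZMod M → ℂ) (x : ZMod M) : cv (β - γ) f x = cv β f x - cv γ f x := by
  unfold cv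
  exact Finsupp.sum_sub_index (fun _ _ _ => _root_.sub_mul _ _ _)

lemma cv_dlt (f : ZMod M → ℂ) (x : ZMod M) : cv dlt f x = f x := by
  unfold cv dlt
  rw [Finsupp.sum_single_index (zero_mul _), Int.cast_zero, add_zero, one_mul]

lemma cv_bk (q K : ℕ) (f : ZMod M → ℂ) (x : ZMod M) : cv (bk q K) f x = Eb q K f x := by
  unfold bk
  rw [cv_sum]
  unfold Eb tv
  rw [sum_div]
  refine sum_congr rfl fun i _ => ?_
  unfold cv
  rw [Finsupp.sum_single_index (zero_mul _), Int.cast_natCast]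
  ring

/-- The kernel `dlt - bk q K` acts as `f - Eb q K f`. -/
lemma cv_dlt_sub_bk (q K : ℕ) (f : ZMod M → ℂ) (x : ZMod M) : cv (dlt - bk q K) f x = f x - Eb q K f x := by
  rw [cv_sub, cv_dlt, cv_bk]

lemma norm_cv_le (β : ℤ →₀ ℂ) {f : ZMod M → ℂ} {B : ℝ} (hf : ∀ x, ‖f x‖ ≤ B) (x : ZMod M) :
    ‖cv β f x‖ ≤ mass β * B := by
  unfold cv mass Finsupp.sum
  rw [sum_mul]
  refine (norm_sum_le _ _).trans (sum_le_sum fun v _ => ?_)
  rw [_root_.norm_mul]
  exact mul_le_mul_of_nonneg_left (hf _) (norm_nonneg _)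

lemma ft_cv (β : ℤ →₀ ℂ) (f : ZMod M → ℂ) (ξ : ZMod M) :
    ft (cv β f) ξ = mul β ((ξ.val : ℝ) / (M : ℝ)) * ft f ξ := by
  have h1 : ft (cv β f) ξ = ∑ v ∈ β.support, β v * ft (fun x => f (x + (v : ZMod M))) ξ := by
    unfold ft cv Finsupp.sum
    have h2 : ∀ x : ZMod M, (∑ v ∈ β.support, β v * f (x + (v : ZMod M))) * chi (-ξ) x =
        ∑ v ∈ β.support, β v * (f (x + (v : ZMod M)) * chi (-ξ) x) := by
      intro x
      rw [sum_mul]
      exact sum_congr rfl fun v _ => mul_assoc _ _ _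
    simp only [h2]
    unfold av
    rw [sum_comm, sum_div]
    refine sum_congr rfl fun v _ => ?_
    rw [← mul_sum, mul_div_assoc]
  rw [h1]
  unfold mul Finsupp.sum
  rw [sum_mul]
  refine sum_congr rfl fun v _ => ?_
  rw [ft_shift, chi_int, mul_comm ((v : ℤ) : ℝ) _, mul_assoc]

lemma n2_eq (f : ZMod M → ℂ) : n2 f = ∑ ξ, ‖ft f ξ‖ ^ 2 := by
  unfold n2
  exact (parseval f).symm

lemma n2_nonneg (f : ZMod M → ℂ) : 0 ≤ n2 f := by
  unfold n2
  exact avr_nonneg fun x => by positivity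

lemma n2_cv (β : ℤ →₀ ℂ) (f : ZMod M → ℂ) :
    n2 (cv β f) = ∑ ξ : ZMod M, ‖mul β ((ξ.val : ℝ) / (M : ℝ))‖ ^ 2 * ‖ft f ξ‖ ^ 2 := by
  rw [n2_eq]
  refine sum_congr rfl fun ξ _ => ?_
  rw [ft_cv, _root_.norm_mul, mul_pow]

lemma n2_cv_le (β : ℤ →₀ ℂ) (f : ZMod M → ℂ) {B : ℝ} (h : ∀ θ, ‖mul β θ‖ ≤ B) : n2 (cv β f) ≤ B ^ 2 * n2 f := by
  rw [n2_cv, n2_eq, mul_sum]
  refine sum_le_sum fun ξ _ => ?_
  exact mul_le_mul_of_nonneg_right (pow_le_pow_left₀ (norm_nonneg _) (h _) 2) (by positivity)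

lemma Eb_comp (q g K : ℕ) (f : ZMod M → ℂ) (x : ZMod M) :
    Eb q g (Eb (q * g) K f) x = Eb q (g * K) f x := by
  unfold Eb tv
  rw [range_mul_sum g K (fun j => f (x + ((q * j : ℕ) : ZMod M))), ← sum_div, div_div, sum_comm]
  push_cast
  congr 1
  · refine sum_congr rfl fun k _ => sum_congr rfl fun i _ => ?_
    congr 1
    ring
  · ring

lemma Eb_comm (q K q' K' : ℕ) (f : ZMod M → ℂ) (x : ZMod M) :
    Eb q K (Eb q' K' f) x = Eb q' K' (Eb q K f) x := by
  unfold Eb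
  rw [tv_comm]
  simp only [add_right_comm]

lemma Eb_sub (q K : ℕ) (f g : ZMod M → ℂ) (x : ZMod M) :
    Eb q K (fun y => f y - g y) x = Eb q K f x - Eb q K g x := by
  unfold Eb
  exact tv_sub K _ _

lemma norm_Eb_le (q K : ℕ) {f : ZMod M → ℂ} {B : ℝ} (hB : 0 ≤ B) (hf : ∀ x, ‖f x‖ ≤ B) (x : ZMod M) :
    ‖Eb q K f x‖ ≤ B := by
  unfold Eb
  exact (norm_tv_le K _).trans (tvr_le K hB fun t _ => hf _)

lemma Bd_Eb (q K : ℕ) {f : ZMod M → ℂ} (hf : Bd f) : Bd (Eb q K f) := norm_Eb_le q K zero_le_one hf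

lemma n2_Eb_le (q K : ℕ) (f : ZMod M → ℂ) : n2 (Eb q K f) ≤ n2 f := by
  have h1 : Eb q K f = cv (bk q K) f := by
    funext x
    rw [cv_bk]
  rw [h1]
  have h2 := n2_cv_le (bk q K) f (B := 1) fun θ => (KernAux.norm_mul _ _).trans (mass_bk q K)
  linarith

lemma Eb_slow (q K : ℕ) (hK : 1 ≤ K) {f : ZMod M → ℂ} {B : ℝ} (hf : ∀ x, ‖f x‖ ≤ B) (x : ZMod M) :
    ‖Eb q K f (x + (q : ZMod M)) - Eb q K f x‖ ≤ 2 * B / (K : ℝ) := by
  have hK0 : (0 : ℝ) < K := by exact_mod_cast hK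
  have h1 : Eb q K f (x + (q : ZMod M)) - Eb q K f x =
      (f (x + ((q * K : ℕ) : ZMod M)) - f (x + ((q * 0 : ℕ) : ZMod M))) / K := by
    unfold Eb tv
    rw [← sub_div, ← sum_range_sub (fun i => f (x + ((q * i : ℕ) : ZMod M))) K, ← sum_sub_distrib]
    congr 1
    refine sum_congr rfl fun i _ => ?_
    congr 2
    push_cast
    ring
  rw [h1, norm_div, Complex.norm_natCast]
  refine div_le_div_of_nonneg_right ?_ hK0.le
  refine (norm_sub_le _ _).trans ?_
  have := hf (x + ((q * K : ℕ) : ZMod M))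
  have := hf (x + ((q * 0 : ℕ) : ZMod M))
  linarith

lemma Eb_near (q K K' : ℕ) (hK : 1 ≤ K) (h : K ≤ K') {f : ZMod M → ℂ} (hf : Bd f) (x : ZMod M) :
    ‖Eb q K f x - Eb q K' f x‖ ≤ 2 * ((K' : ℝ) - K) / (K' : ℝ) := by
  have hK0 : (0 : ℝ) < K := by exact_mod_cast hK
  have hKK : (K : ℝ) ≤ K' := by exact_mod_cast h
  have hK0' : (0 : ℝ) < K' := hK0.trans_le hKK
  have hKc : (K : ℂ) ≠ 0 := by exact_mod_cast hK0.ne'
  have hKc' : (K' : ℂ) ≠ 0 := by exact_mod_cast hK0'.ne'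
  set F : ℕ → ℂ := fun i => f (x + ((q * i : ℕ) : ZMod M)) with hF
  have hF1 : ∀ i, ‖F i‖ ≤ 1 := fun i => hf _
  obtain ⟨d, rfl⟩ := Nat.exists_eq_add_of_le h
  have e1 : Eb q K f x = (∑ i ∈ range K, F i) / (K : ℂ) := rfl
  have e2 : Eb q (K + d) f x = (∑ i ∈ range (K + d), F i) / ((K + d : ℕ) : ℂ) := rfl
  have h1 : Eb q K f x - Eb q (K + d) f x =
      ((d : ℂ) * (∑ i ∈ range K, F i) / K - ∑ i ∈ range d, F (K + i)) / ((K + d : ℕ) : ℂ) := by
    rw [e1, e2, Finset.sum_range_add]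
    generalize ∑ i ∈ range K, F i = a
    generalize ∑ i ∈ range d, F (K + i) = b
    push_cast at hKc' ⊢
    field_simp
    ring
  have h2 : ‖∑ i ∈ range K, F i‖ ≤ K := by
    refine (norm_sum_le _ _).trans ?_
    refine (sum_le_sum fun i _ => hF1 i).trans ?_
    rw [sum_const, card_range, nsmul_eq_mul, mul_one]
  have h3 : ‖∑ i ∈ range d, F (K + i)‖ ≤ d := by
    refine (norm_sum_le _ _).trans ?_
    refine (sum_le_sum fun i _ => hF1 _).trans ?_
    rw [sum_const, card_range, nsmul_eq_mul, mul_one]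
  have h4 : ‖(d : ℂ) * (∑ i ∈ range K, F i) / K‖ ≤ d := by
    rw [norm_div, _root_.norm_mul, Complex.norm_natCast, Complex.norm_natCast, div_le_iff₀ hK0]
    exact mul_le_mul_of_nonneg_left h2 (Nat.cast_nonneg _)
  rw [h1, norm_div, Complex.norm_natCast]
  refine div_le_div_of_nonneg_right ?_ (Nat.cast_nonneg _)
  refine (norm_sub_le _ _).trans ?_
  push_cast
  linarith

end group

lemma mul_add (β γ : ℤ →₀ ℂ) (θ : ℝ) : mul (β + γ) θ = mul β θ + mul γ θ := by
  unfold mul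
  exact Finsupp.sum_add_index' (fun _ => zero_mul _) (fun _ _ _ => _root_.add_mul _ _ _)

lemma mul_sub (β γ : ℤ →₀ ℂ) (θ : ℝ) : mul (β - γ) θ = mul β θ - mul γ θ := by
  unfold mul
  exact Finsupp.sum_sub_index (fun _ _ _ => _root_.sub_mul _ _ _)

lemma mul_dlt (θ : ℝ) : mul dlt θ = 1 := by
  unfold mul dlt
  rw [Finsupp.sum_single_index (zero_mul _), Int.cast_zero, mul_zero, ex_zero, one_mul]

lemma mul_bk (q K : ℕ) (θ : ℝ) : mul (bk q K) θ = dk K ((q : ℝ) * θ) := by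
  unfold bk
  rw [mul_sum']
  unfold dk tv
  rw [sum_div]
  refine sum_congr rfl fun i _ => ?_
  unfold mul
  rw [Finsupp.sum_single_index (zero_mul _)]
  have : θ * ((((q * i : ℕ) : ℤ)) : ℝ) = (q : ℝ) * θ * i := by
    push_cast
    ring
  rw [this]
  ring

lemma mass_dlt : mass dlt = 1 := by
  unfold dlt
  rw [mass_single, norm_one]

lemma mass_nonneg (β : ℤ →₀ ℂ) : 0 ≤ mass β := by
  unfold mass Finsupp.sum
  exact sum_nonneg fun _ _ => norm_nonneg _

lemma mass_add_le (β γ : ℤ →₀ ℂ) : mass (β + γ) ≤ mass β + mass γ := by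
  exact mass_add β γ

lemma mass_sub_le (β γ : ℤ →₀ ℂ) : mass (β - γ) ≤ mass β + mass γ := by
  rw [sub_eq_add_neg]
  exact (mass_add β (-γ)).trans (by rw [mass_neg])

lemma mass_bk_le (q K : ℕ) : mass (bk q K) ≤ 1 := by
  exact mass_bk q K

lemma norm_mul_le_mass (β : ℤ →₀ ℂ) (θ : ℝ) : ‖mul β θ‖ ≤ mass β := by
  exact KernAux.norm_mul β θ

lemma Supp_bk (q K L : ℕ) (h : q * K ≤ L) : Supp L (bk q K) := by
  intro v hv
  unfold bk at hv
  rw [Finsupp.finsetSum_apply] at hv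
  obtain ⟨i, hi, hne⟩ := exists_ne_zero_of_sum_ne_zero hv
  have h1 : v = ((q * i : ℕ) : ℤ) := by
    by_contra hcon
    exact hne (Finsupp.single_eq_of_ne hcon)
  rw [h1, Int.natAbs_natCast]
  rw [mem_range] at hi
  exact (Nat.mul_le_mul_left q hi.le).trans h

lemma Supp_dlt_sub_bk (q K L : ℕ) (h : q * K ≤ L) : Supp L (dlt - bk q K) := by
  intro v hv
  by_cases h0 : v = 0
  · rw [h0]
    exact Nat.zero_le _
  · refine Supp_bk q K L h v ?_
    intro h1
    apply hv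
    rw [Finsupp.sub_apply, h1, sub_zero]
    unfold dlt
    exact Finsupp.single_eq_of_ne h0

end Pool.Agent.EQD.Lo
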