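import Pool.Agent.Lib.EQD.DkB

/-!
# Module LevA: interpolation by level sets (abstract)

PROOF. If `n2 F = 0` then `F = 0` and `X F = 0`. Otherwise normalise `n2 F = 1` (replace `F` by `F / sqrt (n2 F)`; `X` is additive and homogeneous).
`b = 2 ^ C`, `a₀` with `R ≤ 4 ^ a₀ ≤ 4 R`. `F_0 = F 1_{‖F‖ < b ^ a₀}`: `n2 (X F_0) ≤ K b ^ (2 a₀) / R'`. For `a ≥ a₀` (finitely many `a` matter)
`F_a = F 1_{b ^ a ≤ ‖F‖ < b ^ (a + 1)}` with support `S_a`, density `s_a ≤ b ^ (- 2 a)` (Chebyshev), so `s_a (4 ^ a) ^ C ≤ 1` and (h1) with `r = 4 ^ a`: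
`n2 (X F_a) ≤ K b ^ (2 a + 2) s_a / 4 ^ a ≤ K b ^ 2 / 4 ^ a`. Add the square roots (`sqrt_n2_sum_le`): `sqrt (n2 (X F)) ≤ sqrt (K b ^ (2 a₀) / R') + 2 sqrt K b 2 ^ (- a₀)`,
and `b ^ (2 a₀) = 4 ^ (C a₀) ≤ (4 R) ^ C`; take `C'` with `(4 R) ^ C ≤ R ^ (C' - 1)` for `R ≥ 2` (`R = 1`: everything with constants).
-/

set_option autoImplicit false

open Finset Polynomial

namespace Pool.Agent.EQD

open Pool.Agent.HLT Pool.Agent.NLT Pool.Agent.NLG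

namespace LevAAux

variable {M : ℕ} [NeZero M]

theorem n2_smul (c : ℂ) (f : ZMod M → ℂ) : n2 (fun x => c * f x) = ‖c‖ ^ 2 * n2 f := by
  unfold n2
  rw [← avr_mul_left]
  congr 1
  funext x
  rw [norm_mul, mul_pow]

theorem cheb (F : ZMod M → ℂ) (S : Finset (ZMod M)) (t : ℝ) (ht : 0 ≤ t) (hS : ∀ x ∈ S, t ≤ ‖F x‖) :
    t ^ 2 * ((S.card : ℝ) / M) ≤ n2 F := by
  unfold n2 avr
  rw [mul_div_assoc']
  apply div_le_div_of_nonneg_right _ (Nat.cast_nonneg M)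
  calc t ^ 2 * (S.card : ℝ) = ∑ x ∈ S, t ^ 2 := by rw [sum_const, nsmul_eq_mul, mul_comm]
    _ ≤ ∑ x ∈ S, ‖F x‖ ^ 2 := sum_le_sum (fun x hx => pow_le_pow_left₀ ht (hS x hx) 2)
    _ ≤ ∑ x, ‖F x‖ ^ 2 := sum_le_sum_of_subset_of_nonneg (subset_univ _) (fun x _ _ => by positivity)

theorem eq_zero_of_n2 (F : ZMod M → ℂ) (h : n2 F = 0) (x : ZMod M) : F x = 0 := by
  have h1 := cheb F {x} ‖F x‖ (norm_nonneg _) (fun y hy => by rw [mem_singleton.1 hy])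
  rw [h, card_singleton] at h1
  have hM : (0 : ℝ) < M := Nat.cast_pos.2 (Nat.pos_of_ne_zero (NeZero.ne M))
  by_contra hx
  have h2 : 0 < ‖F x‖ := norm_pos_iff.2 hx
  have h3 : 0 < ‖F x‖ ^ 2 * (((1 : ℕ) : ℝ) / M) := by
    rw [Nat.cast_one]
    positivity
  linarith

/-- truncation from above -/
noncomputable def tr (F : ZMod M → ℂ) (t : ℝ) (x : ZMod M) : ℂ := if ‖F x‖ < t then F x else 0

/-- a slice -/
noncomputable def sl (F : ZMod M → ℂ) (s t : ℝ) (x : ZMod M) : ℂ := if s ≤ ‖F x‖ ∧ ‖F x‖ < t then F x else 0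

theorem tr_add (F : ZMod M → ℂ) {s t : ℝ} (h : s ≤ t) : tr F t = fun x => tr F s x + sl F s t x := by
  funext x
  unfold tr sl
  by_cases h1 : ‖F x‖ < s
  · rw [if_pos (h1.trans_le h), if_pos h1, if_neg (fun h2 => absurd h1 (not_lt.2 h2.1)), add_zero]
  · rw [if_neg h1, zero_add]
    by_cases h2 : ‖F x‖ < t
    · rw [if_pos h2, if_pos ⟨not_lt.1 h1, h2⟩]
    · rw [if_neg h2, if_neg (fun h3 => h2 h3.2)]

theorem norm_tr_le (F : ZMod M → ℂ) {t : ℝ} (ht : 0 ≤ t) (x : ZMod M) : ‖tr F t x‖ ≤ t := by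
  unfold tr
  split_ifs with h
  · exact h.le
  · rw [norm_zero]
    exact ht

theorem norm_sl_le (F : ZMod M → ℂ) {s t : ℝ} (ht : 0 ≤ t) (x : ZMod M) : ‖sl F s t x‖ ≤ t := by
  unfold sl
  split_ifs with h
  · exact h.2.le
  · rw [norm_zero]
    exact ht

/-- one slice -/
theorem slice (C : ℕ) (K : ℝ) (hK : 0 ≤ K) (X : (ZMod M → ℂ) → ZMod M → ℂ)
    (h1 : ∀ (F : ZMod M → ℂ) (lam : ℝ) (S : Finset (ZMod M)) (r : ℕ), 0 ≤ lam → 1 ≤ r → (∀ x, ‖F x‖ ≤ lam) → (∀ x, x ∉ S → F x = 0) →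
      S.card * r ^ C ≤ M → n2 (X F) ≤ K * lam ^ 2 * ((S.card : ℝ) / M) / r)
    (F : ZMod M → ℂ) (hF : n2 F = 1) (a : ℕ) :
    Real.sqrt (n2 (X (sl F ((2 ^ C) ^ a) ((2 ^ C) ^ (a + 1))))) ≤ Real.sqrt K * 2 ^ C / 2 ^ a := by
  classical
  have hM : (0 : ℝ) < M := Nat.cast_pos.2 (Nat.pos_of_ne_zero (NeZero.ne M))
  set b : ℝ := 2 ^ C with hb
  have hb0 : 0 < b := by positivity
  set S : Finset (ZMod M) := univ.filter (fun x => b ^ a ≤ ‖F x‖ ∧ ‖F x‖ < b ^ (a + 1)) with hS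
  have hc := cheb F S (b ^ a) (by positivity) (fun x hx => ((mem_filter.1 hx).2).1)
  rw [hF] at hc
  have hpow : (b ^ a) ^ 2 = ((4 : ℝ) ^ a) ^ C := by
    rw [hb, show (4 : ℝ) = 2 ^ 2 by norm_num, ← pow_mul, ← pow_mul, ← pow_mul, ← pow_mul]
    congr 1
    ring
  have hcard : S.card * (4 ^ a) ^ C ≤ M := by
    have h2 : ((4 : ℝ) ^ a) ^ C * (S.card : ℝ) ≤ M := by
      rw [← hpow]
      have h3 := mul_le_mul_of_nonneg_right hc hM.le
      rw [mul_assoc, div_mul_cancel₀ _ hM.ne', one_mul] at h3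
      exact h3
    have h4 : ((S.card * (4 ^ a) ^ C : ℕ) : ℝ) ≤ (M : ℝ) := by
      push_cast
      rw [mul_comm]
      exact h2
    exact_mod_cast h4
  have h5 := h1 (sl F (b ^ a) (b ^ (a + 1))) (b ^ (a + 1)) S (4 ^ a) (by positivity) (Nat.one_le_pow a 4 (by norm_num))
    (norm_sl_le F (by positivity)) ?_ hcard
  · have h6 : n2 (X (sl F (b ^ a) (b ^ (a + 1)))) ≤ K * (b / 2 ^ a) ^ 2 := by
      refine h5.trans ?_
      have h7 : K * (b ^ (a + 1)) ^ 2 * ((S.card : ℝ) / M) / ((4 ^ a : ℕ) : ℝ) =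
          K * (b / 2 ^ a) ^ 2 * ((b ^ a) ^ 2 * ((S.card : ℝ) / M)) := by
        have h8 : (4 : ℝ) ^ a = (2 ^ a) ^ 2 := by
          rw [← pow_mul, mul_comm a 2, pow_mul]
          norm_num
        push_cast
        have h9 : b ^ (a + 1) = b ^ a * b := pow_succ b a
        rw [h8, h9, div_pow, mul_pow]
        ring
      rw [h7]
      calc K * (b / 2 ^ a) ^ 2 * ((b ^ a) ^ 2 * ((S.card : ℝ) / M)) ≤ K * (b / 2 ^ a) ^ 2 * 1 :=
            mul_le_mul_of_nonneg_left hc (by positivity)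
        _ = _ := mul_one _
    calc Real.sqrt (n2 (X (sl F (b ^ a) (b ^ (a + 1))))) ≤ Real.sqrt (K * (b / 2 ^ a) ^ 2) := Real.sqrt_le_sqrt h6
      _ = Real.sqrt K * (b / 2 ^ a) := by rw [Real.sqrt_mul hK, Real.sqrt_sq (by positivity)]
      _ = Real.sqrt K * b / 2 ^ a := by rw [mul_div_assoc]
  · intro x hx
    unfold sl
    rw [if_neg]
    intro h
    exact hx (mem_filter.2 ⟨mem_univ _, h⟩)

/-- all slices up to the level `a₀ + A` -/
theorem upto (C : ℕ) (K : ℝ) (hK : 0 ≤ K) (X : (ZMod M → ℂ) → ZMod M → ℂ) (R' : ℕ)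
    (hadd : ∀ F G : ZMod M → ℂ, X (fun x => F x + G x) = fun x => X F x + X G x)
    (h1 : ∀ (F : ZMod M → ℂ) (lam : ℝ) (S : Finset (ZMod M)) (r : ℕ), 0 ≤ lam → 1 ≤ r → (∀ x, ‖F x‖ ≤ lam) → (∀ x, x ∉ S → F x = 0) →
      S.card * r ^ C ≤ M → n2 (X F) ≤ K * lam ^ 2 * ((S.card : ℝ) / M) / r)
    (h2 : ∀ (F : ZMod M → ℂ) (lam : ℝ), 0 ≤ lam → (∀ x, ‖F x‖ ≤ lam) → n2 (X F) ≤ K * lam ^ 2 / R')
    (F : ZMod M → ℂ) (hF : n2 F = 1) (a A : ℕ) :
    Real.sqrt (n2 (X (tr F ((2 ^ C) ^ (a + A))))) ≤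
      Real.sqrt (K * ((2 ^ C) ^ a) ^ 2 / R') + 2 * (Real.sqrt K * 2 ^ C / 2 ^ a) - 2 * (Real.sqrt K * 2 ^ C / 2 ^ (a + A)) := by
  induction A with
  | zero =>
    rw [add_zero]
    have h3 := h2 (tr F ((2 ^ C) ^ a)) ((2 ^ C) ^ a) (by positivity) (norm_tr_le F (by positivity))
    have h4 := Real.sqrt_le_sqrt h3
    linarith
  | succ A ih =>
    have hle : ((2 : ℝ) ^ C) ^ (a + A) ≤ (2 ^ C) ^ (a + A + 1) :=
      pow_le_pow_right₀ (one_le_pow₀ one_le_two) (Nat.le_succ _)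
    rw [← add_assoc, tr_add F hle, hadd]
    have h3 := sqrt_n2_add_le (X (tr F ((2 ^ C) ^ (a + A)))) (X (sl F ((2 ^ C) ^ (a + A)) ((2 ^ C) ^ (a + A + 1))))
    have h4 := slice C K hK X h1 F hF (a + A)
    have h5 : Real.sqrt K * 2 ^ C / 2 ^ (a + A + 1) = (Real.sqrt K * 2 ^ C / 2 ^ (a + A)) / 2 := by
      rw [pow_succ, div_div]
    rw [h5]
    linarith

end LevAAux

open LevAAux in
theorem levels (C : ℕ) (hC : 1 ≤ C) (K : ℝ) (hK : 0 ≤ K) : ∃ C' : ℕ, 1 ≤ C' ∧ ∀ (M : ℕ) [NeZero M]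
    (X : (ZMod M → ℂ) → ZMod M → ℂ) (R R' : ℕ), 2 ≤ R → R ^ C' ≤ R' →
    (∀ F G : ZMod M → ℂ, X (fun x => F x + G x) = fun x => X F x + X G x) →
    (∀ (c : ℂ) (F : ZMod M → ℂ), X (fun x => c * F x) = fun x => c * X F x) →
    (∀ (F : ZMod M → ℂ) (lam : ℝ) (S : Finset (ZMod M)) (r : ℕ), 0 ≤ lam → 1 ≤ r → (∀ x, ‖F x‖ ≤ lam) → (∀ x, x ∉ S → F x = 0) →
      S.card * r ^ C ≤ M → n2 (X F) ≤ K * lam ^ 2 * ((S.card : ℝ) / M) / r) →
    (∀ (F : ZMod M → ℂ) (lam : ℝ), 0 ≤ lam → (∀ x, ‖F x‖ ≤ lam) → n2 (X F) ≤ K * lam ^ 2 / R') →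
    ∀ F : ZMod M → ℂ, n2 (X F) ≤ C' * n2 F / R := by
  refine ⟨3 * C + 1 + ⌈K * (1 + 2 * 2 ^ C) ^ 2⌉₊, by omega, ?_⟩
  intro M _ X R R' hR hRR hadd hmul h1 h2 F
  have hR0 : (0 : ℝ) < R := by
    have : 0 < R := by omega
    exact_mod_cast this
  have hR1 : 1 ≤ R := by omega
  -- the normalised case
  have main : ∀ G : ZMod M → ℂ, n2 G = 1 → n2 (X G) ≤ K * (1 + 2 * 2 ^ C) ^ 2 / R := by
    intro G hG
    obtain ⟨n, hn⟩ := pow_unbounded_of_one_lt (∑ x, ‖G x‖) (show (1 : ℝ) < 2 ^ C from one_lt_pow₀ one_lt_two (by omega))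
    set a := Nat.clog 4 R with ha
    have ha1 : R ≤ 4 ^ a := Nat.le_pow_clog (by norm_num) R
    have ha2 : 4 ^ a ≤ 4 * R := by
      have hpos : 0 < a := Nat.clog_pos (by norm_num) hR
      have h3 : 4 ^ (a - 1) < R := Nat.pow_pred_clog_lt_self (by norm_num) (by omega)
      have h4 : 4 ^ a = 4 * 4 ^ (a - 1) := by
        rw [← pow_succ']
        congr 1
        omega
      rw [h4]
      omega
    have h3 := upto C K hK X R' hadd h1 h2 G hG a n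
    have htr : tr G ((2 ^ C) ^ (a + n)) = G := by
      funext x
      unfold tr
      rw [if_pos]
      calc ‖G x‖ ≤ ∑ x, ‖G x‖ := single_le_sum (f := fun x => ‖G x‖) (fun y _ => norm_nonneg _) (mem_univ x)
        _ < (2 ^ C) ^ n := hn
        _ ≤ (2 ^ C) ^ (a + n) := pow_le_pow_right₀ (one_le_pow₀ one_le_two) (Nat.le_add_left _ _)
    rw [htr] at h3
    have hsR : Real.sqrt R ≤ 2 ^ a := by
      rw [show ((2 : ℝ) ^ a) = Real.sqrt (((2 : ℝ) ^ a) ^ 2) by rw [Real.sqrt_sq (by positivity)]]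
      apply Real.sqrt_le_sqrt
      have : (R : ℝ) ≤ 4 ^ a := by exact_mod_cast ha1
      rw [← pow_mul, mul_comm a 2, pow_mul]
      norm_num
      exact this
    have hsR0 : 0 < Real.sqrt R := Real.sqrt_pos.2 hR0
    have hR'pos : (0 : ℝ) < R' := by
      have : 0 < R' := lt_of_lt_of_le (pow_pos (by omega) _) hRR
      exact_mod_cast this
    have h4 : Real.sqrt (K * ((2 ^ C) ^ a) ^ 2 / R') ≤ Real.sqrt K / Real.sqrt R := by
      rw [← Real.sqrt_div hK]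
      apply Real.sqrt_le_sqrt
      rw [mul_div_assoc, div_eq_mul_inv K]
      apply mul_le_mul_of_nonneg_left _ hK
      rw [div_le_iff₀ hR'pos, inv_mul_eq_div, le_div_iff₀ hR0]
      have h5 : (4 ^ a) ^ C * R ≤ R' := by
        calc (4 ^ a) ^ C * R ≤ (4 * R) ^ C * R := Nat.mul_le_mul_right _ (Nat.pow_le_pow_left ha2 C)
          _ ≤ (R ^ 3) ^ C * R := by
              apply Nat.mul_le_mul_right
              apply Nat.pow_le_pow_left
              have h6 : 4 ≤ R * R := Nat.mul_le_mul hR hR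
              calc 4 * R ≤ R * R * R := Nat.mul_le_mul_right _ h6
                _ = R ^ 3 := by ring
          _ = R ^ (3 * C + 1) := by rw [← pow_mul, ← pow_succ]
          _ ≤ R ^ (3 * C + 1 + ⌈K * (1 + 2 * 2 ^ C) ^ 2⌉₊) := Nat.pow_le_pow_right (by omega) (by omega)
          _ ≤ R' := hRR
      have h6 : (((2 : ℝ) ^ C) ^ a) ^ 2 = (4 ^ a) ^ C := by
        rw [show (4 : ℝ) = 2 ^ 2 by norm_num, ← pow_mul, ← pow_mul, ← pow_mul, ← pow_mul]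
        congr 1
        ring
      rw [h6]
      exact_mod_cast h5
    have h5 : Real.sqrt K * 2 ^ C / 2 ^ a ≤ Real.sqrt K * 2 ^ C / Real.sqrt R :=
      div_le_div_of_nonneg_left (by positivity) hsR0 hsR
    have h6 : 0 ≤ Real.sqrt K * 2 ^ C / 2 ^ (a + n) := by positivity
    have h7 : Real.sqrt (n2 (X G)) ≤ Real.sqrt K / Real.sqrt R * (1 + 2 * 2 ^ C) := by
      have e : Real.sqrt K / Real.sqrt R * (1 + 2 * 2 ^ C) =
          Real.sqrt K / Real.sqrt R + 2 * (Real.sqrt K * 2 ^ C / Real.sqrt R) := by ring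
      rw [e]
      linarith
    calc n2 (X G) = Real.sqrt (n2 (X G)) ^ 2 := (Real.sq_sqrt (n2_nonneg _)).symm
      _ ≤ (Real.sqrt K / Real.sqrt R * (1 + 2 * 2 ^ C)) ^ 2 := pow_le_pow_left₀ (Real.sqrt_nonneg _) h7 2
      _ = K * (1 + 2 * 2 ^ C) ^ 2 / R := by
          rw [mul_pow, div_pow, Real.sq_sqrt hK, Real.sq_sqrt hR0.le]
          ring
  have hceil : K * (1 + 2 * 2 ^ C) ^ 2 ≤ ((3 * C + 1 + ⌈K * (1 + 2 * 2 ^ C) ^ 2⌉₊ : ℕ) : ℝ) := by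
    have h3 := Nat.le_ceil (K * (1 + 2 * 2 ^ C) ^ 2)
    push_cast
    have h4 : (0 : ℝ) ≤ 3 * C + 1 := by positivity
    linarith
  rcases (n2_nonneg F).eq_or_lt with h0 | hpos
  · have hF : F = fun x => (0 : ℂ) * F x := by
      funext x
      rw [zero_mul]
      exact eq_zero_of_n2 F h0.symm x
    have h3 : X F = fun x => (0 : ℂ) * X F x := by
      conv_lhs => rw [hF]
      exact hmul 0 F
    have h4 : n2 (X F) = 0 := by
      rw [h3, n2_smul, norm_zero]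
      ring
    rw [h4]
    have := n2_nonneg F
    positivity
  · set s := Real.sqrt (n2 F) with hs
    have hs0 : 0 < s := Real.sqrt_pos.2 hpos
    set G : ZMod M → ℂ := fun x => ((s⁻¹ : ℝ) : ℂ) * F x with hG
    have hG1 : n2 G = 1 := by
      rw [hG, n2_smul, Complex.norm_real, Real.norm_eq_abs, sq_abs, inv_pow, hs, Real.sq_sqrt hpos.le]
      exact inv_mul_cancel₀ hpos.ne'
    have hFG : F = fun x => ((s : ℝ) : ℂ) * G x := by
      funext x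
      rw [hG]
      dsimp only
      rw [← mul_assoc, ← Complex.ofReal_mul, mul_inv_cancel₀ hs0.ne', Complex.ofReal_one, one_mul]
    have h3 : n2 (X F) = n2 F * n2 (X G) := by
      have h4 : X F = fun x => ((s : ℝ) : ℂ) * X G x := by
        conv_lhs => rw [hFG]
        exact hmul _ G
      rw [h4, n2_smul, Complex.norm_real, Real.norm_eq_abs, sq_abs, hs, Real.sq_sqrt hpos.le]
    rw [h3]
    have h5 := main G hG1
    calc n2 F * n2 (X G) ≤ n2 F * (K * (1 + 2 * 2 ^ C) ^ 2 / R) := mul_le_mul_of_nonneg_left h5 hpos.le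
      _ ≤ n2 F * (((3 * C + 1 + ⌈K * (1 + 2 * 2 ^ C) ^ 2⌉₊ : ℕ) : ℝ) / R) :=
          mul_le_mul_of_nonneg_left (div_le_div_of_nonneg_right hceil hR0.le) hpos.le
      _ = ((3 * C + 1 + ⌈K * (1 + 2 * 2 ^ C) ^ 2⌉₊ : ℕ) : ℝ) * n2 F / R := by ring

end Pool.Agent.EQD
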