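import Pool.Agent.Lib.EQD.GnA
import Pool.Agent.Lib.EQD.Impr
import Pool.Agent.Lib.EQD.LevA

/-!
# Module L2loc: gain in L2, `M ≤ B N ^ D`

PROOF. `levels` with `X F = AA N P (update g i (cv β F))` (additive and homogeneous: `cv_fun_add`, `cv_fun_mul`, `AA_update_add`, `AA_update_mul`).
(h1): `‖F‖ ≤ lam 1_S`: `‖X F x‖ ≤ AR N (P i) (‖cv β F‖) x ≤ ∑_v ‖β v‖ AR N (P i) (lam 1_S) (x + v)`, Minkowski over `v`, `mass β ≤ 4`, and `improve` for `P i`: `≤ 16 C lam ^ 2 s / r`.
(h2): `‖X F x‖ ≤ 4 lam` and `gainB` (with `F / lam`): `n2 (X F) ≤ 4 lam * (4 lam / R₁)`, where `R₁ = R ^ C'` and `C = C' C_g`: `NS C R = NS C_g R₁` because `R ^ C = R₁ ^ C_g`.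
Second form: `X F = AA N P (update (update g i (cv β (g i))) l F)`: `‖cv β (g i)‖ ≤ 4`, `‖X F‖ ≤ 4 AR N (P l) ‖F‖`, `improve` for `P l`, and the second part of `gainB`.
The final `C` must be at least the constants of `levels` and divisible by `C_g`: `C = C' C_g` with `C'` large (`levels` holds for every larger `C'`, because `C'` enters as
a factor and as `R ^ C' ≤ R'`).
-/

set_option autoImplicit false

open Finset Polynomial

namespace Pool.Agent.EQD

open Pool.Agent.HLT Pool.Agent.NLT Pool.Agent.NLG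

namespace L2locAux

variable {M : ℕ} [NeZero M]

/-- Indicator function. -/
noncomputable def ind (E : Finset (ZMod M)) (y : ZMod M) : ℝ := if y ∈ E then 1 else 0

lemma norm_cv_le_sum (β : ℤ →₀ ℂ) (F : ZMod M → ℂ) (y : ZMod M) :
    ‖cv β F y‖ ≤ ∑ v ∈ β.support, ‖β v‖ * ‖F (y + (v : ZMod M))‖ := by
  unfold cv Finsupp.sum
  refine (norm_sum_le _ _).trans (le_of_eq (sum_congr rfl (fun v _ => ?_)))
  rw [norm_mul]

lemma AR_cv_le (N : ℕ) (p : ℤ[X]) (β : ℤ →₀ ℂ) (F : ZMod M → ℂ) (x : ZMod M) :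
    AR N p (fun y => ‖cv β F y‖) x ≤
      ∑ v ∈ β.support, ‖β v‖ * AR N p (fun y => ‖F y‖) (x + (v : ZMod M)) := by
  refine (AR_mono N p _ _ (fun y => norm_cv_le_sum β F y) x).trans (le_of_eq ?_)
  unfold AR tvr
  rw [sum_comm, sum_div]
  refine sum_congr rfl (fun v _ => ?_)
  rw [← mul_sum, mul_div_assoc]
  congr 2
  refine sum_congr rfl (fun t _ => ?_)
  congr 2
  ring

lemma AR_le_ind (N : ℕ) (p : ℤ[X]) (F : ZMod M → ℂ) (lam : ℝ) (S : Finset (ZMod M)) (hF : ∀ x, ‖F x‖ ≤ lam)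
    (hS : ∀ x, x ∉ S → F x = 0) (x : ZMod M) : AR N p (fun y => ‖F y‖) x ≤ lam * AR N p (ind S) x := by
  have h1 : lam * AR N p (ind S) x = AR N p (fun y => lam * ind S y) x := by
    unfold AR tvr
    rw [← mul_sum, mul_div_assoc]
  rw [h1]
  refine AR_mono N p _ _ (fun y => ?_) x
  unfold ind
  split_ifs with h
  · rw [mul_one]
    exact hF y
  · rw [hS y h, norm_zero, mul_zero]

lemma avr_AR_sq_le (N : ℕ) (p : ℤ[X]) (F : ZMod M → ℂ) (lam : ℝ) (S : Finset (ZMod M)) (hF : ∀ x, ‖F x‖ ≤ lam)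
    (hS : ∀ x, x ∉ S → F x = 0) :
    avr (fun x => AR N p (fun y => ‖F y‖) x ^ 2) ≤ lam ^ 2 * avr (fun x => AR N p (ind S) x ^ 2) := by
  rw [← avr_mul_left]
  refine avr_mono (fun x => ?_)
  rw [← mul_pow]
  exact pow_le_pow_left₀ (AR_nonneg N p _ (fun y => norm_nonneg _) x) (AR_le_ind N p F lam S hF hS x) 2

lemma avr_AR_cv_sq_le (N : ℕ) (p : ℤ[X]) (β : ℤ →₀ ℂ) (F : ZMod M → ℂ) :
    avr (fun x => AR N p (fun y => ‖cv β F y‖) x ^ 2) ≤
      mass β ^ 2 * avr (fun x => AR N p (fun y => ‖F y‖) x ^ 2) := by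
  set a : ZMod M → ℝ := fun x => AR N p (fun y => ‖F y‖) x with ha
  have hmass : mass β = ∑ v ∈ β.support, ‖β v‖ := rfl
  have h1 : ∀ x, AR N p (fun y => ‖cv β F y‖) x ^ 2 ≤
      mass β * ∑ v ∈ β.support, ‖β v‖ * a (x + (v : ZMod M)) ^ 2 := by
    intro x
    have h2 : AR N p (fun y => ‖cv β F y‖) x ^ 2 ≤ (∑ v ∈ β.support, ‖β v‖ * a (x + (v : ZMod M))) ^ 2 :=
      pow_le_pow_left₀ (AR_nonneg N p _ (fun y => norm_nonneg _) x) (AR_cv_le N p β F x) 2
    refine h2.trans ?_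
    rw [hmass]
    refine Finset.sum_sq_le_sum_mul_sum_of_sq_le_mul _ (fun v _ => norm_nonneg _) (fun v _ => by positivity)
      (fun v _ => le_of_eq ?_)
    ring
  refine (avr_mono h1).trans (le_of_eq ?_)
  rw [avr_mul_left, avr_sum]
  have h3 : ∀ v ∈ β.support, avr (fun x => ‖β v‖ * a (x + (v : ZMod M)) ^ 2) = ‖β v‖ * avr (fun x => a x ^ 2) := by
    intro v _
    rw [avr_mul_left, avr_shift (fun x => a x ^ 2) (v : ZMod M)]
  rw [sum_congr rfl h3, ← sum_mul, ← hmass]
  ring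

section first

variable {n : ℕ}

lemma update_ne_Bd {g : Fin n → ZMod M → ℂ} (hg : ∀ l, Bd (g l)) (i : Fin n) (u : ZMod M → ℂ) :
    ∀ l, l ≠ i → Bd (Function.update g i u l) := by
  intro l hl
  rw [Function.update_of_ne hl]
  exact hg l

lemma norm_A_le (N : ℕ) (P : Fin n → ℤ[X]) (g : Fin n → ZMod M → ℂ) (hg : ∀ l, Bd (g l)) (i : Fin n)
    (u : ZMod M → ℂ) (x : ZMod M) :
    ‖AA N P (Function.update g i u) x‖ ≤ AR N (P i) (fun y => ‖u y‖) x := by
  have h := norm_AA_le_AR N P (Function.update g i u) i 1 zero_le_one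
    (fun l hl y => update_ne_Bd hg i u l hl y) x
  rw [one_pow, one_mul, Function.update_self] at h
  exact h

lemma norm_A_le_const (N : ℕ) (P : Fin n → ℤ[X]) (g : Fin n → ZMod M → ℂ) (hg : ∀ l, Bd (g l)) (i : Fin n)
    (u : ZMod M → ℂ) (c : ℝ) (hc : 0 ≤ c) (hu : ∀ y, ‖u y‖ ≤ c) (x : ZMod M) :
    ‖AA N P (Function.update g i u) x‖ ≤ c := by
  refine (norm_A_le N P g hg i u x).trans ?_
  unfold AR
  exact tvr_le N hc (fun t _ => hu _)

/-- The quarter of the filtered function. -/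
lemma quarter_Bd (β : ℤ →₀ ℂ) (hβ : mass β ≤ 4) (F : ZMod M → ℂ) (hF : Bd F) :
    Bd (fun y => (1 / 4 : ℂ) * cv β F y) := by
  intro x
  have h1 := norm_cv_le β F 1 hF x
  simp only [norm_mul]
  have h2 : ‖(1 / 4 : ℂ)‖ = 1 / 4 := by
    rw [norm_div, norm_one]
    norm_num
  rw [h2]
  linarith

lemma norm_quarter (z : ℂ) : ‖(1 / 4 : ℂ) * z‖ = 1 / 4 * ‖z‖ := by
  rw [norm_mul, norm_div, norm_one]
  norm_num

/-- The filtered function in slot `i` is four times a bounded one. -/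
lemma A_quarter (N : ℕ) (P : Fin n → ℤ[X]) (g : Fin n → ZMod M → ℂ) (i : Fin n) (u : ZMod M → ℂ) (x : ZMod M) :
    ‖AA N P (Function.update g i u) x‖ =
      4 * ‖AA N P (Function.update g i (fun y => (1 / 4 : ℂ) * u y)) x‖ := by
  rw [AA_update_mul, norm_quarter]
  ring

lemma second_eq (N : ℕ) (P : Fin n → ℤ[X]) (g : Fin n → ZMod M → ℂ) {i l : Fin n} (hl : l ≠ i) (u F : ZMod M → ℂ)
    (x : ZMod M) :
    ‖AA N P (Function.update (Function.update g i u) l F) x‖ =
      4 * ‖AA N P (Function.update (Function.update g i (fun y => (1 / 4 : ℂ) * u y)) l F) x‖ := by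
  rw [Function.update_comm (Ne.symm hl), A_quarter, Function.update_comm hl]

lemma n2_le_mul {G : ZMod M → ℂ} {a b : ℝ} (h1 : ∀ x, ‖G x‖ ≤ a) (h2 : avr (fun x => ‖G x‖) ≤ b) (ha : 0 ≤ a) :
    n2 G ≤ a * b := by
  unfold n2
  calc avr (fun x => ‖G x‖ ^ 2) ≤ avr (fun x => a * ‖G x‖) := by
        refine avr_mono (fun x => ?_)
        rw [sq]
        exact mul_le_mul_of_nonneg_right (h1 x) (norm_nonneg _)
    _ = a * avr (fun x => ‖G x‖) := avr_mul_left _ _
    _ ≤ a * b := mul_le_mul_of_nonneg_left h2 ha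

lemma scale_Bd {F : ZMod M → ℂ} {lam : ℝ} (hl : 0 < lam) (hF : ∀ x, ‖F x‖ ≤ lam) :
    Bd (fun x => ((1 / lam : ℝ) : ℂ) * F x) := by
  intro x
  simp only
  rw [norm_mul, Complex.norm_real, Real.norm_eq_abs, abs_of_pos (by positivity)]
  rw [one_div, inv_mul_le_iff₀ hl, mul_one]
  exact hF x

/-- The mean of a homogeneous operator. -/
lemma mean_scale (X : (ZMod M → ℂ) → ZMod M → ℂ)
    (hmul : ∀ (c : ℂ) (F : ZMod M → ℂ), X (fun x => c * F x) = fun x => c * X F x) (b : ℝ)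
    (hX : ∀ F : ZMod M → ℂ, Bd F → avr (fun x => ‖X F x‖) ≤ b) (F : ZMod M → ℂ) (lam : ℝ) (hl : 0 < lam)
    (hF : ∀ x, ‖F x‖ ≤ lam) : avr (fun x => ‖X F x‖) ≤ lam * b := by
  have h1 := hX _ (scale_Bd hl hF)
  have h2 : (fun x => ‖X (fun y => ((1 / lam : ℝ) : ℂ) * F y) x‖) = fun x => (1 / lam) * ‖X F x‖ := by
    funext x
    rw [hmul]
    simp only
    rw [norm_mul, Complex.norm_real, Real.norm_eq_abs, abs_of_pos (by positivity)]
  rw [h2, avr_mul_left, one_div, inv_mul_le_iff₀ hl] at h1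
  exact h1

/-- The second hypothesis of `levels`. -/
lemma level_two (X : (ZMod M → ℂ) → ZMod M → ℂ)
    (hmul : ∀ (c : ℂ) (F : ZMod M → ℂ), X (fun x => c * F x) = fun x => c * X F x) (R' : ℕ) (K : ℝ) (hK : 16 ≤ K)
    (hpt : ∀ (F : ZMod M → ℂ) (lam : ℝ), 0 ≤ lam → (∀ x, ‖F x‖ ≤ lam) → ∀ x, ‖X F x‖ ≤ 4 * lam)
    (hX : ∀ F : ZMod M → ℂ, Bd F → avr (fun x => ‖X F x‖) ≤ 4 / R') (F : ZMod M → ℂ) (lam : ℝ) (h0 : 0 ≤ lam)
    (hF : ∀ x, ‖F x‖ ≤ lam) : n2 (X F) ≤ K * lam ^ 2 / R' := by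
  have hR : (0 : ℝ) ≤ R' := Nat.cast_nonneg _
  rcases h0.eq_or_lt with h | h
  · subst h
    have h1 : ∀ x, ‖X F x‖ ≤ 0 := fun x => by
      have := hpt F 0 le_rfl hF x
      linarith
    have h2 := n2_le_mul (G := X F) (a := 0) (b := 0) h1 (by
      refine (avr_mono h1).trans ?_
      rw [avr_const]) le_rfl
    refine h2.trans ?_
    rw [mul_zero]
    positivity
  · have h2 := n2_le_mul (hpt F lam h0 hF) (mean_scale X hmul (4 / R') hX F lam h hF) (by positivity)
    refine h2.trans ?_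
    have h3 : 4 * lam * (lam * (4 / (R' : ℝ))) = 16 * lam ^ 2 / R' := by ring
    rw [h3]
    refine div_le_div_of_nonneg_right ?_ hR
    exact mul_le_mul_of_nonneg_right hK (by positivity)

end first

/-- A common constant for the improving inequality. -/
lemma improve_all {n D : ℕ} (P : Fin n → ℤ[X]) (hdeg : ∀ i, (P i).natDegree = D) (hD : 1 ≤ D) (B : ℕ) :
    ∃ C₀ : ℕ, 1 ≤ C₀ ∧ ∀ (M : ℕ) [NeZero M] (N r : ℕ), 1 ≤ r → 1 ≤ N → M ≤ B * N ^ D → ∀ (i : Fin n)
      (E : Finset (ZMod M)), E.card * r ^ C₀ ≤ M →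
      avr (fun x => AR N (P i) (ind E) x ^ 2) ≤ C₀ * ((E.card : ℝ) / M) / r := by
  have hex : ∀ i : Fin n, ∃ C : ℕ, 1 ≤ C ∧ ∀ (M : ℕ) [NeZero M] (N R : ℕ), 1 ≤ R → 1 ≤ N → M ≤ B * N ^ D →
      ∀ E : Finset (ZMod M), E.card * R ^ C ≤ M →
      avr (fun x => AR N (P i) (fun y => if y ∈ E then 1 else 0) x ^ 2) ≤ C * ((E.card : ℝ) / M) / R :=
    fun i => improve (P i) D (hdeg i) hD B
  choose C hC1 hC using hex
  refine ⟨1 + ∑ i, C i, by omega, ?_⟩
  intro M _ N r hr hN hM i E hE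
  have hCi : C i ≤ 1 + ∑ i, C i := by
    have := Finset.single_le_sum (f := C) (fun j _ => Nat.zero_le _) (mem_univ i)
    omega
  have h1 := hC i M N r hr hN hM E
    ((Nat.mul_le_mul_left _ (Nat.pow_le_pow_right hr hCi)).trans hE)
  have h2 : (fun x => AR N (P i) (ind E) x ^ 2) =
      fun x => AR N (P i) (fun y => if y ∈ E then 1 else 0) x ^ 2 := rfl
  rw [h2]
  refine h1.trans ?_
  refine div_le_div_of_nonneg_right ?_ (Nat.cast_nonneg _)
  refine mul_le_mul_of_nonneg_right ?_ (by positivity)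
  exact_mod_cast hCi

/-- The common part of the two theorems. -/
lemma common {n D : ℕ} (P : Fin n → ℤ[X]) (hdeg : ∀ i, (P i).natDegree = D) (hD : 1 ≤ D) (B : ℕ) :
    ∃ C' : ℕ, 1 ≤ C' ∧ ∀ (M : ℕ) [NeZero M] (N R R' : ℕ), 2 ≤ R → R ^ C' ≤ R' → 1 ≤ N → M ≤ B * N ^ D →
      ∀ (i : Fin n) (β : ℤ →₀ ℂ), mass β ≤ 4 → ∀ g : Fin n → ZMod M → ℂ, (∀ l, Bd (g l)) →
      (∀ F : ZMod M → ℂ, Bd F → avr (fun x => ‖AA N P (Function.update g i (cv β F)) x‖) ≤ 4 / R') →
      (∀ l, l ≠ i → ∀ F : ZMod M → ℂ, Bd F →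
        avr (fun x => ‖AA N P (Function.update (Function.update g i (cv β (g i))) l F) x‖) ≤ 4 / R') →
      ∀ F : ZMod M → ℂ, n2 (AA N P (Function.update g i (cv β F))) ≤ C' * n2 F / R ∧
      ∀ l, l ≠ i → n2 (AA N P (Function.update (Function.update g i (cv β (g i))) l F)) ≤ C' * n2 F / R := by
  obtain ⟨C₀, hC₀1, hC₀⟩ := improve_all P hdeg hD B
  have hC₀r : (1 : ℝ) ≤ C₀ := by exact_mod_cast hC₀1
  obtain ⟨C', hC'1, hC'⟩ := levels C₀ hC₀1 (16 * C₀) (by positivity)
  refine ⟨C', hC'1, ?_⟩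
  intro M _ N R R' hR hR' hN hM i β hβ g hg hA hB F
  have hm0 : 0 ≤ mass β := mass_nonneg β
  have hM0 : (0 : ℝ) < M := by exact_mod_cast Nat.pos_of_ne_zero (NeZero.ne M)
  constructor
  · refine hC' M (fun F => AA N P (Function.update g i (cv β F))) R R' hR hR' ?_ ?_ ?_ ?_ F
    · intro F G
      funext x
      have h : cv β (fun x => F x + G x) = fun y => cv β F y + cv β G y := funext (fun y => cv_fun_add β F G y)
      rw [h, AA_update_add]
    · intro c F
      funext x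
      have h : cv β (fun x => c * F x) = fun y => c * cv β F y := funext (fun y => cv_fun_mul β c F y)
      rw [h, AA_update_mul]
    · intro F lam S r hlam hr hF hS hcard
      have h1 : n2 (AA N P (Function.update g i (cv β F))) ≤
          avr (fun x => AR N (P i) (fun y => ‖cv β F y‖) x ^ 2) := by
        unfold n2
        refine avr_mono (fun x => ?_)
        exact pow_le_pow_left₀ (norm_nonneg _) (norm_A_le N P g hg i _ x) 2
      have h2 := avr_AR_cv_sq_le N (P i) β F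
      have h3 := avr_AR_sq_le N (P i) F lam S hF hS
      have h4 := hC₀ M N r hr hN hM i S hcard
      have h5 : mass β ^ 2 ≤ 16 := by nlinarith
      have h6 : 0 ≤ avr (fun x => AR N (P i) (ind S) x ^ 2) := avr_nonneg (fun x => sq_nonneg _)
      calc n2 (AA N P (Function.update g i (cv β F)))
          ≤ mass β ^ 2 * avr (fun x => AR N (P i) (fun y => ‖F y‖) x ^ 2) := h1.trans h2
        _ ≤ 16 * (lam ^ 2 * (C₀ * ((S.card : ℝ) / M) / r)) := by
            refine mul_le_mul h5 (h3.trans (mul_le_mul_of_nonneg_left h4 (by positivity)))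
              (avr_nonneg (fun x => sq_nonneg _)) (by norm_num)
        _ = 16 * C₀ * lam ^ 2 * ((S.card : ℝ) / M) / r := by ring
    · intro F lam hlam hF
      refine level_two (fun F => AA N P (Function.update g i (cv β F))) ?_ R' (16 * C₀) (by linarith) ?_ hA F lam
        hlam hF
      · intro c F
        funext x
        have h : cv β (fun x => c * F x) = fun y => c * cv β F y := funext (fun y => cv_fun_mul β c F y)
        rw [h, AA_update_mul]
      · intro F lam hlam hF x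
        refine norm_A_le_const N P g hg i _ (4 * lam) (by positivity) (fun y => ?_) x
        exact (norm_cv_le β F lam hF y).trans (mul_le_mul_of_nonneg_right hβ hlam)
  · intro l hl
    have hq : Bd (fun y => (1 / 4 : ℂ) * cv β (g i) y) := quarter_Bd β hβ (g i) (hg i)
    have hall : ∀ k, Bd (Function.update g i (fun y => (1 / 4 : ℂ) * cv β (g i) y) k) := by
      intro k
      by_cases hk : k = i
      · subst hk
        rw [Function.update_self]
        exact hq
      · rw [Function.update_of_ne hk]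
        exact hg k
    have hbound : ∀ (F : ZMod M → ℂ) (x : ZMod M),
        ‖AA N P (Function.update (Function.update g i (cv β (g i))) l F) x‖ ≤
          4 * AR N (P l) (fun y => ‖F y‖) x := by
      intro F x
      rw [second_eq N P g hl]
      exact mul_le_mul_of_nonneg_left (norm_A_le N P _ hall l F x) (by norm_num)
    refine hC' M (fun F => AA N P (Function.update (Function.update g i (cv β (g i))) l F)) R R' hR hR' ?_ ?_ ?_ ?_ F
    · intro F G
      funext x
      exact AA_update_add N P _ l F G x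
    · intro c F
      funext x
      exact AA_update_mul N P _ l c F x
    · intro F lam S r hlam hr hF hS hcard
      have h1 : n2 (AA N P (Function.update (Function.update g i (cv β (g i))) l F)) ≤
          16 * avr (fun x => AR N (P l) (fun y => ‖F y‖) x ^ 2) := by
        unfold n2
        rw [← avr_mul_left]
        refine avr_mono (fun x => ?_)
        calc ‖AA N P (Function.update (Function.update g i (cv β (g i))) l F) x‖ ^ 2
            ≤ (4 * AR N (P l) (fun y => ‖F y‖) x) ^ 2 :=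
              pow_le_pow_left₀ (norm_nonneg _) (hbound F x) 2
          _ = 16 * AR N (P l) (fun y => ‖F y‖) x ^ 2 := by ring
      have h3 := avr_AR_sq_le N (P l) F lam S hF hS
      have h4 := hC₀ M N r hr hN hM l S hcard
      calc n2 (AA N P (Function.update (Function.update g i (cv β (g i))) l F))
          ≤ 16 * avr (fun x => AR N (P l) (fun y => ‖F y‖) x ^ 2) := h1
        _ ≤ 16 * (lam ^ 2 * (C₀ * ((S.card : ℝ) / M) / r)) :=
            mul_le_mul_of_nonneg_left (h3.trans (mul_le_mul_of_nonneg_left h4 (by positivity))) (by norm_num)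
        _ = 16 * C₀ * lam ^ 2 * ((S.card : ℝ) / M) / r := by ring
    · intro F lam hlam hF
      refine level_two (fun F => AA N P (Function.update (Function.update g i (cv β (g i))) l F)) ?_ R' (16 * C₀)
        (by linarith) ?_ (hB l hl) F lam hlam hF
      · intro c F
        funext x
        exact AA_update_mul N P _ l c F x
      · intro F lam hlam hF x
        refine (hbound F x).trans (mul_le_mul_of_nonneg_left ?_ (by norm_num))
        unfold AR
        exact tvr_le N hlam (fun t _ => hF _)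

section fibre

lemma sum_range_cast (h : ZMod M → ℂ) : ∑ i ∈ range M, h ((i : ℕ) : ZMod M) = ∑ z, h z := by
  refine Finset.sum_nbij' (fun i => (i : ZMod M)) (fun z => z.val) ?_ ?_ ?_ ?_ ?_
  · intro i _
    exact mem_univ _
  · intro z _
    exact mem_range.mpr (ZMod.val_lt z)
  · intro i hi
    exact ZMod.val_cast_of_lt (mem_range.mp hi)
  · intro z _
    exact ZMod.natCast_zmod_val z
  · intro i _
    rfl

/-- Averages along the full subgroup generated by `q` are invariant under multiples of `q`. -/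
lemma Eb_shift (q k : ℕ) (F : ZMod M → ℂ) (x : ZMod M) : Eb q M F (x + ((q * k : ℕ) : ZMod M)) = Eb q M F x := by
  unfold Eb tv
  congr 1
  have h1 : ∑ i ∈ range M, F (x + ((q * k : ℕ) : ZMod M) + ((q * i : ℕ) : ZMod M)) =
      ∑ i ∈ range M, (fun z : ZMod M => F (x + (q : ZMod M) * (z + (k : ZMod M)))) ((i : ℕ) : ZMod M) := by
    refine sum_congr rfl (fun i _ => ?_)
    simp only
    congr 1
    push_cast
    ring
  have h2 : ∑ i ∈ range M, F (x + ((q * i : ℕ) : ZMod M)) =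
      ∑ i ∈ range M, (fun z : ZMod M => F (x + (q : ZMod M) * z)) ((i : ℕ) : ZMod M) := by
    refine sum_congr rfl (fun i _ => ?_)
    simp only
    congr 1
    push_cast
    ring
  rw [h1, h2, sum_range_cast (fun z : ZMod M => F (x + (q : ZMod M) * (z + (k : ZMod M)))),
    sum_range_cast (fun z : ZMod M => F (x + (q : ZMod M) * z))]
  exact Fintype.sum_equiv (Equiv.addRight (k : ZMod M)) _ _ (fun z => rfl)

lemma Eb_sub_eq_zero (q Q : ℕ) (hq : q ∣ Q) (F : ZMod M → ℂ) (x : ZMod M) :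
    Eb q M (fun y => F y - Eb Q M F y) x = 0 := by
  obtain ⟨k, rfl⟩ := hq
  have hM : M ≠ 0 := NeZero.ne M
  have hMc : (M : ℂ) ≠ 0 := by exact_mod_cast hM
  have h1 : Eb q M (fun y => F y - Eb (q * k) M F y) x = Eb q M F x - Eb q M (Eb (q * k) M F) x := by
    unfold Eb
    rw [tv_sub]
  have h2 : Eb q M (Eb (q * k) M F) x = Eb q M F x := by
    have h3 : Eb q M (Eb (q * k) M F) x =
        tv M (fun j => Eb q M F (x + ((q * (k * j) : ℕ) : ZMod M))) := by
      unfold Eb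
      rw [tv_comm]
      congr 1
      funext j
      congr 1
      funext i
      congr 1
      push_cast
      ring
    rw [h3]
    simp only [Eb_shift]
    unfold tv
    rw [sum_const, card_range, nsmul_eq_mul, mul_div_assoc, mul_div_cancel₀ _ hMc]
  rw [h1, h2, sub_self]

lemma Eb_quarter (q : ℕ) (u : ZMod M → ℂ) (x : ZMod M) (h : Eb q M u x = 0) :
    Eb q M (fun y => (1 / 4 : ℂ) * u y) x = 0 := by
  unfold Eb at h ⊢
  rw [tv_mul_left, h, mul_zero]

lemma cv_fib (Q : ℕ) (F : ZMod M → ℂ) : cv (dlt - bk Q M) F = fun y => F y - Eb Q M F y := by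
  funext y
  rw [cv_sub, cv_dlt, cv_bk]

end fibre

end L2locAux

open L2locAux in
theorem l2loc {n D : ℕ} {P : Fin n → ℤ[X]} {e : Fin n → ℕ} {i₀ : Fin n} (h : EqDeg D P e i₀) (B : ℕ) :
    ∃ C : ℕ, 1 ≤ C ∧ ∀ (M : ℕ) [NeZero M] (N R : ℕ), 2 ≤ R → R ^ C ≤ N → M ≤ B * N ^ D → ∀ (i : Fin n) (β : ℤ →₀ ℂ), mass β ≤ 4 →
      NS C R (N ^ e i) β → ∀ g : Fin n → ZMod M → ℂ, (∀ l, Bd (g l)) → ∀ F : ZMod M → ℂ,
      n2 (AA N P (Function.update g i (cv β F))) ≤ C * n2 F / R ∧
      ∀ l, l ≠ i → n2 (AA N P (Function.update (Function.update g i (cv β (g i))) l F)) ≤ C * n2 F / R := by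
  have hD : 1 ≤ D := le_trans (by norm_num) h.two
  obtain ⟨C', hC'1, hC'⟩ := common P h.deg hD B
  obtain ⟨Cg, hCg1, hCg⟩ := gainB P e h.pos h.inv
  refine ⟨C' * Cg, Nat.mul_pos hC'1 hCg1, ?_⟩
  intro M _ N R hR hN hM i β hβ hNS g hg F
  have hR1 : 1 ≤ R := by omega
  have hR2 : 2 ≤ R ^ C' := by
    calc 2 ≤ R := hR
      _ = R ^ 1 := (pow_one R).symm
      _ ≤ R ^ C' := Nat.pow_le_pow_right hR1 hC'1
  have hN1 : 1 ≤ N := (Nat.one_le_pow _ _ hR1).trans hN
  have hNS' : NS Cg (R ^ C') (N ^ e i) β := by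
    intro r hr1 hr2 θ
    rw [← pow_mul] at hr2 ⊢
    have := hNS r hr1 hr2 θ
    push_cast
    rw [← pow_mul]
    exact this
  obtain ⟨hA, hB⟩ := hCg M N (R ^ C') hR2 (by rw [← pow_mul]; exact hN) i β hβ hNS' g hg
  obtain ⟨h1, h2⟩ := hC' M N R (R ^ C') hR le_rfl hN1 hM i β hβ g hg hA hB F
  have hle : (C' : ℝ) * n2 F / R ≤ ((C' * Cg : ℕ) : ℝ) * n2 F / R := by
    refine div_le_div_of_nonneg_right ?_ (Nat.cast_nonneg _)
    refine mul_le_mul_of_nonneg_right ?_ (n2_nonneg F)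
    exact_mod_cast Nat.le_mul_of_pos_right C' (by omega)
  exact ⟨h1.trans hle, fun l hl => (h2 l hl).trans hle⟩

open L2locAux in
/-- The fibre: `N = M`; the function in slot `i` is `F - E F`, `E` the average over the subgroup `Q ZMod M`, all `q ≤ R ^ C` divide `Q`. -/
theorem l2fib {n D : ℕ} {P : Fin n → ℤ[X]} {e : Fin n → ℕ} {i₀ : Fin n} (h : EqDeg D P e i₀) :
    ∃ C : ℕ, 1 ≤ C ∧ ∀ (M : ℕ) [NeZero M] (R Q : ℕ), 2 ≤ R → Q ∣ M → (∀ q, 1 ≤ q → q ≤ R ^ C → q ∣ Q) → ∀ (i : Fin n)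
      (g : Fin n → ZMod M → ℂ), (∀ l, Bd (g l)) → ∀ F : ZMod M → ℂ,
      n2 (AA M P (Function.update g i (fun y => F y - Eb Q M F y))) ≤ C * n2 F / R ∧
      ∀ l, l ≠ i → n2 (AA M P (Function.update (Function.update g i (fun y => g i y - Eb Q M (g i) y)) l F)) ≤ C * n2 F / R := by
  have hD : 1 ≤ D := le_trans (by norm_num) h.two
  obtain ⟨C', hC'1, hC'⟩ := common P h.deg hD 1
  obtain ⟨Cg, hCg1, hCg⟩ := gainC P e h.pos h.inv
  refine ⟨C' * Cg, Nat.mul_pos hC'1 hCg1, ?_⟩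
  intro M _ R Q hR hQ hq i g hg F
  have hR1 : 1 ≤ R := by omega
  have hR2 : 2 ≤ R ^ C' := by
    calc 2 ≤ R := hR
      _ = R ^ 1 := (pow_one R).symm
      _ ≤ R ^ C' := Nat.pow_le_pow_right hR1 hC'1
  have hM1 : 1 ≤ M := NeZero.pos M
  have hMD : M ≤ 1 * M ^ D := by
    rw [one_mul]
    calc M = M ^ 1 := (pow_one M).symm
      _ ≤ M ^ D := Nat.pow_le_pow_right hM1 hD
  set β : ℤ →₀ ℂ := dlt - bk Q M with hβd
  have hβ : mass β ≤ 4 := by
    have h1 := mass_sub_le dlt (bk Q M)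
    have h2 := mass_bk_le Q M
    rw [mass_dlt] at h1
    linarith
  have hvan : ∀ (G : ZMod M → ℂ) (q : ℕ), 1 ≤ q → q ≤ (R ^ C') ^ Cg → ∀ x, Eb q M (cv β G) x = 0 := by
    intro G q hq1 hq2 x
    rw [← pow_mul] at hq2
    rw [hβd, cv_fib]
    exact Eb_sub_eq_zero q Q (hq q hq1 hq2) G x
  have hA : ∀ F : ZMod M → ℂ, Bd F →
      avr (fun x => ‖AA M P (Function.update g i (cv β F)) x‖) ≤ 4 / ((R ^ C' : ℕ) : ℝ) := by
    intro F hF
    have h1 := hCg M (R ^ C') hR2 i (Function.update g i (fun y => (1 / 4 : ℂ) * cv β F y)) ?_ ?_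
    · have h2 : (fun x => ‖AA M P (Function.update g i (cv β F)) x‖) =
          fun x => 4 * ‖AA M P (Function.update g i (fun y => (1 / 4 : ℂ) * cv β F y)) x‖ :=
        funext (fun x => A_quarter M P g i (cv β F) x)
      rw [h2, avr_mul_left]
      have h3 : (4 : ℝ) / ((R ^ C' : ℕ) : ℝ) = 4 * (1 / ((R ^ C' : ℕ) : ℝ)) := by ring
      rw [h3]
      exact mul_le_mul_of_nonneg_left h1 (by norm_num)
    · intro l
      by_cases hl : l = i
      · subst hl
        rw [Function.update_self]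
        exact quarter_Bd β hβ F hF
      · rw [Function.update_of_ne hl]
        exact hg l
    · intro q hq1 hq2 x
      rw [Function.update_self]
      exact Eb_quarter q _ x (hvan F q hq1 hq2 x)
  have hB : ∀ l, l ≠ i → ∀ F : ZMod M → ℂ, Bd F →
      avr (fun x => ‖AA M P (Function.update (Function.update g i (cv β (g i))) l F) x‖) ≤
        4 / ((R ^ C' : ℕ) : ℝ) := by
    intro l hl F hF
    have h1 := hCg M (R ^ C') hR2 i
      (Function.update (Function.update g i (fun y => (1 / 4 : ℂ) * cv β (g i) y)) l F) ?_ ?_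
    · have h2 : (fun x => ‖AA M P (Function.update (Function.update g i (cv β (g i))) l F) x‖) =
          fun x => 4 * ‖AA M P (Function.update (Function.update g i
            (fun y => (1 / 4 : ℂ) * cv β (g i) y)) l F) x‖ :=
        funext (fun x => second_eq M P g hl (cv β (g i)) F x)
      rw [h2, avr_mul_left]
      have h3 : (4 : ℝ) / ((R ^ C' : ℕ) : ℝ) = 4 * (1 / ((R ^ C' : ℕ) : ℝ)) := by ring
      rw [h3]
      exact mul_le_mul_of_nonneg_left h1 (by norm_num)
    · intro k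
      by_cases hk : k = l
      · subst hk
        rw [Function.update_self]
        exact hF
      · rw [Function.update_of_ne hk]
        by_cases hki : k = i
        · subst hki
          rw [Function.update_self]
          exact quarter_Bd β hβ _ (hg k)
        · rw [Function.update_of_ne hki]
          exact hg k
    · intro q hq1 hq2 x
      rw [Function.update_of_ne (Ne.symm hl), Function.update_self]
      exact Eb_quarter q _ x (hvan (g i) q hq1 hq2 x)
  obtain ⟨h1, h2⟩ := hC' M M R (R ^ C') hR le_rfl hM1 hMD i β hβ g hg hA hB F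
  have hle : (C' : ℝ) * n2 F / R ≤ ((C' * Cg : ℕ) : ℝ) * n2 F / R := by
    refine div_le_div_of_nonneg_right ?_ (Nat.cast_nonneg _)
    refine mul_le_mul_of_nonneg_right ?_ (n2_nonneg F)
    exact_mod_cast Nat.le_mul_of_pos_right C' (by omega)
  rw [← cv_fib, ← cv_fib]
  exact ⟨h1.trans hle, fun l hl => (h2 l hl).trans hle⟩

end Pool.Agent.EQD
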