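import Pool.Agent.Lib.EQD.Shl
import Pool.Agent.Lib.EQD.En1
import Pool.Agent.Lib.EQD.NSb

/-!
# Module PcD: double differences

PROOF. `T = tj j ≥ t + 1`, `g₀ = QB B (t + 1) / QB B t`, `Q = QB B t`, `Q⁺ = g₀ Q`; `K_k j = (N j ^ e / 2 ^ k) / QB B T * (QB B T / Q⁺)`, so the box of modulus `Q` has exactly `g₀ K_k j`
terms, and by `dk_mul` `dk (g₀ K) (Q θ) = τ dk K (Q⁺ θ)`, `τ = dk g₀ (Q θ)`. `δ j` = double difference of the four boxes, `mul (δ j) θ = (1 - τ)(dk K_(k+1) (Q⁺ θ) - dk K_k (Q⁺ θ))`: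
`∑ ‖mul (δ j) θ‖ ^ 2 ≤ 4 G` by `en_dk` (lengths as in PcS). Averaging kernel `q j = Q`, `K j = g₀ K_m j`: with `b = nrm (Q θ)`:
`‖(1 - τ) dk (g₀ K_m) (Q θ)‖ ≤ π g₀ b ‖dk (g₀ K_m) (Q θ)‖ ≤ π / (2 K_m)`. So `(‖dk (K j) (q j θ)‖ ‖mul (δ j) θ‖) ^ 2 ≤ (8 / K_m j) ^ 2`, and `K_m j ≥ 2 ^ (j / 2)` by `hN`,
hence the sum over `j ∈ s` is `≤ 256 / 2 ^ t`. `NS` by `ns_box` as in PcS (`8 (Q g₀ K_m) R ^ (2 C) ≤ N j ^ e`).
-/

set_option autoImplicit false

open Finset Polynomial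

namespace Pool.Agent.EQD

open Pool.Agent.HLT Pool.Agent.NLT Pool.Agent.NLG

namespace PcDAux

lemma len_facts (X κ q q' : ℕ) (hq : 1 ≤ q) (hd : q' ∣ q) (hX : 2 ^ κ * q ≤ X) :
    X / 2 ^ κ / q * (q / q') * q' * 2 ^ κ ≤ X ∧ X ≤ 2 * (X / 2 ^ κ / q * (q / q') * q' * 2 ^ κ) ∧
      X / 2 ^ κ / q ≤ X / 2 ^ κ / q * (q / q') := by
  obtain ⟨r, hr⟩ := hd
  have hq' : 1 ≤ q' := by
    rcases Nat.eq_zero_or_pos q' with h0 | h0
    · rw [h0, zero_mul] at hr; omega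
    · exact h0
  have hr1 : 1 ≤ r := by
    rcases Nat.eq_zero_or_pos r with h0 | h0
    · rw [h0, mul_zero] at hr; omega
    · exact h0
  have h1 : q / q' = r := by rw [hr]; exact Nat.mul_div_cancel_left r (by omega)
  rw [h1, Nat.div_div_eq_div_mul]
  set L := X / (2 ^ κ * q) with hL
  have hpos : 0 < 2 ^ κ * q := Nat.mul_pos (pow_pos (by norm_num) _) (by omega)
  have h2 : L * r * q' * 2 ^ κ = L * (2 ^ κ * q) := by rw [hr]; ring
  have h3 : L * (2 ^ κ * q) ≤ X := Nat.div_mul_le_self X _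
  have h4 : X < (L + 1) * (2 ^ κ * q) := by
    have := Nat.div_add_mod X (2 ^ κ * q)
    have h5 := Nat.mod_lt X hpos
    rw [← hL] at this
    nlinarith
  have h5 : 1 ≤ L := (Nat.one_le_div_iff hpos).mpr hX
  refine ⟨by rw [h2]; exact h3, ?_, Nat.le_mul_of_pos_right L (by omega)⟩
  rw [h2]
  have h6 : (L + 1) * (2 ^ κ * q) ≤ 2 * (L * (2 ^ κ * q)) := by nlinarith
  omega

lemma geo (s : Finset ℕ) (t : ℕ) (h : ∀ j ∈ s, t ≤ j) :
    ∑ j ∈ s, (1 / 2 : ℝ) ^ j ≤ 2 * (1 / 2 : ℝ) ^ t := by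
  have h1 : ∑ j ∈ s, (1 / 2 : ℝ) ^ j = (1 / 2 : ℝ) ^ t * ∑ i ∈ s.image (fun j => j - t), (1 / 2 : ℝ) ^ i := by
    rw [Finset.sum_image, Finset.mul_sum]
    · apply Finset.sum_congr rfl
      intro j hj
      rw [← pow_add]
      congr 1
      have := h j hj
      omega
    · intro a ha b hb hab
      have h1 := h a ha
      have h2 := h b hb
      simp only at hab
      omega
  have h2 : ∑ i ∈ s.image (fun j => j - t), (1 / 2 : ℝ) ^ i ≤ 2 := by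
    have h3 := summable_geometric_two.sum_le_tsum (s.image (fun j => j - t))
      (fun i _ => by positivity)
    rwa [tsum_geometric_two] at h3
  rw [h1]
  have h3 : (0 : ℝ) ≤ (1 / 2) ^ t := by positivity
  nlinarith

lemma band (g K : ℕ) (hg : 1 ≤ g) (hK : 1 ≤ K) (β : ℝ) :
    ‖dk (g * K) β‖ * ‖1 - dk g β‖ ≤ 2 / K := by
  have h1 := norm_one_sub_dk g hg β
  have h2 := dk_mul_nrm (g * K) β
  have hK' : (0 : ℝ) < K := by exact_mod_cast hK
  rw [le_div_iff₀ hK']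
  have h0 : 0 ≤ ‖dk (g * K) β‖ := norm_nonneg _
  have h3 : ‖dk (g * K) β‖ * ‖1 - dk g β‖ * K ≤ ‖dk (g * K) β‖ * (Real.pi * g * nrm β) * K := by
    apply mul_le_mul_of_nonneg_right _ hK'.le
    exact mul_le_mul_of_nonneg_left h1 h0
  have h4 : ‖dk (g * K) β‖ * (Real.pi * g * nrm β) * K =
      Real.pi / 2 * (‖dk (g * K) β‖ * (2 * ((g * K : ℕ) : ℝ) * nrm β)) := by
    push_cast
    ring
  have h5 : Real.pi / 2 * (‖dk (g * K) β‖ * (2 * ((g * K : ℕ) : ℝ) * nrm β)) ≤ Real.pi / 2 * 1 := by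
    apply mul_le_mul_of_nonneg_left h2
    have := Real.pi_pos
    linarith
  have h6 : Real.pi / 2 * 1 ≤ 2 := by
    have := Real.pi_le_four
    linarith
  linarith

end PcDAux

open PcDAux in
theorem piece_dbl {n D : ℕ} {P : Fin n → ℤ[X]} {e : Fin n → ℕ} {i₀ : Fin n} (h : EqDeg D P e i₀) :
    ∃ C : ℕ, 1 ≤ C ∧ ∀ (M : ℕ) [NeZero M] (N : ℕ → ℕ), Sc N → ∀ (B t k m R : ℕ) (s : Finset ℕ), 1 ≤ B → 1 ≤ t → 2 ≤ R →
      R ^ C ≤ 2 ^ t → 8 * R ^ (2 * C) ≤ 2 ^ m →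
      (∀ j ∈ s, t + 1 ≤ tj j ∧ 2 ^ (k + m + 3) * QB B (tj j) ^ 2 * 2 ^ (j / 2) ≤ N j ∧ R ^ C ≤ N j) →
      ∀ (i : Fin n) (g : ℕ → Fin n → ZMod M → ℂ), (∀ j l, Bd (g j l)) → ∀ f : ZMod M → ℂ, Bd f →
      ∑ j ∈ s, n2 (AA (N j) P (Function.update (g j) i (fun x =>
        (Ew B (t + 1) (tj j) (N j ^ e i / 2 ^ (k + 1)) f x - Ew B (t + 1) (tj j) (N j ^ e i / 2 ^ k) f x) -
        (Ew B t (tj j) (N j ^ e i / 2 ^ (k + 1)) f x - Ew B t (tj j) (N j ^ e i / 2 ^ k) f x)))) ≤ C / R := by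
  obtain ⟨C₁, hC₁, hsh⟩ := shell h
  have hA : (1 : ℝ) ≤ 4 * 2 ^ D := by
    have : (1 : ℝ) ≤ 2 ^ D := one_le_pow₀ (by norm_num)
    linarith
  obtain ⟨G, hG0, hG⟩ := en_dk (4 * 2 ^ D) hA
  set c : ℕ := ⌈(C₁ : ℝ) * (4 * G) + 1024⌉₊ with hc
  have hc' : (C₁ : ℝ) * (4 * G) + 1024 ≤ c := Nat.le_ceil _
  refine ⟨max C₁ c, le_max_of_le_left hC₁, ?_⟩
  intro M _ N hN B t k m R s hB ht hR hRt hRm hs i g hg f hf
  have hR1 : 1 ≤ R := by omega
  have hRC : R ^ C₁ ≤ R ^ (max C₁ c) := Nat.pow_le_pow_right hR1 (le_max_left _ _)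
  have hRC2 : R ^ (2 * C₁) ≤ R ^ (2 * max C₁ c) :=
    Nat.pow_le_pow_right hR1 (by have := le_max_left C₁ c; omega)
  set Q := QB B t with hQ
  set Q' := QB B (t + 1) with hQ'
  have hQ1 : 1 ≤ Q := QB_pos B t
  have hQ'1 : 1 ≤ Q' := QB_pos B (t + 1)
  obtain ⟨g₀, hg₀⟩ : Q ∣ Q' := QB_dvd B t (t + 1) (by omega)
  have hg₀1 : 1 ≤ g₀ := by
    rcases Nat.eq_zero_or_pos g₀ with h0 | h0
    · rw [h0, mul_zero] at hg₀; omega
    · exact h0
  let K : ℕ → ℕ → ℕ := fun κ j => N j ^ e i / 2 ^ κ / QB B (tj j) * (QB B (tj j) / Q')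
  have he1 : 1 ≤ e i := h.pos i
  have heD : e i < D := h.lt i
  have hNj1 : ∀ j, 1 ≤ N j := fun j => le_trans (Nat.one_le_two_pow) (hN j).1
  -- facts on the lengths
  have hX : ∀ j ∈ s, ∀ κ, κ ≤ k + m + 3 →
      2 ^ κ * QB B (tj j) * 2 ^ (j / 2) ≤ N j ^ e i := by
    intro j hj κ hκ
    have h1 := (hs j hj).2.1
    have h2 : N j ≤ N j ^ e i := Nat.le_self_pow (by omega) _
    refine le_trans ?_ (h1.trans h2)
    apply Nat.mul_le_mul_right
    apply Nat.mul_le_mul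
    · exact Nat.pow_le_pow_right (by norm_num) hκ
    · exact Nat.le_self_pow (by norm_num) _
  have hX' : ∀ j ∈ s, ∀ κ, κ ≤ k + m + 3 → 2 ^ κ * QB B (tj j) ≤ N j ^ e i := by
    intro j hj κ hκ
    refine le_trans ?_ (hX j hj κ hκ)
    exact Nat.le_mul_of_pos_right _ (by positivity)
  have hdv : ∀ j ∈ s, Q' ∣ QB B (tj j) := fun j hj => QB_dvd B (t + 1) (tj j) (hs j hj).1
  have hlen : ∀ j ∈ s, ∀ κ, κ ≤ k + m + 3 →
      K κ j * Q' * 2 ^ κ ≤ N j ^ e i ∧ N j ^ e i ≤ 2 * (K κ j * Q' * 2 ^ κ) ∧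
        N j ^ e i / 2 ^ κ / QB B (tj j) ≤ K κ j := by
    intro j hj κ hκ
    exact len_facts (N j ^ e i) κ (QB B (tj j)) Q' (QB_pos _ _) (hdv j hj) (hX' j hj κ hκ)
  have hKm : ∀ j ∈ s, 2 ^ (j / 2) ≤ K m j := by
    intro j hj
    refine le_trans ?_ (hlen j hj m (by omega)).2.2
    rw [Nat.div_div_eq_div_mul, Nat.le_div_iff_mul_le
      (Nat.mul_pos (pow_pos (by norm_num) _) (QB_pos _ _))]
    have := hX j hj m (by omega)
    calc 2 ^ (j / 2) * (2 ^ m * QB B (tj j)) = 2 ^ m * QB B (tj j) * 2 ^ (j / 2) := by ring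
      _ ≤ _ := this
  have hKm1 : ∀ j ∈ s, 1 ≤ K m j := fun j hj => le_trans Nat.one_le_two_pow (hKm j hj)
  -- the kernel
  let δ : ℕ → ℤ →₀ ℂ := fun j =>
    (bk Q' (K (k + 1) j) - bk Q' (K k j)) - (bk Q (g₀ * K (k + 1) j) - bk Q (g₀ * K k j))
  have hEw1 : ∀ j ∈ s, ∀ κ, Ew B (t + 1) (tj j) (N j ^ e i / 2 ^ κ) f = cv (bk Q' (K κ j)) f := by
    intro j hj κ
    rw [cv_bk]
    rfl
  have hEw0 : ∀ j ∈ s, ∀ κ, Ew B t (tj j) (N j ^ e i / 2 ^ κ) f = cv (bk Q (g₀ * K κ j)) f := by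
    intro j hj κ
    rw [cv_bk]
    unfold Ew
    have h1 : N j ^ e i / 2 ^ κ / QB B (tj j) * (QB B (tj j) / QB B t) = g₀ * K κ j := by
      obtain ⟨r, hr⟩ := hdv j hj
      show N j ^ e i / 2 ^ κ / QB B (tj j) * (QB B (tj j) / Q) =
        g₀ * (N j ^ e i / 2 ^ κ / QB B (tj j) * (QB B (tj j) / Q'))
      have h2 : QB B (tj j) / Q' = r := by
        rw [hr]; exact Nat.mul_div_cancel_left r (by omega)
      have h3 : QB B (tj j) / Q = g₀ * r := by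
        rw [hr, hg₀, mul_assoc]
        exact Nat.mul_div_cancel_left _ (by omega)
      rw [h2, h3]
      ring
    rw [h1]
  have hfun : ∀ j ∈ s, (fun x =>
        (Ew B (t + 1) (tj j) (N j ^ e i / 2 ^ (k + 1)) f x - Ew B (t + 1) (tj j) (N j ^ e i / 2 ^ k) f x) -
        (Ew B t (tj j) (N j ^ e i / 2 ^ (k + 1)) f x - Ew B t (tj j) (N j ^ e i / 2 ^ k) f x)) =
        cv (δ j) f := by
    intro j hj
    funext x
    rw [hEw1 j hj, hEw1 j hj, hEw0 j hj, hEw0 j hj]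
    show _ = cv ((bk Q' (K (k + 1) j) - bk Q' (K k j)) -
      (bk Q (g₀ * K (k + 1) j) - bk Q (g₀ * K k j))) f x
    rw [cv_sub, cv_sub, cv_sub]
  have hmul : ∀ j, ∀ θ : ℝ, mul (δ j) θ =
      (1 - dk g₀ (Q * θ)) * (dk (K (k + 1) j) (Q' * θ) - dk (K k j) (Q' * θ)) := by
    intro j θ
    show mul ((bk Q' (K (k + 1) j) - bk Q' (K k j)) -
      (bk Q (g₀ * K (k + 1) j) - bk Q (g₀ * K k j))) θ = _
    rw [mul_sub', mul_sub', mul_sub', mul_bk, mul_bk, mul_bk, mul_bk,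
      dk_mul g₀ (K (k + 1) j) (Q * θ), dk_mul g₀ (K k j) (Q * θ)]
    have h1 : (g₀ : ℝ) * (Q * θ) = Q' * θ := by
      rw [hg₀]; push_cast; ring
    rw [h1]
    ring
  have hnorm : ∀ j, ∀ θ : ℝ, ‖mul (δ j) θ‖ =
      ‖1 - dk g₀ (Q * θ)‖ * ‖dk (K (k + 1) j) (Q' * θ) - dk (K k j) (Q' * θ)‖ := by
    intro j θ
    rw [hmul, norm_mul]
  have hone : ∀ θ : ℝ, ‖1 - dk g₀ (Q * θ)‖ ≤ 2 := by
    intro θ
    calc ‖1 - dk g₀ (Q * θ)‖ ≤ ‖(1 : ℂ)‖ + ‖dk g₀ (Q * θ)‖ := norm_sub_le _ _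
      _ ≤ 1 + 1 := by rw [norm_one]; linarith [norm_dk_le_one g₀ (Q * θ)]
      _ = 2 := by norm_num
  have hdif : ∀ j, ∀ α : ℝ, ‖dk (K (k + 1) j) α - dk (K k j) α‖ ≤ 2 := by
    intro j α
    calc ‖dk (K (k + 1) j) α - dk (K k j) α‖ ≤ ‖dk (K (k + 1) j) α‖ + ‖dk (K k j) α‖ := norm_sub_le _ _
      _ ≤ 1 + 1 := add_le_add (norm_dk_le_one _ _) (norm_dk_le_one _ _)
      _ = 2 := by norm_num
  -- energy
  have hen : ∀ α : ℝ, ∑ j ∈ s, ‖dk (K (k + 1) j) α - dk (K k j) α‖ ^ 2 ≤ G := by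
    have hQ'pos : (0 : ℝ) < Q' := by exact_mod_cast hQ'1
    apply hG (e i) he1 s (K k) (K (k + 1)) (1 / (2 ^ (k + 2) * (Q' : ℝ))) (by positivity)
    intro j hj
    have hlo : (2 : ℝ) ^ (e i * j) ≤ ((N j ^ e i : ℕ) : ℝ) := by
      have h1 : 2 ^ (e i * j) ≤ N j ^ e i := by
        rw [mul_comm, pow_mul]
        exact Nat.pow_le_pow_left (hN j).1 _
      exact_mod_cast h1
    have hup : ((N j ^ e i : ℕ) : ℝ) ≤ 2 ^ D * 2 ^ (e i * j) := by
      have h1 : N j ^ e i ≤ 2 ^ D * 2 ^ (e i * j) := by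
        calc N j ^ e i ≤ (2 ^ (j + 1)) ^ e i := Nat.pow_le_pow_left (hN j).2.le _
          _ = 2 ^ e i * 2 ^ (e i * j) := by rw [← pow_mul, ← pow_add]; congr 1; ring
          _ ≤ 2 ^ D * 2 ^ (e i * j) := by
              apply Nat.mul_le_mul_right
              exact Nat.pow_le_pow_right (by norm_num) heD.le
      exact_mod_cast h1
    have hk := hlen j hj k (by omega)
    have hk1 := hlen j hj (k + 1) (by omega)
    have a1 : (K k j : ℝ) * Q' * 2 ^ k ≤ ((N j ^ e i : ℕ) : ℝ) := by exact_mod_cast hk.1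
    have a2 : ((N j ^ e i : ℕ) : ℝ) ≤ 2 * ((K k j : ℝ) * Q' * 2 ^ k) := by exact_mod_cast hk.2.1
    have b1 : (K (k + 1) j : ℝ) * Q' * 2 ^ (k + 1) ≤ ((N j ^ e i : ℕ) : ℝ) := by exact_mod_cast hk1.1
    have b2 : ((N j ^ e i : ℕ) : ℝ) ≤ 2 * ((K (k + 1) j : ℝ) * Q' * 2 ^ (k + 1)) := by
      exact_mod_cast hk1.2.1
    have hw : (0 : ℝ) < 2 ^ (k + 2) * (Q' : ℝ) := by positivity
    have e1 : 1 / (2 ^ (k + 2) * (Q' : ℝ)) * 2 ^ (e i * j) = 2 ^ (e i * j) / (2 ^ (k + 2) * (Q' : ℝ)) := by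
      ring
    have e2 : (4 * 2 ^ D : ℝ) * (1 / (2 ^ (k + 2) * (Q' : ℝ)) * 2 ^ (e i * j)) =
        4 * (2 ^ D * 2 ^ (e i * j)) / (2 ^ (k + 2) * (Q' : ℝ)) := by ring
    have p2 : (2 : ℝ) ^ (k + 2) = 4 * 2 ^ k := by ring
    have p1 : (2 : ℝ) ^ (k + 1) = 2 * 2 ^ k := by ring
    have hQK : 0 ≤ (K (k + 1) j : ℝ) * Q' * 2 ^ k := by positivity
    have hQK0 : 0 ≤ (K k j : ℝ) * Q' * 2 ^ k := by positivity
    rw [e2, e1]
    refine ⟨?_, ?_, ?_, ?_⟩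
    · rw [div_le_iff₀ hw, p2]
      nlinarith
    · rw [le_div_iff₀ hw, p2]
      nlinarith
    · rw [div_le_iff₀ hw, p2]
      rw [p1] at b2
      nlinarith
    · rw [le_div_iff₀ hw, p2]
      rw [p1] at b1
      nlinarith
  -- apply shell
  have key := hsh M N s i δ (fun _ => Q) (fun j => g₀ * K m j) R (4 * G) (512 * (1 / 2) ^ t) hR
    (by
      intro j hj
      have hKQ : Q * (g₀ * K m j) = K m j * Q' := by rw [hg₀]; ring
      have hm := hlen j hj m (by omega)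
      have h1 : K m j * Q' ≤ N j ^ e i := by
        refine le_trans ?_ hm.1
        exact Nat.le_mul_of_pos_right _ (by positivity)
      refine ⟨hRC.trans (hs j hj).2.2, ?_, ?_⟩
      · show Q * (g₀ * K m j) ≤ N j ^ D
        rw [hKQ]
        exact h1.trans (Nat.pow_le_pow_right (hNj1 j) heD.le)
      · apply ns_box C₁ R (N j ^ e i) Q (g₀ * K m j) hR
        · exact Nat.mul_pos hg₀1 (hKm1 j hj)
        · intro r hr1 hr2
          exact dvd_QB B t r hB ht hr1 (hr2.trans (hRC.trans hRt))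
        · exact hQ1
        · rw [hKQ]
          calc 8 * (K m j * Q') * R ^ (2 * C₁) = K m j * Q' * (8 * R ^ (2 * C₁)) := by ring
            _ ≤ K m j * Q' * 2 ^ m := by
                apply Nat.mul_le_mul_left
                exact (Nat.mul_le_mul_left 8 hRC2).trans hRm
            _ ≤ N j ^ e i := hm.1)
    (by
      intro θ
      calc ∑ j ∈ s, ‖mul (δ j) θ‖ ^ 2
          ≤ ∑ j ∈ s, 4 * ‖dk (K (k + 1) j) (Q' * θ) - dk (K k j) (Q' * θ)‖ ^ 2 := by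
            apply Finset.sum_le_sum
            intro j _
            rw [hnorm, mul_pow]
            apply mul_le_mul_of_nonneg_right _ (by positivity)
            have h1 := hone θ
            have h0 : 0 ≤ ‖1 - dk g₀ (Q * θ)‖ := norm_nonneg _
            nlinarith
        _ = 4 * ∑ j ∈ s, ‖dk (K (k + 1) j) (Q' * θ) - dk (K k j) (Q' * θ)‖ ^ 2 := by
            rw [Finset.mul_sum]
        _ ≤ 4 * G := by
            have := hen (Q' * θ)
            linarith)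
    (by
      intro θ
      have hterm : ∀ j ∈ s, (‖dk (g₀ * K m j) (Q * θ)‖ * ‖mul (δ j) θ‖) ^ 2 ≤ 128 * (1 / 2 : ℝ) ^ j := by
        intro j hj
        rw [hnorm]
        have h1 := band g₀ (K m j) hg₀1 (hKm1 j hj) (Q * θ)
        have h2 := hdif j (Q' * θ)
        have hKpos : (0 : ℝ) < K m j := by exact_mod_cast hKm1 j hj
        have h3 : (2 : ℝ) ^ (j / 2) ≤ K m j := by exact_mod_cast hKm j hj
        have h4 : ‖dk (g₀ * K m j) (Q * θ)‖ *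
            (‖1 - dk g₀ (Q * θ)‖ * ‖dk (K (k + 1) j) (Q' * θ) - dk (K k j) (Q' * θ)‖) ≤
            4 / 2 ^ (j / 2) := by
          calc _ = (‖dk (g₀ * K m j) (Q * θ)‖ * ‖1 - dk g₀ (Q * θ)‖) *
              ‖dk (K (k + 1) j) (Q' * θ) - dk (K k j) (Q' * θ)‖ := by ring
            _ ≤ (2 / K m j) * 2 := by
                apply mul_le_mul h1 h2 (norm_nonneg _) (by positivity)
            _ = 4 / K m j := by ring
            _ ≤ 4 / 2 ^ (j / 2) := by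
                apply div_le_div_of_nonneg_left (by norm_num) (by positivity) h3
        have h5 : 0 ≤ ‖dk (g₀ * K m j) (Q * θ)‖ *
            (‖1 - dk g₀ (Q * θ)‖ * ‖dk (K (k + 1) j) (Q' * θ) - dk (K k j) (Q' * θ)‖) := by
          positivity
        refine (pow_le_pow_left₀ h5 h4 2).trans ?_
        rw [div_pow, ← pow_mul, div_le_iff₀ (by positivity), one_div, inv_pow]
        have h6 : (2 : ℝ) ^ j ≤ 2 * 2 ^ (j / 2 * 2) := by
          rw [← pow_succ']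
          apply pow_le_pow_right₀ (by norm_num)
          omega
        have h7 : (0 : ℝ) < 2 ^ j := by positivity
        rw [mul_assoc, inv_mul_eq_div, ← mul_div_assoc, le_div_iff₀ h7]
        nlinarith
      calc ∑ j ∈ s, (‖dk (g₀ * K m j) (((Q : ℕ) : ℝ) * θ)‖ * ‖mul (δ j) θ‖) ^ 2
          ≤ ∑ j ∈ s, 128 * (1 / 2 : ℝ) ^ j := Finset.sum_le_sum hterm
        _ = 128 * ∑ j ∈ s, (1 / 2 : ℝ) ^ j := by rw [Finset.mul_sum]
        _ ≤ 128 * (2 * (1 / 2 : ℝ) ^ t) := by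
            apply mul_le_mul_of_nonneg_left _ (by norm_num)
            apply geo s t
            intro j hj
            have h1 := (hs j hj).1
            have hj1 : 1 ≤ j := by
              rcases Nat.eq_zero_or_pos j with h0 | h0
              · rw [h0] at h1
                have : tj 0 = 0 := by simp [tj]
                omega
              · exact h0
            have h2 := tj_pow_le j hj1
            have h3 : tj j < 4 ^ tj j := Nat.lt_pow_self (by norm_num)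
            omega
        _ ≤ 512 * (1 / 2 : ℝ) ^ t := by
            have : (0 : ℝ) ≤ (1 / 2) ^ t := by positivity
            linarith)
    g hg f hf
  have hsum : ∑ j ∈ s, n2 (AA (N j) P (Function.update (g j) i (fun x =>
        (Ew B (t + 1) (tj j) (N j ^ e i / 2 ^ (k + 1)) f x - Ew B (t + 1) (tj j) (N j ^ e i / 2 ^ k) f x) -
        (Ew B t (tj j) (N j ^ e i / 2 ^ (k + 1)) f x - Ew B t (tj j) (N j ^ e i / 2 ^ k) f x)))) =
      ∑ j ∈ s, n2 (AA (N j) P (Function.update (g j) i (cv (δ j) f))) := by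
    apply Finset.sum_congr rfl
    intro j hj
    rw [hfun j hj]
  rw [hsum]
  refine key.trans ?_
  have hRpos : (0 : ℝ) < R := by exact_mod_cast hR1
  have hRt' : (R : ℝ) ≤ 2 ^ t := by
    have h1 : R ≤ 2 ^ t := by
      refine le_trans ?_ hRt
      exact Nat.le_self_pow (by have := le_max_left C₁ c; omega) R
    exact_mod_cast h1
  have h1 : (1 / 2 : ℝ) ^ t ≤ 1 / R := by
    rw [one_div, inv_pow, ← one_div]
    exact one_div_le_one_div_of_le hRpos hRt'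
  have h2 : (C₁ : ℝ) * (4 * G) / R + 2 * (512 * (1 / 2) ^ t) ≤ ((C₁ : ℝ) * (4 * G) + 1024) / R := by
    rw [add_div]
    have : (1024 : ℝ) / R = 1024 * (1 / R) := by ring
    rw [this]
    linarith
  refine h2.trans ?_
  apply div_le_div_of_nonneg_right _ hRpos.le
  refine hc'.trans ?_
  exact_mod_cast le_max_right C₁ c

end Pool.Agent.EQD
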