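import Pool.Agent.Lib.EQD.PcS
import Pool.Agent.Lib.EQD.PcD

/-!
# Module ShB: from the width `2 ^ (- C₄ t(j))` to the width `2 ^ (- κ)`

PROOF. Write `E(t,k) f = Ew B t (tj j) (N j ^ e i / 2 ^ k) f` at the scale `j`, `T = tj j`. `AA_telescope` over the slots (all functions are bounded by one), then in slot `i`, for `C₄ t₀ ≥ κ`,
`T ≥ t₀`:
`E(T, C₄ T) - E(T, κ) = ∑_{κ ≤ k < C₄ t₀} (E(t₀,k+1) - E(t₀,k)) + ∑_{t₀ ≤ t < T} ∑_{κ ≤ k < C₄ (t+1)} [(E(t+1,k+1) - E(t+1,k)) - (E(t,k+1) - E(t,k))]`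
`  + ∑_{t₀ ≤ t < T} ∑_{C₄ t ≤ k < C₄ (t+1)} (E(t,k+1) - E(t,k))` (induction on `T`).
For a choice `c` with values in `[J₀, J₁]`: exchange the finite sums (`t < tj J₁`; a summand at the level `t` occurs only for the scales with `tj j ≥ t + 1`: set `D j = 0` for the others) and use
`avr_choice_le` for each `(i, t, k)`. Let `C` be the maximum of the constants of `piece_shell`, `piece_dbl` (both statements hold with a larger constant: check or use each with its own).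
Base: `t = t₀`, `m = k / 2`, `R = 2 ^ (k / (12 C C₄))` (needs `k ≥ 12 C C₄`, `R ^ C ≤ 2 ^ t₀`, `8 R ^ (2 C) ≤ 2 ^ (k / 2)` for `k ≥ κ₀`): `≤ C / R + 2 C 2 ^ (- k / 2)`.
Levels `t ≥ t₀`: `m = t`, `R = 2 ^ (t / (3 C))`, `8 R ^ (2 C) ≤ 2 ^ t` for `t ≥ 9`, `t ≥ 3 C`; `piece_dbl` for `κ ≤ k < C₄ (t + 1)`, `piece_shell` for `C₄ t ≤ k < C₄ (t + 1)` (`C₄ ≥ 2`, so `2 ^ m / 2 ^ k ≤ 2 ^ (- t)`).
The square roots are summable: total `≤ n (∑_{k ≥ κ} C' 2 ^ (- k / C') + ∑_{t ≥ t₀} C' (t + 1) 2 ^ (- t / C')) ≤ ε` for `κ ≥ κ₀`, `t₀ ≥ κ` large. `J₀`: `tj j ≥ t₀` and `num_small` for all `j ≥ J₀`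
(`2 ^ (2 C₄ (tj j + 1) + 3 + ..) QB ^ 2 2 ^ (j / 2) ≤ N j`; here `k ≤ C₄ (t + 1) ≤ C₄ tj j`).
-/

set_option autoImplicit false

open Finset Polynomial

namespace Pool.Agent.EQD

open Pool.Agent.HLT Pool.Agent.NLT Pool.Agent.NLG

namespace ShBAux

/-- telescoping over an interval -/
theorem tele {V : Type} [AddCommGroup V] (F : ℕ → V) (a b : ℕ) (h : a ≤ b) :
    ∑ k ∈ Ico a b, (F (k + 1) - F k) = F b - F a := by
  induction b, h using Nat.le_induction with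
  | base => simp
  | succ b hb ih =>
    rw [Finset.sum_Ico_succ_top hb, ih]
    abel

theorem decomp {V : Type} [AddCommGroup V] (E : ℕ → ℕ → V) (κ t₀ C₄ : ℕ) (hκ : κ ≤ C₄ * t₀) (T : ℕ)
    (hT : t₀ ≤ T) :
    E T (C₄ * T) - E T κ = ∑ k ∈ Ico κ (C₄ * t₀), (E t₀ (k + 1) - E t₀ k) +
      ∑ t ∈ Ico t₀ T, (∑ k ∈ Ico κ (C₄ * (t + 1)),
          ((E (t + 1) (k + 1) - E (t + 1) k) - (E t (k + 1) - E t k)) +
        ∑ k ∈ Ico (C₄ * t) (C₄ * (t + 1)), (E t (k + 1) - E t k)) := by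
  induction T, hT using Nat.le_induction with
  | base =>
    rw [tele (E t₀) _ _ hκ, Finset.Ico_self, Finset.sum_empty, add_zero]
  | succ T hT ih =>
    have h1 : C₄ * T ≤ C₄ * (T + 1) := Nat.mul_le_mul_left _ (Nat.le_succ T)
    have h2 : κ ≤ C₄ * (T + 1) := hκ.trans ((Nat.mul_le_mul_left _ hT).trans h1)
    rw [Finset.sum_Ico_succ_top hT, ← add_assoc, ← ih, Finset.sum_sub_distrib,
      tele (E (T + 1)) _ _ h2, tele (E T) _ _ h2, tele (E T) _ _ h1]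
    abel

/-- the average as an additive function of one slot -/
noncomputable def lin {M : ℕ} [NeZero M] {n : ℕ} (N : ℕ) (P : Fin n → ℤ[X]) (g : Fin n → ZMod M → ℂ)
    (i : Fin n) (x : ZMod M) : (ZMod M → ℂ) →+ ℂ :=
  AddMonoidHom.mk' (fun u => AA N P (Function.update g i u) x)
    (fun u v => AA_update_add N P g i u v x)

theorem Ew_Bd {M : ℕ} [NeZero M] (B t T lam : ℕ) (f : ZMod M → ℂ) (hf : Bd f) :
    Bd (Ew B t T lam f) := by
  intro x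
  unfold Ew Eb tv
  obtain ⟨K, hK⟩ : ∃ K, K = lam / QB B T * (QB B T / QB B t) := ⟨_, rfl⟩
  rw [← hK, norm_div, Complex.norm_natCast]
  have h1 : ‖∑ i ∈ range K, f (x + ((QB B t * i : ℕ) : ZMod M))‖ ≤ K := by
    refine (norm_sum_le _ _).trans ?_
    have h2 : ∑ i ∈ range K, ‖f (x + ((QB B t * i : ℕ) : ZMod M))‖ ≤ (range K).card • (1 : ℝ) :=
      Finset.sum_le_card_nsmul _ _ _ fun i _ => hf _
    rw [card_range, nsmul_eq_mul, mul_one] at h2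
    exact h2
  exact div_le_one_of_le₀ h1 (Nat.cast_nonneg K)

theorem choice_filter {M : ℕ} [NeZero M] (s : Finset ℕ) (p : ℕ → Prop) [DecidablePred p]
    (D : ℕ → ZMod M → ℂ) (G : ℝ) (hG : ∑ j ∈ s.filter p, n2 (D j) ≤ G) (c : ZMod M → ℕ)
    (hc : ∀ x, c x ∈ s) : avr (fun x => if p (c x) then ‖D (c x) x‖ else 0) ≤ Real.sqrt G := by
  have h0 : n2 (fun _ : ZMod M => (0 : ℂ)) = 0 := by
    unfold n2
    simp only [norm_zero, ne_eq, OfNat.ofNat_ne_zero, not_false_eq_true, zero_pow]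
    exact avr_const 0
  have h1 : ∑ j ∈ s, n2 (fun x => if p j then D j x else 0) ≤ G := by
    refine le_trans (le_of_eq ?_) hG
    rw [Finset.sum_filter]
    refine Finset.sum_congr rfl fun j _ => ?_
    by_cases hp : p j
    · simp only [if_pos hp]
    · simp only [if_neg hp]
      exact h0
  have h2 := avr_choice_le s (fun j x => if p j then D j x else 0) G h1 c hc
  refine le_trans (le_of_eq ?_) h2
  congr 1
  funext x
  by_cases hp : p (c x)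
  · simp only [if_pos hp]
  · simp only [if_neg hp, norm_zero]

theorem slot_avr {M : ℕ} [NeZero M] (s : Finset ℕ) (κ t₀ C₄ T₁ : ℕ) (Z : ℕ → ZMod M → ℂ)
    (X Y : ℕ → ℕ → ℕ → ZMod M → ℂ) (hs : ∀ j ∈ s, tj j ≤ T₁)
    (hZ : ∀ j ∈ s, ∀ x, Z j x = ∑ k ∈ Ico κ (C₄ * t₀), X t₀ k j x +
      ∑ t ∈ Ico t₀ (tj j), (∑ k ∈ Ico κ (C₄ * (t + 1)), Y t k j x +
        ∑ k ∈ Ico (C₄ * t) (C₄ * (t + 1)), X t k j x))
    (a b : ℕ → ℝ) (h1 : ∀ k ∈ Ico κ (C₄ * t₀), ∑ j ∈ s, n2 (X t₀ k j) ≤ a k)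
    (h2 : ∀ t ∈ Ico t₀ T₁, ∀ k ∈ Ico κ (C₄ * (t + 1)),
      ∑ j ∈ s.filter (fun j => t + 1 ≤ tj j), n2 (Y t k j) ≤ b t)
    (h3 : ∀ t ∈ Ico t₀ T₁, ∀ k ∈ Ico (C₄ * t) (C₄ * (t + 1)),
      ∑ j ∈ s.filter (fun j => t + 1 ≤ tj j), n2 (X t k j) ≤ b t)
    (c : ZMod M → ℕ) (hc : ∀ x, c x ∈ s) :
    avr (fun x => ‖Z (c x) x‖) ≤ ∑ k ∈ Ico κ (C₄ * t₀), Real.sqrt (a k) +
      ∑ t ∈ Ico t₀ T₁, (C₄ : ℝ) * (((t : ℝ) + 2) * Real.sqrt (b t)) := by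
  have hpt : ∀ x, ‖Z (c x) x‖ ≤ ∑ k ∈ Ico κ (C₄ * t₀), ‖X t₀ k (c x) x‖ +
      ∑ t ∈ Ico t₀ T₁, (∑ k ∈ Ico κ (C₄ * (t + 1)),
          (if t + 1 ≤ tj (c x) then ‖Y t k (c x) x‖ else 0) +
        ∑ k ∈ Ico (C₄ * t) (C₄ * (t + 1)), (if t + 1 ≤ tj (c x) then ‖X t k (c x) x‖ else 0)) := by
    intro x
    rw [hZ (c x) (hc x) x]
    refine (norm_add_le _ _).trans (add_le_add (norm_sum_le _ _) ?_)
    refine (norm_sum_le _ _).trans ?_
    have hnn : ∀ t : ℕ, 0 ≤ ∑ k ∈ Ico κ (C₄ * (t + 1)),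
          (if t + 1 ≤ tj (c x) then ‖Y t k (c x) x‖ else 0) +
        ∑ k ∈ Ico (C₄ * t) (C₄ * (t + 1)), (if t + 1 ≤ tj (c x) then ‖X t k (c x) x‖ else 0) := by
      intro t
      refine add_nonneg (Finset.sum_nonneg fun k _ => ?_) (Finset.sum_nonneg fun k _ => ?_)
      · split_ifs
        · exact norm_nonneg _
        · exact le_refl 0
      · split_ifs
        · exact norm_nonneg _
        · exact le_refl 0
    refine le_trans (Finset.sum_le_sum fun t ht => ?_)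
      (Finset.sum_le_sum_of_subset_of_nonneg (Finset.Ico_subset_Ico (le_refl t₀) (hs (c x) (hc x)))
        fun t _ _ => hnn t)
    have ht' : t + 1 ≤ tj (c x) := (mem_Ico.mp ht).2
    refine (norm_add_le _ _).trans (add_le_add ?_ ?_)
    · refine (norm_sum_le _ _).trans (le_of_eq ?_)
      exact Finset.sum_congr rfl fun k _ => by rw [if_pos ht']
    · refine (norm_sum_le _ _).trans (le_of_eq ?_)
      exact Finset.sum_congr rfl fun k _ => by rw [if_pos ht']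
  refine (avr_mono hpt).trans ?_
  rw [avr_add, avr_sum, avr_sum]
  refine add_le_add (Finset.sum_le_sum fun k hk => ?_) (Finset.sum_le_sum fun t ht => ?_)
  · exact avr_choice_le s (fun j => X t₀ k j) (a k) (h1 k hk) c hc
  · rw [avr_add, avr_sum, avr_sum]
    have e1 : ∑ k ∈ Ico κ (C₄ * (t + 1)),
        avr (fun x => if t + 1 ≤ tj (c x) then ‖Y t k (c x) x‖ else 0) ≤
        (Ico κ (C₄ * (t + 1))).card • Real.sqrt (b t) :=
      Finset.sum_le_card_nsmul _ _ _ fun k hk =>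
        choice_filter s (fun j => t + 1 ≤ tj j) (fun j => Y t k j) (b t) (h2 t ht k hk) c hc
    have e2 : ∑ k ∈ Ico (C₄ * t) (C₄ * (t + 1)),
        avr (fun x => if t + 1 ≤ tj (c x) then ‖X t k (c x) x‖ else 0) ≤
        (Ico (C₄ * t) (C₄ * (t + 1))).card • Real.sqrt (b t) :=
      Finset.sum_le_card_nsmul _ _ _ fun k hk =>
        choice_filter s (fun j => t + 1 ≤ tj j) (fun j => X t k j) (b t) (h3 t ht k hk) c hc
    rw [nsmul_eq_mul] at e1 e2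
    have c1 : ((Ico κ (C₄ * (t + 1))).card : ℝ) ≤ C₄ * ((t : ℝ) + 1) := by
      have : (Ico κ (C₄ * (t + 1))).card ≤ C₄ * (t + 1) := by
        rw [Nat.card_Ico]
        exact Nat.sub_le _ _
      exact_mod_cast this
    have c2 : ((Ico (C₄ * t) (C₄ * (t + 1))).card : ℝ) = C₄ := by
      have : (Ico (C₄ * t) (C₄ * (t + 1))).card = C₄ := by
        rw [Nat.card_Ico, Nat.mul_succ, Nat.add_sub_cancel_left]
      exact_mod_cast this
    have hq : 0 ≤ Real.sqrt (b t) := Real.sqrt_nonneg _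
    have e3 := mul_le_mul_of_nonneg_right c1 hq
    rw [c2] at e2
    calc _ ≤ ((Ico κ (C₄ * (t + 1))).card : ℝ) * Real.sqrt (b t) + C₄ * Real.sqrt (b t) :=
          add_le_add e1 e2
      _ ≤ C₄ * ((t : ℝ) + 1) * Real.sqrt (b t) + C₄ * Real.sqrt (b t) := by linarith
      _ = (C₄ : ℝ) * (((t : ℝ) + 2) * Real.sqrt (b t)) := by ring

theorem pieces {n D : ℕ} {P : Fin n → ℤ[X]} {e : Fin n → ℕ} {i₀ : Fin n} (h : EqDeg D P e i₀) :
    ∃ C : ℕ, 1 ≤ C ∧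
    (∀ (M : ℕ) [NeZero M] (N : ℕ → ℕ), Sc N → ∀ (B t k m R : ℕ) (s : Finset ℕ), 1 ≤ B → 1 ≤ t → 2 ≤ R →
      R ^ C ≤ 2 ^ t → 8 * R ^ (2 * C) ≤ 2 ^ m → m ≤ k →
      (∀ j ∈ s, t ≤ tj j ∧ 2 ^ (k + 3) * QB B (tj j) ^ 2 ≤ N j ∧ R ^ C ≤ N j) →
      ∀ (i : Fin n) (g : ℕ → Fin n → ZMod M → ℂ), (∀ j l, Bd (g j l)) → ∀ f : ZMod M → ℂ, Bd f →
      ∑ j ∈ s, n2 (AA (N j) P (Function.update (g j) i (fun x => Ew B t (tj j) (N j ^ e i / 2 ^ (k + 1)) f x -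
        Ew B t (tj j) (N j ^ e i / 2 ^ k) f x))) ≤ C / R + C * (2 ^ m / 2 ^ k)) ∧
    (∀ (M : ℕ) [NeZero M] (N : ℕ → ℕ), Sc N → ∀ (B t k m R : ℕ) (s : Finset ℕ), 1 ≤ B → 1 ≤ t → 2 ≤ R →
      R ^ C ≤ 2 ^ t → 8 * R ^ (2 * C) ≤ 2 ^ m →
      (∀ j ∈ s, t + 1 ≤ tj j ∧ 2 ^ (k + m + 3) * QB B (tj j) ^ 2 * 2 ^ (j / 2) ≤ N j ∧ R ^ C ≤ N j) →
      ∀ (i : Fin n) (g : ℕ → Fin n → ZMod M → ℂ), (∀ j l, Bd (g j l)) → ∀ f : ZMod M → ℂ, Bd f →
      ∑ j ∈ s, n2 (AA (N j) P (Function.update (g j) i (fun x =>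
        (Ew B (t + 1) (tj j) (N j ^ e i / 2 ^ (k + 1)) f x - Ew B (t + 1) (tj j) (N j ^ e i / 2 ^ k) f x) -
        (Ew B t (tj j) (N j ^ e i / 2 ^ (k + 1)) f x - Ew B t (tj j) (N j ^ e i / 2 ^ k) f x)))) ≤ C / R) := by
  obtain ⟨C₁, hC₁, H₁⟩ := piece_shell h
  obtain ⟨C₂, hC₂, H₂⟩ := piece_dbl h
  have l1 : C₁ ≤ max C₁ C₂ := le_max_left _ _
  have l2 : C₂ ≤ max C₁ C₂ := le_max_right _ _
  have r1 : (C₁ : ℝ) ≤ (max C₁ C₂ : ℕ) := Nat.cast_le.mpr l1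
  have r2 : (C₂ : ℝ) ≤ (max C₁ C₂ : ℕ) := Nat.cast_le.mpr l2
  refine ⟨max C₁ C₂, hC₁.trans l1, ?_, ?_⟩
  · intro M _ N hN B t k m R s hB ht hR hR1 hR2 hmk hj i g hg f hf
    have hR0 : 0 < R := by omega
    have p1 : R ^ C₁ ≤ R ^ max C₁ C₂ := Nat.pow_le_pow_right hR0 l1
    have p2 : R ^ (2 * C₁) ≤ R ^ (2 * max C₁ C₂) := Nat.pow_le_pow_right hR0 (by omega)
    have key := H₁ M N hN B t k m R s hB ht hR (p1.trans hR1)
      ((Nat.mul_le_mul_left 8 p2).trans hR2) hmk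
      (fun j hjs => ⟨(hj j hjs).1, (hj j hjs).2.1, p1.trans (hj j hjs).2.2⟩) i g hg f hf
    refine key.trans (add_le_add ?_ ?_)
    · exact div_le_div_of_nonneg_right r1 (Nat.cast_nonneg R)
    · exact mul_le_mul_of_nonneg_right r1 (by positivity)
  · intro M _ N hN B t k m R s hB ht hR hR1 hR2 hj i g hg f hf
    have hR0 : 0 < R := by omega
    have p1 : R ^ C₂ ≤ R ^ max C₁ C₂ := Nat.pow_le_pow_right hR0 l2
    have p2 : R ^ (2 * C₂) ≤ R ^ (2 * max C₁ C₂) := Nat.pow_le_pow_right hR0 (by omega)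
    have key := H₂ M N hN B t k m R s hB ht hR (p1.trans hR1)
      ((Nat.mul_le_mul_left 8 p2).trans hR2)
      (fun j hjs => ⟨(hj j hjs).1, (hj j hjs).2.1, p1.trans (hj j hjs).2.2⟩) i g hg f hf
    exact key.trans (div_le_div_of_nonneg_right r2 (Nat.cast_nonneg R))

theorem tail (a : ℕ → ℝ) (ha : Summable a) (δ : ℝ) (hδ : 0 < δ) :
    ∃ K₀ : ℕ, ∀ s : Finset ℕ, (∀ k ∈ s, K₀ ≤ k) → ∑ k ∈ s, a k ≤ δ := by
  obtain ⟨s, hs⟩ := summable_iff_vanishing_norm.mp ha δ hδ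
  refine ⟨s.sup id + 1, fun t ht => ?_⟩
  have hd : Disjoint t s := by
    rw [Finset.disjoint_left]
    intro k hk hks
    have h1 := ht k hk
    have h2 : id k ≤ s.sup id := Finset.le_sup hks
    have h3 : k ≤ s.sup id := h2
    omega
  have h4 := hs t hd
  rw [Real.norm_eq_abs] at h4
  exact (le_abs_self _).trans h4.le

theorem summ (A : ℕ) (hA : 1 ≤ A) (K : ℝ) (hK : 0 ≤ K) :
    Summable (fun k : ℕ => ((k : ℝ) + 2) * Real.sqrt (K / 2 ^ (k / A))) := by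
  obtain ⟨ρ, h0, h1, hρ⟩ : ∃ ρ : ℝ, 0 < ρ ∧ ρ < 1 ∧ ρ ^ (2 * A) = 1 / 2 := by
    refine ⟨(1 / 2 : ℝ) ^ ((1 : ℝ) / (2 * A : ℕ)), by positivity, ?_, ?_⟩
    · apply Real.rpow_lt_one (by norm_num) (by norm_num)
      have : (0 : ℝ) < (2 * A : ℕ) := by
        have : 0 < 2 * A := by omega
        exact_mod_cast this
      positivity
    · rw [← Real.rpow_natCast, ← Real.rpow_mul (by norm_num), one_div_mul_cancel, Real.rpow_one]
      have : 2 * A ≠ 0 := by omega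
      exact_mod_cast this
  have hle : ∀ k : ℕ, Real.sqrt (K / 2 ^ (k / A)) ≤ Real.sqrt (2 * K) * ρ ^ k := by
    intro k
    have h2 : (1 / 2 : ℝ) ^ (k / A) ≤ 2 * (ρ ^ k) ^ 2 := by
      have h3 : (ρ ^ k) ^ 2 = (1 / 2 : ℝ) ^ (k / A) * ρ ^ (2 * (k % A)) := by
        rw [← hρ, ← pow_mul, ← pow_mul, ← pow_add]
        congr 1
        have h4 := Nat.div_add_mod k A
        calc k * 2 = 2 * k := by ring
          _ = 2 * (A * (k / A) + k % A) := by rw [h4]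
          _ = 2 * A * (k / A) + 2 * (k % A) := by ring
      have h5 : (1 / 2 : ℝ) ≤ ρ ^ (2 * (k % A)) := by
        rw [← hρ]
        apply pow_le_pow_of_le_one h0.le h1.le
        have := Nat.mod_lt k (by omega : A > 0)
        omega
      rw [h3]
      have h6 : (0 : ℝ) < (1 / 2 : ℝ) ^ (k / A) := by positivity
      nlinarith
    have h7 : K / 2 ^ (k / A) ≤ 2 * K * (ρ ^ k) ^ 2 := by
      have h8 : K / 2 ^ (k / A) = K * (1 / 2 : ℝ) ^ (k / A) := by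
        rw [one_div, inv_pow]
        rfl
      rw [h8]
      calc K * (1 / 2 : ℝ) ^ (k / A) ≤ K * (2 * (ρ ^ k) ^ 2) := mul_le_mul_of_nonneg_left h2 hK
        _ = 2 * K * (ρ ^ k) ^ 2 := by ring
    calc Real.sqrt (K / 2 ^ (k / A)) ≤ Real.sqrt (2 * K * (ρ ^ k) ^ 2) := Real.sqrt_le_sqrt h7
      _ = Real.sqrt (2 * K) * ρ ^ k := by
        rw [Real.sqrt_mul (by positivity), Real.sqrt_sq (by positivity)]
  have hs1 : Summable (fun k : ℕ => (k : ℝ) ^ 1 * ρ ^ k) :=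
    summable_pow_mul_geometric_of_norm_lt_one 1 (by rw [Real.norm_eq_abs, abs_of_pos h0]; exact h1)
  have hs2 : Summable (fun k : ℕ => ρ ^ k) := summable_geometric_of_lt_one h0.le h1
  have hs3 : Summable (fun k : ℕ => Real.sqrt (2 * K) * ((k : ℝ) ^ 1 * ρ ^ k + 2 * ρ ^ k)) :=
    (hs1.add (hs2.mul_left 2)).mul_left _
  refine Summable.of_nonneg_of_le (fun k => by positivity) (fun k => ?_) hs3
  calc ((k : ℝ) + 2) * Real.sqrt (K / 2 ^ (k / A)) ≤ ((k : ℝ) + 2) * (Real.sqrt (2 * K) * ρ ^ k) :=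
        mul_le_mul_of_nonneg_left (hle k) (by positivity)
    _ = Real.sqrt (2 * K) * ((k : ℝ) ^ 1 * ρ ^ k + 2 * ρ ^ k) := by ring

/-- the numbers of a level -/
theorem num_level (C t : ℕ) (hC : 1 ≤ C) (h1 : 3 * C ≤ t) (h2 : 9 ≤ t) :
    2 ≤ 2 ^ (t / (3 * C)) ∧ (2 ^ (t / (3 * C))) ^ C ≤ 2 ^ t ∧
      8 * (2 ^ (t / (3 * C))) ^ (2 * C) ≤ 2 ^ t ∧ t / (3 * C) ≤ t := by
  have h3 : 1 ≤ t / (3 * C) := (Nat.one_le_div_iff (by omega)).mpr h1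
  have h4 : t / (3 * C) * (3 * C) ≤ t := Nat.div_mul_le_self _ _
  obtain ⟨w, hw⟩ : ∃ w, w = t / (3 * C) * C := ⟨_, rfl⟩
  have h5 : 3 * w ≤ t := by
    rw [hw]
    calc 3 * (t / (3 * C) * C) = t / (3 * C) * (3 * C) := by ring
      _ ≤ t := h4
  refine ⟨?_, ?_, ?_, Nat.div_le_self _ _⟩
  · calc 2 = 2 ^ 1 := rfl
      _ ≤ 2 ^ (t / (3 * C)) := Nat.pow_le_pow_right (by norm_num) h3
  · rw [← pow_mul, ← hw]
    exact Nat.pow_le_pow_right (by norm_num) (by omega)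
  · have h6 : t / (3 * C) * (2 * C) = 2 * w := by rw [hw]; ring
    rw [← pow_mul, h6]
    calc 8 * 2 ^ (2 * w) = 2 ^ (3 + 2 * w) := by rw [pow_add]; rfl
      _ ≤ 2 ^ t := Nat.pow_le_pow_right (by norm_num) (by omega)

/-- the numbers of the base -/
theorem num_base (C C₄ k t₀ : ℕ) (hC : 1 ≤ C) (hC4 : 1 ≤ C₄) (h1 : 12 * C * C₄ ≤ k) (h2 : k < C₄ * t₀) :
    2 ≤ 2 ^ (k / (12 * C * C₄)) ∧ (2 ^ (k / (12 * C * C₄))) ^ C ≤ 2 ^ t₀ ∧
      8 * (2 ^ (k / (12 * C * C₄))) ^ (2 * C) ≤ 2 ^ (k / 2) ∧ k / (12 * C * C₄) ≤ k - k / 2 := by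
  have hpos : 12 ≤ 12 * C * C₄ := by
    have : 1 ≤ C * C₄ := Nat.mul_pos hC hC4
    calc 12 = 12 * 1 := rfl
      _ ≤ 12 * (C * C₄) := Nat.mul_le_mul_left 12 this
      _ = 12 * C * C₄ := by ring
  have h3 : 1 ≤ k / (12 * C * C₄) := (Nat.one_le_div_iff (by omega)).mpr h1
  have h4 : k / (12 * C * C₄) * (12 * C * C₄) ≤ k := Nat.div_mul_le_self _ _
  obtain ⟨q, hq⟩ : ∃ q, q = k / (12 * C * C₄) := ⟨_, rfl⟩
  obtain ⟨w, hw⟩ : ∃ w, w = q * C := ⟨_, rfl⟩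
  rw [← hq] at h3 h4 ⊢
  have h5 : C₄ * (12 * w) ≤ k := by
    rw [hw]
    calc C₄ * (12 * (q * C)) = q * (12 * C * C₄) := by ring
      _ ≤ k := h4
  have h6 : 12 * w ≤ k := le_trans (Nat.le_mul_of_pos_left _ hC4) h5
  have h7 : 12 * w < t₀ := by
    have : C₄ * (12 * w) < C₄ * t₀ := lt_of_le_of_lt h5 h2
    exact lt_of_mul_lt_mul_left this (Nat.zero_le _)
  have h8 : q ≤ w := by rw [hw]; exact Nat.le_mul_of_pos_right _ hC
  refine ⟨?_, ?_, ?_, ?_⟩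
  · calc 2 = 2 ^ 1 := rfl
      _ ≤ 2 ^ q := Nat.pow_le_pow_right (by norm_num) h3
  · rw [← pow_mul, ← hw]
    exact Nat.pow_le_pow_right (by norm_num) (by omega)
  · have h9 : q * (2 * C) = 2 * w := by rw [hw]; ring
    rw [← pow_mul, h9]
    calc 8 * 2 ^ (2 * w) = 2 ^ (3 + 2 * w) := by rw [pow_add]; rfl
      _ ≤ 2 ^ (k / 2) := Nat.pow_le_pow_right (by norm_num) (by omega)
  · omega

theorem pow_frac (a b q : ℕ) (h : a + q ≤ b) : (2 : ℝ) ^ a / 2 ^ b ≤ 1 / 2 ^ q := by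
  rw [div_le_div_iff₀ (by positivity) (by positivity), one_mul, ← pow_add]
  exact pow_le_pow_right₀ (by norm_num) h

/-- largeness of the scales -/
theorem num_scale (B C₄ t₀ : ℕ) : ∃ J₀ : ℕ, ∀ j, J₀ ≤ j → t₀ ≤ tj j ∧ tj j ≤ j ∧
    2 ^ ((C₄ + 1) * tj j + 3) * QB B (tj j) ^ 2 * 2 ^ (j / 2) ≤ 2 ^ j := by
  obtain ⟨j₀, hj4, hj⟩ := num_small B (C₄ + 4) 2 (by norm_num)
  refine ⟨max j₀ (4 ^ t₀), fun j hjj => ?_⟩
  have a1 : j₀ ≤ j := (le_max_left _ _).trans hjj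
  have a2 : 4 ^ t₀ ≤ j := (le_max_right _ _).trans hjj
  have a3 : 4 ^ t₀ < 4 ^ (tj j + 1) := lt_of_le_of_lt a2 (lt_tj_pow j)
  have a4 : t₀ < tj j + 1 := (Nat.pow_lt_pow_iff_right (by norm_num)).mp a3
  refine ⟨by omega, ?_, ?_⟩
  · have b1 := tj_pow_le j (by omega)
    have b2 : tj j < 4 ^ tj j := Nat.lt_pow_self (by norm_num)
    omega
  · have b1 := hj j a1
    have q1 : 1 ≤ QB B (tj j) := QB_pos B (tj j)
    have b2 : 2 ^ ((C₄ + 1) * tj j + 3) * QB B (tj j) ^ 2 ≤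
        2 ^ ((C₄ + 4) * tj j + (C₄ + 4)) * QB B (tj j) ^ (C₄ + 4) * j ^ (C₄ + 4) := by
      have c1 : 2 ^ ((C₄ + 1) * tj j + 3) ≤ 2 ^ ((C₄ + 4) * tj j + (C₄ + 4)) := by
        apply Nat.pow_le_pow_right (by norm_num)
        have : (C₄ + 1) * tj j ≤ (C₄ + 4) * tj j := Nat.mul_le_mul_right _ (by omega)
        omega
      have c2 : QB B (tj j) ^ 2 ≤ QB B (tj j) ^ (C₄ + 4) := Nat.pow_le_pow_right q1 (by omega)
      have c3 : 1 ≤ j ^ (C₄ + 4) := Nat.one_le_pow _ _ (by omega)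
      calc 2 ^ ((C₄ + 1) * tj j + 3) * QB B (tj j) ^ 2 =
            2 ^ ((C₄ + 1) * tj j + 3) * QB B (tj j) ^ 2 * 1 := (mul_one _).symm
        _ ≤ _ := Nat.mul_le_mul (Nat.mul_le_mul c1 c2) c3
    have b3 : (2 ^ ((C₄ + 1) * tj j + 3) * QB B (tj j) ^ 2) ^ 2 ≤ 2 ^ j :=
      (Nat.pow_le_pow_left b2 2).trans b1
    have b4 : (2 ^ ((C₄ + 1) * tj j + 3) * QB B (tj j) ^ 2 * 2 ^ (j / 2)) ^ 2 ≤ (2 ^ j) ^ 2 := by
      rw [mul_pow _ (2 ^ (j / 2)) 2]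
      have b5 : (2 ^ (j / 2)) ^ 2 ≤ 2 ^ j := by
        rw [← pow_mul]
        exact Nat.pow_le_pow_right (by norm_num) (by omega)
      calc _ ≤ 2 ^ j * 2 ^ j := Nat.mul_le_mul b3 b5
        _ = (2 ^ j) ^ 2 := (sq _).symm
    exact (Nat.pow_le_pow_iff_left (by norm_num)).mp b4

end ShBAux

open ShBAux

theorem shellB {n D : ℕ} {P : Fin n → ℤ[X]} {e : Fin n → ℕ} {i₀ : Fin n} (h : EqDeg D P e i₀) (B C₄ : ℕ) (hB : 1 ≤ B) (hC : 2 ≤ C₄)
    (ε : ℝ) (hε : 0 < ε) : ∃ κ₀ : ℕ, ∀ κ : ℕ, κ₀ ≤ κ → ∃ J₀ : ℕ, ∀ (J₁ M : ℕ) [NeZero M] (N : ℕ → ℕ), Sc N →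
    ∀ f : Fin n → ZMod M → ℂ, (∀ l, Bd (f l)) → ∀ c : ZMod M → ℕ, Ch J₀ J₁ c →
    avr (fun x => ‖AA (N (c x)) P (fun l => Ew B (tj (c x)) (tj (c x)) (N (c x) ^ e l / 2 ^ (C₄ * tj (c x))) (f l)) x -
      AA (N (c x)) P (fun l => Ew B (tj (c x)) (tj (c x)) (N (c x) ^ e l / 2 ^ κ) (f l)) x‖) ≤ ε := by
  obtain ⟨C, hC1, hSh, hDb⟩ := pieces h
  obtain ⟨δ, hδ⟩ : ∃ δ : ℝ, δ = ε / (2 * ((n : ℝ) + 1)) := ⟨_, rfl⟩
  have hn1 : (0 : ℝ) < (n : ℝ) + 1 := by positivity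
  have hδ0 : 0 < δ := by rw [hδ]; positivity
  have hCr : (0 : ℝ) ≤ 2 * (C : ℝ) := by positivity
  have hC4 : (0 : ℝ) < C₄ := by
    have : 0 < C₄ := by omega
    exact_mod_cast this
  have hCC : 1 ≤ C * C₄ := Nat.mul_pos hC1 (by omega)
  have hA1 : 1 ≤ 12 * C * C₄ := by
    have : 12 * C * C₄ = 12 * (C * C₄) := by ring
    omega
  obtain ⟨K₁, hK₁⟩ := tail _ (summ (12 * C * C₄) hA1 (2 * C) hCr) δ hδ0
  obtain ⟨K₂, hK₂⟩ := tail _ (summ (3 * C) (by omega) (2 * C) hCr) (δ / C₄) (by positivity)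
  refine ⟨max K₁ (12 * C * C₄), fun κ hκ => ?_⟩
  have hκ1 : K₁ ≤ κ := (le_max_left _ _).trans hκ
  have hκ2 : 12 * C * C₄ ≤ κ := (le_max_right _ _).trans hκ
  obtain ⟨t₀, ht₀⟩ : ∃ t₀, t₀ = max (max κ K₂) (max (3 * C) 9) := ⟨_, rfl⟩
  have t1 : κ ≤ t₀ := by rw [ht₀]; exact (le_max_left _ _).trans (le_max_left _ _)
  have t2 : K₂ ≤ t₀ := by rw [ht₀]; exact (le_max_right _ _).trans (le_max_left _ _)
  have t3 : 3 * C ≤ t₀ := by rw [ht₀]; exact (le_max_left _ _).trans (le_max_right _ _)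
  have t4 : 9 ≤ t₀ := by rw [ht₀]; exact (le_max_right _ _).trans (le_max_right _ _)
  have t5 : κ ≤ C₄ * t₀ := t1.trans (Nat.le_mul_of_pos_left _ (by omega))
  obtain ⟨J₀, hJ₀⟩ := num_scale B C₄ t₀
  refine ⟨J₀, ?_⟩
  intro J₁ M _ N hN f hf c hc
  have hcs : ∀ x, c x ∈ Icc J₀ J₁ := fun x => mem_Icc.mpr (hc x)
  have hJ : ∀ j ∈ Icc J₀ J₁, t₀ ≤ tj j ∧ tj j ≤ j ∧
      2 ^ ((C₄ + 1) * tj j + 3) * QB B (tj j) ^ 2 * 2 ^ (j / 2) ≤ N j := by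
    intro j hj
    obtain ⟨a1, a2, a3⟩ := hJ₀ j (mem_Icc.mp hj).1
    exact ⟨a1, a2, a3.trans (hN j).1⟩
  have hT₁ : ∀ j ∈ Icc J₀ J₁, tj j ≤ tj J₁ := fun j hj => tj_mono (mem_Icc.mp hj).2
  -- the functions in the other slots
  obtain ⟨G, hG⟩ : ∃ G : Fin n → ℕ → Fin n → ZMod M → ℂ, G = fun i j l =>
      if l < i then Ew B (tj j) (tj j) (N j ^ e l / 2 ^ κ) (f l)
      else Ew B (tj j) (tj j) (N j ^ e l / 2 ^ (C₄ * tj j)) (f l) := ⟨_, rfl⟩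
  have hGB : ∀ i j l, Bd (G i j l) := by
    intro i j l
    rw [hG]
    show Bd (if l < i then _ else _)
    split_ifs
    · exact Ew_Bd _ _ _ _ _ (hf l)
    · exact Ew_Bd _ _ _ _ _ (hf l)
  have hslot : ∀ i : Fin n, avr (fun x => ‖AA (N (c x)) P (Function.update (G i (c x)) i
      (fun y => Ew B (tj (c x)) (tj (c x)) (N (c x) ^ e i / 2 ^ (C₄ * tj (c x))) (f i) y -
        Ew B (tj (c x)) (tj (c x)) (N (c x) ^ e i / 2 ^ κ) (f i) y)) x‖) ≤ 2 * δ := by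
    intro i
    have key := slot_avr (Icc J₀ J₁) κ t₀ C₄ (tj J₁)
      (fun j => AA (N j) P (Function.update (G i j) i
        (fun y => Ew B (tj j) (tj j) (N j ^ e i / 2 ^ (C₄ * tj j)) (f i) y -
          Ew B (tj j) (tj j) (N j ^ e i / 2 ^ κ) (f i) y)))
      (fun t k j => AA (N j) P (Function.update (G i j) i
        (fun y => Ew B t (tj j) (N j ^ e i / 2 ^ (k + 1)) (f i) y -
          Ew B t (tj j) (N j ^ e i / 2 ^ k) (f i) y)))
      (fun t k j => AA (N j) P (Function.update (G i j) i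
        (fun y => (Ew B (t + 1) (tj j) (N j ^ e i / 2 ^ (k + 1)) (f i) y -
          Ew B (t + 1) (tj j) (N j ^ e i / 2 ^ k) (f i) y) -
          (Ew B t (tj j) (N j ^ e i / 2 ^ (k + 1)) (f i) y - Ew B t (tj j) (N j ^ e i / 2 ^ k) (f i) y))))
      hT₁ ?_ (fun k => 2 * C / 2 ^ (k / (12 * C * C₄))) (fun t => 2 * C / 2 ^ (t / (3 * C)))
      ?_ ?_ ?_ c hcs
    · refine key.trans ?_
      have s1 : ∑ k ∈ Ico κ (C₄ * t₀), Real.sqrt (2 * C / 2 ^ (k / (12 * C * C₄))) ≤ δ := by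
        refine le_trans (Finset.sum_le_sum fun k _ => ?_)
          (hK₁ (Ico κ (C₄ * t₀)) fun k hk => hκ1.trans (mem_Ico.mp hk).1)
        have q0 : 0 ≤ Real.sqrt (2 * C / 2 ^ (k / (12 * C * C₄))) := Real.sqrt_nonneg _
        have q1 : (0 : ℝ) ≤ k := Nat.cast_nonneg k
        nlinarith
      have s2 : ∑ t ∈ Ico t₀ (tj J₁), (C₄ : ℝ) * (((t : ℝ) + 2) *
          Real.sqrt (2 * C / 2 ^ (t / (3 * C)))) ≤ δ := by
        rw [← Finset.mul_sum]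
        have q2 := hK₂ (Ico t₀ (tj J₁)) fun k hk => t2.trans (mem_Ico.mp hk).1
        calc _ ≤ (C₄ : ℝ) * (δ / C₄) := mul_le_mul_of_nonneg_left q2 hC4.le
          _ = δ := mul_div_cancel₀ δ hC4.ne'
      linarith
    · intro j hj x
      exact congrArg (lin (N j) P (G i j) i x)
        (decomp (fun t k => Ew B t (tj j) (N j ^ e i / 2 ^ k) (f i)) κ t₀ C₄ t5 (tj j) (hJ j hj).1) |>.trans
        (by simp only [map_add, map_sum]; rfl)
    · -- base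
      intro k hk
      obtain ⟨k1, k2⟩ := mem_Ico.mp hk
      obtain ⟨n1, n2', n3, n4⟩ := num_base C C₄ k t₀ hC1 (by omega) (hκ2.trans k1) k2
      have key := hSh M N hN B t₀ k (k / 2) (2 ^ (k / (12 * C * C₄))) (Icc J₀ J₁) hB (by omega) n1 n2' n3
        (Nat.div_le_self _ _) (fun j hj => by
          obtain ⟨a1, a2, a3⟩ := hJ j hj
          refine ⟨a1, ?_, ?_⟩
          · refine le_trans ?_ a3
            have c1 : 2 ^ (k + 3) ≤ 2 ^ ((C₄ + 1) * tj j + 3) := by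
              apply Nat.pow_le_pow_right (by norm_num)
              have c2 : C₄ * t₀ ≤ (C₄ + 1) * tj j := Nat.mul_le_mul (by omega) a1
              omega
            calc 2 ^ (k + 3) * QB B (tj j) ^ 2 ≤ 2 ^ ((C₄ + 1) * tj j + 3) * QB B (tj j) ^ 2 :=
                  Nat.mul_le_mul_right _ c1
              _ ≤ 2 ^ ((C₄ + 1) * tj j + 3) * QB B (tj j) ^ 2 * 2 ^ (j / 2) :=
                  Nat.le_mul_of_pos_right _ (by positivity)
          · exact n2'.trans ((Nat.pow_le_pow_right (by norm_num) (a1.trans a2)).trans (hN j).1))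
        i (G i) (hGB i) (f i) (hf i)
      refine key.trans ?_
      have c3 := pow_frac (k / 2) k (k / (12 * C * C₄)) (by omega)
      have c4 : (C : ℝ) * (2 ^ (k / 2) / 2 ^ k) ≤ C * (1 / 2 ^ (k / (12 * C * C₄))) :=
        mul_le_mul_of_nonneg_left c3 (Nat.cast_nonneg C)
      push_cast
      calc _ ≤ (C : ℝ) / 2 ^ (k / (12 * C * C₄)) + C * (1 / 2 ^ (k / (12 * C * C₄))) := by linarith
        _ = 2 * C / 2 ^ (k / (12 * C * C₄)) := by ring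
    · -- double differences
      intro t ht k hk
      obtain ⟨u1, u2⟩ := mem_Ico.mp ht
      obtain ⟨k1, k2⟩ := mem_Ico.mp hk
      obtain ⟨n1, n2', n3, n4⟩ := num_level C t hC1 (t3.trans u1) (t4.trans u1)
      have key := hDb M N hN B t k t (2 ^ (t / (3 * C))) ((Icc J₀ J₁).filter (fun j => t + 1 ≤ tj j)) hB
        (by omega) n1 n2' n3 (fun j hj => by
          obtain ⟨hj1, hj2⟩ := mem_filter.mp hj
          obtain ⟨a1, a2, a3⟩ := hJ j hj1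
          refine ⟨hj2, ?_, ?_⟩
          · refine le_trans ?_ a3
            have c1 : 2 ^ (k + t + 3) ≤ 2 ^ ((C₄ + 1) * tj j + 3) := by
              apply Nat.pow_le_pow_right (by norm_num)
              have c2 : C₄ * (t + 1) ≤ C₄ * tj j := Nat.mul_le_mul_left _ hj2
              have c3 : (C₄ + 1) * tj j = C₄ * tj j + tj j := Nat.succ_mul _ _
              omega
            exact Nat.mul_le_mul_right _ (Nat.mul_le_mul_right _ c1)
          · exact n2'.trans ((Nat.pow_le_pow_right (by norm_num) (by omega)).trans (hN j).1))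
        i (G i) (hGB i) (f i) (hf i)
      refine key.trans ?_
      push_cast
      have c5 : (0 : ℝ) ≤ C / 2 ^ (t / (3 * C)) := by positivity
      calc (C : ℝ) / 2 ^ (t / (3 * C)) ≤ C / 2 ^ (t / (3 * C)) + C / 2 ^ (t / (3 * C)) := by linarith
        _ = 2 * C / 2 ^ (t / (3 * C)) := by ring
    · -- bands
      intro t ht k hk
      obtain ⟨u1, u2⟩ := mem_Ico.mp ht
      obtain ⟨k1, k2⟩ := mem_Ico.mp hk
      obtain ⟨n1, n2', n3, n4⟩ := num_level C t hC1 (t3.trans u1) (t4.trans u1)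
      have c0 : 2 * t ≤ k := le_trans (Nat.mul_le_mul_right _ hC) k1
      have key := hSh M N hN B t k t (2 ^ (t / (3 * C))) ((Icc J₀ J₁).filter (fun j => t + 1 ≤ tj j)) hB
        (by omega) n1 n2' n3 (by omega) (fun j hj => by
          obtain ⟨hj1, hj2⟩ := mem_filter.mp hj
          obtain ⟨a1, a2, a3⟩ := hJ j hj1
          refine ⟨by omega, ?_, ?_⟩
          · refine le_trans ?_ a3
            have c1 : 2 ^ (k + 3) ≤ 2 ^ ((C₄ + 1) * tj j + 3) := by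
              apply Nat.pow_le_pow_right (by norm_num)
              have c2 : C₄ * (t + 1) ≤ C₄ * tj j := Nat.mul_le_mul_left _ hj2
              have c3 : (C₄ + 1) * tj j = C₄ * tj j + tj j := Nat.succ_mul _ _
              omega
            calc 2 ^ (k + 3) * QB B (tj j) ^ 2 ≤ 2 ^ ((C₄ + 1) * tj j + 3) * QB B (tj j) ^ 2 :=
                  Nat.mul_le_mul_right _ c1
              _ ≤ 2 ^ ((C₄ + 1) * tj j + 3) * QB B (tj j) ^ 2 * 2 ^ (j / 2) :=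
                  Nat.le_mul_of_pos_right _ (by positivity)
          · exact n2'.trans ((Nat.pow_le_pow_right (by norm_num) (by omega)).trans (hN j).1))
        i (G i) (hGB i) (f i) (hf i)
      refine key.trans ?_
      have c3 := pow_frac t k (t / (3 * C)) (by omega)
      have c4 : (C : ℝ) * (2 ^ t / 2 ^ k) ≤ C * (1 / 2 ^ (t / (3 * C))) :=
        mul_le_mul_of_nonneg_left c3 (Nat.cast_nonneg C)
      push_cast
      calc _ ≤ (C : ℝ) / 2 ^ (t / (3 * C)) + C * (1 / 2 ^ (t / (3 * C))) := by linarith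
        _ = 2 * C / 2 ^ (t / (3 * C)) := by ring
  have hfin : ∀ x, ‖AA (N (c x)) P (fun l => Ew B (tj (c x)) (tj (c x)) (N (c x) ^ e l / 2 ^ (C₄ * tj (c x))) (f l)) x -
      AA (N (c x)) P (fun l => Ew B (tj (c x)) (tj (c x)) (N (c x) ^ e l / 2 ^ κ) (f l)) x‖ ≤
      ∑ i : Fin n, ‖AA (N (c x)) P (Function.update (G i (c x)) i
      (fun y => Ew B (tj (c x)) (tj (c x)) (N (c x) ^ e i / 2 ^ (C₄ * tj (c x))) (f i) y -
        Ew B (tj (c x)) (tj (c x)) (N (c x) ^ e i / 2 ^ κ) (f i) y)) x‖ := by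
    intro x
    rw [AA_telescope]
    refine (norm_sum_le _ _).trans (le_of_eq ?_)
    refine Finset.sum_congr rfl fun i _ => ?_
    rw [hG]
  refine (avr_mono hfin).trans ?_
  rw [avr_sum]
  refine (Finset.sum_le_card_nsmul _ _ _ fun i _ => hslot i).trans ?_
  rw [card_univ, Fintype.card_fin, nsmul_eq_mul, hδ]
  have e1 : (n : ℝ) * (2 * (ε / (2 * ((n : ℝ) + 1)))) = n / ((n : ℝ) + 1) * ε := by
    field_simp
  rw [e1]
  have e2 : (n : ℝ) / ((n : ℝ) + 1) ≤ 1 := div_le_one_of_le₀ (by linarith) hn1.le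
  nlinarith

end Pool.Agent.EQD
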