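import Pool.Agent.Lib.EQD.GapB
import Pool.Agent.Lib.EQD.ShB

/-!
# Module MidM: the first half of the approximation

PROOF. `gapB` and `shellB` (with `C₄` of `gapB`), `ε / 2` each; `J₀` = maximum (`Ch` is monotone in `J₀`).
-/

set_option autoImplicit false

open Finset Polynomial

namespace Pool.Agent.EQD

open Pool.Agent.HLT Pool.Agent.NLT Pool.Agent.NLG

theorem midB {n D : ℕ} {P : Fin n → ℤ[X]} {e : Fin n → ℕ} {i₀ : Fin n} (h : EqDeg D P e i₀) : MidB P e := by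
  obtain ⟨C₄, B₀, hC, hB₀, hg⟩ := gapB h
  refine ⟨B₀, hB₀, fun B hB ε hε => ?_⟩
  obtain ⟨κ₀, hs⟩ := shellB h B C₄ (hB₀.trans hB) hC (ε / 2) (by positivity)
  obtain ⟨J₀, hJ⟩ := hg B hB (ε / 2) (by positivity)
  refine ⟨κ₀, fun κ hκ => ?_⟩
  obtain ⟨J₀', hJ'⟩ := hs κ hκ
  refine ⟨max J₀ J₀', fun J₁ => ?_⟩
  obtain ⟨M₀, hM₀, hM⟩ := hJ J₁
  refine ⟨M₀, hM₀, ?_⟩
  intro M _ hdvd N hN f hf c hc
  have h1 := hM M hdvd N hN f hf c (fun x => ⟨(le_max_left _ _).trans (hc x).1, (hc x).2⟩)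
  have h2 := hJ' J₁ M N hN f hf c (fun x => ⟨(le_max_right _ _).trans (hc x).1, (hc x).2⟩)
  have h3 : avr (fun x => ‖AA (N (c x)) P f x -
      AA (N (c x)) P (fun l => Ew B (tj (c x)) (tj (c x)) (N (c x) ^ e l / 2 ^ κ) (f l)) x‖) ≤
      avr (fun x => ‖AA (N (c x)) P f x -
        AA (N (c x)) P (fun l => Ew B (tj (c x)) (tj (c x)) (N (c x) ^ e l / 2 ^ (C₄ * tj (c x))) (f l)) x‖ +
        ‖AA (N (c x)) P (fun l => Ew B (tj (c x)) (tj (c x)) (N (c x) ^ e l / 2 ^ (C₄ * tj (c x))) (f l)) x -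
        AA (N (c x)) P (fun l => Ew B (tj (c x)) (tj (c x)) (N (c x) ^ e l / 2 ^ κ) (f l)) x‖) :=
    avr_mono (fun x => norm_sub_le_norm_sub_add_norm_sub _ _ _)
  rw [avr_add] at h3
  linarith

end Pool.Agent.EQD
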