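import Pool.Agent.Lib.EQD.MuA

/-!
# Module MinA: `f - Pf f` has small averages along progressions

PROOF. `Pf f x = ∑_{i ≤ k} ∑_{S} vS S x x` (shift `0`). The sets `S ⊆ U₀` (all have at most `k` elements) give `mU (qU U₀) L 0 f x x` (`sum_vS`), which by `mU_diag` is
`(q₀ / L) ∑_{i < ⌈L / q₀⌉} f (x + q₀ i)`, `q₀ = qU Q a U₀`, a multiple of `q`: the weights add up to a number in `[1, 1 + q₀ / L]`, and a shift of `x` by `q₀ i = q (i q₀ / q)` changes
`tv J' (fun i => f (x + q i))` by at most `2 (i q₀ / q) / J' ≤ 2 (L + q₀) / (q J')`. A set `S ⊄ U₀` with a prime `p ∈ S \ U₀`: cut `[0, J')` into blocks of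
`d = qU Q a S` consecutive `i` (the rest is at most `d 2 ^ (k + 1) / J'`); on a block starting at `i₀` replace `vS S (x + q i) (x + q i)` by `vS S (x + q i₀) (x + q i)`: error
`2 ^ (k + 1) (q d + d) / L` (`vS_shift`); the average over the block of `g (x + q i)`, `g = vS S (x + q i₀)`, period `d`, is the average of `g` over the subgroup generated by `q` modulo
`d`, which contains the `p`-part because `p ∤ q`: it is `0` by `vS_Ep_mem`. The number of `S` is at most `(#Ps + 2) ^ (k + 1)` (`card_comp`).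
-/

set_option autoImplicit false

open Finset Polynomial

namespace Pool.Agent.EQD

open Pool.Agent.HLT Pool.Agent.NLT Pool.Agent.NLG

namespace MinAAux

/-- Shifting a bounded sequence. -/
theorem sum_shift (J c : ℕ) (F : ℕ → ℂ) (hF : ∀ i, ‖F i‖ ≤ 1) :
    ‖∑ i ∈ range J, F i - ∑ i ∈ range J, F (i + c)‖ ≤ 2 * c := by
  have h1 : ∑ i ∈ range J, F (i + c) = ∑ i ∈ Ico c (c + J), F i := by
    rw [Finset.sum_Ico_eq_sum_range]
    have e : c + J - c = J := by omega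
    rw [e]
    exact Finset.sum_congr rfl (fun i _ => by rw [add_comm])
  have h2 : ∑ i ∈ Ico 0 c, F i + ∑ i ∈ Ico c (c + J), F i = ∑ i ∈ Ico 0 (c + J), F i :=
    Finset.sum_Ico_consecutive _ (by omega) (by omega)
  have h3 : ∑ i ∈ Ico 0 J, F i + ∑ i ∈ Ico J (J + c), F i = ∑ i ∈ Ico 0 (J + c), F i :=
    Finset.sum_Ico_consecutive _ (by omega) (by omega)
  have h4 : ∑ i ∈ range J, F i - ∑ i ∈ range J, F (i + c) =
      ∑ i ∈ Ico 0 c, F i - ∑ i ∈ Ico J (J + c), F i := by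
    rw [h1, Finset.range_eq_Ico]
    rw [add_comm c J] at h2 ⊢
    linear_combination h3 - h2
  rw [h4]
  have h5 : ‖∑ i ∈ Ico 0 c, F i‖ ≤ c := by
    refine (norm_sum_le_of_le _ (fun i _ => hF i)).trans ?_
    simp
  have h6 : ‖∑ i ∈ Ico J (J + c), F i‖ ≤ c := by
    refine (norm_sum_le_of_le _ (fun i _ => hF i)).trans ?_
    simp
  have h7 := norm_sub_le (∑ i ∈ Ico 0 c, F i) (∑ i ∈ Ico J (J + c), F i)
  linarith

/-- Sum over a period does not depend on the start. -/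
theorem sum_period (d : ℕ) (F : ℕ → ℂ) (hF : ∀ i, F (i + d) = F i) (c : ℕ) :
    ∑ i ∈ range d, F (i + c) = ∑ i ∈ range d, F i := by
  induction c with
  | zero => simp
  | succ c ih =>
    rw [← ih]
    have h1 := Finset.sum_range_succ (fun i => F (i + c)) d
    have h2 := Finset.sum_range_succ' (fun i => F (i + c)) d
    rw [h1] at h2
    have h3 : F (d + c) = F (0 + c) := by rw [zero_add, add_comm d c, hF]
    rw [h3] at h2
    have h4 := add_right_cancel h2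
    rw [h4]
    refine Finset.sum_congr rfl (fun i _ => ?_)
    congr 1
    ring

theorem sum_blocks (g : ℕ → ℂ) (d B : ℕ) :
    ∑ i ∈ range (d * B), g i = ∑ b ∈ range B, ∑ e ∈ range d, g (d * b + e) := by
  induction B with
  | zero => simp
  | succ B ih => rw [Nat.mul_succ, Finset.sum_range_add, ih, Finset.sum_range_succ]

variable {M : ℕ} [NeZero M]

/-- The complete block sum is zero. -/
theorem block_zero {Q a : ℕ} {S Ps : Finset ℕ} (h : WS M Q a Ps) (hS : S ⊆ Ps) (p : ℕ) (hp : p ∈ S) (q L : ℕ)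
    (hpq : ¬ p ∣ q) (f : ZMod M → ℂ) (z y : ZMod M) :
    ∑ e ∈ range (qU Q a S), vS Q a L 0 f S z (y + ((q * e : ℕ) : ZMod M)) = 0 := by
  set d := qU Q a S with hd
  have hpp : p.Prime := h.prime p (hS hp)
  have hM : M ≠ 0 := NeZero.ne M
  have hdM : d ∣ M := qU_dvd_M h hS
  have hd1 : 1 ≤ d := qU_pos h hS
  set G : ZMod M → ℂ := vS Q a L 0 f S z with hG
  have hper : ∀ w, G (w + (d : ZMod M)) = G w := fun w => vS_per h hS L 0 f z w
  have hperk : ∀ (k : ℕ) (w : ZMod M), G (w + ((d * k : ℕ) : ZMod M)) = G w := by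
    intro k
    induction k with
    | zero => intro w; simp
    | succ k ih =>
      intro w
      have e : w + ((d * (k + 1) : ℕ) : ZMod M) = (w + ((d * k : ℕ) : ZMod M)) + (d : ZMod M) := by
        push_cast
        ring
      rw [e, hper, ih]
  -- the element of the p-part is a multiple of q modulo d
  set d' := qU Q a (S.erase p) with hd'
  have hdd : d = d' * p ^ a := MuAAux.qU_erase p hp
  have hE : S.erase p ⊆ Ps := (Finset.erase_subset p S).trans hS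
  have hcop : Nat.Coprime d' p := MuAAux.cop_qU h hE p (hS hp) (Finset.notMem_erase p S)
  have hd'M : d' ∣ M := qU_dvd_M h hE
  set m' := M / p ^ M.factorization p with hm'
  have hd'm : d' ∣ m' := MuAAux.dvd_div rfl hcop hd'M
  have hg : Nat.gcd q d ∣ m' := by
    have h1 : Nat.Coprime (Nat.gcd q d) (p ^ a) := by
      apply Nat.Coprime.pow_right
      have h2 : Nat.Coprime q p := ((Nat.Prime.coprime_iff_not_dvd hpp).2 hpq).symm
      exact Nat.Coprime.coprime_dvd_left (Nat.gcd_dvd_left q d) h2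
    have h3 : Nat.gcd q d ∣ d' * p ^ a := hdd ▸ Nat.gcd_dvd_right q d
    exact (Nat.Coprime.dvd_of_dvd_mul_right h1 h3).trans hd'm
  obtain ⟨c, hc⟩ : ∃ c : ℕ, q * c ≡ m' [MOD d] := by
    obtain ⟨t, ht⟩ := hg
    have h1 := Nat.gcd_eq_gcd_ab q d
    -- c = (gcdA * t) mod d
    have hd0 : (0 : ℤ) < d := by exact_mod_cast hd1
    refine ⟨((Nat.gcdA q d * t) % d).toNat, ?_⟩
    rw [← Int.natCast_modEq_iff]
    push_cast
    rw [Int.toNat_of_nonneg (Int.emod_nonneg _ hd0.ne')]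
    have h2 : (q : ℤ) * ((Nat.gcdA q d * t) % d) ≡ q * (Nat.gcdA q d * t) [ZMOD d] :=
      Int.ModEq.mul_left _ (Int.mod_modEq _ _)
    refine h2.trans ?_
    have h3 : (m' : ℤ) = q * (Nat.gcdA q d * t) + d * (Nat.gcdB q d * t) := by
      rw [ht]
      push_cast
      rw [h1]
      ring
    rw [h3]
    exact (Int.modEq_iff_dvd.2 ⟨Nat.gcdB q d * t, by ring⟩)
  have hcM : ∀ w : ZMod M, G (w + ((m' : ℕ) : ZMod M)) = G (w + ((q * c : ℕ) : ZMod M)) := by
    intro w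
    rcases Nat.le_total (q * c) m' with hle | hle
    · obtain ⟨u, hu⟩ := (Nat.modEq_iff_dvd' hle).1 hc
      have e1 : m' = q * c + d * u := by omega
      have e2 : w + ((m' : ℕ) : ZMod M) = (w + ((q * c : ℕ) : ZMod M)) + ((d * u : ℕ) : ZMod M) := by
        rw [e1]
        push_cast
        ring
      rw [e2, hperk]
    · obtain ⟨u, hu⟩ := (Nat.modEq_iff_dvd' hle).1 hc.symm
      have e1 : q * c = m' + d * u := by omega
      have e2 : w + ((q * c : ℕ) : ZMod M) = (w + ((m' : ℕ) : ZMod M)) + ((d * u : ℕ) : ZMod M) := by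
        rw [e1]
        push_cast
        ring
      rw [e2, hperk]
  have hcMi : ∀ (i : ℕ) (w : ZMod M), G (w + ((m' * i : ℕ) : ZMod M)) = G (w + ((q * (c * i) : ℕ) : ZMod M)) := by
    intro i
    induction i with
    | zero => intro w; simp
    | succ i ih =>
      intro w
      have e1 : w + ((m' * (i + 1) : ℕ) : ZMod M) = (w + ((m' : ℕ) : ZMod M)) + ((m' * i : ℕ) : ZMod M) := by
        push_cast
        ring
      have e2 : w + ((m' : ℕ) : ZMod M) + ((q * (c * i) : ℕ) : ZMod M) =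
          (w + ((q * (c * i) : ℕ) : ZMod M)) + ((m' : ℕ) : ZMod M) := by ring
      have e3 : w + ((q * (c * i) : ℕ) : ZMod M) + ((q * c : ℕ) : ZMod M) =
          w + ((q * (c * (i + 1)) : ℕ) : ZMod M) := by
        push_cast
        ring
      rw [e1, ih, e2, hcM, e3]
  -- average over the p-part
  have hzero : ∀ w : ZMod M, ∑ i ∈ range (p ^ M.factorization p), G (w + ((m' * i : ℕ) : ZMod M)) = 0 := by
    intro w
    have h1 := vS_Ep_mem h hS p hp L 0 f z w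
    unfold Ep Eb tv at h1
    have hp0 : ((p ^ M.factorization p : ℕ) : ℂ) ≠ 0 := by
      have : p ^ M.factorization p ≠ 0 := pow_ne_zero _ hpp.ne_zero
      exact_mod_cast this
    rcases div_eq_zero_iff.1 h1 with h2 | h2
    · exact h2
    · exact absurd h2 hp0
  set F : ℕ → ℂ := fun e => G (y + ((q * e : ℕ) : ZMod M)) with hFdef
  have hFper : ∀ i, F (i + d) = F i := by
    intro i
    simp only [hFdef]
    have e : y + ((q * (i + d) : ℕ) : ZMod M) = (y + ((q * i : ℕ) : ZMod M)) + ((d * q : ℕ) : ZMod M) := by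
      push_cast
      ring
    rw [e, hperk]
  have hsum : ((p ^ M.factorization p : ℕ) : ℂ) * ∑ e ∈ range d, F e = 0 := by
    have h1 : ∑ e ∈ range d, ∑ i ∈ range (p ^ M.factorization p), G ((y + ((q * e : ℕ) : ZMod M)) + ((m' * i : ℕ) : ZMod M)) = 0 :=
      Finset.sum_eq_zero (fun e _ => hzero _)
    rw [Finset.sum_comm] at h1
    have h2 : ∀ i ∈ range (p ^ M.factorization p),
        ∑ e ∈ range d, G ((y + ((q * e : ℕ) : ZMod M)) + ((m' * i : ℕ) : ZMod M)) = ∑ e ∈ range d, F e := by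
      intro i _
      rw [← sum_period d F hFper (c * i)]
      refine Finset.sum_congr rfl (fun e _ => ?_)
      rw [hcMi]
      simp only [hFdef]
      congr 1
      push_cast
      ring
    rw [Finset.sum_congr rfl h2, Finset.sum_const, card_range, nsmul_eq_mul] at h1
    exact h1
  have hp0 : ((p ^ M.factorization p : ℕ) : ℂ) ≠ 0 := by
    have : p ^ M.factorization p ≠ 0 := pow_ne_zero _ hpp.ne_zero
    exact_mod_cast this
  exact (mul_eq_zero.1 hsum).resolve_left hp0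

/-- One component. -/
theorem comp_bound {Q a k L qm : ℕ} {S Ps : Finset ℕ} (h : WS M Q a Ps) (hS : S ⊆ Ps) (hSk : S.card ≤ k)
    (hqm : qU Q a S ≤ qm) (hL : qm ≤ L) (f : ZMod M → ℂ) (hf : Bd f) (q J' : ℕ) (hq : 1 ≤ q)
    (p : ℕ) (hp : p ∈ S) (hpq : ¬ p ∣ q) (x : ZMod M) :
    ‖∑ i ∈ range J', vS Q a L 0 f S (x + ((q * i : ℕ) : ZMod M)) (x + ((q * i : ℕ) : ZMod M))‖ ≤
      2 ^ (k + 2) * (qm : ℝ) * q * (J' / L + 1) := by
  set d := qU Q a S with hd
  have hd1 : 1 ≤ d := qU_pos h hS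
  have hd0 : (0 : ℝ) < d := by exact_mod_cast hd1
  have hL1 : 1 ≤ L := by omega
  have hL0 : (0 : ℝ) < L := by exact_mod_cast hL1
  have hq0 : (1 : ℝ) ≤ q := by exact_mod_cast hq
  have hdm : (d : ℝ) ≤ qm := by exact_mod_cast hqm
  set g : ℕ → ℂ := fun i => vS Q a L 0 f S (x + ((q * i : ℕ) : ZMod M)) (x + ((q * i : ℕ) : ZMod M)) with hg
  have h2k : (2 : ℝ) ^ (S.card + 1) ≤ 2 ^ (k + 1) := pow_le_pow_right₀ (by norm_num) (by omega)
  have hgb : ∀ i, ‖g i‖ ≤ 2 ^ (k + 1) := fun i =>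
    (norm_vS_le h hS L (hqm.trans hL) 0 f hf _ _).trans h2k
  set B := J' / d with hB
  set r := J' % d with hr
  have hJ : J' = d * B + r := (Nat.div_add_mod J' d).symm
  have hrd : r < d := Nat.mod_lt _ hd1
  have hsplit : ∑ i ∈ range J', g i = ∑ b ∈ range B, ∑ e ∈ range d, g (d * b + e) + ∑ e ∈ range r, g (d * B + e) := by
    rw [hJ, Finset.sum_range_add, sum_blocks]
  have hblock : ∀ b, ‖∑ e ∈ range d, g (d * b + e)‖ ≤ d * (2 ^ (k + 1) * ((q : ℝ) * d + d) / L) := by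
    intro b
    have hz := block_zero h hS p hp q L hpq f (x + ((q * (d * b) : ℕ) : ZMod M)) (x + ((q * (d * b) : ℕ) : ZMod M))
    have h1 : ∑ e ∈ range d, g (d * b + e) = ∑ e ∈ range d, (g (d * b + e) -
        vS Q a L 0 f S (x + ((q * (d * b) : ℕ) : ZMod M)) (x + ((q * (d * b) : ℕ) : ZMod M) + ((q * e : ℕ) : ZMod M))) := by
      rw [Finset.sum_sub_distrib, hz, sub_zero]
    rw [h1]
    have h2 : ∀ e ∈ range d, ‖g (d * b + e) -
        vS Q a L 0 f S (x + ((q * (d * b) : ℕ) : ZMod M)) (x + ((q * (d * b) : ℕ) : ZMod M) + ((q * e : ℕ) : ZMod M))‖ ≤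
        2 ^ (k + 1) * ((q : ℝ) * d + d) / L := by
      intro e he
      have he' : (e : ℝ) ≤ d := by exact_mod_cast (mem_range.1 he).le
      have e1 : x + ((q * (d * b + e) : ℕ) : ZMod M) =
          x + ((q * (d * b) : ℕ) : ZMod M) + ((q * e : ℕ) : ZMod M) := by
        push_cast
        ring
      simp only [hg]
      rw [e1]
      refine (vS_shift h hS L hL1 0 f hf (x + ((q * (d * b) : ℕ) : ZMod M))
        (x + ((q * (d * b) : ℕ) : ZMod M) + ((q * e : ℕ) : ZMod M)) (q * e)).trans ?_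
      rw [← hd]
      push_cast
      apply div_le_div_of_nonneg_right _ hL0.le
      apply mul_le_mul h2k _ (by positivity) (by positivity)
      have : (q : ℝ) * e ≤ q * d := mul_le_mul_of_nonneg_left he' (by positivity)
      linarith
    refine (norm_sum_le_of_le _ h2).trans ?_
    rw [Finset.sum_const, card_range, nsmul_eq_mul]
  have hrest : ‖∑ e ∈ range r, g (d * B + e)‖ ≤ d * 2 ^ (k + 1) := by
    refine (norm_sum_le_of_le _ (fun e _ => hgb _)).trans ?_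
    rw [Finset.sum_const, card_range, nsmul_eq_mul]
    have : (r : ℝ) ≤ d := by exact_mod_cast hrd.le
    gcongr
  have hmain : ‖∑ i ∈ range J', g i‖ ≤ B * (d * (2 ^ (k + 1) * ((q : ℝ) * d + d) / L)) + d * 2 ^ (k + 1) := by
    rw [hsplit]
    refine (norm_add_le _ _).trans (add_le_add ?_ hrest)
    refine (norm_sum_le_of_le _ (fun b _ => hblock b)).trans ?_
    rw [Finset.sum_const, card_range, nsmul_eq_mul]
  have hBd : (B : ℝ) * d ≤ J' := by
    have : B * d ≤ J' := Nat.div_mul_le_self J' d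
    exact_mod_cast this
  refine hmain.trans ?_
  have e1 : (B : ℝ) * (d * (2 ^ (k + 1) * ((q : ℝ) * d + d) / L)) = (B * d) * (2 ^ (k + 1) * ((q : ℝ) * d + d) / L) := by ring
  rw [e1]
  have h3 : (B : ℝ) * d * (2 ^ (k + 1) * ((q : ℝ) * d + d) / L) ≤ J' * (2 ^ (k + 1) * ((q : ℝ) * d + d) / L) := by
    gcongr
  have h4 : (q : ℝ) * d + d ≤ 2 * (q * qm) := by nlinarith
  have h5 : (J' : ℝ) * (2 ^ (k + 1) * ((q : ℝ) * d + d) / L) ≤ J' * (2 ^ (k + 1) * (2 * (q * qm)) / L) := by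
    gcongr
  have h6 : (d : ℝ) * 2 ^ (k + 1) ≤ 2 ^ (k + 2) * (qm : ℝ) * q := by
    have h7 : (d : ℝ) ≤ qm * q := by nlinarith
    have h8 : (2 : ℝ) ^ (k + 2) = 2 * 2 ^ (k + 1) := by ring
    have h9 : (0 : ℝ) < 2 ^ (k + 1) := by positivity
    rw [h8]
    nlinarith
  calc (B : ℝ) * d * (2 ^ (k + 1) * ((q : ℝ) * d + d) / L) + d * 2 ^ (k + 1)
      ≤ J' * (2 ^ (k + 1) * (2 * (q * qm)) / L) + 2 ^ (k + 2) * (qm : ℝ) * q := by linarith
    _ = 2 ^ (k + 2) * (qm : ℝ) * q * (J' / L + 1) := by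
        field_simp
        ring

/-- The main part. -/
theorem main_part {q₀ c L : ℕ} (q J' : ℕ) (hq : 1 ≤ q) (hq₀ : q₀ = q * c) (hq₀1 : 1 ≤ q₀) (hL : q₀ ≤ L) (hqM : q₀ ∣ M)
    (f : ZMod M → ℂ) (hf : Bd f) (x : ZMod M) :
    ‖∑ i ∈ range J', f (x + ((q * i : ℕ) : ZMod M)) -
      ∑ i ∈ range J', mU q₀ L 0 f (x + ((q * i : ℕ) : ZMod M)) (x + ((q * i : ℕ) : ZMod M))‖ ≤
      4 * (L : ℝ) / q + J' * (q₀ / L) := by
  have hL0 : (0 : ℝ) < L := by exact_mod_cast (by omega : 0 < L)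
  have hq0 : (0 : ℝ) < q := by exact_mod_cast hq
  have hq₀0 : (0 : ℝ) < q₀ := by exact_mod_cast hq₀1
  set n₀ := (L + q₀ - 1) / q₀ with hn₀
  have hn1 : q₀ * n₀ ≤ L + q₀ - 1 := Nat.mul_div_le _ _
  have hn2 : L ≤ q₀ * n₀ := by
    have h1 : L + q₀ - 1 < q₀ * (n₀ + 1) := by
      have := Nat.lt_mul_div_succ (L + q₀ - 1) hq₀1
      exact this
    rw [Nat.mul_succ] at h1
    omega
  have hn1' : (q₀ : ℝ) * n₀ ≤ L + q₀ := by
    have : q₀ * n₀ ≤ L + q₀ := by omega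
    exact_mod_cast this
  have hn2' : (L : ℝ) ≤ q₀ * n₀ := by exact_mod_cast hn2
  set F : ℕ → ℂ := fun i => f (x + ((q * i : ℕ) : ZMod M)) with hFdef
  have hF : ∀ i, ‖F i‖ ≤ 1 := fun i => hf _
  have h1 : ∑ i ∈ range J', mU q₀ L 0 f (x + ((q * i : ℕ) : ZMod M)) (x + ((q * i : ℕ) : ZMod M)) =
      (q₀ : ℂ) / L * ∑ j ∈ range n₀, ∑ i ∈ range J', F (i + c * j) := by
    rw [Finset.sum_comm, Finset.mul_sum]
    refine Finset.sum_congr rfl (fun i _ => ?_)
    rw [mU_diag q₀ L hq₀1 hqM]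
    congr 1
    refine Finset.sum_congr rfl (fun j _ => ?_)
    simp only [hFdef]
    congr 1
    rw [hq₀]
    push_cast
    ring
  rw [h1]
  set SF := ∑ i ∈ range J', F i with hSF
  have hSFn : ‖SF‖ ≤ J' := by
    refine (norm_sum_le_of_le _ (fun i _ => hF i)).trans ?_
    simp
  have h2 : SF - (q₀ : ℂ) / L * ∑ j ∈ range n₀, ∑ i ∈ range J', F (i + c * j) =
      (1 - (q₀ : ℂ) / L * n₀) * SF + (q₀ : ℂ) / L * ∑ j ∈ range n₀, (SF - ∑ i ∈ range J', F (i + c * j)) := by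
    rw [Finset.sum_sub_distrib, Finset.sum_const, card_range, nsmul_eq_mul]
    ring
  rw [h2]
  have h3 : ‖(1 - (q₀ : ℂ) / L * n₀) * SF‖ ≤ q₀ / L * J' := by
    rw [norm_mul]
    have e1 : (1 - (q₀ : ℂ) / L * n₀) = ((1 - (q₀ : ℝ) / L * n₀ : ℝ) : ℂ) := by push_cast; ring
    rw [e1, Complex.norm_real, Real.norm_eq_abs]
    have h4 : |1 - (q₀ : ℝ) / L * n₀| ≤ q₀ / L := by
      have e2 : 1 - (q₀ : ℝ) / L * n₀ = (L - q₀ * n₀) / L := by field_simp
      rw [e2, abs_div, abs_of_pos hL0]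
      apply div_le_div_of_nonneg_right _ hL0.le
      rw [abs_le]
      constructor <;> linarith
    exact mul_le_mul h4 hSFn (norm_nonneg _) (by positivity)
  have h5 : ‖(q₀ : ℂ) / L * ∑ j ∈ range n₀, (SF - ∑ i ∈ range J', F (i + c * j))‖ ≤ 4 * (L : ℝ) / q := by
    rw [norm_mul, norm_div, Complex.norm_natCast, Complex.norm_natCast]
    rcases Nat.eq_zero_or_pos n₀ with hn | hn
    · rw [hn]
      simp
      positivity
    have h6 : ‖∑ j ∈ range n₀, (SF - ∑ i ∈ range J', F (i + c * j))‖ ≤ n₀ * (2 * (c * (n₀ - 1))) := by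
      refine (norm_sum_le_of_le (n := fun _ => (2 * (c * ((n₀ : ℝ) - 1)))) _ (fun j hj => ?_)).trans ?_
      · refine (sum_shift J' (c * j) F hF).trans ?_
        push_cast
        have hj' : (j : ℝ) ≤ n₀ - 1 := by
          have : j + 1 ≤ n₀ := mem_range.1 hj
          have h7 : ((j + 1 : ℕ) : ℝ) ≤ n₀ := by exact_mod_cast this
          push_cast at h7
          linarith
        have hc0 : (0 : ℝ) ≤ c := Nat.cast_nonneg _
        nlinarith [mul_le_mul_of_nonneg_left hj' hc0]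
      · rw [Finset.sum_const, card_range, nsmul_eq_mul]
    have h8 : (q₀ : ℝ) * (n₀ - 1) ≤ L := by linarith
    have h9 : (q₀ : ℝ) = q * c := by rw [hq₀]; push_cast; ring
    have h10 : (c : ℝ) * (n₀ - 1) ≤ L / q := by
      rw [le_div_iff₀ hq0]
      rw [h9] at h8
      linarith
    have h11 : (q₀ : ℝ) / L * n₀ ≤ 2 := by
      rw [div_mul_eq_mul_div, div_le_iff₀ hL0]
      have : (q₀ : ℝ) ≤ L := by exact_mod_cast hL
      linarith
    calc (q₀ : ℝ) / L * ‖∑ j ∈ range n₀, (SF - ∑ i ∈ range J', F (i + c * j))‖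
        ≤ (q₀ : ℝ) / L * (n₀ * (2 * (c * (n₀ - 1)))) := by gcongr
      _ = ((q₀ : ℝ) / L * n₀) * (2 * (c * (n₀ - 1))) := by ring
      _ ≤ 2 * (2 * (L / q)) := by
          apply mul_le_mul h11 (by linarith) _ (by norm_num)
          have h12 : (1 : ℝ) ≤ n₀ := by exact_mod_cast hn
          have h13 : (0 : ℝ) ≤ (n₀ : ℝ) - 1 := by linarith
          positivity
      _ = 4 * (L : ℝ) / q := by ring
  refine (norm_add_le _ _).trans ?_
  have : (q₀ : ℝ) / L * J' = J' * (q₀ / L) := by ring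
  linarith

end MinAAux

theorem minor_abs {M : ℕ} [NeZero M] {Q a k L qm : ℕ} {Ps : Finset ℕ} (h : WS M Q a Ps)
    (hqm : ∀ U, U ⊆ Ps → U.card ≤ k → qU Q a U ≤ qm) (hL : qm ≤ L) (f : ZMod M → ℂ) (hf : Bd f) (q J' : ℕ) (hq : 1 ≤ q) (hJ : 1 ≤ J')
    (U₀ : Finset ℕ) (hU₀ : U₀ ⊆ Ps) (hU₀k : U₀.card ≤ k) (hdiv : q ∣ qU Q a U₀) (hnot : ∀ p ∈ Ps, p ∉ U₀ → ¬ p ∣ q) (x : ZMod M) :
    ‖tv J' (fun i => f (x + ((q * i : ℕ) : ZMod M)) - Pf Q a k L Ps f (x + ((q * i : ℕ) : ZMod M)))‖ ≤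
      4 * (L : ℝ) / (q * J') + ((qm : ℝ) * (4 * (Ps.card + 2)) ^ (k + 1)) ^ 4 * q * (1 / L + 1 / J') := by
  classical
  have hJ0 : (0 : ℝ) < J' := by exact_mod_cast hJ
  have hq0 : (0 : ℝ) < q := by exact_mod_cast hq
  have hq1 : (1 : ℝ) ≤ q := by exact_mod_cast hq
  have hqm1 : 1 ≤ qm := (qU_pos h (Finset.empty_subset Ps)).trans (hqm ∅ (Finset.empty_subset _) (by simp))
  have hL1 : 1 ≤ L := by omega
  have hL0 : (0 : ℝ) < L := by exact_mod_cast hL1
  have hqm0 : (1 : ℝ) ≤ qm := by exact_mod_cast hqm1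
  obtain ⟨c, hc⟩ := hdiv
  set w : ℕ → ZMod M := fun i => x + ((q * i : ℕ) : ZMod M) with hw
  -- the index set of all components
  set A : Finset (Finset ℕ) := (range (k + 1)).biUnion (fun i => Ps.powersetCard i) with hA
  have hmemA : ∀ S, S ∈ A ↔ S ⊆ Ps ∧ S.card ≤ k := by
    intro S
    rw [hA, Finset.mem_biUnion]
    constructor
    · rintro ⟨i, hi, hS⟩
      rw [Finset.mem_powersetCard] at hS
      have := mem_range.1 hi
      exact ⟨hS.1, by omega⟩
    · rintro ⟨h1, h2⟩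
      exact ⟨S.card, mem_range.2 (by omega), Finset.mem_powersetCard.2 ⟨h1, rfl⟩⟩
  have hdisj : Set.PairwiseDisjoint (↑(range (k + 1)) : Set ℕ) (fun i => Ps.powersetCard i) := by
    intro i _ j _ hij
    exact Finset.pairwise_disjoint_powersetCard Ps hij
  have hPf : ∀ y, Pf Q a k L Ps f y = ∑ S ∈ A, vS Q a L 0 f S y y := by
    intro y
    unfold Pf vK
    rw [hA, Finset.sum_biUnion hdisj]
  have hcardA : (A.card : ℝ) ≤ ((Ps.card : ℝ) + 2) ^ (k + 1) := by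
    have h1 : A.card ≤ (Ps.card + 2) ^ (k + 1) := by
      rw [hA, Finset.card_biUnion (fun i hi j hj hij => hdisj hi hj hij)]
      exact card_comp k Ps
    exact_mod_cast h1
  have hsub : U₀.powerset ⊆ A := by
    intro S hS
    have hS' := Finset.mem_powerset.1 hS
    exact (hmemA S).2 ⟨hS'.trans hU₀, (Finset.card_le_card hS').trans hU₀k⟩
  have hsplit : ∀ y, Pf Q a k L Ps f y = mU (qU Q a U₀) L 0 f y y + ∑ S ∈ A \ U₀.powerset, vS Q a L 0 f S y y := by
    intro y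
    rw [hPf, ← Finset.sum_sdiff hsub, sum_vS, add_comm]
  have hq₀1 : 1 ≤ qU Q a U₀ := qU_pos h hU₀
  have hq₀m : qU Q a U₀ ≤ qm := hqm U₀ hU₀ hU₀k
  have hmain := MinAAux.main_part (M := M) (q₀ := qU Q a U₀) (c := c) (L := L) q J' hq hc hq₀1 (hq₀m.trans hL) (qU_dvd_M h hU₀) f hf x
  have hcomp : ∀ S ∈ A \ U₀.powerset, ‖∑ i ∈ range J', vS Q a L 0 f S (w i) (w i)‖ ≤
      2 ^ (k + 2) * (qm : ℝ) * q * (J' / L + 1) := by
    intro S hS
    rw [Finset.mem_sdiff] at hS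
    obtain ⟨hS1, hS2⟩ := hS
    obtain ⟨hSP, hSk⟩ := (hmemA S).1 hS1
    have hex : ∃ p ∈ S, p ∉ U₀ := by
      by_contra hcon
      push Not at hcon
      exact hS2 (Finset.mem_powerset.2 hcon)
    obtain ⟨p, hpS, hpU⟩ := hex
    exact MinAAux.comp_bound h hSP hSk (hqm S hSP hSk) hL f hf q J' hq p hpS (hnot p (hSP hpS) hpU) x
  have hE : ∑ i ∈ range J', (f (w i) - Pf Q a k L Ps f (w i)) =
      (∑ i ∈ range J', f (w i) - ∑ i ∈ range J', mU (qU Q a U₀) L 0 f (w i) (w i)) -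
        ∑ S ∈ A \ U₀.powerset, ∑ i ∈ range J', vS Q a L 0 f S (w i) (w i) := by
    rw [Finset.sum_comm (s := A \ U₀.powerset), ← Finset.sum_sub_distrib, ← Finset.sum_sub_distrib]
    refine Finset.sum_congr rfl (fun i _ => ?_)
    rw [hsplit]
    ring
  have hcard : ((A \ U₀.powerset).card : ℝ) ≤ ((Ps.card : ℝ) + 2) ^ (k + 1) := by
    refine le_trans ?_ hcardA
    exact_mod_cast Finset.card_le_card Finset.sdiff_subset
  have hsumc : ‖∑ S ∈ A \ U₀.powerset, ∑ i ∈ range J', vS Q a L 0 f S (w i) (w i)‖ ≤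
      ((Ps.card : ℝ) + 2) ^ (k + 1) * (2 ^ (k + 2) * (qm : ℝ) * q * (J' / L + 1)) := by
    refine (norm_sum_le_of_le _ hcomp).trans ?_
    rw [Finset.sum_const, nsmul_eq_mul]
    gcongr
  have htot : ‖∑ i ∈ range J', (f (w i) - Pf Q a k L Ps f (w i))‖ ≤
      (4 * (L : ℝ) / q + J' * (qm / L)) + ((Ps.card : ℝ) + 2) ^ (k + 1) * (2 ^ (k + 2) * (qm : ℝ) * q * (J' / L + 1)) := by
    rw [hE]
    refine (norm_sub_le _ _).trans (add_le_add (hmain.trans ?_) hsumc)
    have : ((qU Q a U₀ : ℕ) : ℝ) ≤ qm := by exact_mod_cast hq₀m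
    gcongr
  set P2 : ℝ := ((Ps.card : ℝ) + 2) ^ (k + 1) with hP2
  have hP2' : (2 : ℝ) ≤ P2 := by
    have h1 : (2 : ℝ) ≤ (Ps.card : ℝ) + 2 := by
      have : (0 : ℝ) ≤ (Ps.card : ℝ) := Nat.cast_nonneg _
      linarith
    calc (2 : ℝ) ≤ (Ps.card : ℝ) + 2 := h1
      _ = ((Ps.card : ℝ) + 2) ^ 1 := (pow_one _).symm
      _ ≤ ((Ps.card : ℝ) + 2) ^ (k + 1) := pow_le_pow_right₀ (by linarith) (by omega)
  set W : ℝ := (qm : ℝ) * (4 * ((Ps.card : ℝ) + 2)) ^ (k + 1) with hW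
  have hWe : W = (qm : ℝ) * (4 ^ (k + 1) * P2) := by rw [hW, mul_pow]
  have h4k : (2 : ℝ) ^ (k + 2) ≤ 4 ^ (k + 1) := by
    have : (4 : ℝ) ^ (k + 1) = 2 ^ (2 * (k + 1)) := by rw [pow_mul]; norm_num
    rw [this]
    exact pow_le_pow_right₀ (by norm_num) (by omega)
  have h4k1 : (1 : ℝ) ≤ 4 ^ (k + 1) := one_le_pow₀ (by norm_num)
  have hW2 : (2 : ℝ) ≤ W := by
    rw [hWe]
    nlinarith [mul_le_mul h4k1 hP2' (by norm_num) (by positivity : (0 : ℝ) ≤ 4 ^ (k + 1))]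
  have hW1 : (qm : ℝ) + P2 * (2 ^ (k + 2) * qm) ≤ 2 * W := by
    rw [hWe]
    have h1 : P2 * (2 ^ (k + 2) * qm) ≤ qm * (4 ^ (k + 1) * P2) := by
      have : P2 * (2 ^ (k + 2) * (qm : ℝ)) = qm * (2 ^ (k + 2) * P2) := by ring
      rw [this]
      gcongr
    have h2 : (qm : ℝ) ≤ qm * (4 ^ (k + 1) * P2) := by
      have h3 : (1 : ℝ) ≤ 4 ^ (k + 1) * P2 := by nlinarith
      nlinarith
    linarith
  have hW4 : 2 * W ≤ W ^ 4 := by
    have h1 : (2 : ℝ) ≤ W ^ 3 := by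
      calc (2 : ℝ) ≤ W := hW2
        _ = W ^ 1 := (pow_one _).symm
        _ ≤ W ^ 3 := pow_le_pow_right₀ (by linarith) (by norm_num)
    have h2 : W ^ 4 = W ^ 3 * W := by ring
    rw [h2]
    have : 0 ≤ W := by linarith
    nlinarith
  have htv : tv J' (fun i => f (x + ((q * i : ℕ) : ZMod M)) - Pf Q a k L Ps f (x + ((q * i : ℕ) : ZMod M))) =
      (∑ i ∈ range J', (f (w i) - Pf Q a k L Ps f (w i))) / J' := rfl
  rw [htv, norm_div, Complex.norm_natCast, div_le_iff₀ hJ0]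
  refine htot.trans ?_
  have e1 : (4 * (L : ℝ) / (q * J') + W ^ 4 * q * (1 / L + 1 / J')) * J' =
      4 * (L : ℝ) / q + W ^ 4 * q * (J' / L + 1) := by
    field_simp
  rw [e1]
  have h6 : (0 : ℝ) ≤ J' / L := by positivity
  have h7 : (J' : ℝ) * (qm / L) ≤ qm * q * (J' / L + 1) := by
    have e2 : (J' : ℝ) * (qm / L) = qm * (J' / L) := by ring
    rw [e2]
    have h8 : (qm : ℝ) * (J' / L) ≤ qm * q * (J' / L) := by
      have : (qm : ℝ) ≤ qm * q := by nlinarith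
      exact mul_le_mul_of_nonneg_right this h6
    have h9 : (0 : ℝ) ≤ qm * q := by positivity
    nlinarith
  have h10 : (qm : ℝ) * q * (J' / L + 1) + P2 * (2 ^ (k + 2) * (qm : ℝ) * q * (J' / L + 1)) =
      ((qm : ℝ) + P2 * (2 ^ (k + 2) * qm)) * (q * (J' / L + 1)) := by ring
  have h11 : ((qm : ℝ) + P2 * (2 ^ (k + 2) * qm)) * (q * (J' / L + 1)) ≤ W ^ 4 * (q * (J' / L + 1)) := by
    apply mul_le_mul_of_nonneg_right (hW1.trans hW4)
    positivity
  have h12 : W ^ 4 * (q * ((J' : ℝ) / L + 1)) = W ^ 4 * q * (J' / L + 1) := by ring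
  linarith

end Pool.Agent.EQD
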