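import Pool.Agent.Lib.EQD.AvU

/-!
# The one variable inequality

For `A, B ≥ 0`, `R ^ 2 ≤ A B`, `0 ≤ ρ ≤ 1`, `r ≥ 1`:
`(A + 2 ρ R + ρ ^ 2 B) ^ r ≤ A ^ r + 2 r ρ A ^ (r - 1) R + 8 ^ r ρ ^ 2 (A ^ (r - 1) B + B ^ r)`;
and its version for averages over cosets of a subgroup.
-/

set_option autoImplicit false

open Finset Polynomial

namespace Pool.Agent.EQD

open Pool.Agent.HLT Pool.Agent.NLT Pool.Agent.NLG

theorem abs_le_of_sq_le_mul {A B R : ℝ} (hA : 0 ≤ A) (hB : 0 ≤ B) (hR : R ^ 2 ≤ A * B) : |R| ≤ (A + B) / 2 := by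
  apply abs_le_of_sq_le_sq _ (by positivity)
  nlinarith [sq_nonneg (A - B)]

theorem quad_nonneg {A B R ρ : ℝ} (hA : 0 ≤ A) (hB : 0 ≤ B) (hR : R ^ 2 ≤ A * B) : 0 ≤ A + 2 * ρ * R + ρ ^ 2 * B := by
  have h1 : |ρ * R| ≤ (A + ρ ^ 2 * B) / 2 := by
    apply abs_le_of_sq_le_mul hA (by positivity)
    have : ρ ^ 2 * R ^ 2 ≤ ρ ^ 2 * (A * B) := mul_le_mul_of_nonneg_left hR (by positivity)
    nlinarith
  have h2 := neg_abs_le (ρ * R)
  nlinarith

theorem eight_pow (r : ℕ) (hr : 1 ≤ r) : (1 : ℝ) + 6 * r ≤ 2 * 8 ^ r := by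
  induction r, hr using Nat.le_induction with
  | base => norm_num
  | succ r hr ih =>
    rw [pow_succ]
    push_cast
    have : (8 : ℝ) ≤ 8 ^ r := by
      calc (8 : ℝ) = 8 ^ 1 := by norm_num
        _ ≤ 8 ^ r := pow_le_pow_right₀ (by norm_num) hr
    nlinarith

theorem oneV (r : ℕ) (hr : 1 ≤ r) {A B R ρ : ℝ} (hA : 0 ≤ A) (hB : 0 ≤ B) (hR : R ^ 2 ≤ A * B) (h0 : 0 ≤ ρ) (h1 : ρ ≤ 1) :
    (A + 2 * ρ * R + ρ ^ 2 * B) ^ r ≤
      A ^ r + 2 * r * ρ * (A ^ (r - 1) * R) + 8 ^ r * ρ ^ 2 * (A ^ (r - 1) * B + B ^ r) := by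
  induction r, hr using Nat.le_induction with
  | base =>
    simp only [pow_one, Nat.cast_one, mul_one, Nat.sub_self, pow_zero, one_mul]
    have : 0 ≤ ρ ^ 2 * B := by positivity
    nlinarith
  | succ r hr ih =>
    have hy0 := quad_nonneg (ρ := ρ) hA hB hR
    set y := A + 2 * ρ * R + ρ ^ 2 * B with hy
    obtain ⟨m, rfl⟩ : ∃ m, r = m + 1 := ⟨r - 1, by omega⟩
    simp only [Nat.add_sub_cancel] at ih ⊢
    set P := A ^ m with hP
    set Z := B ^ m with hZ
    have hP0 : 0 ≤ P := by positivity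
    have hZ0 : 0 ≤ Z := by positivity
    have e1 : A ^ (m + 1) = P * A := by rw [pow_succ]
    have e2 : B ^ (m + 1) = Z * B := by rw [pow_succ]
    have e3 : A ^ (m + 1 + 1) = P * A * A := by rw [pow_succ, e1]
    have e4 : B ^ (m + 1 + 1) = Z * B * B := by rw [pow_succ, e2]
    rw [e1, e2] at ih
    rw [e1, e3, e4]
    set K : ℝ := 8 ^ (m + 1) with hK
    have hK1 : (1 : ℝ) + 6 * ((m + 1 : ℕ) : ℝ) ≤ 2 * K := eight_pow (m + 1) hr
    have hK0 : 0 ≤ K := by positivity
    have eK : (8 : ℝ) ^ (m + 1 + 1) = 8 * K := by rw [pow_succ]; ring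
    rw [eK]
    set c : ℝ := ((m + 1 : ℕ) : ℝ) with hc
    have hc0 : 0 ≤ c := by positivity
    have ec : (((m + 1 + 1 : ℕ) : ℕ) : ℝ) = c + 1 := by push_cast [hc]; ring
    rw [ec]
    have hRab := abs_le_of_sq_le_mul hA hB hR
    have hR1 : R ≤ (A + B) / 2 := (le_abs_self R).trans hRab
    have hR2 : -((A + B) / 2) ≤ R := by
      have := neg_abs_le R; linarith
    -- bounds
    have b1 : P * B * B ≤ P * A * B + Z * B * B := by
      rcases le_total B A with h | h
      · have : P * B * B ≤ P * A * B := by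
          have : P * B ≤ P * A := mul_le_mul_of_nonneg_left h hP0
          exact mul_le_mul_of_nonneg_right this hB
        have : 0 ≤ Z * B * B := by positivity
        linarith
      · have hPZ : P ≤ Z := pow_le_pow_left₀ hA h m
        have : P * B * B ≤ Z * B * B := by
          have : P * B ≤ Z * B := mul_le_mul_of_nonneg_right hPZ hB
          exact mul_le_mul_of_nonneg_right this hB
        have : 0 ≤ P * A * B := by positivity
        linarith
    have b2 : Z * B * A ≤ P * A * B + Z * B * B := by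
      rcases le_total A B with h | h
      · have : Z * B * A ≤ Z * B * B := mul_le_mul_of_nonneg_left h (by positivity)
        have : 0 ≤ P * A * B := by positivity
        linarith
      · have hPZ : Z ≤ P := pow_le_pow_left₀ hB h m
        have : Z * B * A ≤ P * B * A := by
          have : Z * B ≤ P * B := mul_le_mul_of_nonneg_right hPZ hB
          exact mul_le_mul_of_nonneg_right this hA
        have : 0 ≤ Z * B * B := by positivity
        nlinarith
    have b3 : P * R ^ 2 ≤ P * A * B := by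
      have := mul_le_mul_of_nonneg_left hR hP0
      linarith [mul_assoc P A B]
    have b4 : ρ * (P * R * B) ≤ (P * A * B + P * B * B) / 2 := by
      have hx : P * R * B ≤ (P * A * B + P * B * B) / 2 := by
        have : P * B * R ≤ P * B * ((A + B) / 2) := mul_le_mul_of_nonneg_left hR1 (by positivity)
        nlinarith
      have hx0 : 0 ≤ (P * A * B + P * B * B) / 2 := by positivity
      rcases le_total 0 (P * R * B) with h | h
      · calc ρ * (P * R * B) ≤ 1 * (P * R * B) := mul_le_mul_of_nonneg_right h1 h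
          _ ≤ _ := by linarith
      · have : ρ * (P * R * B) ≤ 0 := mul_nonpos_of_nonneg_of_nonpos h0 h
        linarith
    have b5 : y ≤ 2 * (A + B) := by
      have t1 : 2 * ρ * R ≤ A + B := by
        rcases le_total 0 R with h | h
        · have : ρ * R ≤ 1 * R := mul_le_mul_of_nonneg_right h1 h
          linarith
        · have : ρ * R ≤ 0 := mul_nonpos_of_nonneg_of_nonpos h0 h
          linarith
      have t2 : ρ ^ 2 * B ≤ 1 * B := mul_le_mul_of_nonneg_right (by nlinarith) hB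
      rw [hy]; linarith
    have b6 : (P * B + Z * B) * y ≤ 2 * (3 * (P * A * B) + 3 * (Z * B * B)) := by
      have hW : 0 ≤ P * B + Z * B := by positivity
      have := mul_le_mul_of_nonneg_left b5 hW
      nlinarith
    have hkey : P * A * B + 4 * c * (P * R ^ 2) + 2 * c * (ρ * (P * R * B)) + K * ((P * B + Z * B) * y) ≤
        8 * K * (P * A * B + Z * B * B) := by
      have t1 : 4 * c * (P * R ^ 2) ≤ 4 * c * (P * A * B) := mul_le_mul_of_nonneg_left b3 (by positivity)
      have t2 : 2 * c * (ρ * (P * R * B)) ≤ 2 * c * ((P * A * B + P * B * B) / 2) :=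
        mul_le_mul_of_nonneg_left b4 (by positivity)
      have t3 : c * (P * B * B) ≤ c * (P * A * B + Z * B * B) := mul_le_mul_of_nonneg_left b1 hc0
      have t4 : K * ((P * B + Z * B) * y) ≤ K * (2 * (3 * (P * A * B) + 3 * (Z * B * B))) :=
        mul_le_mul_of_nonneg_left b6 hK0
      have t5 : (1 + 6 * c) * (P * A * B + Z * B * B) ≤ 2 * K * (P * A * B + Z * B * B) :=
        mul_le_mul_of_nonneg_right hK1 (by positivity)
      have t6 : 0 ≤ Z * B * B := by positivity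
      have t7 : 0 ≤ c * (Z * B * B) := by positivity
      nlinarith
    have hmain : y ^ (m + 1 + 1) ≤ (P * A + 2 * c * ρ * (P * R) + K * ρ ^ 2 * (P * B + Z * B)) * y := by
      rw [pow_succ]
      exact mul_le_mul_of_nonneg_right ih hy0
    refine hmain.trans ?_
    have hρ2 : 0 ≤ ρ ^ 2 := by positivity
    have hfin := mul_le_mul_of_nonneg_left hkey hρ2
    have eL : (P * A + 2 * c * ρ * (P * R) + K * ρ ^ 2 * (P * B + Z * B)) * y =
        P * A * A + 2 * (c + 1) * ρ * (P * A * R) +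
          ρ ^ 2 * (P * A * B + 4 * c * (P * R ^ 2) + 2 * c * (ρ * (P * R * B)) + K * ((P * B + Z * B) * y)) := by
      have : (P * A + 2 * c * ρ * (P * R)) * y =
          P * A * A + 2 * (c + 1) * ρ * (P * A * R) +
          ρ ^ 2 * (P * A * B + 4 * c * (P * R ^ 2) + 2 * c * (ρ * (P * R * B))) := by
        rw [hy]; ring
      rw [add_mul, this]; ring
    rw [eL]
    linarith

section group

variable {M : ℕ} [NeZero M]

theorem avr_add' (f g : ZMod M → ℝ) : avr (fun x => f x + g x) = avr f + avr g := by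
  simp only [avr, sum_add_distrib, add_div]

theorem avr_mul_left' (c : ℝ) (f : ZMod M → ℝ) : avr (fun x => c * f x) = c * avr f := by
  simp only [avr, ← mul_sum, mul_div_assoc]

theorem avr_mono' (f g : ZMod M → ℝ) (h : ∀ x, f x ≤ g x) : avr f ≤ avr g := by
  unfold avr
  exact div_le_div_of_nonneg_right (sum_le_sum fun x _ => h x) (by positivity)

theorem avr_nonneg' (f : ZMod M → ℝ) (h : ∀ x, 0 ≤ f x) : 0 ≤ avr f := by
  unfold avr
  exact div_nonneg (sum_nonneg fun x _ => h x) (by positivity)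

theorem avr_sum' {ι : Type} (s : Finset ι) (f : ι → ZMod M → ℝ) :
    avr (fun x => ∑ i ∈ s, f i x) = ∑ i ∈ s, avr (f i) := by
  simp only [avr]
  rw [sum_comm, sum_div]

theorem AV_comm (V : Finset ℕ) (p : ℕ) (hp : p ∉ V) (hV : ∀ q ∈ insert p V, q.Prime) {F : Type} [AddCommGroup F] [Module ℝ F]
    (g : ZMod M → F) (y : ZMod M) : AV {p} (AV V g) y = AV V (AV {p} g) y := by
  rw [← AV_insert' V p hp hV, AV_insert V p hp hV]

/-- One variable. -/
theorem step_av (r : ℕ) (hr : 1 ≤ r) (ρ : ℝ) (h0 : 0 ≤ ρ) (h1 : ρ ≤ 1) (h2 : 8 ^ r * ρ ^ 2 ≤ 1) (V : Finset ℕ) (p : ℕ) (hp : p ∉ V)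
    (hV : ∀ q ∈ insert p V, q.Prime) (G0 G1 : ZMod M → ℂ) (e0 : ∀ y, AV {p} G0 y = G0 y) (e1 : ∀ y, AV {p} G1 y = 0) :
    avr (fun y => (AV V (fun y => ‖G0 y + (ρ : ℂ) * G1 y‖ ^ 2) y) ^ r) ≤
      avr (fun y => (AV (insert p V) (fun y => ‖G0 y + G1 y‖ ^ 2) y) ^ r) +
        avr (fun y => (AV V (fun y => ‖G1 y‖ ^ 2) y) ^ r) := by
  have hpp : ∀ q ∈ ({p} : Finset ℕ), q.Prime := fun q hq => hV q (by
    rw [mem_singleton] at hq; subst hq; exact mem_insert_self _ _)
  set A : ZMod M → ℝ := AV V (fun y => ‖G0 y‖ ^ 2) with hA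
  set B : ZMod M → ℝ := AV V (fun y => ‖G1 y‖ ^ 2) with hB
  set I : ZMod M → ℝ := fun y => ((starRingEnd ℂ) (G0 y) * G1 y).re with hI
  set R : ZMod M → ℝ := AV V I with hRR
  have hA0 : ∀ y, 0 ≤ A y := fun y => AV_nonneg V _ (fun y => by positivity) y
  have hB0 : ∀ y, 0 ≤ B y := fun y => AV_nonneg V _ (fun y => by positivity) y
  have hIle : ∀ y, |I y| ≤ ‖G0 y‖ * ‖G1 y‖ := fun y => by
    refine (Complex.abs_re_le_norm _).trans ?_
    rw [norm_mul, RCLike.norm_conj]
  have hR2 : ∀ y, (R y) ^ 2 ≤ A y * B y := fun y => by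
    have t1 : R y ≤ AV V (fun y => ‖G0 y‖ * ‖G1 y‖) y := AV_mono V _ _ (fun y => (le_abs_self _).trans (hIle y)) y
    have t2 : -(AV V (fun y => ‖G0 y‖ * ‖G1 y‖) y) ≤ R y := by
      have : AV V (fun y => -(‖G0 y‖ * ‖G1 y‖)) y ≤ R y := AV_mono V _ _ (fun y => by
        have := neg_abs_le (I y); have := hIle y; linarith) y
      have e : AV V (fun y => -(‖G0 y‖ * ‖G1 y‖)) y = -(AV V (fun y => ‖G0 y‖ * ‖G1 y‖) y) := by
        have := AV_smul V (-1 : ℝ) (fun y : ZMod M => ‖G0 y‖ * ‖G1 y‖) y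
        simpa using this
      linarith
    have t3 : (R y) ^ 2 ≤ (AV V (fun y => ‖G0 y‖ * ‖G1 y‖) y) ^ 2 := sq_le_sq' t2 t1
    exact t3.trans (AV_cs V (fun y => ‖G0 y‖) (fun y => ‖G1 y‖) y)
  -- expansion
  have hexp : ∀ (c : ℝ) (y : ZMod M), ‖G0 y + (c : ℂ) * G1 y‖ ^ 2 = ‖G0 y‖ ^ 2 + (2 * c * I y + c ^ 2 * ‖G1 y‖ ^ 2) := by
    intro c y
    simp only [hI, ← Complex.normSq_eq_norm_sq, Complex.normSq_apply, Complex.add_re, Complex.add_im, Complex.mul_re,
      Complex.mul_im, Complex.ofReal_re, Complex.ofReal_im, Complex.conj_re, Complex.conj_im]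
    ring
  have hAV : ∀ (c : ℝ) (y : ZMod M), AV V (fun y => ‖G0 y + (c : ℂ) * G1 y‖ ^ 2) y = A y + 2 * c * R y + c ^ 2 * B y := by
    intro c y
    rw [AV_congr V y (hexp c), AV_add, AV_add]
    have u1 := AV_smul V (2 * c) I y
    have u2 := AV_smul V (c ^ 2) (fun y : ZMod M => ‖G1 y‖ ^ 2) y
    simp only [smul_eq_mul] at u1 u2
    rw [u1, u2]; ring
  -- invariance
  have g0inv := inv_of_AV {p} hpp G0 e0
  have Ainv : ∀ (y : ZMod M) (i : ℕ), A (y + ((M / nP M {p} * i : ℕ) : ZMod M)) = A y := by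
    intro y i
    have s := AV_shift V (fun y => ‖G0 y‖ ^ 2) ((M / nP M {p} * i : ℕ) : ZMod M) y
    rw [hA, ← s]
    exact AV_congr V y (fun y => by rw [g0inv])
  have hAPR : ∀ y, AV {p} R y = 0 := by
    intro y
    rw [hRR, AV_comm V p hp hV]
    have : ∀ y, AV {p} I y = 0 := by
      intro y
      have m := AV_map (M := M) (Complex.reLm) {p} (fun y => (starRingEnd ℂ) (G0 y) * G1 y) y
      simp only [Complex.reLm_coe] at m
      rw [← m, AV_pull {p} (fun y => (starRingEnd ℂ) (G0 y)) (fun y i => by rw [g0inv]), e1, mul_zero, Complex.zero_re]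
    rw [AV_congr V y this, AV_zero]
  have hins : ∀ y, AV (insert p V) (fun y => ‖G0 y + G1 y‖ ^ 2) y = A y + AV {p} B y := by
    intro y
    rw [AV_insert' V p hp hV]
    have : ∀ y, AV V (fun y => ‖G0 y + G1 y‖ ^ 2) y = A y + (2 * R y + B y) := by
      intro y
      have := hAV 1 y
      simp only [Complex.ofReal_one, one_mul, one_pow, mul_one] at this
      rw [this]; ring
    rw [AV_congr {p} y this, AV_add, AV_add]
    have u1 := AV_smul {p} (2 : ℝ) R y
    simp only [smul_eq_mul] at u1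
    rw [u1, hAPR, AV_const_of_inv {p} hpp A Ainv]; ring
  have hb0 : ∀ y, 0 ≤ AV {p} B y := fun y => AV_nonneg {p} _ hB0 y
  -- the powers of A are invariant
  have Apinv : ∀ (y : ZMod M) (i : ℕ), (fun y => A y ^ (r - 1)) (y + ((M / nP M {p} * i : ℕ) : ZMod M)) =
      (fun y => A y ^ (r - 1)) y := fun y i => by simp only [Ainv]
  have z1 : avr (fun y => A y ^ (r - 1) * R y) = 0 := by
    rw [← avr_AV {p} hpp]
    have : ∀ y, AV {p} (fun y => A y ^ (r - 1) * R y) y = 0 := fun y => by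
      rw [AV_pull_real {p} (fun y => A y ^ (r - 1)) Apinv, hAPR, mul_zero]
    have e : AV {p} (fun y => A y ^ (r - 1) * R y) = fun _ => (0 : ℝ) := funext this
    rw [e]; simp [avr]
  have z2 : avr (fun y => A y ^ (r - 1) * B y) = avr (fun y => A y ^ (r - 1) * AV {p} B y) := by
    rw [← avr_AV {p} hpp]
    congr 1
    funext y
    rw [AV_pull_real {p} (fun y => A y ^ (r - 1)) Apinv]
  -- conclusion
  have c1 : avr (fun y => (AV V (fun y => ‖G0 y + (ρ : ℂ) * G1 y‖ ^ 2) y) ^ r) ≤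
      avr (fun y => A y ^ r + (2 * r * ρ * (A y ^ (r - 1) * R y) +
        8 ^ r * ρ ^ 2 * (A y ^ (r - 1) * B y + B y ^ r))) := by
    apply avr_mono'
    intro y
    rw [hAV ρ y]
    have := oneV r hr (hA0 y) (hB0 y) (hR2 y) h0 h1
    linarith
  refine c1.trans ?_
  rw [avr_add', avr_add', avr_mul_left', avr_mul_left', avr_add', z1, z2, mul_zero, zero_add]
  have hX : 0 ≤ avr (fun y => A y ^ (r - 1) * AV {p} B y) + avr (fun y => B y ^ r) :=
    add_nonneg (avr_nonneg' _ fun y => mul_nonneg (pow_nonneg (hA0 y) _) (hb0 y))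
      (avr_nonneg' _ fun y => pow_nonneg (hB0 y) _)
  have c2 : 8 ^ r * ρ ^ 2 * (avr (fun y => A y ^ (r - 1) * AV {p} B y) + avr (fun y => B y ^ r)) ≤
      avr (fun y => A y ^ (r - 1) * AV {p} B y) + avr (fun y => B y ^ r) := by
    calc _ ≤ 1 * (avr (fun y => A y ^ (r - 1) * AV {p} B y) + avr (fun y => B y ^ r)) :=
          mul_le_mul_of_nonneg_right h2 hX
      _ = _ := one_mul _
  have c3 : avr (fun y => A y ^ r) + avr (fun y => A y ^ (r - 1) * AV {p} B y) ≤
      avr (fun y => (AV (insert p V) (fun y => ‖G0 y + G1 y‖ ^ 2) y) ^ r) := by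
    rw [← avr_add']
    apply avr_mono'
    intro y
    rw [hins y]
    obtain ⟨m, rfl⟩ : ∃ m, r = m + 1 := ⟨r - 1, by omega⟩
    simp only [Nat.add_sub_cancel]
    have hle : A y ^ m ≤ (A y + AV {p} B y) ^ m := pow_le_pow_left₀ (hA0 y) (by linarith [hb0 y]) m
    calc A y ^ (m + 1) + A y ^ m * AV {p} B y = A y ^ m * (A y + AV {p} B y) := by ring
      _ ≤ (A y + AV {p} B y) ^ m * (A y + AV {p} B y) :=
          mul_le_mul_of_nonneg_right hle (add_nonneg (hA0 y) (hb0 y))
      _ = _ := by ring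
  linarith

end group

end Pool.Agent.EQD
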