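import Pool.Agent.Lib.EQD.Shl
import Pool.Agent.Lib.EQD.En1
import Pool.Agent.Lib.EQD.NSb

/-!
# Module PcS: bands `E[Q_t, 2 ^ (-k-1)] - E[Q_t, 2 ^ (-k)]` with a fixed modulus

PROOF. `Q = QB B t`, `T = tj j ≥ t`, `K_k j = (N j ^ e / 2 ^ k) / QB B T * (QB B T / Q)`, so that `Ew B t T (N j ^ e / 2 ^ k) = Eb Q (K_k j) = cv (bk Q (K_k j))`. `shell` with
`δ j = bk Q (K_(k+1) j) - bk Q (K_k j)`, `q j = Q`, `K j = K_m j`. By `hN` (`2 ^ (k + 3) QB B T ^ 2 ≤ N j`) the divisions lose at most a factor `4`: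
`N j ^ e / (4 * 2 ^ k Q) ≤ K_k j ≤ N j ^ e / (2 ^ k Q)`, and `2 ^ (e j) ≤ N j ^ e ≤ 2 ^ e 2 ^ (e j)`: `en_dk` and `en_dk2` with `w = 1 / (8 * 2 ^ k Q)`, `A = 8 * 2 ^ D` (`e < D`),
`θ = 8 * 2 ^ m / 2 ^ k` (`K_k j ≤ θ K_m j`), at `α = Q θ'`. `NS`: `ns_box` with `8 (Q K_m) R ^ (2 C) ≤ 8 N j ^ e / 2 ^ m * R ^ (2 C) ≤ N j ^ e`, `dvd_QB`; `Q K_m j ≤ N j ^ e ≤ N j ^ D`.
-/

set_option autoImplicit false

open Finset Polynomial

namespace Pool.Agent.EQD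

open Pool.Agent.HLT Pool.Agent.NLT Pool.Agent.NLG

namespace PcSAux

/-- length of the box -/
def KK (X κ QT Q : ℕ) : ℕ := X / 2 ^ κ / QT * (QT / Q)

theorem KK_mul {X κ QT Q : ℕ} (hd : Q ∣ QT) : Q * KK X κ QT Q = X / (2 ^ κ * QT) * QT := by
  unfold KK
  rw [Nat.div_div_eq_div_mul]
  obtain ⟨c, rfl⟩ := hd
  rcases Nat.eq_zero_or_pos Q with rfl | hQ
  · simp
  · rw [Nat.mul_div_cancel_left _ hQ]
    ring

theorem KK_le {X κ QT Q : ℕ} (hd : Q ∣ QT) : Q * KK X κ QT Q * 2 ^ κ ≤ X := by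
  rw [KK_mul hd]
  calc X / (2 ^ κ * QT) * QT * 2 ^ κ = X / (2 ^ κ * QT) * (2 ^ κ * QT) := by ring
    _ ≤ X := Nat.div_mul_le_self _ _

theorem le_KK {X κ QT Q : ℕ} (hd : Q ∣ QT) (hQT : 1 ≤ QT) (hX : 2 ^ κ * QT ≤ X) :
    X ≤ 2 * (Q * KK X κ QT Q * 2 ^ κ) := by
  rw [KK_mul hd]
  have h0 : 0 < 2 ^ κ * QT := Nat.mul_pos (by positivity) hQT
  have h1 : 1 ≤ X / (2 ^ κ * QT) := (Nat.one_le_div_iff h0).2 hX
  have h2 : X < (X / (2 ^ κ * QT) + 1) * (2 ^ κ * QT) := by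
    have := Nat.lt_mul_div_succ X h0
    calc X < 2 ^ κ * QT * (X / (2 ^ κ * QT) + 1) := this
      _ = _ := by ring
  have h3 : (X / (2 ^ κ * QT) + 1) * (2 ^ κ * QT) ≤ (2 * (X / (2 ^ κ * QT))) * (2 ^ κ * QT) :=
    Nat.mul_le_mul_right _ (by omega)
  calc X ≤ (2 * (X / (2 ^ κ * QT))) * (2 ^ κ * QT) := (h2.trans_le h3).le
    _ = 2 * (X / (2 ^ κ * QT) * QT * 2 ^ κ) := by ring

theorem real_le {X κ QT Q : ℕ} (hd : Q ∣ QT) (hQ : 1 ≤ Q) :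
    (KK X κ QT Q : ℝ) ≤ (X : ℝ) / (2 ^ κ * Q) := by
  have h := KK_le (X := X) (κ := κ) hd
  have h' : ((Q * KK X κ QT Q * 2 ^ κ : ℕ) : ℝ) ≤ X := by exact_mod_cast h
  push_cast at h'
  have hQ' : (0:ℝ) < Q := by exact_mod_cast hQ
  rw [le_div_iff₀ (by positivity)]
  calc (KK X κ QT Q : ℝ) * (2 ^ κ * Q) = Q * KK X κ QT Q * 2 ^ κ := by ring
    _ ≤ X := h'

theorem le_real {X κ QT Q : ℕ} (hd : Q ∣ QT) (hQ : 1 ≤ Q) (hQT : 1 ≤ QT) (hX : 2 ^ κ * QT ≤ X) :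
    (X : ℝ) / (2 * (2 ^ κ * Q)) ≤ KK X κ QT Q := by
  have h := le_KK (κ := κ) hd hQT hX
  have h' : (X : ℝ) ≤ ((2 * (Q * KK X κ QT Q * 2 ^ κ) : ℕ) : ℝ) := by exact_mod_cast h
  push_cast at h'
  have hQ' : (0:ℝ) < Q := by exact_mod_cast hQ
  rw [div_le_iff₀ (by positivity)]
  calc (X : ℝ) ≤ 2 * (Q * KK X κ QT Q * 2 ^ κ) := h'
    _ = KK X κ QT Q * (2 * (2 ^ κ * Q)) := by ring

end PcSAux

open PcSAux

theorem piece_shell {n D : ℕ} {P : Fin n → ℤ[X]} {e : Fin n → ℕ} {i₀ : Fin n} (h : EqDeg D P e i₀) :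
    ∃ C : ℕ, 1 ≤ C ∧ ∀ (M : ℕ) [NeZero M] (N : ℕ → ℕ), Sc N → ∀ (B t k m R : ℕ) (s : Finset ℕ), 1 ≤ B → 1 ≤ t → 2 ≤ R →
      R ^ C ≤ 2 ^ t → 8 * R ^ (2 * C) ≤ 2 ^ m → m ≤ k →
      (∀ j ∈ s, t ≤ tj j ∧ 2 ^ (k + 3) * QB B (tj j) ^ 2 ≤ N j ∧ R ^ C ≤ N j) →
      ∀ (i : Fin n) (g : ℕ → Fin n → ZMod M → ℂ), (∀ j l, Bd (g j l)) → ∀ f : ZMod M → ℂ, Bd f →
      ∑ j ∈ s, n2 (AA (N j) P (Function.update (g j) i (fun x => Ew B t (tj j) (N j ^ e i / 2 ^ (k + 1)) f x -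
        Ew B t (tj j) (N j ^ e i / 2 ^ k) f x))) ≤ C / R + C * (2 ^ m / 2 ^ k) := by
  obtain ⟨C₁, hC₁, hsh⟩ := shell h
  have hA : (1:ℝ) ≤ 4 * 2 ^ D := by
    have : (1:ℝ) ≤ 2 ^ D := one_le_pow₀ (by norm_num)
    linarith
  obtain ⟨G₁, hG₁, he1⟩ := en_dk (4 * 2 ^ D) hA
  obtain ⟨G₂, hG₂, he2⟩ := en_dk2 (4 * 2 ^ D) hA
  refine ⟨max C₁ (max ⌈(C₁ : ℝ) * G₁⌉₊ ⌈4 * G₂⌉₊), le_trans hC₁ (le_max_left _ _), ?_⟩
  set C := max C₁ (max ⌈(C₁ : ℝ) * G₁⌉₊ ⌈4 * G₂⌉₊) with hC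
  have hCC₁ : C₁ ≤ C := le_max_left _ _
  have hCG₁ : (C₁ : ℝ) * G₁ ≤ C := (Nat.le_ceil _).trans (by
    exact_mod_cast (le_max_left _ _).trans (le_max_right _ _))
  have hCG₂ : 4 * G₂ ≤ (C : ℝ) := (Nat.le_ceil _).trans (by
    exact_mod_cast (le_max_right _ _).trans (le_max_right _ _))
  intro M _ N hN B t k m R s hB ht hR hRt hRm hmk hs i g hg f hf
  have hR1 : 1 ≤ R := by omega
  set Q := QB B t with hQ
  have hQ1 : 1 ≤ Q := QB_pos B t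
  have hQ0 : (0:ℝ) < Q := by exact_mod_cast hQ1
  have hp : R ^ C₁ ≤ R ^ C := Nat.pow_le_pow_right hR1 hCC₁
  -- facts for every scale
  have hdv : ∀ j ∈ s, Q ∣ QB B (tj j) := fun j hj => QB_dvd B t (tj j) (hs j hj).1
  have hN1 : ∀ j, 1 ≤ N j := fun j => (Nat.one_le_two_pow).trans (hN j).1
  have hXN : ∀ j, N j ≤ N j ^ e i := by
    intro j
    calc N j = N j ^ 1 := (pow_one _).symm
      _ ≤ N j ^ e i := Nat.pow_le_pow_right (hN1 j) (h.pos i)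
  have hbig : ∀ j ∈ s, ∀ κ, κ ≤ k + 1 → 2 ^ κ * QB B (tj j) ≤ N j ^ e i := by
    intro j hj κ hκ
    have h1 : 2 ^ κ ≤ 2 ^ (k + 3) := Nat.pow_le_pow_right (by norm_num) (by omega)
    have h2 : QB B (tj j) ≤ QB B (tj j) ^ 2 := by
      have := QB_pos B (tj j)
      nlinarith
    calc 2 ^ κ * QB B (tj j) ≤ 2 ^ (k + 3) * QB B (tj j) ^ 2 := Nat.mul_le_mul h1 h2
      _ ≤ N j := (hs j hj).2.1
      _ ≤ N j ^ e i := hXN j
  have hXlo : ∀ j, (2:ℝ) ^ (e i * j) ≤ ((N j ^ e i : ℕ) : ℝ) := by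
    intro j
    have h1 : (2 ^ j) ^ e i ≤ N j ^ e i := Nat.pow_le_pow_left (hN j).1 _
    have h2 : 2 ^ (e i * j) ≤ N j ^ e i := by
      calc 2 ^ (e i * j) = (2 ^ j) ^ e i := by rw [← pow_mul, mul_comm]
        _ ≤ N j ^ e i := h1
    exact_mod_cast h2
  have hXhi : ∀ j, ((N j ^ e i : ℕ) : ℝ) ≤ 2 ^ D * 2 ^ (e i * j) := by
    intro j
    have h1 : N j ^ e i ≤ (2 ^ (j + 1)) ^ e i := Nat.pow_le_pow_left (hN j).2.le _
    have h2 : N j ^ e i ≤ 2 ^ D * 2 ^ (e i * j) := by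
      calc N j ^ e i ≤ (2 ^ (j + 1)) ^ e i := h1
        _ = 2 ^ e i * 2 ^ (e i * j) := by rw [← pow_mul, ← pow_add]; ring_nf
        _ ≤ 2 ^ D * 2 ^ (e i * j) := Nat.mul_le_mul_right _ (Nat.pow_le_pow_right (by norm_num) (h.lt i).le)
    exact_mod_cast h2
  set w : ℝ := 1 / (4 * (2 ^ k * Q)) with hw
  have hw0 : 0 < w := by positivity
  -- bounds for the lengths
  have hlo : ∀ j ∈ s, ∀ κ, κ ≤ k + 1 → w * 2 ^ (e i * j) ≤ KK (N j ^ e i) κ (QB B (tj j)) Q := by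
    intro j hj κ hκ
    refine le_trans ?_ (le_real (hdv j hj) hQ1 (QB_pos B _) (hbig j hj κ hκ))
    have h1 : (2:ℝ) ^ κ ≤ 2 ^ (k + 1) := pow_le_pow_right₀ (by norm_num) hκ
    have h2 : (2:ℝ) * (2 ^ κ * Q) ≤ 4 * (2 ^ k * Q) := by
      calc (2:ℝ) * (2 ^ κ * Q) ≤ 2 * (2 ^ (k + 1) * Q) := by gcongr
        _ = 4 * (2 ^ k * Q) := by rw [pow_succ]; ring
    rw [hw, one_div, inv_mul_eq_div]
    exact div_le_div₀ (by positivity) (hXlo j) (by positivity) h2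
  have hhi : ∀ j ∈ s, ∀ κ, k ≤ κ → (KK (N j ^ e i) κ (QB B (tj j)) Q : ℝ) ≤
      4 * 2 ^ D * (w * 2 ^ (e i * j)) := by
    intro j hj κ hκ
    refine (real_le (hdv j hj) hQ1).trans ?_
    have h1 : (2:ℝ) ^ k ≤ 2 ^ κ := pow_le_pow_right₀ (by norm_num) hκ
    have h2 : (2:ℝ) ^ k * Q ≤ 2 ^ κ * Q := by gcongr
    calc ((N j ^ e i : ℕ) : ℝ) / (2 ^ κ * Q) ≤ (2 ^ D * 2 ^ (e i * j)) / (2 ^ k * Q) :=
          div_le_div₀ (by positivity) (hXhi j) (by positivity) h2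
      _ = 4 * 2 ^ D * (w * 2 ^ (e i * j)) := by rw [hw]; field_simp
  have hθ : ∀ j ∈ s, (KK (N j ^ e i) k (QB B (tj j)) Q : ℝ) ≤
      (2 * 2 ^ m / 2 ^ k) * (KK (N j ^ e i) m (QB B (tj j)) Q : ℕ) := by
    intro j hj
    have h1 := real_le (X := N j ^ e i) (κ := k) (hdv j hj) hQ1
    have h2 := le_real (κ := m) (hdv j hj) hQ1 (QB_pos B _) (hbig j hj m (by omega))
    calc (KK (N j ^ e i) k (QB B (tj j)) Q : ℝ) ≤ ((N j ^ e i : ℕ) : ℝ) / (2 ^ k * Q) := h1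
      _ = (2 * 2 ^ m / 2 ^ k) * (((N j ^ e i : ℕ) : ℝ) / (2 * (2 ^ m * Q))) := by
          field_simp
      _ ≤ _ := mul_le_mul_of_nonneg_left h2 (by positivity)
  have hm := hsh M N s i
    (fun j => bk Q (KK (N j ^ e i) (k + 1) (QB B (tj j)) Q) - bk Q (KK (N j ^ e i) k (QB B (tj j)) Q))
    (fun _ => Q) (fun j => KK (N j ^ e i) m (QB B (tj j)) Q) R G₁ (G₂ * (2 * 2 ^ m / 2 ^ k)) hR ?_ ?_ ?_ g hg f hf
  · have e0 : ∀ j ∈ s, n2 (AA (N j) P (Function.update (g j) i (fun x =>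
        Ew B t (tj j) (N j ^ e i / 2 ^ (k + 1)) f x - Ew B t (tj j) (N j ^ e i / 2 ^ k) f x))) =
        n2 (AA (N j) P (Function.update (g j) i (cv (bk Q (KK (N j ^ e i) (k + 1) (QB B (tj j)) Q) -
          bk Q (KK (N j ^ e i) k (QB B (tj j)) Q)) f))) := by
      intro j _
      have : (fun x => Ew B t (tj j) (N j ^ e i / 2 ^ (k + 1)) f x -
          Ew B t (tj j) (N j ^ e i / 2 ^ k) f x) = cv (bk Q (KK (N j ^ e i) (k + 1) (QB B (tj j)) Q) -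
          bk Q (KK (N j ^ e i) k (QB B (tj j)) Q)) f := by
        funext x
        rw [cv_sub, cv_bk, cv_bk]
        rfl
      rw [this]
    rw [sum_congr rfl e0]
    refine hm.trans ?_
    have hR0 : (0:ℝ) < R := by exact_mod_cast hR1
    have a1 : (C₁ : ℝ) * G₁ / R ≤ C / R := div_le_div_of_nonneg_right hCG₁ hR0.le
    have a2 : 2 * (G₂ * (2 * 2 ^ m / 2 ^ k)) ≤ (C : ℝ) * (2 ^ m / 2 ^ k) := by
      calc 2 * (G₂ * (2 * 2 ^ m / 2 ^ k)) = (4 * G₂) * ((2:ℝ) ^ m / 2 ^ k) := by ring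
        _ ≤ (C : ℝ) * (2 ^ m / 2 ^ k) := mul_le_mul_of_nonneg_right hCG₂ (by positivity)
    exact add_le_add a1 a2
  · intro j hj
    obtain ⟨h1, h2, h3⟩ := hs j hj
    have hle := KK_le (X := N j ^ e i) (κ := m) (hdv j hj)
    refine ⟨hp.trans h3, ?_, ?_⟩
    · calc Q * KK (N j ^ e i) m (QB B (tj j)) Q ≤ Q * KK (N j ^ e i) m (QB B (tj j)) Q * 2 ^ m :=
            Nat.le_mul_of_pos_right _ (by positivity)
        _ ≤ N j ^ e i := hle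
        _ ≤ N j ^ D := Nat.pow_le_pow_right (hN1 j) (h.lt i).le
    · refine ns_box C₁ R (N j ^ e i) Q _ hR ?_ ?_ hQ1 ?_
      · have hk := le_KK (κ := m) (hdv j hj) (QB_pos B _) (hbig j hj m (by omega))
        by_contra hc
        have hz : KK (N j ^ e i) m (QB B (tj j)) Q = 0 := by omega
        rw [hz] at hk
        have : 1 ≤ N j ^ e i := (hN1 j).trans (hXN j)
        rw [Nat.mul_zero, Nat.zero_mul, Nat.mul_zero] at hk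
        omega
      · intro r hr1 hr2
        exact dvd_QB B t r hB ht hr1 ((hr2.trans hp).trans hRt)
      · have hp2 : R ^ (2 * C₁) ≤ R ^ (2 * C) := Nat.pow_le_pow_right hR1 (by omega)
        calc 8 * (Q * KK (N j ^ e i) m (QB B (tj j)) Q) * R ^ (2 * C₁) =
              (Q * KK (N j ^ e i) m (QB B (tj j)) Q) * (8 * R ^ (2 * C₁)) := by ring
          _ ≤ (Q * KK (N j ^ e i) m (QB B (tj j)) Q) * 2 ^ m :=
              Nat.mul_le_mul_left _ ((Nat.mul_le_mul_left 8 hp2).trans hRm)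
          _ ≤ N j ^ e i := hle
  · intro θ
    have h1 := he1 (e i) (h.pos i) s (fun j => KK (N j ^ e i) k (QB B (tj j)) Q)
      (fun j => KK (N j ^ e i) (k + 1) (QB B (tj j)) Q) w hw0
      (fun j hj => ⟨hlo j hj k (by omega), hhi j hj k le_rfl, hlo j hj (k + 1) le_rfl,
        hhi j hj (k + 1) (by omega)⟩) (Q * θ)
    refine le_trans (le_of_eq (sum_congr rfl (fun j _ => ?_))) h1
    rw [mul_sub', mul_bk, mul_bk]
  · intro θ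
    have h1 := he2 (e i) (h.pos i) s (fun j => KK (N j ^ e i) k (QB B (tj j)) Q)
      (fun j => KK (N j ^ e i) (k + 1) (QB B (tj j)) Q) (fun j => KK (N j ^ e i) m (QB B (tj j)) Q)
      w (2 * 2 ^ m / 2 ^ k) hw0 (by positivity)
      (fun j hj => ⟨hlo j hj k (by omega), hhi j hj k le_rfl, hlo j hj (k + 1) le_rfl,
        hhi j hj (k + 1) (by omega), hθ j hj⟩) (Q * θ)
    refine le_trans (le_of_eq (sum_congr rfl (fun j _ => ?_))) h1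
    rw [mul_sub', mul_bk, mul_bk]

end Pool.Agent.EQD
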