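import Pool.Agent.Lib.EQD.Max

/-!
# EQD.Prof: profiles modulo `Q` and freezing of the lower degree polynomials

`Q ∣ M`. `red h : ZMod M →+* ZMod Q` is the reduction; `ofs h y ρ < Q` is the offset of the first point `≥ y` congruent to `ρ`;
`pf h G y ρ = G (y + ofs h y ρ)` is the profile of `G` near `y` (a function of `ρ : ZMod Q`); `Slow Q κ G`: `G` changes by at most
`κ` when `x` is replaced by `x + Q`.

PROOFS.
* `red_ofs`: `red (y + ofs) = red y + (ρ - red y) = ρ` (`ZMod.natCast_zmod_val`). `ofs_lt`: `ZMod.val_lt`.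
* `pf_self`: the offset is `0` if `ρ = red h x`.
* `slow_mul`: `‖G (x + Q k) - G x‖ ≤ κ |k|` for `k : ℤ` (induction).
* `pf_shift`: both points `y + v + ofs (y + v) ρ` and `y + ofs y ρ` are congruent to `ρ` modulo `Q`; as an integer the difference of the
  offsets plus `v` is a multiple of `Q` (its cast to `ZMod Q` is `0`: `ZMod.intCast_zmod_eq_zero_iff_dvd` or
  `ZMod.intCast_eq_zero_iff`), of absolute value `≤ |v| + Q`; so it is `Q k` with `|k| ≤ |v| / Q + 1`. Use `slow_mul`.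
* `eq_pf`: the same for the points `x + v` and `x + ofs x (red x + v)`.
* `avr_pf`: for fixed `y` the map `ρ ↦ ofs h y ρ` is a bijection of `ZMod Q` onto `{0, ..., Q-1}`: so
  `avr_ρ F (y + ofs y ρ) = (1/Q) ∑_{v < Q} F (y + v)`; take the average over `y` (`avr_shift`).
* `red_pz`: `red` is a ring homomorphism, `map_intCast`.
* `pz_periodic`: `P (t + Q k) ≡ P t mod Q` (`Polynomial.eval_intCast_map`/`sub_dvd_eval_sub`).
* `PA_near` (freezing): `x + pz M (P l) m = (x + pz M (P i₀) m) + v` with `v = (P l - P i₀)(m)`, `|v| ≤ b N ^ e l` for `m < N`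
  (degree `≤ e l`, fixed coefficients: `|R(m)| ≤ (∑ |coeff|) N^e`, `N ≥ 1`). By `eq_pf` every factor `G l (x + P l m)` differs from
  `pf h (G l) (x + P i₀ m) (red x + P l m)` by at most `κ l (b N ^ e l / Q + 2)`; all factors have norm `≤ 2`; so the product changes by at
  most `2 ^ n ∑_l κ l (b N ^ e l / Q + 2)` (replace one factor after the other, `norm_prod_sub_prod_le`).
-/

set_option autoImplicit false

open Finset Polynomial

namespace Pool.Agent.EQD.Lo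

open Pool.Agent.HLT Pool.Agent.NLT Pool.Agent.NLG

namespace ProfAux

lemma prod_sub_le {n : ℕ} (s : Finset (Fin n)) (a b : Fin n → ℂ) (ha : ∀ l, ‖a l‖ ≤ 2) (hb : ∀ l, ‖b l‖ ≤ 2) :
    ‖∏ l ∈ s, a l - ∏ l ∈ s, b l‖ ≤ 2 ^ s.card * ∑ l ∈ s, ‖a l - b l‖ := by
  classical
  induction s using Finset.induction_on with
  | empty => simp
  | insert j s hj ih =>
    rw [Finset.prod_insert hj, Finset.prod_insert hj, Finset.sum_insert hj, Finset.card_insert_of_notMem hj]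
    have hB : ‖∏ l ∈ s, b l‖ ≤ 2 ^ s.card := by
      rw [norm_prod]
      calc ∏ l ∈ s, ‖b l‖ ≤ ∏ _l ∈ s, (2 : ℝ) := Finset.prod_le_prod (fun l _ => norm_nonneg _) (fun l _ => hb l)
        _ = 2 ^ s.card := by rw [Finset.prod_const]
    have e : a j * ∏ l ∈ s, a l - b j * ∏ l ∈ s, b l =
        a j * (∏ l ∈ s, a l - ∏ l ∈ s, b l) + (a j - b j) * ∏ l ∈ s, b l := by ring
    rw [e]
    have hS : 0 ≤ ∑ l ∈ s, ‖a l - b l‖ := Finset.sum_nonneg (fun l _ => norm_nonneg _)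
    have h2 : (0 : ℝ) < 2 ^ s.card := by positivity
    have h1 : ‖a j * (∏ l ∈ s, a l - ∏ l ∈ s, b l)‖ ≤ 2 * (2 ^ s.card * ∑ l ∈ s, ‖a l - b l‖) := by
      rw [norm_mul]
      exact mul_le_mul (ha j) ih (norm_nonneg _) zero_le_two
    have h3 : ‖(a j - b j) * ∏ l ∈ s, b l‖ ≤ ‖a j - b j‖ * 2 ^ s.card := by
      rw [norm_mul]
      exact mul_le_mul_of_nonneg_left hB (norm_nonneg _)
    have h4 : 0 ≤ ‖a j - b j‖ := norm_nonneg _
    calc ‖a j * (∏ l ∈ s, a l - ∏ l ∈ s, b l) + (a j - b j) * ∏ l ∈ s, b l‖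
        ≤ 2 * (2 ^ s.card * ∑ l ∈ s, ‖a l - b l‖) + ‖a j - b j‖ * 2 ^ s.card :=
          (norm_add_le _ _).trans (add_le_add h1 h3)
      _ ≤ 2 ^ (s.card + 1) * (‖a j - b j‖ + ∑ l ∈ s, ‖a l - b l‖) := by
          rw [pow_succ]
          nlinarith [mul_nonneg h2.le h4]

lemma eval_le (R : ℤ[X]) {e N m : ℕ} (hR : R.natDegree ≤ e) (hN : 1 ≤ N) (hm : m < N) :
    |((R.eval (m : ℤ) : ℤ) : ℝ)| ≤ ((∑ i ∈ range (e + 1), (R.coeff i).natAbs : ℕ) : ℝ) * (N : ℝ) ^ e := by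
  rw [Polynomial.eval_eq_sum_range' (Nat.lt_succ_of_le hR)]
  push_cast
  rw [Finset.sum_mul]
  refine (Finset.abs_sum_le_sum_abs _ _).trans (Finset.sum_le_sum (fun i hi => ?_))
  rw [abs_mul, abs_pow, Nat.abs_cast]
  have hi' : i ≤ e := Nat.lt_succ_iff.mp (Finset.mem_range.mp hi)
  have h1 : (m : ℝ) ^ i ≤ (N : ℝ) ^ e :=
    (pow_le_pow_left₀ (Nat.cast_nonneg m) (by exact_mod_cast hm.le) i).trans
      (pow_le_pow_right₀ (by exact_mod_cast hN) hi')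
  have h2 : |((R.coeff i : ℤ) : ℝ)| = (((R.coeff i).natAbs : ℕ) : ℝ) := by
    rw [Nat.cast_natAbs, Int.cast_abs]
  rw [h2]
  exact mul_le_mul_of_nonneg_left h1 (Nat.cast_nonneg _)

end ProfAux

section group

variable {M Q : ℕ} [NeZero M] [NeZero Q]

/-- Reduction modulo `Q`. -/
def red (h : Q ∣ M) : ZMod M →+* ZMod Q := ZMod.castHom h (ZMod Q)

/-- Offset of the first point `≥ y` congruent to `ρ` modulo `Q`. -/
def ofs (h : Q ∣ M) (y : ZMod M) (ρ : ZMod Q) : ℕ := (ρ - red h y).val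

/-- Profile of `G` near `y`. -/
def pf (h : Q ∣ M) (G : ZMod M → ℂ) (y : ZMod M) (ρ : ZMod Q) : ℂ := G (y + (ofs h y ρ : ZMod M))

/-- Slow variation along the multiples of `Q`. -/
def Slow (Q : ℕ) (κ : ℝ) (G : ZMod M → ℂ) : Prop := ∀ x, ‖G (x + (Q : ZMod M)) - G x‖ ≤ κ

lemma ofs_lt (h : Q ∣ M) (y : ZMod M) (ρ : ZMod Q) : ofs h y ρ < Q := ZMod.val_lt _

lemma red_ofs (h : Q ∣ M) (y : ZMod M) (ρ : ZMod Q) : red h (y + (ofs h y ρ : ZMod M)) = ρ := by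
  rw [map_add, map_natCast]
  unfold ofs
  rw [ZMod.natCast_zmod_val]
  ring

lemma pf_self (h : Q ∣ M) (G : ZMod M → ℂ) (x : ZMod M) : pf h G x (red h x) = G x := by
  unfold pf ofs
  rw [sub_self, ZMod.val_zero, Nat.cast_zero, add_zero]

namespace ProfAux

omit [NeZero M] [NeZero Q] in
lemma slow_nat {κ : ℝ} {G : ZMod M → ℂ} (hG : Slow Q κ G) (x : ZMod M) (k : ℕ) :
    ‖G (x + ((Q * k : ℕ) : ZMod M)) - G x‖ ≤ κ * (k : ℝ) := by
  induction k with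
  | zero => simp
  | succ k ih =>
    have e : x + ((Q * (k + 1) : ℕ) : ZMod M) = (x + ((Q * k : ℕ) : ZMod M)) + (Q : ZMod M) := by
      push_cast
      ring
    rw [e]
    have h1 := hG (x + ((Q * k : ℕ) : ZMod M))
    have h2 : ‖G (x + ((Q * k : ℕ) : ZMod M) + (Q : ZMod M)) - G x‖ ≤
        ‖G (x + ((Q * k : ℕ) : ZMod M) + (Q : ZMod M)) - G (x + ((Q * k : ℕ) : ZMod M))‖ +
          ‖G (x + ((Q * k : ℕ) : ZMod M)) - G x‖ := norm_sub_le_norm_sub_add_norm_sub _ _ _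
    push_cast at ih h1 h2 ⊢
    nlinarith

omit [NeZero M] [NeZero Q] in
lemma slow_nonneg {κ : ℝ} {G : ZMod M → ℂ} (hG : Slow Q κ G) : 0 ≤ κ := (norm_nonneg _).trans (hG 0)

end ProfAux

lemma slow_mul {κ : ℝ} {G : ZMod M → ℂ} (hG : Slow Q κ G) (x : ZMod M) (k : ℤ) :
    ‖G (x + ((Q * k : ℤ) : ZMod M)) - G x‖ ≤ κ * |(k : ℝ)| := by
  obtain ⟨n, rfl | rfl⟩ := Int.eq_nat_or_neg k
  · have := ProfAux.slow_nat hG x n
    simpa using this
  · have := ProfAux.slow_nat hG (x + ((Q * (-(n : ℤ)) : ℤ) : ZMod M)) n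
    have e : x + ((Q * (-(n : ℤ)) : ℤ) : ZMod M) + ((Q * n : ℕ) : ZMod M) = x := by
      push_cast
      ring
    rw [e, norm_sub_rev] at this
    simpa using this

namespace ProfAux

lemma slow_dvd {κ : ℝ} {G : ZMod M → ℂ} (hG : Slow Q κ G) (a b : ZMod M) (w : ℤ) (hab : b = a + (w : ZMod M))
    (hw : ((w : ℤ) : ZMod Q) = 0) {L : ℝ} (hL : |(w : ℝ)| ≤ L + Q) : ‖G b - G a‖ ≤ κ * (L / Q + 1) := by
  obtain ⟨k, rfl⟩ := (ZMod.intCast_zmod_eq_zero_iff_dvd w Q).mp hw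
  subst hab
  refine (slow_mul hG a k).trans (mul_le_mul_of_nonneg_left ?_ (slow_nonneg hG))
  have hQ : (0 : ℝ) < Q := Nat.cast_pos.mpr (Nat.pos_of_ne_zero (NeZero.ne Q))
  have h1 : |(((Q : ℤ) * k : ℤ) : ℝ)| = Q * |(k : ℝ)| := by
    push_cast
    rw [abs_mul, Nat.abs_cast]
  rw [h1] at hL
  have h2 : L / Q + 1 = (L + Q) / Q := by field_simp
  rw [h2, le_div_iff₀ hQ]
  linarith

end ProfAux

lemma pf_shift (h : Q ∣ M) {κ : ℝ} {G : ZMod M → ℂ} (hG : Slow Q κ G) (y : ZMod M) (ρ : ZMod Q) (v : ℤ) :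
    ‖pf h G (y + (v : ZMod M)) ρ - pf h G y ρ‖ ≤ κ * (|(v : ℝ)| / Q + 1) := by
  unfold pf
  have e1 := red_ofs h (y + (v : ZMod M)) ρ
  have e2 := red_ofs h y ρ
  have l1 := ofs_lt h (y + (v : ZMod M)) ρ
  have l2 := ofs_lt h y ρ
  set o1 := ofs h (y + (v : ZMod M)) ρ
  set o2 := ofs h y ρ
  refine ProfAux.slow_dvd hG (y + (o2 : ZMod M)) (y + (v : ZMod M) + (o1 : ZMod M)) (v + o1 - o2) ?_ ?_ ?_
  · push_cast
    ring
  · rw [map_add, map_natCast] at e1 e2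
    rw [map_add, map_intCast] at e1
    push_cast
    linear_combination e1 - e2
  · have l1' : (o1 : ℝ) < Q := by exact_mod_cast l1
    have l2' : (o2 : ℝ) < Q := by exact_mod_cast l2
    have p1 : (0 : ℝ) ≤ o1 := Nat.cast_nonneg _
    have p2 : (0 : ℝ) ≤ o2 := Nat.cast_nonneg _
    push_cast
    rw [abs_le]
    constructor
    · linarith [neg_abs_le (v : ℝ)]
    · linarith [le_abs_self (v : ℝ)]

lemma eq_pf (h : Q ∣ M) {κ : ℝ} {G : ZMod M → ℂ} (hG : Slow Q κ G) (x : ZMod M) (v : ℤ) :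
    ‖G (x + (v : ZMod M)) - pf h G x (red h x + (v : ZMod Q))‖ ≤ κ * (|(v : ℝ)| / Q + 1) := by
  unfold pf
  have e2 := red_ofs h x (red h x + (v : ZMod Q))
  have l2 := ofs_lt h x (red h x + (v : ZMod Q))
  set o2 := ofs h x (red h x + (v : ZMod Q))
  refine ProfAux.slow_dvd hG (x + (o2 : ZMod M)) (x + (v : ZMod M)) (v - o2) ?_ ?_ ?_
  · push_cast
    ring
  · rw [map_add, map_natCast] at e2
    push_cast
    linear_combination -e2
  · have l2' : (o2 : ℝ) < Q := by exact_mod_cast l2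
    have p2 : (0 : ℝ) ≤ o2 := Nat.cast_nonneg _
    push_cast
    rw [abs_le]
    constructor
    · linarith [neg_abs_le (v : ℝ)]
    · linarith [le_abs_self (v : ℝ)]

lemma avr_pf (h : Q ∣ M) (F : ZMod M → ℝ) :
    avr (fun y : ZMod M => avr (fun ρ : ZMod Q => F (y + (ofs h y ρ : ZMod M)))) = avr F := by
  have h1 : ∀ y : ZMod M, avr (fun ρ : ZMod Q => F (y + (ofs h y ρ : ZMod M))) =
      avr (fun ρ : ZMod Q => F (y + (ρ.val : ZMod M))) := by
    intro y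
    have := avr_shift_sub (fun ρ : ZMod Q => F (y + (ρ.val : ZMod M))) (red h y)
    rw [← this]
    rfl
  simp only [h1]
  have h2 : avr (fun y : ZMod M => avr (fun ρ : ZMod Q => F (y + (ρ.val : ZMod M)))) =
      avr (fun ρ : ZMod Q => avr (fun y : ZMod M => F (y + (ρ.val : ZMod M)))) := by
    unfold avr
    rw [← Finset.sum_div, ← Finset.sum_div, Finset.sum_comm, div_div, div_div, mul_comm (M : ℝ) (Q : ℝ)]
  rw [h2]
  have h3 : ∀ ρ : ZMod Q, avr (fun y : ZMod M => F (y + (ρ.val : ZMod M))) = avr F := fun ρ =>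
    avr_shift F (ρ.val : ZMod M)
  simp only [h3]
  exact avr_const _

lemma red_pz (h : Q ∣ M) (P : ℤ[X]) (t : ℕ) : red h (pz M P t) = pz Q P t := by
  unfold pz
  rw [map_intCast]

lemma pz_periodic (P : ℤ[X]) (t k : ℕ) : pz Q P (t + Q * k) = pz Q P t := by
  unfold pz
  have h1 := Polynomial.sub_dvd_eval_sub (((t + Q * k : ℕ) : ℤ)) (t : ℤ) P
  have h2 : (((t + Q * k : ℕ) : ℤ)) - (t : ℤ) = (Q : ℤ) * k := by
    push_cast
    ring
  rw [h2] at h1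
  have h3 : (Q : ℤ) ∣ P.eval (((t + Q * k : ℕ) : ℤ)) - P.eval (t : ℤ) := (Dvd.intro _ rfl).trans h1
  have h4 := (ZMod.intCast_zmod_eq_zero_iff_dvd _ Q).mpr h3
  rw [Int.cast_sub, sub_eq_zero] at h4
  exact h4

/-- The average of the product of the profiles (frozen lower degree polynomials); `x` and the residue `ρ` are independent. -/
noncomputable def PA (h : Q ∣ M) {n : ℕ} (N : ℕ) (P : Fin n → ℤ[X]) (i₀ : Fin n) (G : Fin n → ZMod M → ℂ)
    (x : ZMod M) (ρ : ZMod Q) : ℂ :=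
  tv N (fun m => ∏ l, pf h (G l) (x + pz M (P i₀) m) (ρ + pz Q (P l) m))

/-- The average over the residues of the product of the profiles near `y`. -/
noncomputable def ZZ (h : Q ∣ M) {n : ℕ} (P : Fin n → ℤ[X]) (G : Fin n → ZMod M → ℂ) (y : ZMod M) (ρ : ZMod Q) : ℂ :=
  tv Q (fun u => ∏ l, pf h (G l) y (ρ + pz Q (P l) u))

theorem PA_near {n D : ℕ} {P : Fin n → ℤ[X]} {e : Fin n → ℕ} {i₀ : Fin n} (h : EqDeg D P e i₀) :
    ∃ b : ℕ, ∀ (M Q : ℕ) [NeZero M] [NeZero Q] (hQ : Q ∣ M) (N : ℕ), 1 ≤ N → ∀ (G : Fin n → ZMod M → ℂ),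
      (∀ l x, ‖G l x‖ ≤ 2) → ∀ κ : Fin n → ℝ, (∀ l, Slow Q (κ l) (G l)) → ∀ x : ZMod M,
      ‖AA N P G x - PA hQ N P i₀ G x (red hQ x)‖ ≤
        2 ^ n * ∑ l, κ l * ((b : ℝ) * (N : ℝ) ^ e l / Q + 2) := by
  refine ⟨∑ l, ∑ i ∈ range (e l + 1), ((P l - P i₀).coeff i).natAbs, ?_⟩
  intro M Q _ _ hQ N hN G hG κ hκ x
  have hQ0 : (0 : ℝ) < Q := Nat.cast_pos.mpr (Nat.pos_of_ne_zero (NeZero.ne Q))
  unfold AA PA
  rw [← tv_sub]
  have hκ0 : ∀ l, 0 ≤ κ l := fun l => ProfAux.slow_nonneg (hκ l)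
  have hnn : ∀ l, 0 ≤ κ l * (((∑ l, ∑ i ∈ range (e l + 1), ((P l - P i₀).coeff i).natAbs : ℕ) : ℝ) *
      (N : ℝ) ^ e l / Q + 2) := fun l => mul_nonneg (hκ0 l) (by positivity)
  refine (norm_tv_le _ _).trans (tvr_le N (mul_nonneg (by positivity) (Finset.sum_nonneg (fun l _ => hnn l))) ?_)
  intro m hm
  have hp : ∀ l z σ, ‖pf hQ (G l) z σ‖ ≤ 2 := fun l z σ => hG l _
  refine (ProfAux.prod_sub_le univ _ _ (fun l => hG l (x + pz M (P l) m))
    (fun l => hp l (x + pz M (P i₀) m) (red hQ x + pz Q (P l) m))).trans ?_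
  rw [Finset.card_univ, Fintype.card_fin]
  refine mul_le_mul_of_nonneg_left (Finset.sum_le_sum (fun l _ => ?_)) (by positivity)
  have e1 : x + pz M (P l) m = (x + pz M (P i₀) m) + (((P l - P i₀).eval (m : ℤ) : ℤ) : ZMod M) := by
    unfold pz
    rw [Polynomial.eval_sub, Int.cast_sub]
    ring
  have e2 : red hQ x + pz Q (P l) m =
      red hQ (x + pz M (P i₀) m) + (((P l - P i₀).eval (m : ℤ) : ℤ) : ZMod Q) := by
    rw [map_add, red_pz]
    unfold pz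
    rw [Polynomial.eval_sub, Int.cast_sub]
    ring
  rw [e1, e2]
  refine (eq_pf hQ (hκ l) _ _).trans (mul_le_mul_of_nonneg_left ?_ (hκ0 l))
  have h1 := ProfAux.eval_le (P l - P i₀) (h.base l) hN hm
  have h2 : ((∑ i ∈ range (e l + 1), ((P l - P i₀).coeff i).natAbs : ℕ) : ℝ) ≤
      ((∑ l, ∑ i ∈ range (e l + 1), ((P l - P i₀).coeff i).natAbs : ℕ) : ℝ) := by
    exact_mod_cast Finset.single_le_sum
      (f := fun l => ∑ i ∈ range (e l + 1), ((P l - P i₀).coeff i).natAbs) (fun _ _ => Nat.zero_le _)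
      (Finset.mem_univ l)
  have h3 : (0 : ℝ) ≤ (N : ℝ) ^ e l := by positivity
  have h4 : |(((P l - P i₀).eval (m : ℤ) : ℤ) : ℝ)| ≤
      ((∑ l, ∑ i ∈ range (e l + 1), ((P l - P i₀).coeff i).natAbs : ℕ) : ℝ) * (N : ℝ) ^ e l :=
    h1.trans (mul_le_mul_of_nonneg_right h2 h3)
  have h5 := div_le_div_of_nonneg_right h4 hQ0.le
  linarith

/-- `ZZ` is slow in the first variable. -/
lemma ZZ_shift (h : Q ∣ M) {n : ℕ} (P : Fin n → ℤ[X]) (G : Fin n → ZMod M → ℂ) (hG : ∀ l x, ‖G l x‖ ≤ 2)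
    (κ : Fin n → ℝ) (hκ : ∀ l, Slow Q (κ l) (G l)) (y : ZMod M) (ρ : ZMod Q) (v : ℕ) :
    ‖ZZ h P G (y + (v : ZMod M)) ρ - ZZ h P G y ρ‖ ≤ 2 ^ n * ∑ l, κ l * ((v : ℝ) / Q + 1) := by
  have hκ0 : ∀ l, 0 ≤ κ l := fun l => ProfAux.slow_nonneg (hκ l)
  unfold ZZ
  rw [← tv_sub]
  refine (norm_tv_le _ _).trans (tvr_le Q (mul_nonneg (by positivity)
    (Finset.sum_nonneg (fun l _ => mul_nonneg (hκ0 l) (by positivity)))) ?_)
  intro u _
  have hp : ∀ l z σ, ‖pf h (G l) z σ‖ ≤ 2 := fun l z σ => hG l _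
  refine (ProfAux.prod_sub_le univ _ _ (fun l => hp l (y + (v : ZMod M)) (ρ + pz Q (P l) u))
    (fun l => hp l y (ρ + pz Q (P l) u))).trans ?_
  rw [Finset.card_univ, Fintype.card_fin]
  refine mul_le_mul_of_nonneg_left (Finset.sum_le_sum (fun l _ => ?_)) (by positivity)
  have := pf_shift h (hκ l) y (ρ + pz Q (P l) u) (v : ℤ)
  simpa using this

end group

end Pool.Agent.EQD.Lo
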