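import Pool.Agent.Lib.EQD.DkB

/-!
# Module RM2: two-parameter Rademacher-Menshov inequality

`RMd X k p k' p'` = mixed difference over the intervals `[2 p 2 ^ k, (2 p + 1) 2 ^ k)` and `[2 p' 2 ^ k', (2 p' + 1) 2 ^ k')`.

PROOF. For `i < 2 ^ K` and a function `a` on `ℕ`: `a i = a 0 + ∑_{k < K, bit k of i set} (a ((2 p_k + 1) 2 ^ k) - a (2 p_k 2 ^ k))` with `p_k = i / 2 ^ (k + 1)` (telescoping over the set bits from the
highest to the lowest: the partial sums of the binary expansion). Apply this in both variables of `X i i`: `X i i = X 0 0 + ∑_k [X (..) 0 differences] + ∑_k' [..] + ∑_{k, k'} RMd X k (i / 2 ^ (k+1)) k' (i / 2 ^ (k'+1))`,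
sums over set bits. Cauchy-Schwarz (at most `(K + 1) ^ 2` terms), bound each square by the sum over all `p < 2 ^ (K - k - 1)` (`k ≤ k'`: `i / 2 ^ (k' + 1) = p / 2 ^ (k' - k)`), or over all
`p' < 2 ^ (K - k' - 1)` if `k' < k`, and take the mean over `x` (`i = c x`).
-/

set_option autoImplicit false

open Finset Polynomial

namespace Pool.Agent.EQD

open Pool.Agent.HLT Pool.Agent.NLT Pool.Agent.NLG

variable {M : ℕ} [NeZero M]

/-- Mixed difference. -/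
noncomputable def RMd (X : ℕ → ℕ → ZMod M → ℂ) (k p k' p' : ℕ) (x : ZMod M) : ℂ :=
  X ((2 * p + 1) * 2 ^ k) ((2 * p' + 1) * 2 ^ k') x - X (2 * p * 2 ^ k) ((2 * p' + 1) * 2 ^ k') x -
    X ((2 * p + 1) * 2 ^ k) (2 * p' * 2 ^ k') x + X (2 * p * 2 ^ k) (2 * p' * 2 ^ k') x

namespace RM2Aux

/-- one term of the dyadic expansion of `a i` -/
noncomputable def dd (K : ℕ) (a : ℕ → ℂ) (k i : ℕ) : ℂ :=
  if k < K then a (i / 2 ^ k * 2 ^ k) - a (i / 2 ^ (k + 1) * 2 ^ (k + 1)) else a 0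

theorem sum_dd (K : ℕ) (a : ℕ → ℂ) (i : ℕ) (hi : i < 2 ^ K) :
    ∑ k ∈ range (K + 1), dd K a k i = a i := by
  rw [Finset.sum_range_succ]
  have h1 : ∑ k ∈ range K, dd K a k i =
      ∑ k ∈ range K, (a (i / 2 ^ k * 2 ^ k) - a (i / 2 ^ (k + 1) * 2 ^ (k + 1))) :=
    Finset.sum_congr rfl fun k hk => by rw [dd, if_pos (Finset.mem_range.1 hk)]
  rw [h1, Finset.sum_range_sub' (fun k => a (i / 2 ^ k * 2 ^ k)), dd, if_neg (lt_irrefl K)]
  rw [pow_zero, Nat.div_one, mul_one, Nat.div_eq_of_lt hi, zero_mul, sub_add_cancel]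

theorem dd_sum (K : ℕ) {ι : Type} (t : Finset ι) (b : ι → ℕ → ℂ) (k i : ℕ) :
    dd K (fun j => ∑ q ∈ t, b q j) k i = ∑ q ∈ t, dd K (b q) k i := by
  unfold dd
  split_ifs
  · rw [Finset.sum_sub_distrib]
  · rfl

theorem succ_eq (i k : ℕ) : i / 2 ^ (k + 1) * 2 ^ (k + 1) = 2 * (i / 2 ^ (k + 1)) * 2 ^ k := by
  rw [pow_succ]
  ring

theorem cases_eq (i k : ℕ) : i / 2 ^ k * 2 ^ k = 2 * (i / 2 ^ (k + 1)) * 2 ^ k ∨
    i / 2 ^ k * 2 ^ k = (2 * (i / 2 ^ (k + 1)) + 1) * 2 ^ k := by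
  have h1 : i / 2 ^ (k + 1) = i / 2 ^ k / 2 := by
    rw [Nat.div_div_eq_div_mul, ← pow_succ]
  rw [h1]
  rcases Nat.mod_two_eq_zero_or_one (i / 2 ^ k) with h | h
  · left
    congr 1
    omega
  · right
    congr 1
    omega

/-- a difference is zero or the difference over the dyadic interval -/
theorem norm_diff (a : ℕ → ℂ) (k i : ℕ) :
    ‖a (i / 2 ^ k * 2 ^ k) - a (i / 2 ^ (k + 1) * 2 ^ (k + 1))‖ ≤
      ‖a ((2 * (i / 2 ^ (k + 1)) + 1) * 2 ^ k) - a (2 * (i / 2 ^ (k + 1)) * 2 ^ k)‖ := by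
  rw [succ_eq]
  rcases cases_eq i k with h | h
  · rw [h, sub_self, norm_zero]
    exact norm_nonneg _
  · rw [h]

theorem norm_mixed (X : ℕ → ℕ → ZMod M → ℂ) (k k' i : ℕ) (x : ZMod M) :
    ‖(X (i / 2 ^ k * 2 ^ k) (i / 2 ^ k' * 2 ^ k') x -
        X (i / 2 ^ k * 2 ^ k) (i / 2 ^ (k' + 1) * 2 ^ (k' + 1)) x) -
      (X (i / 2 ^ (k + 1) * 2 ^ (k + 1)) (i / 2 ^ k' * 2 ^ k') x -
        X (i / 2 ^ (k + 1) * 2 ^ (k + 1)) (i / 2 ^ (k' + 1) * 2 ^ (k' + 1)) x)‖ ≤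
      ‖RMd X k (i / 2 ^ (k + 1)) k' (i / 2 ^ (k' + 1)) x‖ := by
  rw [succ_eq i k, succ_eq i k']
  rcases cases_eq i k with h | h
  · rw [h, sub_self, norm_zero]
    exact norm_nonneg _
  · rcases cases_eq i k' with h' | h'
    · rw [h', sub_self, sub_self, sub_zero, norm_zero]
      exact norm_nonneg _
    · rw [h, h']
      refine le_of_eq (congrArg _ ?_)
      unfold RMd
      ring

theorem n2_pick (F : ZMod M → ℂ) (Y : ℕ → ZMod M → ℂ) (N : ℕ) (p : ZMod M → ℕ)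
    (hp : ∀ x, p x < N) (h : ∀ x, ‖F x‖ ≤ ‖Y (p x) x‖) : n2 F ≤ ∑ q ∈ range N, n2 (Y q) := by
  unfold n2
  rw [← avr_sum]
  refine avr_mono fun x => ?_
  calc ‖F x‖ ^ 2 ≤ ‖Y (p x) x‖ ^ 2 := pow_le_pow_left₀ (norm_nonneg _) (h x) 2
    _ ≤ ∑ q ∈ range N, ‖Y q x‖ ^ 2 :=
      Finset.single_le_sum (f := fun q => ‖Y q x‖ ^ 2) (fun q _ => sq_nonneg _)
        (Finset.mem_range.2 (hp x))

theorem n2_sum {ι : Type} (s : Finset ι) (T : ι → ZMod M → ℂ) :
    n2 (fun x => ∑ i ∈ s, T i x) ≤ (s.card : ℝ) * ∑ i ∈ s, n2 (T i) := by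
  unfold n2
  rw [← avr_sum, ← avr_mul_left]
  refine avr_mono (fun x => ?_)
  calc ‖∑ i ∈ s, T i x‖ ^ 2 ≤ (∑ i ∈ s, ‖T i x‖) ^ 2 :=
        pow_le_pow_left₀ (norm_nonneg _) (norm_sum_le _ _) 2
    _ ≤ (s.card : ℝ) * ∑ i ∈ s, ‖T i x‖ ^ 2 := sq_sum_le_card_mul_sum_sq

theorem div_lt {K k i : ℕ} (hk : k < K) (hi : i < 2 ^ K) : i / 2 ^ (k + 1) < 2 ^ (K - k - 1) := by
  apply Nat.div_lt_of_lt_mul
  rw [← pow_add]
  have : k + 1 + (K - k - 1) = K := by omega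
  rwa [this]

theorem div_div {k k' : ℕ} (i : ℕ) (h : k ≤ k') :
    i / 2 ^ (k' + 1) = i / 2 ^ (k + 1) / 2 ^ (k' - k) := by
  rw [Nat.div_div_eq_div_mul, ← pow_add]
  congr 2
  omega

/-- the term of the double expansion -/
noncomputable def term (K : ℕ) (X : ℕ → ℕ → ZMod M → ℂ) (c : ZMod M → ℕ) (q : ℕ × ℕ)
    (x : ZMod M) : ℂ :=
  dd K (fun j => dd K (fun j' => X j j' x) q.2 (c x)) q.1 (c x)

theorem expand (K : ℕ) (X : ℕ → ℕ → ZMod M → ℂ) (c : ZMod M → ℕ) (x : ZMod M)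
    (hx : c x < 2 ^ K) :
    X (c x) (c x) x = ∑ q ∈ range (K + 1) ×ˢ range (K + 1), term K X c q x := by
  rw [Finset.sum_product]
  have h1 : ∀ j, X j (c x) x = ∑ k' ∈ range (K + 1), dd K (fun j' => X j j' x) k' (c x) :=
    fun j => (sum_dd K (fun j' => X j j' x) (c x) hx).symm
  rw [← sum_dd K (fun j => X j (c x) x) (c x) hx]
  refine Finset.sum_congr rfl fun k _ => ?_
  have h2 : (fun j => X j (c x) x) =
      fun j => ∑ k' ∈ range (K + 1), dd K (fun j' => X j j' x) k' (c x) := funext h1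
  rw [h2, dd_sum K (range (K + 1)) (fun k' j => dd K (fun j' => X j j' x) k' (c x))]
  rfl

end RM2Aux

open RM2Aux

theorem rm2 (K : ℕ) (X : ℕ → ℕ → ZMod M → ℂ) (G : ℝ) (h0 : n2 (X 0 0) ≤ G)
    (h1 : ∀ k < K, ∑ p ∈ range (2 ^ (K - k - 1)), n2 (fun x => X ((2 * p + 1) * 2 ^ k) 0 x - X (2 * p * 2 ^ k) 0 x) ≤ G)
    (h2 : ∀ k < K, ∑ p ∈ range (2 ^ (K - k - 1)), n2 (fun x => X 0 ((2 * p + 1) * 2 ^ k) x - X 0 (2 * p * 2 ^ k) x) ≤ G)
    (h12 : ∀ k < K, ∀ k' < K, k ≤ k' → ∑ p ∈ range (2 ^ (K - k - 1)), n2 (RMd X k p k' (p / 2 ^ (k' - k))) ≤ G)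
    (h21 : ∀ k < K, ∀ k' < K, k' < k → ∑ p' ∈ range (2 ^ (K - k' - 1)), n2 (RMd X k (p' / 2 ^ (k - k')) k' p') ≤ G)
    (c : ZMod M → ℕ) (hc : ∀ x, c x < 2 ^ K) : n2 (fun x => X (c x) (c x) x) ≤ ((K : ℝ) + 1) ^ 4 * G := by
  have hG : ∀ q ∈ range (K + 1) ×ˢ range (K + 1), n2 (term K X c q) ≤ G := by
    rintro ⟨k, k'⟩ hq
    obtain ⟨hk, hk'⟩ := Finset.mem_product.1 hq
    rw [Finset.mem_range] at hk hk'
    simp only at hk hk'
    by_cases h3 : k < K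
    · by_cases h4 : k' < K
      · have hterm : ∀ x, ‖term K X c (k, k') x‖ ≤
            ‖RMd X k (c x / 2 ^ (k + 1)) k' (c x / 2 ^ (k' + 1)) x‖ := by
          intro x
          have := norm_mixed X k k' (c x) x
          unfold term
          simp only [dd, if_pos h3, if_pos h4]
          exact this
        by_cases h5 : k ≤ k'
        · refine (n2_pick _ (fun p => RMd X k p k' (p / 2 ^ (k' - k))) _
            (fun x => c x / 2 ^ (k + 1)) (fun x => div_lt h3 (hc x)) fun x => ?_).trans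
            (h12 k h3 k' h4 h5)
          rw [← div_div (c x) h5]
          exact hterm x
        · refine (n2_pick _ (fun p' => RMd X k (p' / 2 ^ (k - k')) k' p') _
            (fun x => c x / 2 ^ (k' + 1)) (fun x => div_lt h4 (hc x)) fun x => ?_).trans
            (h21 k h3 k' h4 (by omega))
          rw [← div_div (c x) (by omega : k' ≤ k)]
          exact hterm x
      · refine (n2_pick _
          (fun p x => X ((2 * p + 1) * 2 ^ k) 0 x - X (2 * p * 2 ^ k) 0 x) _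
          (fun x => c x / 2 ^ (k + 1)) (fun x => div_lt h3 (hc x)) fun x => ?_).trans (h1 k h3)
        unfold term
        simp only [dd, if_pos h3, if_neg h4]
        exact norm_diff (fun j => X j 0 x) k (c x)
    · by_cases h4 : k' < K
      · refine (n2_pick _
          (fun p x => X 0 ((2 * p + 1) * 2 ^ k') x - X 0 (2 * p * 2 ^ k') x) _
          (fun x => c x / 2 ^ (k' + 1)) (fun x => div_lt h4 (hc x)) fun x => ?_).trans (h2 k' h4)
        unfold term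
        simp only [dd, if_neg h3, if_pos h4]
        exact norm_diff (fun j => X 0 j x) k' (c x)
      · have : term K X c (k, k') = X 0 0 := by
          funext x
          unfold term
          simp only [dd, if_neg h3, if_neg h4]
        rw [this]
        exact h0
  have hcard : ((range (K + 1) ×ˢ range (K + 1)).card : ℝ) = ((K : ℝ) + 1) ^ 2 := by
    rw [Finset.card_product, Finset.card_range]
    push_cast
    ring
  have hexp : (fun x => X (c x) (c x) x) =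
      fun x => ∑ q ∈ range (K + 1) ×ˢ range (K + 1), term K X c q x :=
    funext fun x => expand K X c x (hc x)
  rw [hexp]
  refine (n2_sum _ _).trans ?_
  have h6 : ∑ q ∈ range (K + 1) ×ˢ range (K + 1), n2 (term K X c q) ≤ ((K : ℝ) + 1) ^ 2 * G := by
    refine (Finset.sum_le_sum hG).trans ?_
    rw [Finset.sum_const, nsmul_eq_mul, hcard]
  rw [hcard]
  calc ((K : ℝ) + 1) ^ 2 * ∑ q ∈ range (K + 1) ×ˢ range (K + 1), n2 (term K X c q)
      ≤ ((K : ℝ) + 1) ^ 2 * (((K : ℝ) + 1) ^ 2 * G) :=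
        mul_le_mul_of_nonneg_left h6 (by positivity)
    _ = ((K : ℝ) + 1) ^ 4 * G := by ring

end Pool.Agent.EQD
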