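import Pool.Agent.Lib.EQD.L2win

/-!
# Module Shl: sums over the scales of averages with a band in one slot

PROOF. For each `j`: `cv δ f = cv (dlt - bk q K) (cv δ f) + Eb q K (cv δ f)` (`cv_sub`, `cv_dlt`, `cv_bk`), `AA_update_add`, `n2_add_le`. First term: `l2gain` with
`β = dlt - bk q K` (`mass ≤ 2`, `supp_sub`, `supp_dlt`, `supp_bk`): `n2 ≤ C n2 (cv δ f) / R`. Second term: `n2_AA_le`: `n2 ≤ n2 (Eb q K (cv δ f))`
`= ∑_ξ (‖dk K (q θ)‖ ‖mul δ θ‖) ^ 2 ‖ft f ξ‖ ^ 2`, `θ = ξ.val / M` (`ft_Eb`, `ft_cv`). Sum over `j`, exchange the sums, `∑_ξ ‖ft f ξ‖ ^ 2 = n2 f ≤ 1`.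
-/

set_option autoImplicit false

open Finset Polynomial

namespace Pool.Agent.EQD

open Pool.Agent.HLT Pool.Agent.NLT Pool.Agent.NLG

theorem shell {n D : ℕ} {P : Fin n → ℤ[X]} {e : Fin n → ℕ} {i₀ : Fin n} (h : EqDeg D P e i₀) :
    ∃ C : ℕ, 1 ≤ C ∧ ∀ (M : ℕ) [NeZero M] (N : ℕ → ℕ) (s : Finset ℕ) (i : Fin n) (δ : ℕ → ℤ →₀ ℂ) (q K : ℕ → ℕ) (R : ℕ)
      (G G' : ℝ), 2 ≤ R →
      (∀ j ∈ s, R ^ C ≤ N j ∧ q j * K j ≤ N j ^ D ∧ NS C R (N j ^ e i) (dlt - bk (q j) (K j))) →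
      (∀ θ : ℝ, ∑ j ∈ s, ‖mul (δ j) θ‖ ^ 2 ≤ G) →
      (∀ θ : ℝ, ∑ j ∈ s, (‖dk (K j) (q j * θ)‖ * ‖mul (δ j) θ‖) ^ 2 ≤ G') →
      ∀ g : ℕ → Fin n → ZMod M → ℂ, (∀ j l, Bd (g j l)) → ∀ f : ZMod M → ℂ, Bd f →
      ∑ j ∈ s, n2 (AA (N j) P (Function.update (g j) i (cv (δ j) f))) ≤ C * G / R + 2 * G' := by
  obtain ⟨C, hC1, hC⟩ := l2gain h
  refine ⟨C * 2, by omega, ?_⟩
  intro M _ N s i δ q K R G G' hR hj hG hG' g hg f hf
  have hR0 : (0 : ℝ) < R := by exact_mod_cast (by omega : 0 < R)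
  have hR1 : (1 : ℝ) ≤ R := by exact_mod_cast (by omega : 1 ≤ R)
  have hG0 : 0 ≤ G := le_trans (Finset.sum_nonneg fun j _ => by positivity) (hG 0)
  have hG0' : 0 ≤ G' := le_trans (Finset.sum_nonneg fun j _ => by positivity) (hG' 0)
  have hf1 : n2 f ≤ 1 := n2_le_of_Bd f hf
  have hstep : ∀ j ∈ s, n2 (AA (N j) P (Function.update (g j) i (cv (δ j) f))) ≤
      ((C * 2 : ℕ) : ℝ) * n2 (cv (δ j) f) / R + 2 * n2 (Eb (q j) (K j) (cv (δ j) f)) := by
    intro j hjs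
    obtain ⟨h1, h2, h3⟩ := hj j hjs
    have hpow : (R ^ 2) ^ C = R ^ (C * 2) := by rw [← pow_mul, mul_comm 2 C]
    have hpowr : (((R ^ 2 : ℕ) : ℝ)) ^ C = (R : ℝ) ^ (C * 2) := by
      rw [Nat.cast_pow, ← pow_mul, mul_comm 2 C]
    have hNS : NS C (R ^ 2) (N j ^ e i) (dlt - bk (q j) (K j)) := by
      intro r hr hr2 θ
      rw [hpow] at hr2 ⊢
      rw [hpowr]
      exact h3 r hr hr2 θ
    have hmass : mass (dlt - bk (q j) (K j)) ≤ 4 := by
      have h4 := mass_sub_le dlt (bk (q j) (K j))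
      have h5 := mass_dlt
      have h6 := mass_bk_le (q j) (K j)
      linarith
    have hsupp : Supp (N j ^ D) (dlt - bk (q j) (K j)) :=
      supp_sub _ _ _ (supp_dlt _) (supp_bk _ _ _ h2)
    have hg2 := (hC M (N j) (R ^ 2) (le_trans hR (Nat.le_self_pow (by norm_num) R))
      (by rw [hpow]; exact h1) i (dlt - bk (q j) (K j)) hmass hsupp hNS (g j) (hg j)
      (cv (δ j) f)).1
    have hsplit : AA (N j) P (Function.update (g j) i (cv (δ j) f)) = fun x =>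
        AA (N j) P (Function.update (g j) i
          (cv (dlt - bk (q j) (K j)) (cv (δ j) f))) x +
        AA (N j) P (Function.update (g j) i (Eb (q j) (K j) (cv (δ j) f))) x := by
      funext x
      rw [← AA_update_add]
      congr 2
      funext y
      rw [cv_sub, cv_dlt, cv_bk]
      ring
    rw [hsplit]
    refine (n2_add_le _ _).trans (add_le_add ?_ ?_)
    · refine (mul_le_mul_of_nonneg_left hg2 (by norm_num)).trans ?_
      have h4 : 0 ≤ n2 (cv (δ j) f) := n2_nonneg _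
      have h5 : (C : ℝ) * n2 (cv (δ j) f) / ((R ^ 2 : ℕ) : ℝ) ≤ C * n2 (cv (δ j) f) / R := by
        refine div_le_div_of_nonneg_left (by positivity) hR0 ?_
        exact_mod_cast Nat.le_self_pow (by norm_num) R
      calc 2 * ((C : ℝ) * n2 (cv (δ j) f) / ((R ^ 2 : ℕ) : ℝ))
          ≤ 2 * (C * n2 (cv (δ j) f) / R) := mul_le_mul_of_nonneg_left h5 (by norm_num)
        _ = ((C * 2 : ℕ) : ℝ) * n2 (cv (δ j) f) / R := by
            push_cast
            ring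
    · refine mul_le_mul_of_nonneg_left ?_ (by norm_num)
      have h4 := n2_AA_le (N j) P (Function.update (g j) i (Eb (q j) (K j) (cv (δ j) f))) i
        (fun l hl => by
          rw [Function.update_of_ne hl]
          exact hg j l)
      rw [Function.update_self] at h4
      exact h4
  refine (Finset.sum_le_sum hstep).trans ?_
  rw [Finset.sum_add_distrib]
  refine add_le_add ?_ ?_
  · rw [← Finset.sum_div, ← Finset.mul_sum]
    refine div_le_div_of_nonneg_right ?_ hR0.le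
    refine mul_le_mul_of_nonneg_left ?_ (Nat.cast_nonneg _)
    have h1 := sum_n2_cv_le s δ G hG f
    have h2 : G * n2 f ≤ G * 1 := mul_le_mul_of_nonneg_left hf1 hG0
    linarith
  · rw [← Finset.mul_sum]
    refine mul_le_mul_of_nonneg_left ?_ (by norm_num)
    have h1 : ∀ j ∈ s, n2 (Eb (q j) (K j) (cv (δ j) f)) = ∑ ξ : ZMod M,
        (‖dk (K j) (q j * ((ξ.val : ℝ) / M))‖ * ‖mul (δ j) ((ξ.val : ℝ) / M)‖) ^ 2 *
          ‖ft f ξ‖ ^ 2 := by
      intro j _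
      rw [n2_eq_ft]
      refine Finset.sum_congr rfl fun ξ _ => ?_
      rw [ft_Eb, ft_cv, ← mul_assoc, norm_mul, norm_mul, mul_pow]
    rw [Finset.sum_congr rfl h1, Finset.sum_comm]
    have h2 : ∀ ξ ∈ (univ : Finset (ZMod M)), ∑ j ∈ s,
        (‖dk (K j) (q j * ((ξ.val : ℝ) / M))‖ * ‖mul (δ j) ((ξ.val : ℝ) / M)‖) ^ 2 *
          ‖ft f ξ‖ ^ 2 ≤ G' * ‖ft f ξ‖ ^ 2 := by
      intro ξ _
      rw [← Finset.sum_mul]
      exact mul_le_mul_of_nonneg_right (hG' _) (by positivity)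
    refine (Finset.sum_le_sum h2).trans ?_
    rw [← Finset.mul_sum, ← n2_eq_ft]
    have h3 : G' * n2 f ≤ G' * 1 := mul_le_mul_of_nonneg_left hf1 hG0'
    linarith

end Pool.Agent.EQD
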