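import Pool.Agent.Lib.EQD.EnV
import Pool.Agent.Lib.EQD.FGn
import Pool.Agent.Lib.EQD.Hgt

/-!
# Module StrB: energies of the fibre averages

Block `[2 ^ K, 2 ^ (K + 1))`, `t = K / 2`, `Q = QB B t`, `Ps = PP t (2 ^ (K A))`, `k = a = 2 A + 2`; scale number `i < 2 ^ K` is `j = 2 ^ (K + 1) - 1 - i`; slot `l`: length `Lf Q C₄ t (N j) (e l)`, shift
`ρ l j = (P l - P i₀)(b N j / S)`, `S = 2 ^ (K A₄)`.

PROOF. `v l i = vT Q a k (Lf ..) Ps (ty l) (ρ ..) (f l)`. Numbers: `C_f` = constant of `fibre_gain`, `R = 2 ^ (t / C_f)` (so `q ≤ R ^ C_f ≤ 2 ^ t` divides `Q`, `dvd_QB`), `lam = 2 ^ (t / (8 n C_f))`, `W = 100 n C_f`, `r = r₀`: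
`lam ^ (2 n) / R ≤ 4 * 2 ^ (- t / (2 C_f))` and `2 ^ K / lam ^ W ≤ 2 ^ (- K)` for `K` large. Moments: `w_vT_fib` (`Tny` from `size_block` and `Lf_block`) for `v l i z` and differences (`2 ^ (2 r) (a + b)`), below `lam` for `K` large.
Slot `i₁` with `ty i₁ = 2`: `vT_two_avg` for `v i₁ i z` and for differences. First claim: `fibre_gain` with any `l` and `bessel_vT`. Second claim: `Z i z y - Z i' z y = ∑_l AA M P (update .. l (v l i z - v l i' z)) y`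
(`AA_telescope`), `fibre_gain` in the slot `l`, `≤ n ^ 2 max`, average over `z`, sum over `q`: `en_vT` (`ℓ` = `2 ^ (2 ^ K / 4)`, `A := C₄ / 2 + 3`-ish so that `N ^ e ≤ 2 ^ (K A') Lf`, `|ρ| ≤ C N ^ e`).
-/

set_option autoImplicit false

open Finset Polynomial

namespace Pool.Agent.EQD

open Pool.Agent.HLT Pool.Agent.NLT Pool.Agent.NLG

namespace StrBAux

lemma natAbs_eval_le (R : ℤ[X]) {e N m : ℕ} (hR : R.natDegree ≤ e) (hN : 1 ≤ N) (hm : m ≤ N) :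
    (R.eval (m : ℤ)).natAbs ≤ (∑ i ∈ range (e + 1), (R.coeff i).natAbs) * N ^ e := by
  have h0 : ((R.eval (m : ℤ)).natAbs : ℤ) ≤ (((∑ i ∈ range (e + 1), (R.coeff i).natAbs) * N ^ e : ℕ) : ℤ) := by
    rw [Int.natCast_natAbs, Polynomial.eval_eq_sum_range' (Nat.lt_succ_of_le hR)]
    push_cast
    rw [Finset.sum_mul]
    refine (Finset.abs_sum_le_sum_abs _ _).trans (Finset.sum_le_sum (fun i hi => ?_))
    rw [abs_mul, abs_pow, Nat.abs_cast]
    have hi' : i ≤ e := Nat.lt_succ_iff.mp (Finset.mem_range.mp hi)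
    have h1 : (m : ℤ) ^ i ≤ (N : ℤ) ^ e := by
      have h2 : m ^ i ≤ N ^ e := (Nat.pow_le_pow_left hm i).trans (Nat.pow_le_pow_right hN hi')
      exact_mod_cast h2
    exact mul_le_mul_of_nonneg_left h1 (abs_nonneg _)
  exact_mod_cast h0

lemma idx_lt {K k q : ℕ} (hk : k < K) (hq : q < 2 ^ (K - k - 1)) : (2 * q + 1) * 2 ^ k < 2 ^ K ∧ 2 * q * 2 ^ k < 2 ^ K := by
  have h1 : 2 ^ K = 2 * 2 ^ (K - k - 1) * 2 ^ k := by
    rw [← pow_succ', ← pow_add]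
    congr 1
    omega
  have h2 : 2 * q + 1 < 2 * 2 ^ (K - k - 1) := by omega
  have h3 : (2 * q + 1) * 2 ^ k < 2 ^ K := by
    rw [h1]
    exact Nat.mul_lt_mul_of_pos_right h2 (by positivity)
  refine ⟨h3, lt_of_le_of_lt ?_ h3⟩
  exact Nat.mul_le_mul_right _ (by omega)

lemma block {K i : ℕ} (hi : i < 2 ^ K) : 2 ^ K ≤ 2 ^ (K + 1) - 1 - i ∧ 2 ^ (K + 1) - 1 - i < 2 ^ (K + 1) := by
  have h1 : 2 ^ (K + 1) = 2 * 2 ^ K := by rw [pow_succ']
  have h2 : 1 ≤ 2 ^ K := Nat.one_le_two_pow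
  omega

lemma tele {M : ℕ} [NeZero M] {n r Q : ℕ} {P : Fin n → ℤ[X]} {κ c α β : ℝ} (hr : 1 ≤ r) (hc : 0 ≤ c) (hκ : 2 ^ (2 * r) * c ≤ κ)
    (hF : ∀ (i : Fin n) (v : Fin n → ZMod M → ℂ), (∀ l, nq (2 * r) (v l) ≤ κ) → (∀ y, Eb Q M (v i) y = 0) → ∀ l,
      n2 (AA M P v) ≤ α * n2 (v l) + β) (i : Fin n) (a b : Fin n → ZMod M → ℂ) (ha : ∀ l, nq (2 * r) (a l) ≤ c)
    (hb : ∀ l, nq (2 * r) (b l) ≤ c) (ha0 : ∀ y, Eb Q M (a i) y = 0) (hb0 : ∀ y, Eb Q M (b i) y = 0) :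
    n2 (fun y => AA M P a y - AA M P b y) ≤ n * ∑ l, (α * n2 (fun y => a l y - b l y) + β) := by
  have h0 : (fun y => AA M P a y - AA M P b y) = fun y => ∑ l : Fin n,
      AA M P (Function.update (fun m => if m < l then b m else a m) l (fun y => a l y - b l y)) y := by
    funext y
    exact AA_telescope M P a b y
  have hcκ : c ≤ κ := by
    refine le_trans ?_ hκ
    have h1 : (1 : ℝ) ≤ 2 ^ (2 * r) := one_le_pow₀ (by norm_num)
    nlinarith
  rw [h0]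
  refine (FGnAux.n2_sum_le _).trans (mul_le_mul_of_nonneg_left (Finset.sum_le_sum (fun l _ => ?_)) (Nat.cast_nonneg _))
  have h1 := hF i (Function.update (fun m => if m < l then b m else a m) l (fun y => a l y - b l y)) ?_ ?_ l
  · rwa [Function.update_self] at h1
  · intro m
    rcases eq_or_ne m l with rfl | hml
    · rw [Function.update_self]
      refine (FGnAux.nq_sub_le r hr _ _).trans (le_trans ?_ hκ)
      have h2 : (2 : ℝ) ^ (2 * r) = 2 ^ (2 * r - 1) * 2 := by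
        rw [← pow_succ]
        congr 1
        omega
      rw [h2, mul_assoc]
      refine mul_le_mul_of_nonneg_left ?_ (by positivity)
      linarith [ha m, hb m]
    · rw [Function.update_of_ne hml]
      split_ifs
      · exact (hb m).trans hcκ
      · exact (ha m).trans hcκ
  · intro y
    rcases eq_or_ne i l with rfl | hil
    · rw [Function.update_self]
      have h2 : Eb Q M (fun y => a i y - b i y) y = Eb Q M (a i) y - Eb Q M (b i) y := by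
        unfold Eb
        exact tv_sub M _ _
      rw [h2, ha0, hb0, sub_zero]
    · rw [Function.update_of_ne hil]
      split_ifs
      · exact hb0 y
      · exact ha0 y

/-- The numbers: `u = K / 2 / (8 n C)`. -/
lemma nums {n C K u : ℕ} (hn : 1 ≤ n) (hC : 1 ≤ C) (hu : u = K / 2 / (8 * n * C)) (h1 : 1 ≤ u) :
    8 * n * C * u ≤ K / 2 ∧ K ≤ 33 * n * C * u ∧ u ≤ K := by
  have hnC : 1 ≤ n * C := Nat.one_le_iff_ne_zero.mpr (by positivity)
  have h2 : 8 * n * C * u ≤ K / 2 := by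
    rw [hu]
    exact Nat.mul_div_le _ _
  have h3 : K / 2 < 8 * n * C * (u + 1) := by
    rw [hu]
    exact Nat.lt_mul_div_succ _ (by positivity)
  have h4 : n * C ≤ n * C * u := Nat.le_mul_of_pos_right _ h1
  have h5 : u ≤ n * C * u := Nat.le_mul_of_pos_left _ hnC
  have e1 : 8 * n * C * u = 8 * (n * C * u) := by ring
  have e2 : 8 * n * C * (u + 1) = 8 * (n * C * u) + 8 * (n * C) := by ring
  have e3 : 33 * n * C * u = 33 * (n * C * u) := by ring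
  refine ⟨h2, ?_, ?_⟩
  · rw [e3]
    omega
  · omega

end StrBAux

open StrBAux in
theorem str_z {n D : ℕ} {P : Fin n → ℤ[X]} {e : Fin n → ℕ} {i₀ : Fin n} (h : EqDeg D P e i₀) (A B C₄ A₄ : ℕ) (hA : 1 ≤ A)
    (hB : 4 * A ≤ B) (hA₄ : 1 ≤ A₄) : ∃ C K₀ : ℕ, 1 ≤ C ∧ ∀ (M : ℕ) [NeZero M] (K b : ℕ) (N : ℕ → ℕ) (ty : Fin n → ℕ) (i₁ : Fin n), K₀ ≤ K → Sc N →
      WS M (QB B (K / 2)) (2 * A + 2) (PP (K / 2) (2 ^ (K * A))) → b < 2 ^ (K * A₄) → ty i₁ = 2 → ∀ f : Fin n → ZMod M → ℂ, (∀ l, Bd (f l)) →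
      ∀ Z : ℕ → ZMod M → ZMod M → ℂ,
      (∀ i, Z i = Zf P (QB B (K / 2)) (2 * A + 2) (2 * A + 2) (PP (K / 2) (2 ^ (K * A))) ty
        (fun l => Lf (QB B (K / 2)) C₄ (K / 2) (N (2 ^ (K + 1) - 1 - i)) (e l))
        (fun l => pz M (P l - P i₀) (b * N (2 ^ (K + 1) - 1 - i) / 2 ^ (K * A₄))) f) →
      avr (fun z => n2 (Z 0 z)) ≤ C / 2 ^ (K / C) ∧
      ∀ k < K, ∑ q ∈ range (2 ^ (K - k - 1)),
        avr (fun z => n2 (fun y => Z ((2 * q + 1) * 2 ^ k) z y - Z (2 * q * 2 ^ k) z y)) ≤ C / 2 ^ (K / C) := by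
  classical
  obtain ⟨Cf, hCf, hfg0⟩ := fibre_gain h
  have hn : 1 ≤ n := Fin.pos i₀
  obtain ⟨r₀, C', hr₀, hfg⟩ := hfg0 (66 * n * Cf)
  obtain ⟨Cw, hCw, hw⟩ := w_vT_fib (2 * A + 2) r₀ hr₀
  choose G hG0 hG using fun l : Fin n => en_vT (C₄ + 2) (∑ i ∈ range (e l + 1), ((P l - P i₀).coeff i).natAbs)
  obtain ⟨K₁, hK₁⟩ := size_block A B (2 * A + 2) (2 * A + 2) 16
  obtain ⟨K₂, hK₂⟩ := Lf_block B C₄
  obtain ⟨C₁, hC₁⟩ := exists_nat_ge ((n : ℝ) * ∑ l, (33 * n * Cf ^ 2 * G l + C'))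
  obtain ⟨κ, hκ⟩ : ∃ κ : ℕ, κ = 2 ^ (2 * r₀) * Cw := ⟨_, rfl⟩
  have hκ1 : 1 ≤ κ := by
    rw [hκ]
    exact Nat.one_le_iff_ne_zero.mpr (by positivity)
  refine ⟨33 * n * Cf + C₁ + 8 * Cf + C', K₁ + K₂ + 3 + 16 * n * Cf * κ, ?_, ?_⟩
  · have : 1 ≤ 33 * n * Cf := Nat.one_le_iff_ne_zero.mpr (by positivity)
    omega
  intro M _ K b N ty i₁ hK hN hWS hb hty f hf Z hZ
  obtain ⟨C, hC⟩ : ∃ C : ℕ, C = 33 * n * Cf + C₁ + 8 * Cf + C' := ⟨_, rfl⟩
  rw [← hC]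
  obtain ⟨u, hu⟩ : ∃ u : ℕ, u = K / 2 / (8 * n * Cf) := ⟨_, rfl⟩
  have huκ : κ ≤ u := by
    rw [hu, Nat.le_div_iff_mul_le (by positivity)]
    have h1 : κ * (8 * n * Cf) * 2 ≤ K := by
      have : κ * (8 * n * Cf) * 2 = 16 * n * Cf * κ := by ring
      omega
    omega
  have hu1 : 1 ≤ u := hκ1.trans huκ
  obtain ⟨hn1, hn2, hn3⟩ := nums hn hCf hu hu1
  obtain ⟨qm, hqm1, hqm2, hqm3⟩ := hK₁ K (by omega)
  have hLf := fun l j h1 h2 => hK₂ K (by omega) N (e l) j hN (h.pos l) h1 h2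
  obtain ⟨Q, hQ⟩ : ∃ Q : ℕ, Q = QB B (K / 2) := ⟨_, rfl⟩
  obtain ⟨Ps, hPs⟩ : ∃ Ps : Finset ℕ, Ps = PP (K / 2) (2 ^ (K * A)) := ⟨_, rfl⟩
  rw [← hQ, ← hPs] at hWS hqm2
  rw [← hPs] at hqm3
  simp only [← hQ] at hLf
  have hK3 : 3 ≤ K := by omega
  have h8 : 8 ≤ 2 ^ K := by
    calc 8 = 2 ^ 3 := by norm_num
      _ ≤ 2 ^ K := Nat.pow_le_pow_right (by norm_num) hK3
  have hT : ∀ L : ℕ, 2 ^ (2 ^ K / 8) ≤ L → Tny Q (2 * A + 2) (2 * A + 2) 1 L Ps := by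
    intro L hL U hU hUc
    refine le_trans ?_ (hqm3.trans hL)
    rw [mul_one]
    refine Nat.pow_le_pow_left ?_ 16
    calc qU Q (2 * A + 2) U * (4 * (Ps.card + 2)) ^ (2 * A + 2 + 1)
        ≤ qm * (4 * (Ps.card + 2)) ^ (2 * A + 2 + 1) := Nat.mul_le_mul_right _ (hqm2 U hU hUc)
      _ ≤ _ := Nat.le_mul_of_pos_right _ (by positivity)
  have hLT : ∀ l j, 2 ^ K ≤ j → j < 2 ^ (K + 1) → 2 ^ (2 ^ K / 8) ≤ Lf Q C₄ (K / 2) (N j) (e l) := by
    intro l j h1 h2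
    refine le_trans (Nat.pow_le_pow_right (by norm_num) ?_) (hLf l j h1 h2).2.2.2.2
    omega
  obtain ⟨v, hv⟩ : ∃ v : ℕ → Fin n → ZMod M → ZMod M → ℂ, v = fun i l z =>
      vT Q (2 * A + 2) (2 * A + 2) (Lf Q C₄ (K / 2) (N (2 ^ (K + 1) - 1 - i)) (e l)) Ps (ty l)
        (pz M (P l - P i₀) (b * N (2 ^ (K + 1) - 1 - i) / 2 ^ (K * A₄))) (f l) z := ⟨_, rfl⟩
  have hZv : ∀ i z, Z i z = fun y => AA M P (fun l => v i l z) y := by
    intro i z
    funext y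
    rw [hZ i, hv, hQ, hPs]
    rfl
  have hmom : ∀ i, i < 2 ^ K → ∀ z l, nq (2 * r₀) (v i l z) ≤ (Cw : ℝ) := by
    intro i hi z l
    rw [hv]
    obtain ⟨h1, h2⟩ := block hi
    exact hw M Q (2 * A + 2) _ Ps hWS (hT _ (hLT l _ h1 h2)) (ty l) _ (f l) (hf l) z
  have hzero : ∀ i z y, Eb Q M (v i i₁ z) y = 0 := by
    intro i z y
    rw [hv]
    simp only [hty]
    exact vT_two_avg M Q (2 * A + 2) (2 * A + 2) _ Ps hWS _ (f i₁) z y
  have hQM : Q ∣ M := by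
    refine dvd_trans ?_ hWS.dvd
    unfold qU
    exact dvd_mul_right _ _
  obtain ⟨α, hα⟩ : ∃ α : ℝ, α = (Cf : ℝ) * ((2 ^ u : ℕ) : ℝ) ^ (2 * n) / ((2 ^ (8 * n * u) : ℕ) : ℝ) := ⟨_, rfl⟩
  obtain ⟨β, hβ⟩ : ∃ β : ℝ, β = (C' : ℝ) / ((2 ^ u : ℕ) : ℝ) ^ (66 * n * Cf) := ⟨_, rfl⟩
  have hnu : u ≤ n * u := Nat.le_mul_of_pos_left _ hn
  have hF : ∀ (i : Fin n) (w : Fin n → ZMod M → ℂ), (∀ l, nq (2 * r₀) (w l) ≤ (κ : ℝ)) → (∀ y, Eb Q M (w i) y = 0) → ∀ l,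
      n2 (AA M P w) ≤ α * n2 (w l) + β := by
    intro i w h1 h2 l
    rw [hα, hβ]
    refine hfg r₀ le_rfl M (2 ^ (8 * n * u)) Q (2 ^ u) (κ : ℝ) ?_ hQM ?_ ?_ (by exact_mod_cast hκ1) ?_ i w h1 h2 l
    · calc 2 = 2 ^ 1 := by norm_num
        _ ≤ 2 ^ (8 * n * u) := Nat.pow_le_pow_right (by norm_num) (Nat.one_le_iff_ne_zero.mpr (by positivity))
    · intro q hq1 hq2
      rw [hQ]
      refine dvd_QB B (K / 2) q (by omega) (by omega) hq1 (hq2.trans ?_)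
      rw [← pow_mul]
      refine Nat.pow_le_pow_right (by norm_num) ?_
      calc 8 * n * u * Cf = 8 * n * Cf * u := by ring
        _ ≤ K / 2 := hn1
    · calc 2 = 2 ^ 1 := by norm_num
        _ ≤ 2 ^ u := Nat.pow_le_pow_right (by norm_num) hu1
    · exact_mod_cast huκ.trans Nat.lt_two_pow_self.le
  have hu0 : (0 : ℝ) < 2 ^ u := by positivity
  have hα0 : 0 ≤ α := by
    rw [hα]
    positivity
  have hβ0 : 0 ≤ β := by
    rw [hβ]
    positivity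
  have hα2 : α ≤ Cf / (2 ^ u * 2 ^ u) := by
    rw [hα, div_le_div_iff₀ (by positivity) (by positivity), mul_assoc]
    refine mul_le_mul_of_nonneg_left ?_ (Nat.cast_nonneg _)
    push_cast
    rw [← pow_mul, ← pow_add, ← pow_add]
    refine pow_le_pow_right₀ (by norm_num) ?_
    have e1 : u * (2 * n) = 2 * (n * u) := by ring
    have e2 : 8 * n * u = 8 * (n * u) := by ring
    rw [e1, e2]
    omega
  have hα1 : α ≤ Cf / 2 ^ u := by
    refine hα2.trans (div_le_div_of_nonneg_left (Nat.cast_nonneg _) hu0 ?_)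
    have h1 : (1 : ℝ) ≤ 2 ^ u := one_le_pow₀ (by norm_num)
    nlinarith
  have hαK : α * K ≤ 33 * n * Cf ^ 2 / 2 ^ u := by
    have h1 : (K : ℝ) ≤ 33 * n * Cf * 2 ^ u := by
      have h2 : (K : ℝ) ≤ 33 * n * Cf * u := by exact_mod_cast hn2
      have h3 : (u : ℝ) ≤ 2 ^ u := by exact_mod_cast (Nat.lt_two_pow_self (n := u)).le
      exact h2.trans (mul_le_mul_of_nonneg_left h3 (by positivity))
    calc α * K ≤ Cf / (2 ^ u * 2 ^ u) * (33 * n * Cf * 2 ^ u) := mul_le_mul hα2 h1 (Nat.cast_nonneg _) (by positivity)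
      _ = 33 * n * Cf ^ 2 / 2 ^ u := by
        field_simp
  have hβK : 2 ^ K * β ≤ C' / 2 ^ u := by
    rw [hβ, mul_div_assoc', div_le_div_iff₀ (by positivity) (by positivity)]
    push_cast
    rw [mul_comm ((2 : ℝ) ^ K), mul_assoc]
    refine mul_le_mul_of_nonneg_left ?_ (Nat.cast_nonneg _)
    rw [← pow_mul, ← pow_add]
    refine pow_le_pow_right₀ (by norm_num) ?_
    have e1 : u * (66 * n * Cf) = 2 * (33 * n * Cf * u) := by ring
    rw [e1]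
    omega
  have hβ1 : β ≤ C' / 2 ^ u := by
    refine le_trans ?_ hβK
    have h1 : (1 : ℝ) ≤ 2 ^ K := one_le_pow₀ (by norm_num)
    nlinarith
  have hCle : 33 * n * Cf ≤ C := by omega
  have hKC : (1 : ℝ) / 2 ^ u ≤ 1 / 2 ^ (K / C) := by
    refine one_div_le_one_div_of_le (by positivity) (pow_le_pow_right₀ (by norm_num) ?_)
    refine Nat.div_le_of_le_mul (hn2.trans (Nat.mul_le_mul_right _ hCle))
  have hfin : ∀ x : ℝ, 0 ≤ x → x ≤ C → x / 2 ^ u ≤ C / 2 ^ (K / C) := by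
    intro x hx hxC
    calc x / 2 ^ u = x * (1 / 2 ^ u) := by ring
      _ ≤ C * (1 / 2 ^ (K / C)) := mul_le_mul hxC hKC (by positivity) (Nat.cast_nonneg _)
      _ = C / 2 ^ (K / C) := by ring
  refine ⟨?_, ?_⟩
  · have h1 : avr (fun z => n2 (Z 0 z)) ≤ α * 8 + β := by
      refine avr_le (fun z => ?_)
      rw [hZv]
      have h2 := hF i₁ (fun l => v 0 l z) (fun l => (hmom 0 (by positivity) z l).trans ?_) (hzero 0 z) i₁
      · refine h2.trans (add_le_add (mul_le_mul_of_nonneg_left ?_ hα0) le_rfl)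
        rw [hv]
        obtain ⟨h3, h4⟩ := block (K := K) (i := 0) (by positivity)
        exact bessel_vT M Q (2 * A + 2) (2 * A + 2) _ Ps hWS (hT _ (hLT i₁ _ h3 h4)) (ty i₁) _ (f i₁) (hf i₁) z
      · rw [hκ]
        push_cast
        have h3 : (1 : ℝ) ≤ 2 ^ (2 * r₀) := one_le_pow₀ (by norm_num)
        have h4 : (0 : ℝ) ≤ Cw := Nat.cast_nonneg _
        nlinarith
    refine h1.trans (le_trans ?_ (hfin (8 * Cf + C') (by positivity) ?_))
    · calc α * 8 + β ≤ Cf / 2 ^ u * 8 + C' / 2 ^ u := by linarith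
        _ = (8 * Cf + C') / 2 ^ u := by ring
    · have : 8 * Cf + C' ≤ C := by omega
      exact_mod_cast this
  · intro k hk
    have h1 : ∀ q ∈ range (2 ^ (K - k - 1)), avr (fun z => n2 (fun y => Z ((2 * q + 1) * 2 ^ k) z y - Z (2 * q * 2 ^ k) z y)) ≤
        n * ∑ l, (α * avr (fun z => n2 (fun y => v ((2 * q + 1) * 2 ^ k) l z y - v (2 * q * 2 ^ k) l z y)) + β) := by
      intro q hq
      obtain ⟨h2, h3⟩ := idx_lt hk (Finset.mem_range.mp hq)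
      have h4 : ∀ z, n2 (fun y => Z ((2 * q + 1) * 2 ^ k) z y - Z (2 * q * 2 ^ k) z y) ≤
          n * ∑ l, (α * n2 (fun y => v ((2 * q + 1) * 2 ^ k) l z y - v (2 * q * 2 ^ k) l z y) + β) := by
        intro z
        simp only [hZv]
        refine tele (c := (Cw : ℝ)) (κ := (κ : ℝ)) hr₀ (Nat.cast_nonneg _) (by rw [hκ]; push_cast; exact le_rfl) hF i₁
          (fun l => v ((2 * q + 1) * 2 ^ k) l z) (fun l => v (2 * q * 2 ^ k) l z) (hmom _ h2 z) (hmom _ h3 z) (hzero _ z) (hzero _ z)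
      refine (avr_mono h4).trans (le_of_eq ?_)
      rw [avr_mul_left, avr_sum]
      congr 1
      refine Finset.sum_congr rfl (fun l _ => ?_)
      rw [avr_add, avr_mul_left, avr_const]
    refine (Finset.sum_le_sum h1).trans ?_
    rw [← Finset.mul_sum, Finset.sum_comm]
    have h2 : ∀ l, ∑ q ∈ range (2 ^ (K - k - 1)),
        (α * avr (fun z => n2 (fun y => v ((2 * q + 1) * 2 ^ k) l z y - v (2 * q * 2 ^ k) l z y)) + β) ≤
        (33 * n * Cf ^ 2 * G l + C') / 2 ^ u := by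
      intro l
      rw [Finset.sum_add_distrib, ← Finset.mul_sum, Finset.sum_const, Finset.card_range, nsmul_eq_mul]
      have h3 := hG l M Q (2 * A + 2) (2 * A + 2) qm (2 ^ (2 ^ K / 4)) (ty l) K (e l) Ps N
        (fun j => Lf Q C₄ (K / 2) (N j) (e l)) (fun j => (P l - P i₀).eval ((b * N j / 2 ^ (K * A₄) : ℕ) : ℤ)) (f l) hWS hqm2
        Nat.one_le_two_pow (hT _ (Nat.pow_le_pow_right (by norm_num) (by omega))) (by omega) (h.pos l) hN (hf l) ?_ k hk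
      · have h4 : ∑ q ∈ range (2 ^ (K - k - 1)), avr (fun z => n2 (fun y => v ((2 * q + 1) * 2 ^ k) l z y - v (2 * q * 2 ^ k) l z y)) ≤
            G l * K := by
          rw [hv]
          exact h3
        have h5 : ((2 ^ (K - k - 1) : ℕ) : ℝ) * β ≤ C' / 2 ^ u := by
          refine le_trans (mul_le_mul_of_nonneg_right ?_ hβ0) hβK
          push_cast
          exact pow_le_pow_right₀ (by norm_num) (by omega)
        calc α * _ + ((2 ^ (K - k - 1) : ℕ) : ℝ) * β ≤ α * (G l * K) + C' / 2 ^ u :=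
              add_le_add (mul_le_mul_of_nonneg_left h4 hα0) h5
          _ = (α * K) * G l + C' / 2 ^ u := by ring
          _ ≤ (33 * n * Cf ^ 2 / 2 ^ u) * G l + C' / 2 ^ u :=
              add_le_add (mul_le_mul_of_nonneg_right hαK (hG0 l)) le_rfl
          _ = (33 * n * Cf ^ 2 * G l + C') / 2 ^ u := by ring
      · intro j hj1 hj2
        obtain ⟨g1, g2, g3, g4, g5⟩ := hLf l j hj1 hj2
        refine ⟨?_, ?_, ?_, ?_⟩
        · refine g1.trans (Nat.mul_le_mul_right _ (Nat.pow_le_pow_right (by norm_num) ?_))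
          have h4 : C₄ * (K / 2) ≤ C₄ * K := Nat.mul_le_mul_left _ (Nat.div_le_self _ _)
          have e1 : K * (C₄ + 2) = C₄ * K + 2 * K := by ring
          omega
        · exact le_trans (Nat.le_mul_of_pos_left _ (by positivity)) g2
        · refine natAbs_eval_le _ (h.base l) (Nat.one_le_two_pow.trans (hN j).1) ?_
          refine Nat.div_le_of_le_mul ?_
          exact Nat.mul_le_mul_right _ hb.le
        · refine le_trans ?_ g5
          have h4 : (4 * (Ps.card + 2)) ^ (2 * A + 2 + 1) * qm * 2 ^ K ≤ 2 ^ (2 ^ K / 8) := by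
            refine le_trans ?_ hqm3
            refine le_trans ?_ (Nat.le_self_pow (by norm_num) _)
            calc (4 * (Ps.card + 2)) ^ (2 * A + 2 + 1) * qm * 2 ^ K = qm * (4 * (Ps.card + 2)) ^ (2 * A + 2 + 1) * 2 ^ K := by ring
              _ ≤ _ := Nat.mul_le_mul_left _ (Nat.pow_le_pow_right (by norm_num) (by omega))
          calc (4 * (Ps.card + 2)) ^ (2 * A + 2 + 1) * qm * 2 ^ (2 ^ K / 4) * 2 ^ K
              = (4 * (Ps.card + 2)) ^ (2 * A + 2 + 1) * qm * 2 ^ K * 2 ^ (2 ^ K / 4) := by ring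
            _ ≤ 2 ^ (2 ^ K / 8) * 2 ^ (2 ^ K / 4) := Nat.mul_le_mul_right _ h4
            _ = 2 ^ (2 ^ K / 8 + 2 ^ K / 4) := (pow_add _ _ _).symm
            _ ≤ 2 ^ (2 ^ K / 2) := Nat.pow_le_pow_right (by norm_num) (by omega)
    refine (mul_le_mul_of_nonneg_left (Finset.sum_le_sum (fun l _ => h2 l)) (Nat.cast_nonneg _)).trans ?_
    rw [← Finset.sum_div, mul_div_assoc']
    refine hfin _ (mul_nonneg (Nat.cast_nonneg _) (Finset.sum_nonneg (fun l _ => ?_))) (hC₁.trans ?_)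
    · have := hG0 l
      positivity
    · have : C₁ ≤ C := by omega
      exact_mod_cast this

end Pool.Agent.EQD
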