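import Pool.Agent.Lib.EQD.FibB
import Pool.Agent.Lib.EQD.Prof
import Pool.Agent.Lib.EQD.JumpQ

/-!
# EQD.ZStar: the maximum over all scales of the averages over the residues

PROOF of `zstar`. Let `V j l = Eb Q (K j l) (f l)`, `g = Q / q`. Put `η = S ^ (-1/2) / 4`, `R = S ^ 2` in `fibmax` (constant `C₁`; take `C ≥ 2 C₁`, so
`r ≤ R ^ C₁ = S ^ (2 C₁)` divides `q`). Let `ev l` be the sets of `events` for `f l` and `K · l`, with `η`:
`∑_j card (ev l j) / M ≤ 5000 / η² = 80000 S`.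
Fix `y : ZMod M`. On the fibre: `v j l ρ = pf hQ (V j l) y ρ = V j l (y + ofs hQ y ρ)`, `ev_y l j = {ρ | y + ofs hQ y ρ ∈ ev l j}`; the hypothesis of `fibmax` holds
with `4 η`. So
`avr_ρ (fmax_j ‖AA Q P (hyb (v j) (fun l => Eb q g (v j l)) i) ρ‖)² ≤ C₁ ((1 + ∑_l ∑_j card (ev_y l j) / Q) / S² + 16 η²)`. Average over `y`: by `avr_pf`
`avr_y card (ev_y l j) / Q = avr_y avr_ρ 1_{ev l j} (y + ofs y ρ) = card (ev l j) / M`. So the average is `≤ C₁ ((1 + n 80000 S) / S² + 1 / S) ≤ C₂ / S`.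
It remains to compare `ZZ hQ P (hyb (V j) (fun l => Eb q g (V j l)) i) y ρ` with `AA Q P (hyb (v j) (fun l => Eb q g (v j l)) i) ρ`: both are averages over `u < Q` of
products; the factors agree for `V j l`; for the factors with `Eb q g`: `pf hQ (Eb q g (V j l)) y ρ = tv g (fun h => V j l (y + ofs y ρ + q h))` and
`Eb q g (v j l) ρ = tv g (fun h => V j l (y + ofs y (ρ + q h)))`; the points `y + ofs y ρ + q h` and `y + ofs y (ρ + q h)` are congruent modulo `Q` and both offsets lie in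
`[0, 2 Q)`, so they differ by `0` or `± Q`, and `V j l` is slow (`Eb_slow`: `Slow Q (2 / K j l)`): difference `≤ 2 / K j l ≤ 2 / S ^ C`. So the two averages differ by at most
`2 ^ n * n * 4 / S ^ C ≤ 1 / S` for `C` large. Add: `(a + b)² ≤ 2 a² + 2 b²`, `fmax` is subadditive.
-/

set_option autoImplicit false

open Finset Polynomial

namespace Pool.Agent.EQD.Lo

open Pool.Agent.HLT Pool.Agent.NLT Pool.Agent.NLG

namespace ZStarAux

lemma prod_diff {n : ℕ} (s : Finset (Fin n)) (a b : Fin n → ℂ) (ha : ∀ l, ‖a l‖ ≤ 1) (hb : ∀ l, ‖b l‖ ≤ 1) :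
    ‖∏ l ∈ s, a l - ∏ l ∈ s, b l‖ ≤ ∑ l ∈ s, ‖a l - b l‖ := by
  classical
  induction s using Finset.induction_on with
  | empty => simp
  | @insert i s hi ih =>
    rw [Finset.prod_insert hi, Finset.prod_insert hi, Finset.sum_insert hi]
    have h1 : a i * ∏ l ∈ s, a l - b i * ∏ l ∈ s, b l =
        (a i - b i) * ∏ l ∈ s, a l + b i * (∏ l ∈ s, a l - ∏ l ∈ s, b l) := by ring
    rw [h1]
    have h2 : ‖∏ l ∈ s, a l‖ ≤ 1 := by
      rw [norm_prod]
      exact Finset.prod_le_one (fun _ _ => norm_nonneg _) (fun l _ => ha l)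
    calc ‖(a i - b i) * ∏ l ∈ s, a l + b i * (∏ l ∈ s, a l - ∏ l ∈ s, b l)‖
        ≤ ‖a i - b i‖ * ‖∏ l ∈ s, a l‖ + ‖b i‖ * ‖∏ l ∈ s, a l - ∏ l ∈ s, b l‖ := by
          refine (norm_add_le _ _).trans ?_
          rw [norm_mul, norm_mul]
      _ ≤ ‖a i - b i‖ * 1 + 1 * ∑ l ∈ s, ‖a l - b l‖ := by
          refine add_le_add (mul_le_mul_of_nonneg_left h2 (norm_nonneg _)) ?_
          exact mul_le_mul (hb i) ih (norm_nonneg _) zero_le_one
      _ = ‖a i - b i‖ + ∑ l ∈ s, ‖a l - b l‖ := by ring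

lemma prod_two {n : ℕ} (a b : Fin n → ℂ) (δ : ℝ) (ha : ∀ l, ‖a l‖ ≤ 2) (hb : ∀ l, ‖b l‖ ≤ 2)
    (hd : ∀ l, ‖a l - b l‖ ≤ δ) : ‖∏ l, a l - ∏ l, b l‖ ≤ 2 ^ n * ((n : ℝ) * δ) := by
  have h1 : ∏ l, a l - ∏ l, b l = 2 ^ n * (∏ l, (a l / 2) - ∏ l, (b l / 2)) := by
    rw [Finset.prod_div_distrib, Finset.prod_div_distrib, Finset.prod_const, Finset.card_univ, Fintype.card_fin]
    field_simp
  have hh : ∀ z : ℂ, ‖z‖ ≤ 2 → ‖z / 2‖ ≤ 1 := by
    intro z hz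
    rw [norm_div, Complex.norm_ofNat, div_le_one (by norm_num)]
    exact hz
  rw [h1, norm_mul, norm_pow, Complex.norm_ofNat]
  refine mul_le_mul_of_nonneg_left ?_ (by positivity)
  refine (prod_diff univ _ _ (fun l => hh _ (ha l)) (fun l => hh _ (hb l))).trans ?_
  have h2 : ∀ l ∈ (univ : Finset (Fin n)), ‖a l / 2 - b l / 2‖ ≤ δ := by
    intro l _
    rw [← sub_div, norm_div, Complex.norm_ofNat]
    have h3 := hd l
    have h4 := norm_nonneg (a l - b l)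
    linarith
  refine (Finset.sum_le_card_nsmul _ _ _ h2).trans ?_
  rw [Finset.card_univ, Fintype.card_fin, nsmul_eq_mul]

lemma tv_near {N : ℕ} {F G : ℕ → ℂ} {δ : ℝ} (hδ : 0 ≤ δ) (h : ∀ t, ‖F t - G t‖ ≤ δ) : ‖tv N F - tv N G‖ ≤ δ := by
  rw [← tv_sub]
  exact (norm_tv_le _ _).trans (tvr_le _ hδ (fun t _ => h t))

section group

variable {M Q : ℕ} [NeZero M] [NeZero Q]

/-- Comparison of the two box averages. -/
lemma box_near (h : Q ∣ M) {κ : ℝ} {G : ZMod M → ℂ} (hG : Slow Q κ G) (q : ℕ) (hq : q ∣ Q) (y : ZMod M) (r : ZMod Q) :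
    ‖Eb q (Q / q) G (y + (ofs h y r : ZMod M)) - Eb q (Q / q) (pf h G y) r‖ ≤ 4 * κ := by
  have hκ : 0 ≤ κ := (norm_nonneg _).trans (hG 0)
  have hQ0 : (0 : ℝ) < Q := by
    have : 0 < Q := Nat.pos_of_ne_zero (NeZero.ne Q)
    exact_mod_cast this
  unfold Eb
  rw [← tv_sub]
  refine (norm_tv_le _ _).trans (tvr_le _ (by positivity) (fun k hk => ?_))
  have hqk : q * k ≤ Q := by
    have h1 : k ≤ Q / q := hk.le
    calc q * k ≤ q * (Q / q) := Nat.mul_le_mul_left q h1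
      _ = Q := Nat.mul_div_cancel' hq
  have h1 := eq_pf h hG (y + (ofs h y r : ZMod M)) ((q * k : ℕ) : ℤ)
  rw [red_ofs] at h1
  have h2 := pf_shift h hG y (r + (((q * k : ℕ) : ℤ) : ZMod Q)) ((ofs h y r : ℕ) : ℤ)
  rw [Int.cast_natCast, Int.cast_natCast] at h1 h2
  rw [Int.cast_natCast] at h1 h2
  have h3 : |(((q * k : ℕ) : ℝ))| / Q ≤ 1 := by
    rw [abs_of_nonneg (Nat.cast_nonneg _), div_le_one hQ0]
    exact_mod_cast hqk
  have h4 : |((ofs h y r : ℕ) : ℝ)| / Q ≤ 1 := by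
    rw [abs_of_nonneg (Nat.cast_nonneg _), div_le_one hQ0]
    exact_mod_cast (ofs_lt h y r).le
  have h5 : κ * (|(((q * k : ℕ) : ℝ))| / Q + 1) ≤ κ * 2 := mul_le_mul_of_nonneg_left (by linarith) hκ
  have h6 : κ * (|((ofs h y r : ℕ) : ℝ)| / Q + 1) ≤ κ * 2 := mul_le_mul_of_nonneg_left (by linarith) hκ
  have h7 := norm_add_le (G (y + (ofs h y r : ZMod M) + ((q * k : ℕ) : ZMod M)) -
    pf h G (y + (ofs h y r : ZMod M)) (r + ((q * k : ℕ) : ZMod Q)))
    (pf h G (y + (ofs h y r : ZMod M)) (r + ((q * k : ℕ) : ZMod Q)) - pf h G y (r + ((q * k : ℕ) : ZMod Q)))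
  rw [sub_add_sub_cancel] at h7
  linarith

/-- Comparison of the residue averages on one fibre. -/
lemma ZZ_near (h : Q ∣ M) {n : ℕ} (P : Fin n → ℤ[X]) (V : Fin n → ZMod M → ℂ) (hV : ∀ l, Bd (V l)) {κ : ℝ} (hκ : 0 ≤ κ)
    (hs : ∀ l, Slow Q κ (V l)) (q : ℕ) (hq : q ∣ Q) (i : Fin n) (y : ZMod M) (ρ : ZMod Q) :
    ‖ZZ h P (hyb V (fun l => Eb q (Q / q) (V l)) i) y ρ -
      AA Q P (hyb (fun l => pf h (V l) y) (fun l => Eb q (Q / q) (pf h (V l) y)) i) ρ‖ ≤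
      2 ^ n * ((n : ℝ) * (4 * κ)) := by
  unfold ZZ AA
  refine tv_near (by positivity) (fun u => ?_)
  have hE : ∀ (l : Fin n) (x : ZMod M), ‖Eb q (Q / q) (V l) x‖ ≤ 1 := fun l x =>
    norm_Eb_le q (Q / q) zero_le_one (hV l) x
  have hE' : ∀ (l : Fin n) (r : ZMod Q), ‖Eb q (Q / q) (pf h (V l) y) r‖ ≤ 1 := fun l r =>
    norm_Eb_le q (Q / q) zero_le_one (fun r' => hV l _) r
  refine prod_two _ _ _ ?_ ?_ ?_
  · intro l
    unfold pf hyb
    split_ifs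
    · exact (hV l _).trans (by norm_num)
    · refine (norm_sub_le _ _).trans ?_
      have h1 := hV l (y + (ofs h y (ρ + pz Q (P l) u) : ZMod M))
      have h2 := hE l (y + (ofs h y (ρ + pz Q (P l) u) : ZMod M))
      linarith
    · exact (hE l _).trans (by norm_num)
  · intro l
    unfold hyb
    split_ifs
    · exact (hV l _).trans (by norm_num)
    · refine (norm_sub_le _ _).trans ?_
      have h1 : ‖pf h (V l) y (ρ + pz Q (P l) u)‖ ≤ 1 := hV l _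
      have h2 := hE' l (ρ + pz Q (P l) u)
      linarith
    · exact (hE' l _).trans (by norm_num)
  · intro l
    have hb := box_near h (hs l) q hq y (ρ + pz Q (P l) u)
    have e1 : pf h (hyb V (fun l => Eb q (Q / q) (V l)) i l) y (ρ + pz Q (P l) u) =
        hyb V (fun l => Eb q (Q / q) (V l)) i l (y + (ofs h y (ρ + pz Q (P l) u) : ZMod M)) := rfl
    rw [e1]
    unfold hyb
    split_ifs
    · have : V l (y + (ofs h y (ρ + pz Q (P l) u) : ZMod M)) - pf h (V l) y (ρ + pz Q (P l) u) = 0 := sub_self _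
      rw [this, norm_zero]
      positivity
    · have e2 : ∀ A B B' : ℂ, ‖B - B'‖ ≤ 4 * κ → ‖A - B - (A - B')‖ ≤ 4 * κ := by
        intro A B B' hBB
        rw [sub_sub_sub_cancel_left, norm_sub_rev]
        exact hBB
      exact e2 _ _ _ hb
    · exact hb

lemma avr_indic (E : Finset (ZMod M)) : avr (fun x : ZMod M => if x ∈ E then (1 : ℝ) else 0) = (E.card : ℝ) / M := by
  classical
  unfold avr
  rw [Finset.sum_ite_mem, Finset.univ_inter, Finset.sum_const, nsmul_eq_mul, mul_one]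

/-- The events on a fibre. -/
def evy (h : Q ∣ M) (E : Finset (ZMod M)) (y : ZMod M) : Finset (ZMod Q) :=
  univ.filter (fun ρ => y + (ofs h y ρ : ZMod M) ∈ E)

lemma avr_evy (h : Q ∣ M) (E : Finset (ZMod M)) :
    avr (fun y : ZMod M => ((evy h E y).card : ℝ) / Q) = (E.card : ℝ) / M := by
  rw [← avr_indic E, ← avr_pf h (fun x : ZMod M => if x ∈ E then (1 : ℝ) else 0)]
  refine congrArg avr (funext (fun y => ?_))
  rw [← avr_indic (evy h E y)]
  refine congrArg avr (funext (fun ρ => ?_))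
  unfold evy
  simp only [Finset.mem_filter, Finset.mem_univ, true_and]

end group

lemma fmax_add_le {s : Finset ℕ} {F G : ℕ → ℝ} {δ : ℝ} (hδ : 0 ≤ δ) (hG : ∀ j ∈ s, 0 ≤ G j)
    (h : ∀ j ∈ s, F j ≤ G j + δ) : fmax s F ≤ fmax s G + δ := by
  refine fmax_le (add_nonneg (fmax_nonneg hG) hδ) (fun j hj => ?_)
  have := le_fmax G hj
  have := h j hj
  linarith

end ZStarAux

open ZStarAux

theorem zstar {n D : ℕ} {P : Fin n → ℤ[X]} {e : Fin n → ℕ} {i₀ : Fin n} (h : EqDeg D P e i₀) :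
    ∃ C : ℕ, ∀ (M Q q L S : ℕ) [NeZero M] [NeZero Q] (hQ : Q ∣ M), Q * 2 ^ L ∣ M → 2 ≤ S → q ∣ Q →
      (∀ r, 1 ≤ r → r ≤ S ^ C → r ∣ q) → ∀ (i : Fin n) (a b : ℕ) (f : Fin n → ZMod M → ℂ), (∀ l, Bd (f l)) →
      ∀ K : ℕ → Fin n → ℕ, (∀ l, ∀ j ∈ Icc a b, S ^ C ≤ K j l ∧ K j l < 2 ^ L) →
      (∀ l i j, a ≤ i → i ≤ j → j ≤ b → K i l ≤ K j l) →
      (∀ l k, ((Icc a b).filter (fun j => Nat.log 2 (K j l) = k)).card ≤ 4) →
      avr (fun y : ZMod M => avr (fun ρ : ZMod Q => (fmax (Icc a b) (fun j =>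
        ‖ZZ hQ P (hyb (fun l => Eb Q (K j l) (f l)) (fun l => Eb q (Q / q) (Eb Q (K j l) (f l))) i) y ρ‖)) ^ 2)) ≤
        (C : ℝ) / S := by
  obtain ⟨C₁, hC₁⟩ := fibmax h
  refine ⟨2 * C₁ + (2 * n + 4) + (2 * C₁ * (80000 * n + 2) + 2), ?_⟩
  set C := 2 * C₁ + (2 * n + 4) + (2 * C₁ * (80000 * n + 2) + 2) with hC
  intro M Q q L S _ _ hQ hL hS hq hqr i a b f hf K hK hm hc
  have hS1 : 1 ≤ S := by omega
  have hSr : (2 : ℝ) ≤ S := by exact_mod_cast hS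
  have hS0 : (0 : ℝ) < S := by linarith
  have hQ0 : (0 : ℝ) < Q := by
    have : 0 < Q := Nat.pos_of_ne_zero (NeZero.ne Q)
    exact_mod_cast this
  -- the height
  set η : ℝ := Real.sqrt (1 / S) / 4 with hηd
  have hsq : Real.sqrt (1 / (S : ℝ)) ^ 2 = 1 / S := Real.sq_sqrt (by positivity)
  have hη : 0 < η := by
    have : 0 < Real.sqrt (1 / (S : ℝ)) := Real.sqrt_pos.mpr (by positivity)
    positivity
  have hη2 : (4 * η) ^ 2 = 1 / S := by
    rw [hηd, mul_div_cancel₀ _ (by norm_num : (4 : ℝ) ≠ 0), hsq]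
  have hη3 : 5000 / η ^ 2 = 80000 * S := by
    have h1 : η ^ 2 = 1 / (16 * S) := by
      rw [hηd, div_pow, hsq]
      field_simp
      norm_num
    rw [h1]
    field_simp
    norm_num
  have hK1 : ∀ l, ∀ j ∈ Icc a b, 1 ≤ K j l := fun l j hj => (Nat.one_le_pow _ _ hS1).trans (hK l j hj).1
  -- the events
  have hev : ∀ l : Fin n, ∃ ev : ℕ → Finset (ZMod M), ∑ j ∈ Icc a b, ((ev j).card : ℝ) / M ≤ 5000 / η ^ 2 ∧
      ∀ (x : ZMod M) (i j : ℕ), a ≤ i → i ≤ j → j ≤ b → (∀ k, i < k → k ≤ j → x ∉ ev k) →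
        ‖Eb Q (K j l) (f l) x - Eb Q (K i l) (f l) x‖ ≤ 4 * η := fun l =>
    events hL (f l) (hf l) a b (fun j => K j l) (hK1 l) (fun j hj => (hK l j hj).2) (hm l) (hc l) η hη
  choose ev hev1 hev2 using hev
  -- the error
  set δ : ℝ := 2 ^ n * ((n : ℝ) * (4 * (2 / (S : ℝ) ^ C))) with hδd
  have hδ0 : 0 ≤ δ := by positivity
  have hδ1 : δ ≤ 1 / S := by
    have h1 : (S : ℝ) * (8 * 2 ^ n * n) ≤ (S : ℝ) ^ C := by
      have h2 : S * (8 * 2 ^ n * n) ≤ S ^ C := by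
        calc S * (8 * 2 ^ n * n) ≤ S * (8 * 2 ^ n * 2 ^ n) :=
              Nat.mul_le_mul_left _ (Nat.mul_le_mul_left _ (Nat.lt_two_pow_self).le)
          _ = S * 2 ^ (2 * n + 3) := by
              congr 1
              rw [two_mul, pow_add, pow_add]
              ring
          _ ≤ S * S ^ (2 * n + 3) := Nat.mul_le_mul_left _ (Nat.pow_le_pow_left hS _)
          _ = S ^ (2 * n + 4) := by rw [← pow_succ']
          _ ≤ S ^ C := Nat.pow_le_pow_right hS1 (by omega)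
      exact_mod_cast h2
    have h3 : (0 : ℝ) < (S : ℝ) ^ C := by positivity
    rw [hδd, le_div_iff₀ hS0]
    have h4 : 2 ^ n * ((n : ℝ) * (4 * (2 / (S : ℝ) ^ C))) * S = (S * (8 * 2 ^ n * n)) / (S : ℝ) ^ C := by
      field_simp
      ring
    rw [h4, div_le_one h3]
    exact h1
  -- one fibre
  have hfib : ∀ y : ZMod M, avr (fun ρ : ZMod Q => (fmax (Icc a b) (fun j =>
        ‖ZZ hQ P (hyb (fun l => Eb Q (K j l) (f l)) (fun l => Eb q (Q / q) (Eb Q (K j l) (f l))) i) y ρ‖)) ^ 2) ≤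
      (2 * (C₁ : ℝ) / (S : ℝ) ^ 2) * (∑ l, ∑ j ∈ Icc a b, ((evy hQ (ev l j) y).card : ℝ) / Q) +
        (2 * (C₁ : ℝ) * (1 / (S : ℝ) ^ 2 + 1 / S) + 2 * δ ^ 2) := by
    intro y
    have h1 := hC₁ Q q (S ^ 2) (by nlinarith) hq (fun r hr hr2 => hqr r hr (hr2.trans (by
      rw [← pow_mul]
      exact Nat.pow_le_pow_right hS1 (by omega)))) i a b
      (fun j l => pf hQ (Eb Q (K j l) (f l)) y) (fun j l ρ => Bd_Eb Q (K j l) (hf l) _)
      (fun l j => evy hQ (ev l j) y) (4 * η) (by positivity) (by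
        intro l ρ i' j' ha hij hb hk
        refine hev2 l (y + (ofs hQ y ρ : ZMod M)) i' j' ha hij hb (fun k hk1 hk2 hmem => hk k hk1 hk2 ?_)
        unfold evy
        exact Finset.mem_filter.mpr ⟨Finset.mem_univ _, hmem⟩)
    rw [hη2] at h1
    have h2 : ∀ ρ : ZMod Q, (fmax (Icc a b) (fun j =>
        ‖ZZ hQ P (hyb (fun l => Eb Q (K j l) (f l)) (fun l => Eb q (Q / q) (Eb Q (K j l) (f l))) i) y ρ‖)) ^ 2 ≤
        2 * (fmax (Icc a b) (fun j => ‖AA Q P (hyb (fun l => pf hQ (Eb Q (K j l) (f l)) y)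
          (fun l => Eb q (Q / q) (pf hQ (Eb Q (K j l) (f l)) y)) i) ρ‖)) ^ 2 + 2 * δ ^ 2 := by
      intro ρ
      have h3 : fmax (Icc a b) (fun j =>
        ‖ZZ hQ P (hyb (fun l => Eb Q (K j l) (f l)) (fun l => Eb q (Q / q) (Eb Q (K j l) (f l))) i) y ρ‖) ≤
        fmax (Icc a b) (fun j => ‖AA Q P (hyb (fun l => pf hQ (Eb Q (K j l) (f l)) y)
          (fun l => Eb q (Q / q) (pf hQ (Eb Q (K j l) (f l)) y)) i) ρ‖) + δ := by
        refine fmax_add_le hδ0 (fun j _ => norm_nonneg _) (fun j hj => ?_)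
        have hSC : (0 : ℝ) < (S : ℝ) ^ C := by positivity
        have h4 := ZZ_near hQ P (fun l => Eb Q (K j l) (f l)) (fun l => Bd_Eb Q (K j l) (hf l))
          (κ := 2 / (S : ℝ) ^ C) (by positivity) (by
            intro l x
            have h5 := Eb_slow Q (K j l) (hK1 l j hj) (hf l) x
            refine h5.trans ?_
            rw [mul_one]
            refine div_le_div_of_nonneg_left (by norm_num) hSC ?_
            exact_mod_cast (hK l j hj).1) q hq i y ρ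
        have h6 := norm_sub_norm_le
          (ZZ hQ P (hyb (fun l => Eb Q (K j l) (f l)) (fun l => Eb q (Q / q) (Eb Q (K j l) (f l))) i) y ρ)
          (AA Q P (hyb (fun l => pf hQ (Eb Q (K j l) (f l)) y)
          (fun l => Eb q (Q / q) (pf hQ (Eb Q (K j l) (f l)) y)) i) ρ)
        linarith
      have h7 : 0 ≤ fmax (Icc a b) (fun j =>
        ‖ZZ hQ P (hyb (fun l => Eb Q (K j l) (f l)) (fun l => Eb q (Q / q) (Eb Q (K j l) (f l))) i) y ρ‖) :=
        fmax_nonneg (fun j _ => norm_nonneg _)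
      have h8 := pow_le_pow_left₀ h7 h3 2
      refine h8.trans ?_
      nlinarith [sq_nonneg (fmax (Icc a b) (fun j => ‖AA Q P (hyb (fun l => pf hQ (Eb Q (K j l) (f l)) y)
          (fun l => Eb q (Q / q) (pf hQ (Eb Q (K j l) (f l)) y)) i) ρ‖) - δ)]
    refine (avr_mono h2).trans ?_
    rw [avr_add, avr_mul_left, avr_const]
    have h9 : ((S ^ 2 : ℕ) : ℝ) = (S : ℝ) ^ 2 := by push_cast; ring
    rw [h9] at h1
    have h10 : (2 * (C₁ : ℝ) / (S : ℝ) ^ 2) * (∑ l, ∑ j ∈ Icc a b, ((evy hQ (ev l j) y).card : ℝ) / Q) +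
        (2 * (C₁ : ℝ) * (1 / (S : ℝ) ^ 2 + 1 / S) + 2 * δ ^ 2) =
        2 * ((C₁ : ℝ) * ((1 + ∑ l, ∑ j ∈ Icc a b, ((evy hQ (ev l j) y).card : ℝ) / Q) / (S : ℝ) ^ 2 + 1 / S)) +
          2 * δ ^ 2 := by
      ring
    rw [h10]
    linarith
  refine (avr_mono hfib).trans ?_
  rw [avr_add, avr_mul_left, avr_const]
  have hW : avr (fun y : ZMod M => ∑ l, ∑ j ∈ Icc a b, ((evy hQ (ev l j) y).card : ℝ) / Q) ≤ n * (80000 * S) := by
    rw [avr_sum]
    have h1 : ∀ l ∈ (univ : Finset (Fin n)), avr (fun y : ZMod M => ∑ j ∈ Icc a b, ((evy hQ (ev l j) y).card : ℝ) / Q) ≤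
        80000 * S := by
      intro l _
      rw [avr_sum]
      simp only [avr_evy]
      rw [← hη3]
      exact hev1 l
    refine (Finset.sum_le_card_nsmul _ _ _ h1).trans ?_
    rw [Finset.card_univ, Fintype.card_fin, nsmul_eq_mul]
  have hC0 : (0 : ℝ) ≤ C₁ := Nat.cast_nonneg C₁
  have h1 : (2 * (C₁ : ℝ) / (S : ℝ) ^ 2) *
      avr (fun y : ZMod M => ∑ l, ∑ j ∈ Icc a b, ((evy hQ (ev l j) y).card : ℝ) / Q) ≤
      2 * C₁ * (80000 * n) / S := by
    refine (mul_le_mul_of_nonneg_left hW (by positivity)).trans (le_of_eq ?_)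
    field_simp
  have h2 : 1 / (S : ℝ) ^ 2 ≤ 1 / S := by
    refine div_le_div_of_nonneg_left (by norm_num) hS0 ?_
    nlinarith
  have h3 : δ ^ 2 ≤ 1 / S := by
    refine le_trans ?_ h2
    have := pow_le_pow_left₀ hδ0 hδ1 2
    rw [div_pow, one_pow] at this
    exact this
  have h4 : 2 * (C₁ : ℝ) * (1 / (S : ℝ) ^ 2 + 1 / S) ≤ 2 * C₁ * (1 / S + 1 / S) :=
    mul_le_mul_of_nonneg_left (by linarith) (by positivity)
  have h5 : 2 * (C₁ : ℝ) * (80000 * n) / S + (2 * C₁ * (1 / S + 1 / S) + 2 * (1 / S)) =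
      (2 * C₁ * (80000 * n + 2) + 2) / S := by
    field_simp
    ring
  have h6 : (2 * (C₁ : ℝ) * (80000 * n + 2) + 2) / S ≤ (C : ℝ) / S := by
    refine div_le_div_of_nonneg_right ?_ hS0.le
    rw [hC]
    push_cast
    have : (0 : ℝ) ≤ n := Nat.cast_nonneg n
    nlinarith
  linarith

end Pool.Agent.EQD.Lo
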