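import Pool.Agent.Lib.EQD.T1b

/-!
# EQD.T1c: sum over the levels

PROOF of `low_bound`. Let `C, t₁` be such that `levelA` and `levelB` hold (with common `C`, `t₁`: take the maximum; `C / 2^(t/C)` is not monotone in `C` literally, so keep
the two bounds `C_A / 2^(t / C_A)`, `C_B / 2^(t / C_B)` separately). For `t ≥ t₁` and `j ≥ 4 ^ (t+1)` (then `tj j ≥ t + 1`: `Nat.log 2 j ≥ 2 (t+1)`) `Ew_eq` and
`AA_sub_hyb` give: `AA (N j) P (Ew (t+1) ..) - AA (N j) P (Ew t ..) = ∑_i AA (N j) P (hyb F F' i)`, `F`, `F'` the short functions; with `levelA`, `levelB`, `MaxLe.add`,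
`MaxLe.sum` (over `i`): `MaxLe (Icc a b) (..) (δ t)`, `δ t = n * n * (2 C_A / 2^(t/C_A) + 2 C_B / 2^(t/C_B))`, for all `a ≥ 4^(t+1)`, `b`, `M` divisible by `M₀(t,a,b)`.
`∑_t sqrt (δ t)` converges (`1 / 2^(t/C) ≤ 2 * (2^(-1/C))^t`), so choose `t₀ ≥ max t₁ 1` with `∑_{t ≥ t₀} sqrt (δ t) ≤ ε`; `J₀ = 4 ^ (t₀ + 1)`. Given `J₁` let `M₀` be the product of the
`M₀(t, 4^(t+1), J₁)` over `t₀ ≤ t < J₁ + 1` (`tj j ≤ j`). Let `c` be a choice with values in `[J₀, J₁]`, `T = tj (c x) ≥ t₀`. Telescoping: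
`AA (.. Ew T ..) - AA (.. Ew t₀ ..) = ∑_{t₀ ≤ t < T} (AA (Ew (t+1)) - AA (Ew t))`, where the summand `t` occurs only if `t + 1 ≤ tj (c x)`, i.e. `c x ≥ 4^(t+1)`
(`Nat.log 2 j / 2 ≥ t + 1` iff `j ≥ 4^(t+1)`); its norm at `x` is at most `fmax (Icc (4^(t+1)) J₁) ‖..‖`. So the left side of `LowB` is
`≤ ∑_{t ≥ t₀} avr (fmax ..) ≤ ∑_{t ≥ t₀} sqrt (δ t) ≤ ε` (`avr_sq_le`).
-/

set_option autoImplicit false

open Finset Polynomial

namespace Pool.Agent.EQD.Lo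

open Pool.Agent.HLT Pool.Agent.NLT Pool.Agent.NLG

namespace T1cAux

theorem tj_ge {t j : ℕ} (h : 4 ^ (t + 1) ≤ j) : t + 1 ≤ tj j := by
  unfold tj
  have h1 : 2 ^ (2 * (t + 1)) ≤ j := by
    rw [pow_mul]
    exact h
  have h2 := Nat.le_log_of_pow_le (by norm_num : 1 < 2) h1
  omega

theorem ge_of_tj {t j : ℕ} (h : t + 1 ≤ tj j) : 4 ^ (t + 1) ≤ j := by
  unfold tj at h
  have h1 : 2 * (t + 1) ≤ Nat.log 2 j := by omega
  have hj : j ≠ 0 := by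
    rintro rfl
    simp at h1
  have h2 := Nat.pow_le_of_le_log hj h1
  rw [pow_mul] at h2
  exact h2

theorem tj_le (j : ℕ) : tj j ≤ j := by
  unfold tj
  have h1 := Nat.log_le_self 2 j
  omega

/-- Geometric bound. -/
theorem geo (C : ℕ) (hC : 1 ≤ C) : ∃ ρ : ℝ, 0 < ρ ∧ ρ < 1 ∧ ∀ t : ℕ, 1 / (2 : ℝ) ^ (t / C) ≤ 2 * ρ ^ t := by
  have hC0 : (0 : ℝ) < C := by exact_mod_cast hC
  refine ⟨(1 / 2 : ℝ) ^ (1 / (C : ℝ)), by positivity, ?_, ?_⟩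
  · exact Real.rpow_lt_one (by norm_num) (by norm_num) (by positivity)
  · intro t
    set ρ : ℝ := (1 / 2 : ℝ) ^ (1 / (C : ℝ)) with hρ
    have hρ0 : 0 < ρ := by rw [hρ]; positivity
    have hρ1 : ρ ≤ 1 := (Real.rpow_lt_one (by norm_num) (by norm_num) (by positivity)).le
    have hρC : ρ ^ C = 1 / 2 := by
      rw [hρ, ← Real.rpow_natCast, ← Real.rpow_mul (by norm_num), one_div_mul_cancel hC0.ne', Real.rpow_one]
    have h1 : 1 / (2 : ℝ) ^ (t / C) = ρ ^ (C * (t / C)) := by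
      rw [pow_mul, hρC, one_div_pow]
    have h2 : ρ ^ t = ρ ^ (C * (t / C)) * ρ ^ (t % C) := by
      rw [← pow_add, Nat.div_add_mod]
    have h3 : ρ ^ C ≤ ρ ^ (t % C) := pow_le_pow_of_le_one hρ0.le hρ1 (Nat.mod_lt t (by omega)).le
    rw [h1, h2]
    rw [hρC] at h3
    have h4 : 0 < ρ ^ (C * (t / C)) := pow_pos hρ0 _
    nlinarith

/-- Tails of the series of square roots. -/
theorem tail (K : ℝ) (hK : 0 ≤ K) (CA CB : ℕ) (hA : 1 ≤ CA) (hB : 1 ≤ CB) (δ : ℕ → ℝ)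
    (hδ : ∀ t, δ t ≤ K * (1 / (2 : ℝ) ^ (t / CA) + 1 / (2 : ℝ) ^ (t / CB))) (ε : ℝ) (hε : 0 < ε) :
    ∃ t₁ : ℕ, ∀ t₀, t₁ ≤ t₀ → ∀ m : ℕ, ∑ t ∈ Ico t₀ m, Real.sqrt (δ t) ≤ ε := by
  obtain ⟨ρ, hρ0, hρ1, hρ⟩ := geo CA hA
  obtain ⟨σ, hσ0, hσ1, hσ⟩ := geo CB hB
  set τ : ℝ := max ρ σ with hτ
  have hτ0 : 0 < τ := lt_max_of_lt_left hρ0
  have hτ1 : τ < 1 := max_lt hρ1 hσ1
  have hb : ∀ t, Real.sqrt (δ t) ≤ Real.sqrt (4 * K) * (Real.sqrt τ) ^ t := by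
    intro t
    have h1 : ρ ^ t ≤ τ ^ t := pow_le_pow_left₀ hρ0.le (le_max_left _ _) t
    have h2 : σ ^ t ≤ τ ^ t := pow_le_pow_left₀ hσ0.le (le_max_right _ _) t
    have h3 : δ t ≤ (4 * K) * τ ^ t := by
      refine (hδ t).trans ?_
      have h4 : 1 / (2 : ℝ) ^ (t / CA) + 1 / (2 : ℝ) ^ (t / CB) ≤ 4 * τ ^ t := by
        have := hρ t
        have := hσ t
        linarith
      have := mul_le_mul_of_nonneg_left h4 hK
      linarith
    calc Real.sqrt (δ t) ≤ Real.sqrt ((4 * K) * τ ^ t) := Real.sqrt_le_sqrt h3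
      _ = Real.sqrt (4 * K) * Real.sqrt (τ ^ t) := Real.sqrt_mul (by linarith) _
      _ = Real.sqrt (4 * K) * (Real.sqrt τ) ^ t := by
        congr 1
        rw [Real.sqrt_eq_iff_mul_self_eq (by positivity) (by positivity), ← mul_pow, Real.mul_self_sqrt hτ0.le]
  have hs : Summable (fun t : ℕ => Real.sqrt (4 * K) * (Real.sqrt τ) ^ t) := by
    refine (summable_geometric_of_lt_one (Real.sqrt_nonneg _) ?_).mul_left _
    rw [Real.sqrt_lt' one_pos, one_pow]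
    exact hτ1
  rw [summable_iff_vanishing_norm] at hs
  obtain ⟨s, hs⟩ := hs ε hε
  refine ⟨s.sup id + 1, fun t₀ ht₀ m => ?_⟩
  have hd : Disjoint (Ico t₀ m) s := by
    rw [Finset.disjoint_left]
    intro t ht hts
    have h1 : t ≤ s.sup id := Finset.le_sup (f := id) hts
    rw [mem_Ico] at ht
    omega
  have h2 := hs (Ico t₀ m) hd
  rw [Real.norm_eq_abs] at h2
  exact (sum_le_sum fun t _ => hb t).trans ((le_abs_self _).trans h2.le)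

theorem tele (F : ℕ → ℂ) (a b : ℕ) (h : a ≤ b) : F b - F a = ∑ t ∈ Ico a b, (F (t + 1) - F t) := by
  induction b, h using Nat.le_induction with
  | base => simp
  | succ b hb ih =>
    rw [Finset.sum_Ico_succ_top hb, ← ih]
    ring

/-- The bound of one level. -/
noncomputable def del (n CA CB t : ℕ) : ℝ :=
  ((univ : Finset (Fin n)).card : ℝ) * ∑ _i : Fin n, (2 * ((CA : ℝ) / 2 ^ (t / CA)) + 2 * ((CB : ℝ) / 2 ^ (t / CB)))

theorem del_le (n CA CB t : ℕ) :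
    del n CA CB t ≤ (2 * (n : ℝ) * n * (CA + CB)) * (1 / (2 : ℝ) ^ (t / CA) + 1 / (2 : ℝ) ^ (t / CB)) := by
  unfold del
  rw [sum_const, card_univ, Fintype.card_fin, nsmul_eq_mul]
  have h1 : 0 < 1 / (2 : ℝ) ^ (t / CA) := by positivity
  have h2 : 0 < 1 / (2 : ℝ) ^ (t / CB) := by positivity
  have h3 : (0 : ℝ) ≤ CA := Nat.cast_nonneg _
  have h4 : (0 : ℝ) ≤ CB := Nat.cast_nonneg _
  have h5 : (0 : ℝ) ≤ n := Nat.cast_nonneg _
  have e1 : (CA : ℝ) / 2 ^ (t / CA) = CA * (1 / 2 ^ (t / CA)) := by ring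
  have e2 : (CB : ℝ) / 2 ^ (t / CB) = CB * (1 / 2 ^ (t / CB)) := by ring
  rw [e1, e2]
  have h6 : 0 ≤ (n : ℝ) * n * (CA * (1 / (2 : ℝ) ^ (t / CB)) + CB * (1 / (2 : ℝ) ^ (t / CA))) := by positivity
  nlinarith

theorem level {n : ℕ} {P : Fin n → ℤ[X]} {e : Fin n → ℕ} {B κ CA CB t b : ℕ} {M : ℕ} [NeZero M] {N : ℕ → ℕ}
    {f : Fin n → ZMod M → ℂ}
    (HA : ∀ i : Fin n, MaxLe (Icc (4 ^ (t + 1)) b) (fun j x =>
        AA (N j) P (hyb (fun l => Eb (QB B (t + 1)) (Kshort B κ t j (N j) (e l)) (f l))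
          (fun l => Eb (QB B t) (QB B (t + 1) / QB B t) (Eb (QB B (t + 1)) (Kshort B κ t j (N j) (e l)) (f l))) i) x -
        AA (N j) P (hyb (fun l => Eb (QB B (t + 1)) (Klong B t (N j) (e l)) (f l))
          (fun l => Eb (QB B t) (QB B (t + 1) / QB B t) (Eb (QB B (t + 1)) (Klong B t (N j) (e l)) (f l))) i) x)
        ((CA : ℝ) / 2 ^ (t / CA)))
    (HB : ∀ i : Fin n, MaxLe (Icc (4 ^ (t + 1)) b) (fun j x =>
        AA (N j) P (hyb (fun l => Eb (QB B (t + 1)) (Klong B t (N j) (e l)) (f l))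
          (fun l => Eb (QB B t) (QB B (t + 1) / QB B t) (Eb (QB B (t + 1)) (Klong B t (N j) (e l)) (f l))) i) x)
        ((CB : ℝ) / 2 ^ (t / CB))) :
    MaxLe (Icc (4 ^ (t + 1)) b) (fun j x =>
      AA (N j) P (fun l => Ew B (t + 1) (tj j) (N j ^ e l / 2 ^ κ) (f l)) x -
        AA (N j) P (fun l => Ew B t (tj j) (N j ^ e l / 2 ^ κ) (f l)) x) (del n CA CB t) := by
  have h1 := MaxLe.sum (univ : Finset (Fin n)) (fun i _ => MaxLe.add (HA i) (HB i))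
  refine MaxLe.mono (subset_refl _) (le_refl _) ?_ h1
  intro j hj x
  have hj' : t + 1 ≤ tj j := tj_ge (mem_Icc.mp hj).1
  refine le_of_eq ?_
  congr 1
  have e1 : (fun l => Ew B (t + 1) (tj j) (N j ^ e l / 2 ^ κ) (f l)) =
      fun l => Eb (QB B (t + 1)) (Kshort B κ t j (N j) (e l)) (f l) := by
    funext l
    exact (Ew_eq B κ t j (N j) (e l) hj' (f l)).1
  have e2 : (fun l => Ew B t (tj j) (N j ^ e l / 2 ^ κ) (f l)) =
      fun l => Eb (QB B t) (QB B (t + 1) / QB B t) (Eb (QB B (t + 1)) (Kshort B κ t j (N j) (e l)) (f l)) := by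
    funext l y
    exact (Ew_eq B κ t j (N j) (e l) hj' (f l)).2 y
  rw [e1, e2, AA_sub_hyb]
  refine Finset.sum_congr rfl fun i _ => ?_
  ring

end T1cAux

open T1cAux

theorem low_bound {n D : ℕ} {P : Fin n → ℤ[X]} {e : Fin n → ℕ} {i₀ : Fin n} (h : EqDeg D P e i₀) : LowB P e := by
  intro B hB κ ε hε
  obtain ⟨CA, tA, hCA, HA⟩ := levelA h B κ hB
  obtain ⟨CB, tB, hCB, HB⟩ := levelB h B hB
  obtain ⟨t₁, ht₁⟩ := tail (2 * (n : ℝ) * n * (CA + CB)) (by positivity) CA CB hCA hCB (del n CA CB)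
    (del_le n CA CB) ε hε
  obtain ⟨t₀, ht₀⟩ : ∃ t₀, t₀ = max (max tA tB) t₁ := ⟨_, rfl⟩
  have h0A : tA ≤ t₀ := by rw [ht₀]; exact (le_max_left _ _).trans (le_max_left _ _)
  have h0B : tB ≤ t₀ := by rw [ht₀]; exact (le_max_right _ _).trans (le_max_left _ _)
  have h01 : t₁ ≤ t₀ := by rw [ht₀]; exact le_max_right _ _
  refine ⟨t₀, 4 ^ (t₀ + 1), ?_, ?_⟩
  · intro j hj
    exact (Nat.le_succ t₀).trans (tj_ge hj)
  intro J₁
  have HB' : ∀ t : ℕ, ∃ m : ℕ, 1 ≤ m ∧ (tB ≤ t → ∀ (M : ℕ) [NeZero M], m ∣ M →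
      ∀ N : ℕ → ℕ, Sc N → ∀ f : Fin n → ZMod M → ℂ, (∀ l, Bd (f l)) → ∀ i : Fin n,
      MaxLe (Icc (4 ^ (t + 1)) J₁) (fun j x =>
        AA (N j) P (hyb (fun l => Eb (QB B (t + 1)) (Klong B t (N j) (e l)) (f l))
          (fun l => Eb (QB B t) (QB B (t + 1) / QB B t) (Eb (QB B (t + 1)) (Klong B t (N j) (e l)) (f l))) i) x)
        ((CB : ℝ) / 2 ^ (t / CB))) := by
    intro t
    by_cases ht : tB ≤ t
    · obtain ⟨m, hm1, hm2⟩ := HB t ht (4 ^ (t + 1)) J₁ (le_refl _)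
      refine ⟨m, hm1, fun _ => ?_⟩
      intro M _ hM N hN f hf i
      exact hm2 M hM N hN f hf i
    · exact ⟨1, le_refl 1, fun h => absurd h ht⟩
  choose m hm1 hm2 using HB'
  refine ⟨∏ t ∈ Ico t₀ (J₁ + 1), m t, Nat.one_le_iff_ne_zero.mpr
    (Finset.prod_ne_zero_iff.mpr fun t _ => Nat.one_le_iff_ne_zero.mp (hm1 t)), ?_⟩
  intro M _ hM N hN f hf c hc
  -- the levels
  obtain ⟨A, hA⟩ : ∃ A : ℕ → ℕ → ZMod M → ℂ, A = fun t j x =>
    AA (N j) P (fun l => Ew B t (tj j) (N j ^ e l / 2 ^ κ) (f l)) x := ⟨_, rfl⟩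
  have hlev : ∀ t ∈ Ico t₀ (J₁ + 1), MaxLe (Icc (4 ^ (t + 1)) J₁) (fun j x => A (t + 1) j x - A t j x)
      (del n CA CB t) := by
    intro t ht
    have ht' := Finset.mem_Ico.mp ht
    rw [hA]
    exact level (fun i => HA t (h0A.trans ht'.1) (4 ^ (t + 1)) J₁ (le_refl _) M N hN f hf i)
      (fun i => hm2 t (h0B.trans ht'.1) M ((Finset.dvd_prod_of_mem m ht).trans hM) N hN f hf i)
  obtain ⟨G, hG⟩ : ∃ G : ℕ → ZMod M → ℝ, G = fun t x =>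
    fmax (Icc (4 ^ (t + 1)) J₁) (fun j => ‖A (t + 1) j x - A t j x‖) := ⟨_, rfl⟩
  have hG0 : ∀ t x, 0 ≤ G t x := by
    intro t x
    rw [hG]
    exact fmax_nonneg fun j _ => norm_nonneg _
  have hpt : ∀ x, ‖A (tj (c x)) (c x) x - A t₀ (c x) x‖ ≤ ∑ t ∈ Ico t₀ (J₁ + 1), G t x := by
    intro x
    obtain ⟨hc0, hc1⟩ := hc x
    have hT : t₀ ≤ tj (c x) := (Nat.le_succ t₀).trans (tj_ge hc0)
    have hT1 : tj (c x) ≤ J₁ + 1 := ((tj_le _).trans hc1).trans (Nat.le_succ _)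
    rw [tele (fun t => A t (c x) x) t₀ (tj (c x)) hT]
    refine (norm_sum_le _ _).trans ?_
    calc ∑ t ∈ Ico t₀ (tj (c x)), ‖A (t + 1) (c x) x - A t (c x) x‖ ≤ ∑ t ∈ Ico t₀ (tj (c x)), G t x := by
          refine sum_le_sum fun t ht => ?_
          have ht' := Finset.mem_Ico.mp ht
          rw [hG]
          exact le_fmax (fun j => ‖A (t + 1) j x - A t j x‖) (mem_Icc.mpr ⟨ge_of_tj ht'.2, hc1⟩)
      _ ≤ ∑ t ∈ Ico t₀ (J₁ + 1), G t x :=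
          sum_le_sum_of_subset_of_nonneg (Finset.Ico_subset_Ico_right hT1) fun t _ _ => hG0 t x
  have hgoal : avr (fun x => ‖A (tj (c x)) (c x) x - A t₀ (c x) x‖) ≤ ε := by
    refine (avr_mono hpt).trans ?_
    rw [avr_sum]
    refine le_trans ?_ (ht₁ t₀ h01 (J₁ + 1))
    refine sum_le_sum fun t ht => ?_
    refine Real.le_sqrt_of_sq_le ?_
    refine (avr_sq_le _).trans ?_
    have h1 := hlev t ht
    unfold MaxLe at h1
    rw [hG]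
    exact h1
  rw [hA] at hgoal
  exact hgoal

end Pool.Agent.EQD.Lo
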