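import Pool.Agent.Lib.EQD.BlkA
import Pool.Agent.Lib.EQD.BlkB
import Pool.Agent.Lib.EQD.Hgt
import Pool.Agent.Lib.EQD.DefsE

/-!
# Module T3b: one block of one scale

PROOF. `N = N j ≥ 2 ^ (2 ^ K)`, `S = 2 ^ (K A₄)`, `H = (b + 1) N / S - b N / S`, `m₀ = b N / S`, `k = a = 2 A + 2`, `Q = QB B (K / 2)`, `Ps = PP (K / 2) (2 ^ (K A))` (`#Ps ≤ 2 ^ (K A)`: every prime of `PP t X` is in `[1, X]`),
`Γ = 2 (4 (#Ps + 2)) ^ (k + 1) ≤ 2 ^ (K C')` for `K ≥ 1`, `C'` depending only on `A`; `qm` from `size_block A B a k X` with a large `X` (depending on `n`, `C`, `A₄`).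
(1) `blkA` with `η = 2 ^ (C₄ t + 3) / S` (`t = K / 2`): `(N ^ e / S + qm) / L ≤ 2 ^ (C₄ t + 2) / S + qm / L` by the first part of `Lf_block`, and `qm / L ≤ 1 / S` (`size_block`, last part of `Lf_block`).
The pointwise error is `≤ C Γ ^ n η ≤ C 2 ^ (K C' n) 2 ^ (C₄ K / 2 + 3) / 2 ^ (K A₄) ≤ 2 ^ (- 2 K - 1)` for `A₄ = C' n + C₄ + 4` and `K` large. (`Vd` is the diagonal of `vT .. 0 ..`.)
(2) `blkB` for `V l = vT Q a k (L l) Ps (ty l) (pz M (P l - P i₀) m₀) (f l)`: `sl_vT`, `sl_mono` with `K := Γ`, `q := qm`, `κ = Γ qm 2 ^ (2 ^ K / 8) / N` (`N ≤ 2 ^ (2 ^ K / 8) L l` by `Lf_block`);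
`(n κ) ^ 4 N ^ 3 = (n Γ qm) ^ 4 2 ^ (4 (2 ^ K / 8)) / N ≤ 1`, `(Γ qm) ^ C ≤ N`, `N ^ (C - 1) ≤ H ^ C` because `H ≥ N / (2 S)` and `(2 S) ^ C ≤ N` (all by `size_block` for a large `X` and `N ≥ 2 ^ (2 ^ K)`).
It gives `n2 (..) ^ C N ≤ 1`, so `n2 (..) ≤ 2 ^ (- 4 K - 4)` for `K` large (`N ≥ 2 ^ (2 ^ K) ≥ 2 ^ ((4 K + 4) C)`); the subtracted term is `wb (P i₀) S b N (fun z => Zf .. z x) x` (definition of `wb`, `tv_sub`).
Together: `n2 (D₁ + D₂) ≤ 2 (n2 D₁ + n2 D₂)`.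
-/

set_option autoImplicit false

open Finset Polynomial

namespace Pool.Agent.EQD

open Pool.Agent.HLT Pool.Agent.NLT Pool.Agent.NLG

namespace T3bAux

theorem card_PP (t X : ℕ) : (PP t X).card ≤ X := by
  have h1 : PP t X ⊆ Icc 1 X := by
    intro p hp
    unfold PP at hp
    rw [mem_filter, mem_range] at hp
    rw [mem_Icc]
    exact ⟨hp.2.1.one_le, by omega⟩
  refine (Finset.card_le_card h1).trans ?_
  rw [Nat.card_Icc]
  omega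

theorem gam (A K c : ℕ) (hK : 1 ≤ K) (hc : c ≤ 2 ^ (K * A)) :
    2 * (4 * (c + 2)) ^ (2 * A + 2 + 1) ≤ 2 ^ (K * (1 + (A + 4) * (2 * A + 3))) := by
  have h0 : 1 ≤ 2 ^ (K * A) := Nat.one_le_two_pow
  have h1 : 4 * (c + 2) ≤ 2 ^ (K * (A + 4)) := by
    have h2 : 2 ^ (K * A) * 2 ^ 4 ≤ 2 ^ (K * (A + 4)) := by
      rw [← pow_add]
      refine Nat.pow_le_pow_right (by norm_num) ?_
      rw [Nat.mul_add]
      omega
    have h3 : (2 : ℕ) ^ 4 = 16 := by norm_num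
    rw [h3] at h2
    omega
  have h4 : (4 * (c + 2)) ^ (2 * A + 2 + 1) ≤ (2 ^ (K * (A + 4))) ^ (2 * A + 3) := Nat.pow_le_pow_left h1 _
  calc 2 * (4 * (c + 2)) ^ (2 * A + 2 + 1) ≤ 2 ^ K * (2 ^ (K * (A + 4))) ^ (2 * A + 3) := by
        refine Nat.mul_le_mul ?_ h4
        calc 2 = 2 ^ 1 := by norm_num
          _ ≤ 2 ^ K := Nat.pow_le_pow_right (by norm_num) hK
    _ = 2 ^ (K * (1 + (A + 4) * (2 * A + 3))) := by
        rw [← pow_mul, ← pow_add]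
        congr 1
        ring

theorem pow_le_of (a c E X Y : ℕ) (ha : a ≤ E) (hc : c ≤ X) (hE : 1 ≤ E) (h : E ^ X ≤ Y) : a ^ c ≤ Y :=
  ((Nat.pow_le_pow_left ha c).trans (Nat.pow_le_pow_right hE hc)).trans h

theorem sizes (C A₄ n K X qm W : ℕ) (hX : X = 4 + C + A₄ + 2 * n) (hqm : 1 ≤ qm) (hW : 1 ≤ W)
    (h : (qm * W * 2 ^ (K * X + X)) ^ X ≤ 2 ^ (2 ^ K / 8)) :
    qm * 2 ^ (K * A₄) ≤ 2 ^ (2 ^ K / 8) ∧ (2 * W * qm) ^ C ≤ 2 ^ (2 ^ K / 8) ∧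
      (n * (2 * W * qm)) ^ 4 ≤ 2 ^ (2 ^ K / 8) ∧ (2 * 2 ^ (K * A₄)) ^ C ≤ 2 ^ (2 ^ K / 8) ∧ (4 * K + 4) * C ≤ 2 ^ K := by
  have hP : 1 ≤ 2 ^ (K * X + X) := Nat.one_le_two_pow
  have hqW : 1 ≤ qm * W := Nat.mul_pos hqm hW
  have hE : 1 ≤ qm * W * 2 ^ (K * X + X) := Nat.mul_pos hqW hP
  refine ⟨?_, ?_, ?_, ?_, ?_⟩
  · have h1 := pow_le_of (qm * 2 ^ (K * A₄)) 1 _ X _ (by
      have h2 : 2 ^ (K * A₄) ≤ 2 ^ (K * X + X) := by
        refine Nat.pow_le_pow_right (by norm_num) ?_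
        have : K * A₄ ≤ K * X := Nat.mul_le_mul_left K (by omega)
        omega
      exact Nat.mul_le_mul (Nat.le_mul_of_pos_right qm hW) h2) (by omega) hE h
    rwa [pow_one] at h1
  · refine pow_le_of _ C _ X _ ?_ (by omega) hE h
    have h2 : 2 ≤ 2 ^ (K * X + X) := by
      calc 2 = 2 ^ 1 := by norm_num
        _ ≤ 2 ^ (K * X + X) := Nat.pow_le_pow_right (by norm_num) (by omega)
    calc 2 * W * qm = qm * W * 2 := by ring
      _ ≤ qm * W * 2 ^ (K * X + X) := Nat.mul_le_mul_left _ h2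
  · refine pow_le_of _ 4 _ X _ ?_ (by omega) hE h
    have h2 : n * 2 ≤ 2 ^ (K * X + X) := by
      calc n * 2 ≤ 2 ^ (n * 2) := Nat.lt_two_pow_self.le
        _ ≤ 2 ^ (K * X + X) := Nat.pow_le_pow_right (by norm_num) (by omega)
    calc n * (2 * W * qm) = qm * W * (n * 2) := by ring
      _ ≤ qm * W * 2 ^ (K * X + X) := Nat.mul_le_mul_left _ h2
  · refine pow_le_of _ C _ X _ ?_ (by omega) hE h
    calc 2 * 2 ^ (K * A₄) = 2 ^ (K * A₄ + 1) := by ring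
      _ ≤ 2 ^ (K * X + X) := by
        refine Nat.pow_le_pow_right (by norm_num) ?_
        have : K * A₄ ≤ K * X := Nat.mul_le_mul_left K (by omega)
        omega
      _ ≤ qm * W * 2 ^ (K * X + X) := Nat.le_mul_of_pos_left _ hqW
  · have h1 := pow_le_of (2 ^ (K * X + X)) X _ X _ (Nat.le_mul_of_pos_left _ hqW) le_rfl hE h
    rw [← pow_mul] at h1
    have h2 : (K * X + X) * X ≤ 2 ^ K / 8 := (Nat.pow_le_pow_iff_right (by norm_num)).1 h1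
    have h3 : (4 * K + 4) * C ≤ (K * X + X) * X := by
      have e1 : 4 * K + 4 = (K + 1) * 4 := by ring
      have e2 : K * X + X = (K + 1) * X := by ring
      rw [e1, e2]
      exact Nat.mul_le_mul (Nat.mul_le_mul_left _ (by omega)) (by omega)
    exact h3.trans (h2.trans (Nat.div_le_self _ _))

theorem eta_le (Ne S qm L c : ℕ) (hS : 1 ≤ S) (hL : 1 ≤ L) (h1 : Ne ≤ 2 ^ (c + 2) * L) (h2 : qm * S ≤ L) :
    ((Ne : ℝ) / S + qm) / L ≤ 2 ^ (c + 3) / S := by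
  have hS0 : (0 : ℝ) < S := by exact_mod_cast hS
  have hL0 : (0 : ℝ) < L := by exact_mod_cast hL
  rw [div_le_div_iff₀ hL0 hS0, add_mul, div_mul_cancel₀ _ hS0.ne']
  have h3 : Ne + qm * S ≤ 2 ^ (c + 3) * L := by
    have h4 : 2 ^ (c + 3) * L = 2 ^ (c + 2) * L + 2 ^ (c + 2) * L := by ring
    have h5 : L ≤ 2 ^ (c + 2) * L := Nat.le_mul_of_pos_left _ (by positivity)
    omega
  exact_mod_cast h3

/-- The error of the first step. -/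
theorem err1 (C A C₄ n K c A₄ : ℕ) (hc : c ≤ 2 ^ (K * A)) (hA₄ : A₄ = (1 + (A + 4) * (2 * A + 3)) * n + C₄ + 4)
    (hK : C + 4 ≤ K) :
    (C : ℝ) * (2 * (4 * ((c : ℝ) + 2)) ^ (2 * A + 2 + 1)) ^ n * (2 ^ (C₄ * (K / 2) + 3) / ((2 ^ (K * A₄) : ℕ) : ℝ)) ≤
      1 / 2 ^ (2 * K + 1) := by
  have h1 := gam A K c (by omega) hc
  have h2 : (2 * (4 * ((c : ℝ) + 2)) ^ (2 * A + 2 + 1)) ≤ 2 ^ (K * (1 + (A + 4) * (2 * A + 3))) := by
    exact_mod_cast h1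
  have h3 : (C : ℝ) ≤ 2 ^ C := by exact_mod_cast Nat.lt_two_pow_self.le
  have h4 : (2 : ℝ) ^ (C₄ * (K / 2) + 3) ≤ 2 ^ (C₄ * K + 3) := by
    refine pow_le_pow_right₀ (by norm_num) ?_
    have : C₄ * (K / 2) ≤ C₄ * K := Nat.mul_le_mul_left _ (Nat.div_le_self _ _)
    omega
  have h5 : (C : ℝ) * (2 * (4 * ((c : ℝ) + 2)) ^ (2 * A + 2 + 1)) ^ n * 2 ^ (C₄ * (K / 2) + 3) ≤
      2 ^ C * (2 ^ (K * (1 + (A + 4) * (2 * A + 3)))) ^ n * 2 ^ (C₄ * K + 3) := by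
    gcongr
  have h6 : (2 : ℝ) ^ C * (2 ^ (K * (1 + (A + 4) * (2 * A + 3)))) ^ n * 2 ^ (C₄ * K + 3) * 2 ^ (2 * K + 1) ≤ 2 ^ (K * A₄) := by
    rw [← pow_mul, ← pow_add, ← pow_add, ← pow_add]
    refine pow_le_pow_right₀ (by norm_num) ?_
    rw [hA₄]
    have e1 : K * ((1 + (A + 4) * (2 * A + 3)) * n + C₄ + 4) =
      K * (1 + (A + 4) * (2 * A + 3)) * n + C₄ * K + 4 * K := by ring
    rw [e1]
    omega
  rw [← mul_div_assoc]
  push_cast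
  rw [div_le_div_iff₀ (by positivity) (by positivity), one_mul]
  refine le_trans ?_ h6
  exact mul_le_mul_of_nonneg_right h5 (by positivity)

theorem kap_ge (W qm L Y N : ℕ) (hL : 1 ≤ L) (hN : 1 ≤ N) (h : N ≤ Y * L) :
    (W : ℝ) * qm / L ≤ 2 * W * qm * Y / N := by
  have hL0 : (0 : ℝ) < L := by exact_mod_cast hL
  have hN0 : (0 : ℝ) < N := by exact_mod_cast hN
  rw [div_le_div_iff₀ hL0 hN0]
  have h1 : (N : ℝ) ≤ Y * L := by exact_mod_cast h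
  calc (W : ℝ) * qm * N ≤ W * qm * (Y * L) := by gcongr
    _ ≤ 2 * (W * qm * (Y * L)) := by
        have : (0 : ℝ) ≤ W * qm * (Y * L) := by positivity
        linarith
    _ = 2 * W * qm * Y * L := by ring

theorem kap_small (n G Y N : ℕ) (hN : 1 ≤ N) (h1 : (n * G) ^ 4 ≤ Y) (h2 : Y ^ 5 ≤ N) :
    (n * ((G : ℝ) * Y / N)) ^ 4 * (N : ℝ) ^ 3 ≤ 1 := by
  have hN0 : (0 : ℝ) < N := by exact_mod_cast hN
  have e : (n * ((G : ℝ) * Y / N)) ^ 4 * (N : ℝ) ^ 3 = ((n : ℝ) * G) ^ 4 * (Y : ℝ) ^ 4 / N := by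
    field_simp
  rw [e, div_le_one hN0]
  have h3 : (n * G) ^ 4 * Y ^ 4 ≤ N := by
    calc (n * G) ^ 4 * Y ^ 4 ≤ Y * Y ^ 4 := Nat.mul_le_mul_right _ h1
      _ = Y ^ 5 := by ring
      _ ≤ N := h2
  exact_mod_cast h3

theorem block_lb (N S b : ℕ) (hS : 1 ≤ S) (hSN : S ≤ N) : N ≤ 2 * S * ((b + 1) * N / S - b * N / S) := by
  have h1 : b * N / S + N / S ≤ (b + 1) * N / S := by
    rw [Nat.add_mul, one_mul]
    exact Nat.div_add_div_le_add_div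
  have h2 : N / S ≤ (b + 1) * N / S - b * N / S := by omega
  have h3 : 1 ≤ N / S := (Nat.one_le_div_iff (by omega)).2 hSN
  have h4 : N < (N / S + 1) * S := by
    have h5 := Nat.div_add_mod N S
    have h6 := Nat.mod_lt N (show 0 < S by omega)
    have h7 : (N / S + 1) * S = S * (N / S) + S := by ring
    omega
  have h8 : (N / S + 1) * S ≤ 2 * S * (N / S) := by
    have h9 : (N / S + 1) * S ≤ (2 * (N / S)) * S := Nat.mul_le_mul_right _ (by omega)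
    calc (N / S + 1) * S ≤ (2 * (N / S)) * S := h9
      _ = 2 * S * (N / S) := by ring
  exact (h4.le.trans h8).trans (Nat.mul_le_mul_left _ h2)

theorem pow_lb (N S H C : ℕ) (hC : 1 ≤ C) (hN : 1 ≤ N) (h1 : N ≤ 2 * S * H) (h2 : (2 * S) ^ C ≤ N) : N ^ (C - 1) ≤ H ^ C := by
  have h3 : N ^ (C - 1) * N ≤ H ^ C * N := by
    calc N ^ (C - 1) * N = N ^ C := by
          rw [← pow_succ, Nat.sub_add_cancel hC]
      _ ≤ (2 * S * H) ^ C := Nat.pow_le_pow_left h1 C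
      _ = (2 * S) ^ C * H ^ C := mul_pow _ _ _
      _ ≤ N * H ^ C := Nat.mul_le_mul_right _ h2
      _ = H ^ C * N := mul_comm _ _
  exact Nat.le_of_mul_le_mul_right h3 (by omega)

theorem root_le (x : ℝ) (hx : 0 ≤ x) (C K N : ℕ) (hC : 1 ≤ C) (h1 : x ^ C * N ≤ 1) (h2 : (4 * K + 4) * C ≤ 2 ^ K)
    (h3 : 2 ^ (2 ^ K) ≤ N) : x ≤ 1 / 2 ^ (4 * K + 4) := by
  have h4 : (2 : ℝ) ^ ((4 * K + 4) * C) ≤ N := by
    have : 2 ^ ((4 * K + 4) * C) ≤ N := (Nat.pow_le_pow_right (by norm_num) h2).trans h3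
    exact_mod_cast this
  have h5 : (x * 2 ^ (4 * K + 4)) ^ C ≤ 1 := by
    rw [mul_pow, ← pow_mul]
    exact (mul_le_mul_of_nonneg_left h4 (pow_nonneg hx _)).trans h1
  have h6 : x * 2 ^ (4 * K + 4) ≤ 1 := by
    by_contra hcon
    push Not at hcon
    have := one_lt_pow₀ hcon (by omega : C ≠ 0)
    linarith
  rw [le_div_iff₀ (by positivity)]
  exact h6

theorem n2_add_le {M : ℕ} [NeZero M] (F G : ZMod M → ℂ) : n2 (fun x => F x + G x) ≤ 2 * (n2 F + n2 G) := by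
  unfold n2
  rw [← avr_add, ← avr_mul_left]
  refine avr_mono (fun x => ?_)
  have h1 := norm_add_le (F x) (G x)
  have h2 : ‖F x + G x‖ ^ 2 ≤ (‖F x‖ + ‖G x‖) ^ 2 := pow_le_pow_left₀ (norm_nonneg _) h1 2
  nlinarith [sq_nonneg (‖F x‖ - ‖G x‖)]

end T3bAux

open T3bAux

theorem block_form {n D : ℕ} {P : Fin n → ℤ[X]} {e : Fin n → ℕ} {i₀ : Fin n} (h : EqDeg D P e i₀) (A B C₄ : ℕ) (hA : 1 ≤ A)
    (hB : 4 * A ≤ B) : ∃ A₄ K₀ : ℕ, 1 ≤ A₄ ∧ ∀ (M : ℕ) [NeZero M] (K j b : ℕ) (N : ℕ → ℕ) (ty : Fin n → ℕ), K₀ ≤ K → Sc N →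
      WS M (QB B (K / 2)) (2 * A + 2) (PP (K / 2) (2 ^ (K * A))) → 2 ^ K ≤ j → j < 2 ^ (K + 1) → b < 2 ^ (K * A₄) →
      ∀ f : Fin n → ZMod M → ℂ, (∀ l, Bd (f l)) →
      n2 (fun x => tv ((b + 1) * N j / 2 ^ (K * A₄) - b * N j / 2 ^ (K * A₄)) (fun m =>
          ∏ l, Vd A B C₄ K (e l) (N j) (ty l) (f l) (x + pz M (P l) (b * N j / 2 ^ (K * A₄) + m))) -
        wb (P i₀) (2 ^ (K * A₄)) b (N j) (fun z => Zf P (QB B (K / 2)) (2 * A + 2) (2 * A + 2) (PP (K / 2) (2 ^ (K * A))) ty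
          (fun l => Lf (QB B (K / 2)) C₄ (K / 2) (N j) (e l)) (fun l => pz M (P l - P i₀) (b * N j / 2 ^ (K * A₄))) f z x) x) ≤
        1 / 2 ^ (3 * K) := by
  obtain ⟨CA, hCA1, hbA⟩ := blkA h
  obtain ⟨CB, N₀, hCB1, hbB⟩ := blkB h
  obtain ⟨A₄, hA₄⟩ : ∃ A₄ : ℕ, A₄ = (1 + (A + 4) * (2 * A + 3)) * n + C₄ + 4 := ⟨_, rfl⟩
  obtain ⟨X, hX⟩ : ∃ X : ℕ, X = 4 + CB + A₄ + 2 * n := ⟨_, rfl⟩
  obtain ⟨K₁, hK₁⟩ := size_block A B (2 * A + 2) (2 * A + 2) X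
  obtain ⟨K₂, hK₂⟩ := Lf_block B C₄
  refine ⟨A₄, K₁ + K₂ + CA + N₀ + 4, by omega, ?_⟩
  intro M _ K j b N ty hK hN hWS hj1 hj2 hb f hf
  obtain ⟨qm, hqm1, hqm, hsz⟩ := hK₁ K (by omega)
  have hLf := fun l => hK₂ K (by omega) N (e l) j hN (h.pos l) hj1 hj2
  set Ps : Finset ℕ := PP (K / 2) (2 ^ (K * A)) with hPs
  have hcard : Ps.card ≤ 2 ^ (K * A) := card_PP _ _
  set Q : ℕ := QB B (K / 2) with hQ
  set L : Fin n → ℕ := fun l => Lf Q C₄ (K / 2) (N j) (e l) with hLdef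
  obtain ⟨W, hW⟩ : ∃ W : ℕ, W = (4 * (Ps.card + 2)) ^ (2 * A + 2 + 1) := ⟨_, rfl⟩
  have hW1 : 1 ≤ W := by
    rw [hW]
    exact Nat.one_le_pow _ _ (by omega)
  rw [← hW] at hsz
  obtain ⟨s1, s2, s3, s4, s5⟩ := sizes CB A₄ n K X qm W hX hqm1 hW1 hsz
  obtain ⟨Y, hY⟩ : ∃ Y : ℕ, Y = 2 ^ (2 ^ K / 8) := ⟨_, rfl⟩
  rw [← hY] at s1 s2 s3 s4
  have hY1 : 1 ≤ Y := by
    rw [hY]
    exact Nat.one_le_two_pow
  obtain ⟨S, hS⟩ : ∃ S : ℕ, S = 2 ^ (K * A₄) := ⟨_, rfl⟩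
  have hS1 : 1 ≤ S := by
    rw [hS]
    exact Nat.one_le_two_pow
  have hNj : 2 ^ (2 ^ K) ≤ N j := (Nat.pow_le_pow_right (by norm_num) hj1).trans (hN j).1
  obtain ⟨Nj, hNjd⟩ : ∃ Nj : ℕ, Nj = N j := ⟨_, rfl⟩
  rw [← hNjd] at hNj
  have hY5 : Y ^ 5 ≤ Nj := by
    refine le_trans ?_ hNj
    rw [hY, ← pow_mul]
    exact Nat.pow_le_pow_right (by norm_num) (by omega)
  have hYN : Y ≤ Nj := le_trans (by
    calc Y = Y ^ 1 := (pow_one Y).symm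
      _ ≤ Y ^ 5 := Nat.pow_le_pow_right hY1 (by norm_num)) hY5
  have hNj1 : 1 ≤ Nj := hY1.trans hYN
  have hYL : ∀ l, Y ≤ L l := by
    intro l
    refine le_trans ?_ (hLf l).2.2.2.2
    rw [hY]
    exact Nat.pow_le_pow_right (by norm_num) (by omega)
  have hqS : ∀ l, qm * S ≤ L l := fun l => by
    rw [hS]
    exact s1.trans (hYL l)
  have hqL : ∀ l, qm ≤ L l := fun l => (Nat.le_mul_of_pos_right qm hS1).trans (hqS l)
  have hSN : S ≤ Nj := by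
    refine le_trans ?_ hYN
    rw [hS]
    exact (Nat.le_mul_of_pos_left _ hqm1).trans s1
  have hNL : ∀ l, Nj ≤ Y * L l := by
    intro l
    rw [hY, hNjd]
    exact (hLf l).2.2.2.1
  have hη : ∀ l, ((Nj : ℝ) ^ e l / S + qm) / L l ≤ 2 ^ (C₄ * (K / 2) + 3) / S := by
    intro l
    have h1 := eta_le (Nj ^ e l) S qm (L l) (C₄ * (K / 2)) hS1 (hY1.trans (hYL l)) (by
      rw [hNjd]
      exact (hLf l).1) (hqS l)
    rw [Nat.cast_pow] at h1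
    exact h1
  rw [← hS] at hb
  rw [← hS, ← hNjd]
  -- the two errors
  set V : Fin n → ZMod M → ZMod M → ℂ := fun l =>
    vT Q (2 * A + 2) (2 * A + 2) (L l) Ps (ty l) (pz M (P l - P i₀) (b * Nj / S)) (f l) with hV
  have hD : ∀ x : ZMod M, (tv ((b + 1) * Nj / S - b * Nj / S) (fun m =>
          ∏ l, Vd A B C₄ K (e l) Nj (ty l) (f l) (x + pz M (P l) (b * Nj / S + m))) -
        wb (P i₀) S b Nj (fun z => Zf P Q (2 * A + 2) (2 * A + 2) Ps ty L (fun l => pz M (P l - P i₀) (b * Nj / S)) f z x) x) =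
      tv ((b + 1) * Nj / S - b * Nj / S) (fun m =>
          ∏ l, vT Q (2 * A + 2) (2 * A + 2) (L l) Ps (ty l) 0 (f l) (x + pz M (P l) (b * Nj / S + m)) (x + pz M (P l) (b * Nj / S + m)) -
          ∏ l, vT Q (2 * A + 2) (2 * A + 2) (L l) Ps (ty l) (pz M (P l - P i₀) (b * Nj / S)) (f l) (x + pz M (P i₀) (b * Nj / S + m))
            (x + pz M (P l) (b * Nj / S + m))) +
      tv ((b + 1) * Nj / S - b * Nj / S) (fun m => ∏ l, V l (x + pz M (P i₀) (b * Nj / S + m)) (x + pz M (P l) (b * Nj / S + m)) -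
        AA M P (fun l => V l (x + pz M (P i₀) (b * Nj / S + m))) x) := by
    intro x
    rw [tv_sub, tv_sub]
    have e1 : wb (P i₀) S b Nj (fun z => Zf P Q (2 * A + 2) (2 * A + 2) Ps ty L (fun l => pz M (P l - P i₀) (b * Nj / S)) f z x) x =
        tv ((b + 1) * Nj / S - b * Nj / S) (fun m => AA M P (fun l => V l (x + pz M (P i₀) (b * Nj / S + m))) x) := by
      rw [hV]
      rfl
    have e2 : tv ((b + 1) * Nj / S - b * Nj / S) (fun m =>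
          ∏ l, Vd A B C₄ K (e l) Nj (ty l) (f l) (x + pz M (P l) (b * Nj / S + m))) =
        tv ((b + 1) * Nj / S - b * Nj / S) (fun m =>
          ∏ l, vT Q (2 * A + 2) (2 * A + 2) (L l) Ps (ty l) 0 (f l) (x + pz M (P l) (b * Nj / S + m))
            (x + pz M (P l) (b * Nj / S + m))) := by
      rw [hLdef, hNjd]
      rfl
    rw [e1, e2]
    ring
  simp only [hD]
  refine (n2_add_le _ _).trans ?_
  have hD1 : n2 (fun x : ZMod M => tv ((b + 1) * Nj / S - b * Nj / S) (fun m =>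
          ∏ l, vT Q (2 * A + 2) (2 * A + 2) (L l) Ps (ty l) 0 (f l) (x + pz M (P l) (b * Nj / S + m)) (x + pz M (P l) (b * Nj / S + m)) -
          ∏ l, vT Q (2 * A + 2) (2 * A + 2) (L l) Ps (ty l) (pz M (P l - P i₀) (b * Nj / S)) (f l) (x + pz M (P i₀) (b * Nj / S + m))
            (x + pz M (P l) (b * Nj / S + m)))) ≤ (1 / 2 ^ (2 * K + 1)) ^ 2 := by
    unfold n2
    refine avr_le (fun x => ?_)
    refine pow_le_pow_left₀ (norm_nonneg _) ?_ 2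
    have h1 := hbA M Q (2 * A + 2) (2 * A + 2) qm Nj S b Ps L ty (2 ^ (C₄ * (K / 2) + 3) / S) hWS hqm hqm1 hqL hS1 hSN hb
      hη f hf x
    refine h1.trans ?_
    have h2 := err1 CA A C₄ n K Ps.card A₄ hcard hA₄ (by omega)
    rw [← hS] at h2
    exact h2
  have hD2 : n2 (fun x : ZMod M => tv ((b + 1) * Nj / S - b * Nj / S) (fun m =>
        ∏ l, V l (x + pz M (P i₀) (b * Nj / S + m)) (x + pz M (P l) (b * Nj / S + m)) -
        AA M P (fun l => V l (x + pz M (P i₀) (b * Nj / S + m))) x)) ≤ 1 / 2 ^ (4 * K + 4) := by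
    refine root_le _ (avr_nonneg (fun x => by positivity)) CB K Nj hCB1 ?_ s5 hNj
    have hSH := block_lb Nj S b hS1 hSN
    refine hbB M Nj (2 * W) qm ((b + 1) * Nj / S - b * Nj / S) (b * Nj / S) (((2 * W * qm : ℕ) : ℝ) * Y / Nj) ?_ (by omega) hqm1
      (s2.trans hYN) ?_ ?_ (by positivity) (kap_small n (2 * W * qm) Y Nj hNj1 s3 hY5) V ?_
    · have h1 : K < 2 ^ K := Nat.lt_two_pow_self
      have h2 : 2 ^ K < 2 ^ (2 ^ K) := Nat.lt_two_pow_self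
      omega
    · have h1 : (b + 1) * Nj / S ≤ Nj := by
        refine Nat.div_le_of_le_mul ?_
        exact Nat.mul_le_mul_right Nj (by omega)
      have h2 : b * Nj / S ≤ (b + 1) * Nj / S := Nat.div_le_div_right (Nat.mul_le_mul_right _ (by omega))
      omega
    · refine pow_lb Nj S _ CB hCB1 hNj1 hSH ?_
      rw [hS]
      exact s4.trans hYN
    · intro l
      have h1 := sl_vT hWS hqm (hqL l) hqm1 (ty l) (pz M (P l - P i₀) (b * Nj / S)) (f l) (hf l)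
      refine sl_mono h1 (by rw [hW]) le_rfl ?_
      have h2 := kap_ge W qm (L l) Y Nj (hY1.trans (hYL l)) hNj1 (hNL l)
      rw [hW] at h2 ⊢
      push_cast at h2 ⊢
      exact h2
  have h3 : (1 / 2 ^ (2 * K + 1) : ℝ) ^ 2 ≤ 1 / 4 * (1 / 2 ^ (3 * K)) := by
    have e1 : (1 / 2 ^ (2 * K + 1) : ℝ) ^ 2 = 1 / 2 ^ (4 * K + 2) := by
      rw [div_pow, one_pow, ← pow_mul]
      congr 2
      ring
    have e2 : (1 / 4 * (1 / 2 ^ (3 * K)) : ℝ) = 1 / 2 ^ (3 * K + 2) := by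
      rw [pow_add]
      field_simp
      norm_num
    rw [e1, e2]
    exact one_div_le_one_div_of_le (by positivity) (pow_le_pow_right₀ (by norm_num) (by omega))
  have h4 : (1 / 2 ^ (4 * K + 4) : ℝ) ≤ 1 / 4 * (1 / 2 ^ (3 * K)) := by
    have e2 : (1 / 4 * (1 / 2 ^ (3 * K)) : ℝ) = 1 / 2 ^ (3 * K + 2) := by
      rw [pow_add]
      field_simp
      norm_num
    rw [e2]
    exact one_div_le_one_div_of_le (by positivity) (pow_le_pow_right₀ (by norm_num) (by omega))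
  linarith

end Pool.Agent.EQD
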