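import Pool.Agent.Lib.EQD.StrB
import Pool.Agent.Lib.EQD.StrC
import Pool.Agent.Lib.EQD.T3b

/-!
# Module T3s: the structured part in one block of scales

PROOF. `A₄` from `block_form`, `S = 2 ^ (K A₄)`, `WS` from `ws_block`. For every `N ≥ S` and every `F : ℕ → ℂ`: `tv N F = ∑_{b < S} (H_b / N) tv H_b (fun m => F (b N / S + m))`,
`H_b = (b + 1) N / S - b N / S ≤ 2 N / S` (`blocks` below). So `‖AA (N (c x)) P (..) x‖ ≤ (2 / S) ∑_{b < S} ‖X_b x‖`, and it is enough to bound `avr ‖X_b‖` for each `b`, where `X_b x` is the average over the block `b` for the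
scale `c x`. `X_b x = Y_b x + D_(c x) x` with `D_j` as in `block_form` and `Y_b x = wb (P i₀) S b (N (c x)) (fun z => Zf .. z x) x` for the scale `c x`: `avr ‖D_(c x) x‖ ≤ (∑_j n2 (D_j)) ^ (1/2) ≤ (2 ^ K / 2 ^ (3 K)) ^ (1/2)`
(`avr_choice_le`; `j` in `[2 ^ K, 2 ^ (K + 1))`), and `(avr ‖Y_b‖) ^ 2 ≤ n2 Y_b ≤ G (K + 1) ^ 5 (Γ + τ)` by `str_rm` with `p = P i₀`, `c' x = 2 ^ (K + 1) - 1 - c x`, `Z i = Zf ..` for the scale `2 ^ (K + 1) - 1 - i`,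
`Γ = C / 2 ^ (K / C)` (`str_z`), `τ = 2 ^ (- K)`, `Kz = Γ₀ ^ n`, `qz = qm ^ n`, `κ = n Γ₀ ^ n κ₀`, `Γ₀ = 2 (4 (#Ps + 2)) ^ (k + 1)`, `κ₀ = Γ₀ qm 2 ^ (2 ^ K / 8) / 2 ^ (2 ^ K)` (`sl_fib`, `sl_vT`, `sl_mono`,
`2 ^ (2 ^ K) ≤ N j ≤ 2 ^ (2 ^ K / 8) Lf ..` by `Lf_block`): the condition of `str_rm` is
`n Γ₀ ^ (n + 1) qm (4 Γ₀ ^ n qm ^ n) ^ 4 2 ^ (5 K) 2 ^ (2 ^ K / 8 + 2 ^ K / 2) ≤ 2 ^ (2 ^ K)`: `size_block` with `X` large. The powers of `K` are absorbed by a larger `C`.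
-/

set_option autoImplicit false

open Finset Polynomial

namespace Pool.Agent.EQD

open Pool.Agent.HLT Pool.Agent.NLT Pool.Agent.NLG

namespace T3sAux

theorem sum_blocks (g : ℕ → ℕ) (hg : ∀ b, g b ≤ g (b + 1)) (h0 : g 0 = 0) (F : ℕ → ℂ) (S : ℕ) :
    ∑ t ∈ range (g S), F t = ∑ b ∈ range S, ∑ m ∈ range (g (b + 1) - g b), F (g b + m) := by
  induction S with
  | zero => simp [h0]
  | succ S ih =>
    rw [sum_range_succ, ← ih, ← sum_Ico_eq_sum_range, range_eq_Ico, range_eq_Ico,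
      sum_Ico_consecutive _ (Nat.zero_le _) (hg S)]

theorem block_len (N S b : ℕ) (hN : S ≤ N) : S * ((b + 1) * N / S - b * N / S) ≤ 2 * N := by
  rcases Nat.eq_zero_or_pos S with h | h
  · subst h
    simp
  have h1 : S * ((b + 1) * N / S) ≤ (b + 1) * N := Nat.mul_div_le _ _
  have h2 : b * N < S * (b * N / S + 1) := Nat.lt_mul_div_succ _ h
  have h3 : (b + 1) * N = b * N + N := by ring
  rw [Nat.mul_sub]
  have h4 : S * (b * N / S + 1) = S * (b * N / S) + S := by ring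
  omega

theorem sum_eq_mul_tv (H : ℕ) (F : ℕ → ℂ) : ∑ m ∈ range H, F m = (H : ℂ) * tv H F := by
  unfold tv
  rcases Nat.eq_zero_or_pos H with h | h
  · subst h
    simp
  · have : (H : ℂ) ≠ 0 := by exact_mod_cast h.ne'
    field_simp

theorem final_bound (G : ℝ) (hG : 0 ≤ G) (Cz : ℕ) (hCz : 1 ≤ Cz) : ∃ C : ℕ, 1 ≤ C ∧ ∀ K : ℕ,
    2 * (√(1 / 2 ^ (2 * K)) + √(G * ((K : ℝ) + 1) ^ 5 * ((Cz : ℝ) / 2 ^ (K / Cz) + 1 / 2 ^ K))) ≤
      (C : ℝ) / 2 ^ (K / C) := by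
  set C1 : ℕ := 8 * Cz with hC1
  set B : ℝ := G * ((Cz : ℝ) + 1) * (C1 : ℝ) ^ 5 with hB
  have hB0 : 0 ≤ B := by positivity
  refine ⟨C1 + ⌈2 + 2 * √B⌉₊, by omega, ?_⟩
  intro K
  set C : ℕ := C1 + ⌈2 + 2 * √B⌉₊ with hC
  have hC1pos : 0 < C1 := by omega
  set u : ℕ := K / C1 with hu
  have hvu : K / C ≤ u := Nat.div_le_div_left (by omega) hC1pos
  have h8 : 8 * u ≤ K / Cz := by
    rw [Nat.le_div_iff_mul_le (by omega)]
    have := Nat.div_mul_le_self K C1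
    calc 8 * u * Cz = u * C1 := by rw [hC1]; ring
      _ ≤ K := this
  have hKz : K / Cz ≤ K := Nat.div_le_self _ _
  have hK1 : K + 1 ≤ C1 * 2 ^ u := by
    have h1 : K < C1 * (K / C1 + 1) := Nat.lt_mul_div_succ K hC1pos
    have h2 : u + 1 ≤ 2 ^ u := Nat.lt_two_pow_self
    calc K + 1 ≤ C1 * (u + 1) := h1
      _ ≤ C1 * 2 ^ u := Nat.mul_le_mul_left _ h2
  have hK1' : (K : ℝ) + 1 ≤ C1 * 2 ^ u := by exact_mod_cast hK1
  have hp : ∀ a b : ℕ, a ≤ b → (1 : ℝ) / 2 ^ b ≤ 1 / 2 ^ a := by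
    intro a b hab
    exact one_div_le_one_div_of_le (by positivity) (pow_le_pow_right₀ (by norm_num) hab)
  have e1 : √(1 / 2 ^ (2 * K) : ℝ) ≤ 1 / 2 ^ u := by
    have : (1 : ℝ) / 2 ^ (2 * K) = (1 / 2 ^ K) ^ 2 := by
      rw [div_pow, one_pow, ← pow_mul, mul_comm K 2]
    rw [this, Real.sqrt_sq (by positivity)]
    exact hp _ _ (by omega)
  have e2 : √(G * ((K : ℝ) + 1) ^ 5 * ((Cz : ℝ) / 2 ^ (K / Cz) + 1 / 2 ^ K)) ≤ √B / 2 ^ u := by
    have h1 : (Cz : ℝ) / 2 ^ (K / Cz) + 1 / 2 ^ K ≤ ((Cz : ℝ) + 1) / 2 ^ (8 * u) := by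
      rw [add_div]
      apply add_le_add
      · exact div_le_div_of_nonneg_left (by positivity) (by positivity) (pow_le_pow_right₀ (by norm_num) h8)
      · exact hp _ _ (by omega)
    have h2 : ((K : ℝ) + 1) ^ 5 ≤ (C1 * 2 ^ u) ^ 5 := pow_le_pow_left₀ (by positivity) hK1' 5
    have h3 : G * ((K : ℝ) + 1) ^ 5 * ((Cz : ℝ) / 2 ^ (K / Cz) + 1 / 2 ^ K) ≤ B / (2 ^ u) ^ 2 := by
      calc G * ((K : ℝ) + 1) ^ 5 * ((Cz : ℝ) / 2 ^ (K / Cz) + 1 / 2 ^ K)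
          ≤ G * (C1 * 2 ^ u) ^ 5 * (((Cz : ℝ) + 1) / 2 ^ (8 * u)) := by
            apply mul_le_mul _ h1 (by positivity) (by positivity)
            exact mul_le_mul_of_nonneg_left h2 hG
        _ = B / (2 ^ u) ^ 2 * (1 / 2 ^ u) := by
            rw [hB, show 8 * u = u * 8 by ring, pow_mul]
            have : (2 : ℝ) ^ u ≠ 0 := by positivity
            field_simp
        _ ≤ B / (2 ^ u) ^ 2 * 1 := by
            apply mul_le_mul_of_nonneg_left _ (by positivity)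
            rw [div_le_one (by positivity)]
            exact one_le_pow₀ (by norm_num)
        _ = B / (2 ^ u) ^ 2 := mul_one _
    refine (Real.sqrt_le_sqrt h3).trans ?_
    rw [Real.sqrt_div hB0, Real.sqrt_sq (by positivity)]
  have e3 : 2 + 2 * √B ≤ (C : ℝ) := by
    have := Nat.le_ceil (2 + 2 * √B)
    rw [hC]
    push_cast
    have : (0 : ℝ) ≤ C1 := Nat.cast_nonneg _
    linarith
  calc 2 * (√(1 / 2 ^ (2 * K)) + √(G * ((K : ℝ) + 1) ^ 5 * ((Cz : ℝ) / 2 ^ (K / Cz) + 1 / 2 ^ K)))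
      ≤ 2 * (1 / 2 ^ u + √B / 2 ^ u) := by linarith
    _ = (2 + 2 * √B) / 2 ^ u := by ring
    _ ≤ (C : ℝ) / 2 ^ u := div_le_div_of_nonneg_right e3 (by positivity)
    _ ≤ (C : ℝ) / 2 ^ (K / C) :=
      div_le_div_of_nonneg_left (by positivity) (by positivity) (pow_le_pow_right₀ (by norm_num) hvu)

/-- Products of small numbers. -/
theorem size_nat (n T qm K X Y : ℕ) (hX : 9 * n + 12 ≤ X) (hT : 1 ≤ T) (hq : 1 ≤ qm)
    (h : (qm * T * 2 ^ (K * X + X)) ^ X ≤ Y) :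
    n * (2 * T) ^ n * ((2 * T) * qm) * (4 * (2 * T) ^ n * qm ^ n) ^ 4 * 2 ^ (5 * K) ≤ Y := by
  set W := qm * T * 2 ^ (K * X + X) with hW
  have hp : 1 ≤ qm * T := Nat.mul_pos hq hT
  have hP : 2 ^ (K * X + X) ≤ W := Nat.le_mul_of_pos_left _ hp
  have hP' : ∀ a, a ≤ K * X + X → 2 ^ a ≤ W := fun a ha => (Nat.pow_le_pow_right (by norm_num) ha).trans hP
  have hKX : K ≤ K * X := Nat.le_mul_of_pos_right _ (by omega)
  have w1 : 1 ≤ W := (hP' 0 (Nat.zero_le _))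
  have w4 : 4 ≤ W := hP' 2 (by omega)
  have wK : 2 ^ K ≤ W := hP' K (by omega)
  have wn : n ≤ W := (Nat.lt_two_pow_self (n := n)).le.trans (hP' n (by omega))
  have wq : qm ≤ W := by
    rw [hW, Nat.mul_assoc]
    exact Nat.le_mul_of_pos_right _ (Nat.mul_pos hT (by positivity))
  have w2T : 2 * T ≤ W := by
    have h2 : 2 ≤ 2 ^ (K * X + X) := by
      calc 2 = 2 ^ 1 := rfl
        _ ≤ 2 ^ (K * X + X) := Nat.pow_le_pow_right (by norm_num) (by omega)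
    calc 2 * T ≤ 2 ^ (K * X + X) * (qm * T) := Nat.mul_le_mul h2 (Nat.le_mul_of_pos_left _ hq)
      _ = W := by rw [hW]; ring
  calc n * (2 * T) ^ n * ((2 * T) * qm) * (4 * (2 * T) ^ n * qm ^ n) ^ 4 * 2 ^ (5 * K)
      = n * (2 * T) ^ n * ((2 * T) * qm) * (4 * (2 * T) ^ n * qm ^ n) ^ 4 * (2 ^ K) ^ 5 := by
        rw [← pow_mul, mul_comm 5 K]
    _ ≤ W * W ^ n * (W * W) * (W * W ^ n * W ^ n) ^ 4 * W ^ 5 := by gcongr
    _ = W ^ (9 * n + 12) := by ring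
    _ ≤ W ^ X := Nat.pow_le_pow_right w1 hX
    _ ≤ Y := h

end T3sAux

/-- Decomposition of an average into blocks. -/
theorem blocks (N S : ℕ) (hS : 1 ≤ S) (hN : S ≤ N) (F : ℕ → ℂ) :
    ‖tv N F‖ ≤ 2 / S * ∑ b ∈ range S, ‖tv ((b + 1) * N / S - b * N / S) (fun m => F (b * N / S + m))‖ := by
  have hS' : (0 : ℝ) < S := by exact_mod_cast hS
  have hN' : (0 : ℝ) < N := by exact_mod_cast (lt_of_lt_of_le hS hN)
  have h1 := T3sAux.sum_blocks (fun b => b * N / S)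
    (fun b => Nat.div_le_div_right (Nat.mul_le_mul_right _ (Nat.le_succ b))) (by simp) F S
  have h2 : S * N / S = N := Nat.mul_div_cancel_left _ hS
  simp only [h2] at h1
  have h3 : ‖∑ t ∈ range N, F t‖ ≤
      ∑ b ∈ range S, 2 * (N : ℝ) / S * ‖tv ((b + 1) * N / S - b * N / S) (fun m => F (b * N / S + m))‖ := by
    rw [h1]
    refine (norm_sum_le _ _).trans (sum_le_sum fun b _ => ?_)
    rw [T3sAux.sum_eq_mul_tv, norm_mul, Complex.norm_natCast]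
    apply mul_le_mul_of_nonneg_right _ (norm_nonneg _)
    rw [le_div_iff₀ hS']
    have := T3sAux.block_len N S b hN
    have h4 : ((S * ((b + 1) * N / S - b * N / S) : ℕ) : ℝ) ≤ ((2 * N : ℕ) : ℝ) := by exact_mod_cast this
    rw [Nat.cast_mul, Nat.cast_mul] at h4
    push_cast at h4 ⊢
    linarith
  unfold tv
  rw [norm_div, Complex.norm_natCast, div_le_iff₀ hN']
  refine h3.trans (le_of_eq ?_)
  rw [← mul_sum]
  unfold tv
  field_simp

theorem structured {n D : ℕ} {P : Fin n → ℤ[X]} {e : Fin n → ℕ} {i₀ : Fin n} (h : EqDeg D P e i₀) (A B C₄ : ℕ) (hA : 1 ≤ A)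
    (hB : 4 * A ≤ B) : ∃ C K₀ : ℕ, 1 ≤ C ∧ ∀ (M : ℕ) [NeZero M] (K : ℕ) (N : ℕ → ℕ) (ty : Fin n → ℕ) (i₁ : Fin n), K₀ ≤ K → Sc N →
      qU (QB B (K / 2)) (2 * A + 2) (PP (K / 2) (2 ^ (K * A))) ∣ M → ty i₁ = 2 → ∀ f : Fin n → ZMod M → ℂ, (∀ l, Bd (f l)) →
      ∀ c : ZMod M → ℕ, (∀ x, 2 ^ K ≤ c x ∧ c x < 2 ^ (K + 1)) →
      avr (fun x => ‖AA (N (c x)) P (fun l => Vd A B C₄ K (e l) (N (c x)) (ty l) (f l)) x‖) ≤ C / 2 ^ (K / C) := by
  obtain ⟨A₄, K₁, hA₄, hbf⟩ := block_form h A B C₄ hA hB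
  obtain ⟨Cz, K₂, hCz, hz⟩ := str_z h A B C₄ A₄ hA hB hA₄
  obtain ⟨G, K₃, hG, hrm⟩ := str_rm D h.two (P i₀) (h.deg i₀) A₄ hA₄
  obtain ⟨K₄, hsz⟩ := size_block A B (2 * A + 2) (2 * A + 2) (9 * n + 12 + A₄)
  obtain ⟨K₅, hLf⟩ := Lf_block B C₄
  obtain ⟨C, hC, hfin⟩ := T3sAux.final_bound G hG Cz hCz
  refine ⟨C, K₁ + K₂ + K₃ + K₄ + K₅, hC, ?_⟩
  intro M _ K N ty i₁ hK hSc hdiv hty f hf c hc
  have ws := ws_block M B K A (2 * A + 2) (by omega) hdiv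
  obtain ⟨qm, hqm1, hqm, hW⟩ := hsz K (by omega)
  refine le_trans ?_ (hfin K)
  set T : ℕ := (4 * ((PP (K / 2) (2 ^ (K * A))).card + 2)) ^ (2 * A + 2 + 1) with hT
  have hT1 : 1 ≤ T := Nat.one_le_pow _ _ (by omega)
  set X : ℕ := 9 * n + 12 + A₄ with hX
  have hW1 : 1 ≤ qm * T * 2 ^ (K * X + X) := Nat.mul_pos (Nat.mul_pos hqm1 hT1) (by positivity)
  have hKA : K * A₄ ≤ 2 ^ K := by
    have h1 : 2 ^ (K * X) ≤ 2 ^ (2 ^ K / 8) := by
      calc 2 ^ (K * X) ≤ 2 ^ (K * X + X) := Nat.pow_le_pow_right (by norm_num) (by omega)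
        _ ≤ qm * T * 2 ^ (K * X + X) := Nat.le_mul_of_pos_left _ (Nat.mul_pos hqm1 hT1)
        _ ≤ (qm * T * 2 ^ (K * X + X)) ^ X := Nat.le_self_pow (by omega) _
        _ ≤ 2 ^ (2 ^ K / 8) := hW
    have h2 : K * X ≤ 2 ^ K / 8 := (Nat.pow_le_pow_iff_right (by norm_num)).1 h1
    have h3 : K * A₄ ≤ K * X := Nat.mul_le_mul_left _ (by omega)
    omega
  have hN : ∀ j, 2 ^ K ≤ j → 2 ^ (2 ^ K) ≤ N j := fun j hj =>
    (Nat.pow_le_pow_right (by norm_num) hj).trans (hSc j).1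
  have hNS : ∀ x, 2 ^ (K * A₄) ≤ N (c x) := fun x =>
    (Nat.pow_le_pow_right (by norm_num) hKA).trans (hN _ (hc x).1)
  have hS1 : 1 ≤ 2 ^ (K * A₄) := Nat.one_le_pow _ _ (by norm_num)
  -- decomposition into blocks
  set Xb : ℕ → ZMod M → ℂ := fun b x =>
    tv ((b + 1) * N (c x) / 2 ^ (K * A₄) - b * N (c x) / 2 ^ (K * A₄)) (fun m =>
      ∏ l, Vd A B C₄ K (e l) (N (c x)) (ty l) (f l) (x + pz M (P l) (b * N (c x) / 2 ^ (K * A₄) + m))) with hXb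
  have hkey : ∀ x, ‖AA (N (c x)) P (fun l => Vd A B C₄ K (e l) (N (c x)) (ty l) (f l)) x‖ ≤
      2 / ((2 ^ (K * A₄) : ℕ) : ℝ) * ∑ b ∈ range (2 ^ (K * A₄)), ‖Xb b x‖ := by
    intro x
    exact blocks (N (c x)) (2 ^ (K * A₄)) hS1 (hNS x)
      (fun t => ∏ l, Vd A B C₄ K (e l) (N (c x)) (ty l) (f l) (x + pz M (P l) t))
  have hb : ∀ b ∈ range (2 ^ (K * A₄)), avr (fun x => ‖Xb b x‖) ≤
      √(1 / 2 ^ (2 * K)) + √(G * ((K : ℝ) + 1) ^ 5 * ((Cz : ℝ) / 2 ^ (K / Cz) + 1 / 2 ^ K)) := by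
    intro b hb
    have hb' := mem_range.1 hb
    set Z : ℕ → ZMod M → ZMod M → ℂ := fun i => Zf P (QB B (K / 2)) (2 * A + 2) (2 * A + 2) (PP (K / 2) (2 ^ (K * A))) ty
        (fun l => Lf (QB B (K / 2)) C₄ (K / 2) (N (2 ^ (K + 1) - 1 - i)) (e l))
        (fun l => pz M (P l - P i₀) (b * N (2 ^ (K + 1) - 1 - i) / 2 ^ (K * A₄))) f with hZ
    set Y : ℕ → ZMod M → ℂ := fun j x =>
      wb (P i₀) (2 ^ (K * A₄)) b (N j) (fun z => Zf P (QB B (K / 2)) (2 * A + 2) (2 * A + 2) (PP (K / 2) (2 ^ (K * A))) ty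
          (fun l => Lf (QB B (K / 2)) C₄ (K / 2) (N j) (e l)) (fun l => pz M (P l - P i₀) (b * N j / 2 ^ (K * A₄))) f z x) x with hY
    set Dj : ℕ → ZMod M → ℂ := fun j x => tv ((b + 1) * N j / 2 ^ (K * A₄) - b * N j / 2 ^ (K * A₄)) (fun m =>
          ∏ l, Vd A B C₄ K (e l) (N j) (ty l) (f l) (x + pz M (P l) (b * N j / 2 ^ (K * A₄) + m))) - Y j x with hDj
    have hsplit : ∀ x, ‖Xb b x‖ ≤ ‖Dj (c x) x‖ + ‖Y (c x) x‖ := by
      intro x
      have : Xb b x = Dj (c x) x + Y (c x) x := by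
        simp only [hXb, hDj]
        ring
      rw [this]
      exact norm_add_le _ _
    have hD : avr (fun x => ‖Dj (c x) x‖) ≤ √(1 / 2 ^ (2 * K)) := by
      refine avr_choice_le (Ico (2 ^ K) (2 ^ (K + 1))) Dj _ ?_ c (fun x => mem_Ico.2 (hc x))
      calc ∑ j ∈ Ico (2 ^ K) (2 ^ (K + 1)), n2 (Dj j) ≤ ∑ j ∈ Ico (2 ^ K) (2 ^ (K + 1)), (1 : ℝ) / 2 ^ (3 * K) := by
            refine sum_le_sum fun j hj => ?_
            have hj' := mem_Ico.1 hj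
            exact hbf M K j b N ty (by omega) hSc ws hj'.1 hj'.2 hb' f hf
        _ = 1 / 2 ^ (2 * K) := by
            rw [sum_const, Nat.card_Ico, nsmul_eq_mul]
            have : 2 ^ (K + 1) - 2 ^ K = 2 ^ K := by rw [pow_succ]; omega
            rw [this]
            push_cast
            rw [show 3 * K = K + 2 * K by ring, pow_add]
            have : (2 : ℝ) ^ K ≠ 0 := by positivity
            field_simp
    have hYb : n2 (fun x => Y (c x) x) ≤ G * ((K : ℝ) + 1) ^ 5 * ((Cz : ℝ) / 2 ^ (K / Cz) + 1 / 2 ^ K) := by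
      set c' : ZMod M → ℕ := fun x => 2 ^ (K + 1) - 1 - c x with hc'
      have hcc : ∀ x, 2 ^ (K + 1) - 1 - c' x = c x := by
        intro x
        have := hc x
        simp only [hc']
        omega
      have hc'lt : ∀ x, c' x < 2 ^ K := by
        intro x
        have := hc x
        have h2 : 2 ^ (K + 1) = 2 * 2 ^ K := by rw [pow_succ]; ring
        simp only [hc']
        omega
      obtain ⟨hz0, hz1⟩ := hz M K b N ty i₁ (by omega) hSc ws hb' hty f hf Z (fun i => rfl)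
      have hEq : (fun x => Y (c x) x) =
          fun x => wb (P i₀) (2 ^ (K * A₄)) b (N (2 ^ (K + 1) - 1 - c' x)) (fun z => Z (c' x) z x) x := by
        funext x
        simp only [hZ, hY, hcc x]
      rw [hEq]
      set κ₀ : ℝ := ((2 * T : ℕ) : ℝ) * qm * 2 ^ (2 ^ K / 8) / 2 ^ (2 ^ K) with hκ₀
      have hκ₀0 : 0 ≤ κ₀ := by positivity
      refine hrm M K b N Z ((2 * T) ^ n) (qm ^ n) (n * ((2 * T : ℕ) : ℝ) ^ n * κ₀) _ _ (by omega) hSc hb'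
        (Nat.one_le_pow _ _ (by omega)) (Nat.one_le_pow _ _ hqm1) (by positivity) (by positivity) ?_ ?_ ?_ hz0 hz1 c' hc'lt
      · rw [div_le_one (by positivity)]
        exact one_le_pow₀ (by norm_num)
      · have h1 := T3sAux.size_nat n T qm K X _ (by omega) hT1 hqm1 hW
        have h2 : ((n * (2 * T) ^ n * ((2 * T) * qm) * (4 * (2 * T) ^ n * qm ^ n) ^ 4 * 2 ^ (5 * K) : ℕ) : ℝ) ≤
            ((2 ^ (2 ^ K / 8) : ℕ) : ℝ) := by exact_mod_cast h1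
        push_cast at h2
        have h3 : (2 : ℝ) ^ (2 ^ K / 8) * 2 ^ (2 ^ K / 8) * 2 ^ (2 ^ K / 2) ≤ 2 ^ (2 ^ K) := by
          rw [← pow_add, ← pow_add]
          exact pow_le_pow_right₀ (by norm_num) (by omega)
        rw [hκ₀, le_div_iff₀ (by positivity)]
        push_cast
        calc (n : ℝ) * (2 * T) ^ n * (2 * T * qm * 2 ^ (2 ^ K / 8) / 2 ^ (2 ^ K)) * 2 ^ (2 ^ K / 2) *
              (4 * (2 * T) ^ n * qm ^ n) ^ 4 * 2 ^ (4 * K) * 2 ^ K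
            = (n * (2 * T) ^ n * (2 * T * qm) * (4 * (2 * T) ^ n * qm ^ n) ^ 4 * 2 ^ (5 * K)) *
              (2 ^ (2 ^ K / 8) * 2 ^ (2 ^ K / 2)) / 2 ^ (2 ^ K) := by
                rw [show 5 * K = 4 * K + K by ring, pow_add]
                ring
          _ ≤ 2 ^ (2 ^ K / 8) * (2 ^ (2 ^ K / 8) * 2 ^ (2 ^ K / 2)) / 2 ^ (2 ^ K) := by
                apply div_le_div_of_nonneg_right _ (by positivity)
                exact mul_le_mul_of_nonneg_right h2 (by positivity)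
          _ ≤ 1 := by
                rw [div_le_one (by positivity)]
                linarith
      · intro i hi
        have hj1 : 2 ^ K ≤ 2 ^ (K + 1) - 1 - i := by
          have h2 : 2 ^ (K + 1) = 2 * 2 ^ K := by rw [pow_succ]; ring
          omega
        have hj2 : 2 ^ (K + 1) - 1 - i < 2 ^ (K + 1) := by
          have : 0 < 2 ^ (K + 1) := by positivity
          omega
        have hV : ∀ l, Sl (2 * T) qm κ₀ (vT (QB B (K / 2)) (2 * A + 2) (2 * A + 2)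
            (Lf (QB B (K / 2)) C₄ (K / 2) (N (2 ^ (K + 1) - 1 - i)) (e l)) (PP (K / 2) (2 ^ (K * A))) (ty l)
            (pz M (P l - P i₀) (b * N (2 ^ (K + 1) - 1 - i) / 2 ^ (K * A₄))) (f l)) := by
          intro l
          obtain ⟨-, -, -, hL4, hL5⟩ := hLf K (by omega) N (e l) (2 ^ (K + 1) - 1 - i) hSc (h.pos l) hj1 hj2
          set Lw : ℕ := Lf (QB B (K / 2)) C₄ (K / 2) (N (2 ^ (K + 1) - 1 - i)) (e l) with hLw
          have hqL : qm ≤ Lw := by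
            calc qm ≤ qm * T * 2 ^ (K * X + X) := by
                  rw [Nat.mul_assoc]
                  exact Nat.le_mul_of_pos_right _ (Nat.mul_pos hT1 (by positivity))
              _ ≤ (qm * T * 2 ^ (K * X + X)) ^ X := Nat.le_self_pow (by omega) _
              _ ≤ 2 ^ (2 ^ K / 8) := hW
              _ ≤ 2 ^ (2 ^ K / 2) := Nat.pow_le_pow_right (by norm_num) (by omega)
              _ ≤ Lw := hL5
          have h1 := sl_vT ws hqm hqL hqm1 (ty l) (pz M (P l - P i₀) (b * N (2 ^ (K + 1) - 1 - i) / 2 ^ (K * A₄))) (f l) (hf l)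
          refine sl_mono h1 le_rfl le_rfl ?_
          have hLpos : (0 : ℝ) < Lw := by
            exact_mod_cast (lt_of_lt_of_le hqm1 hqL)
          have h2 : ((2 ^ (2 ^ K) : ℕ) : ℝ) ≤ ((2 ^ (2 ^ K / 8) * Lw : ℕ) : ℝ) := by
            exact_mod_cast (hN _ hj1).trans hL4
          push_cast at h2
          rw [hκ₀, div_le_div_iff₀ hLpos (by positivity)]
          have h3 : (4 * (((PP (K / 2) (2 ^ (K * A))).card : ℝ) + 2)) ^ (2 * A + 2 + 1) = (T : ℝ) := by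
            rw [hT]
            push_cast
            rfl
          rw [h3]
          push_cast
          have hTq : (0 : ℝ) ≤ T * qm := by positivity
          nlinarith [mul_le_mul_of_nonneg_left h2 hTq, mul_nonneg hTq (mul_nonneg (by positivity : (0 : ℝ) ≤ 2 ^ (2 ^ K / 8)) hLpos.le)]
        exact sl_fib hκ₀0 (by omega) hqm1 P _ hV
    calc avr (fun x => ‖Xb b x‖) ≤ avr (fun x => ‖Dj (c x) x‖ + ‖Y (c x) x‖) := avr_mono hsplit
      _ = avr (fun x => ‖Dj (c x) x‖) + avr (fun x => ‖Y (c x) x‖) := avr_add _ _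
      _ ≤ _ := add_le_add hD ((avr_norm_le_sqrt_n2 (fun x => Y (c x) x)).trans (Real.sqrt_le_sqrt hYb))
  calc avr (fun x => ‖AA (N (c x)) P (fun l => Vd A B C₄ K (e l) (N (c x)) (ty l) (f l)) x‖)
      ≤ avr (fun x => 2 / ((2 ^ (K * A₄) : ℕ) : ℝ) * ∑ b ∈ range (2 ^ (K * A₄)), ‖Xb b x‖) := avr_mono hkey
    _ = 2 / ((2 ^ (K * A₄) : ℕ) : ℝ) * ∑ b ∈ range (2 ^ (K * A₄)), avr (fun x => ‖Xb b x‖) := by
        rw [avr_mul_left, avr_sum (range (2 ^ (K * A₄))) (fun b x => ‖Xb b x‖)]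
    _ ≤ 2 / ((2 ^ (K * A₄) : ℕ) : ℝ) * ∑ b ∈ range (2 ^ (K * A₄)),
        (√(1 / 2 ^ (2 * K)) + √(G * ((K : ℝ) + 1) ^ 5 * ((Cz : ℝ) / 2 ^ (K / Cz) + 1 / 2 ^ K))) :=
        mul_le_mul_of_nonneg_left (sum_le_sum hb) (by positivity)
    _ = _ := by
        rw [sum_const, card_range, nsmul_eq_mul]
        have : ((2 ^ (K * A₄) : ℕ) : ℝ) ≠ 0 := by positivity
        field_simp

end Pool.Agent.EQD
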