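import Pool.Agent.Lib.EQD.DkB
import Pool.Agent.Lib.EQD.DefsC

/-!
# Module WeyB: exponential sums over short blocks with a small quadratic or higher coefficient

PROOF of `weyl_block`. Let `C_w` be the constant of `weyl_real D`, `R = ⌊N ^ c⌋` with a small rational `c` (`c = 1 / (8 D (C_w + 1))` is enough), `C` large. If the sum is `≥ 1 / R`: the phase
`Θ m = b (m₀ + m) / q + β p (m₀ + m)` has degree `≤ D` and coefficient `β lead` at `X ^ D` (`D ≥ 2`), so `nrm (q' β lead) ≤ R ^ C_w / H ^ D` for some `q' ≤ R ^ C_w`;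
`|q' β lead| ≤ R ^ C_w |lead| N ^ (- 1 / 2) < 1 / 2`, hence `|β| ≤ R ^ C_w / H ^ D`. The phase `β p (m₀ + m)` has total variation `≤ |β| C N ^ D ≤ N ^ (1 / 4)` on the block
(`H ≥ N ^ (1 - 1 / C)`), and the partial sums of `ex (b (m₀ + m) / q)` are at most `q / 2 + 1` (`nrm (b / q) ≥ 1 / q`). Partial summation: the average is at most
`q (1 + 7 N ^ (1 / 4)) / H ≤ N ^ (- 1 / 2) < 1 / R`, a contradiction.
PROOF of `weyl_dec` (decay of `wm`): `|β| N ^ D ≥ lam ^ A` and `|β|` small: the same with `b = 0`, `R = lam`: `nrm (q' β lead) ≤ lam ^ C_w / H ^ D`, `H ≥ N / lam ^ A₄ / 2`,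
so `|β| ≤ lam ^ C_w (2 lam ^ A₄) ^ D / N ^ D < lam ^ A / N ^ D` for `A = C_w + D (A₄ + 1) + 1`.
-/

set_option autoImplicit false

open Finset Polynomial

namespace Pool.Agent.EQD

open Pool.Agent.HLT Pool.Agent.NLT Pool.Agent.NLG

namespace WeyBAux

lemma eval_map' (p : ℤ[X]) (n : ℕ) :
    (p.map (Int.castRingHom ℝ)).eval (n : ℝ) = ((p.eval (n : ℤ) : ℤ) : ℝ) := by
  have h := Polynomial.eval_intCast_map (Int.castRingHom ℝ) p (n : ℤ)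
  push_cast at h
  exact h

/-- The phase polynomial. -/
noncomputable def Ph (p : ℤ[X]) (c β : ℝ) (m₀ : ℕ) : ℝ[X] :=
  C c * (X + C (m₀ : ℝ)) + C β * taylor (m₀ : ℝ) (p.map (Int.castRingHom ℝ))

lemma Ph_eval (p : ℤ[X]) (c β : ℝ) (m₀ t : ℕ) :
    (Ph p c β m₀).eval (t : ℝ) = c * ((m₀ + t : ℕ) : ℝ) + β * ((p.eval ((m₀ + t : ℕ) : ℤ) : ℤ) : ℝ) := by
  unfold Ph
  rw [eval_add, eval_mul, eval_C, eval_add, eval_X, eval_C, eval_mul, eval_C, taylor_eval,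
    ← eval_map']
  push_cast
  rw [add_comm (t : ℝ) (m₀ : ℝ)]

lemma natDegree_map' (p : ℤ[X]) : (p.map (Int.castRingHom ℝ)).natDegree = p.natDegree :=
  natDegree_map_eq_of_injective (RingHom.injective_int (Int.castRingHom ℝ)) p

lemma Ph_deg (p : ℤ[X]) (D : ℕ) (hD : 2 ≤ D) (hp : p.natDegree = D) (c β : ℝ) (m₀ : ℕ) :
    (Ph p c β m₀).natDegree ≤ D := by
  unfold Ph
  refine natDegree_add_le_of_degree_le ?_ ?_
  · refine (natDegree_C_mul_le _ _).trans ?_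
    rw [natDegree_X_add_C]
    omega
  · refine (natDegree_C_mul_le _ _).trans ?_
    rw [natDegree_taylor, natDegree_map', hp]

lemma Ph_coeff (p : ℤ[X]) (D : ℕ) (hD : 2 ≤ D) (hp : p.natDegree = D) (c β : ℝ) (m₀ : ℕ) :
    (Ph p c β m₀).coeff D = β * ((p.leadingCoeff : ℤ) : ℝ) := by
  unfold Ph
  have h1 : (X + C (m₀ : ℝ)).coeff D = 0 := by
    apply coeff_eq_zero_of_natDegree_lt
    rw [natDegree_X_add_C]
    omega
  have h2 : (taylor (m₀ : ℝ) (p.map (Int.castRingHom ℝ))).coeff D = ((p.leadingCoeff : ℤ) : ℝ) := by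
    have h3 : D = (p.map (Int.castRingHom ℝ)).natDegree := by rw [natDegree_map', hp]
    rw [h3, coeff_taylor_natDegree]
    rw [leadingCoeff_map_of_injective (RingHom.injective_int (Int.castRingHom ℝ))]
    simp
  rw [coeff_add, coeff_C_mul, coeff_C_mul, h1, h2, mul_zero, zero_add]

lemma le_nrm {θ : ℝ} (h : |θ| ≤ 1 / 2) : |θ| ≤ nrm θ := by
  unfold nrm
  rcases eq_or_ne (round θ) 0 with h0 | h0
  · rw [h0]
    simp
  · have h1 : (1 : ℝ) ≤ |((round θ : ℤ) : ℝ)| := by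
      rw [← Int.cast_abs]
      exact_mod_cast Int.one_le_abs h0
    have h2 : |((round θ : ℤ) : ℝ)| ≤ |θ - round θ| + |θ| := by
      have e : ((round θ : ℤ) : ℝ) = -(θ - round θ) + θ := by ring
      calc |((round θ : ℤ) : ℝ)| = |-(θ - round θ) + θ| := by rw [← e]
        _ ≤ |-(θ - round θ)| + |θ| := abs_add_le _ _
        _ = |θ - round θ| + |θ| := by rw [abs_neg]
    linarith

theorem weyl_app (D : ℕ) (hD : 2 ≤ D) : ∃ Cw : ℕ, ∀ (p : ℤ[X]), p.natDegree = D →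
    ∀ (H R m₀ : ℕ) (c β : ℝ), 2 ≤ R → R ^ Cw ≤ H →
    1 / (R : ℝ) ≤ ‖tv H (fun m => ex (c * ((m₀ + m : ℕ) : ℝ) + β * ((p.eval ((m₀ + m : ℕ) : ℤ) : ℤ) : ℝ)))‖ →
    |β| * ((R : ℝ) ^ Cw * |((p.leadingCoeff : ℤ) : ℝ)|) ≤ 1 / 2 → |β| * (H : ℝ) ^ D ≤ (R : ℝ) ^ Cw := by
  obtain ⟨Cw, hC⟩ := weyl_real D (by omega)
  refine ⟨Cw, ?_⟩
  intro p hp H R m₀ c β hR hH h hβ
  have h1 : 1 / (R : ℝ) ≤ ‖tv H (fun t => ex ((Ph p c β m₀).eval (t : ℝ)))‖ := by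
    simp only [Ph_eval]
    exact h
  obtain ⟨q, hq1, hq2, hq3⟩ := hC H R (Ph p c β m₀) hR hH (Ph_deg p D hD hp c β m₀) h1
  rw [Ph_coeff p D hD hp] at hq3
  have hR1 : 1 ≤ R := by omega
  have hH1 : 1 ≤ H := (Nat.one_le_pow _ _ hR1).trans hH
  have hH0 : (0 : ℝ) < (H : ℝ) ^ D := by
    have : (0 : ℝ) < H := by exact_mod_cast hH1
    positivity
  have hq1' : (1 : ℝ) ≤ q := by exact_mod_cast hq1
  have hq2' : (q : ℝ) ≤ (R : ℝ) ^ Cw := by exact_mod_cast hq2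
  set ℓ : ℝ := |((p.leadingCoeff : ℤ) : ℝ)| with hℓ
  have hp0 : p ≠ 0 := by
    intro h0
    rw [h0, natDegree_zero] at hp
    omega
  have hℓ1 : 1 ≤ ℓ := by
    rw [hℓ, ← Int.cast_abs]
    exact_mod_cast Int.one_le_abs (leadingCoeff_ne_zero.2 hp0)
  have habs : |(q : ℝ) * (β * ((p.leadingCoeff : ℤ) : ℝ))| = q * (|β| * ℓ) := by
    rw [abs_mul, abs_mul, Nat.abs_cast]
  have hβ0 : 0 ≤ |β| := abs_nonneg _
  have h2 : |(q : ℝ) * (β * ((p.leadingCoeff : ℤ) : ℝ))| ≤ 1 / 2 := by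
    rw [habs]
    calc (q : ℝ) * (|β| * ℓ) ≤ (R : ℝ) ^ Cw * (|β| * ℓ) :=
          mul_le_mul_of_nonneg_right hq2' (by positivity)
      _ = |β| * ((R : ℝ) ^ Cw * ℓ) := by ring
      _ ≤ 1 / 2 := hβ
  have h3 := (le_nrm h2).trans hq3
  rw [habs, le_div_iff₀ hH0] at h3
  have h4 : |β| ≤ q * (|β| * ℓ) := by
    have h5 : 1 ≤ (q : ℝ) * ℓ := by nlinarith
    calc |β| = |β| * 1 := (mul_one _).symm
      _ ≤ |β| * (q * ℓ) := mul_le_mul_of_nonneg_left h5 hβ0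
      _ = q * (|β| * ℓ) := by ring
  exact (mul_le_mul_of_nonneg_right h4 hH0.le).trans h3

/-- Size of the values of a polynomial. -/
lemma poly_bd (p : ℤ[X]) : ∃ K : ℕ, 1 ≤ K ∧ ∀ N n : ℕ, 1 ≤ N → n ≤ N →
    |((p.eval (n : ℤ) : ℤ) : ℝ)| ≤ K * (N : ℝ) ^ p.natDegree := by
  refine ⟨∑ i ∈ range (p.natDegree + 1), (p.coeff i).natAbs + 1, by omega, ?_⟩
  intro N n hN hn
  have hN1 : (1 : ℝ) ≤ N := by exact_mod_cast hN
  have hnN : (n : ℝ) ≤ N := by exact_mod_cast hn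
  rw [eval_eq_sum_range]
  push_cast
  have h1 : ∀ i ∈ range (p.natDegree + 1), |((p.coeff i : ℤ) : ℝ) * (n : ℝ) ^ i| ≤
      ((p.coeff i).natAbs : ℝ) * (N : ℝ) ^ p.natDegree := by
    intro i hi
    rw [abs_mul, abs_pow, Nat.abs_cast, Nat.cast_natAbs, Int.cast_abs]
    refine mul_le_mul_of_nonneg_left ?_ (abs_nonneg _)
    calc (n : ℝ) ^ i ≤ (N : ℝ) ^ i := pow_le_pow_left₀ (Nat.cast_nonneg _) hnN i
      _ ≤ (N : ℝ) ^ p.natDegree := pow_le_pow_right₀ hN1 (by have := mem_range.1 hi; omega)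
  have hP : 0 ≤ (N : ℝ) ^ p.natDegree := by positivity
  calc |∑ i ∈ range (p.natDegree + 1), ((p.coeff i : ℤ) : ℝ) * (n : ℝ) ^ i| ≤
      ∑ i ∈ range (p.natDegree + 1), |((p.coeff i : ℤ) : ℝ) * (n : ℝ) ^ i| := abs_sum_le_sum_abs _ _
    _ ≤ ∑ i ∈ range (p.natDegree + 1), ((p.coeff i).natAbs : ℝ) * (N : ℝ) ^ p.natDegree :=
        sum_le_sum h1
    _ = (∑ i ∈ range (p.natDegree + 1), ((p.coeff i).natAbs : ℝ)) * (N : ℝ) ^ p.natDegree := by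
        rw [sum_mul]
    _ ≤ _ := by
        rw [add_mul, one_mul]
        linarith

lemma pow_diff (n i : ℕ) : (n + 1) ^ i ≤ n ^ i + i * (n + 1) ^ (i - 1) := by
  induction i with
  | zero => simp
  | succ i ih =>
    rcases Nat.eq_zero_or_pos i with h0 | h0
    · subst h0
      simp
    · have e : (n + 1) ^ i = (n + 1) ^ (i - 1) * (n + 1) := by
        rw [← pow_succ]
        congr 1
        omega
      calc (n + 1) ^ (i + 1) = (n + 1) ^ i * (n + 1) := pow_succ _ _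
        _ ≤ (n ^ i + i * (n + 1) ^ (i - 1)) * (n + 1) := Nat.mul_le_mul_right _ ih
        _ = n ^ i * n + n ^ i + i * ((n + 1) ^ (i - 1) * (n + 1)) := by ring
        _ = n ^ (i + 1) + n ^ i + i * (n + 1) ^ i := by rw [← e, pow_succ]
        _ ≤ n ^ (i + 1) + (n + 1) ^ i + i * (n + 1) ^ i := by
            have h1 : n ^ i ≤ (n + 1) ^ i := Nat.pow_le_pow_left (Nat.le_succ n) i
            omega
        _ = n ^ (i + 1) + (i + 1) * (n + 1) ^ (i + 1 - 1) := by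
            rw [Nat.add_sub_cancel]
            ring

/-- Size of the differences. -/
lemma poly_diff (p : ℤ[X]) : ∃ K : ℕ, 1 ≤ K ∧ ∀ N n : ℕ, n + 1 ≤ N →
    |((p.eval ((n + 1 : ℕ) : ℤ) : ℤ) : ℝ) - ((p.eval (n : ℤ) : ℤ) : ℝ)| ≤ K * (N : ℝ) ^ (p.natDegree - 1) := by
  refine ⟨p.natDegree * ∑ i ∈ range (p.natDegree + 1), (p.coeff i).natAbs + 1, by omega, ?_⟩
  intro N n hn
  have hN1 : (1 : ℝ) ≤ N := by exact_mod_cast (by omega : 1 ≤ N)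
  rw [eval_eq_sum_range, eval_eq_sum_range]
  push_cast
  rw [← sum_sub_distrib]
  have hP : 0 ≤ (N : ℝ) ^ (p.natDegree - 1) := by positivity
  have h1 : ∀ i ∈ range (p.natDegree + 1),
      |((p.coeff i : ℤ) : ℝ) * ((n : ℝ) + 1) ^ i - ((p.coeff i : ℤ) : ℝ) * (n : ℝ) ^ i| ≤
      ((p.coeff i).natAbs : ℝ) * (p.natDegree * (N : ℝ) ^ (p.natDegree - 1)) := by
    intro i hi
    rw [← mul_sub, abs_mul, Nat.cast_natAbs, Int.cast_abs]
    refine mul_le_mul_of_nonneg_left ?_ (abs_nonneg _)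
    have h2 : (n : ℝ) ^ i ≤ ((n : ℝ) + 1) ^ i :=
      pow_le_pow_left₀ (Nat.cast_nonneg _) (by linarith) i
    rw [abs_of_nonneg (by linarith)]
    have h3 : ((n : ℝ) + 1) ^ i ≤ (n : ℝ) ^ i + i * ((n : ℝ) + 1) ^ (i - 1) := by
      exact_mod_cast pow_diff n i
    have hi2 : i ≤ p.natDegree := by
      have := mem_range.1 hi
      omega
    have h4 : (i : ℝ) * ((n : ℝ) + 1) ^ (i - 1) ≤ p.natDegree * (N : ℝ) ^ (p.natDegree - 1) := by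
      have h5 : ((n : ℝ) + 1) ^ (i - 1) ≤ (N : ℝ) ^ (p.natDegree - 1) := by
        calc ((n : ℝ) + 1) ^ (i - 1) ≤ (N : ℝ) ^ (i - 1) :=
              pow_le_pow_left₀ (by positivity) (by exact_mod_cast hn) _
          _ ≤ (N : ℝ) ^ (p.natDegree - 1) := pow_le_pow_right₀ hN1 (by omega)
      exact mul_le_mul (by exact_mod_cast hi2) h5 (by positivity) (by positivity)
    linarith
  calc |∑ i ∈ range (p.natDegree + 1), (((p.coeff i : ℤ) : ℝ) * ((n : ℝ) + 1) ^ i - ((p.coeff i : ℤ) : ℝ) * (n : ℝ) ^ i)| ≤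
      ∑ i ∈ range (p.natDegree + 1), |((p.coeff i : ℤ) : ℝ) * ((n : ℝ) + 1) ^ i - ((p.coeff i : ℤ) : ℝ) * (n : ℝ) ^ i| :=
        abs_sum_le_sum_abs _ _
    _ ≤ ∑ i ∈ range (p.natDegree + 1), ((p.coeff i).natAbs : ℝ) * (p.natDegree * (N : ℝ) ^ (p.natDegree - 1)) :=
        sum_le_sum h1
    _ = (p.natDegree * ∑ i ∈ range (p.natDegree + 1), ((p.coeff i).natAbs : ℝ)) * (N : ℝ) ^ (p.natDegree - 1) := by
        rw [← sum_mul]
        ring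
    _ ≤ _ := by
        rw [add_mul, one_mul]
        linarith

/-- Partial summation. -/
lemma part_sum (a w : ℕ → ℂ) (H : ℕ) (A V : ℝ) (hA0 : 0 ≤ A) (hV : 0 ≤ V)
    (ha : ∀ k, ‖∑ i ∈ range k, a i‖ ≤ A) (hw : ∀ i, ‖w i‖ ≤ 1)
    (hd : ∀ i, i + 1 < H → ‖w (i + 1) - w i‖ ≤ V) :
    ‖∑ i ∈ range H, w i * a i‖ ≤ A * (1 + H * V) := by
  have h := Finset.sum_range_by_parts w a H
  simp only [smul_eq_mul] at h
  rw [h]
  have h1 : ‖w (H - 1) * ∑ i ∈ range H, a i‖ ≤ A := by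
    rw [norm_mul]
    calc ‖w (H - 1)‖ * ‖∑ i ∈ range H, a i‖ ≤ 1 * A :=
          mul_le_mul (hw _) (ha _) (norm_nonneg _) zero_le_one
      _ = A := one_mul _
  have h2 : ‖∑ i ∈ range (H - 1), (w (i + 1) - w i) * ∑ i ∈ range (i + 1), a i‖ ≤ H * (V * A) := by
    have h3 : ∀ i ∈ range (H - 1), ‖(w (i + 1) - w i) * ∑ i ∈ range (i + 1), a i‖ ≤ V * A := by
      intro i hi
      rw [norm_mul]
      have hi2 := mem_range.1 hi
      exact mul_le_mul (hd i (by omega)) (ha _) (norm_nonneg _) hV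
    refine (norm_sum_le_of_le _ h3).trans ?_
    rw [sum_const, card_range, nsmul_eq_mul]
    refine mul_le_mul_of_nonneg_right ?_ (by positivity)
    exact_mod_cast Nat.sub_le H 1
  calc _ ≤ ‖w (H - 1) * ∑ i ∈ range H, a i‖ +
        ‖∑ i ∈ range (H - 1), (w (i + 1) - w i) * ∑ i ∈ range (i + 1), a i‖ := norm_sub_le _ _
    _ ≤ A + H * (V * A) := add_le_add h1 h2
    _ = A * (1 + H * V) := by ring

lemma nrm_div {q b : ℕ} (hq : 1 ≤ q) (hb : ¬ q ∣ b) : 1 / (q : ℝ) ≤ nrm ((b : ℝ) / q) := by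
  have hq0 : (0 : ℝ) < q := by exact_mod_cast hq
  unfold nrm
  set r : ℤ := round ((b : ℝ) / q) with hr
  have h1 : (b : ℤ) - q * r ≠ 0 := by
    intro h
    apply hb
    have h2 : (b : ℤ) = q * r := by linarith
    have h3 : (q : ℤ) ∣ (b : ℤ) := ⟨r, h2⟩
    exact_mod_cast h3
  have h2 : (b : ℝ) / q - r = (((b : ℤ) - q * r : ℤ) : ℝ) / q := by
    push_cast
    field_simp
  rw [h2, abs_div, abs_of_pos hq0]
  refine div_le_div_of_nonneg_right ?_ hq0.le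
  rw [← Int.cast_abs]
  exact_mod_cast Int.one_le_abs h1

/-- The sum over a block by partial summation. -/
lemma block_sum (p : ℤ[X]) (K : ℕ) (hK : ∀ N n : ℕ, n + 1 ≤ N →
    |((p.eval ((n + 1 : ℕ) : ℤ) : ℤ) : ℝ) - ((p.eval (n : ℤ) : ℤ) : ℝ)| ≤ K * (N : ℝ) ^ (p.natDegree - 1))
    (N q H m₀ b : ℕ) (β : ℝ) (hq : 1 ≤ q) (hb : ¬ q ∣ b) (hN : m₀ + H ≤ N) :
    ‖∑ m ∈ range H, ex ((b : ℝ) / q * ((m₀ + m : ℕ) : ℝ) + β * ((p.eval ((m₀ + m : ℕ) : ℤ) : ℤ) : ℝ))‖ ≤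
      q / 2 * (1 + H * (7 * (|β| * (K * (N : ℝ) ^ (p.natDegree - 1))))) := by
  have hq0 : (0 : ℝ) < q := by exact_mod_cast hq
  have e : ∀ m ∈ range H, ex ((b : ℝ) / q * ((m₀ + m : ℕ) : ℝ) + β * ((p.eval ((m₀ + m : ℕ) : ℤ) : ℤ) : ℝ)) =
      ex (β * ((p.eval ((m₀ + m : ℕ) : ℤ) : ℤ) : ℝ)) * ex ((b : ℝ) / q * ((m₀ + m : ℕ) : ℝ)) := by
    intro m _
    rw [add_comm, ex_add]
  rw [sum_congr rfl e]
  refine part_sum (fun m => ex ((b : ℝ) / q * ((m₀ + m : ℕ) : ℝ)))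
    (fun m => ex (β * ((p.eval ((m₀ + m : ℕ) : ℤ) : ℤ) : ℝ))) H (q / 2) _ (by positivity)
    (by positivity) ?_ (fun i => (norm_ex _).le) ?_
  · intro k
    have h1 := geo_Ico 0 k ((b : ℝ) / q) ((b : ℝ) / q * m₀)
    have e2 : ∑ t ∈ Ico 0 k, ex ((t : ℝ) * ((b : ℝ) / q) + (b : ℝ) / q * m₀) =
        ∑ i ∈ range k, ex ((b : ℝ) / q * ((m₀ + i : ℕ) : ℝ)) := by
      rw [Finset.range_eq_Ico]
      refine sum_congr rfl fun t _ => ?_
      congr 1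
      push_cast
      ring
    rw [e2] at h1
    have h2 := nrm_div hq hb
    have h3 : 2 * (1 / (q : ℝ)) * ‖∑ i ∈ range k, ex ((b : ℝ) / q * ((m₀ + i : ℕ) : ℝ))‖ ≤ 1 :=
      le_trans (mul_le_mul_of_nonneg_right (by linarith) (norm_nonneg _)) h1
    have h4 : 2 * (1 / (q : ℝ)) * ‖∑ i ∈ range k, ex ((b : ℝ) / q * ((m₀ + i : ℕ) : ℝ))‖ =
        ‖∑ i ∈ range k, ex ((b : ℝ) / q * ((m₀ + i : ℕ) : ℝ))‖ / (q / 2) := by
      field_simp
    rw [h4, div_le_one (by positivity)] at h3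
    exact h3
  · intro i hi
    have h1 := hK N (m₀ + i) (by omega)
    have e3 : ex (β * ((p.eval ((m₀ + (i + 1) : ℕ) : ℤ) : ℤ) : ℝ)) - ex (β * ((p.eval ((m₀ + i : ℕ) : ℤ) : ℤ) : ℝ)) =
        ex (β * ((p.eval ((m₀ + i : ℕ) : ℤ) : ℤ) : ℝ)) *
          (ex (β * (((p.eval ((m₀ + i + 1 : ℕ) : ℤ) : ℤ) : ℝ) - ((p.eval ((m₀ + i : ℕ) : ℤ) : ℤ) : ℝ))) - 1) := by
      have e4 : m₀ + (i + 1) = m₀ + i + 1 := by omega
      rw [e4, _root_.mul_sub, ← ex_add, mul_one]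
      congr 2
      ring
    show ‖ex (β * ((p.eval ((m₀ + (i + 1) : ℕ) : ℤ) : ℤ) : ℝ)) - ex (β * ((p.eval ((m₀ + i : ℕ) : ℤ) : ℤ) : ℝ))‖ ≤ _
    rw [e3, norm_mul, norm_ex, one_mul]
    refine (norm_ex_sub_one_le _).trans (mul_le_mul_of_nonneg_left ?_ (by norm_num))
    refine (nrm_le_abs _).trans ?_
    rw [abs_mul]
    exact mul_le_mul_of_nonneg_left h1 (abs_nonneg _)

theorem block_core (D : ℕ) (hD : 2 ≤ D) (p : ℤ[X]) (hp : p.natDegree = D) : ∃ C X₀ : ℕ, 2 ≤ C ∧ 2 ≤ X₀ ∧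
    ∀ (x : ℝ) (N q H m₀ b : ℕ) (β : ℝ), (X₀ : ℝ) ≤ x → (N : ℝ) = x ^ C →
    1 ≤ q → (q : ℝ) ≤ x → m₀ + H ≤ N → x ^ (C - 1) ≤ H → |β| ^ 2 * x ^ C ≤ 1 → ¬ q ∣ b →
    ‖tv H (fun m => ex ((b : ℝ) / q * ((m₀ + m : ℕ) : ℝ) + β * ((p.eval ((m₀ + m : ℕ) : ℤ) : ℤ) : ℝ)))‖ * x ≤ 1 := by
  obtain ⟨Cw, hCw⟩ := weyl_app D hD
  obtain ⟨K, hK1, hK⟩ := poly_diff p
  refine ⟨2 * (2 * Cw + D + 4), 2 + 2 * p.leadingCoeff.natAbs + 4 * K, by omega, by omega, ?_⟩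
  intro x N q H m₀ b β hx hN hq1 hqx hH hxH hβ hb
  set C := 2 * (2 * Cw + D + 4) with hC
  by_contra hcon
  push Not at hcon
  set T := ‖tv H (fun m => ex ((b : ℝ) / q * ((m₀ + m : ℕ) : ℝ) + β * ((p.eval ((m₀ + m : ℕ) : ℤ) : ℤ) : ℝ)))‖ with hT
  have hℓ : |((p.leadingCoeff : ℤ) : ℝ)| = (p.leadingCoeff.natAbs : ℝ) := by
    rw [Nat.cast_natAbs, Int.cast_abs]
  push_cast at hx
  have hl0 : (0 : ℝ) ≤ (p.leadingCoeff.natAbs : ℝ) := Nat.cast_nonneg _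
  have hK0 : (1 : ℝ) ≤ K := by exact_mod_cast hK1
  have hx2 : 2 ≤ x := by linarith
  have hx1 : 1 ≤ x := by linarith
  have hx0 : 0 < x := by linarith
  have hβ0 : 0 ≤ |β| := abs_nonneg _
  have hxH0 : 0 < x ^ (C - 1) := by positivity
  have hH0 : (0 : ℝ) < H := lt_of_lt_of_le hxH0 hxH
  -- the number R
  set R : ℕ := ⌈x⌉₊ + 1 with hR
  have hxR : x ≤ R := by
    rw [hR]
    push_cast
    have := Nat.le_ceil x
    linarith
  have hR2 : 2 ≤ R := by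
    have : (2 : ℝ) ≤ R := hx2.trans hxR
    exact_mod_cast this
  have hRx : (R : ℝ) ≤ x ^ 2 := by
    rw [hR]
    push_cast
    have := (Nat.ceil_lt_add_one hx0.le).le
    nlinarith
  have hRC : (R : ℝ) ^ Cw ≤ x ^ (2 * Cw) := by
    rw [pow_mul]
    exact pow_le_pow_left₀ (Nat.cast_nonneg _) hRx _
  have hRH : R ^ Cw ≤ H := by
    have h1 : (R : ℝ) ^ Cw ≤ H := by
      refine hRC.trans (le_trans ?_ hxH)
      exact pow_le_pow_right₀ hx1 (by omega)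
    exact_mod_cast h1
  have hRT : 1 / (R : ℝ) ≤ T := by
    have h1 : 1 / (R : ℝ) ≤ 1 / x := one_div_le_one_div_of_le hx0 hxR
    have h2 : 1 / x ≤ T := by
      rw [div_le_iff₀ hx0]
      exact hcon.le
    exact h1.trans h2
  -- the frequency is small
  have hβC : |β| * x ^ (2 * Cw + D + 4) ≤ 1 := by
    have h1 : (|β| * x ^ (2 * Cw + D + 4)) ^ 2 ≤ 1 := by
      rw [mul_pow, ← pow_mul, mul_comm (2 * Cw + D + 4) 2]
      exact hβ
    have h2 : 0 ≤ |β| * x ^ (2 * Cw + D + 4) := by positivity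
    nlinarith
  have hsmall : |β| * ((R : ℝ) ^ Cw * |((p.leadingCoeff : ℤ) : ℝ)|) ≤ 1 / 2 := by
    rw [hℓ]
    have h1 : (R : ℝ) ^ Cw * (p.leadingCoeff.natAbs : ℝ) ≤ x ^ (2 * Cw) * (x / 2) :=
      mul_le_mul hRC (by linarith) hl0 (by positivity)
    have h2 : x ^ (2 * Cw) * (x / 2) ≤ x ^ (2 * Cw + D + 4) / 2 := by
      have h3 : x ^ (2 * Cw) * x ≤ x ^ (2 * Cw + D + 4) := by
        rw [← pow_succ]
        exact pow_le_pow_right₀ hx1 (by omega)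
      linarith
    calc |β| * ((R : ℝ) ^ Cw * (p.leadingCoeff.natAbs : ℝ)) ≤ |β| * (x ^ (2 * Cw + D + 4) / 2) :=
          mul_le_mul_of_nonneg_left (h1.trans h2) hβ0
      _ = |β| * x ^ (2 * Cw + D + 4) / 2 := by ring
      _ ≤ 1 / 2 := by linarith
  have hweyl := hCw p hp H R m₀ ((b : ℝ) / q) β hR2 hRH hRT hsmall
  have hβN : |β| * (N : ℝ) ^ D ≤ x ^ (2 * Cw + D) := by
    have h1 : (N : ℝ) ^ D ≤ (H : ℝ) ^ D * x ^ D := by
      rw [← mul_pow, hN]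
      refine pow_le_pow_left₀ (by positivity) ?_ D
      have h2 : x ^ C = x ^ (C - 1) * x := by
        rw [← pow_succ, Nat.sub_add_cancel (by omega)]
      rw [h2]
      exact mul_le_mul_of_nonneg_right hxH hx0.le
    calc |β| * (N : ℝ) ^ D ≤ |β| * ((H : ℝ) ^ D * x ^ D) := mul_le_mul_of_nonneg_left h1 hβ0
      _ = (|β| * (H : ℝ) ^ D) * x ^ D := by ring
      _ ≤ x ^ (2 * Cw) * x ^ D := mul_le_mul_of_nonneg_right (hweyl.trans hRC) (by positivity)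
      _ = x ^ (2 * Cw + D) := by rw [← pow_add]
  -- partial summation
  have hsum := block_sum p K hK N q H m₀ b β hq1 hb hH
  have hTH : T * H = ‖∑ m ∈ range H, ex ((b : ℝ) / q * ((m₀ + m : ℕ) : ℝ) + β * ((p.eval ((m₀ + m : ℕ) : ℤ) : ℤ) : ℝ))‖ := by
    rw [hT]
    unfold tv
    rw [norm_div, Complex.norm_natCast, div_mul_cancel₀ _ hH0.ne']
  rw [← hTH, hp] at hsum
  have hHN : (H : ℝ) ≤ N := by exact_mod_cast (by omega : H ≤ N)
  have hND : (H : ℝ) * (7 * (|β| * (K * (N : ℝ) ^ (D - 1)))) ≤ 7 * K * x ^ (2 * Cw + D) := by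
    have h1 : (H : ℝ) * (N : ℝ) ^ (D - 1) ≤ (N : ℝ) ^ D := by
      calc (H : ℝ) * (N : ℝ) ^ (D - 1) ≤ (N : ℝ) * (N : ℝ) ^ (D - 1) :=
            mul_le_mul_of_nonneg_right hHN (by positivity)
        _ = (N : ℝ) ^ D := by
            rw [← pow_succ']
            congr 1
            omega
    calc (H : ℝ) * (7 * (|β| * (K * (N : ℝ) ^ (D - 1)))) = 7 * K * (|β| * (H * (N : ℝ) ^ (D - 1))) := by ring
      _ ≤ 7 * K * (|β| * (N : ℝ) ^ D) := by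
          refine mul_le_mul_of_nonneg_left (mul_le_mul_of_nonneg_left h1 hβ0) (by positivity)
      _ ≤ 7 * K * x ^ (2 * Cw + D) := mul_le_mul_of_nonneg_left hβN (by positivity)
  have hm1 : 1 ≤ x ^ (2 * Cw + D) := one_le_pow₀ hx1
  have h5 : T * H ≤ x / 2 * (8 * K * x ^ (2 * Cw + D)) := by
    refine hsum.trans (mul_le_mul (by linarith) ?_ (by positivity) (by positivity))
    have : (1 : ℝ) ≤ K * x ^ (2 * Cw + D) := by nlinarith
    linarith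
  have h6 : x / 2 * (8 * K * x ^ (2 * Cw + D)) ≤ x ^ (2 * Cw + D + 2) := by
    have h7 : 4 * (K : ℝ) ≤ x := by linarith
    calc x / 2 * (8 * K * x ^ (2 * Cw + D)) = (4 * K) * (x * x ^ (2 * Cw + D)) := by ring
      _ ≤ x * (x * x ^ (2 * Cw + D)) := mul_le_mul_of_nonneg_right h7 (by positivity)
      _ = x ^ (2 * Cw + D + 2) := by ring
  have h8 : T * x * H ≤ 1 * H := by
    calc T * x * H = x * (T * H) := by ring
      _ ≤ x * x ^ (2 * Cw + D + 2) := mul_le_mul_of_nonneg_left (h5.trans h6) hx0.le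
      _ = x ^ (2 * Cw + D + 3) := by ring
      _ ≤ x ^ (C - 1) := pow_le_pow_right₀ hx1 (by omega)
      _ ≤ H := hxH
      _ = 1 * H := (one_mul _).symm
  have h9 := le_of_mul_le_mul_right h8 hH0
  linarith

lemma len_ge (N S b : ℕ) : N / S ≤ (b + 1) * N / S - b * N / S := by
  have h : b * N / S + N / S ≤ (b * N + N) / S := Nat.div_add_div_le_add_div
  have e : b * N + N = (b + 1) * N := by ring
  rw [e] at h
  omega

end WeyBAux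

open WeyBAux

theorem weyl_block (D : ℕ) (hD : 2 ≤ D) (p : ℤ[X]) (hp : p.natDegree = D) : ∃ C N₀ : ℕ, 1 ≤ C ∧ ∀ (N q H m₀ b : ℕ) (β : ℝ), N₀ ≤ N →
    1 ≤ q → q ^ C ≤ N → m₀ + H ≤ N → N ^ (C - 1) ≤ H ^ C → |β| ^ 2 * N ≤ 1 → ¬ q ∣ b →
    ‖tv H (fun m => ex ((b : ℝ) * ((m₀ + m : ℕ) : ℝ) / q + β * ((p.eval ((m₀ + m : ℕ) : ℤ) : ℤ) : ℝ)))‖ ^ C * N ≤ 1 := by
  obtain ⟨C, X₀, hC2, hX2, hcore⟩ := block_core D hD p hp
  refine ⟨C, X₀ ^ C, by omega, ?_⟩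
  intro N q H m₀ b β hN hq1 hqN hH hNH hβ hb
  have hC0 : C ≠ 0 := by omega
  set x : ℝ := (N : ℝ) ^ ((C : ℝ)⁻¹) with hx
  have hx0 : 0 ≤ x := Real.rpow_nonneg (Nat.cast_nonneg _) _
  have hxC : x ^ C = N := Real.rpow_inv_natCast_pow (Nat.cast_nonneg _) hC0
  have hXx : (X₀ : ℝ) ≤ x := by
    refine le_of_pow_le_pow_left₀ hC0 hx0 ?_
    rw [hxC]
    exact_mod_cast hN
  have hqx : (q : ℝ) ≤ x := by
    refine le_of_pow_le_pow_left₀ hC0 hx0 ?_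
    rw [hxC]
    exact_mod_cast hqN
  have hxH : x ^ (C - 1) ≤ H := by
    refine le_of_pow_le_pow_left₀ hC0 (Nat.cast_nonneg _) ?_
    rw [← pow_mul, mul_comm, pow_mul, hxC]
    exact_mod_cast hNH
  have h1 := hcore x N q H m₀ b β hXx hxC.symm hq1 hqx hH hxH (by rw [hxC]; exact hβ) hb
  have e : (fun m : ℕ => ex ((b : ℝ) * ((m₀ + m : ℕ) : ℝ) / q + β * ((p.eval ((m₀ + m : ℕ) : ℤ) : ℤ) : ℝ))) =
      fun m : ℕ => ex ((b : ℝ) / q * ((m₀ + m : ℕ) : ℝ) + β * ((p.eval ((m₀ + m : ℕ) : ℤ) : ℤ) : ℝ)) := by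
    funext m
    congr 2
    ring
  rw [e, ← hxC, ← mul_pow]
  exact pow_le_one₀ (mul_nonneg (norm_nonneg _) hx0) h1

theorem weyl_dec (D : ℕ) (hD : 2 ≤ D) (p : ℤ[X]) (hp : p.natDegree = D) (A₄ : ℕ) : ∃ A : ℕ, 1 ≤ A ∧
    ∀ (N lam b : ℕ) (β : ℝ), 2 ≤ lam → lam ^ A ≤ N → b < lam ^ A₄ → |β| * (lam : ℝ) ^ A ≤ 1 → (lam : ℝ) ^ A ≤ |β| * (N : ℝ) ^ D →
    ‖wm p (lam ^ A₄) b N β‖ ≤ 1 / lam := by
  obtain ⟨Cw, hCw⟩ := weyl_app D hD
  refine ⟨Cw + D * (A₄ + 1) + A₄ + 2 + 2 * p.leadingCoeff.natAbs, by omega, ?_⟩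
  intro N lam b β hlam hlN hb hβ1 hβ2
  set A := Cw + D * (A₄ + 1) + A₄ + 2 + 2 * p.leadingCoeff.natAbs with hA
  by_contra hcon
  push Not at hcon
  have hl1 : 1 ≤ lam := by omega
  have hl0 : (0 : ℝ) < lam := by exact_mod_cast hl1
  have hl1' : (1 : ℝ) ≤ lam := by exact_mod_cast hl1
  have hl2' : (2 : ℝ) ≤ lam := by exact_mod_cast hlam
  have hβ0 : 0 ≤ |β| := abs_nonneg _
  set S : ℕ := lam ^ A₄ with hS
  have hS0 : 0 < S := pow_pos hl1 _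
  set H : ℕ := (b + 1) * N / S - b * N / S with hHdef
  have hNS : N / S ≤ H := len_ge N S b
  have hdiv : lam ^ (A - A₄) ≤ N / S := by
    rw [Nat.le_div_iff_mul_le hS0, hS, ← pow_add]
    have e : A - A₄ + A₄ = A := by omega
    rw [e]
    exact hlN
  have hCH : lam ^ Cw ≤ H := by
    refine le_trans ?_ (hdiv.trans hNS)
    exact Nat.pow_le_pow_right hl1 (by omega)
  have hN2 : (N : ℝ) ≤ 2 * S * H := by
    have h1 : 1 ≤ N / S := (Nat.one_le_pow _ _ hl1).trans hdiv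
    have h2 : N < S * (N / S) + S := by
      have h3 := Nat.div_add_mod N S
      have h4 := Nat.mod_lt N hS0
      omega
    have h5 : N ≤ 2 * S * (N / S) := by nlinarith
    have h6 : N ≤ 2 * S * H := h5.trans (Nat.mul_le_mul_left _ hNS)
    exact_mod_cast h6
  have hwm : 1 / (lam : ℝ) ≤ ‖tv H (fun m => ex ((0 : ℝ) * ((b * N / S + m : ℕ) : ℝ) +
      β * ((p.eval ((b * N / S + m : ℕ) : ℤ) : ℤ) : ℝ)))‖ := by
    have e : (fun m : ℕ => ex ((0 : ℝ) * ((b * N / S + m : ℕ) : ℝ) +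
      β * ((p.eval ((b * N / S + m : ℕ) : ℤ) : ℤ) : ℝ))) =
        fun m : ℕ => ex (β * ((p.eval ((b * N / S + m : ℕ) : ℤ) : ℤ) : ℝ)) := by
      funext m
      rw [zero_mul, zero_add]
    rw [e]
    exact hcon.le
  have hℓ : |((p.leadingCoeff : ℤ) : ℝ)| = (p.leadingCoeff.natAbs : ℝ) := by
    rw [Nat.cast_natAbs, Int.cast_abs]
  have hsmall : |β| * ((lam : ℝ) ^ Cw * |((p.leadingCoeff : ℤ) : ℝ)|) ≤ 1 / 2 := by
    rw [hℓ]
    have h1 : 2 * (p.leadingCoeff.natAbs : ℝ) ≤ (lam : ℝ) ^ (2 * p.leadingCoeff.natAbs) := by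
      calc 2 * (p.leadingCoeff.natAbs : ℝ) = ((2 * p.leadingCoeff.natAbs : ℕ) : ℝ) := by push_cast; ring
        _ ≤ ((2 ^ (2 * p.leadingCoeff.natAbs) : ℕ) : ℝ) := by exact_mod_cast Nat.lt_two_pow_self.le
        _ ≤ (lam : ℝ) ^ (2 * p.leadingCoeff.natAbs) := by
            push_cast
            exact pow_le_pow_left₀ (by norm_num) hl2' _
    have h2 : (lam : ℝ) ^ Cw * (2 * (p.leadingCoeff.natAbs : ℝ)) ≤ (lam : ℝ) ^ A := by
      calc (lam : ℝ) ^ Cw * (2 * (p.leadingCoeff.natAbs : ℝ)) ≤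
          (lam : ℝ) ^ Cw * (lam : ℝ) ^ (2 * p.leadingCoeff.natAbs) :=
            mul_le_mul_of_nonneg_left h1 (by positivity)
        _ = (lam : ℝ) ^ (Cw + 2 * p.leadingCoeff.natAbs) := by rw [← pow_add]
        _ ≤ (lam : ℝ) ^ A := pow_le_pow_right₀ hl1' (by omega)
    have h3 := (mul_le_mul_of_nonneg_left h2 hβ0).trans hβ1
    have h4 : |β| * ((lam : ℝ) ^ Cw * (p.leadingCoeff.natAbs : ℝ)) =
        |β| * ((lam : ℝ) ^ Cw * (2 * (p.leadingCoeff.natAbs : ℝ))) / 2 := by ring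
    rw [h4]
    linarith
  have hweyl := hCw p hp H lam (b * N / S) 0 β hlam hCH hwm hsmall
  have hfin : |β| * (N : ℝ) ^ D ≤ (lam : ℝ) ^ (D * (A₄ + 1) + Cw) := by
    have h1 : (N : ℝ) ^ D ≤ (2 * S * H : ℝ) ^ D := pow_le_pow_left₀ (Nat.cast_nonneg _) hN2 D
    have h2 : (2 * (S : ℝ)) ≤ (lam : ℝ) ^ (A₄ + 1) := by
      rw [hS, pow_succ]
      push_cast
      have : (0 : ℝ) ≤ (lam : ℝ) ^ A₄ := by positivity
      nlinarith
    calc |β| * (N : ℝ) ^ D ≤ |β| * (2 * S * H : ℝ) ^ D := mul_le_mul_of_nonneg_left h1 hβ0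
      _ = (2 * (S : ℝ)) ^ D * (|β| * (H : ℝ) ^ D) := by
          rw [mul_pow]
          ring
      _ ≤ ((lam : ℝ) ^ (A₄ + 1)) ^ D * (lam : ℝ) ^ Cw := by
          refine mul_le_mul (pow_le_pow_left₀ (by positivity) h2 D) hweyl (by positivity)
            (by positivity)
      _ = (lam : ℝ) ^ (D * (A₄ + 1) + Cw) := by
          rw [← pow_mul, ← pow_add, mul_comm (A₄ + 1) D]
  have hlt : (lam : ℝ) ^ (D * (A₄ + 1) + Cw) < (lam : ℝ) ^ A :=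
    pow_lt_pow_right₀ (by linarith) (by omega)
  linarith

/-- The multiplier is close to one for small frequencies. -/
theorem wm_near (D : ℕ) (p : ℤ[X]) (hp : p.natDegree = D) : ∃ C : ℕ, 1 ≤ C ∧ ∀ (N S b : ℕ) (β : ℝ), 1 ≤ S → S ≤ N → b < S →
    ‖1 - wm p S b N β‖ ≤ C * (|β| * (N : ℝ) ^ D) ∧ ‖wm p S b N β‖ ≤ 1 := by
  obtain ⟨K, hK1, hK⟩ := poly_bd p
  refine ⟨7 * K, by omega, ?_⟩
  intro N S b β hS hSN hb
  refine ⟨?_, norm_tv_le_one _ _ fun _ => (norm_ex _).le⟩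
  have hN : 1 ≤ N := hS.trans hSN
  have hlen := len_ge N S b
  have hNS : 1 ≤ N / S := Nat.div_pos hSN hS
  set H : ℕ := (b + 1) * N / S - b * N / S with hHdef
  have hH1 : 1 ≤ H := hNS.trans hlen
  have hend : b * N / S + H ≤ N := by
    have h1 : (b + 1) * N / S ≤ N := by
      refine Nat.div_le_of_le_mul ?_
      exact Nat.mul_le_mul_right _ hb
    have h2 : b * N / S ≤ (b + 1) * N / S := Nat.div_le_div_right (Nat.mul_le_mul_right _ (by omega))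
    omega
  unfold wm
  rw [← hHdef]
  have h1 : (1 : ℂ) - tv H (fun m => ex (β * ((p.eval ((b * N / S + m : ℕ) : ℤ) : ℤ) : ℝ))) =
      tv H (fun m => 1 - ex (β * ((p.eval ((b * N / S + m : ℕ) : ℤ) : ℤ) : ℝ))) := by
    rw [tv_sub, tv_const H hH1]
  rw [h1]
  refine (norm_tv_le H _).trans (tvr_le H (by positivity) fun m hm => ?_)
  rw [norm_sub_rev]
  refine (norm_ex_sub_one_le _).trans ?_
  have h2 := hK N (b * N / S + m) hN (by omega)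
  rw [hp] at h2
  have h3 : nrm (β * ((p.eval ((b * N / S + m : ℕ) : ℤ) : ℤ) : ℝ)) ≤ |β| * (K * (N : ℝ) ^ D) := by
    refine (nrm_le_abs _).trans ?_
    rw [abs_mul]
    exact mul_le_mul_of_nonneg_left h2 (abs_nonneg _)
  push_cast
  calc 7 * nrm (β * ((p.eval ((b * N / S + m : ℕ) : ℤ) : ℤ) : ℝ)) ≤ 7 * (|β| * (K * (N : ℝ) ^ D)) :=
        mul_le_mul_of_nonneg_left h3 (by norm_num)
    _ = 7 * K * (|β| * (N : ℝ) ^ D) := by ring

end Pool.Agent.EQD
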