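import Pool.Agent.Lib.EQD.XTrans

/-!
# EQD.XAppr: approximation of the averages by averages of functions with a bounded modulus

PROOFS.
* `appr`: from `MidB` (with `ε / 2`; take `B = B₀`, `κ = κ₀`) and `LowB` (with this `B`, `κ`, `ε / 2`): `t₀`, `J₀` = maximum of the two (a choice with values in the smaller interval is
  a choice for the larger one), `M₀` = product; triangle inequality.
* `xappr`: `appr`, then `trans`, then monotone convergence in `J₁`: `⨆_{j ≥ J₀}` is the increasing limit of `⨆_{j ∈ Icc J₀ J₁}` (`lintegral_iSup`), so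
  `∫⁻ ⨆_{j ≥ J₀} ‖AX f - AX (EwX f)‖ₑ ≤ 2 ε`.
-/

set_option autoImplicit false

open Finset Polynomial MeasureTheory Filter Topology
open scoped ENNReal NNReal

namespace Pool.Agent.EQD.Lo

open Pool.Agent.HLT Pool.Agent.NLT Pool.Agent.NLG

namespace XApprAux

theorem avr_add_le {M : ℕ} [NeZero M] {f g h : ZMod M → ℝ} {a b : ℝ} (hfg : ∀ x, f x ≤ g x + h x)
    (hg : avr g ≤ a) (hh : avr h ≤ b) : avr f ≤ a + b := by
  have h1 : avr f ≤ avr g + avr h := by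
    unfold avr
    rw [← add_div, ← Finset.sum_add_distrib]
    exact div_le_div_of_nonneg_right (Finset.sum_le_sum fun x _ => hfg x) (Nat.cast_nonneg _)
  linarith

theorem meas_zpow {X : Type} [MeasurableSpace X] {T : Equiv.Perm X} (h1 : Measurable T)
    (h2 : Measurable T.symm) (m : ℤ) : Measurable fun x => (T ^ m) x := by
  have hn : ∀ (S : Equiv.Perm X), Measurable S → ∀ n : ℕ, Measurable fun x => (S ^ n) x := by
    intro S hS n
    induction n with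
    | zero => simpa using measurable_id'
    | succ n ih =>
      have : (fun x => (S ^ (n + 1)) x) = fun x => (S ^ n) (S x) := by
        funext x
        rw [pow_succ, Equiv.Perm.mul_apply]
      rw [this]
      exact ih.comp hS
  cases m with
  | ofNat n =>
    have : (fun x => (T ^ (Int.ofNat n)) x) = fun x => (T ^ n) x := by
      funext x
      rw [Int.ofNat_eq_natCast, zpow_natCast]
    rw [this]
    exact hn T h1 n
  | negSucc n =>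
    have : (fun x => (T ^ (Int.negSucc n)) x) = fun x => (T⁻¹ ^ (n + 1)) x := by
      funext x
      rw [zpow_negSucc, inv_pow]
    rw [this]
    exact hn T⁻¹ h2 (n + 1)

theorem meas_AX {X : Type} [MeasurableSpace X] {T : Equiv.Perm X} (h1 : Measurable T)
    (h2 : Measurable T.symm) {n : ℕ} (N : ℕ) (P : Fin n → ℤ[X]) {f : Fin n → X → ℂ}
    (hf : ∀ l, Measurable (f l)) : Measurable (AX T N P f) := by
  unfold AX tv
  refine Measurable.div_const (Finset.measurable_sum _ fun t _ => ?_) _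
  exact Finset.measurable_prod _ fun i _ => (hf i).comp (meas_zpow h1 h2 _)

theorem meas_EX {X : Type} [MeasurableSpace X] {T : Equiv.Perm X} (h1 : Measurable T)
    (h2 : Measurable T.symm) (q K : ℕ) {f : X → ℂ} (hf : Measurable f) : Measurable (EX T q K f) := by
  unfold EX tv
  exact Measurable.div_const (Finset.measurable_sum _ fun t _ => hf.comp (meas_zpow h1 h2 _)) _

theorem mono_lim {X : Type} [MeasurableSpace X] (μ : Measure X) (g : ℕ → X → ℝ≥0∞)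
    (hg : ∀ j, Measurable (g j)) (J₀ : ℕ) (C : ℝ≥0∞)
    (h : ∀ J₁ : ℕ, ∫⁻ x, (⨆ j ∈ Icc J₀ J₁, g j x) ∂μ ≤ C) :
    ∫⁻ x, (⨆ j : ℕ, ⨆ (_ : J₀ ≤ j), g j x) ∂μ ≤ C := by
  have e : ∀ x, (⨆ j : ℕ, ⨆ (_ : J₀ ≤ j), g j x) = ⨆ J₁ : ℕ, ⨆ j ∈ Icc J₀ J₁, g j x := fun x =>
    le_antisymm
      (iSup₂_le fun j hj => le_iSup_of_le j (le_iSup₂_of_le j (Finset.mem_Icc.2 ⟨hj, le_rfl⟩) le_rfl))
      (iSup_le fun J₁ => iSup₂_le fun j hj => le_iSup₂_of_le j (Finset.mem_Icc.1 hj).1 le_rfl)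
  simp_rw [e]
  rw [lintegral_iSup]
  · exact iSup_le h
  · exact fun J₁ => Measurable.iSup fun j => Measurable.iSup_Prop _ (hg j)
  · intro J₁ J₂ hJ x
    exact biSup_mono fun j hj => Finset.Icc_subset_Icc le_rfl hJ hj

end XApprAux

open XApprAux

theorem appr {n : ℕ} {P : Fin n → ℤ[X]} {e : Fin n → ℕ} (hM : MidB P e) (hL : LowB P e) (ε : ℝ) (hε : 0 < ε) :
    ∃ B κ t₀ J₀ : ℕ, 1 ≤ B ∧ ∀ J₁ : ℕ, ∃ M₀ : ℕ, 1 ≤ M₀ ∧ ∀ (M : ℕ) [NeZero M], M₀ ∣ M → ∀ N : ℕ → ℕ, Sc N →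
      ∀ f : Fin n → ZMod M → ℂ, (∀ l, Bd (f l)) → ∀ c : ZMod M → ℕ, Ch J₀ J₁ c →
      avr (fun x => ‖AA (N (c x)) P f x -
        AA (N (c x)) P (fun l => Ew B t₀ (tj (c x)) (N (c x) ^ e l / 2 ^ κ) (f l)) x‖) ≤ ε := by
  obtain ⟨B, hB, hM⟩ := hM
  obtain ⟨κ, hM⟩ := hM B le_rfl (ε / 2) (half_pos hε)
  obtain ⟨Ja, hM⟩ := hM κ le_rfl
  obtain ⟨t₀, Jb, -, hL⟩ := hL B hB κ (ε / 2) (half_pos hε)
  refine ⟨B, κ, t₀, max Ja Jb, hB, fun J₁ => ?_⟩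
  obtain ⟨Ma, ha, hM⟩ := hM J₁
  obtain ⟨Mb, hb, hL⟩ := hL J₁
  refine ⟨Ma * Mb, Nat.mul_pos ha hb, ?_⟩
  intro M _ hdvd N hN f hf c hc
  have h1 := hM M ((Dvd.intro _ rfl).trans hdvd) N hN f hf c
    fun x => ⟨(le_max_left _ _).trans (hc x).1, (hc x).2⟩
  have h2 := hL M ((Dvd.intro_left _ rfl).trans hdvd) N hN f hf c
    fun x => ⟨(le_max_right _ _).trans (hc x).1, (hc x).2⟩
  have h3 := avr_add_le (fun x => norm_sub_le_norm_sub_add_norm_sub _ _ _) h1 h2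
  rwa [add_halves] at h3

theorem xappr {n : ℕ} {P : Fin n → ℤ[X]} {e : Fin n → ℕ} (hM : MidB P e) (hL : LowB P e) (ε : ℝ) (hε : 0 < ε) :
    ∃ B κ t₀ J₀ : ℕ, 1 ≤ B ∧ ∀ (X : Type) [MeasurableSpace X] (μ : Measure X) [IsProbabilityMeasure μ]
      (T : Equiv.Perm X), IMP μ T → ∀ f : Fin n → X → ℂ, (∀ l, Measurable (f l)) → (∀ l x, ‖f l x‖ ≤ 1) →
      ∀ N : ℕ → ℕ, Sc N →
      ∫⁻ x, (⨆ j : ℕ, ⨆ (_ : J₀ ≤ j), ‖AX T (N j) P f x -
        AX T (N j) P (fun l => EwX T B t₀ (tj j) (N j ^ e l / 2 ^ κ) (f l)) x‖ₑ) ∂μ ≤ ENNReal.ofReal (2 * ε) := by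
  obtain ⟨B, κ, t₀, J₀, hB, H⟩ := appr hM hL ε hε
  refine ⟨B, κ, t₀, J₀, hB, ?_⟩
  intro X _ μ _ T hT f hfm hf N hN
  have hfin : ∀ J₁ : ℕ, ∫⁻ x, (⨆ j ∈ Icc J₀ J₁, ‖AX T (N j) P f x -
      AX T (N j) P (fun l => EwX T B t₀ (tj j) (N j ^ e l / 2 ^ κ) (f l)) x‖ₑ) ∂μ ≤
      ENNReal.ofReal (2 * ε) := by
    intro J₁
    refine trans P e B t₀ κ J₀ J₁ N ε hε.le ?_ X μ T hT f hfm hf
    obtain ⟨M₀, h0, H⟩ := H J₁
    refine ⟨M₀, h0, ?_⟩
    intro M _ hd f hf c hc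
    exact H M hd N hN f hf c hc
  have hmeas : ∀ j, Measurable fun x => ‖AX T (N j) P f x -
      AX T (N j) P (fun l => EwX T B t₀ (tj j) (N j ^ e l / 2 ^ κ) (f l)) x‖ₑ := by
    intro j
    exact ((meas_AX hT.1 hT.2.1 _ P hfm).sub (meas_AX hT.1 hT.2.1 _ P fun l =>
      meas_EX hT.1 hT.2.1 _ _ (hfm l))).enorm
  exact mono_lim μ (fun (j : ℕ) (x : X) => ‖AX T (N j) P f x -
    AX T (N j) P (fun l => EwX T B t₀ (tj j) (N j ^ e l / 2 ^ κ) (f l)) x‖ₑ) hmeas J₀ _ hfin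

end Pool.Agent.EQD.Lo
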