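import Pool.Agent.Lib.EQD.XAppr
import Pool.Agent.Lib.EQD.XLim

/-!
# EQD.XScale: convergence along scale sequences

PROOFS.
* `xscale` (convergence along `N j`): for `m : ℕ` use `xappr` with `ε = 4 ^ (-m)`: parameters `B_m, κ_m, t_m, J_m` and `Θ_m x = ⨆_{j ≥ J_m} ‖..‖ₑ`, `∫⁻ Θ_m ≤ 2 * 4 ^ (-m)`, so
  `∫⁻ ∑_m Θ_m < ∞` and `Θ_m x → 0` for a.e. `x`. For a.e. `x` also all the sequences `j ↦ AX T (N j) P (EwX (m) f) x` converge (`xlim`), so
  `limsup_{j, j'} ‖AX (N j) f x - AX (N j') f x‖ ≤ 2 Θ_m x` for all `m`: the sequence is Cauchy (`cauchySeq_tendsto_of_complete`).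
* `xscale_erg`: `g_m` = the functions of `xlim_g` for the parameters `B_m, t_m, κ_m`, `Q = QB B_m t_m`. They are `T ^ Q`-invariant a.e. and `T ^ Q` is ergodic, so they are constant a.e., and the
  constant is `∫ g l = ∫ f l` (dominated convergence: all `EX T Q K (f l)`, `K ≥ 1`, have the same integral as `f l`). Hence for a.e. `x` (all points `T ^ m x`, `m : ℤ`) `AX T N P g_m x = ∏ l, ∫ f l` for
  all `N ≥ 1`. So `limsup_j ‖AX T (N j) P f x - ∏ ∫ f l‖ ≤ Θ_m x` for all `m`.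
-/

set_option autoImplicit false

open Finset Polynomial MeasureTheory Filter Topology
open scoped ENNReal NNReal

namespace Pool.Agent.EQD.Lo

open Pool.Agent.HLT Pool.Agent.NLT Pool.Agent.NLG

namespace XScaleAux

open Pool.Agent.EQD.Lo

lemma mp_zpow {X : Type} [MeasurableSpace X] {μ : Measure X} {T : Equiv.Perm X} (hT : IMP μ T) (k : ℤ) :
    MeasurePreserving (⇑(T ^ k)) μ μ := by
  have hs : MeasurePreserving (⇑(T⁻¹)) μ μ := by
    let E : X ≃ᵐ X := ⟨T, hT.1, hT.2.1⟩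
    exact MeasurePreserving.symm E hT.2.2
  induction k using Int.induction_on with
  | zero =>
    rw [zpow_zero]
    exact MeasurePreserving.id μ
  | succ k ih =>
    rw [zpow_add_one, Equiv.Perm.coe_mul]
    exact ih.comp hT.2.2
  | pred k ih =>
    rw [zpow_sub_one, Equiv.Perm.coe_mul]
    exact ih.comp hs

lemma AX_meas {X : Type} [MeasurableSpace X] {μ : Measure X} {T : Equiv.Perm X} (hT : IMP μ T) {n : ℕ}
    (N : ℕ) (P : Fin n → ℤ[X]) (f : Fin n → X → ℂ) (hf : ∀ l, Measurable (f l)) : Measurable (AX T N P f) := by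
  unfold AX tv
  refine Measurable.div_const (Finset.measurable_fun_sum _ (fun t _ => Finset.measurable_fun_prod _ (fun l _ => ?_))) _
  exact (hf l).comp (mp_zpow hT _).measurable

lemma EX_meas {X : Type} [MeasurableSpace X] {μ : Measure X} {T : Equiv.Perm X} (hT : IMP μ T)
    (q K : ℕ) (f : X → ℂ) (hf : Measurable f) : Measurable (EX T q K f) := by
  unfold EX tv
  refine Measurable.div_const (Finset.measurable_fun_sum _ (fun t _ => ?_)) _
  exact hf.comp (mp_zpow hT _).measurable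

lemma EwX_meas {X : Type} [MeasurableSpace X] {μ : Measure X} {T : Equiv.Perm X} (hT : IMP μ T)
    (B t T' lam : ℕ) (f : X → ℂ) (hf : Measurable f) : Measurable (EwX T B t T' lam f) :=
  EX_meas hT _ _ f hf

lemma exists_small (Θ : ℕ → ℝ≥0∞) (hΘ : Tendsto Θ atTop (𝓝 0)) (ε : ℝ) (hε : 0 < ε) :
    ∃ m, ∀ z : ℂ, ‖z‖ₑ ≤ Θ m → ‖z‖ < ε := by
  have h1 : ∀ᶠ m in atTop, Θ m < ENNReal.ofReal ε :=
    hΘ.eventually_lt_const (ENNReal.ofReal_pos.mpr hε)
  obtain ⟨m, hm⟩ := h1.exists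
  refine ⟨m, fun z hz => ?_⟩
  have h2 := lt_of_le_of_lt hz hm
  rw [← ofReal_norm] at h2
  exact (ENNReal.ofReal_lt_ofReal_iff hε).mp h2

lemma appr_seq (A : ℕ → ℂ) (Bm : ℕ → ℕ → ℂ) (J : ℕ → ℕ) (Θ : ℕ → ℝ≥0∞) (hΘ : Tendsto Θ atTop (𝓝 0))
    (hA : ∀ m j, J m ≤ j → ‖A j - Bm m j‖ₑ ≤ Θ m) (hB : ∀ m, ∃ L, Tendsto (Bm m) atTop (𝓝 L)) :
    ∃ L, Tendsto A atTop (𝓝 L) := by
  refine cauchySeq_tendsto_of_complete (Metric.cauchySeq_iff.mpr fun ε hε => ?_)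
  obtain ⟨m, hm⟩ := exists_small Θ hΘ (ε / 4) (by positivity)
  obtain ⟨L, hL⟩ := hB m
  obtain ⟨N₁, hN₁⟩ := Metric.cauchySeq_iff.mp hL.cauchySeq (ε / 4) (by positivity)
  refine ⟨max N₁ (J m), fun a ha b hb => ?_⟩
  have h1 := hm _ (hA m a ((le_max_right _ _).trans ha))
  have h2 := hm _ (hA m b ((le_max_right _ _).trans hb))
  have h3 := hN₁ a ((le_max_left _ _).trans ha) b ((le_max_left _ _).trans hb)
  rw [dist_eq_norm] at h3 ⊢
  have e : A a - A b = (A a - Bm m a) + (Bm m a - Bm m b) - (A b - Bm m b) := by ring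
  rw [e]
  refine lt_of_le_of_lt (norm_sub_le _ _) ?_
  have := norm_add_le (A a - Bm m a) (Bm m a - Bm m b)
  linarith

lemma appr_lim (A : ℕ → ℂ) (Bm : ℕ → ℕ → ℂ) (J : ℕ → ℕ) (Θ : ℕ → ℝ≥0∞) (hΘ : Tendsto Θ atTop (𝓝 0))
    (hA : ∀ m j, J m ≤ j → ‖A j - Bm m j‖ₑ ≤ Θ m) (L : ℂ) (hB : ∀ m, Tendsto (Bm m) atTop (𝓝 L)) :
    Tendsto A atTop (𝓝 L) := by
  rw [Metric.tendsto_atTop]
  intro ε hε
  obtain ⟨m, hm⟩ := exists_small Θ hΘ (ε / 4) (by positivity)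
  obtain ⟨N₁, hN₁⟩ := Metric.tendsto_atTop.mp (hB m) (ε / 4) (by positivity)
  refine ⟨max N₁ (J m), fun a ha => ?_⟩
  have h1 := hm _ (hA m a ((le_max_right _ _).trans ha))
  have h3 := hN₁ a ((le_max_left _ _).trans ha)
  rw [dist_eq_norm] at h3 ⊢
  have e : A a - L = (A a - Bm m a) + (Bm m a - L) := by ring
  rw [e]
  refine lt_of_le_of_lt (norm_add_le _ _) ?_
  linarith

lemma theta_tendsto {X : Type} [MeasurableSpace X] {μ : Measure X} (Θ : ℕ → X → ℝ≥0∞)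
    (hm : ∀ m, Measurable (Θ m)) (h : ∀ m, ∫⁻ x, Θ m x ∂μ ≤ ENNReal.ofReal (2 * (1 / 4) ^ m)) :
    ∀ᵐ x ∂μ, Tendsto (fun m => Θ m x) atTop (𝓝 0) := by
  have h1 : ∫⁻ x, ∑' m, Θ m x ∂μ ≠ ∞ := by
    rw [lintegral_tsum (fun m => (hm m).aemeasurable)]
    have h2 : Summable (fun m : ℕ => (2 : ℝ) * (1 / 4) ^ m) :=
      (summable_geometric_of_lt_one (by norm_num) (by norm_num)).mul_left 2
    have h3 : ∑' m : ℕ, ENNReal.ofReal (2 * (1 / 4) ^ m) ≠ ∞ := by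
      rw [← ENNReal.ofReal_tsum_of_nonneg (fun m => by positivity) h2]
      exact ENNReal.ofReal_ne_top
    exact ne_top_of_le_ne_top h3 (ENNReal.tsum_le_tsum h)
  have h4 := ae_lt_top (Measurable.ennreal_tsum hm) h1
  filter_upwards [h4] with x hx
  exact ENNReal.tendsto_atTop_zero_of_tsum_ne_top hx.ne

lemma EX_int {X : Type} [MeasurableSpace X] {μ : Measure X} [IsProbabilityMeasure μ] {T : Equiv.Perm X}
    (hT : IMP μ T) (q K : ℕ) (hK : 1 ≤ K) (f : X → ℂ) (hfm : Measurable f) (hf : ∀ x, ‖f x‖ ≤ 1) :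
    ∫ x, EX T q K f x ∂μ = ∫ x, f x ∂μ := by
  unfold EX tv
  rw [integral_div, integral_finset_sum]
  · have h1 : ∀ k : ℤ, ∫ x, f ((T ^ k) x) ∂μ = ∫ x, f x ∂μ := by
      intro k
      have h2 := mp_zpow hT k
      have h3 := integral_map (μ := μ) h2.measurable.aemeasurable (f := f) hfm.aestronglyMeasurable
      rw [h2.map_eq] at h3
      exact h3.symm
    simp only [h1]
    rw [sum_const, card_range, nsmul_eq_mul]
    have : (K : ℂ) ≠ 0 := by
      have : K ≠ 0 := by omega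
      exact_mod_cast this
    field_simp
  · intro i _
    refine Integrable.of_bound (C := 1) ?_ (ae_of_all _ fun x => hf _)
    exact (hfm.comp (mp_zpow hT _).measurable).aestronglyMeasurable

end XScaleAux

open XScaleAux

theorem xscale {n : ℕ} {P : Fin n → ℤ[X]} {e : Fin n → ℕ} (he : ∀ l, 1 ≤ e l) (hM : MidB P e) (hL : LowB P e)
    (X : Type) [MeasurableSpace X] (μ : Measure X) [IsProbabilityMeasure μ] (T : Equiv.Perm X) (hT : IMP μ T)
    (f : Fin n → X → ℂ) (hfm : ∀ l, Measurable (f l)) (hf : ∀ l x, ‖f l x‖ ≤ 1) (N : ℕ → ℕ) (hN : Sc N) :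
    ∀ᵐ x ∂μ, ∃ L : ℂ, Tendsto (fun j : ℕ => AX T (N j) P f x) atTop (𝓝 L) := by
  choose B κ t₀ J₀ hB hx using fun m : ℕ => xappr hM hL ((1 / 4 : ℝ) ^ m) (by positivity)
  have h1 : ∀ᵐ x ∂μ, Tendsto (fun m => ⨆ j : ℕ, ⨆ (_ : J₀ m ≤ j), ‖AX T (N j) P f x -
        AX T (N j) P (fun l => EwX T (B m) (t₀ m) (tj j) (N j ^ e l / 2 ^ (κ m)) (f l)) x‖ₑ) atTop (𝓝 0) := by
    refine theta_tendsto _ (fun m => ?_) (fun m => hx m X μ T hT f hfm hf N hN)
    refine Measurable.iSup (fun j => Measurable.iSup (fun _ => Measurable.enorm (Measurable.sub ?_ ?_)))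
    · exact AX_meas hT _ P f hfm
    · exact AX_meas hT _ P _ (fun l => EwX_meas hT _ _ _ _ _ (hfm l))
  have h2 : ∀ᵐ x ∂μ, ∀ m, ∃ L : ℂ, Tendsto (fun j : ℕ =>
      AX T (N j) P (fun l => EwX T (B m) (t₀ m) (tj j) (N j ^ e l / 2 ^ (κ m)) (f l)) x) atTop (𝓝 L) :=
    ae_all_iff.mpr (fun m => xlim T hT P e he (B m) (t₀ m) (κ m) N hN f hfm hf)
  filter_upwards [h1, h2] with x hx1 hx2
  refine appr_seq _ _ J₀ _ hx1 (fun m j hj => ?_) hx2
  exact le_iSup₂_of_le (f := fun (j : ℕ) (_ : J₀ m ≤ j) => ‖AX T (N j) P f x -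
        AX T (N j) P (fun l => EwX T (B m) (t₀ m) (tj j) (N j ^ e l / 2 ^ (κ m)) (f l)) x‖ₑ) j hj le_rfl

/-- For a totally ergodic map the limit is the product of the integrals. -/
theorem xscale_erg {n : ℕ} {P : Fin n → ℤ[X]} {e : Fin n → ℕ} (he : ∀ l, 1 ≤ e l) (hM : MidB P e) (hL : LowB P e)
    (X : Type) [MeasurableSpace X] (μ : Measure X) [IsProbabilityMeasure μ] (T : Equiv.Perm X) (hT : IMP μ T)
    (hE : ∀ q : ℕ, 1 ≤ q → Ergodic (T ^ q : Equiv.Perm X) μ)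
    (f : Fin n → X → ℂ) (hfm : ∀ l, Measurable (f l)) (hf : ∀ l x, ‖f l x‖ ≤ 1) (N : ℕ → ℕ) (hN : Sc N) :
    ∀ᵐ x ∂μ, Tendsto (fun j : ℕ => AX T (N j) P f x) atTop (𝓝 (∏ l, ∫ y, f l y ∂μ)) := by
  choose B κ t₀ J₀ hB hx using fun m : ℕ => xappr hM hL ((1 / 4 : ℝ) ^ m) (by positivity)
  have h1 : ∀ᵐ x ∂μ, Tendsto (fun m => ⨆ j : ℕ, ⨆ (_ : J₀ m ≤ j), ‖AX T (N j) P f x -
        AX T (N j) P (fun l => EwX T (B m) (t₀ m) (tj j) (N j ^ e l / 2 ^ (κ m)) (f l)) x‖ₑ) atTop (𝓝 0) := by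
    refine theta_tendsto _ (fun m => ?_) (fun m => hx m X μ T hT f hfm hf N hN)
    refine Measurable.iSup (fun j => Measurable.iSup (fun _ => Measurable.enorm (Measurable.sub ?_ ?_)))
    · exact AX_meas hT _ P f hfm
    · exact AX_meas hT _ P _ (fun l => EwX_meas hT _ _ _ _ _ (hfm l))
  have h2 : ∀ᵐ x ∂μ, ∀ m, Tendsto (fun j : ℕ =>
      AX T (N j) P (fun l => EwX T (B m) (t₀ m) (tj j) (N j ^ e l / 2 ^ (κ m)) (f l)) x) atTop
      (𝓝 (∏ l, ∫ y, f l y ∂μ)) := by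
    refine ae_all_iff.mpr (fun m => ?_)
    obtain ⟨g, hgm, hg1, hg3, hg4, hg5, -⟩ := xlim_g T hT P e he (B m) (t₀ m) (κ m) N hN f hfm hf
    have hQ : 1 ≤ QB (B m) (t₀ m) := Nat.pos_of_ne_zero (pow_ne_zero _ (Nat.factorial_ne_zero _))
    have hc : ∀ l, g l =ᵐ[μ] Function.const X (∫ y, f l y ∂μ) := by
      intro l
      have h3 : g l ∘ ⇑(T ^ QB (B m) (t₀ m) : Equiv.Perm X) =ᵐ[μ] g l := by
        filter_upwards [hg4 l] with x hx
        rw [zpow_natCast] at hx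
        exact hx
      obtain ⟨c, hc⟩ := (hE _ hQ).quasiErgodic.ae_eq_const_of_ae_eq_comp_ae (hgm l).aestronglyMeasurable h3
      have h4 : ∫ y, g l y ∂μ = c := by
        rw [integral_congr_ae hc]
        simp
      have h5 : Tendsto (fun K : ℕ => ∫ x, EX T (QB (B m) (t₀ m)) K (f l) x ∂μ) atTop (𝓝 (∫ y, g l y ∂μ)) := by
        refine tendsto_integral_of_dominated_convergence (fun _ => (1 : ℝ)) (fun K => ?_)
          (integrable_const _) (fun K => ae_of_all _ fun x => ?_) (hg3 l)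
        · exact (EX_meas hT _ _ _ (hfm l)).aestronglyMeasurable
        · exact norm_tv_le_one K _ (fun t => hf l _)
      have h6 : Tendsto (fun K : ℕ => ∫ x, EX T (QB (B m) (t₀ m)) K (f l) x ∂μ) atTop (𝓝 (∫ y, f l y ∂μ)) := by
        refine tendsto_const_nhds.congr' ?_
        filter_upwards [eventually_ge_atTop 1] with K hK
        exact (EX_int hT _ K hK (f l) (hfm l) (hf l)).symm
      have h7 : c = ∫ y, f l y ∂μ := by
        rw [← h4]
        exact tendsto_nhds_unique h5 h6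
      rw [← h7]
      exact hc
    have hall : ∀ᵐ x ∂μ, ∀ l, ∀ k : ℤ, g l ((T ^ k) x) = ∫ y, f l y ∂μ := by
      refine ae_all_iff.mpr (fun l => ae_all_iff.mpr (fun k => ?_))
      exact (mp_zpow hT k).quasiMeasurePreserving.ae (hc l)
    filter_upwards [hall, hg5] with x hx1 hx2
    have h8 : ∀ j, AX T (N j) P g x = ∏ l, ∫ y, f l y ∂μ := by
      intro j
      unfold AX
      simp only [hx1]
      refine tv_const _ ?_ _
      have h9 := (hN j).1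
      have h10 : 0 < 2 ^ j := by positivity
      omega
    have h9 := hx2.add_const (∏ l, ∫ y, f l y ∂μ)
    rw [zero_add] at h9
    refine h9.congr (fun j => ?_)
    rw [h8 j]
    ring
  filter_upwards [h1, h2] with x hx1 hx2
  refine appr_lim _ _ J₀ _ hx1 (fun m j hj => ?_) _ hx2
  exact le_iSup₂_of_le (f := fun (j : ℕ) (_ : J₀ m ≤ j) => ‖AX T (N j) P f x -
        AX T (N j) P (fun l => EwX T (B m) (t₀ m) (tj j) (N j ^ e l / 2 ^ (κ m)) (f l)) x‖ₑ) j hj le_rfl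

end Pool.Agent.EQD.Lo
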