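import Pool.Agent.Lib.EQD.One

/-!
# EQD.XTrans: transference from `ZMod M` to dynamical systems

PROOF of `trans`. We may assume `J₀ ≤ J₁` (otherwise the supremum is over the empty set). Let `D j f x` be the difference in `H` on `ZMod M` and `DX j f x` the same on `X`.
Both are given by the same formula in the values of the `f l` at the points `x + v`, `v ∈ ℤ`, `|v| ≤ Y` for all `j ∈ [J₀, J₁]`, where `Y` is a bound for
`|P l t| + QB B t₀ * K` (`t < N j`, `K` the length of the average `Ew`). Choose `M` divisible by `M₀` with `M ≥ 4 Y + 4`. For `x : X` let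
`F l z = f l (T ^ (z.val) x)`, `z : ZMod M` (bounded by one). For `Y ≤ k < M - Y` and `j ∈ [J₀, J₁]`: `DX j f (T ^ k x) = D j F (k : ZMod M)`
(`(k : ZMod M) + v` has `val = k + v` for `|v| ≤ Y`; the points visited from `k` are `k + P l t + q h`). Let `Θ x = max_j ‖DX j f x‖` (`⨆` over `Icc J₀ J₁`), a measurable function
(finite maximum of measurable functions; `T ^ m` is measurable for all `m : ℤ`). By `H` with `c z` = a `j` maximising `‖D j F z‖`: `avr_z max_j ‖D j F z‖ ≤ ε` for every `x`. Hence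
`∑_{Y ≤ k < M-Y} Θ (T ^ k x) ≤ M ε`. Integrate over `x` (`T ^ k` preserves `μ`): `(M - 2Y) ∫ Θ ≤ M ε`, and `M / (M - 2 Y) ≤ 2`.
-/

set_option autoImplicit false

open Finset Polynomial MeasureTheory Filter Topology
open scoped ENNReal NNReal

namespace Pool.Agent.EQD.Lo

open Pool.Agent.HLT Pool.Agent.NLT Pool.Agent.NLG

namespace XTransAux

/-- length of the average -/
def KK (B t₀ κ : ℕ) (N : ℕ → ℕ) {n : ℕ} (e : Fin n → ℕ) (j : ℕ) (l : Fin n) : ℕ :=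
  N j ^ e l / 2 ^ κ / QB B (tj j) * (QB B (tj j) / QB B t₀)

/-- bound for the visited points -/
def YY {n : ℕ} (P : Fin n → ℤ[X]) (e : Fin n → ℕ) (B t₀ κ J₀ J₁ : ℕ) (N : ℕ → ℕ) : ℕ :=
  ∑ j ∈ Icc J₀ J₁, ∑ l : Fin n, (∑ t ∈ range (N j), ((P l).eval (t : ℤ)).natAbs +
    QB B t₀ * KK B t₀ κ N e j l)

lemma YY_le {n : ℕ} (P : Fin n → ℤ[X]) (e : Fin n → ℕ) (B t₀ κ J₀ J₁ : ℕ) (N : ℕ → ℕ) {j : ℕ}
    (hj : j ∈ Icc J₀ J₁) (l : Fin n) {t : ℕ} (ht : t < N j) :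
    ((P l).eval (t : ℤ)).natAbs + QB B t₀ * KK B t₀ κ N e j l ≤ YY P e B t₀ κ J₀ J₁ N := by
  have h1 : ((P l).eval (t : ℤ)).natAbs ≤ ∑ t ∈ range (N j), ((P l).eval (t : ℤ)).natAbs :=
    Finset.single_le_sum (f := fun t : ℕ => ((P l).eval (t : ℤ)).natAbs) (fun _ _ => Nat.zero_le _)
      (mem_range.2 ht)
  have h2 : (∑ t ∈ range (N j), ((P l).eval (t : ℤ)).natAbs + QB B t₀ * KK B t₀ κ N e j l) ≤
      ∑ l : Fin n, (∑ t ∈ range (N j), ((P l).eval (t : ℤ)).natAbs + QB B t₀ * KK B t₀ κ N e j l) :=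
    Finset.single_le_sum (f := fun l : Fin n => (∑ t ∈ range (N j), ((P l).eval (t : ℤ)).natAbs +
      QB B t₀ * KK B t₀ κ N e j l)) (fun _ _ => Nat.zero_le _) (mem_univ l)
  have h3 : (∑ l : Fin n, (∑ t ∈ range (N j), ((P l).eval (t : ℤ)).natAbs +
      QB B t₀ * KK B t₀ κ N e j l)) ≤ YY P e B t₀ κ J₀ J₁ N :=
    Finset.single_le_sum (f := fun j : ℕ => ∑ l : Fin n, (∑ t ∈ range (N j),
      ((P l).eval (t : ℤ)).natAbs + QB B t₀ * KK B t₀ κ N e j l)) (fun _ _ => Nat.zero_le _) hj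
  omega

lemma val_cast {M Y k : ℕ} [NeZero M] (hk1 : Y ≤ k) (hk2 : k < M - Y) {v : ℤ} (hv : v.natAbs ≤ Y) :
    (((k : ZMod M) + ((v : ℤ) : ZMod M)).val : ℤ) = (k : ℤ) + v := by
  have h1 : ((k : ZMod M) + ((v : ℤ) : ZMod M)) = (((k : ℤ) + v : ℤ) : ZMod M) := by
    push_cast
    ring
  rw [h1, ZMod.val_intCast]
  apply Int.emod_eq_of_lt
  · omega
  · omega

/-- the function on the cyclic group -/
noncomputable def FF {X : Type} (T : Equiv.Perm X) (M : ℕ) (g : X → ℂ) (x : X) (z : ZMod M) : ℂ :=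
  g ((T ^ ((z.val : ℕ) : ℤ)) x)

lemma FF_apply {X : Type} (T : Equiv.Perm X) {M Y k : ℕ} [NeZero M] (g : X → ℂ) (x : X)
    (hk1 : Y ≤ k) (hk2 : k < M - Y) {v : ℤ} (hv : v.natAbs ≤ Y) :
    FF T M g x ((k : ZMod M) + ((v : ℤ) : ZMod M)) = g ((T ^ v) ((T ^ (k : ℤ)) x)) := by
  unfold FF
  rw [val_cast hk1 hk2 hv, add_comm, zpow_add]
  rfl

lemma Ew_eq {X : Type} (T : Equiv.Perm X) {M Y k : ℕ} [NeZero M] (g : X → ℂ) (x : X)
    (hk1 : Y ≤ k) (hk2 : k < M - Y) {v : ℤ} {B t₀ t' lam : ℕ}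
    (hv : v.natAbs + QB B t₀ * (lam / QB B t' * (QB B t' / QB B t₀)) ≤ Y) :
    Ew B t₀ t' lam (FF T M g x) ((k : ZMod M) + ((v : ℤ) : ZMod M)) =
      EwX T B t₀ t' lam g ((T ^ v) ((T ^ (k : ℤ)) x)) := by
  unfold Ew EwX Eb EX tv
  refine congrArg (fun z : ℂ => z / ((lam / QB B t' * (QB B t' / QB B t₀) : ℕ) : ℂ)) ?_
  refine Finset.sum_congr rfl fun h hh => ?_
  have hh' : h < lam / QB B t' * (QB B t' / QB B t₀) := mem_range.1 hh
  have h2 : QB B t₀ * h ≤ QB B t₀ * (lam / QB B t' * (QB B t' / QB B t₀)) :=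
    Nat.mul_le_mul_left _ hh'.le
  have h3 : (v + ((QB B t₀ * h : ℕ) : ℤ)).natAbs ≤ Y := by
    have h4 := Int.natAbs_add_le v ((QB B t₀ * h : ℕ) : ℤ)
    rw [Int.natAbs_natCast] at h4
    omega
  have h5 := FF_apply T g x hk1 hk2 h3
  have h6 : (k : ZMod M) + ((v : ℤ) : ZMod M) + ((QB B t₀ * h : ℕ) : ZMod M) =
      (k : ZMod M) + ((v + ((QB B t₀ * h : ℕ) : ℤ) : ℤ) : ZMod M) := by
    push_cast
    ring
  show FF T M g x ((k : ZMod M) + ((v : ℤ) : ZMod M) + ((QB B t₀ * h : ℕ) : ZMod M)) =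
    g ((T ^ (((QB B t₀ * h : ℕ) : ℤ))) ((T ^ v) ((T ^ (k : ℤ)) x)))
  rw [h6, h5, add_comm v, zpow_add]
  rfl

/-- the difference on the cyclic group -/
noncomputable def DD {n : ℕ} (P : Fin n → ℤ[X]) (e : Fin n → ℕ) (B t₀ κ : ℕ) (N : ℕ → ℕ) {M : ℕ}
    [NeZero M] (F : Fin n → ZMod M → ℂ) (j : ℕ) (z : ZMod M) : ℂ :=
  AA (N j) P F z - AA (N j) P (fun l => Ew B t₀ (tj j) (N j ^ e l / 2 ^ κ) (F l)) z

/-- the difference on the dynamical system -/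
noncomputable def DX {n : ℕ} (P : Fin n → ℤ[X]) (e : Fin n → ℕ) (B t₀ κ : ℕ) (N : ℕ → ℕ) {X : Type}
    (T : Equiv.Perm X) (f : Fin n → X → ℂ) (j : ℕ) (x : X) : ℂ :=
  AX T (N j) P f x - AX T (N j) P (fun l => EwX T B t₀ (tj j) (N j ^ e l / 2 ^ κ) (f l)) x

lemma DD_eq {n : ℕ} (P : Fin n → ℤ[X]) (e : Fin n → ℕ) (B t₀ κ J₀ J₁ : ℕ) (N : ℕ → ℕ) {M : ℕ}
    [NeZero M] {X : Type} (T : Equiv.Perm X) (f : Fin n → X → ℂ) (x : X) {j k : ℕ}
    (hj : j ∈ Icc J₀ J₁) (hk1 : YY P e B t₀ κ J₀ J₁ N ≤ k) (hk2 : k < M - YY P e B t₀ κ J₀ J₁ N) :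
    DD P e B t₀ κ N (fun l => FF T M (f l) x) j (k : ZMod M) =
      DX P e B t₀ κ N T f j ((T ^ (k : ℤ)) x) := by
  unfold DD DX AA AX
  congr 1
  · unfold tv
    congr 1
    refine Finset.sum_congr rfl fun t ht => Finset.prod_congr rfl fun l _ => ?_
    have h1 := YY_le P e B t₀ κ J₀ J₁ N hj l (mem_range.1 ht)
    exact FF_apply T (f l) x hk1 hk2 (v := (P l).eval (t : ℤ)) (by omega)
  · unfold tv
    congr 1
    refine Finset.sum_congr rfl fun t ht => Finset.prod_congr rfl fun l _ => ?_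
    have h1 := YY_le P e B t₀ κ J₀ J₁ N hj l (mem_range.1 ht)
    exact Ew_eq T (f l) x hk1 hk2 (v := (P l).eval (t : ℤ)) h1

lemma meas_pow {X : Type} [MeasurableSpace X] {μ : Measure X} {T : Equiv.Perm X} (hT : IMP μ T)
    (k : ℕ) : Measurable (T ^ k) := by
  have h : ((T ^ k : Equiv.Perm X) : X → X) = T^[k] := by
    rw [Equiv.Perm.iterate_eq_pow]
  rw [h]
  exact hT.1.iterate k

lemma meas_zpow {X : Type} [MeasurableSpace X] {μ : Measure X} {T : Equiv.Perm X} (hT : IMP μ T)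
    (m : ℤ) : Measurable (T ^ m) := by
  rcases Int.eq_nat_or_neg m with ⟨k, rfl | rfl⟩
  · rw [zpow_natCast]
    exact meas_pow hT k
  · have h : (T ^ (-(k : ℤ)) : Equiv.Perm X) = T.symm ^ k := by
      rw [zpow_neg, zpow_natCast, ← inv_pow]
      rfl
    rw [h]
    have h2 : ((T.symm ^ k : Equiv.Perm X) : X → X) = T.symm^[k] := by
      rw [Equiv.Perm.iterate_eq_pow]
    rw [h2]
    exact hT.2.1.iterate k

lemma meas_AX {X : Type} [MeasurableSpace X] {μ : Measure X} {T : Equiv.Perm X} (hT : IMP μ T)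
    {n : ℕ} (N : ℕ) (P : Fin n → ℤ[X]) {f : Fin n → X → ℂ} (hf : ∀ l, Measurable (f l)) :
    Measurable (AX T N P f) := by
  unfold AX tv
  refine Measurable.div_const ?_ _
  refine Finset.measurable_fun_sum _ fun t _ => ?_
  refine Finset.measurable_fun_prod _ fun i _ => ?_
  exact (hf i).comp (meas_zpow hT _)

lemma meas_EwX {X : Type} [MeasurableSpace X] {μ : Measure X} {T : Equiv.Perm X} (hT : IMP μ T)
    (B t T' lam : ℕ) {f : X → ℂ} (hf : Measurable f) : Measurable (EwX T B t T' lam f) := by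
  unfold EwX EX tv
  refine Measurable.div_const ?_ _
  refine Finset.measurable_fun_sum _ fun h _ => ?_
  exact hf.comp (meas_zpow hT _)

end XTransAux

open XTransAux

theorem trans {n : ℕ} (P : Fin n → ℤ[X]) (e : Fin n → ℕ) (B t₀ κ J₀ J₁ : ℕ) (N : ℕ → ℕ) (ε : ℝ) (hε : 0 ≤ ε)
    (H : ∃ M₀ : ℕ, 1 ≤ M₀ ∧ ∀ (M : ℕ) [NeZero M], M₀ ∣ M → ∀ f : Fin n → ZMod M → ℂ, (∀ l, Bd (f l)) →
      ∀ c : ZMod M → ℕ, Ch J₀ J₁ c →
      avr (fun x => ‖AA (N (c x)) P f x -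
        AA (N (c x)) P (fun l => Ew B t₀ (tj (c x)) (N (c x) ^ e l / 2 ^ κ) (f l)) x‖) ≤ ε)
    (X : Type) [MeasurableSpace X] (μ : Measure X) [IsProbabilityMeasure μ] (T : Equiv.Perm X) (hT : IMP μ T)
    (f : Fin n → X → ℂ) (hfm : ∀ l, Measurable (f l)) (hf : ∀ l x, ‖f l x‖ ≤ 1) :
    ∫⁻ x, (⨆ j ∈ Icc J₀ J₁, ‖AX T (N j) P f x -
      AX T (N j) P (fun l => EwX T B t₀ (tj j) (N j ^ e l / 2 ^ κ) (f l)) x‖ₑ) ∂μ ≤ ENNReal.ofReal (2 * ε) := by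
  classical
  rcases lt_or_ge J₁ J₀ with hJ | hJ
  · have hE : Icc J₀ J₁ = ∅ := Finset.Icc_eq_empty (by omega)
    simp [hE]
  obtain ⟨M₀, hM₀, H⟩ := H
  set Y := YY P e B t₀ κ J₀ J₁ N with hY
  set M := M₀ * (4 * Y + 4) with hM
  have hM4 : 4 * Y + 4 ≤ M := by
    rw [hM]
    exact Nat.le_mul_of_pos_left _ hM₀
  have : NeZero M := ⟨by omega⟩
  have hM0 : (0 : ℝ) < M := by exact_mod_cast (by omega : 0 < M)
  set Θ : X → ℝ≥0∞ := fun x => ⨆ j ∈ Icc J₀ J₁, ‖DX P e B t₀ κ N T f j x‖ₑ with hΘ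
  have hΘm : Measurable Θ := by
    refine Measurable.iSup fun j => Measurable.iSup fun _ => ?_
    unfold DX
    exact ((meas_AX hT _ _ hfm).sub (meas_AX hT _ _ fun l => meas_EwX hT _ _ _ _ (hfm l))).enorm
  change ∫⁻ x, Θ x ∂μ ≤ ENNReal.ofReal (2 * ε)
  -- pointwise bound
  have hpt : ∀ x : X, ∑ k ∈ Ico Y (M - Y), Θ ((T ^ k) x) ≤ ENNReal.ofReal (M * ε) := by
    intro x
    set F : Fin n → ZMod M → ℂ := fun l => FF T M (f l) x with hF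
    have hFb : ∀ l, Bd (F l) := fun l z => hf l _
    have hmax : ∀ z : ZMod M, ∃ j ∈ Icc J₀ J₁, ∀ i ∈ Icc J₀ J₁,
        ‖DD P e B t₀ κ N F i z‖ ≤ ‖DD P e B t₀ κ N F j z‖ := fun z =>
      Finset.exists_max_image _ _ ⟨J₀, mem_Icc.2 ⟨le_rfl, hJ⟩⟩
    choose c hc1 hc2 using hmax
    have h1 := H M (Dvd.intro _ rfl) F hFb c (fun z => mem_Icc.1 (hc1 z))
    have h2 : ∑ z : ZMod M, ‖DD P e B t₀ κ N F (c z) z‖ ≤ M * ε := by
      have h3 : avr (fun z => ‖DD P e B t₀ κ N F (c z) z‖) ≤ ε := h1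
      unfold avr at h3
      rw [div_le_iff₀ hM0] at h3
      linarith
    have h3 : ∀ k ∈ Ico Y (M - Y), Θ ((T ^ k) x) ≤
        ‖DD P e B t₀ κ N F (c (k : ZMod M)) (k : ZMod M)‖ₑ := by
      intro k hk
      rw [mem_Ico] at hk
      refine iSup₂_le fun j hj => ?_
      have h4 := DD_eq P e B t₀ κ J₀ J₁ N (M := M) T f x hj hk.1 hk.2
      have h5 : ((T ^ (k : ℤ)) x) = (T ^ k) x := by rw [zpow_natCast]
      rw [h5] at h4
      rw [← h4, ← ofReal_norm, ← ofReal_norm]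
      exact ENNReal.ofReal_le_ofReal (hc2 _ j hj)
    calc ∑ k ∈ Ico Y (M - Y), Θ ((T ^ k) x)
        ≤ ∑ k ∈ Ico Y (M - Y), ‖DD P e B t₀ κ N F (c (k : ZMod M)) (k : ZMod M)‖ₑ :=
          Finset.sum_le_sum h3
      _ = ∑ z ∈ (Ico Y (M - Y)).image (fun k : ℕ => (k : ZMod M)),
            ‖DD P e B t₀ κ N F (c z) z‖ₑ := by
          rw [Finset.sum_image]
          intro a ha b hb hab
          simp only [Finset.coe_Ico, Set.mem_Ico] at ha hb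
          have h6 := congrArg ZMod.val hab
          simp only at h6
          rwa [ZMod.val_natCast_of_lt (by omega), ZMod.val_natCast_of_lt (by omega)] at h6
      _ ≤ ∑ z : ZMod M, ‖DD P e B t₀ κ N F (c z) z‖ₑ :=
          Finset.sum_le_sum_of_subset (Finset.subset_univ _)
      _ = ENNReal.ofReal (∑ z : ZMod M, ‖DD P e B t₀ κ N F (c z) z‖) := by
          rw [ENNReal.ofReal_sum_of_nonneg fun _ _ => norm_nonneg _]
          refine Finset.sum_congr rfl fun z _ => ?_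
          rw [ofReal_norm]
      _ ≤ ENNReal.ofReal (M * ε) := ENNReal.ofReal_le_ofReal h2
  have hint : ∫⁻ x, ∑ k ∈ Ico Y (M - Y), Θ ((T ^ k) x) ∂μ = ((M - 2 * Y : ℕ) : ℝ≥0∞) * ∫⁻ x, Θ x ∂μ := by
    rw [lintegral_finsetSum (Ico Y (M - Y)) (f := fun k x => Θ ((T ^ k) x))
      fun k _ => hΘm.comp (meas_pow hT k)]
    have h1 : ∀ k ∈ Ico Y (M - Y), ∫⁻ x, Θ ((T ^ k) x) ∂μ = ∫⁻ x, Θ x ∂μ := by
      intro k _
      have h : ((T ^ k : Equiv.Perm X) : X → X) = T^[k] := by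
        rw [Equiv.Perm.iterate_eq_pow]
      rw [h]
      exact (hT.2.2.iterate k).lintegral_comp hΘm
    rw [Finset.sum_congr rfl h1, Finset.sum_const, Nat.card_Ico, nsmul_eq_mul]
    congr 2
    omega
  have hup : ((M - 2 * Y : ℕ) : ℝ≥0∞) * ∫⁻ x, Θ x ∂μ ≤ ENNReal.ofReal (M * ε) := by
    rw [← hint]
    calc ∫⁻ x, ∑ k ∈ Ico Y (M - Y), Θ ((T ^ k) x) ∂μ ≤ ∫⁻ _, ENNReal.ofReal (M * ε) ∂μ :=
          lintegral_mono fun x => hpt x
      _ = ENNReal.ofReal (M * ε) := by simp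
  have h2 : ENNReal.ofReal (M * ε) ≤ ((M - 2 * Y : ℕ) : ℝ≥0∞) * ENNReal.ofReal (2 * ε) := by
    have h3 : ((M - 2 * Y : ℕ) : ℝ≥0∞) = ENNReal.ofReal ((M - 2 * Y : ℕ) : ℝ) := by
      rw [ENNReal.ofReal_natCast]
    rw [h3, ← ENNReal.ofReal_mul (Nat.cast_nonneg _)]
    refine ENNReal.ofReal_le_ofReal ?_
    have h4 : (M : ℝ) ≤ 2 * ((M - 2 * Y : ℕ) : ℝ) := by
      exact_mod_cast (by omega : M ≤ 2 * (M - 2 * Y))
    nlinarith
  have h5 := hup.trans h2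
  have h6 : ((M - 2 * Y : ℕ) : ℝ≥0∞) ≠ 0 := by
    have : M - 2 * Y ≠ 0 := by omega
    exact_mod_cast this
  have h7 : ((M - 2 * Y : ℕ) : ℝ≥0∞) ≠ ∞ := ENNReal.natCast_ne_top _
  exact (ENNReal.mul_le_mul_iff_right h6 h7).1 h5

end Pool.Agent.EQD.Lo
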